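import Pool.Agent.Lib.MP_4d119b_lc.Basic

/-! Menger's theorem (vertex version), following Goering's proof. -/

namespace Pool.Agent.Lib.MP_4d119b_lc

open Set

universe u

variable {V : Type u}

/-- no set of fewer than `k` vertices separates `A` from `B` -/
def NoSep (G : SimpleGraph V) (A B : Set V) (k : ℕ) : Prop :=
  ∀ C : Finset V, C.card < k → ∃ a ∈ A, ∃ b ∈ B, a ∉ C ∧ b ∉ C ∧ RIn G (↑C)ᶜ a b

/-- delete one edge -/
def delE (G : SimpleGraph V) (x y : V) : SimpleGraph V where
  Adj a b := G.Adj a b ∧ ¬ (a = x ∧ b = y) ∧ ¬ (a = y ∧ b = x)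
  symm := ⟨fun _ _ h => ⟨h.1.symm, fun h' => h.2.2 ⟨h'.2, h'.1⟩, fun h' => h.2.1 ⟨h'.2, h'.1⟩⟩⟩
  loopless := ⟨fun a h => G.loopless.irrefl a h.1⟩

theorem delE_le (G : SimpleGraph V) (x y : V) : delE G x y ≤ G := fun _ _ h => h.1

theorem delE_comm (G : SimpleGraph V) (x y : V) : delE G x y = delE G y x := by
  ext a b
  simp only [delE]
  tauto

/-- reachability either avoids the edge or reaches one of its ends first -/
theorem RIn.delE_or {G : SimpleGraph V} {S : Set V} {x y a b : V} (h : RIn G S a b) :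
    RIn (delE G x y) S a b ∨ (RIn (delE G x y) S a x ∧ RIn (delE G x y) S b y) ∨
      (RIn (delE G x y) S a y ∧ RIn (delE G x y) S b x) := by
  induction h with
  | refl => exact Or.inl (RIn.refl _ _ _)
  | @tail c d _ hcd ih =>
    obtain ⟨hadj, hc, hd⟩ := hcd
    by_cases h1 : c = x ∧ d = y
    · obtain ⟨rfl, rfl⟩ := h1
      rcases ih with ih | ih | ih
      · exact Or.inr (Or.inl ⟨ih, RIn.refl _ _ _⟩)
      · exact Or.inr (Or.inl ⟨ih.1, RIn.refl _ _ _⟩)
      · exact Or.inl ih.1
    · by_cases h2 : c = y ∧ d = x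
      · obtain ⟨rfl, rfl⟩ := h2
        rcases ih with ih | ih | ih
        · exact Or.inr (Or.inr ⟨ih, RIn.refl _ _ _⟩)
        · exact Or.inl ih.1
        · exact Or.inr (Or.inr ⟨ih.1, RIn.refl _ _ _⟩)
      · have hstep : RIn (delE G x y) S c d := RIn.single ⟨hadj, h1, h2⟩ hc hd
        rcases ih with ih | ih | ih
        · exact Or.inl (ih.trans hstep)
        · exact Or.inr (Or.inl ⟨ih.1, hstep.symm.trans ih.2⟩)
        · exact Or.inr (Or.inr ⟨ih.1, hstep.symm.trans ih.2⟩)

theorem menger_aux [Finite V] (k : ℕ) : ∀ (n : ℕ) (G : SimpleGraph V) (A B : Set V),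
    G.edgeSet.ncard = n → NoSep G A B k →
    ∃ P : Fin k → GP G, (∀ i, (P i).p 0 ∈ A ∧ (P i).p (P i).len ∈ B) ∧
      ∀ i j, i ≠ j → Disjoint (P i).supp (P j).supp := by
  classical
  have := Fintype.ofFinite V
  intro n
  induction n using Nat.strong_induction_on with
  | _ n ih =>
  intro G A B hn hsep
  by_cases hE : ∃ x y, G.Adj x y
  swap
  · -- no edges
    push Not at hE
    have hR : ∀ (S : Set V) a b, RIn G S a b → a = b := by
      intro S a b h
      induction h with
      | refl => rfl
      | tail _ hbc _ => exact absurd hbc.1 (hE _ _)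
    have hcard : k ≤ (Finset.univ.filter (fun v => v ∈ A ∩ B)).card := by
      by_contra hlt
      push Not at hlt
      obtain ⟨a, ha, b, hb, haC, hbC, hab⟩ := hsep _ hlt
      have := hR _ _ _ hab
      subst this
      exact haC (by simp [ha, hb])
    obtain ⟨f⟩ : Nonempty (Fin k ↪ {v // v ∈ Finset.univ.filter (fun v => v ∈ A ∩ B)}) := by
      apply Function.Embedding.nonempty_of_card_le
      rw [Fintype.card_fin, Fintype.card_coe]
      exact hcard
    refine ⟨fun i => GP.single G (f i).1, ?_, ?_⟩
    · intro i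
      have := (f i).2
      simp only [Finset.mem_filter, Finset.mem_univ, true_and] at this
      exact ⟨this.1, this.2⟩
    · intro i j hij
      rw [Set.disjoint_left]
      rintro v ⟨a, _, ha⟩ ⟨b, _, hb⟩
      apply hij
      apply f.injective
      apply Subtype.ext
      exact ha.trans hb.symm
  obtain ⟨x₀, y₀, hxy₀⟩ := hE
  -- the symmetric core statement
  have core : ∀ x y, G.Adj x y → ∀ S : Finset V, S.card < k →
      (∀ a ∈ A, ∀ b ∈ B, a ∉ S → b ∉ S → ¬ RIn (delE G x y) (↑S)ᶜ a b) →
      (∃ a ∈ A, a ∉ S ∧ RIn (delE G x y) (↑S)ᶜ a x) →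
      (∃ b ∈ B, b ∉ S ∧ RIn (delE G x y) (↑S)ᶜ b y) →
      ∃ P : Fin k → GP G, (∀ i, (P i).p 0 ∈ A ∧ (P i).p (P i).len ∈ B) ∧
        ∀ i j, i ≠ j → Disjoint (P i).supp (P j).supp := by
    intro x y hxy S hS hno hx hy
    set G' := delE G x y with hG'
    have hlt : G'.edgeSet.ncard < n := by
      rw [← hn]
      apply Set.ncard_lt_ncard _ (Set.toFinite _)
      refine ⟨SimpleGraph.edgeSet_mono (delE_le G x y), ?_⟩
      intro hcon
      have : s(x, y) ∈ G'.edgeSet := hcon hxy
      rw [SimpleGraph.mem_edgeSet] at this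
      exact this.2.1 ⟨rfl, rfl⟩
    obtain ⟨a0, ha0, ha0S, ha0x⟩ := hx
    obtain ⟨b0, hb0, hb0S, hb0y⟩ := hy
    have hxS : x ∉ S := ha0x.mem_right (by simpa using ha0S)
    have hyS : y ∉ S := hb0y.mem_right (by simpa using hb0S)
    -- RA, RB
    have hRAB : ∀ z a b, a ∈ A → a ∉ S → b ∈ B → b ∉ S → RIn G' (↑S)ᶜ a z → RIn G' (↑S)ᶜ b z →
        False := fun z a b ha haS hb hbS h1 h2 => hno a ha b hb haS hbS (h1.trans h2.symm)
    -- cardinality
    have hcard : S.card + 1 = k := by
      by_contra hne
      have hlt' : (insert x S).card < k := by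
        have := Finset.card_insert_le x S
        omega
      obtain ⟨a, ha, b, hb, haC, hbC, hab⟩ := hsep _ hlt'
      rw [Finset.mem_insert, not_or] at haC hbC
      have hsub : ((↑(insert x S) : Set V))ᶜ ⊆ (↑S : Set V)ᶜ := by
        intro z hz; simp only [mem_compl_iff, Finset.mem_coe, Finset.mem_insert, not_or] at hz ⊢
        exact hz.2
      rcases hab.delE_or (x := x) (y := y) with h1 | h1 | h1
      · exact hno a ha b hb haC.2 hbC.2 (h1.mono hsub)
      · have := h1.1.mem_right (by simpa using haC)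
        simp at this
      · have := h1.2.mem_right (by simpa using hbC)
        simp at this
    have hxy' : x ≠ y := hxy.ne
    -- A to X
    have hAX : NoSep G' A (↑(insert x S)) k := by
      intro C hC
      by_contra hcon
      push Not at hcon
      obtain ⟨a, ha, b, hb, haC, hbC, hab⟩ := hsep C hC
      -- everything reachable from a in G' - C avoids X
      have havoid : ∀ z, RIn G' (↑C)ᶜ a z → z ∉ (↑(insert x S) : Set V) := by
        intro z hz hzX
        exact hcon a ha z hzX haC (by simpa using hz.mem_right (by simpa using haC)) hz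
      have haS : a ∉ S := by
        have := havoid a (RIn.refl _ _ _)
        simp only [Finset.coe_insert, mem_insert_iff, Finset.mem_coe, not_or] at this
        exact this.2
      have hconv : ∀ z, RIn G' (↑C)ᶜ a z → RIn G' (↑S)ᶜ a z := by
        intro z hz
        have := (RIn.closed (P := fun z => RIn G' (↑C)ᶜ a z ∧ RIn G' (↑S)ᶜ a z) hz
          ⟨RIn.refl _ _ _, RIn.refl _ _ _⟩ ?_).2
        · exact this
        · rintro c d hc hd hcd ⟨h1, h2⟩
          have h3 := h1.tail hcd hc hd
          refine ⟨h3, h2.tail hcd ?_ ?_⟩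
          · have := havoid _ h1
            simp only [Finset.coe_insert, mem_insert_iff, Finset.mem_coe, not_or] at this
            simpa using this.2
          · have := havoid _ h3
            simp only [Finset.coe_insert, mem_insert_iff, Finset.mem_coe, not_or] at this
            simpa using this.2
      rcases hab.delE_or (x := x) (y := y) with h1 | h1 | h1
      · have h2 := hconv b h1
        exact hno a ha b hb haS (by simpa using h2.mem_right (by simpa using haS)) h2
      · exact havoid x h1.1 (by simp)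
      · exact hRAB y a b0 ha haS hb0 hb0S (hconv y h1.1) hb0y
    have hYB : NoSep G' (↑(insert y S)) B k := by
      intro C hC
      by_contra hcon
      push Not at hcon
      obtain ⟨a, ha, b, hb, haC, hbC, hab⟩ := hsep C hC
      have havoid : ∀ z, RIn G' (↑C)ᶜ b z → z ∉ (↑(insert y S) : Set V) := by
        intro z hz hzX
        exact hcon z hzX b hb (by simpa using hz.mem_right (by simpa using hbC)) hbC hz.symm
      have hbS : b ∉ S := by
        have := havoid b (RIn.refl _ _ _)
        simp only [Finset.coe_insert, mem_insert_iff, Finset.mem_coe, not_or] at this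
        exact this.2
      have hconv : ∀ z, RIn G' (↑C)ᶜ b z → RIn G' (↑S)ᶜ b z := by
        intro z hz
        have := (RIn.closed (P := fun z => RIn G' (↑C)ᶜ b z ∧ RIn G' (↑S)ᶜ b z) hz
          ⟨RIn.refl _ _ _, RIn.refl _ _ _⟩ ?_).2
        · exact this
        · rintro c d hc hd hcd ⟨h1, h2⟩
          have h3 := h1.tail hcd hc hd
          refine ⟨h3, h2.tail hcd ?_ ?_⟩
          · have := havoid _ h1
            simp only [Finset.coe_insert, mem_insert_iff, Finset.mem_coe, not_or] at this
            simpa using this.2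
          · have := havoid _ h3
            simp only [Finset.coe_insert, mem_insert_iff, Finset.mem_coe, not_or] at this
            simpa using this.2
      rcases hab.delE_or (x := x) (y := y) with h1 | h1 | h1
      · have h2 := hconv a h1.symm
        exact hno a ha b hb (by simpa using h2.mem_right (by simpa using hbS)) hbS h2.symm
      · exact havoid y h1.2 (by simp)
      · exact hRAB x a0 b ha0 ha0S hb hbS ha0x (hconv x h1.2)
    obtain ⟨P, hP1, hP2⟩ := ih _ hlt G' A _ rfl hAX
    obtain ⟨Q, hQ1, hQ2⟩ := ih _ hlt G' _ B rfl hYB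
    -- trimmed paths
    have htrimP : ∀ i, ∃ R : GP G', R.p 0 ∈ A ∧ R.p R.len ∈ (↑(insert x S) : Set V) ∧
        R.supp ⊆ (P i).supp ∧ (∀ j, 0 < j → j ≤ R.len → R.p j ∉ A) ∧
        (∀ j, j < R.len → R.p j ∉ (↑(insert x S) : Set V)) := by
      intro i
      have := (P i).supp_conn.2 _ ((P i).mem_supp (Nat.zero_le _)) _ ((P i).mem_supp le_rfl)
      exact this.exists_ABpath ((P i).mem_supp (Nat.zero_le _)) (hP1 i).1 (hP1 i).2
    have htrimQ : ∀ i, ∃ R : GP G', R.p 0 ∈ (↑(insert y S) : Set V) ∧ R.p R.len ∈ B ∧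
        R.supp ⊆ (Q i).supp ∧ (∀ j, 0 < j → j ≤ R.len → R.p j ∉ (↑(insert y S) : Set V)) ∧
        (∀ j, j < R.len → R.p j ∉ B) := by
      intro i
      have := (Q i).supp_conn.2 _ ((Q i).mem_supp (Nat.zero_le _)) _ ((Q i).mem_supp le_rfl)
      exact this.exists_ABpath ((Q i).mem_supp (Nat.zero_le _)) (hQ1 i).1 (hQ1 i).2
    choose P' hP'0 hP'1 hP's hP'A hP'X using htrimP
    choose Q' hQ'0 hQ'1 hQ's hQ'Y hQ'B using htrimQ
    have hP'd : ∀ i j, i ≠ j → Disjoint (P' i).supp (P' j).supp := fun i j hij =>
      (hP2 i j hij).mono (hP's i) (hP's j)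
    have hQ'd : ∀ i j, i ≠ j → Disjoint (Q' i).supp (Q' j).supp := fun i j hij =>
      (hQ2 i j hij).mono (hQ's i) (hQ's j)
    -- vertices of P' other than the last are reachable from A avoiding S
    have hPR : ∀ i j, j < (P' i).len → ∃ a ∈ A, a ∉ S ∧ RIn G' (↑S)ᶜ a ((P' i).p j) := by
      intro i j hj
      refine ⟨(P' i).p 0, hP'0 i, ?_, ?_⟩
      · have := hP'X i 0 (by omega)
        simp only [Finset.coe_insert, mem_insert_iff, Finset.mem_coe, not_or] at this
        exact this.2
      · refine ((P' i).reach (Nat.zero_le j) hj.le).mono ?_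
        rintro v ⟨l, _, hl, rfl⟩
        have := hP'X i l (by omega)
        simp only [Finset.coe_insert, mem_insert_iff, Finset.mem_coe, not_or] at this
        simpa using this.2
    have hPR' : ∀ i, (P' i).p (P' i).len = x → ∃ a ∈ A, a ∉ S ∧ RIn G' (↑S)ᶜ a x :=
      fun i _ => ⟨a0, ha0, ha0S, ha0x⟩
    have hQR : ∀ i j, 0 < j → j ≤ (Q' i).len → ∃ b ∈ B, b ∉ S ∧ RIn G' (↑S)ᶜ b ((Q' i).p j) := by
      intro i j hj hjl
      refine ⟨(Q' i).p (Q' i).len, hQ'1 i, ?_, ?_⟩
      · have := hQ'Y i (Q' i).len (by omega) le_rfl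
        simp only [Finset.coe_insert, mem_insert_iff, Finset.mem_coe, not_or] at this
        exact this.2
      · refine RIn.symm (((Q' i).reach hjl le_rfl).mono ?_)
        rintro v ⟨l, hl1, hl, rfl⟩
        have := hQ'Y i l (by omega) hl
        simp only [Finset.coe_insert, mem_insert_iff, Finset.mem_coe, not_or] at this
        simpa using this.2
    -- ends
    have hendP_inj : Function.Injective (fun i => (⟨(P' i).p (P' i).len, by
        simpa using hP'1 i⟩ : {v // v ∈ insert x S})) := by
      intro i j hij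
      by_contra hne
      have : (P' i).p (P' i).len = (P' j).p (P' j).len := congrArg Subtype.val hij
      exact Set.disjoint_left.1 (hP'd i j hne) ((P' i).mem_supp le_rfl)
        (this ▸ (P' j).mem_supp le_rfl)
    have hstQ_inj : Function.Injective (fun i => (⟨(Q' i).p 0, by
        simpa using hQ'0 i⟩ : {v // v ∈ insert y S})) := by
      intro i j hij
      by_contra hne
      have : (Q' i).p 0 = (Q' j).p 0 := congrArg Subtype.val hij
      exact Set.disjoint_left.1 (hQ'd i j hne) ((Q' i).mem_supp (Nat.zero_le _))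
        (this ▸ (Q' j).mem_supp (Nat.zero_le _))
    have hstQ_surj := hstQ_inj.surjective_of_finite
      (Fintype.equivOfCardEq (by
        rw [Fintype.card_fin, Fintype.card_coe, Finset.card_insert_of_notMem hyS, hcard]) :
          Fin k ≃ {v // v ∈ insert y S})
    have hτ : ∀ i, ∃ j, (Q' j).p 0 = if (P' i).p (P' i).len = x then y else
        (P' i).p (P' i).len := by
      intro i
      by_cases hx1 : (P' i).p (P' i).len = x
      · obtain ⟨j, hj⟩ := hstQ_surj ⟨y, by simp⟩
        refine ⟨j, ?_⟩
        rw [if_pos hx1]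
        exact congrArg Subtype.val hj
      · have hm : (P' i).p (P' i).len ∈ S := by
          have := hP'1 i
          simp only [Finset.coe_insert, mem_insert_iff, Finset.mem_coe] at this
          exact this.resolve_left hx1
        obtain ⟨j, hj⟩ := hstQ_surj ⟨(P' i).p (P' i).len, by simp [hm]⟩
        refine ⟨j, ?_⟩
        rw [if_neg hx1]
        exact congrArg Subtype.val hj
    choose τ hτ using hτ
    have hendne : ∀ i, (P' i).p (P' i).len ≠ y := by
      intro i h
      have := hP'1 i
      simp only [Finset.coe_insert, mem_insert_iff, Finset.mem_coe] at this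
      rcases this with h' | h'
      · exact hxy' (h'.symm.trans h)
      · exact hyS (h ▸ h')
    have hτinj : Function.Injective τ := by
      intro i j hij
      have h1 := hτ i
      rw [hij, hτ j] at h1
      have : (P' i).p (P' i).len = (P' j).p (P' j).len := by
        by_cases h2 : (P' i).p (P' i).len = x <;> by_cases h3 : (P' j).p (P' j).len = x
        · rw [h2, h3]
        · rw [if_pos h2, if_neg h3] at h1
          exact absurd h1 (hendne j)
        · rw [if_neg h2, if_pos h3] at h1
          exact absurd h1.symm (hendne i)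
        · rw [if_neg h2, if_neg h3] at h1
          exact h1.symm
      exact hendP_inj (Subtype.ext this)
    have hconn : ∀ i, Conn G ((P' i).supp ∪ (Q' (τ i)).supp) := by
      intro i
      have h1 := (P' i).supp_conn.monoG (delE_le G x y)
      have h2 := (Q' (τ i)).supp_conn.monoG (delE_le G x y)
      by_cases hx1 : (P' i).p (P' i).len = x
      · refine h1.union_touch h2 ⟨_, (P' i).mem_supp le_rfl, _, (Q' (τ i)).mem_supp
          (Nat.zero_le _), ?_⟩
        rw [hτ i, if_pos hx1, hx1]
        exact hxy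
      · refine h1.union h2 ⟨_, (P' i).mem_supp le_rfl, ?_⟩
        have := (Q' (τ i)).mem_supp (Nat.zero_le _)
        rwa [hτ i, if_neg hx1] at this
    have hdisjPQ : ∀ i j, i ≠ j → Disjoint (P' i).supp (Q' (τ j)).supp := by
      intro i j hij
      rw [Set.disjoint_left]
      rintro v ⟨l, hl, hlv⟩ ⟨m, hm, hmv⟩
      by_cases hl' : l < (P' i).len
      · obtain ⟨a, ha, haS, har⟩ := hPR i l hl'
        rw [hlv] at har
        by_cases hm' : 0 < m
        · obtain ⟨b, hb, hbS, hbr⟩ := hQR (τ j) m hm' hm
          rw [hmv] at hbr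
          exact hRAB v a b ha haS hb hbS har hbr
        · have hm0 : m = 0 := by omega
          subst hm0
          have := hQ'0 (τ j)
          rw [hmv] at this
          simp only [Finset.coe_insert, mem_insert_iff, Finset.mem_coe] at this
          rcases this with h1 | h1
          · subst h1
            exact hRAB v a b0 ha haS hb0 hb0S har hb0y
          · have := har.mem_right (by simpa using haS)
            simp only [mem_compl_iff, Finset.mem_coe] at this
            exact this h1
      · have hl0 : l = (P' i).len := by omega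
        subst hl0
        by_cases hm' : 0 < m
        · obtain ⟨b, hb, hbS, hbr⟩ := hQR (τ j) m hm' hm
          rw [hmv] at hbr
          have h1 := hP'1 i
          rw [hlv] at h1
          simp only [Finset.coe_insert, mem_insert_iff, Finset.mem_coe] at h1
          rcases h1 with h1 | h1
          · subst h1
            exact hRAB v a0 b ha0 ha0S hb hbS ha0x hbr
          · have := hbr.mem_right (by simpa using hbS)
            simp only [mem_compl_iff, Finset.mem_coe] at this
            exact this h1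
        · have hm0 : m = 0 := by omega
          subst hm0
          have h1 := hτ j
          rw [hmv] at h1
          apply hij
          apply hendP_inj
          apply Subtype.ext
          show (P' i).p (P' i).len = (P' j).p (P' j).len
          by_cases h3 : (P' j).p (P' j).len = x
          · rw [if_pos h3] at h1
            exact absurd (hlv.trans h1) (hendne i)
          · rw [if_neg h3] at h1
            exact hlv.trans h1
    have hpath : ∀ i, ∃ R : GP G, R.p 0 ∈ A ∧ R.p R.len ∈ B ∧
        R.supp ⊆ (P' i).supp ∪ (Q' (τ i)).supp := by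
      intro i
      obtain ⟨R, h0, h1, h2⟩ := ((hconn i).2 _ (Or.inl ((P' i).mem_supp (Nat.zero_le _))) _
        (Or.inr ((Q' (τ i)).mem_supp le_rfl))).exists_path
        (Or.inl ((P' i).mem_supp (Nat.zero_le _)))
      exact ⟨R, h0 ▸ hP'0 i, h1 ▸ hQ'1 (τ i), h2⟩
    choose R hR0 hR1 hR2 using hpath
    refine ⟨R, fun i => ⟨hR0 i, hR1 i⟩, ?_⟩
    intro i j hij
    refine Disjoint.mono (hR2 i) (hR2 j) ?_
    rw [Set.disjoint_union_left, Set.disjoint_union_right, Set.disjoint_union_right]
    exact ⟨⟨hP'd i j hij, hdisjPQ i j hij⟩, ⟨(hdisjPQ j i (Ne.symm hij)).symm,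
      hQ'd _ _ (fun h => hij (hτinj h))⟩⟩
  by_cases hsep' : NoSep (delE G x₀ y₀) A B k
  · have hlt : (delE G x₀ y₀).edgeSet.ncard < n := by
      rw [← hn]
      apply Set.ncard_lt_ncard _ (Set.toFinite _)
      refine ⟨SimpleGraph.edgeSet_mono (delE_le G x₀ y₀), ?_⟩
      intro hcon
      have : s(x₀, y₀) ∈ (delE G x₀ y₀).edgeSet := hcon hxy₀
      rw [SimpleGraph.mem_edgeSet] at this
      exact this.2.1 ⟨rfl, rfl⟩
    obtain ⟨P, hP1, hP2⟩ := ih _ hlt _ A B rfl hsep'
    exact ⟨fun i => (P i).mapG (fun j hj => delE_le G x₀ y₀ ((P i).adj j hj)), hP1, hP2⟩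
  · unfold NoSep at hsep'
    push Not at hsep'
    obtain ⟨S, hS, hno⟩ := hsep'
    have hno' : ∀ a ∈ A, ∀ b ∈ B, a ∉ S → b ∉ S → ¬ RIn (delE G x₀ y₀) (↑S)ᶜ a b :=
      fun a ha b hb haS hbS => hno a ha b hb haS hbS
    obtain ⟨a, ha, b, hb, haS, hbS, hab⟩ := hsep S hS
    rcases hab.delE_or (x := x₀) (y := y₀) with h1 | h1 | h1
    · exact absurd h1 (hno' a ha b hb haS hbS)
    · exact core x₀ y₀ hxy₀ S hS hno' ⟨a, ha, haS, h1.1⟩ ⟨b, hb, hbS, h1.2⟩
    · refine core y₀ x₀ hxy₀.symm S hS ?_ ⟨a, ha, haS, ?_⟩ ⟨b, hb, hbS, ?_⟩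
      · rw [delE_comm]; exact hno'
      · rw [delE_comm]; exact h1.1
      · rw [delE_comm]; exact h1.2

/-- **Menger's theorem.** If fewer than `k` vertices never separate `A` from `B` then there are
`k` disjoint `A`–`B` paths. -/
theorem menger [Finite V] (G : SimpleGraph V) (A B : Set V) (k : ℕ) (h : NoSep G A B k) :
    ∃ P : Fin k → GP G, (∀ i, (P i).p 0 ∈ A ∧ (P i).p (P i).len ∈ B ∧
      (∀ j, 0 < j → j ≤ (P i).len → (P i).p j ∉ A) ∧ (∀ j, j < (P i).len → (P i).p j ∉ B)) ∧
      ∀ i j, i ≠ j → Disjoint (P i).supp (P j).supp := by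
  obtain ⟨P, hP1, hP2⟩ := menger_aux k _ G A B rfl h
  have : ∀ i, ∃ R : GP G, R.p 0 ∈ A ∧ R.p R.len ∈ B ∧ R.supp ⊆ (P i).supp ∧
      (∀ j, 0 < j → j ≤ R.len → R.p j ∉ A) ∧ (∀ j, j < R.len → R.p j ∉ B) := by
    intro i
    exact ((P i).supp_conn.2 _ ((P i).mem_supp (Nat.zero_le _)) _
      ((P i).mem_supp le_rfl)).exists_ABpath ((P i).mem_supp (Nat.zero_le _)) (hP1 i).1 (hP1 i).2
  choose R h0 h1 h2 h3 h4 using this
  exact ⟨R, fun i => ⟨h0 i, h1 i, h3 i, h4 i⟩, fun i j hij =>
    (hP2 i j hij).mono (h2 i) (h2 j)⟩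

end Pool.Agent.Lib.MP_4d119b_lc
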