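import Pool.Agent.Lib.MP_4d119b_lc.Iface

/-! Large width gives a mesh. -/

set_option autoImplicit false

namespace Pool.Agent.Lib.MP_4d119b_lc

open Set

namespace Haven

variable {V : Type} [Finite V] {G : SimpleGraph V} {W : Finset V} {κ : ℕ}

/-- `K` is the big component of `G - S` -/
structure Big (G : SimpleGraph V) (W : Finset V) (κ : ℕ) (S K : Set V) : Prop where
  card : S.ncard < κ
  conn : Conn G K
  disj : Disjoint K S
  closed : ∀ x ∈ K, ∀ y, G.Adj x y → y ∉ S → y ∈ K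
  big : 2 * κ < ((W : Set V) ∩ K).ncard

/-- `W` witnesses large width -/
def WideAt (G : SimpleGraph V) (W : Finset V) (κ : ℕ) : Prop :=
  W.card = 3 * κ ∧ ∀ A B : Set V, A ∪ B = univ →
    (∀ x ∈ A \ B, ∀ y ∈ B \ A, ¬ G.Adj x y) → (A ∩ B).ncard < κ →
    2 * κ < (↑W ∩ (A \ B)).ncard ∨ 2 * κ < (↑W ∩ (B \ A)).ncard

omit [Finite V] in
lemma two_le (hW : W.card = 3 * κ) {A B : Set V} (h : Disjoint A B) :
    ((W : Set V) ∩ A).ncard + ((W : Set V) ∩ B).ncard ≤ 3 * κ := by
  have hfin : (W : Set V).Finite := W.finite_toSet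
  rw [← Set.ncard_union_eq (h.mono inter_subset_right inter_subset_right)
    (hfin.subset inter_subset_left) (hfin.subset inter_subset_left), ← hW,
    ← Set.ncard_coe_finset W]
  exact Set.ncard_le_ncard (union_subset inter_subset_left inter_subset_left) hfin

lemma exists_big (hW : WideAt G W κ) (S : Set V) (hS : S.ncard < κ) : ∃ K, Big G W κ S K := by
  classical
  let Cl : Set V → Prop := fun U => Disjoint U S ∧ ∀ x ∈ U, ∀ y, G.Adj x y → y ∉ S → y ∈ U
  have hdich : ∀ U, Cl U → 2 * κ < ((W : Set V) ∩ U).ncard ∨ ((W : Set V) ∩ U).ncard < κ := by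
    intro U hU
    have h1 := hW.2 (U ∪ S) Uᶜ (by
      rw [eq_univ_iff_forall]
      intro x
      by_cases hx : x ∈ U
      · exact Or.inl (Or.inl hx)
      · exact Or.inr hx) ?_ ?_
    · have e1 : (U ∪ S) \ Uᶜ = U := by
        ext x
        simp only [mem_sdiff, mem_union, mem_compl_iff, not_not]
        tauto
      have e2 : Uᶜ \ (U ∪ S) ⊆ Uᶜ := sdiff_subset
      rw [e1] at h1
      rcases h1 with h1 | h1
      · exact Or.inl h1
      · right
        have h2 := two_le hW.1 (A := U) (B := Uᶜ \ (U ∪ S))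
          (disjoint_compl_right.mono_right e2)
        omega
    · rintro x ⟨hx1, hx2⟩ y ⟨hy1, hy2⟩ hxy
      have hxU : x ∈ U := by simpa using hx2
      exact hy2 (Or.inl (hU.2 x hxU y hxy (fun h => hy2 (Or.inr h))))
    · have e3 : (U ∪ S) ∩ Uᶜ = S := by
        ext x
        simp only [mem_inter_iff, mem_union, mem_compl_iff]
        constructor
        · rintro ⟨h | h, h'⟩
          · exact absurd h h'
          · exact h
        · intro h
          exact ⟨Or.inr h, fun h' => Set.disjoint_left.1 hU.1 h' h⟩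
      rw [e3]
      exact hS
  have hex : ∃ n, ∃ U, Cl U ∧ 2 * κ < ((W : Set V) ∩ U).ncard ∧ U.ncard = n := by
    refine ⟨_, Sᶜ, ⟨disjoint_compl_left, fun x _ y _ hy => hy⟩, ?_, rfl⟩
    have h1 : (W : Set V) = ((W : Set V) ∩ Sᶜ) ∪ ((W : Set V) ∩ S) := by
      ext x
      simp only [mem_union, mem_inter_iff, mem_compl_iff]
      tauto
    have h2 : (W : Set V).ncard ≤ ((W : Set V) ∩ Sᶜ).ncard + ((W : Set V) ∩ S).ncard := by
      conv_lhs => rw [h1]
      exact Set.ncard_union_le _ _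
    have h3 : ((W : Set V) ∩ S).ncard ≤ S.ncard :=
      Set.ncard_le_ncard inter_subset_right (Set.toFinite _)
    rw [Set.ncard_coe_finset, hW.1] at h2
    omega
  obtain ⟨U, hU1, hU2, hU3⟩ := Nat.find_spec hex
  have hmin : ∀ U', Cl U' → U'.ncard < U.ncard → ((W : Set V) ∩ U').ncard < κ := by
    intro U' h1 h2
    rcases hdich U' h1 with h | h
    · exact absurd ⟨U', h1, h, rfl⟩ (Nat.find_min hex (m := U'.ncard) (by rw [hU3] at h2; exact h2))
    · exact h
  have hne : U.Nonempty := by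
    by_contra h
    rw [not_nonempty_iff_eq_empty] at h
    rw [h, inter_empty, ncard_empty] at hU2
    omega
  obtain ⟨x, hx⟩ := hne
  have hxS : x ∈ Sᶜ := fun h => Set.disjoint_left.1 hU1.1 hx h
  set K := comp G Sᶜ x with hK
  have hKS : K ⊆ Sᶜ := comp_subset hxS
  have hKU : K ⊆ U := by
    intro y hy
    exact RIn.closed (P := fun z => z ∈ U) hy hx
      (fun a b _ hb hab ha => hU1.2 a ha b hab hb)
  have hKcl : Cl K := ⟨by
    rw [Set.disjoint_left]
    intro z hz
    exact hKS hz, fun a ha b hab hb => comp_closed hxS ha hb hab⟩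
  have hUK : Cl (U \ K) := ⟨hU1.1.mono_left sdiff_subset, fun a ha b hab hb =>
    ⟨hU1.2 a ha.1 b hab hb, fun hbK => ha.2 (comp_closed hxS hbK
      (fun h => Set.disjoint_left.1 hU1.1 ha.1 h) hab.symm)⟩⟩
  have heq : K = U := by
    by_contra hneq
    have h1 : K.ncard < U.ncard := Set.ncard_lt_ncard (ssubset_of_subset_of_ne hKU hneq)
      (Set.toFinite _)
    have h2 : (U \ K).ncard < U.ncard := by
      refine Set.ncard_lt_ncard ⟨sdiff_subset, fun h => ?_⟩ (Set.toFinite _)
      exact (h hx).2 mem_comp_self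
    have h3 := hmin K hKcl h1
    have h4 := hmin (U \ K) hUK h2
    have h5 : ((W : Set V) ∩ U).ncard ≤ ((W : Set V) ∩ K).ncard + ((W : Set V) ∩ (U \ K)).ncard := by
      refine le_trans (Set.ncard_le_ncard ?_ (Set.toFinite _)) (Set.ncard_union_le _ _)
      intro z hz
      by_cases hzK : z ∈ K
      · exact Or.inl ⟨hz.1, hzK⟩
      · exact Or.inr ⟨hz.1, hz.2, hzK⟩
    omega
  refine ⟨U, hS, ?_, hU1.1, hU1.2, hU2⟩
  rw [← heq]
  exact comp_conn hxS

omit [Finite V] in
lemma Big.inter (hW : W.card = 3 * κ) {S K S' K' : Set V} (h : Big G W κ S K)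
    (h' : Big G W κ S' K') : (K ∩ K').Nonempty := by
  by_contra hne
  rw [not_nonempty_iff_eq_empty, ← disjoint_iff_inter_eq_empty] at hne
  have h1 := two_le hW hne
  have h2 := h.big
  have h3 := h'.big
  omega

omit [Finite V] in
lemma Big.mono (hW : W.card = 3 * κ) {S K S' K' : Set V} (h : Big G W κ S K)
    (h' : Big G W κ S' K') (hd : Disjoint K S') : K ⊆ K' := by
  obtain ⟨z, hz, hz'⟩ := h.inter hW h'
  intro y hy
  exact RIn.closed (P := fun v => v ∈ K') (h.conn.2 z hz y hy) hz'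
    (fun a b _ hb hab ha => h'.closed a ha b hab (Set.disjoint_left.1 hd hb))

/-- there is a path meeting all big components -/
lemma exists_meeting (hW : WideAt G W κ) (hκ : 0 < κ) :
    ∃ P : GP G, ∀ S K, Big G W κ S K → ∃ i, i ≤ P.len ∧ P.p i ∈ K := by
  classical
  let F : GP G → Set (Set V) := fun P => {K | (∃ S, Big G W κ S K) ∧ ∃ i, i ≤ P.len ∧ P.p i ∈ K}
  have key : ∀ n : ℕ, ∃ (P : GP G) (S0 K0 : Set V), Big G W κ S0 K0 ∧ P.p P.len ∈ K0 ∧
      (∀ i, i ≤ P.len → P.p i ∈ K0 → i = P.len) ∧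
      (n ≤ (F P).ncard ∨ ∀ S K, Big G W κ S K → ∃ i, i ≤ P.len ∧ P.p i ∈ K) := by
    intro n
    induction n with
    | zero =>
      obtain ⟨K0, hK0⟩ := exists_big hW ∅ (by rw [ncard_empty]; exact hκ)
      obtain ⟨x, hx⟩ := hK0.conn.1
      refine ⟨GP.single G x, ∅, K0, hK0, hx, ?_, Or.inl (Nat.zero_le _)⟩
      intro i hi _
      have : i ≤ 0 := hi
      show i = 0
      omega
    | succ n ih =>
      obtain ⟨P, S0, K0, h0, h1, h2, h3⟩ := ih
      by_cases hall : ∀ S K, Big G W κ S K → ∃ i, i ≤ P.len ∧ P.p i ∈ K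
      · exact ⟨P, S0, K0, h0, h1, h2, Or.inr hall⟩
      have h3' : n ≤ (F P).ncard := h3.resolve_right hall
      push Not at hall
      obtain ⟨S1, K1, hK1, hmiss⟩ := hall
      obtain ⟨z, hz0, hz1⟩ := h0.inter hW.1 hK1
      obtain ⟨Q, hQ0, hQ1, hQS, hQA, hQB⟩ :=
        (h0.conn.2 _ h1 z hz0).exists_ABpath (A := {P.p P.len}) (B := K1) h1 rfl hz1
      have hQ0' : Q.p 0 = P.p P.len := hQ0
      obtain ⟨R, hR1, hR2, hR3⟩ := GP.exists_glue P Q hQ0'.symm (by
        intro i hi j hj hij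
        have hmem : P.p i ∈ K0 := by rw [hij]; exact hQS (Q.mem_supp hj)
        have hi' := h2 i hi hmem
        rw [hi', ← hQ0'] at hij
        exact (Q.inj 0 (Nat.zero_le _) j hj hij).symm)
      have hend : R.p R.len = Q.p Q.len := by rw [hR1]; exact hR3 _ le_rfl
      refine ⟨R, S1, K1, hK1, by rw [hend]; exact hQ1, ?_, Or.inl ?_⟩
      · intro i hi hiK
        rw [hR1] at hi ⊢
        by_cases hiP : i ≤ P.len
        · rw [hR2 i hiP] at hiK
          exact absurd hiK (hmiss i hiP)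
        · obtain ⟨j, rfl⟩ : ∃ j, i = P.len + j := ⟨i - P.len, by omega⟩
          rw [hR3 j (by omega)] at hiK
          by_contra hne
          exact hQB j (by omega) hiK
      · have hsub : F P ⊆ F R := by
          rintro K ⟨hK, i, hi, hiK⟩
          exact ⟨hK, i, by rw [hR1]; omega, by rw [hR2 i hi]; exact hiK⟩
        have hK1R : K1 ∈ F R := ⟨⟨S1, hK1⟩, R.len, le_rfl, by rw [hend]; exact hQ1⟩
        have hK1P : K1 ∉ F P := by
          rintro ⟨_, i, hi, hiK⟩
          exact hmiss i hi hiK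
        have hlt : (F P).ncard < (F R).ncard :=
          Set.ncard_lt_ncard ⟨hsub, fun h => hK1P (h hK1R)⟩ (Set.toFinite _)
        omega
  obtain ⟨P, S0, K0, _, _, _, h⟩ := key (Nat.card (Set V) + 1)
  rcases h with h | h
  · have : (F P).ncard ≤ Nat.card (Set V) := Set.ncard_le_card _
    omega
  · exact ⟨P, h⟩

/-- the prefix of rank exactly `h` -/
lemma exists_prefix (hW : WideAt G W κ) {h : ℕ} (hh : h < κ) (P : GP G)
    (hP : ∀ S K, Big G W κ S K → ∃ i, i ≤ P.len ∧ P.p i ∈ K) :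
    ∃ (m : ℕ) (S K : Set V), m ≤ P.len ∧ Big G W κ S K ∧ S.ncard = h ∧ (∀ i, i < m → P.p i ∉ K) ∧
      ∀ S' K', Big G W κ S' K' → (∀ i, i < m → P.p i ∉ K') → h ≤ S'.ncard := by
  classical
  let Q : ℕ → Prop := fun m => ∃ S K, Big G W κ S K ∧ S.ncard ≤ h ∧ ∀ i, i < m → P.p i ∉ K
  have h0 : Q 0 := by
    obtain ⟨K, hK⟩ := exists_big hW ∅ (by rw [ncard_empty]; omega)
    exact ⟨∅, K, hK, by rw [ncard_empty]; exact Nat.zero_le _, fun i hi => absurd hi (by omega)⟩
  have hbad : ∃ m, ¬ Q m := by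
    refine ⟨P.len + 1, ?_⟩
    rintro ⟨S, K, hK, _, hmiss⟩
    obtain ⟨i, hi, hiK⟩ := hP S K hK
    exact hmiss i (by omega) hiK
  have hm0 : Nat.find hbad ≠ 0 := by
    intro h1
    have := Nat.find_spec hbad
    rw [h1] at this
    exact this h0
  obtain ⟨m, hm⟩ : ∃ m, Nat.find hbad = m + 1 := ⟨Nat.find hbad - 1, by omega⟩
  have hQm : Q m := by
    have := Nat.find_min hbad (m := m) (by omega)
    exact not_not.1 this
  have hQm1 : ¬ Q (m + 1) := by
    have := Nat.find_spec hbad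
    rwa [hm] at this
  have hmle : m ≤ P.len := by
    have h1 : Nat.find hbad ≤ P.len + 1 := Nat.find_min' hbad (by
      rintro ⟨S, K, hK, _, hmiss⟩
      obtain ⟨i, hi, hiK⟩ := hP S K hK
      exact hmiss i (by omega) hiK)
    omega
  have hrank : ∀ S' K', Big G W κ S' K' → (∀ i, i < m → P.p i ∉ K') → h ≤ S'.ncard := by
    intro S' K' hK' hmiss
    by_contra hlt
    push Not at hlt
    apply hQm1
    have hc : (insert (P.p m) S').ncard ≤ S'.ncard + 1 := Set.ncard_insert_le _ _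
    obtain ⟨K2, hK2⟩ := exists_big hW (insert (P.p m) S') (by omega)
    have hsub : K2 ⊆ K' := hK2.mono hW.1 hK' (hK2.disj.mono_right (subset_insert _ _))
    refine ⟨insert (P.p m) S', K2, hK2, by omega, ?_⟩
    intro i hi hiK
    by_cases him : i = m
    · subst him
      exact Set.disjoint_left.1 hK2.disj hiK (mem_insert _ _)
    · exact hmiss i (by omega) (hsub hiK)
  obtain ⟨S, K, hK, hS, hmiss⟩ := hQm
  exact ⟨m, S, K, hmle, hK, le_antisymm hS (hrank S K hK hmiss), hmiss, hrank⟩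

/-- the graph of the edges with both ends in `U` -/
def res (G : SimpleGraph V) (U : Set V) : SimpleGraph V where
  Adj a b := G.Adj a b ∧ a ∈ U ∧ b ∈ U
  symm := ⟨fun _ _ h => ⟨h.1.symm, h.2.2, h.2.1⟩⟩
  loopless := ⟨fun a h => G.loopless.irrefl a h.1⟩

omit [Finite V] in
lemma rin_res {U C : Set V} {a b : V} (h : RIn G (U \ C) a b) : RIn (res G U) Cᶜ a b := by
  induction h with
  | refl => exact RIn.refl _ _ _
  | tail _ hbc ih =>
    exact ih.tail ⟨hbc.1, hbc.2.1.1, hbc.2.2.1⟩ hbc.2.1.2 hbc.2.2.2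

omit [Finite V] in
lemma res_path {U : Set V} (P : GP (res G U)) (h0 : P.p 0 ∈ U) : P.supp ⊆ U := by
  rintro v ⟨i, hi, rfl⟩
  rcases Nat.eq_zero_or_pos i with h | h
  · rw [h]; exact h0
  · have := P.adj (i - 1) (by omega)
    rw [show i - 1 + 1 = i by omega] at this
    exact this.2.2

/-- many disjoint paths from the prefix to `S` -/
lemma legs (hW : WideAt G W κ) {h : ℕ} (hh : h < κ) {T S K : Set V} (hK : Big G W κ S K)
    (hTK : Disjoint T K)
    (hrank : ∀ S' K', Big G W κ S' K' → Disjoint T K' → h ≤ S'.ncard) :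
    ∃ P : Fin h → GP G, (∀ i, (P i).p 0 ∈ T ∧ (P i).p (P i).len ∈ S ∧
      (∀ j, 0 < j → j ≤ (P i).len → (P i).p j ∉ T) ∧ Disjoint (P i).supp K) ∧
      ∀ i j, i ≠ j → Disjoint (P i).supp (P j).supp := by
  classical
  have hsep : NoSep (res G Kᶜ) T S h := by
    intro C hC
    by_contra hcon
    have hC1 : ((C : Set V) \ K).ncard ≤ C.card := by
      rw [← Set.ncard_coe_finset C]
      exact Set.ncard_le_ncard sdiff_subset (Set.toFinite _)
    obtain ⟨K1, hK1⟩ := exists_big hW ((C : Set V) \ K) (by omega)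
    have hsub : K ⊆ K1 := hK.mono hW.1 hK1 disjoint_sdiff_right
    have h1 : Disjoint T K1 := by
      rw [Set.disjoint_left]
      intro a haT haK1
      obtain ⟨k, hk⟩ := hK.conn.1
      have haK : a ∉ K := Set.disjoint_left.1 hTK haT
      obtain ⟨u, v, hau, hu, hv, huv, huK1, hvK1⟩ :=
        (hK1.conn.2 a haK1 k (hsub hk)).exit (T := Kᶜ) haK (fun h => h hk)
      have hvK : v ∈ K := by
        by_contra hvn
        exact hv hvn
      have huS : u ∈ S := by
        by_contra hn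
        exact hu (hK.closed v hvK u huv.symm hn)
      apply hcon
      refine ⟨a, haT, u, huS, ?_, ?_, ?_⟩
      · intro haC
        exact Set.disjoint_left.1 hK1.disj haK1 ⟨haC, haK⟩
      · intro huC
        exact Set.disjoint_left.1 hK1.disj huK1 ⟨huC, hu⟩
      · apply rin_res
        refine hau.mono ?_
        rintro x ⟨hx1, hx2⟩
        exact ⟨hx2, fun hxC => Set.disjoint_left.1 hK1.disj hx1 ⟨hxC, hx2⟩⟩
    have h2 := hrank _ K1 hK1 h1
    omega
  obtain ⟨P, hP1, hP2⟩ := menger (res G Kᶜ) T S h hsep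
  refine ⟨fun i => (P i).mapG (fun j hj => ((P i).adj j hj).1), ?_, ?_⟩
  · intro i
    obtain ⟨h1, h2, h3, h4⟩ := hP1 i
    refine ⟨h1, h2, h3, ?_⟩
    show Disjoint (P i).supp K
    have := res_path (P i) (Set.disjoint_left.1 hTK h1)
    exact Set.disjoint_left.2 (fun x hx => this hx)
  · intro i j hij
    exact hP2 i j hij

/-- linkages through the big component -/
lemma links (hW : WideAt G W κ) {h w : ℕ} (hh : h + w ≤ κ) {T S K : Set V} (hK : Big G W κ S K)
    (hS : S.ncard = h) (hTK : Disjoint T K)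
    (hrank : ∀ S' K', Big G W κ S' K' → Disjoint T K' → h ≤ S'.ncard)
    {Y Z : Set V} (hY : Y ⊆ S) (hZ : Z ⊆ S) (hYc : Y.ncard = w)
    (hZc : Z.ncard = w) :
    ∃ P : Fin w → GP G, (∀ i, (P i).p 0 ∈ Y ∧ (P i).p (P i).len ∈ Z ∧
      ∀ j, 0 < j → j < (P i).len → (P i).p j ∈ K) ∧
      ∀ i j, i ≠ j → Disjoint (P i).supp (P j).supp := by
  classical
  have hsep : NoSep (res G (Y ∪ Z ∪ K)) Y Z w := by
    intro C hC
    by_contra hcon
    have hC1 : (S ∪ (C : Set V)).ncard ≤ h + C.card := by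
      rw [← hS, ← Set.ncard_coe_finset C]
      exact Set.ncard_union_le _ _
    obtain ⟨K3, hK3⟩ := exists_big hW (S ∪ (C : Set V)) (by omega)
    have hsub : K3 ⊆ K := hK3.mono hW.1 hK (hK3.disj.mono_right subset_union_left)
    have hTK3 : Disjoint T K3 := hTK.mono_right hsub
    -- one side has no neighbours
    have hside : ∀ Y' : Set V, Y' ⊆ S → Y'.ncard = w →
        (∀ y ∈ Y', y ∉ C → ∀ k ∈ K3, ¬ G.Adj k y) → False := by
      intro Y' hY' hY'c hno
      have hc1 : (S \ Y').ncard + w = h := by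
        rw [← hS, ← hY'c]
        exact Set.ncard_sdiff_add_ncard_of_subset hY' (Set.toFinite _)
      have hc2 : ((S \ Y') ∪ (C : Set V)).ncard ≤ (S \ Y').ncard + C.card := by
        rw [← Set.ncard_coe_finset C]
        exact Set.ncard_union_le _ _
      have hB : Big G W κ ((S \ Y') ∪ (C : Set V)) K3 := by
        refine ⟨by omega, hK3.conn, ?_, ?_, hK3.big⟩
        · refine hK3.disj.mono_right (union_subset_union_left _ sdiff_subset)
        · intro x hx y hxy hy
          apply hK3.closed x hx y hxy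
          rintro (hyS | hyC)
          · by_cases hyY : y ∈ Y'
            · exact hno y hyY (fun h => hy (Or.inr h)) x hx hxy
            · exact hy (Or.inl ⟨hyS, hyY⟩)
          · exact hy (Or.inr hyC)
      have := hrank _ _ hB hTK3
      omega
    by_cases h1 : ∃ y ∈ Y, y ∉ C ∧ ∃ k ∈ K3, G.Adj k y
    · by_cases h2 : ∃ z ∈ Z, z ∉ C ∧ ∃ k ∈ K3, G.Adj k z
      · obtain ⟨y, hy, hyC, k, hk, hky⟩ := h1
        obtain ⟨z, hz, hzC, k', hk', hkz⟩ := h2
        apply hcon
        refine ⟨y, hy, z, hz, hyC, hzC, rin_res ?_⟩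
        have hKU : K3 ⊆ (Y ∪ Z ∪ K) \ (C : Set V) := fun x hx =>
          ⟨Or.inr (hsub hx), fun hxC => Set.disjoint_left.1 hK3.disj hx (Or.inr hxC)⟩
        have hyU : y ∈ (Y ∪ Z ∪ K) \ (C : Set V) := ⟨Or.inl (Or.inl hy), hyC⟩
        have hzU : z ∈ (Y ∪ Z ∪ K) \ (C : Set V) := ⟨Or.inl (Or.inr hz), hzC⟩
        exact ((RIn.single hky.symm hyU (hKU hk)).trans
          ((hK3.conn.2 k hk k' hk').mono hKU)).tail hkz (hKU hk') hzU
      · refine hside Z hZ hZc ?_
        intro z hz hzC k hk hkz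
        exact h2 ⟨z, hz, hzC, k, hk, hkz⟩
    · refine hside Y hY hYc ?_
      intro y hy hyC k hk hky
      exact h1 ⟨y, hy, hyC, k, hk, hky⟩
  obtain ⟨P, hP1, hP2⟩ := menger (res G (Y ∪ Z ∪ K)) Y Z w hsep
  refine ⟨fun i => (P i).mapG (fun j hj => ((P i).adj j hj).1), ?_, fun i j hij => hP2 i j hij⟩
  intro i
  obtain ⟨h1, h2, h3, h4⟩ := hP1 i
  refine ⟨h1, h2, ?_⟩
  intro j hj0 hj
  have hj' : j < (P i).len := hj
  have h5 := res_path (P i) (Or.inl (Or.inl h1)) ((P i).mem_supp (i := j) (by omega))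
  rcases h5 with (h5 | h5) | h5
  · exact absurd h5 (h3 j hj0 (by omega))
  · exact absurd h5 (h4 j hj')
  · exact h5

omit [Finite V] in
/-- sort the legs by their starting points -/
lemma sorted {h m : ℕ} (P : GP G) (L : Fin h → GP G)
    (hL : ∀ i, ∃ a, a < m ∧ P.p a = (L i).p 0)
    (hd : ∀ i j, i ≠ j → Disjoint (L i).supp (L j).supp) :
    ∃ (st : ℕ → ℕ) (lg : ℕ → GP G), (∀ k, k < h → st k < m ∧ P.p (st k) = (lg k).p 0 ∧
      ∃ i, lg k = L i) ∧ (∀ k k', k < k' → k' < h → st k < st k') ∧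
      ∀ k k', k < h → k' < h → k ≠ k' → Disjoint (lg k).supp (lg k').supp := by
  classical
  choose a ha using hL
  have hainj : Function.Injective a := by
    intro i j hij
    by_contra hne
    have h1 : (L i).p 0 = (L j).p 0 := by rw [← (ha i).2, ← (ha j).2, hij]
    exact Set.disjoint_left.1 (hd i j hne) ((L i).mem_supp (Nat.zero_le _))
      (h1 ▸ (L j).mem_supp (Nat.zero_le _))
  have hcard : (Finset.univ.image a).card = h := by
    rw [Finset.card_image_of_injective _ hainj, Finset.card_univ, Fintype.card_fin]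
  let e := (Finset.univ.image a).orderEmbOfFin hcard
  have he : ∀ k : Fin h, ∃ i, a i = e k := by
    intro k
    have h1 := Finset.orderEmbOfFin_mem (Finset.univ.image a) hcard k
    obtain ⟨i, _, hi⟩ := Finset.mem_image.1 h1
    exact ⟨i, hi⟩
  choose ℓ hℓ using he
  have hℓinj : Function.Injective ℓ := by
    intro k k' hkk
    apply e.injective
    rw [← hℓ, ← hℓ, hkk]
  refine ⟨fun k => if hk : k < h then e ⟨k, hk⟩ else 0,
    fun k => if hk : k < h then L (ℓ ⟨k, hk⟩) else P, ?_, ?_, ?_⟩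
  · intro k hk
    simp only [hk, dif_pos]
    rw [← hℓ]
    exact ⟨(ha _).1, (ha _).2, _, rfl⟩
  · intro k k' hkk' hk'
    have hk : k < h := by omega
    simp only [hk, hk', dif_pos]
    exact e.strictMono (show (⟨k, hk⟩ : Fin h) < ⟨k', hk'⟩ from hkk')
  · intro k k' hk hk' hne
    simp only [hk, hk', dif_pos]
    apply hd
    intro h1
    have h2 := hℓinj h1
    exact hne (congrArg Fin.val h2)

lemma mesh_of (hW : WideAt G W κ) {t w : ℕ} (ht : 1 ≤ t) (hw : 1 ≤ w)
    (hκ : t * (t * w) + w ≤ κ) : Nonempty (Mesh G t w) := by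
  classical
  obtain ⟨n, hn⟩ : ∃ n, n = t * w := ⟨_, rfl⟩
  rw [← hn] at hκ
  obtain ⟨P, hP⟩ := exists_meeting hW (by omega)
  obtain ⟨m, S, K, hm, hK, hS, hmiss, hrank⟩ :=
    exists_prefix hW (h := t * n) (by omega) P hP
  set T : Set V := {v | ∃ i, i < m ∧ P.p i = v} with hT
  have hTK : Disjoint T K := by
    rw [Set.disjoint_left]
    rintro v ⟨i, hi, rfl⟩
    exact hmiss i hi
  have hrank' : ∀ S' K', Big G W κ S' K' → Disjoint T K' → t * n ≤ S'.ncard := by
    intro S' K' h1 h2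
    exact hrank S' K' h1 (fun i hi hiK => Set.disjoint_left.1 h2 ⟨i, hi, rfl⟩ hiK)
  obtain ⟨L, hL, hLd⟩ := legs hW (h := t * n) (by omega) hK hTK hrank'
  obtain ⟨st, lg, h1, h2, h3⟩ := sorted P L (fun i => (hL i).1) hLd
  -- properties of the legs
  have hfoot : ∀ k, k < t * n → (lg k).p (lg k).len ∈ S := by
    intro k hk
    obtain ⟨i, hi⟩ := (h1 k hk).2.2
    rw [hi]; exact (hL i).2.1
  have hoff : ∀ k, k < t * n → ∀ j, 0 < j → j ≤ (lg k).len → (lg k).p j ∉ T := by
    intro k hk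
    obtain ⟨i, hi⟩ := (h1 k hk).2.2
    rw [hi]; exact (hL i).2.2.1
  have hlK : ∀ k, k < t * n → Disjoint (lg k).supp K := by
    intro k hk
    obtain ⟨i, hi⟩ := (h1 k hk).2.2
    rw [hi]; exact (hL i).2.2.2
  have hst : ∀ k k', k ≤ k' → k' < t * n → st k ≤ st k' := by
    intro k k' hkk hk'
    rcases Nat.lt_or_ge k k' with h | h
    · exact (h2 k k' h hk').le
    · rw [le_antisymm hkk h]
  have hn1 : 1 ≤ n := by rw [hn]; exact Nat.mul_pos ht hw
  have hcn : ∀ c : Fin t, (c : ℕ) * n + n ≤ t * n := by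
    intro c
    have : ((c : ℕ) + 1) * n ≤ t * n := Nat.mul_le_mul_right _ c.isLt
    rw [Nat.add_mul, Nat.one_mul] at this
    exact this
  have hcc : ∀ c c' : Fin t, c < c' → (c : ℕ) * n + n ≤ (c' : ℕ) * n := by
    intro c c' hc
    have : ((c : ℕ) + 1) * n ≤ (c' : ℕ) * n := Nat.mul_le_mul_right _ hc
    rw [Nat.add_mul, Nat.one_mul] at this
    exact this
  have hcw : ∀ c' : Fin t, (c' : ℕ) * w + w ≤ n := by
    intro c
    have : ((c : ℕ) + 1) * w ≤ t * w := Nat.mul_le_mul_right _ c.isLt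
    rw [Nat.add_mul, Nat.one_mul, ← hn] at this
    exact this
  let Seg : Fin t → Set V := fun c =>
    {v | ∃ i, st (c * n) ≤ i ∧ i ≤ st (c * n + n - 1) ∧ P.p i = v}
  let A : Fin t → Set V := fun c => Seg c ∪ ⋃ j : Fin n, (lg (c * n + j)).supp
  let foot : ℕ → V := fun k => (lg k).p (lg k).len
  let Z : Fin t → Fin t → Set V := fun c c' =>
    foot '' (Finset.Ico ((c : ℕ) * n + c' * w) (c * n + c' * w + w) : Finset ℕ)
  have hfinj : ∀ k k', k < t * n → k' < t * n → foot k = foot k' → k = k' := by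
    intro k k' hk hk' h
    by_contra hne
    have h' : (lg k').p (lg k').len = (lg k).p (lg k).len := h.symm
    exact Set.disjoint_left.1 (h3 k k' hk hk' hne) ((lg k).mem_supp le_rfl)
      (h' ▸ (lg k').mem_supp le_rfl)
  have hSegT : ∀ c, Seg c ⊆ T := by
    rintro c v ⟨i, _, hi2, hi3⟩
    have := (h1 (c * n + n - 1) (by have := hcn c; omega)).1
    exact ⟨i, by omega, hi3⟩
  -- description of `A`
  have hA : ∀ c, ∀ v ∈ A c, v ∈ Seg c ∨ (v ∉ T ∧ ∃ k, c * n ≤ k ∧ k < c * n + n ∧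
      v ∈ (lg k).supp) := by
    rintro c v (hv | hv)
    · exact Or.inl hv
    · rw [mem_iUnion] at hv
      obtain ⟨j, i, hi, hiv⟩ := hv
      have hk : (c : ℕ) * n + j < t * n := by have := hcn c; have := j.isLt; omega
      rcases Nat.eq_zero_or_pos i with h0 | h0
      · left
        refine ⟨st (c * n + j), hst _ _ (by omega) hk, hst _ _ (by have := j.isLt; omega)
          (by have := hcn c; omega), ?_⟩
        rw [(h1 _ hk).2.1, ← hiv, h0]
      · right
        refine ⟨?_, c * n + j, by omega, by have := j.isLt; omega, i, hi, hiv⟩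
        rw [← hiv]
        exact hoff _ hk i h0 hi
  have hZS : ∀ c c', Z c c' ⊆ S := by
    rintro c c' v ⟨k, hk, rfl⟩
    rw [Finset.mem_coe, Finset.mem_Ico] at hk
    exact hfoot k (by have := hcn c; have := hcw c'; omega)
  have hZc : ∀ c c', (Z c c').ncard = w := by
    intro c c'
    rw [Set.InjOn.ncard_image, Set.ncard_coe_finset, Nat.card_Ico]
    · omega
    · intro k hk k' hk' h
      rw [Finset.mem_coe, Finset.mem_Ico] at hk hk'
      have := hcn c
      have := hcw c'
      exact hfinj k k' (by omega) (by omega) h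
  refine ⟨⟨A, Z, K, ?_, ?_, ?_, ?_, ?_, ?_, ?_⟩⟩
  · -- connectivity
    intro c
    refine Conn.union_iUnion ?_ (fun j => (lg (c * n + j)).supp_conn) ?_
    · refine P.seg_conn (hst _ _ (by omega) (by have := hcn c; omega)) ?_
      have := (h1 (c * n + n - 1) (by have := hcn c; omega)).1
      omega
    · intro j
      right
      have hk : (c : ℕ) * n + j < t * n := by have := hcn c; have := j.isLt; omega
      refine ⟨P.p (st (c * n + j)), ⟨st (c * n + j), hst _ _ (by omega) hk,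
        hst _ _ (by have := j.isLt; omega) (by have := hcn c; omega), rfl⟩, ?_⟩
      rw [(h1 _ hk).2.1]
      exact (lg _).mem_supp (Nat.zero_le _)
  · -- disjointness
    intro c c' hne
    rw [Set.disjoint_left]
    intro v hv hv'
    have hcase : ∀ c c' : Fin t, c < c' → v ∈ Seg c → v ∈ Seg c' → False := by
      rintro c c' hlt ⟨i, hi1, hi2, hi3⟩ ⟨i', hi1', hi2', hi3'⟩
      have hb := (h1 (c * n + n - 1) (by have := hcn c; omega)).1
      have hb' := (h1 (c' * n + n - 1) (by have := hcn c'; omega)).1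
      have hii := P.inj i (by omega) i' (by omega) (hi3.trans hi3'.symm)
      have := h2 (c * n + n - 1) (c' * n) (by have := hcc c c' hlt; omega)
        (by have := hcn c'; omega)
      omega
    rcases hA c v hv with h | ⟨hvT, k, hk1, hk2, hk3⟩
    · rcases hA c' v hv' with h' | ⟨hvT', _⟩
      · rcases lt_or_gt_of_ne hne with hlt | hlt
        · exact hcase c c' hlt h h'
        · exact hcase c' c hlt h' h
      · exact hvT' (hSegT c h)
    · rcases hA c' v hv' with h' | ⟨_, k', hk1', hk2', hk3'⟩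
      · exact hvT (hSegT c' h')
      · have hkk : k ≠ k' := by
          rintro rfl
          rcases lt_or_gt_of_ne hne with hlt | hlt
          · have := hcc c c' hlt; omega
          · have := hcc c' c hlt; omega
        exact Set.disjoint_left.1 (h3 k k' (by have := hcn c; omega) (by have := hcn c'; omega)
          hkk) hk3 hk3'
  · intro c
    rw [Set.disjoint_left]
    intro v hv
    rcases hA c v hv with h | ⟨_, k, hk1, hk2, hk3⟩
    · exact Set.disjoint_left.1 hTK (hSegT c h)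
    · exact Set.disjoint_left.1 (hlK k (by have := hcn c; omega)) hk3
  · -- feet
    rintro c c' _ v ⟨k, hk, rfl⟩
    rw [Finset.mem_coe, Finset.mem_Ico] at hk
    refine Or.inr ?_
    rw [mem_iUnion]
    have hj : k - c * n < n := by have := hcw c'; omega
    refine ⟨⟨k - c * n, hj⟩, ?_⟩
    show (lg k).p (lg k).len ∈ (lg ((c : ℕ) * n + (k - c * n))).supp
    rw [show (c : ℕ) * n + (k - c * n) = k by omega]
    exact (lg k).mem_supp le_rfl
  · intro c c' _
    exact hZc c c'
  · intro c c' c'' _ _ hne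
    rw [Set.disjoint_left]
    rintro v ⟨k, hk, rfl⟩ ⟨k', hk', hkk⟩
    rw [Finset.mem_coe, Finset.mem_Ico] at hk hk'
    have e1 := hcn c
    have e2 := hcw c'
    have e3 := hcw c''
    have := hfinj k' k (by omega) (by omega) hkk
    subst this
    rcases lt_or_gt_of_ne hne with hlt | hlt
    · have : ((c' : ℕ) + 1) * w ≤ (c'' : ℕ) * w := Nat.mul_le_mul_right _ hlt
      rw [Nat.add_mul, Nat.one_mul] at this
      omega
    · have : ((c'' : ℕ) + 1) * w ≤ (c' : ℕ) * w := Nat.mul_le_mul_right _ hlt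
      rw [Nat.add_mul, Nat.one_mul] at this
      omega
  · intro c c' _
    exact links hW (h := t * n) (w := w) hκ hK hS hTK hrank' (hZS c c') (hZS c' c) (hZc c c')
      (hZc c' c)

end Haven

theorem exists_mesh : ∃ kB : ℕ → ℕ → ℕ, Primrec₂ kB ∧ ∀ t w κ : ℕ, kB t w ≤ κ →
    ∀ (V : Type) [Finite V] (G : SimpleGraph V), Wide G κ → Nonempty (Mesh G t w) := by
  refine ⟨fun t w => t * (t * (w + 1)) + (w + 1), ?_, ?_⟩
  · have h1 : Primrec₂ fun t w : ℕ => t * (w + 1) :=
      Primrec.nat_mul.comp₂ Primrec₂.left (Primrec.succ.comp₂ Primrec₂.right)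
    have h2 : Primrec₂ fun t w : ℕ => t * (t * (w + 1)) :=
      Primrec.nat_mul.comp₂ Primrec₂.left h1
    exact Primrec.nat_add.comp₂ h2 (Primrec.succ.comp₂ Primrec₂.right)
  · intro t w κ hκ V _ G hG
    obtain ⟨W, hW⟩ := hG
    rcases Nat.eq_zero_or_pos t with ht | ht
    · subst ht
      exact ⟨⟨fun c => c.elim0, fun c => c.elim0, ∅, fun c => c.elim0, fun c => c.elim0,
        fun c => c.elim0, fun c => c.elim0, fun c => c.elim0, fun c => c.elim0,
        fun c => c.elim0⟩⟩
    rcases Nat.eq_zero_or_pos w with hw | hw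
    · subst hw
      obtain ⟨M⟩ := Haven.mesh_of (G := G) (W := W) (κ := κ) hW ht le_rfl (by simpa using hκ)
      refine ⟨⟨M.A, fun _ _ => ∅, M.B, M.A_conn, M.A_disj, M.B_disj, fun _ _ _ => empty_subset _,
        fun _ _ _ => ncard_empty _, fun _ _ _ _ _ _ => disjoint_bot_left, ?_⟩⟩
      intro c c' _
      exact ⟨fun i => i.elim0, fun i => i.elim0, fun i => i.elim0⟩
    · refine Haven.mesh_of (G := G) (W := W) (κ := κ) hW ht hw (le_trans ?_ hκ)
      have : t * (t * w) ≤ t * (t * (w + 1)) :=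
        Nat.mul_le_mul_left _ (Nat.mul_le_mul_left _ (Nat.le_succ _))
      show t * (t * w) + w ≤ t * (t * (w + 1)) + (w + 1)
      omega


end Pool.Agent.Lib.MP_4d119b_lc
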