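import Mathlib

/-! Basic notions: connected sets, paths, minors (library for MP_4d119b_lc). -/

namespace Pool.Agent.Lib.MP_4d119b_lc

open Set

universe u v w

variable {V : Type u} {V' : Type v} {ι : Type w}

/-- reachability inside the set `S` -/
def RIn (G : SimpleGraph V) (S : Set V) : V → V → Prop :=
  Relation.ReflTransGen (fun a b => G.Adj a b ∧ a ∈ S ∧ b ∈ S)

/-- nonempty connected vertex set -/
def Conn (G : SimpleGraph V) (S : Set V) : Prop :=
  S.Nonempty ∧ ∀ x ∈ S, ∀ y ∈ S, RIn G S x y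

/-- two vertex sets are joined by an edge -/
def Touch (G : SimpleGraph V) (S T : Set V) : Prop := ∃ x ∈ S, ∃ y ∈ T, G.Adj x y

/-- `H` is a minor of `G` (branch set model) -/
def IsMinor (H : SimpleGraph V) (G : SimpleGraph V') : Prop :=
  ∃ B : V → Set V', (∀ w, Conn G (B w)) ∧ (∀ w w', w ≠ w' → Disjoint (B w) (B w')) ∧
    ∀ w w', H.Adj w w' → Touch G (B w) (B w')

/-- `G` has a complete minor with `t` vertices -/
def HasK (G : SimpleGraph V) (t : ℕ) : Prop :=
  ∃ B : Fin t → Set V, (∀ i, Conn G (B i)) ∧ (∀ i j, i ≠ j → Disjoint (B i) (B j)) ∧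
    ∀ i j, i ≠ j → Touch G (B i) (B j)

/-- a path, given by an injective sequence of vertices `p 0, ..., p len` -/
structure GP (G : SimpleGraph V) where
  len : ℕ
  p : ℕ → V
  adj : ∀ i, i < len → G.Adj (p i) (p (i + 1))
  inj : ∀ i, i ≤ len → ∀ j, j ≤ len → p i = p j → i = j

/-- vertex set of a path -/
def GP.supp {G : SimpleGraph V} (P : GP G) : Set V := {v | ∃ i, i ≤ P.len ∧ P.p i = v}

/-- component of `x` in `S` -/
def comp (G : SimpleGraph V) (S : Set V) (x : V) : Set V := {y | RIn G S x y}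

variable {G G' : SimpleGraph V} {S T : Set V} {x y z : V}

/-! ### RIn -/

theorem RIn.refl (G : SimpleGraph V) (S : Set V) (x : V) : RIn G S x x :=
  Relation.ReflTransGen.refl

theorem RIn.trans (h : RIn G S x y) (h' : RIn G S y z) : RIn G S x z :=
  Relation.ReflTransGen.trans h h'

theorem RIn.single (h : G.Adj x y) (hx : x ∈ S) (hy : y ∈ S) : RIn G S x y :=
  Relation.ReflTransGen.single ⟨h, hx, hy⟩

theorem RIn.tail (h : RIn G S x y) (h' : G.Adj y z) (hy : y ∈ S) (hz : z ∈ S) : RIn G S x z :=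
  Relation.ReflTransGen.tail h ⟨h', hy, hz⟩

theorem RIn.symm (h : RIn G S x y) : RIn G S y x := by
  induction h with
  | refl => exact RIn.refl _ _ _
  | tail _ hbc ih => exact (RIn.single hbc.1.symm hbc.2.2 hbc.2.1).trans ih

theorem RIn.mono (hST : S ⊆ T) (h : RIn G S x y) : RIn G T x y := by
  induction h with
  | refl => exact RIn.refl _ _ _
  | tail _ hbc ih => exact ih.tail hbc.1 (hST hbc.2.1) (hST hbc.2.2)

theorem RIn.monoG (hG : G ≤ G') (h : RIn G S x y) : RIn G' S x y := by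
  induction h with
  | refl => exact RIn.refl _ _ _
  | tail _ hbc ih => exact ih.tail (hG hbc.1) hbc.2.1 hbc.2.2

theorem RIn.mem_right (h : RIn G S x y) (hx : x ∈ S) : y ∈ S := by
  induction h with
  | refl => exact hx
  | tail _ hbc _ => exact hbc.2.2

theorem RIn.mem_left (h : RIn G S x y) (hy : y ∈ S) : x ∈ S := h.symm.mem_right hy

/-- general induction: a property that is closed under steps -/
theorem RIn.closed {P : V → Prop} (h : RIn G S x y) (hx : P x)
    (hstep : ∀ a b, a ∈ S → b ∈ S → G.Adj a b → P a → P b) : P y := by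
  induction h with
  | refl => exact hx
  | tail _ hbc ih => exact hstep _ _ hbc.2.1 hbc.2.2 hbc.1 ih

/-- the walk from `x` leaves `T` through an edge -/
theorem RIn.exit (h : RIn G S x y) (hx : x ∈ T) (hy : y ∉ T) :
    ∃ a b, RIn G (S ∩ T) x a ∧ a ∈ T ∧ b ∉ T ∧ G.Adj a b ∧ a ∈ S ∧ b ∈ S := by
  by_contra hcon
  have key : RIn G (S ∩ T) x y ∧ y ∈ T := by
    refine RIn.closed (P := fun z => RIn G (S ∩ T) x z ∧ z ∈ T) h ⟨RIn.refl _ _ _, hx⟩ ?_
    intro a b ha hb hab ⟨h1, h2⟩
    by_cases hbT : b ∈ T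
    · exact ⟨h1.tail hab ⟨ha, h2⟩ ⟨hb, hbT⟩, hbT⟩
    · exact absurd ⟨a, b, h1, h2, hbT, hab, ha, hb⟩ hcon
  exact hy key.2

/-- reachability stays in a set closed under steps -/
theorem RIn.restrict (h : RIn G S x y) (hx : x ∈ T)
    (hT : ∀ a b, a ∈ S → b ∈ S → G.Adj a b → a ∈ T → b ∈ T) : RIn G (S ∩ T) x y ∧ y ∈ T := by
  refine RIn.closed (P := fun z => RIn G (S ∩ T) x z ∧ z ∈ T) h ⟨RIn.refl _ _ _, hx⟩ ?_
  intro a b ha hb hab ⟨h1, h2⟩
  exact ⟨h1.tail hab ⟨ha, h2⟩ ⟨hb, hT a b ha hb hab h2⟩, hT a b ha hb hab h2⟩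

/-! ### Touch -/

theorem Touch.symm (h : Touch G S T) : Touch G T S := by
  obtain ⟨x, hx, y, hy, hxy⟩ := h
  exact ⟨y, hy, x, hx, hxy.symm⟩

theorem Touch.mono {S' T' : Set V} (hS : S ⊆ S') (hT : T ⊆ T') (h : Touch G S T) :
    Touch G S' T' := by
  obtain ⟨x, hx, y, hy, hxy⟩ := h
  exact ⟨x, hS hx, y, hT hy, hxy⟩

theorem Touch.monoG (hG : G ≤ G') (h : Touch G S T) : Touch G' S T := by
  obtain ⟨x, hx, y, hy, hxy⟩ := h
  exact ⟨x, hx, y, hy, hG hxy⟩

/-! ### Conn -/

theorem conn_singleton (G : SimpleGraph V) (x : V) : Conn G {x} := by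
  refine ⟨⟨x, rfl⟩, ?_⟩
  intro a ha b hb
  rw [mem_singleton_iff] at ha hb
  subst ha; subst hb
  exact RIn.refl _ _ _

theorem Conn.monoG (hG : G ≤ G') (h : Conn G S) : Conn G' S :=
  ⟨h.1, fun x hx y hy => (h.2 x hx y hy).monoG hG⟩

/-- a set all of whose vertices are reachable from one of them is connected -/
theorem conn_of_reach (hx : x ∈ S) (h : ∀ y ∈ S, RIn G S x y) : Conn G S :=
  ⟨⟨x, hx⟩, fun a ha b hb => (h a ha).symm.trans (h b hb)⟩

theorem Conn.union (hS : Conn G S) (hT : Conn G T) (h : (S ∩ T).Nonempty) : Conn G (S ∪ T) := by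
  obtain ⟨z, hzS, hzT⟩ := h
  refine conn_of_reach (x := z) (Or.inl hzS) ?_
  intro y hy
  rcases hy with hy | hy
  · exact (hS.2 z hzS y hy).mono subset_union_left
  · exact (hT.2 z hzT y hy).mono subset_union_right

theorem Conn.union_touch (hS : Conn G S) (hT : Conn G T) (h : Touch G S T) :
    Conn G (S ∪ T) := by
  obtain ⟨x, hx, y, hy, hxy⟩ := h
  refine conn_of_reach (x := x) (Or.inl hx) ?_
  intro z hz
  rcases hz with hz | hz
  · exact (hS.2 x hx z hz).mono subset_union_left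
  · exact (RIn.single hxy (Or.inl hx) (Or.inr hy)).trans
      ((hT.2 y hy z hz).mono subset_union_right)

theorem conn_pair (h : G.Adj x y) : Conn G {x, y} := by
  have := (conn_singleton G x).union_touch (conn_singleton G y) ⟨x, rfl, y, rfl, h⟩
  rwa [← Set.insert_eq] at this

theorem Conn.insert (hS : Conn G S) (hx : x ∈ S) (h : G.Adj x y) : Conn G (insert y S) := by
  have := (conn_singleton G y).union_touch hS ⟨y, rfl, x, hx, h.symm⟩
  rwa [← Set.insert_eq] at this

/-- union of connected sets along a connected index set -/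
theorem Conn.lift {H : SimpleGraph ι} {P : Set ι} (hP : Conn H P) {X : ι → Set V}
    (hX : ∀ i ∈ P, Conn G (X i))
    (hT : ∀ i ∈ P, ∀ j ∈ P, H.Adj i j → Touch G (X i) (X j) ∨ (X i ∩ X j).Nonempty) :
    Conn G (⋃ i ∈ P, X i) := by
  obtain ⟨⟨i0, hi0⟩, hreach⟩ := hP
  obtain ⟨x0, hx0⟩ := (hX i0 hi0).1
  refine conn_of_reach (x := x0) (mem_biUnion hi0 hx0) ?_
  intro y hy
  rw [mem_iUnion₂] at hy
  obtain ⟨j, hj, hyj⟩ := hy
  have hsub : ∀ i ∈ P, X i ⊆ ⋃ i ∈ P, X i := fun i hi => subset_biUnion_of_mem (u := X) hi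
  have key : ∀ z ∈ X j, RIn G (⋃ i ∈ P, X i) x0 z := by
    refine RIn.closed (P := fun j => ∀ z ∈ X j, RIn G (⋃ i ∈ P, X i) x0 z) (hreach i0 hi0 j hj)
      ?_ ?_
    · intro z hz
      exact ((hX i0 hi0).2 x0 hx0 z hz).mono (hsub i0 hi0)
    · intro a b ha hb hab ih z hz
      rcases hT a ha b hb hab with ⟨p, hp, q, hq, hpq⟩ | ⟨p, hpa, hpb⟩
      · exact ((ih p hp).tail hpq (hsub a ha hp) (hsub b hb hq)).trans
          (((hX b hb).2 q hq z hz).mono (hsub b hb))
      · exact (ih p hpa).trans (((hX b hb).2 p hpb z hz).mono (hsub b hb))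
  exact key y hyj

/-- a connected core together with connected sets each near the core -/
theorem Conn.union_iUnion {X : ι → Set V} (hS : Conn G S) (hX : ∀ i, Conn G (X i))
    (hT : ∀ i, Touch G S (X i) ∨ (S ∩ X i).Nonempty) : Conn G (S ∪ ⋃ i, X i) := by
  obtain ⟨x0, hx0⟩ := hS.1
  refine conn_of_reach (x := x0) (Or.inl hx0) ?_
  have hsub : ∀ i, X i ⊆ S ∪ ⋃ i, X i := fun i z hz => Or.inr (mem_iUnion.2 ⟨i, hz⟩)
  rintro y (hy | hy)
  · exact (hS.2 x0 hx0 y hy).mono subset_union_left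
  · rw [mem_iUnion] at hy
    obtain ⟨i, hi⟩ := hy
    rcases hT i with ⟨p, hp, q, hq, hpq⟩ | ⟨p, hpa, hpb⟩
    · exact (((hS.2 x0 hx0 p hp).mono subset_union_left).tail hpq (Or.inl hp) (hsub i hq)).trans
        (((hX i).2 q hq y hi).mono (hsub i))
    · exact ((hS.2 x0 hx0 p hpa).mono subset_union_left).trans
        (((hX i).2 p hpb y hi).mono (hsub i))

/-- if a connected set meets `T` and is not inside `T`, an edge leaves `T` in it -/
theorem Conn.exit (hS : Conn G S) (hx : x ∈ S) (hxT : x ∈ T) (hy : y ∈ S) (hyT : y ∉ T) :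
    ∃ a b, RIn G (S ∩ T) x a ∧ a ∈ T ∧ b ∉ T ∧ G.Adj a b ∧ a ∈ S ∧ b ∈ S :=
  (hS.2 x hx y hy).exit hxT hyT

/-! ### components -/

theorem mem_comp_self : x ∈ comp G S x := RIn.refl _ _ _

theorem comp_subset (hx : x ∈ S) : comp G S x ⊆ S := fun _ hy => RIn.mem_right hy hx

theorem comp_closed (hx : x ∈ S) (hy : y ∈ comp G S x) (hz : z ∈ S) (h : G.Adj y z) :
    z ∈ comp G S x :=
  RIn.tail hy h (comp_subset hx hy) hz

theorem comp_conn (hx : x ∈ S) : Conn G (comp G S x) := by
  refine conn_of_reach (x := x) mem_comp_self ?_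
  intro y hy
  have := (RIn.restrict (T := comp G S x) hy mem_comp_self
    (fun a b _ hb hab haT => comp_closed hx haT hb hab)).1
  exact this.mono inter_subset_right

theorem comp_eq_of_mem (h : y ∈ comp G S x) : comp G S y = comp G S x := by
  ext z
  exact ⟨fun hz => RIn.trans h hz, fun hz => RIn.trans (RIn.symm h) hz⟩

theorem comp_eq_or_disjoint (G : SimpleGraph V) (S : Set V) (x y : V) :
    comp G S x = comp G S y ∨ Disjoint (comp G S x) (comp G S y) := by
  by_cases h : Disjoint (comp G S x) (comp G S y)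
  · exact Or.inr h
  · left
    rw [Set.not_disjoint_iff] at h
    obtain ⟨z, hzx, hzy⟩ := h
    rw [← comp_eq_of_mem hzx, comp_eq_of_mem hzy]

/-- a connected subset of `S` meeting a component lies in it -/
theorem Conn.subset_comp {K : Set V} (hK : Conn G K) (hKS : K ⊆ S) (hy : y ∈ K)
    (hyc : y ∈ comp G S x) : K ⊆ comp G S x := fun z hz =>
  RIn.trans hyc ((hK.2 y hy z hz).mono hKS)

/-! ### paths -/

namespace GP

variable (P : GP G)

theorem mem_supp {i : ℕ} (hi : i ≤ P.len) : P.p i ∈ P.supp := ⟨i, hi, rfl⟩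

theorem reach {a b : ℕ} (hab : a ≤ b) (hb : b ≤ P.len) :
    RIn G {v | ∃ i, a ≤ i ∧ i ≤ b ∧ P.p i = v} (P.p a) (P.p b) := by
  induction b, hab using Nat.le_induction with
  | base => exact RIn.refl _ _ _
  | succ b hab ih =>
    have h1 := (ih (by omega)).mono (T := {v | ∃ i, a ≤ i ∧ i ≤ b + 1 ∧ P.p i = v})
      (by rintro v ⟨i, h1, h2, h3⟩; exact ⟨i, h1, by omega, h3⟩)
    exact h1.tail (P.adj b (by omega)) ⟨b, by omega, by omega, rfl⟩ ⟨b + 1, by omega, le_rfl, rfl⟩

/-- segments of a path are connected -/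
theorem seg_conn {a b : ℕ} (hab : a ≤ b) (hb : b ≤ P.len) :
    Conn G {v | ∃ i, a ≤ i ∧ i ≤ b ∧ P.p i = v} := by
  refine conn_of_reach (x := P.p a) ⟨a, le_rfl, hab, rfl⟩ ?_
  rintro y ⟨i, h1, h2, rfl⟩
  exact (P.reach h1 (h2.trans hb)).mono
    (by rintro v ⟨j, h3, h4, h5⟩; exact ⟨j, h3, by omega, h5⟩)

theorem supp_conn : Conn G P.supp := by
  have := P.seg_conn (Nat.zero_le P.len) le_rfl
  have he : P.supp = {v | ∃ i, 0 ≤ i ∧ i ≤ P.len ∧ P.p i = v} := by
    ext v
    constructor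
    · rintro ⟨i, h1, h2⟩; exact ⟨i, by omega, h1, h2⟩
    · rintro ⟨i, _, h1, h2⟩; exact ⟨i, h1, h2⟩
  rw [he]; exact this

/-- one vertex path -/
def single (G : SimpleGraph V) (x : V) : GP G where
  len := 0
  p := fun _ => x
  adj := fun i hi => by omega
  inj := fun i hi j hj _ => by omega

/-- subpath from index `a` to `b` -/
def sub (a b : ℕ) (hab : a ≤ b) (hb : b ≤ P.len) : GP G where
  len := b - a
  p := fun i => P.p (a + i)
  adj := fun i hi => P.adj (a + i) (by omega)
  inj := fun i hi j hj h => by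
    have := P.inj (a + i) (by omega) (a + j) (by omega) h
    omega

theorem sub_supp (a b : ℕ) (hab : a ≤ b) (hb : b ≤ P.len) :
    (P.sub a b hab hb).supp = {v | ∃ i, a ≤ i ∧ i ≤ b ∧ P.p i = v} := by
  ext v
  constructor
  · rintro ⟨i, h1, h2⟩
    simp only [sub] at h1 h2
    exact ⟨a + i, by omega, by omega, h2⟩
  · rintro ⟨i, h1, h2, h3⟩
    refine ⟨i - a, ?_, ?_⟩
    · simp only [sub]; omega
    · simp only [sub]
      rw [show a + (i - a) = i by omega]; exact h3

theorem sub_supp_subset (a b : ℕ) (hab : a ≤ b) (hb : b ≤ P.len) :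
    (P.sub a b hab hb).supp ⊆ P.supp := by
  rw [sub_supp]
  rintro v ⟨i, _, h2, h3⟩
  exact ⟨i, h2.trans hb, h3⟩

/-- reversed path -/
def rev : GP G where
  len := P.len
  p := fun i => P.p (P.len - i)
  adj := fun i hi => by
    have := P.adj (P.len - (i + 1)) (by omega)
    rw [show P.len - (i + 1) + 1 = P.len - i by omega] at this
    exact this.symm
  inj := fun i hi j hj h => by
    have := P.inj (P.len - i) (by omega) (P.len - j) (by omega) h
    omega

theorem rev_supp : P.rev.supp = P.supp := by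
  ext v
  constructor
  · rintro ⟨i, h1, h2⟩
    simp only [rev] at h1 h2
    exact ⟨P.len - i, by omega, h2⟩
  · rintro ⟨i, h1, h2⟩
    refine ⟨P.len - i, ?_, ?_⟩
    · simp only [rev]; omega
    · simp only [rev]
      rw [show P.len - (P.len - i) = i by omega]; exact h2

@[simp] theorem rev_len : P.rev.len = P.len := rfl

theorem rev_p (i : ℕ) : P.rev.p i = P.p (P.len - i) := rfl

/-- concatenation of two disjoint paths joined by an edge -/
def cat (P Q : GP G) (h : G.Adj (P.p P.len) (Q.p 0)) (hd : Disjoint P.supp Q.supp) : GP G where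
  len := P.len + Q.len + 1
  p := fun i => if i ≤ P.len then P.p i else Q.p (i - (P.len + 1))
  adj := fun i hi => by
    by_cases h1 : i + 1 ≤ P.len
    · have : i ≤ P.len := by omega
      simp only [h1, this, if_true]
      exact P.adj i (by omega)
    · by_cases h2 : i ≤ P.len
      · have h3 : i = P.len := by omega
        subst h3
        simp only [le_refl, if_true, h1, if_false]
        rw [show P.len + 1 - (P.len + 1) = 0 by omega]
        exact h
      · simp only [h1, h2, if_false]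
        rw [show i + 1 - (P.len + 1) = i - (P.len + 1) + 1 by omega]
        exact Q.adj _ (by omega)
  inj := fun i hi j hj hij => by
    by_cases h1 : i ≤ P.len <;> by_cases h2 : j ≤ P.len
    · simp only [h1, h2, if_true] at hij
      exact P.inj i h1 j h2 hij
    · simp only [h1, h2, if_true, if_false] at hij
      exact (Set.disjoint_left.1 hd (P.mem_supp h1)
        (hij ▸ Q.mem_supp (i := j - (P.len + 1)) (by omega))).elim
    · simp only [h1, h2, if_true, if_false] at hij
      exact (Set.disjoint_left.1 hd (P.mem_supp h2)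
        (hij ▸ Q.mem_supp (i := i - (P.len + 1)) (by omega))).elim
    · simp only [h1, h2, if_false] at hij
      have := Q.inj _ (by omega) _ (by omega) hij
      omega

theorem cat_len (P Q : GP G) (h : G.Adj (P.p P.len) (Q.p 0)) (hd : Disjoint P.supp Q.supp) :
    (cat P Q h hd).len = P.len + Q.len + 1 := rfl

theorem cat_p_left (P Q : GP G) (h : G.Adj (P.p P.len) (Q.p 0)) (hd : Disjoint P.supp Q.supp)
    {i : ℕ} (hi : i ≤ P.len) : (cat P Q h hd).p i = P.p i := by
  simp [cat, hi]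

theorem cat_p_right (P Q : GP G) (h : G.Adj (P.p P.len) (Q.p 0)) (hd : Disjoint P.supp Q.supp)
    {i : ℕ} (hi : P.len < i) : (cat P Q h hd).p i = Q.p (i - (P.len + 1)) := by
  simp [cat, show ¬ i ≤ P.len by omega]

theorem cat_src (P Q : GP G) (h : G.Adj (P.p P.len) (Q.p 0)) (hd : Disjoint P.supp Q.supp) :
    (cat P Q h hd).p 0 = P.p 0 := cat_p_left P Q h hd (Nat.zero_le _)

theorem cat_tgt (P Q : GP G) (h : G.Adj (P.p P.len) (Q.p 0)) (hd : Disjoint P.supp Q.supp) :
    (cat P Q h hd).p (cat P Q h hd).len = Q.p Q.len := by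
  rw [cat_len, cat_p_right P Q h hd (by omega)]
  congr 1
  omega

theorem cat_supp (P Q : GP G) (h : G.Adj (P.p P.len) (Q.p 0)) (hd : Disjoint P.supp Q.supp) :
    (cat P Q h hd).supp = P.supp ∪ Q.supp := by
  ext v
  constructor
  · rintro ⟨i, h1, h2⟩
    rw [cat_len] at h1
    by_cases h3 : i ≤ P.len
    · rw [cat_p_left P Q h hd h3] at h2
      exact Or.inl ⟨i, h3, h2⟩
    · rw [cat_p_right P Q h hd (by omega)] at h2
      exact Or.inr ⟨_, by omega, h2⟩
  · rintro (⟨i, h1, h2⟩ | ⟨i, h1, h2⟩)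
    · exact ⟨i, by rw [cat_len]; omega, by rw [cat_p_left P Q h hd h1]; exact h2⟩
    · refine ⟨P.len + 1 + i, by rw [cat_len]; omega, ?_⟩
      rw [cat_p_right P Q h hd (by omega), show P.len + 1 + i - (P.len + 1) = i by omega]
      exact h2

/-- join two paths which share only the end of the first = the start of the second -/
theorem exists_glue (P Q : GP G) (h : P.p P.len = Q.p 0)
    (hd : ∀ i, i ≤ P.len → ∀ j, j ≤ Q.len → P.p i = Q.p j → j = 0) :
    ∃ R : GP G, R.len = P.len + Q.len ∧ (∀ i, i ≤ P.len → R.p i = P.p i) ∧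
      (∀ j, j ≤ Q.len → R.p (P.len + j) = Q.p j) := by
  refine ⟨⟨P.len + Q.len, fun i => if i ≤ P.len then P.p i else Q.p (i - P.len), ?_, ?_⟩,
    rfl, ?_, ?_⟩
  · intro i hi
    by_cases h1 : i + 1 ≤ P.len
    · have : i ≤ P.len := by omega
      simp only [h1, this, if_true]
      exact P.adj i (by omega)
    · by_cases h2 : i ≤ P.len
      · have h3 : i = P.len := by omega
        subst h3
        simp only [le_refl, if_true, h1, if_false]
        rw [h, show P.len + 1 - P.len = 0 + 1 by omega]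
        exact Q.adj 0 (by omega)
      · simp only [h1, h2, if_false]
        rw [show i + 1 - P.len = i - P.len + 1 by omega]
        exact Q.adj _ (by omega)
  · intro i hi j hj hij
    by_cases h1 : i ≤ P.len <;> by_cases h2 : j ≤ P.len
    · simp only [h1, h2, if_true] at hij
      exact P.inj i h1 j h2 hij
    · simp only [h1, h2, if_true, if_false] at hij
      have := hd i h1 (j - P.len) (by omega) hij
      omega
    · simp only [h1, h2, if_true, if_false] at hij
      have := hd j h2 (i - P.len) (by omega) hij.symm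
      omega
    · simp only [h1, h2, if_false] at hij
      have := Q.inj _ (by omega) _ (by omega) hij
      omega
  · intro i hi
    simp [hi]
  · intro j hj
    by_cases h0 : j = 0
    · subst h0; simp [h]
    · simp [show ¬ P.len + j ≤ P.len by omega]

/-- transport a path to another graph containing its edges -/
def mapG {G G' : SimpleGraph V} (P : GP G)
    (h : ∀ i, i < P.len → G'.Adj (P.p i) (P.p (i + 1))) : GP G' where
  len := P.len
  p := P.p
  adj := h
  inj := P.inj

theorem mapG_supp {G G' : SimpleGraph V} (P : GP G)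
    (h : ∀ i, i < P.len → G'.Adj (P.p i) (P.p (i + 1))) : (P.mapG h).supp = P.supp := rfl

theorem supp_finite : P.supp.Finite := by
  have : P.supp = P.p '' {i | i ≤ P.len} := by
    ext v; constructor
    · rintro ⟨i, h1, h2⟩; exact ⟨i, h1, h2⟩
    · rintro ⟨i, h1, h2⟩; exact ⟨i, h1, h2⟩
  rw [this]
  exact (Set.finite_le_nat _).image _

end GP

/-- reachability gives a path -/
theorem RIn.exists_path (h : RIn G S x y) (hx : x ∈ S) :
    ∃ P : GP G, P.p 0 = x ∧ P.p P.len = y ∧ P.supp ⊆ S := by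
  induction h with
  | refl =>
    refine ⟨GP.single G x, rfl, rfl, ?_⟩
    rintro v ⟨i, _, rfl⟩
    exact hx
  | @tail b c hab hbc ih =>
    obtain ⟨P, h0, h1, hS⟩ := ih
    by_cases hc : c ∈ P.supp
    · obtain ⟨i, hi, hic⟩ := hc
      refine ⟨P.sub 0 i (Nat.zero_le _) hi, ?_, ?_, ?_⟩
      · simpa [GP.sub] using h0
      · simpa [GP.sub] using hic
      · exact (P.sub_supp_subset 0 i _ hi).trans hS
    · have hd : Disjoint P.supp (GP.single G c).supp := by
        rw [Set.disjoint_left]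
        rintro v hv ⟨i, _, rfl⟩
        exact hc hv
      refine ⟨GP.cat P (GP.single G c) (by rw [h1]; exact hbc.1) hd, ?_, ?_, ?_⟩
      · rw [GP.cat_src]; exact h0
      · rw [GP.cat_tgt]; rfl
      · rw [GP.cat_supp]
        rintro v (hv | ⟨i, _, rfl⟩)
        · exact hS hv
        · exact hbc.2.2

/-- an `A`–`B` path: only the first vertex is in `A`, only the last in `B` -/
theorem RIn.exists_ABpath {A B : Set V} (h : RIn G S x y) (hxS : x ∈ S) (hx : x ∈ A)
    (hy : y ∈ B) :
    ∃ P : GP G, P.p 0 ∈ A ∧ P.p P.len ∈ B ∧ P.supp ⊆ S ∧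
      (∀ i, 0 < i → i ≤ P.len → P.p i ∉ A) ∧ (∀ i, i < P.len → P.p i ∉ B) := by
  classical
  obtain ⟨P, h0, h1, hS⟩ := h.exists_path hxS
  have hex : ∃ j, j ≤ P.len ∧ P.p j ∈ B := ⟨P.len, le_rfl, h1 ▸ hy⟩
  obtain ⟨hj1, hj2⟩ := Nat.find_spec hex
  set j := Nat.find hex with hjdef
  have hjmin : ∀ i, i < j → P.p i ∉ B := by
    intro i hi hB
    exact Nat.find_min hex hi ⟨by omega, hB⟩
  obtain ⟨i, hi1, hi2, hi3⟩ : ∃ i, i ≤ j ∧ P.p i ∈ A ∧ ∀ k, i < k → k ≤ j → P.p k ∉ A := by
    have hex2 : ∃ k, k ≤ j ∧ P.p (j - k) ∈ A := ⟨j, le_rfl, by simpa [h0] using hx⟩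
    obtain ⟨hk1, hk2⟩ := Nat.find_spec hex2
    refine ⟨j - Nat.find hex2, by omega, hk2, ?_⟩
    intro k hk1' hk2' hA
    have := Nat.find_min hex2 (m := j - k) (by omega)
    apply this
    refine ⟨by omega, ?_⟩
    rw [show j - (j - k) = k by omega]
    exact hA
  refine ⟨P.sub i j hi1 hj1, ?_, ?_, ?_, ?_, ?_⟩
  · simpa [GP.sub] using hi2
  · simp only [GP.sub]
    rw [show i + (j - i) = j by omega]
    exact hj2
  · exact (P.sub_supp_subset _ _ _ _).trans hS
  · intro k hk1 hk2
    simp only [GP.sub] at hk2 ⊢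
    exact hi3 _ (by omega) (by omega)
  · intro k hk
    simp only [GP.sub] at hk ⊢
    exact hjmin _ (by omega)

/-- split a connected set so that two given disjoint parts touch -/
theorem Conn.exists_touch {H C D : Set V} (hH : Conn G H) (hC : Conn G C) (hCH : C ⊆ H)
    (hDH : D ⊆ H) (hD : D.Nonempty) (hCD : Disjoint C D) :
    ∃ C', C ⊆ C' ∧ C' ⊆ H ∧ Conn G C' ∧ Disjoint C' D ∧ Touch G C' D := by
  obtain ⟨c, hc⟩ := hC.1
  obtain ⟨d, hd⟩ := hD
  obtain ⟨P, h0, h1, hS, hA, hB⟩ :=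
    (hH.2 c (hCH hc) d (hDH hd)).exists_ABpath (A := C) (B := D) (hCH hc) hc hd
  have hlen : 0 < P.len := by
    rcases Nat.eq_zero_or_pos P.len with h | h
    · rw [h] at h1
      exact absurd h1 (Set.disjoint_left.1 hCD h0)
    · exact h
  have hseg := P.seg_conn (a := 0) (b := P.len - 1) (Nat.zero_le _) (by omega)
  refine ⟨C ∪ {v | ∃ i, 0 ≤ i ∧ i ≤ P.len - 1 ∧ P.p i = v}, subset_union_left, ?_, ?_, ?_, ?_⟩
  · rintro v (hv | ⟨i, _, hi, rfl⟩)
    · exact hCH hv
    · exact hS (P.mem_supp (by omega))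
  · exact hC.union hseg ⟨P.p 0, h0, 0, le_rfl, Nat.zero_le _, rfl⟩
  · rw [Set.disjoint_left]
    rintro v (hv | ⟨i, _, hi, rfl⟩)
    · exact Set.disjoint_left.1 hCD hv
    · exact hB i (by omega)
  · refine ⟨P.p (P.len - 1), Or.inr ⟨P.len - 1, Nat.zero_le _, le_rfl, rfl⟩, P.p P.len, h1, ?_⟩
    have := P.adj (P.len - 1) (by omega)
    rwa [show P.len - 1 + 1 = P.len by omega] at this

/-- Voronoi splitting: if every vertex of the finite set `K` is reachable in `K` from `D ⊆ K`,
then `K` is partitioned into connected sets each containing exactly one vertex of `D` -/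
theorem exists_voronoi {K D : Set V} (hK : K.Finite) (hDK : D ⊆ K)
    (hreach : ∀ x ∈ K, ∃ d ∈ D, RIn G K d x) :
    ∃ W : V → Set V, (∀ d ∈ D, Conn G (W d) ∧ d ∈ W d ∧ W d ⊆ K) ∧
      (∀ d ∈ D, ∀ d' ∈ D, d ≠ d' → Disjoint (W d) (W d')) ∧ ∀ x ∈ K, ∃ d ∈ D, x ∈ W d := by
  classical
  suffices hmain : ∀ n : ℕ, ∀ W : V → Set V, (∀ d ∈ D, Conn G (W d) ∧ d ∈ W d ∧ W d ⊆ K) →
      (∀ d ∈ D, ∀ d' ∈ D, d ≠ d' → Disjoint (W d) (W d')) →
      (K \ ⋃ d ∈ D, W d).ncard = n →
      ∃ W : V → Set V, (∀ d ∈ D, Conn G (W d) ∧ d ∈ W d ∧ W d ⊆ K) ∧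
      (∀ d ∈ D, ∀ d' ∈ D, d ≠ d' → Disjoint (W d) (W d')) ∧ ∀ x ∈ K, ∃ d ∈ D, x ∈ W d by
    refine hmain _ (fun d => {d}) ?_ ?_ rfl
    · intro d hd
      exact ⟨conn_singleton G d, rfl, by simpa using hDK hd⟩
    · intro d _ d' _ hne
      simpa using hne
  intro n
  induction n with
  | zero =>
    intro W h1 h2 h3
    refine ⟨W, h1, h2, ?_⟩
    intro x hx
    have hfin : (K \ ⋃ d ∈ D, W d).Finite := hK.subset sdiff_subset
    rw [Set.ncard_eq_zero hfin] at h3
    by_contra hcon
    have : x ∈ K \ ⋃ d ∈ D, W d := by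
      refine ⟨hx, ?_⟩
      simp only [mem_iUnion, not_exists]
      intro d hd hxd
      exact hcon ⟨d, hd, hxd⟩
    rw [h3] at this
    exact this
  | succ n ih =>
    intro W h1 h2 h3
    have hfin : (K \ ⋃ d ∈ D, W d).Finite := hK.subset sdiff_subset
    have hne : (K \ ⋃ d ∈ D, W d).Nonempty := by
      rw [← Set.ncard_pos hfin]; omega
    obtain ⟨x, hxK, hxU⟩ := hne
    obtain ⟨d, hd, hdx⟩ := hreach x hxK
    obtain ⟨a, b, _, haT, hbT, hab, haK, hbK⟩ := hdx.exit (T := ⋃ d ∈ D, W d)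
      (mem_biUnion hd (h1 d hd).2.1) hxU
    rw [mem_iUnion₂] at haT
    obtain ⟨e, he, hae⟩ := haT
    have hbe : ∀ d ∈ D, b ∉ W d := by
      intro d' hd' hb
      exact hbT (mem_biUnion hd' hb)
    refine ih (fun d => if d = e then insert b (W e) else W d) ?_ ?_ ?_
    · intro d' hd'
      by_cases hde : d' = e
      · subst hde
        simp only [if_true]
        exact ⟨(h1 d' hd').1.insert hae hab, mem_insert_of_mem _ (h1 d' hd').2.1,
          insert_subset hbK (h1 d' hd').2.2⟩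
      · simp only [hde, if_false]
        exact h1 d' hd'
    · intro d1 hd1 d2 hd2 hne'
      by_cases h1e : d1 = e <;> by_cases h2e : d2 = e
      · exact absurd (h1e.trans h2e.symm) hne'
      · subst h1e
        simp only [if_true, h2e, if_false]
        rw [Set.disjoint_insert_left]
        exact ⟨hbe d2 hd2, h2 _ he d2 hd2 hne'⟩
      · subst h2e
        simp only [if_true, h1e, if_false]
        rw [Set.disjoint_insert_right]
        exact ⟨hbe d1 hd1, h2 d1 hd1 _ he hne'⟩
      · simp only [h1e, h2e, if_false]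
        exact h2 d1 hd1 d2 hd2 hne'
    · have hset : (K \ ⋃ d ∈ D, (fun d => if d = e then insert b (W e) else W d) d)
          = (K \ ⋃ d ∈ D, W d) \ {b} := by
        ext z
        simp only [mem_sdiff, mem_iUnion, not_exists, mem_singleton_iff]
        constructor
        · rintro ⟨hz1, hz2⟩
          refine ⟨⟨hz1, ?_⟩, ?_⟩
          · intro d' hd' hzd
            have := hz2 d' hd'
            by_cases hde : d' = e
            · subst hde
              simp only [if_true] at this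
              exact this (mem_insert_of_mem _ hzd)
            · simp only [hde, if_false] at this
              exact this hzd
          · rintro rfl
            have := hz2 e he
            simp at this
        · rintro ⟨⟨hz1, hz2⟩, hz3⟩
          refine ⟨hz1, ?_⟩
          intro d' hd' hzd
          by_cases hde : d' = e
          · subst hde
            simp only [if_true] at hzd
            rcases hzd with hzd | hzd
            · exact hz3 hzd
            · exact hz2 d' hd' hzd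
          · simp only [hde, if_false] at hzd
            exact hz2 d' hd' hzd
      have hmem : b ∈ K \ ⋃ d ∈ D, W d := ⟨hbK, hbT⟩
      rw [hset, Set.ncard_sdiff_singleton_of_mem hmem, h3]
      rfl

/-! ### minors -/

theorem IsMinor.refl (G : SimpleGraph V) : IsMinor G G :=
  ⟨fun v => {v}, fun v => conn_singleton G v, fun _ _ h => by simpa using h,
    fun w w' h => ⟨w, rfl, w', rfl, h⟩⟩

theorem IsMinor.trans {V'' : Type*} {H : SimpleGraph V} {G : SimpleGraph V'}
    {K : SimpleGraph V''} (h1 : IsMinor H G) (h2 : IsMinor G K) : IsMinor H K := by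
  obtain ⟨B, hB1, hB2, hB3⟩ := h1
  obtain ⟨C, hC1, hC2, hC3⟩ := h2
  refine ⟨fun w => ⋃ i ∈ B w, C i, ?_, ?_, ?_⟩
  · intro w
    exact (hB1 w).lift (fun i _ => hC1 i) (fun i _ j _ hij => Or.inl (hC3 i j hij))
  · intro w w' hne
    rw [Set.disjoint_left]
    intro z hz hz'
    rw [mem_iUnion₂] at hz hz'
    obtain ⟨i, hi, hzi⟩ := hz
    obtain ⟨j, hj, hzj⟩ := hz'
    have hij : i ≠ j := by
      rintro rfl
      exact Set.disjoint_left.1 (hB2 w w' hne) hi hj
    exact Set.disjoint_left.1 (hC2 i j hij) hzi hzj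
  · intro w w' hww
    obtain ⟨i, hi, j, hj, hij⟩ := hB3 w w' hww
    obtain ⟨a, ha, b, hb, hab⟩ := hC3 i j hij
    exact ⟨a, mem_biUnion hi ha, b, mem_biUnion hj hb, hab⟩

theorem IsMinor.hasK {H : SimpleGraph V} {G : SimpleGraph V'} {t : ℕ} (h1 : IsMinor H G)
    (h2 : HasK H t) : HasK G t := by
  obtain ⟨B, hB1, hB2, hB3⟩ := h2
  have hH : IsMinor (⊤ : SimpleGraph (Fin t)) H := ⟨B, hB1, hB2, fun w w' h => hB3 w w' h.ne⟩
  obtain ⟨C, hC1, hC2, hC3⟩ := hH.trans h1
  exact ⟨C, hC1, hC2, fun i j hij => hC3 i j hij⟩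

/-- an injective homomorphism gives a minor -/
theorem isMinor_of_hom {H : SimpleGraph V} {G : SimpleGraph V'} (f : V → V')
    (hf : Function.Injective f) (h : ∀ x y, H.Adj x y → G.Adj (f x) (f y)) : IsMinor H G :=
  ⟨fun v => {f v}, fun v => conn_singleton G _, fun x y hxy => by
    simpa using fun h => hxy (hf h), fun x y hxy => ⟨f x, rfl, f y, rfl, h x y hxy⟩⟩

/-- a complete minor of size at least `|V(H)|` gives `H` -/
theorem HasK.isMinor {t : ℕ} {n : ℕ} (H : SimpleGraph (Fin n)) (G : SimpleGraph V) (hn : n ≤ t)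
    (h : HasK G t) : IsMinor H G := by
  obtain ⟨B, hB1, hB2, hB3⟩ := h
  refine ⟨fun i => B (Fin.castLE hn i), fun i => hB1 _, ?_, ?_⟩
  · intro i j hij
    exact hB2 _ _ (by simpa using hij)
  · intro i j hij
    exact hB3 _ _ (by simpa using hij.ne)

theorem HasK.mono {t t' : ℕ} (htt : t' ≤ t) (h : HasK G t) : HasK G t' := by
  obtain ⟨B, hB1, hB2, hB3⟩ := h
  refine ⟨fun i => B (Fin.castLE htt i), fun i => hB1 _, ?_, ?_⟩
  · intro i j hij
    exact hB2 _ _ (by simpa using hij)
  · intro i j hij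
    exact hB3 _ _ (by simpa using hij)

theorem HasK.monoG {t : ℕ} (hG : G ≤ G') (h : HasK G t) : HasK G' t := by
  obtain ⟨B, hB1, hB2, hB3⟩ := h
  exact ⟨B, fun i => (hB1 i).monoG hG, hB2, fun i j hij => (hB3 i j hij).monoG hG⟩

end Pool.Agent.Lib.MP_4d119b_lc
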