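import Pool.Agent.Lib.MP_4d119b_lc.Iface

/-! From a local grid to an array of cells with belts. -/

namespace Pool.Agent.Lib.MP_4d119b_lc

open Set

/-- chain of connected sets -/
theorem conn_chain {V : Type*} {G : SimpleGraph V} (R : ℕ → Set V) (a b : ℕ) (hab : a ≤ b)
    (hR : ∀ i, a ≤ i → i ≤ b → Conn G (R i))
    (hT : ∀ i, a ≤ i → i < b → Touch G (R i) (R (i + 1)) ∨ (R i ∩ R (i + 1)).Nonempty) :
    Conn G (⋃ i ∈ Set.Icc a b, R i) := by
  induction b, hab using Nat.le_induction with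
  | base =>
    have : (⋃ i ∈ Set.Icc a a, R i) = R a := by simp
    rw [this]
    exact hR a le_rfl le_rfl
  | succ b hab ih =>
    have h1 := ih (fun i h1 h2 => hR i h1 (by omega)) (fun i h1 h2 => hT i h1 (by omega))
    have he : (⋃ i ∈ Set.Icc a (b + 1), R i) = (⋃ i ∈ Set.Icc a b, R i) ∪ R (b + 1) := by
      ext v
      simp only [mem_iUnion, mem_Icc, mem_union, exists_prop]
      constructor
      · rintro ⟨i, ⟨h1, h2⟩, h3⟩
        by_cases h4 : i = b + 1
        · subst h4; exact Or.inr h3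
        · exact Or.inl ⟨i, ⟨h1, by omega⟩, h3⟩
      · rintro (⟨i, ⟨h1, h2⟩, h3⟩ | h3)
        · exact ⟨i, ⟨h1, by omega⟩, h3⟩
        · exact ⟨b + 1, ⟨by omega, le_rfl⟩, h3⟩
    rw [he]
    have hsub : R b ⊆ ⋃ i ∈ Set.Icc a b, R i :=
      subset_biUnion_of_mem (u := R) (show b ∈ Set.Icc a b from ⟨hab, le_rfl⟩)
    rcases hT b hab (by omega) with h2 | ⟨z, hz1, hz2⟩
    · exact h1.union_touch (hR (b + 1) (by omega) le_rfl) (h2.mono hsub subset_rfl)
    · exact h1.union (hR (b + 1) (by omega) le_rfl) ⟨z, hsub hz1, hz2⟩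

/-- union of the sets `X i j` over a rectangle is connected -/
theorem conn_rect {V : Type*} {G : SimpleGraph V} (X : ℕ → ℕ → Set V) (a b c d : ℕ)
    (hab : a ≤ b) (hcd : c ≤ d)
    (hX : ∀ i j, a ≤ i → i ≤ b → c ≤ j → j ≤ d → Conn G (X i j))
    (hr : ∀ i j, a ≤ i → i < b → c ≤ j → j ≤ d → Touch G (X i j) (X (i + 1) j))
    (hd : ∀ i j, a ≤ i → i ≤ b → c ≤ j → j < d → Touch G (X i j) (X i (j + 1))) :
    Conn G (⋃ i ∈ Set.Icc a b, ⋃ j ∈ Set.Icc c d, X i j) := by
  refine conn_chain _ a b hab ?_ ?_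
  · intro i h1 h2
    exact conn_chain _ c d hcd (fun j h3 h4 => hX i j h1 h2 h3 h4)
      (fun j h3 h4 => Or.inl (hd i j h1 h2 h3 h4))
  · intro i h1 h2
    left
    refine (hr i c h1 h2 le_rfl hcd).mono ?_ ?_
    · exact subset_biUnion_of_mem (u := fun j => X i j) (show c ∈ Set.Icc c d from ⟨le_rfl, hcd⟩)
    · exact subset_biUnion_of_mem (u := fun j => X (i + 1) j)
        (show c ∈ Set.Icc c d from ⟨le_rfl, hcd⟩)

/-- the graph `G` restricted to `U` -/
def resG {V : Type} (G : SimpleGraph V) (U : Set V) : SimpleGraph V where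
  Adj x y := G.Adj x y ∧ x ∈ U ∧ y ∈ U
  symm := ⟨fun _ _ h => ⟨h.1.symm, h.2.2, h.2.1⟩⟩
  loopless := ⟨fun _ h => G.loopless.irrefl _ h.1⟩

theorem resG_le {V : Type} (G : SimpleGraph V) (U : Set V) : resG G U ≤ G := fun _ _ h => h.1

theorem Conn.subset_of_resG {V : Type} {G : SimpleGraph V} {U S : Set V} (h : Conn (resG G U) S)
    {x : V} (hx : x ∈ S) (hxU : x ∈ U) : S ⊆ U := by
  intro y hy
  exact RIn.closed (P := fun z => z ∈ U) (h.2 x hx y hy) hxU (fun a b _ _ hab _ => hab.2.2)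

/-- a cell: a connected set with four ports, nested belts, and a center `I` that is separated
from the outside of `H` in `G - A` by every belt -/
structure Cell {V : Type} (G : SimpleGraph V) (A : Set V) where
  H : Set V
  port : Fin 4 → V
  I : Set V
  belt : ℕ → Set V
  conn : Conn G H
  disjA : Disjoint H A
  port_mem : ∀ i, port i ∈ H
  port_inj : Function.Injective port
  port_out : ∀ i, ∃ z, z ∉ H ∧ z ∉ A ∧ G.Adj (port i) z
  I_ne : I.Nonempty
  I_sub : I ⊆ H
  belt_conn : ∀ k, k < 40 → Conn G (belt k)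
  belt_sub : ∀ k, k < 40 → belt k ⊆ H
  belt_disj : ∀ k l, k < 40 → l < 40 → k ≠ l → Disjoint (belt k) (belt l)
  belt_link : ∀ k, k < 40 → ∃ L : Fin 4 → Set V, (∀ i, Conn G (L i) ∧ L i ⊆ H ∧ port i ∈ L i ∧
    (L i ∩ belt k).Nonempty) ∧ ∀ i j, i ≠ j → Disjoint (L i) (L j)
  cross : ∀ K : Set V, Conn G K → Disjoint K A → (K ∩ I).Nonempty → ¬ K ⊆ H →
    ∀ k, k < 40 → (K ∩ belt k).Nonempty

/-- an `n × n` array of cells -/
structure CellArray {V : Type} (G : SimpleGraph V) (A : Set V) (U : Set V) (n : ℕ) where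
  C : ℕ → ℕ → Cell G A
  disj : ∀ i j i' j', i < n → j < n → i' < n → j' < n → (i ≠ i' ∨ j ≠ j') →
    Disjoint (C i j).H (C i' j').H
  right : ∀ i j, i + 1 < n → j < n → G.Adj ((C i j).port 1) ((C (i + 1) j).port 3)
  down : ∀ i j, i < n → j + 1 < n → G.Adj ((C i j).port 2) ((C i (j + 1)).port 0)
  inU : ∀ i j, i < n → j < n → (C i j).H ⊆ U
  nbU : ∀ i j, i < n → j < n → ∀ v ∈ (C i j).H, ∀ z, G.Adj v z → z ∈ U

namespace CellsAux

variable {V : Type} {G : SimpleGraph V} {U A : Set V} {N : ℕ} {X : ℕ → ℕ → Set V}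

/-- all grid vertices -/
def WW (N : ℕ) (X : ℕ → ℕ → Set V) : Set V := {v | ∃ i j, i < N ∧ j < N ∧ v ∈ X i j}

/-- outside component of a vertex -/
def oc (G : SimpleGraph V) (U A : Set V) (N : ℕ) (X : ℕ → ℕ → Set V) (v : V) : Set V :=
  comp (resG G U) (A ∪ WW N X)ᶜ v

/-- the part attached to the block `[a, a+100] × [c, c+100]` -/
def attd (G : SimpleGraph V) (U A : Set V) (N : ℕ) (X : ℕ → ℕ → Set V) (a c : ℕ) : Set V :=
  {v | v ∉ A ∧ v ∉ WW N X ∧
    (∃ i j, i < N ∧ j < N ∧ Touch (resG G U) (oc G U A N X v) (X i j)) ∧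
    ∀ i j, i < N → j < N → Touch (resG G U) (oc G U A N X v) (X i j) →
      (a ≤ i ∧ i ≤ a + 100) ∧ (c ≤ j ∧ j ≤ c + 100)}

/-- cell of the block -/
def HH (G : SimpleGraph V) (U A : Set V) (N : ℕ) (X : ℕ → ℕ → Set V) (a c : ℕ) : Set V :=
  (⋃ i ∈ Set.Icc a (a + 100), ⋃ j ∈ Set.Icc c (c + 100), X i j) ∪ attd G U A N X a c

/-- level of a position in the block -/
def lev (a c i j : ℕ) : ℕ := min (min (i - a) (j - c)) (min (a + 100 - i) (c + 100 - j))

/-- ring -/
def ring (X : ℕ → ℕ → Set V) (a c k : ℕ) : Set V :=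
  {v | ∃ i j, a ≤ i ∧ i ≤ a + 100 ∧ c ≤ j ∧ j ≤ c + 100 ∧ lev a c i j = k ∧ v ∈ X i j}

variable (hX : IsHost (resG G U) A N X)

include hX in
theorem X_subset_U (hN : 2 ≤ N) {i j : ℕ} (hi : i < N) (hj : j < N) : X i j ⊆ U := by
  by_cases h : i + 1 < N
  · obtain ⟨x, hx, y, hy, hxy⟩ := hX.right i j h hj
    exact (hX.conn i j hi hj).subset_of_resG hx hxy.2.1
  · obtain ⟨x, hx, y, hy, hxy⟩ := hX.right (i - 1) j (by omega) hj
    rw [show i - 1 + 1 = i by omega] at hy
    exact (hX.conn i j hi hj).subset_of_resG hy hxy.2.2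

theorem oc_conn {v : V} (hvA : v ∉ A) (hvW : v ∉ WW N X) :
    Conn (resG G U) (oc G U A N X v) :=
  comp_conn (by simp [hvA, hvW])

theorem oc_subset {v : V} (hvA : v ∉ A) (hvW : v ∉ WW N X) :
    oc G U A N X v ⊆ (A ∪ WW N X)ᶜ := comp_subset (by simp [hvA, hvW])

theorem oc_disjA {v : V} (hvA : v ∉ A) (hvW : v ∉ WW N X) : Disjoint (oc G U A N X v) A := by
  rw [Set.disjoint_left]
  intro z hz hzA
  exact oc_subset hvA hvW hz (Or.inl hzA)

theorem oc_disjX {v : V} (hvA : v ∉ A) (hvW : v ∉ WW N X) {i j : ℕ} (hi : i < N) (hj : j < N) :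
    Disjoint (oc G U A N X v) (X i j) := by
  rw [Set.disjoint_left]
  intro z hz hzA
  exact oc_subset hvA hvW hz (Or.inr ⟨i, j, hi, hj, hzA⟩)

include hX in
theorem oc_near {v : V} (hvA : v ∉ A) (hvW : v ∉ WW N X) {i j i' j' : ℕ} (hi : i < N)
    (hj : j < N) (hi' : i' < N) (hj' : j' < N)
    (h : Touch (resG G U) (oc G U A N X v) (X i j))
    (h' : Touch (resG G U) (oc G U A N X v) (X i' j')) : NearBd N i j i' j' :=
  hX.jump _ (oc_conn hvA hvW) (oc_disjA hvA hvW) (fun i j hi hj => oc_disjX hvA hvW hi hj)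
    i j i' j' hi hj hi' hj' h h'

/-- inner region of level `> k` -/
def RR (G : SimpleGraph V) (U A : Set V) (N : ℕ) (X : ℕ → ℕ → Set V) (a c k : ℕ) : Set V :=
  {v | (∃ i j, a ≤ i ∧ i ≤ a + 100 ∧ c ≤ j ∧ j ≤ c + 100 ∧ k < lev a c i j ∧ v ∈ X i j) ∨
    (v ∉ A ∧ v ∉ WW N X ∧ ∃ i j, a ≤ i ∧ i ≤ a + 100 ∧ c ≤ j ∧ j ≤ c + 100 ∧ k < lev a c i j ∧
      Touch (resG G U) (oc G U A N X v) (X i j))}

theorem lev_near {a c k i j i' j' : ℕ} (hi1 : a ≤ i) (hi2 : i ≤ a + 100)
    (hj1 : c ≤ j) (hj2 : j ≤ c + 100) (hk : k < lev a c i j) (haN : a + 100 < N)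
    (hcN : c + 100 < N) (h : NearBd N i j i' j') :
    a ≤ i' ∧ i' ≤ a + 100 ∧ c ≤ j' ∧ j' ≤ c + 100 ∧ k ≤ lev a c i' j' := by
  unfold lev at hk ⊢
  rcases h with ⟨h1, h2, h3, h4⟩ | ⟨h1, _⟩
  · simp only [lt_min_iff] at hk
    refine ⟨by omega, by omega, by omega, by omega, ?_⟩
    simp only [le_min_iff]
    omega
  · simp only [lt_min_iff] at hk
    rcases h1 with h1 | h1 | h1 | h1 <;> omega

include hX in
theorem RR_subset_HH {a c k : ℕ} (haN : a + 100 < N) (hcN : c + 100 < N) :
    RR G U A N X a c k ⊆ HH G U A N X a c := by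
  rintro v (⟨i, j, h1, h2, h3, h4, h5, h6⟩ | ⟨hvA, hvW, i, j, h1, h2, h3, h4, h5, h6⟩)
  · left
    rw [mem_iUnion₂]
    refine ⟨i, ⟨h1, h2⟩, ?_⟩
    rw [mem_iUnion₂]
    exact ⟨j, ⟨h3, h4⟩, h6⟩
  · right
    refine ⟨hvA, hvW, ⟨i, j, by omega, by omega, h6⟩, ?_⟩
    intro i' j' hi' hj' ht
    have := oc_near hX hvA hvW (show i < N by omega) (show j < N by omega) hi' hj' h6 ht
    have := lev_near h1 h2 h3 h4 h5 haN hcN this
    omega

include hX in
theorem cross_aux {a c k : ℕ} (haN : a + 100 < N) (hcN : c + 100 < N)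
    (hnb : ∀ v ∈ HH G U A N X a c, v ∈ U ∧ ∀ z, G.Adj v z → z ∈ U)
    {K : Set V} (hK : Conn G K) (hKA : Disjoint K A)
    (hKI : (K ∩ RR G U A N X a c k).Nonempty) (hKH : ¬ K ⊆ HH G U A N X a c) :
    (K ∩ ring X a c k).Nonempty := by
  by_contra hcon
  rw [Set.not_nonempty_iff_eq_empty] at hcon
  apply hKH
  obtain ⟨x0, hx0K, hx0R⟩ := hKI
  intro y hy
  apply RR_subset_HH hX (k := k) haN hcN
  refine RIn.closed (P := fun z => z ∈ RR G U A N X a c k) (hK.2 x0 hx0K y hy) hx0R ?_
  intro v z hvK hzK hvz hvR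
  have hvH := RR_subset_HH hX haN hcN hvR
  have hadj : (resG G U).Adj v z := ⟨hvz, (hnb v hvH).1, (hnb v hvH).2 z hvz⟩
  have hzA : z ∉ A := Set.disjoint_left.1 hKA hzK
  have hring : ∀ i j, a ≤ i → i ≤ a + 100 → c ≤ j → j ≤ c + 100 → k ≤ lev a c i j → z ∈ X i j →
      z ∈ RR G U A N X a c k := by
    intro i j h1 h2 h3 h4 h5 h6
    rcases h5.lt_or_eq with h5 | h5
    · exact Or.inl ⟨i, j, h1, h2, h3, h4, h5, h6⟩
    · exfalso
      have : z ∈ K ∩ ring X a c k := ⟨hzK, i, j, h1, h2, h3, h4, h5.symm, h6⟩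
      rw [hcon] at this
      exact this
  rcases hvR with ⟨i, j, h1, h2, h3, h4, h5, h6⟩ | ⟨hvA, hvW, i, j, h1, h2, h3, h4, h5, h6⟩
  · by_cases hzW : z ∈ WW N X
    · obtain ⟨i', j', hi', hj', hz⟩ := hzW
      have hnear := hX.edge i j i' j' (by omega) (by omega) hi' hj' ⟨v, h6, z, hz, hadj⟩
      have := lev_near h1 h2 h3 h4 h5 haN hcN hnear
      exact hring i' j' this.1 this.2.1 this.2.2.1 this.2.2.2.1 this.2.2.2.2 hz
    · right
      exact ⟨hzA, hzW, i, j, h1, h2, h3, h4, h5, z, mem_comp_self, v, h6, hadj.symm⟩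
  · by_cases hzW : z ∈ WW N X
    · obtain ⟨i', j', hi', hj', hz⟩ := hzW
      have hnear := oc_near hX hvA hvW (show i < N by omega) (show j < N by omega) hi' hj' h6
        ⟨v, mem_comp_self, z, hz, hadj⟩
      have := lev_near h1 h2 h3 h4 h5 haN hcN hnear
      exact hring i' j' this.1 this.2.1 this.2.2.1 this.2.2.2.1 this.2.2.2.2 hz
    · right
      refine ⟨hzA, hzW, i, j, h1, h2, h3, h4, h5, ?_⟩
      have : oc G U A N X z = oc G U A N X v := by
        apply comp_eq_of_mem
        exact RIn.single hadj (by simp [hvA, hvW]) (by simp [hzA, hzW])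
      rw [this]; exact h6


/-! ### construction of cells -/

/-- union over a rectangle of positions -/
def rectS (X : ℕ → ℕ → Set V) (a b c d : ℕ) : Set V :=
  {v | ∃ i j, a ≤ i ∧ i ≤ b ∧ c ≤ j ∧ j ≤ d ∧ v ∈ X i j}

theorem rectS_eq (X : ℕ → ℕ → Set V) (a b c d : ℕ) :
    rectS X a b c d = ⋃ i ∈ Set.Icc a b, ⋃ j ∈ Set.Icc c d, X i j := by
  ext v
  simp only [rectS, mem_ofPred_eq, mem_iUnion, mem_Icc, exists_prop]
  constructor
  · rintro ⟨i, j, h1, h2, h3, h4, h5⟩
    exact ⟨i, ⟨h1, h2⟩, j, ⟨h3, h4⟩, h5⟩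
  · rintro ⟨i, ⟨h1, h2⟩, j, ⟨h3, h4⟩, h5⟩
    exact ⟨i, j, h1, h2, h3, h4, h5⟩

include hX in
theorem rectS_conn {a b c d : ℕ} (hab : a ≤ b) (hcd : c ≤ d) (hb : b < N) (hd : d < N) :
    Conn (resG G U) (rectS X a b c d) := by
  rw [rectS_eq]
  refine conn_rect X a b c d hab hcd ?_ ?_ ?_
  · intro i j h1 h2 h3 h4
    exact hX.conn i j (by omega) (by omega)
  · intro i j h1 h2 h3 h4
    exact hX.right i j (by omega) (by omega)
  · intro i j h1 h2 h3 h4
    exact hX.down i j (by omega) (by omega)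

include hX in
theorem rectS_disj {a b c d a' b' c' d' : ℕ} (hb : b < N) (hd : d < N) (hb' : b' < N)
    (hd' : d' < N) (h : b < a' ∨ b' < a ∨ d < c' ∨ d' < c) :
    Disjoint (rectS X a b c d) (rectS X a' b' c' d') := by
  rw [Set.disjoint_left]
  rintro v ⟨i, j, h1, h2, h3, h4, h5⟩ ⟨i', j', h1', h2', h3', h4', h5'⟩
  refine Set.disjoint_left.1 (hX.disj i j i' j' (by omega) (by omega) (by omega) (by omega) ?_)
    h5 h5'
  omega

theorem rectS_mono {a b c d a' b' c' d' : ℕ} (h1 : a' ≤ a) (h2 : b ≤ b') (h3 : c' ≤ c)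
    (h4 : d ≤ d') : rectS X a b c d ⊆ rectS X a' b' c' d' := by
  rintro v ⟨i, j, g1, g2, g3, g4, g5⟩
  exact ⟨i, j, by omega, by omega, by omega, by omega, g5⟩

theorem rectS_sub_HH {a c a' b' c' d' : ℕ} (h1 : a ≤ a') (h2 : b' ≤ a + 100) (h3 : c ≤ c')
    (h4 : d' ≤ c + 100) : rectS X a' b' c' d' ⊆ HH G U A N X a c := by
  rintro v ⟨i, j, g1, g2, g3, g4, g5⟩
  left
  rw [mem_iUnion₂]
  refine ⟨i, ⟨by omega, by omega⟩, ?_⟩
  rw [mem_iUnion₂]
  exact ⟨j, ⟨by omega, by omega⟩, g5⟩

theorem oc_subset_attd {a c : ℕ} {v : V} (hv : v ∈ attd G U A N X a c) :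
    oc G U A N X v ⊆ attd G U A N X a c := by
  obtain ⟨h1, h2, h3, h4⟩ := hv
  intro z hz
  have hz' := oc_subset h1 h2 hz
  have he : oc G U A N X z = oc G U A N X v := comp_eq_of_mem hz
  refine ⟨fun h => hz' (Or.inl h), fun h => hz' (Or.inr h), ?_, ?_⟩
  · rw [he]; exact h3
  · rw [he]; exact h4

include hX in
theorem HH_conn {a c : ℕ} (ha : a + 100 < N) (hc : c + 100 < N) :
    Conn (resG G U) (HH G U A N X a c) := by
  have h1 : HH G U A N X a c = rectS X a (a + 100) c (c + 100) ∪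
      ⋃ v : {v // v ∈ attd G U A N X a c}, oc G U A N X v.1 := by
    unfold HH
    rw [rectS_eq]
    congr 1
    ext z
    rw [mem_iUnion]
    constructor
    · intro hz
      exact ⟨⟨z, hz⟩, mem_comp_self⟩
    · rintro ⟨v, hv⟩
      exact oc_subset_attd v.2 hv
  rw [h1]
  refine (rectS_conn hX (by omega) (by omega) ha hc).union_iUnion ?_ ?_
  · intro v
    exact oc_conn v.2.1 v.2.2.1
  · intro v
    left
    obtain ⟨_, _, ⟨i, j, hi, hj, ht⟩, h4⟩ := v.2
    have := h4 i j hi hj ht
    refine (ht.symm).mono ?_ subset_rfl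
    intro z hz
    exact ⟨i, j, this.1.1, this.1.2, this.2.1, this.2.2, hz⟩

include hX in
theorem HH_disjA {a c : ℕ} (ha : a + 100 < N) (hc : c + 100 < N) :
    Disjoint (HH G U A N X a c) A := by
  rw [Set.disjoint_left]
  rintro v (hv | hv)
  · rw [← rectS_eq] at hv
    obtain ⟨i, j, h1, h2, h3, h4, h5⟩ := hv
    exact Set.disjoint_left.1 (hX.disjA i j (by omega) (by omega)) h5
  · exact hv.1

include hX in
theorem mem_HH_X {a c i j : ℕ} (ha : a + 100 < N) (hc : c + 100 < N) (hi : i < N) (hj : j < N)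
    {v : V} (hv : v ∈ HH G U A N X a c) (hvX : v ∈ X i j) :
    a ≤ i ∧ i ≤ a + 100 ∧ c ≤ j ∧ j ≤ c + 100 := by
  rcases hv with hv | hv
  · rw [← rectS_eq] at hv
    obtain ⟨i', j', h1, h2, h3, h4, h5⟩ := hv
    by_cases h : i' ≠ i ∨ j' ≠ j
    · exact (Set.disjoint_left.1 (hX.disj i' j' i j (by omega) (by omega) hi hj h) h5 hvX).elim
    · push Not at h
      obtain ⟨rfl, rfl⟩ := h
      exact ⟨h1, h2, h3, h4⟩
  · exact (hv.2.1 ⟨i, j, hi, hj, hvX⟩).elim

include hX in
theorem HH_disj {a c a' c' : ℕ} (ha : a + 100 < N) (hc : c + 100 < N) (ha' : a' + 100 < N)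
    (hc' : c' + 100 < N) (h : a + 100 < a' ∨ a' + 100 < a ∨ c + 100 < c' ∨ c' + 100 < c) :
    Disjoint (HH G U A N X a c) (HH G U A N X a' c') := by
  rw [Set.disjoint_left]
  rintro v hv hv'
  by_cases hW : v ∈ WW N X
  · obtain ⟨i, j, hi, hj, hvX⟩ := hW
    have h1 := mem_HH_X hX ha hc hi hj hv hvX
    have h2 := mem_HH_X hX ha' hc' hi hj hv' hvX
    omega
  · have h1 : v ∈ attd G U A N X a c := by
      rcases hv with hv | hv
      · rw [← rectS_eq] at hv
        obtain ⟨i', j', h1, h2, h3, h4, h5⟩ := hv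
        exact (hW ⟨i', j', by omega, by omega, h5⟩).elim
      · exact hv
    have h2 : v ∈ attd G U A N X a' c' := by
      rcases hv' with hv | hv
      · rw [← rectS_eq] at hv
        obtain ⟨i', j', h1, h2, h3, h4, h5⟩ := hv
        exact (hW ⟨i', j', by omega, by omega, h5⟩).elim
      · exact hv
    obtain ⟨_, _, ⟨i, j, hi, hj, ht⟩, h4⟩ := h1
    have h5 := h4 i j hi hj ht
    have h6 := h2.2.2.2 i j hi hj ht
    omega

theorem ring_sub_HH {a c k : ℕ} : ring X a c k ⊆ HH G U A N X a c := by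
  rintro v ⟨i, j, h1, h2, h3, h4, _, h6⟩
  exact rectS_sub_HH (le_refl a) (le_refl (a + 100)) (le_refl c) (le_refl (c + 100))
    ⟨i, j, h1, h2, h3, h4, h6⟩

theorem ring_eq {a c l : ℕ} (hl : l ≤ 50) : ring X a c l =
    ((rectS X (a + l) (a + 100 - l) (c + l) (c + l) ∪
      rectS X (a + 100 - l) (a + 100 - l) (c + l) (c + 100 - l)) ∪
      rectS X (a + l) (a + l) (c + l) (c + 100 - l)) ∪
      rectS X (a + l) (a + 100 - l) (c + 100 - l) (c + 100 - l) := by
  ext v
  simp only [ring, rectS, mem_ofPred_eq, mem_union, lev]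
  constructor
  · rintro ⟨i, j, h1, h2, h3, h4, h5, h6⟩
    have h7 : i = a + l ∨ i = a + 100 - l ∨ j = c + l ∨ j = c + 100 - l := by omega
    have h8 : a + l ≤ i ∧ i ≤ a + 100 - l ∧ c + l ≤ j ∧ j ≤ c + 100 - l := by omega
    rcases h7 with h7 | h7 | h7 | h7
    · exact Or.inl (Or.inr ⟨i, j, by omega, by omega, by omega, by omega, h6⟩)
    · exact Or.inl (Or.inl (Or.inr ⟨i, j, by omega, by omega, by omega, by omega, h6⟩))
    · exact Or.inl (Or.inl (Or.inl ⟨i, j, by omega, by omega, by omega, by omega, h6⟩))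
    · exact Or.inr ⟨i, j, by omega, by omega, by omega, by omega, h6⟩
  · rintro (((⟨i, j, h1, h2, h3, h4, h5⟩ | ⟨i, j, h1, h2, h3, h4, h5⟩) |
      ⟨i, j, h1, h2, h3, h4, h5⟩) | ⟨i, j, h1, h2, h3, h4, h5⟩)
    all_goals exact ⟨i, j, by omega, by omega, by omega, by omega, by omega, h5⟩

include hX in
theorem ring_conn {a c l : ℕ} (hl : l ≤ 50) (ha : a + 100 < N) (hc : c + 100 < N) :
    Conn (resG G U) (ring X a c l) := by
  rw [ring_eq hl]
  have hne : ∀ i j, i < N → j < N → ∃ v, v ∈ X i j := fun i j hi hj => (hX.conn i j hi hj).1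
  refine Conn.union (Conn.union (Conn.union
    (rectS_conn hX (by omega) (by omega) (by omega) (by omega))
    (rectS_conn hX (by omega) (by omega) (by omega) (by omega)) ?_)
    (rectS_conn hX (by omega) (by omega) (by omega) (by omega)) ?_)
    (rectS_conn hX (by omega) (by omega) (by omega) (by omega)) ?_
  · obtain ⟨v, hv⟩ := hne (a + 100 - l) (c + l) (by omega) (by omega)
    exact ⟨v, ⟨_, _, by omega, by omega, by omega, by omega, hv⟩,
      ⟨_, _, by omega, by omega, by omega, by omega, hv⟩⟩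
  · obtain ⟨v, hv⟩ := hne (a + l) (c + l) (by omega) (by omega)
    exact ⟨v, Or.inl ⟨_, _, by omega, by omega, by omega, by omega, hv⟩,
      ⟨_, _, by omega, by omega, by omega, by omega, hv⟩⟩
  · obtain ⟨v, hv⟩ := hne (a + l) (c + 100 - l) (by omega) (by omega)
    exact ⟨v, Or.inr ⟨_, _, by omega, by omega, by omega, by omega, hv⟩,
      ⟨_, _, by omega, by omega, by omega, by omega, hv⟩⟩

include hX in
theorem ring_disj {a c k l : ℕ} (ha : a + 100 < N) (hc : c + 100 < N) (hkl : k ≠ l) :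
    Disjoint (ring X a c k) (ring X a c l) := by
  rw [Set.disjoint_left]
  rintro v ⟨i, j, h1, h2, h3, h4, h5, h6⟩ ⟨i', j', h1', h2', h3', h4', h5', h6'⟩
  by_cases h : i ≠ i' ∨ j ≠ j'
  · exact Set.disjoint_left.1 (hX.disj i j i' j' (by omega) (by omega) (by omega) (by omega) h)
      h6 h6'
  · push Not at h
    obtain ⟨rfl, rfl⟩ := h
    exact hkl (h5.symm.trans h5')

/-- port positions -/
def pos (a c : ℕ) : Fin 4 → ℕ × ℕ
  | 0 => (a + 50, c)
  | 1 => (a + 100, c + 50)
  | 2 => (a + 50, c + 100)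
  | 3 => (a, c + 50)

/-- links from ring `l` to the ports -/
def lnk (X : ℕ → ℕ → Set V) (a c l : ℕ) : Fin 4 → Set V
  | 0 => rectS X (a + 50) (a + 50) c (c + l)
  | 1 => rectS X (a + 100 - l) (a + 100) (c + 50) (c + 50)
  | 2 => rectS X (a + 50) (a + 50) (c + 100 - l) (c + 100)
  | 3 => rectS X a (a + l) (c + 50) (c + 50)

include hX in
/-- construction of the cell of a block -/
theorem exists_cell {a c : ℕ} (ha : a + 100 < N) (hc : c + 100 < N)
    (hnb : ∀ v ∈ HH G U A N X a c, v ∈ U ∧ ∀ z, G.Adj v z → z ∈ U)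
    (prt : Fin 4 → V) (hprt : ∀ i, prt i ∈ X (pos a c i).1 (pos a c i).2)
    (hout : ∀ i, ∃ z, z ∉ HH G U A N X a c ∧ z ∉ A ∧ G.Adj (prt i) z) :
    ∃ C : Cell G A, C.H = HH G U A N X a c ∧ C.port = prt := by
  have hle := resG_le G U
  have hpos : ∀ i, a ≤ (pos a c i).1 ∧ (pos a c i).1 ≤ a + 100 ∧ c ≤ (pos a c i).2 ∧
      (pos a c i).2 ≤ c + 100 := by
    intro i
    fin_cases i <;> simp [pos]
  have hposinj : ∀ i j, i ≠ j → (pos a c i).1 ≠ (pos a c j).1 ∨
      (pos a c i).2 ≠ (pos a c j).2 := by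
    intro i j hij
    fin_cases i <;> fin_cases j <;> simp [pos] at hij ⊢
  refine ⟨{ H := HH G U A N X a c, port := prt, I := X (a + 50) (c + 50),
            belt := fun k => ring X a c (k + 1), conn := (HH_conn hX ha hc).monoG hle,
            disjA := HH_disjA hX ha hc, port_mem := ?_, port_inj := ?_, port_out := hout,
            I_ne := (hX.conn _ _ (by omega) (by omega)).1, I_sub := ?_,
            belt_conn := fun k hk => (ring_conn hX (by omega) ha hc).monoG hle,
            belt_sub := fun k _ => ring_sub_HH,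
            belt_disj := fun k l _ _ hkl => ring_disj hX ha hc (by omega),
            belt_link := ?_, cross := ?_ }, rfl, rfl⟩
  · intro i
    have := hpos i
    exact rectS_sub_HH (le_refl a) (le_refl (a + 100)) (le_refl c) (le_refl (c + 100))
      ⟨_, _, this.1, this.2.1, this.2.2.1, this.2.2.2, hprt i⟩
  · intro i j hij
    by_contra hne
    have h1 := hpos i
    have h2 := hpos j
    exact Set.disjoint_left.1 (hX.disj _ _ _ _ (by omega) (by omega) (by omega) (by omega)
      (hposinj i j hne)) (hprt i) (hij ▸ hprt j)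
  · intro v hv
    exact rectS_sub_HH (le_refl a) (le_refl (a + 100)) (le_refl c) (le_refl (c + 100))
      ⟨_, _, by omega, by omega, by omega, by omega, hv⟩
  · intro k hk
    have hne : ∀ i j, i < N → j < N → ∃ v, v ∈ X i j := fun i j hi hj => (hX.conn i j hi hj).1
    refine ⟨lnk X a c (k + 1), ?_, ?_⟩
    · intro i
      fin_cases i
      · refine ⟨(rectS_conn hX (by omega) (by omega) (by omega) (by omega)).monoG hle,
          rectS_sub_HH (by omega) (by omega) (by omega) (by omega),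
          ⟨_, _, by simp [pos] <;> omega, by simp [pos] <;> omega, by simp [pos] <;> omega,
            by simp [pos] <;> omega, hprt 0⟩, ?_⟩
        obtain ⟨v, hv⟩ := hne (a + 50) (c + (k + 1)) (by omega) (by omega)
        exact ⟨v, ⟨_, _, by omega, by omega, by omega, by omega, hv⟩,
          ⟨_, _, by omega, by omega, by omega, by omega, by simp only [lev]; omega, hv⟩⟩
      · refine ⟨(rectS_conn hX (by omega) (by omega) (by omega) (by omega)).monoG hle,
          rectS_sub_HH (by omega) (by omega) (by omega) (by omega),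
          ⟨_, _, by simp [pos] <;> omega, by simp [pos] <;> omega, by simp [pos] <;> omega,
            by simp [pos] <;> omega, hprt 1⟩, ?_⟩
        obtain ⟨v, hv⟩ := hne (a + 100 - (k + 1)) (c + 50) (by omega) (by omega)
        exact ⟨v, ⟨_, _, by omega, by omega, by omega, by omega, hv⟩,
          ⟨_, _, by omega, by omega, by omega, by omega, by simp only [lev]; omega, hv⟩⟩
      · refine ⟨(rectS_conn hX (by omega) (by omega) (by omega) (by omega)).monoG hle,
          rectS_sub_HH (by omega) (by omega) (by omega) (by omega),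
          ⟨_, _, by simp [pos] <;> omega, by simp [pos] <;> omega, by simp [pos] <;> omega,
            by simp [pos] <;> omega, hprt 2⟩, ?_⟩
        obtain ⟨v, hv⟩ := hne (a + 50) (c + 100 - (k + 1)) (by omega) (by omega)
        exact ⟨v, ⟨_, _, by omega, by omega, by omega, by omega, hv⟩,
          ⟨_, _, by omega, by omega, by omega, by omega, by simp only [lev]; omega, hv⟩⟩
      · refine ⟨(rectS_conn hX (by omega) (by omega) (by omega) (by omega)).monoG hle,
          rectS_sub_HH (by omega) (by omega) (by omega) (by omega),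
          ⟨_, _, by simp [pos] <;> omega, by simp [pos] <;> omega, by simp [pos] <;> omega,
            by simp [pos] <;> omega, hprt 3⟩, ?_⟩
        obtain ⟨v, hv⟩ := hne (a + (k + 1)) (c + 50) (by omega) (by omega)
        exact ⟨v, ⟨_, _, by omega, by omega, by omega, by omega, hv⟩,
          ⟨_, _, by omega, by omega, by omega, by omega, by simp only [lev]; omega, hv⟩⟩
    · intro i j hij
      fin_cases i <;> fin_cases j
      all_goals first
        | exact absurd rfl hij
        | exact rectS_disj hX (by omega) (by omega) (by omega) (by omega) (by omega)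
  · intro K hK hKA hKI hKH k hk
    refine cross_aux hX ha hc hnb hK hKA ?_ hKH
    obtain ⟨v, hvK, hvI⟩ := hKI
    exact ⟨v, hvK, Or.inl ⟨_, _, by omega, by omega, by omega, by omega,
      by simp only [lev, lt_min_iff]; omega, hvI⟩⟩

end CellsAux

open CellsAux in
/-- array of cells inside a local grid, avoiding few vertices -/
theorem cells_of_host {V : Type} [Finite V] (G : SimpleGraph V) (U A : Set V)
    (X : ℕ → ℕ → Set V) (n q : ℕ) (hn : 0 < n)
    (hX : IsHost (resG G U) A (101 * ((q + 1) * n + 2)) X)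
    (hD : {v ∈ U | ∃ z, z ∉ U ∧ G.Adj v z}.ncard ≤ q) : Nonempty (CellArray G A U n) := by
  classical
  set N := 101 * ((q + 1) * n + 2) with hNdef
  set D := {v ∈ U | ∃ z, z ∉ U ∧ G.Adj v z} with hDdef
  have hN2 : 2 ≤ N := by rw [hNdef]; omega
  -- good offset
  obtain ⟨m, hm, hgood⟩ : ∃ m, m ≤ q ∧ ∀ i j, i < n → j < n →
      Disjoint (HH G U A N X (101 * (1 + m * n + i)) (101 * (1 + m * n + j))) D := by
    by_contra hcon
    push Not at hcon
    have h1 : ∀ m : Fin (q + 1), ∃ d ∈ D, ∃ i j, i < n ∧ j < n ∧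
        d ∈ HH G U A N X (101 * (1 + m * n + i)) (101 * (1 + m * n + j)) := by
      intro m
      obtain ⟨i, j, hi, hj, hnd⟩ := hcon m (by omega)
      rw [Set.not_disjoint_iff] at hnd
      obtain ⟨d, hd1, hd2⟩ := hnd
      exact ⟨d, hd2, i, j, hi, hj, hd1⟩
    choose d hd i j hi hj hdH using h1
    have hinj : Function.Injective d := by
      intro m m' hmm
      by_contra hne
      have hb : ∀ (m : Fin (q + 1)) (i : ℕ), i < n → 101 * (1 + m * n + i) + 100 < N := by
        intro m i hi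
        have h2 : (m : ℕ) * n + n ≤ (q + 1) * n := by
          have : (m : ℕ) + 1 ≤ q + 1 := m.2
          calc (m : ℕ) * n + n = ((m : ℕ) + 1) * n := by ring
            _ ≤ (q + 1) * n := Nat.mul_le_mul_right n this
        rw [hNdef]
        omega
      have hsep : (m : ℕ) * n + n ≤ m' * n ∨ (m' : ℕ) * n + n ≤ m * n := by
        rcases Nat.lt_or_gt_of_ne (fun h => hne (Fin.ext h)) with h | h
        · left
          calc (m : ℕ) * n + n = ((m : ℕ) + 1) * n := by ring
            _ ≤ m' * n := Nat.mul_le_mul_right n h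
        · right
          calc (m' : ℕ) * n + n = ((m' : ℕ) + 1) * n := by ring
            _ ≤ m * n := Nat.mul_le_mul_right n h
      have hdis := HH_disj hX (hb m _ (hi m)) (hb m _ (hj m)) (hb m' _ (hi m')) (hb m' _ (hj m'))
        (by
          have := hi m
          have := hi m'
          omega)
      exact Set.disjoint_left.1 hdis (hdH m) (hmm ▸ hdH m')
    have hcard : (Set.range d).ncard ≤ D.ncard :=
      Set.ncard_le_ncard (by rintro _ ⟨m, rfl⟩; exact hd m) (Set.toFinite _)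
    rw [← Set.image_univ, Set.ncard_image_of_injective _ hinj, Set.ncard_univ,
      Nat.card_eq_fintype_card, Fintype.card_fin] at hcard
    omega
  set a : ℕ → ℕ := fun i => 101 * (1 + m * n + i) with hadef
  have hb : ∀ i, i < n → a i + 202 ≤ N := by
    intro i hi
    have h2 : m * n + n ≤ (q + 1) * n := by
      calc m * n + n = (m + 1) * n := by ring
        _ ≤ (q + 1) * n := Nat.mul_le_mul_right n (by omega)
    simp only [hadef, hNdef]
    omega
  have ha1 : ∀ i, 101 ≤ a i := by intro i; simp only [hadef]; omega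
  have hasucc : ∀ i, a (i + 1) = a i + 101 := by intro i; simp only [hadef]; ring
  have hale : ∀ i i', i < i' → a i + 101 ≤ a i' := by
    intro i i' h; simp only [hadef]; omega
  -- choices of touching vertices
  have hr : ∀ i j, ∃ x y, (i + 1 < N → j < N → x ∈ X i j ∧ y ∈ X (i + 1) j ∧
      (resG G U).Adj x y) := by
    intro i j
    by_cases h : i + 1 < N ∧ j < N
    · obtain ⟨x, hx, y, hy, hxy⟩ := hX.right i j h.1 h.2
      exact ⟨x, y, fun _ _ => ⟨hx, hy, hxy⟩⟩
    · obtain ⟨x, -⟩ := (hX.conn 0 0 (by omega) (by omega)).1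
      exact ⟨x, x, fun h1 h2 => absurd ⟨h1, h2⟩ h⟩
  have hd : ∀ i j, ∃ x y, (i < N → j + 1 < N → x ∈ X i j ∧ y ∈ X i (j + 1) ∧
      (resG G U).Adj x y) := by
    intro i j
    by_cases h : i < N ∧ j + 1 < N
    · obtain ⟨x, hx, y, hy, hxy⟩ := hX.down i j h.1 h.2
      exact ⟨x, y, fun _ _ => ⟨hx, hy, hxy⟩⟩
    · obtain ⟨x, -⟩ := (hX.conn 0 0 (by omega) (by omega)).1
      exact ⟨x, x, fun h1 h2 => absurd ⟨h1, h2⟩ h⟩
  choose er el hrl using hr
  choose ds dt hds using hd
  let prt : ℕ → ℕ → Fin 4 → V := fun a c => fun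
    | 0 => dt (a + 50) (c - 1)
    | 1 => er (a + 100) (c + 50)
    | 2 => ds (a + 50) (c + 100)
    | 3 => el (a - 1) (c + 50)
  have hXnot : ∀ {a c i j : ℕ} {v : V}, a + 100 < N → c + 100 < N → i < N → j < N →
      v ∈ X i j → (i < a ∨ a + 100 < i ∨ j < c ∨ c + 100 < j) → v ∉ HH G U A N X a c := by
    intro a c i j v h1 h2 h3 h4 h5 h6 h7
    have := mem_HH_X hX h1 h2 h3 h4 h7 h5
    omega
  have hcell : ∀ i j, ∃ C : Cell G A, (i < n → j < n → C.H = HH G U A N X (a i) (a j) ∧
      C.port = prt (a i) (a j)) := by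
    have main : ∀ i j, i < n → j < n → ∃ C : Cell G A, C.H = HH G U A N X (a i) (a j) ∧
      C.port = prt (a i) (a j) := by
      intro i j hi hj
      have h1 := hb i hi
      have h2 := hb j hj
      have h3 := ha1 i
      have h4 := ha1 j
      have hsubU : HH G U A N X (a i) (a j) ⊆ U := by
        have hc := HH_conn hX (a := a i) (c := a j) (by omega) (by omega)
        obtain ⟨x, hx⟩ := (hX.conn (a i) (a j) (by omega) (by omega)).1
        have hxU := X_subset_U hX hN2 (show a i < N by omega) (show a j < N by omega) hx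
        exact hc.subset_of_resG (rectS_sub_HH (le_refl _) (le_refl _) (le_refl _) (le_refl _)
          ⟨a i, a j, by omega, by omega, by omega, by omega, hx⟩) hxU
      refine exists_cell hX (by omega) (by omega) ?_ (prt (a i) (a j)) ?_ ?_
      · intro v hv
        refine ⟨hsubU hv, ?_⟩
        intro z hvz
        by_contra hz
        exact Set.disjoint_left.1 (hgood i j hi hj) hv ⟨hsubU hv, z, hz, hvz⟩
      · intro l
        fin_cases l
        · have := hds (a i + 50) (a j - 1) (by omega) (by omega)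
          rw [show a j - 1 + 1 = a j by omega] at this
          exact this.2.1
        · exact (hrl (a i + 100) (a j + 50) (by omega) (by omega)).1
        · exact (hds (a i + 50) (a j + 100) (by omega) (by omega)).1
        · have := hrl (a i - 1) (a j + 50) (by omega) (by omega)
          rw [show a i - 1 + 1 = a i by omega] at this
          exact this.2.1
      · intro l
        fin_cases l
        · have := hds (a i + 50) (a j - 1) (by omega) (by omega)
          refine ⟨ds (a i + 50) (a j - 1), hXnot (by omega) (by omega) (show a i + 50 < N by omega)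
            (show a j - 1 < N by omega) this.1 (by omega), ?_, this.2.2.1.symm⟩
          exact Set.disjoint_left.1 (hX.disjA _ _ (by omega) (by omega)) this.1
        · have := hrl (a i + 100) (a j + 50) (by omega) (by omega)
          refine ⟨el (a i + 100) (a j + 50), hXnot (by omega) (by omega)
            (show a i + 100 + 1 < N by omega) (show a j + 50 < N by omega) this.2.1 (by omega),
            ?_, this.2.2.1⟩
          exact Set.disjoint_left.1 (hX.disjA _ _ (by omega) (by omega)) this.2.1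
        · have := hds (a i + 50) (a j + 100) (by omega) (by omega)
          refine ⟨dt (a i + 50) (a j + 100), hXnot (by omega) (by omega)
            (show a i + 50 < N by omega) (show a j + 100 + 1 < N by omega) this.2.1 (by omega),
            ?_, this.2.2.1⟩
          exact Set.disjoint_left.1 (hX.disjA _ _ (by omega) (by omega)) this.2.1
        · have := hrl (a i - 1) (a j + 50) (by omega) (by omega)
          refine ⟨er (a i - 1) (a j + 50), hXnot (by omega) (by omega) (show a i - 1 < N by omega)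
            (show a j + 50 < N by omega) this.1 (by omega), ?_, this.2.2.1.symm⟩
          exact Set.disjoint_left.1 (hX.disjA _ _ (by omega) (by omega)) this.1
    intro i j
    by_cases h : i < n ∧ j < n
    · obtain ⟨C, hC⟩ := main i j h.1 h.2
      exact ⟨C, fun _ _ => hC⟩
    · obtain ⟨C, -⟩ := main 0 0 hn hn
      exact ⟨C, fun h1 h2 => absurd ⟨h1, h2⟩ h⟩
  choose C hC using hcell
  have hCU : ∀ i j, i < n → j < n → (C i j).H ⊆ U ∧ ∀ v ∈ (C i j).H, ∀ z, G.Adj v z → z ∈ U := by
    intro i j hi hj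
    have h1 := hb i hi
    have h2 := hb j hj
    have hsubU : HH G U A N X (a i) (a j) ⊆ U := by
      have hc := HH_conn hX (a := a i) (c := a j) (by omega) (by omega)
      obtain ⟨x, hx⟩ := (hX.conn (a i) (a j) (by omega) (by omega)).1
      have hxU := X_subset_U hX hN2 (show a i < N by omega) (show a j < N by omega) hx
      exact hc.subset_of_resG (rectS_sub_HH (le_refl _) (le_refl _) (le_refl _) (le_refl _)
        ⟨a i, a j, by omega, by omega, by omega, by omega, hx⟩) hxU
    rw [(hC i j hi hj).1]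
    refine ⟨hsubU, ?_⟩
    intro v hv z hvz
    by_contra hz
    exact Set.disjoint_left.1 (hgood i j hi hj) hv ⟨hsubU hv, z, hz, hvz⟩
  refine ⟨{ C := C, disj := ?_, right := ?_, down := ?_, inU := fun i j hi hj => (hCU i j hi hj).1,
            nbU := fun i j hi hj => (hCU i j hi hj).2 }⟩
  · intro i j i' j' hi hj hi' hj' hne
    rw [(hC i j hi hj).1, (hC i' j' hi' hj').1]
    have h1 := hb i hi
    have h2 := hb j hj
    have h3 := hb i' hi'
    have h4 := hb j' hj'
    refine HH_disj hX (by omega) (by omega) (by omega) (by omega) ?_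
    rcases hne with hne | hne
    · rcases Nat.lt_or_gt_of_ne hne with h | h
      · have := hale _ _ h; omega
      · have := hale _ _ h; omega
    · rcases Nat.lt_or_gt_of_ne hne with h | h
      · have := hale _ _ h; omega
      · have := hale _ _ h; omega
  · intro i j hi hj
    have h1 := hb (i + 1) hi
    have h2 := hb j hj
    rw [(hC i j (by omega) hj).2, (hC (i + 1) j hi hj).2]
    show G.Adj (er (a i + 100) (a j + 50)) (el (a (i + 1) - 1) (a j + 50))
    rw [hasucc, show a i + 101 - 1 = a i + 100 by omega]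
    rw [hasucc] at h1
    exact (hrl (a i + 100) (a j + 50) (by omega) (by omega)).2.2.1
  · intro i j hi hj
    have h1 := hb i hi
    have h2 := hb (j + 1) hj
    rw [(hC i j hi (by omega)).2, (hC i (j + 1) hi hj).2]
    show G.Adj (ds (a i + 50) (a j + 100)) (dt (a i + 50) (a (j + 1) - 1))
    rw [hasucc, show a j + 101 - 1 = a j + 100 by omega]
    rw [hasucc] at h2
    exact (hds (a i + 50) (a j + 100) (by omega) (by omega)).2.2.1

end Pool.Agent.Lib.MP_4d119b_lc
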