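import Pool.Agent.Lib.MP_4d119b_lc.Iface

/-! Computability of the maximal density of bounded periodic patterns. -/

namespace Pool.Agent.Lib.MP_4d119b_lc

namespace Comp

open Set

/-! ### bounded quantifiers and arithmetic -/

section prim

variable {α : Type*} [Primcodable α]

theorem pow_prim : Primrec₂ (fun m n : ℕ => m ^ n) := Primrec₂.unpaired'.1 Nat.Primrec.pow

theorem ex_lt {b : α → ℕ} {p : α → ℕ → Prop} (hb : Primrec b)
    (hp : PrimrecPred fun q : α × ℕ => p q.1 q.2) : PrimrecPred fun a => ∃ x < b a, p a x := by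
  have h1 : PrimrecRel fun (x : ℕ) (a : α) => p a x :=
    PrimrecPred.comp (f := fun q : ℕ × α => (q.2, q.1)) hp (Primrec.pair Primrec.snd Primrec.fst)
  exact (h1.exists_mem_list.comp (Primrec.list_range.comp hb) Primrec.id).of_eq (by simp)

theorem all_lt {b : α → ℕ} {p : α → ℕ → Prop} (hb : Primrec b)
    (hp : PrimrecPred fun q : α × ℕ => p q.1 q.2) : PrimrecPred fun a => ∀ x < b a, p a x := by
  have h1 : PrimrecRel fun (x : ℕ) (a : α) => p a x :=
    PrimrecPred.comp (f := fun q : ℕ × α => (q.2, q.1)) hp (Primrec.pair Primrec.snd Primrec.fst)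
  exact (h1.forall_mem_list.comp (Primrec.list_range.comp hb) Primrec.id).of_eq (by simp)

theorem all_mem {β : Type*} [Primcodable β] {l : α → List β} {p : α → β → Prop} (hl : Primrec l)
    (hp : PrimrecPred fun q : α × β => p q.1 q.2) : PrimrecPred fun a => ∀ x ∈ l a, p a x := by
  have h1 : PrimrecRel fun (x : β) (a : α) => p a x :=
    PrimrecPred.comp (f := fun q : β × α => (q.2, q.1)) hp (Primrec.pair Primrec.snd Primrec.fst)
  exact (h1.forall_mem_list.comp hl Primrec.id).of_eq (by simp)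

theorem mem_prim {β : Type*} [Primcodable β] [DecidableEq β] {l : α → List β} {f : α → β}
    (hl : Primrec l) (hf : Primrec f) : PrimrecPred fun a => f a ∈ l a := by
  have h1 : PrimrecRel fun (x : β) (y : β) => x = y := Primrec.eq
  exact (h1.exists_mem_list.comp hl hf).of_eq (by simp)

theorem imp_prim {p q : α → Prop} (hp : PrimrecPred p) (hq : PrimrecPred q) :
    PrimrecPred fun a => p a → q a :=
  (hp.not.or hq).of_eq (fun a => by tauto)

theorem add_prim {f g : α → ℕ} (hf : Primrec f) (hg : Primrec g) : Primrec fun a => f a + g a :=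
  Primrec.nat_add.comp hf hg

theorem mul_prim {f g : α → ℕ} (hf : Primrec f) (hg : Primrec g) : Primrec fun a => f a * g a :=
  Primrec.nat_mul.comp hf hg

theorem exp_prim {f g : α → ℕ} (hf : Primrec f) (hg : Primrec g) : Primrec fun a => f a ^ g a :=
  pow_prim.comp hf hg

theorem div_prim {f g : α → ℕ} (hf : Primrec f) (hg : Primrec g) : Primrec fun a => f a / g a :=
  Primrec.nat_div.comp hf hg

theorem mod_prim {f g : α → ℕ} (hf : Primrec f) (hg : Primrec g) : Primrec fun a => f a % g a :=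
  Primrec.nat_mod.comp hf hg

theorem eq_prim {f g : α → ℕ} (hf : Primrec f) (hg : Primrec g) : PrimrecPred fun a => f a = g a :=
  Primrec.eq.comp hf hg

theorem ne_prim {f g : α → ℕ} (hf : Primrec f) (hg : Primrec g) : PrimrecPred fun a => f a ≠ g a :=
  (Primrec.eq.comp hf hg).not

theorem lt_prim {f g : α → ℕ} (hf : Primrec f) (hg : Primrec g) : PrimrecPred fun a => f a < g a :=
  Primrec.nat_lt.comp hf hg

theorem le_prim {f g : α → ℕ} (hf : Primrec f) (hg : Primrec g) : PrimrecPred fun a => f a ≤ g a :=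
  Primrec.nat_le.comp hf hg

end prim

/-- digit `i` of `x` in base `b` -/
def dg (b x i : ℕ) : ℕ := x / b ^ i % b

theorem dg_prim {α : Type*} [Primcodable α] {f g h : α → ℕ} (hf : Primrec f) (hg : Primrec g)
    (hh : Primrec h) : Primrec fun a => dg (f a) (g a) (h a) :=
  mod_prim (div_prim hg (exp_prim hf hh)) hf

theorem exists_digits (b n : ℕ) (φ : ℕ → ℕ) (h : ∀ i < n, φ i < b) :
    ∃ x < b ^ n, ∀ i < n, dg b x i = φ i := by
  induction n with
  | zero => exact ⟨0, by simp, fun i hi => absurd hi (by omega)⟩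
  | succ n ih =>
    obtain ⟨x, hx, hx'⟩ := ih (fun i hi => h i (by omega))
    have hb : 0 < b := lt_of_le_of_lt (Nat.zero_le _) (h n (by omega))
    have hφ := h n (by omega)
    refine ⟨x + φ n * b ^ n, ?_, ?_⟩
    · calc x + φ n * b ^ n < b ^ n + φ n * b ^ n := by omega
        _ = (φ n + 1) * b ^ n := by ring
        _ ≤ b * b ^ n := Nat.mul_le_mul_right _ hφ
        _ = b ^ (n + 1) := by ring
    · intro i hi
      unfold dg
      rcases Nat.lt_succ_iff_lt_or_eq.1 hi with h1 | h1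
      · have e : φ n * b ^ n = b ^ i * (b * (φ n * b ^ (n - i - 1))) := by
          have : b ^ n = b ^ i * b * b ^ (n - i - 1) := by
            rw [← pow_succ, ← pow_add]; congr 1; omega
          rw [this]; ring
        rw [e, Nat.add_mul_div_left _ _ (Nat.pow_pos hb), Nat.add_mul_mod_self_left]
        exact hx' i h1
      · subst h1
        rw [Nat.add_mul_div_right _ _ (Nat.pow_pos hb), Nat.div_eq_of_lt hx, zero_add,
          Nat.mod_eq_of_lt hφ]

/-- every predicate on `[0, n)` is coded by a number below `2 ^ n` -/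
theorem exists_bits (n : ℕ) (P : ℕ → Prop) : ∃ x < 2 ^ n, ∀ i < n, dg 2 x i = 1 ↔ P i := by
  classical
  obtain ⟨x, hx, hx'⟩ := exists_digits 2 n (fun i => if P i then 1 else 0)
    (fun i _ => by split_ifs <;> omega)
  refine ⟨x, hx, fun i hi => ?_⟩
  rw [hx' i hi]
  split_ifs with h <;> simp [h]

/-! ### connectivity and minors -/

/-- arithmetical form of connectivity -/
def connP (n : ℕ) (P : ℕ → Prop) (A : ℕ → ℕ → Prop) : Prop :=
  (∃ v < n, P v) ∧ ∀ s < 2 ^ n, (∃ u < n, P u ∧ dg 2 s u = 1) → (∃ v < n, P v ∧ dg 2 s v ≠ 1) →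
    ∃ u < n, ∃ v < n, (P u ∧ P v) ∧ dg 2 s u = 1 ∧ dg 2 s v ≠ 1 ∧ A u v

theorem cross {V : Type*} {r : V → V → Prop} {Q : V → Prop} {x y : V}
    (h : Relation.ReflTransGen r x y) (hx : Q x) (hy : ¬ Q y) :
    ∃ a b, r a b ∧ Q a ∧ ¬ Q b := by
  induction h with
  | refl => exact absurd hx hy
  | tail h1 h2 ih =>
    rename_i b c
    by_cases hb : Q b
    · exact ⟨b, c, h2, hb, hy⟩
    · exact ih hb

theorem conn_iff {n : ℕ} {G : SimpleGraph (Fin n)} {S : Set (Fin n)} {P : ℕ → Prop}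
    {A : ℕ → ℕ → Prop} (hP : ∀ v (hv : v < n), P v ↔ (⟨v, hv⟩ : Fin n) ∈ S)
    (hA : ∀ u v (hu : u < n) (hv : v < n), A u v ↔ G.Adj ⟨u, hu⟩ ⟨v, hv⟩) :
    Conn G S ↔ connP n P A := by
  constructor
  · rintro ⟨⟨x, hx⟩, h⟩
    refine ⟨⟨x, x.2, (hP _ _).2 hx⟩, ?_⟩
    rintro s _ ⟨u, hu, hPu, hsu⟩ ⟨v, hv, hPv, hsv⟩
    have h1 := h ⟨u, hu⟩ ((hP _ _).1 hPu) ⟨v, hv⟩ ((hP _ _).1 hPv)
    obtain ⟨a, b, ⟨hab, haS, hbS⟩, hQa, hQb⟩ :=
      cross (Q := fun z : Fin n => dg 2 s z = 1) h1 hsu hsv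
    exact ⟨a, a.2, b, b.2, ⟨(hP _ _).2 haS, (hP _ _).2 hbS⟩, hQa, hQb, (hA _ _ _ _).2 hab⟩
  · rintro ⟨⟨v, hv, hPv⟩, h⟩
    refine ⟨⟨⟨v, hv⟩, (hP _ _).1 hPv⟩, ?_⟩
    intro x hx y hy
    by_contra hxy
    obtain ⟨s, hs, hs'⟩ := exists_bits n (fun i => ∃ hi : i < n, RIn G S x ⟨i, hi⟩)
    obtain ⟨a, ha, b, hb, ⟨hPa, hPb⟩, hsa, hsb, hab⟩ := h s hs
      ⟨x, x.2, (hP _ _).2 hx, (hs' _ x.2).2 ⟨x.2, Relation.ReflTransGen.refl⟩⟩
      ⟨y, y.2, (hP _ _).2 hy, fun h1 => hxy ((hs' _ y.2).1 h1).2⟩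
    obtain ⟨_, h2⟩ := (hs' a ha).1 hsa
    apply hsb
    rw [hs' b hb]
    exact ⟨hb, Relation.ReflTransGen.tail h2
      ⟨(hA _ _ ha hb).1 hab, (hP _ _).1 hPa, (hP _ _).1 hPb⟩⟩

/-- arithmetical form of the minor relation -/
def minP (c : ℕ × List (ℕ × ℕ)) (n : ℕ) (A : ℕ → ℕ → Prop) : Prop :=
  ∃ y < (c.1 + 1) ^ n, (∀ w < c.1, connP n (fun v => dg (c.1 + 1) y v = w + 1) A) ∧
    ∀ w < c.1, ∀ w' < c.1, (w ≠ w' ∧ ((w, w') ∈ c.2 ∨ (w', w) ∈ c.2)) →
      ∃ u < n, ∃ v < n, dg (c.1 + 1) y u = w + 1 ∧ dg (c.1 + 1) y v = w' + 1 ∧ A u v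

theorem isMinor_iff {n : ℕ} {G : SimpleGraph (Fin n)} {A : ℕ → ℕ → Prop}
    (hA : ∀ u v (hu : u < n) (hv : v < n), A u v ↔ G.Adj ⟨u, hu⟩ ⟨v, hv⟩)
    (c : ℕ × List (ℕ × ℕ)) : IsMinor (gOf c) G ↔ minP c n A := by
  classical
  constructor
  · rintro ⟨B, hB1, hB2, hB3⟩
    obtain ⟨y, hy, hy'⟩ := exists_digits (c.1 + 1) n
      (fun v => if h : ∃ (hv : v < n) (w : Fin c.1), (⟨v, hv⟩ : Fin n) ∈ B w then
        (h.choose_spec.choose : ℕ) + 1 else 0) (fun i _ => by
          split_ifs with h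
          · have := h.choose_spec.choose.2
            omega
          · omega)
    have key : ∀ (w : ℕ) (hw : w < c.1) (v : ℕ) (hv : v < n),
        dg (c.1 + 1) y v = w + 1 ↔ (⟨v, hv⟩ : Fin n) ∈ B ⟨w, hw⟩ := by
      intro w hw v hv
      rw [hy' v hv]
      split_ifs with h
      · have h1 := h.choose_spec.choose_spec
        constructor
        · intro h2
          have h3 : h.choose_spec.choose = ⟨w, hw⟩ := Fin.ext (by simpa using h2)
          rw [h3] at h1
          exact h1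
        · intro h2
          by_contra h3
          have h4 : h.choose_spec.choose ≠ ⟨w, hw⟩ := fun h5 => h3 (by rw [h5])
          exact Set.disjoint_left.1 (hB2 _ _ h4) h1 h2
      · constructor
        · intro h2; exact h2.elim
        · intro h2; exact absurd ⟨hv, ⟨w, hw⟩, h2⟩ h
    refine ⟨y, hy, ?_, ?_⟩
    · intro w hw
      exact (conn_iff (S := B ⟨w, hw⟩) (fun v hv => key w hw v hv) hA).1 (hB1 ⟨w, hw⟩)
    · rintro w hw w' hw' ⟨h1, h2⟩
      obtain ⟨a, ha, b, hb, hab⟩ := hB3 ⟨w, hw⟩ ⟨w', hw'⟩ ⟨fun h => h1 (by simpa using h), h2⟩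
      exact ⟨a, a.2, b, b.2, (key w hw a a.2).2 ha, (key w' hw' b b.2).2 hb,
        (hA _ _ _ _).2 hab⟩
  · rintro ⟨y, _, h1, h2⟩
    refine ⟨fun w => {v | dg (c.1 + 1) y v = w + 1}, ?_, ?_, ?_⟩
    · intro w
      exact (conn_iff (S := {v : Fin n | dg (c.1 + 1) y v = w + 1})
        (P := fun v => dg (c.1 + 1) y v = w + 1) (fun v hv => Iff.rfl) hA).2 (h1 w w.2)
    · intro w w' hne
      rw [Set.disjoint_left]
      intro v hv hv'
      simp only [Set.mem_ofPred_eq] at hv hv'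
      apply hne
      apply Fin.ext
      omega
    · rintro w w' ⟨hne, hm⟩
      obtain ⟨u, hu, v, hv, hu1, hv1, huv⟩ := h2 w w.2 w' w'.2
        ⟨fun h => hne (Fin.ext h), hm⟩
      exact ⟨⟨u, hu⟩, hu1, ⟨v, hv⟩, hv1, (hA _ _ _ _).1 huv⟩

/-! ### periodic graphs -/

/-- the pattern coded by `x` -/
def Ex (a b x u v : ℕ) : Prop := dg 2 x (u * (a + 2 * b) + v) = 1

/-- adjacency of the periodic graph -/
def adjP (a b x N y z : ℕ) : Prop :=
  y ≠ z ∧ ∃ i < N, ∃ u < a + 2 * b, ∃ v < a + 2 * b, (Ex a b x u v ∨ Ex a b x v u) ∧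
    sh a b i u = y ∧ sh a b i v = z

theorem adjP_iff {a b N : ℕ} {E : ℕ → ℕ → Prop} {x : ℕ}
    (hE : ∀ u < a + 2 * b, ∀ v < a + 2 * b, (Ex a b x u v ↔ E u v))
    (y z : ℕ) (hy : y < a + (N + 1) * b) (hz : z < a + (N + 1) * b) :
    adjP a b x N y z ↔ (perGraph a b E N).Adj ⟨y, hy⟩ ⟨z, hz⟩ := by
  unfold adjP perGraph
  simp only [ne_eq, Fin.mk.injEq]
  constructor
  · rintro ⟨h1, i, hi, u, hu, v, hv, h2, h3, h4⟩
    rw [hE u hu v hv, hE v hv u hu] at h2
    exact ⟨h1, i, u, v, hi, hu, hv, h2, h3, h4⟩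
  · rintro ⟨h1, i, u, v, hi, hu, hv, h2, h3, h4⟩
    rw [← hE u hu v hv, ← hE v hv u hu] at h2
    exact ⟨h1, i, hi, u, hu, v, hv, h2, h3, h4⟩

theorem exists_code (a b : ℕ) (E : ℕ → ℕ → Prop) :
    ∃ x < 2 ^ ((a + 2 * b) * (a + 2 * b)), ∀ u < a + 2 * b, ∀ v < a + 2 * b,
      (Ex a b x u v ↔ E u v) := by
  obtain ⟨x, hx, hx'⟩ := exists_bits ((a + 2 * b) * (a + 2 * b))
    (fun j => E (j / (a + 2 * b)) (j % (a + 2 * b)))
  refine ⟨x, hx, fun u hu v hv => ?_⟩
  unfold Ex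
  have h1 : u * (a + 2 * b) + v < (a + 2 * b) * (a + 2 * b) := by nlinarith
  rw [hx' _ h1]
  have h2 : (u * (a + 2 * b) + v) / (a + 2 * b) = u := by
    rw [mul_comm, Nat.mul_add_div (by omega), Nat.div_eq_of_lt hv, add_zero]
  have h3 : (u * (a + 2 * b) + v) % (a + 2 * b) = v := by
    rw [mul_comm, Nat.mul_add_mod, Nat.mod_eq_of_lt hv]
  rw [h2, h3]

theorem perGraph_congr {a b N : ℕ} {E E' : ℕ → ℕ → Prop}
    (hE : ∀ u < a + 2 * b, ∀ v < a + 2 * b, (E u v ↔ E' u v)) :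
    perGraph a b E N = perGraph a b E' N := by
  ext y z
  unfold perGraph
  simp only
  constructor
  · rintro ⟨h1, i, u, v, hi, hu, hv, h2, h3, h4⟩
    rw [hE u hu v hv, hE v hv u hu] at h2
    exact ⟨h1, i, u, v, hi, hu, hv, h2, h3, h4⟩
  · rintro ⟨h1, i, u, v, hi, hu, hv, h2, h3, h4⟩
    rw [← hE u hu v hv, ← hE v hv u hu] at h2
    exact ⟨h1, i, u, v, hi, hu, hv, h2, h3, h4⟩

theorem cnt_congr {a b : ℕ} {E E' : ℕ → ℕ → Prop}
    (hE : ∀ u < a + 2 * b, ∀ v < a + 2 * b, (E u v ↔ E' u v)) : cnt a b E = cnt a b E' := by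
  classical
  unfold cnt
  congr 1
  apply Finset.filter_congr
  intro p hp
  rw [Finset.mem_product, Finset.mem_range, Finset.mem_range] at hp
  rw [hE _ hp.1 _ hp.2, hE _ hp.2 _ hp.1]

/-- arithmetical form of membership -/
def inFP (L : List (ℕ × List (ℕ × ℕ))) (a b x N : ℕ) : Prop :=
  ∀ c ∈ L, ¬ minP c (a + (N + 1) * b) (adjP a b x N)

theorem inFP_iff (L : List (ℕ × List (ℕ × ℕ))) (a b x N : ℕ) :
    inFP L a b x N ↔ InF L (perGraph a b (Ex a b x) N) := by
  unfold inFP InF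
  refine forall₂_congr fun c _ => not_congr ?_
  rw [isMinor_iff (fun u v hu hv => adjP_iff (fun _ _ _ _ => Iff.rfl) u v hu hv)]

/-! ### primitive recursiveness -/

section prim2

variable {α : Type*} [Primcodable α]

theorem connP_prim {n : α → ℕ} {P : α → ℕ → Prop} {A : α → ℕ → ℕ → Prop} (hn : Primrec n)
    (hP : PrimrecPred fun q : α × ℕ => P q.1 q.2)
    (hA : PrimrecPred fun q : (α × ℕ) × ℕ => A q.1.1 q.1.2 q.2) :
    PrimrecPred fun a => connP (n a) (P a) (A a) := by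
  unfold connP
  have n2 : Primrec fun q : α × ℕ => n q.1 := hn.comp Primrec.fst
  have n3 : Primrec fun q : (α × ℕ) × ℕ => n q.1.1 := hn.comp (Primrec.fst.comp Primrec.fst)
  refine (ex_lt hn hP).and (all_lt (exp_prim (Primrec.const 2) hn) ?_)
  refine imp_prim (ex_lt n2 (PrimrecPred.and ?_ ?_)) (imp_prim (ex_lt n2 (PrimrecPred.and ?_ ?_))
    (ex_lt n2 (ex_lt n3 (PrimrecPred.and (PrimrecPred.and ?_ ?_)
      (PrimrecPred.and ?_ (PrimrecPred.and ?_ ?_))))))
  · exact hP.comp (f := fun q : (α × ℕ) × ℕ => (q.1.1, q.2))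
      (Primrec.pair (Primrec.fst.comp Primrec.fst) Primrec.snd)
  · exact eq_prim (dg_prim (Primrec.const 2) (Primrec.snd.comp Primrec.fst) Primrec.snd)
      (Primrec.const 1)
  · exact hP.comp (f := fun q : (α × ℕ) × ℕ => (q.1.1, q.2))
      (Primrec.pair (Primrec.fst.comp Primrec.fst) Primrec.snd)
  · exact ne_prim (dg_prim (Primrec.const 2) (Primrec.snd.comp Primrec.fst) Primrec.snd)
      (Primrec.const 1)
  · exact hP.comp (f := fun q : ((α × ℕ) × ℕ) × ℕ => (q.1.1.1, q.1.2))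
      (Primrec.pair (Primrec.fst.comp (Primrec.fst.comp Primrec.fst))
        (Primrec.snd.comp Primrec.fst))
  · exact hP.comp (f := fun q : ((α × ℕ) × ℕ) × ℕ => (q.1.1.1, q.2))
      (Primrec.pair (Primrec.fst.comp (Primrec.fst.comp Primrec.fst)) Primrec.snd)
  · exact eq_prim (dg_prim (Primrec.const 2) (Primrec.snd.comp (Primrec.fst.comp Primrec.fst))
      (Primrec.snd.comp Primrec.fst)) (Primrec.const 1)
  · exact ne_prim (dg_prim (Primrec.const 2) (Primrec.snd.comp (Primrec.fst.comp Primrec.fst))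
      Primrec.snd) (Primrec.const 1)
  · exact hA.comp (f := fun q : ((α × ℕ) × ℕ) × ℕ => ((q.1.1.1, q.1.2), q.2))
      (Primrec.pair (Primrec.pair (Primrec.fst.comp (Primrec.fst.comp Primrec.fst))
        (Primrec.snd.comp Primrec.fst)) Primrec.snd)

theorem minP_prim {c : α → ℕ × List (ℕ × ℕ)} {n : α → ℕ} {A : α → ℕ → ℕ → Prop}
    (hc : Primrec c) (hn : Primrec n)
    (hA : PrimrecPred fun q : (α × ℕ) × ℕ => A q.1.1 q.1.2 q.2) :
    PrimrecPred fun a => minP (c a) (n a) (A a) := by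
  unfold minP
  have c1 : Primrec fun a => (c a).1 := Primrec.fst.comp hc
  have f1 : Primrec fun q : α × ℕ => q.1 := Primrec.fst
  have f2 : Primrec fun q : (α × ℕ) × ℕ => q.1.1 := Primrec.fst.comp Primrec.fst
  have f3 : Primrec fun q : ((α × ℕ) × ℕ) × ℕ => q.1.1.1 :=
    Primrec.fst.comp (Primrec.fst.comp Primrec.fst)
  have f4 : Primrec fun q : (((α × ℕ) × ℕ) × ℕ) × ℕ => q.1.1.1.1 :=
    Primrec.fst.comp (Primrec.fst.comp (Primrec.fst.comp Primrec.fst))
  have f5 : Primrec fun q : ((((α × ℕ) × ℕ) × ℕ) × ℕ) × ℕ => q.1.1.1.1.1 :=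
    Primrec.fst.comp (Primrec.fst.comp (Primrec.fst.comp (Primrec.fst.comp Primrec.fst)))
  have b3 : Primrec fun q : ((α × ℕ) × ℕ) × ℕ => q.1.1.2 :=
    Primrec.snd.comp (Primrec.fst.comp Primrec.fst)
  have b3' : Primrec fun q : ((α × ℕ) × ℕ) × ℕ => q.1.2 := Primrec.snd.comp Primrec.fst
  have e1 : Primrec fun q : ((((α × ℕ) × ℕ) × ℕ) × ℕ) × ℕ => q.1.1.1.1.2 :=
    Primrec.snd.comp (Primrec.fst.comp (Primrec.fst.comp (Primrec.fst.comp Primrec.fst)))
  have e2 : Primrec fun q : ((((α × ℕ) × ℕ) × ℕ) × ℕ) × ℕ => q.1.1.1.2 :=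
    Primrec.snd.comp (Primrec.fst.comp (Primrec.fst.comp Primrec.fst))
  have e3 : Primrec fun q : ((((α × ℕ) × ℕ) × ℕ) × ℕ) × ℕ => q.1.1.2 :=
    Primrec.snd.comp (Primrec.fst.comp Primrec.fst)
  have e4 : Primrec fun q : ((((α × ℕ) × ℕ) × ℕ) × ℕ) × ℕ => q.1.2 :=
    Primrec.snd.comp Primrec.fst
  refine ex_lt (exp_prim (add_prim c1 (Primrec.const 1)) hn) (PrimrecPred.and ?_ ?_)
  · refine all_lt (c1.comp f1) ?_
    refine connP_prim (hn.comp f2) ?_ ?_
    · exact eq_prim (dg_prim (add_prim (c1.comp f3) (Primrec.const 1)) b3 Primrec.snd)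
        (add_prim b3' (Primrec.const 1))
    · exact hA.comp (f := fun q : (((α × ℕ) × ℕ) × ℕ) × ℕ => ((q.1.1.1.1, q.1.2), q.2))
        (Primrec.pair (Primrec.pair f4 (Primrec.snd.comp Primrec.fst)) Primrec.snd)
  · refine all_lt (c1.comp f1) (all_lt (c1.comp f2) (imp_prim (PrimrecPred.and ?_ ?_) ?_))
    · exact ne_prim b3' Primrec.snd
    · refine PrimrecPred.or ?_ ?_
      · exact mem_prim (Primrec.snd.comp (hc.comp f3)) (Primrec.pair b3' Primrec.snd)
      · exact mem_prim (Primrec.snd.comp (hc.comp f3)) (Primrec.pair Primrec.snd b3')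
    · refine ex_lt (hn.comp f3) (ex_lt (hn.comp f4) (PrimrecPred.and ?_ (PrimrecPred.and ?_ ?_)))
      · exact eq_prim (dg_prim (add_prim (c1.comp f5) (Primrec.const 1)) e1 e4)
          (add_prim e2 (Primrec.const 1))
      · exact eq_prim (dg_prim (add_prim (c1.comp f5) (Primrec.const 1)) e1 Primrec.snd)
          (add_prim e3 (Primrec.const 1))
      · exact hA.comp (f := fun q : ((((α × ℕ) × ℕ) × ℕ) × ℕ) × ℕ => ((q.1.1.1.1.1, q.1.2), q.2))
          (Primrec.pair (Primrec.pair f5 e4) Primrec.snd)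

theorem sh_prim {f g h k : α → ℕ} (hf : Primrec f) (hg : Primrec g) (hh : Primrec h)
    (hk : Primrec k) : Primrec fun a => sh (f a) (g a) (h a) (k a) := by
  unfold sh
  exact Primrec.ite (lt_prim hk hf) hk (add_prim hk (mul_prim hh hg))

theorem Ex_prim {f g h k l : α → ℕ} (hf : Primrec f) (hg : Primrec g) (hh : Primrec h)
    (hk : Primrec k) (hl : Primrec l) : PrimrecPred fun a => Ex (f a) (g a) (h a) (k a) (l a) := by
  unfold Ex
  exact eq_prim (dg_prim (Primrec.const 2) hh (add_prim (mul_prim hk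
    (add_prim hf (mul_prim (Primrec.const 2) hg))) hl)) (Primrec.const 1)

theorem adjP_prim {f g h k l m : α → ℕ} (hf : Primrec f) (hg : Primrec g) (hh : Primrec h)
    (hk : Primrec k) (hl : Primrec l) (hm : Primrec m) :
    PrimrecPred fun a => adjP (f a) (g a) (h a) (k a) (l a) (m a) := by
  unfold adjP
  have f1 : Primrec fun q : α × ℕ => q.1 := Primrec.fst
  have f2 : Primrec fun q : (α × ℕ) × ℕ => q.1.1 := Primrec.fst.comp Primrec.fst
  have f3 : Primrec fun q : ((α × ℕ) × ℕ) × ℕ => q.1.1.1 :=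
    Primrec.fst.comp (Primrec.fst.comp Primrec.fst)
  have b3 : Primrec fun q : ((α × ℕ) × ℕ) × ℕ => q.1.1.2 :=
    Primrec.snd.comp (Primrec.fst.comp Primrec.fst)
  have b3' : Primrec fun q : ((α × ℕ) × ℕ) × ℕ => q.1.2 := Primrec.snd.comp Primrec.fst
  have hs : Primrec fun a => f a + 2 * g a := add_prim hf (mul_prim (Primrec.const 2) hg)
  refine (ne_prim hl hm).and (ex_lt hk (ex_lt (hs.comp f1) (ex_lt (hs.comp f2)
    (PrimrecPred.and (PrimrecPred.or ?_ ?_) (PrimrecPred.and ?_ ?_)))))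
  · exact Ex_prim (hf.comp f3) (hg.comp f3) (hh.comp f3) b3' Primrec.snd
  · exact Ex_prim (hf.comp f3) (hg.comp f3) (hh.comp f3) Primrec.snd b3'
  · exact eq_prim (sh_prim (hf.comp f3) (hg.comp f3) b3 b3') (hl.comp f3)
  · exact eq_prim (sh_prim (hf.comp f3) (hg.comp f3) b3 Primrec.snd) (hm.comp f3)

theorem inFP_prim {L : α → List (ℕ × List (ℕ × ℕ))} {f g h k : α → ℕ} (hL : Primrec L)
    (hf : Primrec f) (hg : Primrec g) (hh : Primrec h) (hk : Primrec k) :
    PrimrecPred fun a => inFP (L a) (f a) (g a) (h a) (k a) := by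
  unfold inFP
  refine all_mem hL (PrimrecPred.not ?_)
  have f1 : Primrec fun q : α × (ℕ × List (ℕ × ℕ)) => q.1 := Primrec.fst
  have f3 : Primrec fun q : ((α × (ℕ × List (ℕ × ℕ))) × ℕ) × ℕ => q.1.1.1 :=
    Primrec.fst.comp (Primrec.fst.comp Primrec.fst)
  refine minP_prim Primrec.snd ?_ ?_
  · exact add_prim (hf.comp f1) (mul_prim (add_prim (hk.comp f1) (Primrec.const 1)) (hg.comp f1))
  · exact adjP_prim (hf.comp f3) (hg.comp f3) (hh.comp f3) (hk.comp f3)
      (Primrec.snd.comp Primrec.fst) Primrec.snd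

/-! ### counting -/

/-- the pairs `(j / n, j % n)` that are counted -/
def Qx (a b x j : ℕ) : Prop :=
  j / (a + 2 * b) < j % (a + 2 * b) ∧ a + b ≤ j % (a + 2 * b) ∧
    (Ex a b x (j / (a + 2 * b)) (j % (a + 2 * b)) ∨ Ex a b x (j % (a + 2 * b)) (j / (a + 2 * b)))

open Classical in
/-- arithmetical form of the edge count -/
noncomputable def cntx (a b x : ℕ) : ℕ :=
  ((List.range ((a + 2 * b) * (a + 2 * b))).filter fun j => Qx a b x j).length

theorem cntx_eq (a b x : ℕ) : cntx a b x = cnt a b (Ex a b x) := by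
  classical
  have h1 : cntx a b x =
      ((Finset.range ((a + 2 * b) * (a + 2 * b))).filter fun j => Qx a b x j).card := rfl
  rw [h1]
  unfold cnt
  by_cases hn : a + 2 * b = 0
  · simp [hn]
  have hn' : 0 < a + 2 * b := Nat.pos_of_ne_zero hn
  set n := a + 2 * b with hnd
  have hd : ∀ u v, v < n → (u * n + v) / n = u := by
    intro u v hv
    rw [mul_comm, Nat.mul_add_div hn', Nat.div_eq_of_lt hv, add_zero]
  have hm : ∀ u v, v < n → (u * n + v) % n = v := by
    intro u v hv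
    rw [mul_comm, Nat.mul_add_mod, Nat.mod_eq_of_lt hv]
  refine Finset.card_bij' (fun j _ => (j / n, j % n)) (fun p _ => p.1 * n + p.2) ?_ ?_ ?_ ?_
  · intro j hj
    rw [Finset.mem_filter, Finset.mem_range] at hj
    rw [Finset.mem_filter, Finset.mem_product, Finset.mem_range, Finset.mem_range]
    exact ⟨⟨Nat.div_lt_of_lt_mul hj.1, Nat.mod_lt _ hn'⟩, hj.2⟩
  · intro p hp
    rw [Finset.mem_filter, Finset.mem_product, Finset.mem_range, Finset.mem_range] at hp
    rw [Finset.mem_filter, Finset.mem_range]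
    obtain ⟨⟨h2, h3⟩, h4⟩ := hp
    refine ⟨by nlinarith, ?_⟩
    unfold Qx
    rw [← hnd, hd _ _ h3, hm _ _ h3]
    exact h4
  · intro j _
    exact Nat.div_add_mod' j n
  · intro p hp
    rw [Finset.mem_filter, Finset.mem_product, Finset.mem_range, Finset.mem_range] at hp
    exact Prod.ext (hd _ _ hp.1.2) (hm _ _ hp.1.2)

theorem Qx_prim {f g h k : α → ℕ} (hf : Primrec f) (hg : Primrec g) (hh : Primrec h)
    (hk : Primrec k) : PrimrecPred fun a => Qx (f a) (g a) (h a) (k a) := by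
  unfold Qx
  have hs : Primrec fun a => f a + 2 * g a := add_prim hf (mul_prim (Primrec.const 2) hg)
  have hq := div_prim hk hs
  have hr := mod_prim hk hs
  exact (lt_prim hq hr).and ((le_prim (add_prim hf hg) hr).and
    ((Ex_prim hf hg hh hq hr).or (Ex_prim hf hg hh hr hq)))

theorem cntx_prim {f g h : α → ℕ} (hf : Primrec f) (hg : Primrec g) (hh : Primrec h) :
    Primrec fun a => cntx (f a) (g a) (h a) := by
  classical
  have hs : Primrec fun a => f a + 2 * g a := add_prim hf (mul_prim (Primrec.const 2) hg)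
  have h1 : PrimrecRel fun (j : ℕ) (a : α) => Qx (f a) (g a) (h a) j :=
    Qx_prim (hf.comp Primrec.snd) (hg.comp Primrec.snd) (hh.comp Primrec.snd) Primrec.fst
  have h2 := (h1.listFilter).comp (Primrec.list_range.comp (mul_prim hs hs)) Primrec.id
  have h3 := Primrec.list_length.comp h2
  refine h3.of_eq fun a => ?_
  unfold cntx
  congr 1

/-! ### the search -/

section search

variable (kB bB nB : List (ℕ × List (ℕ × ℕ)) → ℕ)

/-- the candidate coded by `j` is admissible -/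
def Feas (L : List (ℕ × List (ℕ × ℕ))) (j : ℕ) : Prop :=
  j.unpair.1 ≤ kB L ∧ 1 ≤ j.unpair.2.unpair.1 ∧ j.unpair.2.unpair.1 ≤ bB L ∧
    inFP L j.unpair.1 j.unpair.2.unpair.1 j.unpair.2.unpair.2 (nB L)

/-- twice the count of the candidate -/
noncomputable def num (j : ℕ) : ℕ := 2 * cntx j.unpair.1 j.unpair.2.unpair.1 j.unpair.2.unpair.2

/-- the block size of the candidate -/
def den (j : ℕ) : ℕ := j.unpair.2.unpair.1

/-- the candidates to be considered -/
def cand (L : List (ℕ × List (ℕ × ℕ))) : List ℕ :=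
  List.range (Nat.pair (kB L) (Nat.pair (bB L)
    (2 ^ ((kB L + 2 * bB L) * (kB L + 2 * bB L)))) + 1)

open Classical in
/-- one step of the search -/
noncomputable def step (L : List (ℕ × List (ℕ × ℕ))) (s : ℕ × ℕ) (j : ℕ) : ℕ × ℕ :=
  if Feas kB bB nB L j ∧ s.1 * den j < num j * s.2 then (num j, den j) else s

/-- the function computed -/
noncomputable def ff (L : List (ℕ × List (ℕ × ℕ))) : ℕ × ℕ :=
  (cand kB bB L).foldl (step kB bB nB L) (0, 1)

variable {kB bB nB}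

theorem Feas_prim (hk : Primrec kB) (hb : Primrec bB) (hn : Primrec nB)
    {L : α → List (ℕ × List (ℕ × ℕ))} {j : α → ℕ} (hL : Primrec L) (hj : Primrec j) :
    PrimrecPred fun a => Feas kB bB nB (L a) (j a) := by
  unfold Feas
  have u1 : Primrec fun a => (j a).unpair.1 := Primrec.fst.comp (Primrec.unpair.comp hj)
  have u2 : Primrec fun a => (j a).unpair.2 := Primrec.snd.comp (Primrec.unpair.comp hj)
  have u3 : Primrec fun a => (j a).unpair.2.unpair.1 := Primrec.fst.comp (Primrec.unpair.comp u2)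
  have u4 : Primrec fun a => (j a).unpair.2.unpair.2 := Primrec.snd.comp (Primrec.unpair.comp u2)
  exact (le_prim u1 (hk.comp hL)).and ((le_prim (Primrec.const 1) u3).and
    ((le_prim u3 (hb.comp hL)).and (inFP_prim hL u1 u3 u4 (hn.comp hL))))

theorem num_prim : Primrec num := by
  unfold num
  have u2 : Primrec fun j : ℕ => j.unpair.2 := Primrec.snd.comp Primrec.unpair
  exact mul_prim (Primrec.const 2) (cntx_prim (Primrec.fst.comp Primrec.unpair)
    (Primrec.fst.comp (Primrec.unpair.comp u2)) (Primrec.snd.comp (Primrec.unpair.comp u2)))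

theorem den_prim : Primrec den := by
  unfold den
  exact Primrec.fst.comp (Primrec.unpair.comp (Primrec.snd.comp Primrec.unpair))

theorem cand_prim (hk : Primrec kB) (hb : Primrec bB) : Primrec (cand kB bB) := by
  unfold cand
  have hs : Primrec fun L : List (ℕ × List (ℕ × ℕ)) => kB L + 2 * bB L :=
    add_prim hk (mul_prim (Primrec.const 2) hb)
  exact Primrec.list_range.comp (add_prim (Primrec₂.natPair.comp hk (Primrec₂.natPair.comp hb
    (exp_prim (Primrec.const 2) (mul_prim hs hs)))) (Primrec.const 1))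

theorem step_prim (hk : Primrec kB) (hb : Primrec bB) (hn : Primrec nB) :
    Primrec₂ fun (L : List (ℕ × List (ℕ × ℕ))) (s : (ℕ × ℕ) × ℕ) => step kB bB nB L s.1 s.2 := by
  classical
  have p1 : Primrec fun q : List (ℕ × List (ℕ × ℕ)) × ((ℕ × ℕ) × ℕ) => q.1 := Primrec.fst
  have p2 : Primrec fun q : List (ℕ × List (ℕ × ℕ)) × ((ℕ × ℕ) × ℕ) => q.2.1 :=
    Primrec.fst.comp Primrec.snd
  have p3 : Primrec fun q : List (ℕ × List (ℕ × ℕ)) × ((ℕ × ℕ) × ℕ) => q.2.2 :=
    Primrec.snd.comp Primrec.snd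
  have hc : PrimrecPred fun q : List (ℕ × List (ℕ × ℕ)) × ((ℕ × ℕ) × ℕ) =>
      Feas kB bB nB q.1 q.2.2 ∧ q.2.1.1 * den q.2.2 < num q.2.2 * q.2.1.2 :=
    (Feas_prim hk hb hn p1 p3).and (lt_prim (mul_prim (Primrec.fst.comp p2) (den_prim.comp p3))
      (mul_prim (num_prim.comp p3) (Primrec.snd.comp p2)))
  have h1 := Primrec.ite hc (Primrec.pair (num_prim.comp p3) (den_prim.comp p3)) p2
  exact h1.of_eq fun q => by
    unfold step
    congr

theorem ff_prim (hk : Primrec kB) (hb : Primrec bB) (hn : Primrec nB) :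
    Primrec (ff kB bB nB) :=
  Primrec.list_foldl (cand_prim hk hb)
    (Primrec.const ((0, 1) : ℕ × ℕ)) (step_prim hk hb hn)

theorem foldl_inv (L : List (ℕ × List (ℕ × ℕ))) : ∀ (l : List ℕ) (s : ℕ × ℕ), 0 < s.2 →
    0 < (l.foldl (step kB bB nB L) s).2 ∧
    ((l.foldl (step kB bB nB L) s) = s ∨
      ∃ j, Feas kB bB nB L j ∧ l.foldl (step kB bB nB L) s = (num j, den j)) ∧
    s.1 * (l.foldl (step kB bB nB L) s).2 ≤ (l.foldl (step kB bB nB L) s).1 * s.2 ∧
    ∀ j ∈ l, Feas kB bB nB L j →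
      num j * (l.foldl (step kB bB nB L) s).2 ≤ (l.foldl (step kB bB nB L) s).1 * den j := by
  intro l
  induction l with
  | nil => intro s hs; exact ⟨hs, Or.inl rfl, le_rfl, fun j hj => absurd hj (by simp)⟩
  | cons i l ih =>
    intro s hs
    rw [List.foldl_cons]
    have hst : 0 < (step kB bB nB L s i).2 ∧ (step kB bB nB L s i = s ∨
        (Feas kB bB nB L i ∧ step kB bB nB L s i = (num i, den i))) ∧
        s.1 * (step kB bB nB L s i).2 ≤ (step kB bB nB L s i).1 * s.2 ∧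
        (Feas kB bB nB L i →
          num i * (step kB bB nB L s i).2 ≤ (step kB bB nB L s i).1 * den i) := by
      unfold step
      split_ifs with h
      · refine ⟨h.1.2.1, Or.inr ⟨h.1, rfl⟩, h.2.le, fun _ => le_rfl⟩
      · refine ⟨hs, Or.inl rfl, le_rfl, fun hf => ?_⟩
        by_contra hc
        exact h ⟨hf, not_le.1 hc⟩
    obtain ⟨g1, g2, g3, g4⟩ := hst
    set s' := step kB bB nB L s i with hs'
    obtain ⟨h1, h2, h3, h4⟩ := ih s' g1
    set r := l.foldl (step kB bB nB L) s' with hr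
    refine ⟨h1, ?_, ?_, ?_⟩
    · rcases h2 with h2 | h2
      · rcases g2 with g2 | ⟨g2, g2'⟩
        · left; rw [h2, g2]
        · right; exact ⟨i, g2, by rw [h2, g2']⟩
      · right; exact h2
    · refine Nat.le_of_mul_le_mul_right (c := s'.2) ?_ g1
      calc s.1 * r.2 * s'.2 = s.1 * s'.2 * r.2 := by ring
        _ ≤ s'.1 * s.2 * r.2 := Nat.mul_le_mul_right _ g3
        _ = s'.1 * r.2 * s.2 := by ring
        _ ≤ r.1 * s'.2 * s.2 := Nat.mul_le_mul_right _ h3
        _ = r.1 * s.2 * s'.2 := by ring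
    · intro j hj hf
      rcases List.mem_cons.1 hj with rfl | hj
      · refine Nat.le_of_mul_le_mul_right (c := s'.2) ?_ g1
        calc num j * r.2 * s'.2 = num j * s'.2 * r.2 := by ring
          _ ≤ s'.1 * den j * r.2 := Nat.mul_le_mul_right _ (g4 hf)
          _ = s'.1 * r.2 * den j := by ring
          _ ≤ r.1 * s'.2 * den j := Nat.mul_le_mul_right _ h3
          _ = r.1 * den j * s'.2 := by ring
      · exact h4 j hj hf

theorem pair_le_pair {a b a' b' : ℕ} (h1 : a ≤ a') (h2 : b ≤ b') :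
    Nat.pair a b ≤ Nat.pair a' b' := by
  have e1 : Nat.pair a b ≤ Nat.pair a' b := by
    rcases h1.lt_or_eq with h | h
    · exact (Nat.pair_lt_pair_left b h).le
    · rw [h]
  have e2 : Nat.pair a' b ≤ Nat.pair a' b' := by
    rcases h2.lt_or_eq with h | h
    · exact (Nat.pair_lt_pair_right a' h).le
    · rw [h]
  exact e1.trans e2

end search

end prim2

theorem primrec_inB' : Primrec₂ (fun q h : ℕ => 2 ^ (2 ^ h * 2 ^ ((q + h) * (q + h)))) := by
  have hs : Primrec fun p : ℕ × ℕ => p.1 + p.2 := add_prim Primrec.fst Primrec.snd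
  exact exp_prim (Primrec.const 2) (mul_prim (exp_prim (Primrec.const 2) Primrec.snd)
    (exp_prim (Primrec.const 2) (mul_prim hs hs)))

theorem primrec_bmB' : Primrec₂
    (fun k h : ℕ => 2 ^ (2 ^ (2 ^ h * 2 ^ ((k + h) * (k + h))) * 2 ^ k)) :=
  exp_prim (Primrec.const 2) (mul_prim primrec_inB' (exp_prim (Primrec.const 2) Primrec.fst))

end Comp

theorem comp_main (kB bB nB : List (ℕ × List (ℕ × ℕ)) → ℕ) (hk : Primrec kB) (hb : Primrec bB)
    (hn : Primrec nB) :
    ∃ f : List (ℕ × List (ℕ × ℕ)) → ℕ × ℕ, Primrec f ∧ ∀ L, 0 < (f L).2 ∧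
      (f L = (0, 1) ∨ ∃ a b : ℕ, ∃ E : ℕ → ℕ → Prop, a ≤ kB L ∧ 1 ≤ b ∧ b ≤ bB L ∧
        InF L (perGraph a b E (nB L)) ∧ f L = (2 * cnt a b E, b)) ∧
      ∀ a b : ℕ, ∀ E : ℕ → ℕ → Prop, a ≤ kB L → 1 ≤ b → b ≤ bB L →
        InF L (perGraph a b E (nB L)) → 2 * cnt a b E * (f L).2 ≤ (f L).1 * b := by
  refine ⟨Comp.ff kB bB nB, Comp.ff_prim hk hb hn, fun L => ?_⟩
  obtain ⟨h1, h2, _, h4⟩ := Comp.foldl_inv (kB := kB) (bB := bB) (nB := nB) L
    (Comp.cand kB bB L) (0, 1) Nat.one_pos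
  refine ⟨h1, ?_, ?_⟩
  · rcases h2 with h2 | ⟨j, hj, h2⟩
    · left; exact h2
    · right
      obtain ⟨g1, g2, g3, g4⟩ := hj
      refine ⟨_, _, Comp.Ex j.unpair.1 j.unpair.2.unpair.1 j.unpair.2.unpair.2, g1, g2, g3,
        (Comp.inFP_iff _ _ _ _ _).1 g4, ?_⟩
      have : Comp.ff kB bB nB L = (Comp.num j, Comp.den j) := h2
      rw [this]
      unfold Comp.num Comp.den
      rw [Comp.cntx_eq]
  · intro a b E ha hb1 hb2 hF
    obtain ⟨x, hx, hx'⟩ := Comp.exists_code a b E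
    have hj : Nat.pair a (Nat.pair b x) ∈ Comp.cand kB bB L := by
      unfold Comp.cand
      rw [List.mem_range, Nat.lt_succ_iff]
      refine Comp.pair_le_pair ha (Comp.pair_le_pair hb2 (hx.le.trans ?_))
      exact Nat.pow_le_pow_right (by norm_num) (Nat.mul_le_mul (by omega) (by omega))
    have hf : Comp.Feas kB bB nB L (Nat.pair a (Nat.pair b x)) := by
      unfold Comp.Feas
      simp only [Nat.unpair_pair]
      refine ⟨ha, hb1, hb2, (Comp.inFP_iff _ _ _ _ _).2 ?_⟩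
      rw [Comp.perGraph_congr hx']
      exact hF
    have h5 := h4 _ hj hf
    unfold Comp.num Comp.den at h5
    simp only [Nat.unpair_pair] at h5
    rw [Comp.cntx_eq, Comp.cnt_congr hx'] at h5
    exact h5

end Pool.Agent.Lib.MP_4d119b_lc
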