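import Pool.Agent.Lib.MP_4d119b_lc.Torso

/-! Contracting a torso edge in a minimal counterexample. -/

namespace Pool.Agent.Lib.MP_4d119b_lc

open Set

variable {V : Type}

/-- number of ordered adjacent pairs, i.e. twice the number of edges -/
noncomputable def ad (G : SimpleGraph V) : ℕ := {p : V × V | G.Adj p.1 p.2}.ncard

/-- number of ordered adjacent pairs meeting `Y` -/
noncomputable def wt (G : SimpleGraph V) (Y : Set V) : ℕ :=
  {p : V × V | G.Adj p.1 p.2 ∧ (p.1 ∈ Y ∨ p.2 ∈ Y)}.ncard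

/-- ordered pairs of a set of edges -/
theorem ncard_pairs [Finite V] (G : SimpleGraph V) (E : Set (Sym2 V)) (hE : E ⊆ G.edgeSet) :
    {p : V × V | s(p.1, p.2) ∈ E}.ncard = 2 * E.ncard := by
  classical
  have hfin : ∀ E : Set (Sym2 V), E.Finite := fun E => Set.toFinite E
  induction E, hfin E using Set.Finite.induction_on with
  | empty => simp
  | @insert e E he hEf ih =>
    have hE' : E ⊆ G.edgeSet := (Set.subset_insert _ _).trans hE
    have heG : e ∈ G.edgeSet := hE (Set.mem_insert _ _)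
    induction e using Sym2.ind with
    | _ x y =>
    rw [SimpleGraph.mem_edgeSet] at heG
    have h1 : {p : V × V | s(p.1, p.2) ∈ insert s(x, y) E} =
        {p : V × V | s(p.1, p.2) ∈ E} ∪ {(x, y), (y, x)} := by
      ext ⟨a, b⟩
      simp only [mem_ofPred_eq, mem_insert_iff, mem_union, mem_singleton_iff, Prod.mk.injEq,
        Sym2.eq_iff]
      tauto
    rw [h1, Set.ncard_union_eq _ (Set.toFinite _) (Set.toFinite _), ih hE',
      Set.ncard_insert_of_notMem he (Set.toFinite _), Set.ncard_pair]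
    · ring
    · intro h
      rw [Prod.mk.injEq] at h
      exact heG.ne h.1
    · rw [Set.disjoint_left]
      rintro ⟨a, b⟩ h2 h3
      simp only [mem_insert_iff, mem_singleton_iff, Prod.mk.injEq] at h3
      rcases h3 with ⟨rfl, rfl⟩ | ⟨rfl, rfl⟩
      · exact he h2
      · exact he (by simpa [Sym2.eq_swap] using h2)

theorem ad_eq [Finite V] (G : SimpleGraph V) : ad G = 2 * G.edgeSet.ncard := by
  rw [← ncard_pairs G G.edgeSet subset_rfl]
  rfl

theorem wt_empty (G : SimpleGraph V) : wt G ∅ = 0 := by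
  unfold wt
  simp

/-- weight is additive on sets without edges between them -/
theorem wt_union [Finite V] (G : SimpleGraph V) (Y Z : Set V) (hd : Disjoint Y Z)
    (h : ∀ y ∈ Y, ∀ z ∈ Z, ¬ G.Adj y z) : wt G (Y ∪ Z) = wt G Y + wt G Z := by
  unfold wt
  rw [← Set.ncard_union_eq _ (Set.toFinite _) (Set.toFinite _)]
  · congr 1
    ext ⟨a, b⟩
    simp only [mem_ofPred_eq, mem_union]
    tauto
  · rw [Set.disjoint_left]
    rintro ⟨a, b⟩ ⟨hab, h1⟩ ⟨_, h2⟩
    simp only at hab h1 h2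
    rcases h1 with h1 | h1 <;> rcases h2 with h2 | h2
    · exact Set.disjoint_left.1 hd h1 h2
    · exact h a h1 b h2 hab
    · exact h b h1 a h2 hab.symm
    · exact Set.disjoint_left.1 hd h1 h2

/-- counterexample, minimal with respect to minors -/
def Cex (r K : ℝ) (G : SimpleGraph V) : Prop :=
  K < (ad G : ℝ) - r * Nat.card V ∧ ∀ (V' : Type) [Finite V'] (G' : SimpleGraph V'),
    IsMinor G' G → Nat.card V' < Nat.card V → (ad G' : ℝ) - r * Nat.card V' ≤ K

/-- relative excess of `Y` -/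
noncomputable def rel (r : ℝ) (G : SimpleGraph V) (Y : Set V) : ℝ := wt G Y - r * Y.ncard

theorem rel_empty (r : ℝ) (G : SimpleGraph V) : rel r G ∅ = 0 := by
  unfold rel; rw [wt_empty]; simp

theorem rel_union [Finite V] (r : ℝ) (G : SimpleGraph V) (Y Z : Set V) (hd : Disjoint Y Z)
    (h : ∀ y ∈ Y, ∀ z ∈ Z, ¬ G.Adj y z) : rel r G (Y ∪ Z) = rel r G Y + rel r G Z := by
  unfold rel
  rw [wt_union G Y Z hd h, Set.ncard_union_eq hd (Set.toFinite _) (Set.toFinite _)]
  push_cast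
  ring

/-- deletion of vertices -/
def delV (G : SimpleGraph V) (Y : Set V) : SimpleGraph {v // v ∉ Y} := G.comap Subtype.val

theorem delV_minor (G : SimpleGraph V) (Y : Set V) : IsMinor (delV G Y) G :=
  isMinor_of_hom Subtype.val Subtype.val_injective (fun _ _ h => h)

theorem card_compl [Finite V] (Y : Set V) :
    Nat.card {v // v ∉ Y} + Y.ncard = Nat.card V := by
  have h1 : Nat.card {v // v ∉ Y} = Yᶜ.ncard := by
    rw [← Nat.card_coe_set_eq]; rfl
  rw [h1, ← Set.ncard_union_eq (disjoint_compl_left) (Set.toFinite _) (Set.toFinite _),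
    Set.compl_union_self, Set.ncard_univ]

theorem ad_delV [Finite V] (G : SimpleGraph V) (Y : Set V) :
    ad (delV G Y) + wt G Y = ad G := by
  unfold ad wt
  have h1 : {p : {v // v ∉ Y} × {v // v ∉ Y} | (delV G Y).Adj p.1 p.2}.ncard =
      {p : V × V | G.Adj p.1 p.2 ∧ p.1 ∉ Y ∧ p.2 ∉ Y}.ncard := by
    apply Set.ncard_congr (fun (p : {v // v ∉ Y} × {v // v ∉ Y}) _ => (p.1.1, p.2.1))
    · rintro ⟨a, b⟩ h
      exact ⟨h, a.2, b.2⟩
    · rintro ⟨a, b⟩ ⟨a', b'⟩ _ _ h
      rw [Prod.mk.injEq] at h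
      exact Prod.ext (Subtype.ext h.1) (Subtype.ext h.2)
    · rintro ⟨a, b⟩ ⟨h, ha, hb⟩
      exact ⟨(⟨a, ha⟩, ⟨b, hb⟩), h, rfl⟩
  rw [h1, ← Set.ncard_union_eq _ (Set.toFinite _) (Set.toFinite _)]
  · congr 1
    ext ⟨a, b⟩
    simp only [mem_ofPred_eq, mem_union]
    tauto
  · rw [Set.disjoint_left]
    rintro ⟨a, b⟩ ⟨_, h1, h2⟩ ⟨_, h3⟩
    tauto

theorem Cex.rel_nonneg [Finite V] {r K : ℝ} {G : SimpleGraph V} (h : Cex r K G) (Y : Set V) :
    0 ≤ rel r G Y := by
  rcases Y.eq_empty_or_nonempty with rfl | hY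
  · rw [rel_empty]
  · have h1 := card_compl Y
    have h2 : 0 < Y.ncard := (Set.ncard_pos (Set.toFinite _)).2 hY
    have h3 := h.2 _ (delV G Y) (delV_minor G Y) (by omega)
    have h4 := ad_delV G Y
    have h5 := h.1
    unfold rel
    have h6 : (Nat.card {v // v ∉ Y} : ℝ) + Y.ncard = Nat.card V := by exact_mod_cast h1
    have h7 : (ad (delV G Y) : ℝ) + wt G Y = ad G := by exact_mod_cast h4
    rw [← h6, ← h7] at h5
    nlinarith

section ctr

variable (G : SimpleGraph V) (Fl : Set V) (u v : V) (K0 : Set V)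

/-- vertices adjacent to `u` that become adjacent to `v` -/
def nbR : Set V := {w | G.Adj u w ∧ w ∉ Fl ∧ w ≠ v ∧ w ∉ K0}

/-- contraction of `u` into `v`, deleting `Fl` and the edges from `u` to `K0` -/
def ctr : SimpleGraph {w // w ∉ Fl ∧ w ≠ u} where
  Adj a b := a ≠ b ∧ (G.Adj a.1 b.1 ∨ (a.1 = v ∧ b.1 ∈ nbR G Fl u v K0) ∨
    (b.1 = v ∧ a.1 ∈ nbR G Fl u v K0))
  symm := ⟨fun _ _ h => ⟨h.1.symm, by
    rcases h.2 with h | h | h
    · exact Or.inl h.symm
    · exact Or.inr (Or.inr h)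
    · exact Or.inr (Or.inl h)⟩⟩
  loopless := ⟨fun _ h => h.1 rfl⟩

variable {G Fl u v K0}

theorem ctr_minor {B : Set V} (hB : Conn G B) (hBs : B ⊆ Fl ∪ {u, v}) (huB : u ∈ B)
    (hvB : v ∈ B) : IsMinor (ctr G Fl u v K0) G := by
  classical
  refine ⟨fun w => if w.1 = v then B else {w.1}, ?_, ?_, ?_⟩
  · intro w
    dsimp only
    split_ifs
    · exact hB
    · exact conn_singleton G _
  · intro w w' hne
    have hne' : w.1 ≠ w'.1 := fun h => hne (Subtype.ext h)
    have hnotB : ∀ w : {w // w ∉ Fl ∧ w ≠ u}, w.1 ≠ v → w.1 ∉ B := by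
      intro w hw hwB
      rcases hBs hwB with h | h | h
      · exact w.2.1 h
      · exact w.2.2 h
      · exact hw h
    dsimp only
    split_ifs with h1 h2 h2
    · exact absurd (h1.trans h2.symm) hne'
    · rw [Set.disjoint_singleton_right]; exact hnotB w' h2
    · rw [Set.disjoint_singleton_left]; exact hnotB w h1
    · rw [Set.disjoint_singleton]; exact hne'
  · intro w w' hww
    have hmem : ∀ w : {w // w ∉ Fl ∧ w ≠ u}, w.1 ∈ (if w.1 = v then B else {w.1} : Set V) := by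
      intro w
      split_ifs with h
      · rw [h]; exact hvB
      · rfl
    rcases hww.2 with h | h | h
    · exact ⟨w.1, hmem w, w'.1, hmem w', h⟩
    · refine ⟨u, ?_, w'.1, hmem w', h.2.1⟩
      dsimp only
      rw [if_pos h.1]; exact huB
    · refine ⟨w.1, hmem w, u, ?_, h.2.1.symm⟩
      dsimp only
      rw [if_pos h.1]; exact huB

theorem card_ctr [Finite V] (hu : u ∉ Fl) :
    Nat.card {w // w ∉ Fl ∧ w ≠ u} + Fl.ncard + 1 = Nat.card V := by
  have h1 := card_compl (insert u Fl)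
  rw [Set.ncard_insert_of_notMem hu (Set.toFinite _)] at h1
  have h2 : Nat.card {w // w ∉ Fl ∧ w ≠ u} = Nat.card {v // v ∉ insert u Fl} := by
    apply Nat.card_congr
    apply Equiv.subtypeEquivRight
    intro w
    simp only [mem_insert_iff, not_or]
    tauto
  rw [h2]; omega

open Classical in
theorem ad_ctr [Finite V] (hu : u ∉ Fl) (hv : v ∉ Fl) (huv : u ≠ v)
    (hK0 : ∀ w ∈ K0, G.Adj u w ∧ w ∉ Fl ∧ w ≠ v)
    (hR : ∀ w ∈ nbR G Fl u v K0, ¬ G.Adj v w) :
    ad (ctr G Fl u v K0) + wt G Fl + 2 * (if G.Adj u v then 1 else 0) + 2 * K0.ncard = ad G := by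
  set R := nbR G Fl u v K0 with hRdef
  -- edges of ctr
  have hRmem : ∀ w ∈ R, w ∉ Fl ∧ w ≠ u := fun w hw => ⟨hw.2.1, hw.1.ne.symm⟩
  have h1 : ad (ctr G Fl u v K0) =
      ({p : V × V | G.Adj p.1 p.2 ∧ (p.1 ∉ Fl ∧ p.1 ≠ u) ∧ (p.2 ∉ Fl ∧ p.2 ≠ u)} ∪
        {p : V × V | (p.1 = v ∧ p.2 ∈ R) ∨ (p.2 = v ∧ p.1 ∈ R)}).ncard := by
    unfold ad
    apply Set.ncard_congr (fun (p : {w // w ∉ Fl ∧ w ≠ u} × {w // w ∉ Fl ∧ w ≠ u}) _ =>
      (p.1.1, p.2.1))
    · rintro ⟨a, b⟩ ⟨_, h⟩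
      rcases h with h | h | h
      · exact Or.inl ⟨h, a.2, b.2⟩
      · exact Or.inr (Or.inl h)
      · exact Or.inr (Or.inr h)
    · rintro ⟨a, b⟩ ⟨a', b'⟩ _ _ h
      rw [Prod.mk.injEq] at h
      exact Prod.ext (Subtype.ext h.1) (Subtype.ext h.2)
    · rintro ⟨a, b⟩ (⟨h, ha, hb⟩ | ⟨h, hb⟩ | ⟨h, hb⟩)
      · exact ⟨(⟨a, ha⟩, ⟨b, hb⟩), ⟨fun he => h.ne (congrArg Subtype.val he), Or.inl h⟩, rfl⟩
      · simp only at h hb
        subst h
        exact ⟨(⟨a, hv, huv.symm⟩, ⟨b, hRmem b hb⟩),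
          ⟨fun he => hb.2.2.1 (congrArg Subtype.val he).symm, Or.inr (Or.inl ⟨rfl, hb⟩)⟩, rfl⟩
      · simp only at h hb
        subst h
        exact ⟨(⟨a, hRmem a hb⟩, ⟨b, hv, huv.symm⟩),
          ⟨fun he => hb.2.2.1 (congrArg Subtype.val he), Or.inr (Or.inr ⟨rfl, hb⟩)⟩, rfl⟩
  have hpair : ∀ (z : V) (S : Set V), z ∉ S →
      {p : V × V | (p.1 = z ∧ p.2 ∈ S) ∨ (p.2 = z ∧ p.1 ∈ S)}.ncard = 2 * S.ncard := by
    intro z S hz
    have he : {p : V × V | (p.1 = z ∧ p.2 ∈ S) ∨ (p.2 = z ∧ p.1 ∈ S)} =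
        ((fun w => (z, w)) '' S) ∪ ((fun w => (w, z)) '' S) := by
      ext ⟨a, b⟩
      simp only [mem_ofPred_eq, mem_union, mem_image, Prod.mk.injEq]
      constructor
      · rintro (⟨rfl, h⟩ | ⟨rfl, h⟩)
        · exact Or.inl ⟨b, h, rfl, rfl⟩
        · exact Or.inr ⟨a, h, rfl, rfl⟩
      · rintro (⟨w, h, rfl, rfl⟩ | ⟨w, h, rfl, rfl⟩)
        · exact Or.inl ⟨rfl, h⟩
        · exact Or.inr ⟨rfl, h⟩
    rw [he, Set.ncard_union_eq _ (Set.toFinite _) (Set.toFinite _),
      Set.ncard_image_of_injective _ (fun a b h => (Prod.mk.inj h).2),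
      Set.ncard_image_of_injective _ (fun a b h => (Prod.mk.inj h).1)]
    · ring
    · rw [Set.disjoint_left]
      rintro ⟨a, b⟩ ⟨w, hw, h1⟩ ⟨w', hw', h2⟩
      rw [Prod.mk.injEq] at h1 h2
      exact hz (h1.1.trans h2.1.symm ▸ hw')
  have hvR : v ∉ R := fun h => h.2.2.1 rfl
  rw [h1, Set.ncard_union_eq _ (Set.toFinite _) (Set.toFinite _), hpair v R hvR]
  swap
  · rw [Set.disjoint_left]
    rintro ⟨a, b⟩ ⟨h, _, _⟩ (⟨h1, h2⟩ | ⟨h1, h2⟩)
    · simp only at h h1 h2
      subst h1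
      exact hR b h2 h
    · simp only at h h1 h2
      subst h1
      exact hR a h2 h.symm
  -- edges of G
  set Nu : Set V := {w | G.Adj u w ∧ w ∉ Fl} with hNu
  have h2 : ad G = ({p : V × V | G.Adj p.1 p.2 ∧ (p.1 ∉ Fl ∧ p.1 ≠ u) ∧ (p.2 ∉ Fl ∧ p.2 ≠ u)} ∪
      ({p : V × V | G.Adj p.1 p.2 ∧ (p.1 ∈ Fl ∨ p.2 ∈ Fl)} ∪
        {p : V × V | (p.1 = u ∧ p.2 ∈ Nu) ∨ (p.2 = u ∧ p.1 ∈ Nu)})).ncard := by
    unfold ad
    congr 1
    ext ⟨a, b⟩
    simp only [mem_ofPred_eq, mem_union, hNu]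
    constructor
    · intro h
      by_cases ha : a ∈ Fl
      · exact Or.inr (Or.inl ⟨h, Or.inl ha⟩)
      by_cases hb : b ∈ Fl
      · exact Or.inr (Or.inl ⟨h, Or.inr hb⟩)
      by_cases hau : a = u
      · subst hau
        exact Or.inr (Or.inr (Or.inl ⟨rfl, h, hb⟩))
      by_cases hbu : b = u
      · subst hbu
        exact Or.inr (Or.inr (Or.inr ⟨rfl, h.symm, ha⟩))
      exact Or.inl ⟨h, ⟨ha, hau⟩, ⟨hb, hbu⟩⟩
    · rintro (h | h | ⟨rfl, h⟩ | ⟨rfl, h⟩)
      · exact h.1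
      · exact h.1
      · exact h.1
      · exact h.1.symm
  have huNu : u ∉ Nu := fun h => h.1.ne rfl
  rw [h2, Set.ncard_union_eq _ (Set.toFinite _) (Set.toFinite _),
    Set.ncard_union_eq _ (Set.toFinite _) (Set.toFinite _), hpair u Nu huNu]
  · have h3 : Nu.ncard = (if G.Adj u v then 1 else 0) + K0.ncard + R.ncard := by
      have he : Nu = (if G.Adj u v then {v} else ∅) ∪ (K0 ∪ R) := by
        ext w
        simp only [hNu, mem_ofPred_eq, mem_union]
        constructor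
        · rintro ⟨h1, h2⟩
          by_cases hwv : w = v
          · left
            rw [if_pos (hwv ▸ h1)]
            exact hwv
          · right
            by_cases hwK : w ∈ K0
            · exact Or.inl hwK
            · exact Or.inr ⟨h1, h2, hwv, hwK⟩
        · rintro (h | h | h)
          · split_ifs at h with h'
            · rw [mem_singleton_iff] at h
              subst h
              exact ⟨h', hv⟩
            · exact absurd h (Set.notMem_empty _)
          · exact ⟨(hK0 w h).1, (hK0 w h).2.1⟩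
          · exact ⟨h.1, h.2.1⟩
      rw [he, Set.ncard_union_eq _ (Set.toFinite _) (Set.toFinite _),
        Set.ncard_union_eq _ (Set.toFinite _) (Set.toFinite _)]
      · split_ifs
        · rw [Set.ncard_singleton]; ring
        · rw [Set.ncard_empty]; ring
      · rw [Set.disjoint_left]
        intro w hw hw'
        exact hw'.2.2.2 hw
      · split_ifs
        · rw [Set.disjoint_singleton_left]
          rintro (h | h)
          · exact (hK0 v h).2.2 rfl
          · exact hvR h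
        · exact Set.empty_disjoint _
    rw [h3]
    unfold wt
    ring
  · rw [Set.disjoint_left]
    rintro ⟨a, b⟩ ⟨h, h1⟩ (⟨h0, h2, h3⟩ | ⟨h0, h2, h3⟩)
    · simp only at h0 h1 h3
      rcases h1 with h1 | h1
      · exact hu (h0 ▸ h1)
      · exact h3 h1
    · simp only at h0 h1 h3
      rcases h1 with h1 | h1
      · exact h3 h1
      · exact hu (h0 ▸ h1)
  · rw [Set.disjoint_left]
    rintro ⟨a, b⟩ ⟨h, h1, h2⟩ (⟨_, h3⟩ | ⟨h3, _⟩ | ⟨h3, _⟩)
    · rcases h3 with h3 | h3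
      · exact h1.1 h3
      · exact h2.1 h3
    · exact h1.2 h3
    · exact h2.2 h3

open Classical in
theorem Cex.contract [Finite V] {r K : ℝ} (h : Cex r K G) (hu : u ∉ Fl) (hv : v ∉ Fl)
    (huv : u ≠ v) (hK0 : ∀ w ∈ K0, G.Adj u w ∧ w ∉ Fl ∧ w ≠ v)
    (hR : ∀ w ∈ nbR G Fl u v K0, ¬ G.Adj v w) {B : Set V} (hB : Conn G B)
    (hBs : B ⊆ Fl ∪ {u, v}) (huB : u ∈ B) (hvB : v ∈ B) :
    r < rel r G Fl + 2 * (if G.Adj u v then 1 else 0) + 2 * K0.ncard := by
  have h1 := card_ctr hu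
  have h2 := ad_ctr hu hv huv hK0 hR
  have h3 := h.2 _ (ctr G Fl u v K0) (ctr_minor hB hBs huB hvB) (by omega)
  have h4 := h.1
  have h5 : (Nat.card {w // w ∉ Fl ∧ w ≠ u} : ℝ) + Fl.ncard + 1 = Nat.card V := by
    exact_mod_cast h1
  have h6 : (ad (ctr G Fl u v K0) : ℝ) + wt G Fl + 2 * (if G.Adj u v then 1 else 0) +
      2 * K0.ncard = ad G := by
    rw [← h2]; push_cast; ring
  unfold rel
  rw [← h5, ← h6] at h4
  nlinarith

end ctr

/-! ### bundles -/

namespace Cell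

variable {G : SimpleGraph V} {A : Set V} (c : Cell G A)

/-- union of the flaps with attachment set `R` -/
noncomputable def bun (R : Set V) : Set V := {y | y ∈ c.H \ c.S ∧ c.fat y = R}

theorem bun_sub (R : Set V) : c.bun R ⊆ c.H \ c.S := fun _ h => h.1

theorem bun_disj {R R' : Set V} (h : R ≠ R') : Disjoint (c.bun R) (c.bun R') := by
  rw [Set.disjoint_left]
  intro y hy hy'
  exact h (hy.2.symm.trans hy'.2)

theorem bun_nonadj {R R' : Set V} (h : R ≠ R') : ∀ y ∈ c.bun R, ∀ z ∈ c.bun R', ¬ G.Adj y z := by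
  intro y hy z hz hyz
  have : z ∈ c.flap y := c.flap_closed hy.1 (c.mem_flap_self y) hz.1 hyz
  exact h (hy.2.symm.trans ((c.fat_eq this).symm.trans hz.2))

theorem flap_sub_bun {y : V} (hy : y ∈ c.H \ c.S) : c.flap y ⊆ c.bun (c.fat y) :=
  fun _ hz => ⟨c.flap_sub hy hz, c.fat_eq hz⟩

/-- value of the vertex bundle -/
noncomputable def val1 (r : ℝ) (u : V) : ℝ :=
  rel r G (c.bun {u}) + 2 * ({a | a ∈ A ∧ G.Adj u a}.ncard : ℝ)

open Classical in
/-- value of the edge bundle -/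
noncomputable def val2 (r : ℝ) (u v : V) : ℝ :=
  rel r G (c.bun {u, v}) + 2 * (if G.Adj u v then 1 else 0)

/-- value of the face bundle -/
noncomputable def val3 (r : ℝ) (u v x : V) : ℝ := rel r G (c.bun {u, v, x})

/-- common torso neighbours -/
def com (u v : V) : Set V := {x | c.TG.Adj u x ∧ c.TG.Adj v x}

open Classical in
/-- contraction inequality at a torso edge with at most two common neighbours -/
theorem contraction [Finite V] {r K : ℝ} (h : Cex r K G) {u v : V} (hu : c.Deep 7 u)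
    (huv : c.TG.Adj u v) (hcom : (c.com u v).ncard ≤ 2) {θ₁ θ₂ θ₃ : ℝ}
    (h1 : c.val1 r u ≤ θ₁) (h2' : c.val2 r u v ≤ θ₂)
    (h2 : ∀ x ∈ c.com u v, c.val2 r u x ≤ θ₂) (h3 : ∀ x ∈ c.com u v, c.val3 r u v x ≤ θ₃)
    (hθ2 : 0 ≤ θ₂) (hθ3 : 0 ≤ θ₃) : r < θ₁ + 3 * θ₂ + 2 * θ₃ := by
  obtain ⟨hne, huS, hvS, hor⟩ := id huv
  set X := c.com u v with hX
  have hXne : ∀ x ∈ X, x ≠ u ∧ x ≠ v ∧ x ∈ c.S := fun x hx =>
    ⟨hx.1.1.symm, hx.2.1.symm, hx.1.2.2.1⟩
  have hfin : X.Finite := Set.toFinite _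
  set Fx : V → Set V := fun x => c.bun {u, x} ∪ c.bun {u, v, x} with hFx
  set Fl : Set V := (c.bun {u} ∪ c.bun {u, v}) ∪ ⋃ x ∈ X, Fx x with hFl
  -- every flap with u and v as attachments is in Fl
  have hcls : ∀ w ∈ c.H \ c.S, u ∈ c.fat w → v ∈ c.fat w → w ∈ Fl := by
    intro w hw huw hvw
    by_cases hex : ∃ x ∈ c.fat w, x ≠ u ∧ x ≠ v
    · obtain ⟨x, hxw, hxu, hxv⟩ := hex
      have hfat : c.fat w = {u, v, x} := by
        symm
        apply Set.eq_of_subset_of_ncard_le _ _ (Set.toFinite _)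
        · rintro z (rfl | rfl | rfl)
          · exact huw
          · exact hvw
          · exact hxw
        · have : ({u, v, x} : Set V).ncard = 3 := by
            rw [Set.ncard_insert_of_notMem _ (Set.toFinite _), Set.ncard_pair hxv.symm]
            rintro (h | h)
            · exact hne h
            · exact hxu (Set.mem_singleton_iff.1 h).symm
          rw [this]; exact c.fat_card hw
      have hxX : x ∈ X := ⟨⟨hxu.symm, huS, hxw.1, Or.inr ⟨w, hw, huw, hxw⟩⟩,
        ⟨hxv.symm, hvS, hxw.1, Or.inr ⟨w, hw, hvw, hxw⟩⟩⟩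
      exact Or.inr (mem_biUnion hxX (Or.inr ⟨hw, hfat⟩))
    · push Not at hex
      left; right
      refine ⟨hw, ?_⟩
      ext z
      constructor
      · intro hz
        by_cases hzu : z = u
        · exact Or.inl hzu
        · exact Or.inr (hex z hz hzu)
      · rintro (rfl | rfl)
        · exact huw
        · exact hvw
  have hFlsub : Fl ⊆ c.H \ c.S := by
    rintro w ((hw | hw) | hw)
    · exact hw.1
    · exact hw.1
    · rw [mem_iUnion₂] at hw
      obtain ⟨x, _, hw | hw⟩ := hw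
      · exact hw.1
      · exact hw.1
  set KA : Set V := {a | a ∈ A ∧ G.Adj u a} with hKA
  set KX : Set V := {x | x ∈ X ∧ G.Adj u x} with hKX
  have hA : ∀ a ∈ A, a ∉ c.H := fun a ha haH => Set.disjoint_left.1 c.disjA haH ha
  have huFl : u ∉ Fl := fun h => (hFlsub h).2 huS
  have hvFl : v ∉ Fl := fun h => (hFlsub h).2 hvS
  have hK0 : ∀ w ∈ KA ∪ KX, G.Adj u w ∧ w ∉ Fl ∧ w ≠ v := by
    rintro w (hw | hw)
    · exact ⟨hw.2, fun h => hA w hw.1 (hFlsub h).1, fun h => hA w hw.1 (h ▸ c.S_sub hvS)⟩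
    · exact ⟨hw.2, fun h => (hFlsub h).2 (hXne w hw.1).2.2, (hXne w hw.1).2.1⟩
  have hR : ∀ w ∈ nbR G Fl u v (KA ∪ KX), ¬ G.Adj v w := by
    rintro w ⟨hw1, hw2, hw3, hw4⟩ hvw
    have hwA : w ∉ A := fun h => hw4 (Or.inl ⟨h, hw1⟩)
    have hwH : w ∈ c.H := (hu.nb hw1 hwA).mem_H (by omega)
    by_cases hwS : w ∈ c.S
    · exact hw4 (Or.inr ⟨⟨⟨hw1.ne, huS, hwS, Or.inl hw1⟩, ⟨hvw.ne, hvS, hwS, Or.inl hvw⟩⟩, hw1⟩)
    · exact hw2 (hcls w ⟨hwH, hwS⟩ ⟨huS, w, c.mem_flap_self w, hw1.symm⟩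
        ⟨hvS, w, c.mem_flap_self w, hvw.symm⟩)
  obtain ⟨B, hB, hBs, huB, hvB⟩ : ∃ B, Conn G B ∧ B ⊆ Fl ∪ {u, v} ∧ u ∈ B ∧ v ∈ B := by
    rcases hor with hadj | ⟨y, hy, huy, hvy⟩
    · exact ⟨{u, v}, conn_pair hadj, subset_union_right, Or.inl rfl, Or.inr rfl⟩
    · have hflap : c.flap y ⊆ Fl := by
        intro z hz
        exact hcls z (c.flap_sub hy hz) (by rw [c.fat_eq hz]; exact huy)
          (by rw [c.fat_eq hz]; exact hvy)
      obtain ⟨p, hp, hpu⟩ := huy.2
      obtain ⟨q, hq, hqv⟩ := hvy.2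
      refine ⟨insert v (insert u (c.flap y)), ?_, ?_, ?_, ?_⟩
      · exact ((c.flap_conn hy).insert hp hpu).insert (Or.inr hq) hqv
      · rintro z (rfl | rfl | hz)
        · exact Or.inr (Or.inr rfl)
        · exact Or.inr (Or.inl rfl)
        · exact Or.inl (hflap hz)
      · exact Or.inr (Or.inl rfl)
      · exact Or.inl rfl
  have key := h.contract huFl hvFl hne hK0 hR hB hBs huB hvB
  -- additivity
  have hsub1 : ∀ (X' : Set V), X' ⊆ X → X'.Finite →
      rel r G (⋃ x ∈ X', Fx x) + 2 * ({x | x ∈ X' ∧ G.Adj u x}.ncard : ℝ) ≤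
        X'.ncard * (θ₂ + θ₃) := by
    intro X' hX' hf
    induction X', hf using Set.Finite.induction_on with
    | empty => simp [rel_empty]
    | @insert x X' hx hf ih =>
      have ih' := ih ((Set.subset_insert _ _).trans hX')
      have hxX : x ∈ X := hX' (Set.mem_insert _ _)
      have hX'X : X' ⊆ X := (Set.subset_insert _ _).trans hX'
      have hne1 : ({u, x} : Set V) ≠ {u, v, x} := by
        intro he
        have : v ∈ ({u, x} : Set V) := by rw [he]; exact Or.inr (Or.inl rfl)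
        rcases this with h | h
        · exact hne h.symm
        · exact (hXne x hxX).2.1 (Set.mem_singleton_iff.1 h).symm
      have hdiff : ∀ x' ∈ X', ∀ R ∈ ({{u, x}, {u, v, x}} : Set (Set V)),
          ∀ R' ∈ ({{u, x'}, {u, v, x'}} : Set (Set V)), R ≠ R' := by
        intro x' hx' R hR R' hR' he
        have hxx' : x' ≠ x := fun h => hx (h ▸ hx')
        have hx'X := hXne x' (hX'X hx')
        have h1 : x' ∈ R' := by
          rcases hR' with rfl | hR'
          · exact Or.inr rfl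
          · rw [Set.mem_singleton_iff] at hR'; subst hR'; exact Or.inr (Or.inr rfl)
        rw [← he] at h1
        rcases hR with rfl | hR
        · rcases h1 with h1 | h1
          · exact hx'X.1 h1
          · exact hxx' h1
        · rw [Set.mem_singleton_iff] at hR; subst hR
          rcases h1 with h1 | h1 | h1
          · exact hx'X.1 h1
          · exact hx'X.2.1 h1
          · exact hxx' h1
      have hu1 : (⋃ z ∈ insert x X', Fx z) = Fx x ∪ ⋃ z ∈ X', Fx z := by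
        rw [Set.biUnion_insert]
      have hdisj : Disjoint (Fx x) (⋃ z ∈ X', Fx z) := by
        rw [Set.disjoint_left]
        intro w hw hw'
        rw [mem_iUnion₂] at hw'
        obtain ⟨x', hx', hw'⟩ := hw'
        rcases hw with hw | hw <;> rcases hw' with hw' | hw'
        · exact hdiff x' hx' _ (Or.inl rfl) _ (Or.inl rfl) (hw.2.symm.trans hw'.2)
        · exact hdiff x' hx' _ (Or.inl rfl) _ (Or.inr rfl) (hw.2.symm.trans hw'.2)
        · exact hdiff x' hx' _ (Or.inr rfl) _ (Or.inl rfl) (hw.2.symm.trans hw'.2)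
        · exact hdiff x' hx' _ (Or.inr rfl) _ (Or.inr rfl) (hw.2.symm.trans hw'.2)
      have hnadj : ∀ y ∈ Fx x, ∀ z ∈ (⋃ z ∈ X', Fx z), ¬ G.Adj y z := by
        intro w hw z hz
        rw [mem_iUnion₂] at hz
        obtain ⟨x', hx', hw'⟩ := hz
        rcases hw with hw | hw <;> rcases hw' with hw' | hw'
        · exact c.bun_nonadj (hdiff x' hx' _ (Or.inl rfl) _ (Or.inl rfl)) w hw z hw'
        · exact c.bun_nonadj (hdiff x' hx' _ (Or.inl rfl) _ (Or.inr rfl)) w hw z hw'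
        · exact c.bun_nonadj (hdiff x' hx' _ (Or.inr rfl) _ (Or.inl rfl)) w hw z hw'
        · exact c.bun_nonadj (hdiff x' hx' _ (Or.inr rfl) _ (Or.inr rfl)) w hw z hw'
      rw [hu1, rel_union r G _ _ hdisj hnadj,
        rel_union r G _ _ (c.bun_disj hne1) (c.bun_nonadj hne1),
        Set.ncard_insert_of_notMem hx hf]
      have hcnt : ({z | z ∈ insert x X' ∧ G.Adj u z}.ncard : ℝ) =
          {z | z ∈ X' ∧ G.Adj u z}.ncard + (if G.Adj u x then 1 else 0) := by
        by_cases hadj : G.Adj u x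
        · have : {z | z ∈ insert x X' ∧ G.Adj u z} = insert x {z | z ∈ X' ∧ G.Adj u z} := by
            ext z
            simp only [mem_ofPred_eq, mem_insert_iff]
            constructor
            · rintro ⟨rfl | h, h'⟩
              · exact Or.inl rfl
              · exact Or.inr ⟨h, h'⟩
            · rintro (rfl | h)
              · exact ⟨Or.inl rfl, hadj⟩
              · exact ⟨Or.inr h.1, h.2⟩
          rw [this, Set.ncard_insert_of_notMem (fun h => hx h.1) (Set.toFinite _), if_pos hadj]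
          push_cast; ring
        · have : {z | z ∈ insert x X' ∧ G.Adj u z} = {z | z ∈ X' ∧ G.Adj u z} := by
            ext z
            simp only [mem_ofPred_eq, mem_insert_iff]
            constructor
            · rintro ⟨rfl | h, h'⟩
              · exact absurd h' hadj
              · exact ⟨h, h'⟩
            · rintro h
              exact ⟨Or.inr h.1, h.2⟩
          rw [this, if_neg hadj]; ring
      rw [hcnt]
      have hv2 := h2 x hxX
      have hv3 := h3 x hxX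
      unfold val2 at hv2
      unfold val3 at hv3
      push_cast
      nlinarith
  have hX2 := hsub1 X subset_rfl hfin
  have hne0 : ({u} : Set V) ≠ {u, v} := by
    intro he
    have : v ∈ ({u} : Set V) := by rw [he]; exact Or.inr rfl
    exact hne (Set.mem_singleton_iff.1 this).symm
  have hdiff : ∀ x ∈ X, ∀ R ∈ ({{u}, {u, v}} : Set (Set V)),
      ∀ R' ∈ ({{u, x}, {u, v, x}} : Set (Set V)), R ≠ R' := by
    intro x hx R hR R' hR' he
    have hxX := hXne x hx
    have h1 : x ∈ R' := by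
      rcases hR' with rfl | hR'
      · exact Or.inr rfl
      · rw [Set.mem_singleton_iff] at hR'; subst hR'; exact Or.inr (Or.inr rfl)
    rw [← he] at h1
    rcases hR with rfl | hR
    · exact hxX.1 h1
    · rw [Set.mem_singleton_iff] at hR; subst hR
      rcases h1 with h1 | h1
      · exact hxX.1 h1
      · exact hxX.2.1 h1
  have hdisj : Disjoint (c.bun {u} ∪ c.bun {u, v}) (⋃ z ∈ X, Fx z) := by
    rw [Set.disjoint_left]
    intro w hw hw'
    rw [mem_iUnion₂] at hw'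
    obtain ⟨x', hx', hw'⟩ := hw'
    rcases hw with hw | hw <;> rcases hw' with hw' | hw'
    · exact hdiff x' hx' _ (Or.inl rfl) _ (Or.inl rfl) (hw.2.symm.trans hw'.2)
    · exact hdiff x' hx' _ (Or.inl rfl) _ (Or.inr rfl) (hw.2.symm.trans hw'.2)
    · exact hdiff x' hx' _ (Or.inr rfl) _ (Or.inl rfl) (hw.2.symm.trans hw'.2)
    · exact hdiff x' hx' _ (Or.inr rfl) _ (Or.inr rfl) (hw.2.symm.trans hw'.2)
  have hnadj : ∀ y ∈ (c.bun {u} ∪ c.bun {u, v}), ∀ z ∈ (⋃ z ∈ X, Fx z), ¬ G.Adj y z := by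
    intro w hw z hz
    rw [mem_iUnion₂] at hz
    obtain ⟨x', hx', hw'⟩ := hz
    rcases hw with hw | hw <;> rcases hw' with hw' | hw'
    · exact c.bun_nonadj (hdiff x' hx' _ (Or.inl rfl) _ (Or.inl rfl)) w hw z hw'
    · exact c.bun_nonadj (hdiff x' hx' _ (Or.inl rfl) _ (Or.inr rfl)) w hw z hw'
    · exact c.bun_nonadj (hdiff x' hx' _ (Or.inr rfl) _ (Or.inl rfl)) w hw z hw'
    · exact c.bun_nonadj (hdiff x' hx' _ (Or.inr rfl) _ (Or.inr rfl)) w hw z hw'
  have hrelFl : rel r G Fl = rel r G (c.bun {u}) + rel r G (c.bun {u, v}) +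
      rel r G (⋃ x ∈ X, Fx x) := by
    rw [hFl, rel_union r G _ _ hdisj hnadj,
      rel_union r G _ _ (c.bun_disj hne0) (c.bun_nonadj hne0)]
  have hKcard : ((KA ∪ KX).ncard : ℝ) = KA.ncard + KX.ncard := by
    rw [Set.ncard_union_eq _ (Set.toFinite _) (Set.toFinite _)]
    · push_cast; ring
    · rw [Set.disjoint_left]
      intro w hw hw'
      exact hA w hw.1 (c.S_sub (hXne w hw'.1).2.2)
  rw [hrelFl, hKcard] at key
  unfold val1 at h1
  unfold val2 at h2'
  have hc2 : (X.ncard : ℝ) ≤ 2 := by exact_mod_cast hcom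
  have h5 : (X.ncard : ℝ) * (θ₂ + θ₃) ≤ 2 * (θ₂ + θ₃) :=
    mul_le_mul_of_nonneg_right hc2 (by linarith)
  have h6 : KX = {x | x ∈ X ∧ G.Adj u x} := rfl
  rw [← h6] at hX2
  linarith

end Cell

end Pool.Agent.Lib.MP_4d119b_lc
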