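import Pool.Agent.Lib.MP_4d119b_lc.Iface

/-! Module LemmaX: crossing connections near `K_2 + 3 K_1` and linking to the ports. -/

set_option autoImplicit false

namespace Pool.Agent.Lib.MP_4d119b_lc

open Set

namespace LX

variable {V : Type} {T : SimpleGraph V} {S : Set V}

/-- the graph `T[S]` -/
def restr (T : SimpleGraph V) (S : Set V) : SimpleGraph V where
  Adj a b := T.Adj a b ∧ a ∈ S ∧ b ∈ S
  symm := ⟨fun _ _ h => ⟨h.1.symm, h.2.2, h.2.1⟩⟩
  loopless := ⟨fun _ h => h.1.ne rfl⟩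

theorem rin_restr {C : Finset V} {x y : V} (h : RIn T (S \ ↑C) x y) :
    RIn (restr T S) (↑C)ᶜ x y := by
  induction h with
  | refl => exact RIn.refl _ _ _
  | tail _ hbc ih => exact ih.tail ⟨hbc.1, hbc.2.1.1, hbc.2.2.1⟩ hbc.2.1.2 hbc.2.2.2

/-- Menger's theorem inside a set -/
theorem menger_in [Finite V] (A B : Set V) (hA : A ⊆ S) (k : ℕ)
    (h : ∀ C : Finset V, C.card < k → ∃ a ∈ A, ∃ b ∈ B, a ∉ C ∧ b ∉ C ∧ RIn T (S \ ↑C) a b) :
    ∃ P : Fin k → GP T, (∀ i, (P i).p 0 ∈ A ∧ (P i).p (P i).len ∈ B ∧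
      (∀ j, 0 < j → j ≤ (P i).len → (P i).p j ∉ A) ∧ (P i).supp ⊆ S) ∧
      ∀ i j, i ≠ j → Disjoint (P i).supp (P j).supp := by
  obtain ⟨P, h1, h2⟩ := menger (restr T S) A B k (by
    intro C hC
    obtain ⟨a, ha, b, hb, haC, hbC, hab⟩ := h C hC
    exact ⟨a, ha, b, hb, haC, hbC, rin_restr hab⟩)
  refine ⟨fun i => (P i).mapG (fun j hj => ((P i).adj j hj).1), ?_, ?_⟩
  · intro i
    refine ⟨(h1 i).1, (h1 i).2.1, (h1 i).2.2.1, ?_⟩
    rintro v ⟨j, hj, rfl⟩
    rcases j with _ | j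
    · exact hA (h1 i).1
    · exact ((P i).adj j hj).2.2
  · intro i j hij
    exact h2 i j hij

/-- Menger's theorem towards a family of terminals -/
theorem menger_to [Finite V] (A : Set V) (hA : A ⊆ S) (k : ℕ) (z : Fin k → V)
    (h : ∀ C : Finset V, C.card < k → ∃ a ∈ A, ∃ i, a ∉ C ∧ z i ∉ C ∧ RIn T (S \ ↑C) a (z i)) :
    ∃ P : Fin k → GP T, (∀ i, (P i).p 0 ∈ A ∧ (P i).p (P i).len = z i ∧
      (∀ j, 0 < j → j ≤ (P i).len → (P i).p j ∉ A) ∧ (P i).supp ⊆ S) ∧
      ∀ i j, i ≠ j → Disjoint (P i).supp (P j).supp := by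
  obtain ⟨P, h1, h2⟩ := menger_in (T := T) (S := S) A (range z) hA k (by
    intro C hC
    obtain ⟨a, ha, i, haC, hbC, hab⟩ := h C hC
    exact ⟨a, ha, z i, ⟨i, rfl⟩, haC, hbC, hab⟩)
  have h3 : ∀ i, ∃ j, z j = (P i).p (P i).len := fun i => (h1 i).2.1
  choose e he using h3
  have hinj : Function.Injective e := by
    intro i j hij
    by_contra hne
    have h4 := h2 i j hne
    apply Set.disjoint_left.1 h4 ((P i).mem_supp le_rfl)
    rw [← he i, hij, he j]
    exact (P j).mem_supp le_rfl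
  have hbij : Function.Bijective e := Finite.injective_iff_bijective.1 hinj
  set e' := Equiv.ofBijective e hbij
  refine ⟨fun j => P (e'.symm j), ?_, ?_⟩
  · intro j
    refine ⟨(h1 _).1, ?_, (h1 _).2.2.1, (h1 _).2.2.2⟩
    rw [← he]
    congr 1
    exact e'.apply_symm_apply j
  · intro i j hij
    exact h2 _ _ (fun h => hij (e'.symm.injective h))

/-- the required crossing connection -/
def Good (T : SimpleGraph V) (S : Set V) (a a' b b' : V) : Prop :=
  ∃ C D : Set V, Conn T C ∧ Conn T D ∧ C ⊆ S ∧ D ⊆ S ∧ Disjoint C D ∧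
      a ∈ C ∧ a' ∈ C ∧ b ∈ D ∧ b' ∈ D

theorem Good.swap {a a' b b' : V} (h : Good T S a a' b b') : Good T S b b' a a' := by
  obtain ⟨C, D, h1, h2, h3, h4, h5, h6, h7, h8, h9⟩ := h
  exact ⟨D, C, h2, h1, h4, h3, h5.symm, h8, h9, h6, h7⟩

theorem Good.flip {a a' b b' : V} (h : Good T S a a' b b') : Good T S a' a b b' := by
  obtain ⟨C, D, h1, h2, h3, h4, h5, h6, h7, h8, h9⟩ := h
  exact ⟨C, D, h1, h2, h3, h4, h5, h7, h6, h8, h9⟩

theorem Good.flip' {a a' b b' : V} (h : Good T S a a' b b') : Good T S a a' b' b := by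
  obtain ⟨C, D, h1, h2, h3, h4, h5, h6, h7, h8, h9⟩ := h
  exact ⟨C, D, h1, h2, h3, h4, h5, h6, h7, h9, h8⟩

/-- first case: `v` starts the path to `a`, `u` is unused -/
theorem case1 {A A' B B' : Set V} {a a' b b' p p' q q' u : V} (hA : Conn T A) (hA' : Conn T A')
    (hB : Conn T B) (hB' : Conn T B') (hAS : A ⊆ S) (hAS' : A' ⊆ S) (hBS : B ⊆ S) (hBS' : B' ⊆ S)
    (ha : a ∈ A) (ha' : a' ∈ A') (hb : b ∈ B) (hb' : b' ∈ B')
    (hp : p ∈ A) (hp' : p' ∈ A') (hq : q ∈ B) (hq' : q' ∈ B')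
    (hpp : T.Adj p p') (hqu : T.Adj u q) (hqu' : T.Adj u q') (huS : u ∈ S)
    (huA : u ∉ A) (huA' : u ∉ A') (d1 : Disjoint A B) (d2 : Disjoint A B') (d3 : Disjoint A' B)
    (d4 : Disjoint A' B') : Good T S a a' b b' := by
  refine ⟨A ∪ A', B ∪ {u} ∪ B', hA.union_touch hA' ⟨p, hp, p', hp', hpp⟩, ?_, ?_, ?_, ?_,
    Or.inl ha, Or.inr ha', Or.inl (Or.inl hb), Or.inr hb'⟩
  · exact (hB.union_touch (conn_singleton T u) ⟨q, hq, u, rfl, hqu.symm⟩).union_touch hB'
      ⟨u, Or.inr rfl, q', hq', hqu'⟩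
  · exact union_subset hAS hAS'
  · exact union_subset (union_subset hBS (by simpa using huS)) hBS'
  · simp only [disjoint_union_left, disjoint_union_right, disjoint_singleton_right]
    exact ⟨⟨⟨d1, d3⟩, fun h => h.elim huA huA'⟩, d2, d4⟩

/-- second case: `u` and `v` start paths to different pairs -/
theorem case2 {A A' B B' : Set V} {a a' b b' p p' q q' : V} (hA : Conn T A) (hA' : Conn T A')
    (hB : Conn T B) (hB' : Conn T B') (hAS : A ⊆ S) (hAS' : A' ⊆ S) (hBS : B ⊆ S) (hBS' : B' ⊆ S)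
    (ha : a ∈ A) (ha' : a' ∈ A') (hb : b ∈ B) (hb' : b' ∈ B')
    (hp : p ∈ A) (hp' : p' ∈ A') (hq : q ∈ B) (hq' : q' ∈ B')
    (hpp : T.Adj p p') (hqq : T.Adj q q') (d1 : Disjoint A B) (d2 : Disjoint A B')
    (d3 : Disjoint A' B) (d4 : Disjoint A' B') : Good T S a a' b b' := by
  refine ⟨A ∪ A', B ∪ B', hA.union_touch hA' ⟨p, hp, p', hp', hpp⟩,
    hB.union_touch hB' ⟨q, hq, q', hq', hqq⟩, union_subset hAS hAS', union_subset hBS hBS', ?_,
    Or.inl ha, Or.inr ha', Or.inl hb, Or.inr hb'⟩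
  simp only [disjoint_union_left, disjoint_union_right]
  exact ⟨⟨d1, d3⟩, d2, d4⟩

/-- final configuration: `E` is attached to an inner vertex `P.p i` of the path `P` from `u` to
`a` -/
theorem finish (P : GP T) {W E B B' : Set V} {a' b b' u v p q q' : V} (i : ℕ) (hi : 0 < i)
    (hi' : i ≤ P.len) (hu : P.p 0 = u) (hPS : P.supp ⊆ S) (hW : Conn T W) (hWS : W ⊆ S)
    (hvW : v ∈ W) (haW : a' ∈ W) (hPW : Disjoint P.supp W)
    (hE : Conn T E) (hES : E ⊆ S) (hPE : Disjoint P.supp E) (hWE : Disjoint W E)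
    (hpE : p ∈ E) (hvp : T.Adj v p) (hEw : Touch T E {P.p i})
    (hB : Conn T B) (hBS : B ⊆ S) (hb : b ∈ B) (hq : q ∈ B) (huq : T.Adj u q)
    (hB' : Conn T B') (hBS' : B' ⊆ S) (hb' : b' ∈ B') (hq' : q' ∈ B') (huq' : T.Adj u q')
    (d1 : Disjoint P.supp B) (d2 : Disjoint P.supp B') (d3 : Disjoint W B) (d4 : Disjoint W B')
    (d5 : Disjoint E B) (d6 : Disjoint E B') : Good T S (P.p P.len) a' b b' := by
  have hseg := P.seg_conn hi' le_rfl
  set Q : Set V := {v | ∃ j, i ≤ j ∧ j ≤ P.len ∧ P.p j = v} with hQ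
  have hQP : Q ⊆ P.supp := by
    rintro w ⟨j, _, h2, rfl⟩
    exact P.mem_supp h2
  have huP : u ∈ P.supp := hu ▸ P.mem_supp (Nat.zero_le _)
  have huQ : u ∉ Q := by
    rintro ⟨j, h1, h2, h3⟩
    have := P.inj j h2 0 (Nat.zero_le _) (h3.trans hu.symm)
    omega
  refine case1 (A := Q ∪ E) (A' := W) (B := B) (B' := B') (u := u) (p := p) (p' := v) ?_ hW hB hB'
    (union_subset (hQP.trans hPS) hES) hWS hBS hBS' (Or.inl ⟨P.len, hi', le_rfl, rfl⟩) haW hb hb'
    (Or.inr hpE) hvW hq hq' hvp.symm huq huq' (hPS huP) ?_ ?_ ?_ ?_ d3 d4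
  · obtain ⟨e, he, w, hw, hew⟩ := hEw
    exact hseg.union_touch hE ⟨w, ⟨i, le_rfl, hi', (mem_singleton_iff.1 hw).symm⟩, e, he, hew.symm⟩
  · rintro (h | h)
    · exact huQ h
    · exact Set.disjoint_left.1 hPE huP h
  · exact Set.disjoint_left.1 hPW huP
  · exact disjoint_union_left.2 ⟨d1.mono_left hQP, d5⟩
  · exact disjoint_union_left.2 ⟨d2.mono_left hQP, d6⟩

/-- final configuration, both possibilities -/
theorem finish2 (P P' : GP T) {E B B' : Set V} {b b' u v w p q q' : V}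
    (hu : P.p 0 = u) (hv : P'.p 0 = v) (hPS : P.supp ⊆ S) (hPS' : P'.supp ⊆ S)
    (hPP : Disjoint P.supp P'.supp) (hw : w ∈ P.supp ∪ P'.supp) (hwu : w ≠ u) (hwv : w ≠ v)
    (hE : Conn T E) (hES : E ⊆ S) (hPE : Disjoint P.supp E) (hPE' : Disjoint P'.supp E)
    (hpE : p ∈ E) (hup : T.Adj u p) (hvp : T.Adj v p) (hEw : Touch T E {w})
    (hB : Conn T B) (hBS : B ⊆ S) (hb : b ∈ B) (hq : q ∈ B) (huq : T.Adj u q) (hvq : T.Adj v q)
    (hB' : Conn T B') (hBS' : B' ⊆ S) (hb' : b' ∈ B') (hq' : q' ∈ B') (huq' : T.Adj u q')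
    (hvq' : T.Adj v q')
    (d1 : Disjoint P.supp B) (d2 : Disjoint P.supp B') (d3 : Disjoint P'.supp B)
    (d4 : Disjoint P'.supp B')
    (d5 : Disjoint E B) (d6 : Disjoint E B') :
    Good T S (P.p P.len) (P'.p P'.len) b b' := by
  rcases hw with ⟨i, hi, rfl⟩ | ⟨i, hi, rfl⟩
  · have h0 : 0 < i := by
      rcases Nat.eq_zero_or_pos i with h | h
      · subst h; exact absurd hu hwu
      · exact h
    exact finish P (W := P'.supp) (v := v) i h0 hi hu hPS P'.supp_conn hPS'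
      (hv ▸ P'.mem_supp (Nat.zero_le _)) (P'.mem_supp le_rfl) hPP hE hES hPE hPE' hpE hvp hEw
      hB hBS hb hq huq hB' hBS' hb' hq' huq' d1 d2 d3 d4 d5 d6
  · have h0 : 0 < i := by
      rcases Nat.eq_zero_or_pos i with h | h
      · subst h; exact absurd hv hwv
      · exact h
    exact (finish P' (W := P.supp) (v := u) i h0 hi hv hPS' P.supp_conn hPS
      (hu ▸ P.mem_supp (Nat.zero_le _)) (P.mem_supp le_rfl) hPP.symm hE hES hPE' hPE hpE hup hEw
      hB hBS hb hq hvq hB' hBS' hb' hq' hvq' d3 d4 d1 d2 d5 d6).flip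

/-- two disjoint connected sets in the component `K`: one containing `z` and one of `x`, `y`, the
other the other of `x`, `y` and a vertex of `Att` -/
theorem two_paths [Finite V] {K Att : Set V} {x y z : V} (hK : Conn T K) (hxK : x ∈ K)
    (hyK : y ∈ K) (hzK : z ∈ K) (hxy : x ≠ y)
    (h : ∀ C : Finset V, C.card < 2 → ∀ a ∈ K, a ∉ C →
      (z ∉ C ∧ RIn T (K \ ↑C) a z) ∨ ∃ b ∈ Att, b ∉ C ∧ RIn T (K \ ↑C) a b) :
    ∃ (x' y' : V) (P Q : Set V), (x' = x ∨ x' = y) ∧ (y' = x ∨ y' = y) ∧ Conn T P ∧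
      Conn T Q ∧ P ⊆ K ∧ Q ⊆ K ∧
      Disjoint P Q ∧ x' ∈ P ∧ z ∈ P ∧ y' ∈ Q ∧ ∃ b ∈ Q, b ∈ Att := by
  classical
  obtain ⟨P, h1, h2⟩ := menger_in (T := T) (S := K) {x, y} (insert z Att)
    (by rintro w (rfl | rfl) <;> assumption) 2 (by
      intro C hC
      obtain ⟨a, ha, haK, haC⟩ : ∃ a, (a = x ∨ a = y) ∧ a ∈ K ∧ a ∉ C := by
        by_cases hxC : x ∈ C
        · refine ⟨y, Or.inr rfl, hyK, ?_⟩
          intro hyC
          have : ({x, y} : Finset V) ⊆ C := by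
            intro w hw
            simp only [Finset.mem_insert, Finset.mem_singleton] at hw
            rcases hw with rfl | rfl <;> assumption
          have h3 := Finset.card_le_card this
          rw [Finset.card_pair hxy] at h3
          omega
        · exact ⟨x, Or.inl rfl, hxK, hxC⟩
      rcases h C hC a haK haC with h3 | ⟨b, hb, hbC, hab⟩
      · exact ⟨a, ha, z, Or.inl rfl, haC, h3.1, h3.2⟩
      · exact ⟨a, ha, b, Or.inr hb, haC, hbC, hab⟩)
  have key : ∀ (i j : Fin 2), i ≠ j → z ∈ (P i).supp →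
      ∃ (x' y' : V) (P Q : Set V), (x' = x ∨ x' = y) ∧ (y' = x ∨ y' = y) ∧ Conn T P ∧
      Conn T Q ∧ P ⊆ K ∧ Q ⊆ K ∧
      Disjoint P Q ∧ x' ∈ P ∧ z ∈ P ∧ y' ∈ Q ∧ ∃ b ∈ Q, b ∈ Att := by
    intro i j hij hz
    refine ⟨(P i).p 0, (P j).p 0, (P i).supp, (P j).supp, (h1 i).1, (h1 j).1, (P i).supp_conn,
      (P j).supp_conn, (h1 i).2.2.2, (h1 j).2.2.2, h2 i j hij, (P i).mem_supp (Nat.zero_le _), hz,
      (P j).mem_supp (Nat.zero_le _), (P j).p (P j).len, (P j).mem_supp le_rfl, ?_⟩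
    rcases (h1 j).2.1 with h3 | h3
    · exact absurd ((P j).mem_supp le_rfl) (Set.disjoint_left.1 (h2 i j hij) (h3 ▸ hz))
    · exact h3
  by_cases hz0 : z ∈ (P 0).supp
  · exact key 0 1 (by decide) hz0
  by_cases hz1 : z ∈ (P 1).supp
  · exact key 1 0 (by decide) hz1
  -- a path from z to the union
  obtain ⟨R, hR0, hR1, hRK, _, hRB⟩ :=
    (hK.2 z hzK ((P 0).p 0) ((h1 0).2.2.2 ((P 0).mem_supp (Nat.zero_le _)))).exists_ABpath
    (A := {z}) (B := (P 0).supp ∪ (P 1).supp) hzK rfl (Or.inl ((P 0).mem_supp (Nat.zero_le _)))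
  have hend : ∀ i, (P i).p (P i).len ∈ Att := by
    intro i
    rcases (h1 i).2.1 with h3 | h3
    · exfalso
      have h4 := (P i).mem_supp le_rfl
      rw [h3] at h4
      fin_cases i
      · exact hz0 h4
      · exact hz1 h4
    · exact h3
  have key2 : ∀ (i j : Fin 2), i ≠ j → R.p R.len ∈ (P i).supp →
      ((P 0).supp ∪ (P 1).supp = (P i).supp ∪ (P j).supp) →
      ∃ (x' y' : V) (P Q : Set V), (x' = x ∨ x' = y) ∧ (y' = x ∨ y' = y) ∧ Conn T P ∧
      Conn T Q ∧ P ⊆ K ∧ Q ⊆ K ∧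
      Disjoint P Q ∧ x' ∈ P ∧ z ∈ P ∧ y' ∈ Q ∧ ∃ b ∈ Q, b ∈ Att := by
    intro i j hij hR heq
    refine ⟨(P i).p 0, (P j).p 0, (P i).supp ∪ R.supp, (P j).supp, (h1 i).1, (h1 j).1,
      (P i).supp_conn.union R.supp_conn ⟨_, hR, R.mem_supp le_rfl⟩,
      (P j).supp_conn, union_subset (h1 i).2.2.2 hRK, (h1 j).2.2.2, ?_,
      Or.inl ((P i).mem_supp (Nat.zero_le _)), Or.inr ?_,
      (P j).mem_supp (Nat.zero_le _), (P j).p (P j).len, (P j).mem_supp le_rfl, hend j⟩
    · rw [disjoint_union_left]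
      refine ⟨h2 i j hij, ?_⟩
      rw [Set.disjoint_left]
      rintro w ⟨l, hl, rfl⟩ hw
      rcases Nat.lt_or_ge l R.len with h5 | h5
      · exact hRB l h5 (heq ▸ Or.inr hw)
      · have : l = R.len := by omega
        subst this
        exact Set.disjoint_left.1 (h2 i j hij) hR hw
    · have : R.p 0 = z := hR0
      rw [← this]
      exact R.mem_supp (Nat.zero_le _)
  rcases hR1 with h5 | h5
  · exact key2 0 1 (by decide) h5 rfl
  · exact key2 1 0 (by decide) h5 (union_comm _ _)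

/-- third case: `u` and `v` start paths to the same pair -/
theorem case3 [Finite V] (P P' Q Q' : GP T) {u v y : V}
    (hu : P.p 0 = u) (hv : P'.p 0 = v) (hPS : P.supp ⊆ S) (hPS' : P'.supp ⊆ S)
    (hQS : Q.supp ⊆ S) (hQS' : Q'.supp ⊆ S)
    (dPP : Disjoint P.supp P'.supp) (dPQ : Disjoint P.supp Q.supp) (dPQ' : Disjoint P.supp Q'.supp)
    (dPQ2 : Disjoint P'.supp Q.supp) (dPQ2' : Disjoint P'.supp Q'.supp)
    (dQQ : Disjoint Q.supp Q'.supp) (huv : T.Adj u v)
    (huq : T.Adj u (Q.p 0)) (hvq : T.Adj v (Q.p 0)) (huq' : T.Adj u (Q'.p 0))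
    (hvq' : T.Adj v (Q'.p 0)) (huy : T.Adj u y) (hvy : T.Adj v y) (hyS : y ∈ S)
    (hyP : y ∉ P.supp) (hyP' : y ∉ P'.supp) (hyQ : y ∉ Q.supp) (hyQ' : y ∉ Q'.supp)
    (hstar : ∀ C : Finset V, C.card ≤ 3 → ∀ x ∈ S, x ∉ C →
      ∃ t, (t = P.p P.len ∨ t = P'.p P'.len ∨ t = Q.p Q.len ∨ t = Q'.p Q'.len) ∧ t ∉ C ∧
        RIn T (S \ ↑C) x t) :
    Good T S (P.p P.len) (P'.p P'.len) (Q.p Q.len) (Q'.p Q'.len) := by
  classical
  set W : Set V := P.supp ∪ P'.supp with hW
  set N : Set V := S \ W with hN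
  have hQN : Q.supp ⊆ N := fun w hw => ⟨hQS hw, fun h => h.elim
    (fun h => Set.disjoint_left.1 dPQ h hw) (fun h => Set.disjoint_left.1 dPQ2 h hw)⟩
  have hQN' : Q'.supp ⊆ N := fun w hw => ⟨hQS' hw, fun h => h.elim
    (fun h => Set.disjoint_left.1 dPQ' h hw) (fun h => Set.disjoint_left.1 dPQ2' h hw)⟩
  have hyN : y ∈ N := ⟨hyS, fun h => h.elim hyP hyP'⟩
  have huP : u ∈ P.supp := hu ▸ P.mem_supp (Nat.zero_le _)
  have hvP : v ∈ P'.supp := hv ▸ P'.mem_supp (Nat.zero_le _)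
  -- the two ends in the same component
  by_cases hsame : Q'.p Q'.len ∈ comp T N (Q.p Q.len)
  · refine ⟨W, comp T N (Q.p Q.len), P.supp_conn.union_touch P'.supp_conn ⟨u, huP, v, hvP, huv⟩,
      comp_conn (hQN (Q.mem_supp le_rfl)), union_subset hPS hPS',
      (comp_subset (hQN (Q.mem_supp le_rfl))).trans sdiff_subset, ?_,
      Or.inl (P.mem_supp le_rfl), Or.inr (P'.mem_supp le_rfl), mem_comp_self, hsame⟩
    rw [Set.disjoint_left]
    intro w hw hw'
    exact (comp_subset (hQN (Q.mem_supp le_rfl)) hw').2 hw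
  -- exits from a component
  have hexit : ∀ (K : Set V), K = comp T N y → ∀ C : Finset V, C.card < 2 → ∀ a ∈ K, a ∉ C →
      (Q.p Q.len ∈ K ∧ Q.p Q.len ∉ C ∧ RIn T (K \ ↑C) a (Q.p Q.len)) ∨
      (Q'.p Q'.len ∈ K ∧ Q'.p Q'.len ∉ C ∧ RIn T (K \ ↑C) a (Q'.p Q'.len)) ∨
      ∃ b w, b ∈ K ∧ b ∉ C ∧ T.Adj b w ∧ w ∈ W ∧ w ≠ u ∧ w ≠ v ∧ RIn T (K \ ↑C) a b := by
    rintro K rfl C hC a haK haC
    have haN : a ∈ N := comp_subset hyN haK
    have hcard : (insert u (insert v C)).card ≤ 3 := by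
      have h1 := Finset.card_insert_le u (insert v C)
      have h2 := Finset.card_insert_le v C
      omega
    have hau : a ≠ u := fun h => haN.2 (h ▸ Or.inl huP)
    have hav : a ≠ v := fun h => haN.2 (h ▸ Or.inr hvP)
    obtain ⟨t, ht, htC, hat⟩ := hstar (insert u (insert v C)) hcard a haN.1 (by
      simp only [Finset.mem_insert, not_or]
      exact ⟨hau, hav, haC⟩)
    by_cases htK : RIn T (comp T N y \ ↑C) a t ∧ t ∈ comp T N y
    · have htC' : t ∉ C := fun h => htC (by simp [h])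
      have htN : t ∈ N := comp_subset hyN htK.2
      rcases ht with rfl | rfl | rfl | rfl
      · exact absurd (Or.inl (P.mem_supp le_rfl)) htN.2
      · exact absurd (Or.inr (P'.mem_supp le_rfl)) htN.2
      · exact Or.inl ⟨htK.2, htC', htK.1⟩
      · exact Or.inr (Or.inl ⟨htK.2, htC', htK.1⟩)
    · right; right
      by_contra hcon
      apply htK
      have hkey := RIn.closed (P := fun t => RIn T (comp T N y \ ↑C) a t ∧ t ∈ comp T N y) hat
        ⟨RIn.refl _ _ _, haK⟩ (by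
          intro c d hc hd hcd ⟨h1, h2⟩
          have hcC : c ∉ C := fun h => hc.2 (by simp [h])
          have hdC : d ∉ C := fun h => hd.2 (by simp [h])
          have hdu : d ≠ u := fun h => hd.2 (by simp [h])
          have hdv : d ≠ v := fun h => hd.2 (by simp [h])
          have hdN : d ∈ N := by
            refine ⟨hd.1, ?_⟩
            intro hdW
            exact hcon ⟨c, d, h2, hcC, hcd, hdW, hdu, hdv, h1⟩
          have hdK : d ∈ comp T N y := comp_closed hyN h2 hdN hcd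
          exact ⟨h1.tail hcd ⟨h2, hcC⟩ ⟨hdK, hdC⟩, hdK⟩)
      exact hkey
  have hKN : comp T N y ⊆ N := comp_subset hyN
  have hKS : comp T N y ⊆ S := hKN.trans sdiff_subset
  have hPK : Disjoint P.supp (comp T N y) := by
    rw [Set.disjoint_left]; intro w hw hw'; exact (hKN hw').2 (Or.inl hw)
  have hPK' : Disjoint P'.supp (comp T N y) := by
    rw [Set.disjoint_left]; intro w hw hw'; exact (hKN hw').2 (Or.inr hw)
  -- the generic step for the second case
  have step : ∀ (R R' : GP T), R.supp ⊆ N → R'.supp ⊆ N → R.p R.len ∈ comp T N y →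
      R'.p R'.len ∉ comp T N y → T.Adj u (R.p 0) → T.Adj v (R.p 0) → T.Adj u (R'.p 0) →
      T.Adj v (R'.p 0) → y ∉ R.supp →
      (∀ C : Finset V, C.card < 2 → ∀ a ∈ comp T N y, a ∉ C →
      (R.p R.len ∉ C ∧ RIn T (comp T N y \ ↑C) a (R.p R.len)) ∨
      ∃ b w, b ∈ comp T N y ∧ b ∉ C ∧ T.Adj b w ∧ w ∈ W ∧ w ≠ u ∧ w ≠ v ∧
        RIn T (comp T N y \ ↑C) a b) →
      Good T S (P.p P.len) (P'.p P'.len) (R.p R.len) (R'.p R'.len) := by
    intro R R' hRN hRN' hRK hRK' huR hvR huR' hvR' hyR hex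
    have hRsub : R.supp ⊆ comp T N y :=
      R.supp_conn.subset_comp hRN (R.mem_supp le_rfl) hRK
    have hRd : Disjoint (comp T N y) R'.supp := by
      rw [Set.disjoint_left]
      intro w hw hw'
      exact hRK' (R'.supp_conn.subset_comp hRN' hw' hw (R'.mem_supp le_rfl))
    obtain ⟨x', y', A, B, hx', hy', hA, hB, hAK, hBK, dAB, hxA, hzA, hyB, b, hbB, hbAtt⟩ :=
      two_paths (T := T) (K := comp T N y)
      (Att := {b | ∃ w, T.Adj b w ∧ w ∈ W ∧ w ≠ u ∧ w ≠ v}) (x := R.p 0) (y := y)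
      (z := R.p R.len) (comp_conn hyN) (hRsub (R.mem_supp (Nat.zero_le _))) mem_comp_self hRK
      (fun h => hyR (h ▸ R.mem_supp (Nat.zero_le _))) (by
        intro C hC a ha haC
        rcases hex C hC a ha haC with h | ⟨b, w, hbK, hbC, hbw, hwW, hwu, hwv, hab⟩
        · exact Or.inl h
        · exact Or.inr ⟨b, ⟨w, hbw, hwW, hwu, hwv⟩, hbC, hab⟩)
    obtain ⟨w, hbw, hwW, hwu, hwv⟩ := hbAtt
    have hux' : T.Adj u x' := by rcases hx' with rfl | rfl <;> assumption
    have hvx' : T.Adj v x' := by rcases hx' with rfl | rfl <;> assumption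
    have huy' : T.Adj u y' := by rcases hy' with rfl | rfl <;> assumption
    have hvy' : T.Adj v y' := by rcases hy' with rfl | rfl <;> assumption
    exact finish2 P P' hu hv hPS hPS' dPP hwW hwu hwv hB (hBK.trans hKS)
      (hPK.mono_right hBK) (hPK'.mono_right hBK) hyB huy' hvy'
      ⟨b, hbB, w, rfl, hbw⟩ hA (hAK.trans hKS) hzA hxA hux' hvx' R'.supp_conn
      (hRN'.trans sdiff_subset) (R'.mem_supp le_rfl) (R'.mem_supp (Nat.zero_le _)) huR' hvR'
      (hPK.mono_right hAK)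
      (by rw [Set.disjoint_left]; intro w hw hw'; exact (hRN' hw').2 (Or.inl hw))
      (hPK'.mono_right hAK)
      (by rw [Set.disjoint_left]; intro w hw hw'; exact (hRN' hw').2 (Or.inr hw))
      dAB.symm (hRd.mono_left hBK)
  by_cases h1 : Q.p Q.len ∈ comp T N y
  · have h2 : Q'.p Q'.len ∉ comp T N y := by
      intro h
      apply hsame
      rw [comp_eq_of_mem h1]; exact h
    refine step Q Q' hQN hQN' h1 h2 huq hvq huq' hvq' hyQ ?_
    intro C hC a ha haC
    rcases hexit _ rfl C hC a ha haC with h | h | h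
    · exact Or.inl h.2
    · exact absurd h.1 h2
    · exact Or.inr h
  · by_cases h2 : Q'.p Q'.len ∈ comp T N y
    · refine (step Q' Q hQN' hQN h2 h1 huq' hvq' huq hvq hyQ' ?_).flip'
      intro C hC a ha haC
      rcases hexit _ rfl C hC a ha haC with h | h | h
      · exact absurd h.1 h1
      · exact Or.inl h.2
      · exact Or.inr h
    · -- the component of `y` has no terminals
      rcases hexit _ rfl ∅ (by simp) y mem_comp_self (by simp) with h | h | h
      · exact absurd h.1 h1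
      · exact absurd h.1 h2
      · obtain ⟨b, w, hbK, _, hbw, hwW, hwu, hwv, _⟩ := h
        have hd : Disjoint (comp T N y) Q.supp := by
          rw [Set.disjoint_left]
          intro w hw hw'
          exact h1 (Q.supp_conn.subset_comp hQN hw' hw (Q.mem_supp le_rfl))
        have hd' : Disjoint (comp T N y) Q'.supp := by
          rw [Set.disjoint_left]
          intro w hw hw'
          exact h2 (Q'.supp_conn.subset_comp hQN' hw' hw (Q'.mem_supp le_rfl))
        exact finish2 P P' hu hv hPS hPS' dPP hwW hwu hwv (comp_conn hyN) hKS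
          hPK hPK' mem_comp_self huy hvy
          ⟨b, hbK, w, rfl, hbw⟩ Q.supp_conn hQS (Q.mem_supp le_rfl) (Q.mem_supp (Nat.zero_le _))
          huq hvq Q'.supp_conn hQS' (Q'.mem_supp le_rfl) (Q'.mem_supp (Nat.zero_le _)) huq' hvq'
          dPQ dPQ' dPQ2 dPQ2' hd hd'

/-- the partner -/
def pt : Fin 4 → Fin 4 := ![2, 3, 0, 1]

theorem good_of (z : Fin 4 → V) (j j' : Fin 4) (h1 : j' ≠ j) (h2 : j' ≠ pt j)
    (h : Good T S (z j) (z (pt j)) (z j') (z (pt j'))) :
    Good T S (z 0) (z 2) (z 1) (z 3) := by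
  fin_cases j <;> fin_cases j' <;> simp [pt] at h1 h2 h <;>
    first
      | exact h
      | exact h.flip
      | exact h.flip'
      | exact h.flip.flip'
      | exact h.swap
      | exact h.swap.flip
      | exact h.swap.flip'
      | exact h.swap.flip.flip'

/-- transfer of `case3` to pairs -/
theorem good_of' (z : Fin 4 → V) (j k : Fin 4) (hk : k ≠ j) (hk2 : k ≠ pt j)
    (h : Good T S (z j) (z (pt j)) (z k) (z (pt k))) :
    Good T S (z 0) (z 2) (z 1) (z 3) := good_of z j k hk hk2 h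

theorem pt_facts : ∀ j : Fin 4, ∃ k : Fin 4, k ≠ j ∧ k ≠ pt j ∧ pt k ≠ j ∧ pt k ≠ pt j ∧
    pt k ≠ k ∧ pt j ≠ j ∧ pt (pt j) = j ∧ ∀ l, l = j ∨ l = pt j ∨ l = k ∨ l = pt k := by
  decide

theorem pt_facts2 : ∀ j k : Fin 4, k ≠ j → k ≠ pt j → pt k ≠ j ∧ pt k ≠ pt j ∧
    pt k ≠ k ∧ pt j ≠ j ∧ ∀ l, l = j ∨ l = pt j ∨ l = k ∨ l = pt k := by
  decide

end LX

open LX

theorem lemmaX {V : Type} [Finite V] (T : SimpleGraph V) (S : Set V) (z : Fin 4 → V)
    (hz : Function.Injective z) (hzS : ∀ i, z i ∈ S)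
    (hstar : ∀ C : Finset V, C.card ≤ 3 → ∀ x ∈ S, x ∉ C →
      ∃ i, z i ∉ C ∧ RIn T (S \ ↑C) x (z i))
    (u v : V) (x : Fin 3 → V) (hx : Function.Injective x) (huv : T.Adj u v)
    (hux : ∀ i, T.Adj u (x i)) (hvx : ∀ i, T.Adj v (x i)) (huS : u ∈ S) (hvS : v ∈ S)
    (hxS : ∀ i, x i ∈ S) (huz : ∀ i, u ≠ z i) (hvz : ∀ i, v ≠ z i) (hxz : ∀ j i, x j ≠ z i) :
    ∃ C D : Set V, Conn T C ∧ Conn T D ∧ C ⊆ S ∧ D ⊆ S ∧ Disjoint C D ∧
      z 0 ∈ C ∧ z 2 ∈ C ∧ z 1 ∈ D ∧ z 3 ∈ D := by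
  classical
  -- four paths
  set A : Set V := {w | w = u ∨ w = v ∨ ∃ i, w = x i} with hAdef
  have hAS : A ⊆ S := by
    rintro w (rfl | rfl | ⟨i, rfl⟩)
    · exact huS
    · exact hvS
    · exact hxS i
  obtain ⟨P, hP, hd⟩ := menger_to (T := T) (S := S) A hAS 4 z (by
    intro C hC
    obtain ⟨a, ha, haC⟩ : ∃ a ∈ A, a ∉ C := by
      by_contra hcon
      push Not at hcon
      have hsub : insert u (insert v (Finset.univ.image x)) ⊆ C := by
        intro w hw
        simp only [Finset.mem_insert, Finset.mem_image, Finset.mem_univ, true_and] at hw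
        apply hcon
        rcases hw with rfl | rfl | ⟨i, rfl⟩
        · exact Or.inl rfl
        · exact Or.inr (Or.inl rfl)
        · exact Or.inr (Or.inr ⟨i, rfl⟩)
      have h1 := Finset.card_le_card hsub
      have h2 : u ∉ insert v (Finset.univ.image x) := by
        simp only [Finset.mem_insert, Finset.mem_image, Finset.mem_univ, true_and, not_or,
          not_exists]
        exact ⟨huv.ne, fun i h => (hux i).ne h.symm⟩
      have h3 : v ∉ Finset.univ.image x := by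
        simp only [Finset.mem_image, Finset.mem_univ, true_and, not_exists]
        exact fun i h => (hvx i).ne h.symm
      rw [Finset.card_insert_of_notMem h2, Finset.card_insert_of_notMem h3,
        Finset.card_image_of_injective _ hx, Finset.card_univ, Fintype.card_fin] at h1
      omega
    obtain ⟨i, hi, hai⟩ := hstar C (by omega) a (hAS ha) haC
    exact ⟨a, ha, i, haC, hi, hai⟩)
  have hsinj : ∀ i j, (P i).p 0 = (P j).p 0 → i = j := by
    intro i j hij
    by_contra hne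
    exact Set.disjoint_left.1 (hd i j hne) ((P i).mem_supp (Nat.zero_le _))
      (hij ▸ (P j).mem_supp (Nat.zero_le _))
  have hnot : ∀ w ∈ A, (∀ i, (P i).p 0 ≠ w) → ∀ i, w ∉ (P i).supp := by
    rintro w hw hall i ⟨j, hj, hjw⟩
    rcases Nat.eq_zero_or_pos j with rfl | h0
    · exact hall i hjw
    · exact (hP i).2.2.1 j h0 hj (hjw ▸ hw)
  have hend : ∀ i, z i ∈ (P i).supp := fun i => (hP i).2.1 ▸ (P i).mem_supp le_rfl
  have hst : ∀ i, (P i).p 0 ∈ (P i).supp := fun i => (P i).mem_supp (Nat.zero_le _)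
  -- three of the starts are in `x`
  have hcount : ∀ w w' : V, (∀ i, (P i).p 0 ≠ w) → (∀ i, (P i).p 0 = w ∨ (P i).p 0 = w' ∨
      ∃ j, (P i).p 0 = x j) → ∃ i, (P i).p 0 = w' := by
    intro w w' hw hall
    by_contra hcon
    push Not at hcon
    have : ∀ i, ∃ j, (P i).p 0 = x j := by
      intro i
      rcases hall i with h | h | h
      · exact absurd h (hw i)
      · exact absurd h (hcon i)
      · exact h
    choose f hf using this
    have hfi : Function.Injective f := by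
      intro i j hij
      apply hsinj
      rw [hf i, hf j, hij]
    have := Fintype.card_le_of_injective f hfi
    simp at this
  have h1side : ∀ w w' : V, w ∈ A → (∀ i, T.Adj w (x i)) → (∀ i, T.Adj w' (x i)) → w ∈ S →
      (∀ i, (P i).p 0 ≠ w) → (∀ i, (P i).p 0 = w ∨ (P i).p 0 = w' ∨
      ∃ j, (P i).p 0 = x j) → Good T S (z 0) (z 2) (z 1) (z 3) := by
    intro w w' hwA hwx hwx' hwS hw hall
    obtain ⟨j, hj⟩ := hcount w w' hw hall
    obtain ⟨k, hk1, hk2, hk3, hk4, hk5, hk6, hk7, hk8⟩ := pt_facts j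
    apply good_of z j k hk1 hk2
    have hother : ∀ i, i ≠ j → ∃ l, (P i).p 0 = x l := by
      intro i hi
      rcases hall i with h | h | h
      · exact absurd h (hw i)
      · exact absurd (hsinj i j (h.trans hj.symm)) hi
      · exact h
    obtain ⟨l1, hl1⟩ := hother (pt j) hk6
    obtain ⟨l2, hl2⟩ := hother k hk1
    obtain ⟨l3, hl3⟩ := hother (pt k) hk3
    refine case1 (A := (P j).supp) (A' := (P (pt j)).supp) (B := (P k).supp)
      (B' := (P (pt k)).supp) (u := w) (P j).supp_conn (P (pt j)).supp_conn (P k).supp_conn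
      (P (pt k)).supp_conn (hP _).2.2.2 (hP _).2.2.2 (hP _).2.2.2 (hP _).2.2.2 (hend _) (hend _)
      (hend _) (hend _) (hst _) (hst _) (hst _) (hst _) ?_ ?_ ?_ hwS (hnot w hwA hw _)
      (hnot w hwA hw _) (hd _ _ hk1.symm) (hd _ _ hk3.symm) (hd _ _ hk2.symm) (hd _ _ hk4.symm)
    · rw [hj, hl1]; exact hwx' l1
    · rw [hl2]; exact hwx l2
    · rw [hl3]; exact hwx l3
  have hall : ∀ i, (P i).p 0 = u ∨ (P i).p 0 = v ∨ ∃ j, (P i).p 0 = x j := fun i => (hP i).1
  by_cases hu : ∀ i, (P i).p 0 ≠ u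
  · exact h1side u v (Or.inl rfl) hux hvx huS hu hall
  by_cases hv : ∀ i, (P i).p 0 ≠ v
  · refine h1side v u (Or.inr (Or.inl rfl)) hvx hux hvS hv ?_
    intro i
    rcases hall i with h | h | h
    · exact Or.inr (Or.inl h)
    · exact Or.inl h
    · exact Or.inr (Or.inr h)
  push Not at hu hv
  obtain ⟨j, hj⟩ := hu
  obtain ⟨j', hj'⟩ := hv
  have hjj : j' ≠ j := by
    rintro rfl
    exact huv.ne (hj.symm.trans hj')
  have hother : ∀ i, i ≠ j → i ≠ j' → ∃ l, (P i).p 0 = x l := by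
    intro i hi hi'
    rcases hall i with h | h | h
    · exact absurd (hsinj i j (h.trans hj.symm)) hi
    · exact absurd (hsinj i j' (h.trans hj'.symm)) hi'
    · exact h
  by_cases hpt : j' = pt j
  · -- same pair
    obtain ⟨k, hk1, hk2, hk3, hk4, hk5, hk6, hk7, hk8⟩ := pt_facts j
    apply good_of z j k hk1 hk2
    rw [hpt] at hj' hother
    obtain ⟨l2, hl2⟩ := hother k hk1 hk2
    obtain ⟨l3, hl3⟩ := hother (pt k) hk3 hk4
    obtain ⟨l, hl, hl'⟩ : ∃ l : Fin 3, l ≠ l2 ∧ l ≠ l3 := by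
      have : ∀ a b : Fin 3, ∃ l, l ≠ a ∧ l ≠ b := by decide
      exact this l2 l3
    have hy : ∀ i, (P i).p 0 ≠ x l := by
      intro i hi
      rcases hk8 i with rfl | rfl | rfl | rfl
      · exact (hux l).ne (hj.symm.trans hi)
      · exact (hvx l).ne (hj'.symm.trans hi)
      · exact hl (hx (hi.symm.trans hl2))
      · exact hl' (hx (hi.symm.trans hl3))
    have hyA : x l ∈ A := Or.inr (Or.inr ⟨l, rfl⟩)
    have key := case3 (T := T) (S := S) (P j) (P (pt j)) (P k) (P (pt k)) (u := u) (v := v)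
      (y := x l) hj hj' (hP _).2.2.2 (hP _).2.2.2 (hP _).2.2.2 (hP _).2.2.2 (hd _ _ hk6.symm)
      (hd _ _ hk1.symm) (hd _ _ hk3.symm) (hd _ _ hk2.symm) (hd _ _ hk4.symm) (hd _ _ hk5.symm)
      huv (hl2 ▸ hux l2) (hl2 ▸ hvx l2) (hl3 ▸ hux l3) (hl3 ▸ hvx l3) (hux l) (hvx l) (hxS l)
      (hnot _ hyA hy _) (hnot _ hyA hy _) (hnot _ hyA hy _) (hnot _ hyA hy _) (by
        intro C hC w hw hwC
        obtain ⟨i, hi, hwi⟩ := hstar C hC w hw hwC
        refine ⟨z i, ?_, hi, hwi⟩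
        rw [(hP j).2.1, (hP (pt j)).2.1, (hP k).2.1, (hP (pt k)).2.1]
        rcases hk8 i with rfl | rfl | rfl | rfl
        · exact Or.inl rfl
        · exact Or.inr (Or.inl rfl)
        · exact Or.inr (Or.inr (Or.inl rfl))
        · exact Or.inr (Or.inr (Or.inr rfl)))
    rw [(hP j).2.1, (hP (pt j)).2.1, (hP k).2.1, (hP (pt k)).2.1] at key
    exact key
  · -- different pairs
    obtain ⟨h1, h2, h3, h4, h5⟩ := pt_facts2 j j' hjj hpt
    apply good_of z j j' hjj hpt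
    obtain ⟨l1, hl1⟩ := hother (pt j) h4 (Ne.symm hpt)
    obtain ⟨l2, hl2⟩ := hother (pt j') h1 h3
    exact case2 (P j).supp_conn (P (pt j)).supp_conn (P j').supp_conn (P (pt j')).supp_conn
      (hP _).2.2.2 (hP _).2.2.2 (hP _).2.2.2 (hP _).2.2.2 (hend _) (hend _)
      (hend _) (hend _) (hst _) (hst _) (hst _) (hst _) (by rw [hj, hl1]; exact hux l1)
      (by rw [hj', hl2]; exact hvx l2) (hd _ _ hjj.symm) (hd _ _ h1.symm) (hd _ _ (Ne.symm hpt))
      (hd _ _ h2.symm)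

theorem link_ports {V : Type} [Finite V] (T : SimpleGraph V) (S : Set V) (z : Fin 4 → V)
    (hz : Function.Injective z) (hzS : ∀ i, z i ∈ S)
    (hstar : ∀ C : Finset V, C.card ≤ 3 → ∀ x ∈ S, x ∉ C →
      ∃ i, z i ∉ C ∧ RIn T (S \ ↑C) x (z i))
    (s : ℕ) (hs : s ≤ 3) (r : Fin s → V) (hr : Function.Injective r) (hrS : ∀ i, r i ∈ S)
    (hrz : ∀ i j, r i ≠ z j) (π : Fin s → Fin 4) (hπ : Function.Injective π) :
    ∃ (τ : Equiv.Perm (Fin s)) (C : Fin s → Set V),
      (∀ i, Conn T (C i) ∧ C i ⊆ S ∧ r i ∈ C i ∧ z (π (τ i)) ∈ C i) ∧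
      ∀ i j, i ≠ j → Disjoint (C i) (C j) := by
  classical
  obtain ⟨P, hP, hd⟩ := menger_to (T := T) (S := S) (range r)
    (by rintro w ⟨i, rfl⟩; exact hrS i) s (fun i => z (π i)) (by
    intro C hC
    obtain ⟨i, hi⟩ : ∃ i, r i ∉ C := by
      by_contra hcon
      push Not at hcon
      have hsub : Finset.univ.image r ⊆ C := by
        intro w hw
        simp only [Finset.mem_image, Finset.mem_univ, true_and] at hw
        obtain ⟨i, rfl⟩ := hw
        exact hcon i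
      have h1 := Finset.card_le_card hsub
      rw [Finset.card_image_of_injective _ hr, Finset.card_univ, Fintype.card_fin] at h1
      omega
    set D : Finset (Fin 4) := (Finset.univ.image π)ᶜ with hD
    have hDcard : D.card = 4 - s := by
      rw [hD, Finset.card_compl, Finset.card_image_of_injective _ hπ]
      simp
    have hcard : (C ∪ D.image z).card ≤ 3 := by
      have h1 := Finset.card_union_le C (D.image z)
      have h2 := Finset.card_image_le (s := D) (f := z)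
      omega
    obtain ⟨k, hk, hik⟩ := hstar (C ∪ D.image z) hcard (r i) (hrS i) (by
      simp only [Finset.mem_union, Finset.mem_image, not_or, not_exists, not_and]
      exact ⟨hi, fun j _ h => hrz i j h.symm⟩)
    have hkD : k ∉ D := fun h => hk (Finset.mem_union_right _ (Finset.mem_image_of_mem z h))
    have hkC : z k ∉ C := fun h => hk (Finset.mem_union_left _ h)
    rw [hD, Finset.mem_compl, not_not, Finset.mem_image] at hkD
    obtain ⟨l, _, rfl⟩ := hkD
    refine ⟨r i, ⟨i, rfl⟩, l, hi, hkC, hik.mono ?_⟩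
    intro w hw
    refine ⟨hw.1, fun h => hw.2 ?_⟩
    simp only [Finset.coe_union, mem_union]
    exact Or.inl h)
  have h3 : ∀ i, ∃ j, r j = (P i).p 0 := fun i => (hP i).1
  choose e he using h3
  have hinj : Function.Injective e := by
    intro i j hij
    by_contra hne
    apply Set.disjoint_left.1 (hd i j hne) ((P i).mem_supp (Nat.zero_le _))
    rw [← he i, hij, he j]
    exact (P j).mem_supp (Nat.zero_le _)
  set e' := Equiv.ofBijective e (Finite.injective_iff_bijective.1 hinj)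
  refine ⟨e'.symm, fun j => (P (e'.symm j)).supp, ?_, ?_⟩
  · intro j
    refine ⟨(P _).supp_conn, (hP _).2.2.2, ?_, ?_⟩
    · have h4 : r (e (e'.symm j)) = (P (e'.symm j)).p 0 := he _
      have h5 : e (e'.symm j) = j := e'.apply_symm_apply j
      rw [h5] at h4
      rw [h4]
      exact (P _).mem_supp (Nat.zero_le _)
    · rw [← (hP (e'.symm j)).2.1]
      exact (P _).mem_supp le_rfl
  · intro i j hij
    exact hd _ _ (fun h => hij (e'.symm.injective h))

end Pool.Agent.Lib.MP_4d119b_lc
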