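import Pool.Agent.Lib.MP_4d119b_lc.Torso
import Pool.Agent.Lib.MP_4d119b_lc.LemmaX

/-! Crosses in all cells give a large complete minor. -/

namespace Pool.Agent.Lib.MP_4d119b_lc

open Set

variable {V : Type} {G : SimpleGraph V} {A U : Set V}

/-- if every deep torso edge has three common neighbours then the cell has a cross -/
theorem Cell.cross_of_common [Finite V] (c : Cell G A)
    (h : ∀ u v, c.Deep 7 u → c.Deep 7 v → c.TG.Adj u v →
      ∃ x : Fin 3 → V, Function.Injective x ∧ ∀ i, c.TG.Adj u (x i) ∧ c.TG.Adj v (x i)) :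
    ∃ P Q : Set V, Conn G P ∧ Conn G Q ∧ P ⊆ c.H ∧ Q ⊆ c.H ∧ Disjoint P Q ∧
      c.port 0 ∈ P ∧ c.port 2 ∈ P ∧ c.port 1 ∈ Q ∧ c.port 3 ∈ Q := by
  obtain ⟨u, huS, hu⟩ := c.exists_deep
  obtain ⟨v, huv⟩ := c.exists_TG_nb huS (by omega) hu
  have hv : c.Deep 7 v := Cell.Deep.TG hu huv
  obtain ⟨x, hx, hxa⟩ := h u v (hu.mono (by omega)) hv huv
  have hxd : ∀ i, c.Deep 7 (x i) := fun i => Cell.Deep.TG hu (hxa i).1
  obtain ⟨P, Q, h1, h2, h3, h4, h5, h6, h7, h8, h9⟩ := lemmaX c.TG c.S c.port c.port_inj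
    c.port_S (fun C hC x hx hxC => c.star C hC x hx hxC) u v x hx huv (fun i => (hxa i).1)
    (fun i => (hxa i).2) huS huv.2.2.1 (fun i => (hxa i).1.2.2.1)
    (fun i => hu.ne_port (by omega) i) (fun i => hv.ne_port (by omega) i)
    (fun j i => (hxd j).ne_port (by omega) i)
  exact ⟨c.lift P, c.lift Q, c.lift_conn h3 h1, c.lift_conn h4 h2, c.lift_sub h3, c.lift_sub h4,
    c.lift_disj h3 h4 h5, Or.inl h6, Or.inl h7, Or.inl h8, Or.inl h9⟩

/-- crosses in all cells of a `t × t` array give `K_t` -/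
theorem K_of_crosses {n t : ℕ} (CA : CellArray G A U n) (htn : t ≤ n)
    (h : ∀ i j, i < t → j < t → ∃ P Q : Set V, Conn G P ∧ Conn G Q ∧ P ⊆ (CA.C i j).H ∧
      Q ⊆ (CA.C i j).H ∧ Disjoint P Q ∧ (CA.C i j).port 0 ∈ P ∧ (CA.C i j).port 2 ∈ P ∧
      (CA.C i j).port 1 ∈ Q ∧ (CA.C i j).port 3 ∈ Q) : HasK G t := by
  classical
  have h' : ∀ i j, ∃ P Q : Set V, i < t → j < t → (Conn G P ∧ Conn G Q ∧ P ⊆ (CA.C i j).H ∧
      Q ⊆ (CA.C i j).H ∧ Disjoint P Q ∧ (CA.C i j).port 0 ∈ P ∧ (CA.C i j).port 2 ∈ P ∧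
      (CA.C i j).port 1 ∈ Q ∧ (CA.C i j).port 3 ∈ Q ∧ Touch G Q P) := by
    intro i j
    by_cases hij : i < t ∧ j < t
    · obtain ⟨P, Q, h1, h2, h3, h4, h5, h6, h7, h8, h9⟩ := h i j hij.1 hij.2
      obtain ⟨Q', g1, g2, g3, g4, g5⟩ := (CA.C i j).conn.exists_touch h2 h4 h3 h1.1 h5.symm
      exact ⟨P, Q', fun _ _ => ⟨h1, g3, h3, g2, g4.symm, h6, h7, g1 h8, g1 h9, g5⟩⟩
    · exact ⟨∅, ∅, fun h1 h2 => absurd ⟨h1, h2⟩ hij⟩
  choose P Q hPQ using h'
  -- row and column pieces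
  let R : ℕ → ℕ → Set V := fun m x => if x = m then (CA.C m m).H else Q x m
  let D : ℕ → ℕ → Set V := fun m y => if y = m then (CA.C m m).H else P m y
  have hRsub : ∀ m x, m < t → x < t → R m x ⊆ (CA.C x m).H := by
    intro m x hm hx
    simp only [R]
    split_ifs with hxm
    · subst hxm; exact subset_rfl
    · exact (hPQ x m hx hm).2.2.2.1
  have hDsub : ∀ m y, m < t → y < t → D m y ⊆ (CA.C m y).H := by
    intro m y hm hy
    simp only [D]
    split_ifs with hym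
    · subst hym; exact subset_rfl
    · exact (hPQ m y hm hy).2.2.1
  have hRc : ∀ m x, m < t → x < t → Conn G (R m x) := by
    intro m x hm hx
    simp only [R]
    split_ifs with hxm
    · exact (CA.C m m).conn
    · exact (hPQ x m hx hm).2.1
  have hDc : ∀ m y, m < t → y < t → Conn G (D m y) := by
    intro m y hm hy
    simp only [D]
    split_ifs with hym
    · exact (CA.C m m).conn
    · exact (hPQ m y hm hy).1
  have hR1 : ∀ m x, m < t → x < t → (CA.C x m).port 1 ∈ R m x ∧ (CA.C x m).port 3 ∈ R m x := by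
    intro m x hm hx
    simp only [R]
    split_ifs with hxm
    · subst hxm; exact ⟨(CA.C x x).port_mem 1, (CA.C x x).port_mem 3⟩
    · exact ⟨(hPQ x m hx hm).2.2.2.2.2.2.2.1, (hPQ x m hx hm).2.2.2.2.2.2.2.2.1⟩
  have hD1 : ∀ m y, m < t → y < t → (CA.C m y).port 0 ∈ D m y ∧ (CA.C m y).port 2 ∈ D m y := by
    intro m y hm hy
    simp only [D]
    split_ifs with hym
    · subst hym; exact ⟨(CA.C y y).port_mem 0, (CA.C y y).port_mem 2⟩
    · exact ⟨(hPQ m y hm hy).2.2.2.2.2.1, (hPQ m y hm hy).2.2.2.2.2.2.1⟩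
  have hcell : ∀ x y x' y', x < t → y < t → x' < t → y' < t → (x ≠ x' ∨ y ≠ y') →
      Disjoint (CA.C x y).H (CA.C x' y').H := by
    intro x y x' y' h1 h2 h3 h4 h5
    exact CA.disj x y x' y' (by omega) (by omega) (by omega) (by omega) h5
  let B : Fin t → Set V := fun m => (⋃ x ∈ Set.Icc 0 (t - 1), R m x) ∪
    (⋃ y ∈ Set.Icc 0 (t - 1), D m y)
  refine ⟨B, ?_, ?_, ?_⟩
  · intro m
    have ht : 0 < t := by have := m.2; omega
    refine Conn.union (conn_chain (R m) 0 (t - 1) (Nat.zero_le _)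
      (fun x _ hx => hRc m x m.2 (by omega)) ?_) (conn_chain (D m) 0 (t - 1) (Nat.zero_le _)
      (fun y _ hy => hDc m y m.2 (by omega)) ?_) ?_
    · intro x _ hx
      left
      exact ⟨_, (hR1 m x m.2 (by omega)).1, _, (hR1 m (x + 1) m.2 (by omega)).2,
        CA.right x m (by omega) (by omega)⟩
    · intro y _ hy
      left
      exact ⟨_, (hD1 m y m.2 (by omega)).2, _, (hD1 m (y + 1) m.2 (by omega)).1,
        CA.down m y (by omega) (by omega)⟩
    · obtain ⟨z, hz⟩ := (CA.C m m).conn.1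
      refine ⟨z, mem_biUnion (show (m : ℕ) ∈ Set.Icc 0 (t - 1) from ⟨Nat.zero_le _, by omega⟩) ?_,
        mem_biUnion (show (m : ℕ) ∈ Set.Icc 0 (t - 1) from ⟨Nat.zero_le _, by omega⟩) ?_⟩
      · simpa [R] using hz
      · simpa [D] using hz
  · intro m m' hne
    have hne' : (m : ℕ) ≠ m' := fun h => hne (Fin.ext h)
    have ht : 0 < t := by have := m.2; omega
    have key1 : ∀ (m m' : Fin t), (m : ℕ) ≠ m' → ∀ v, v ∈ (⋃ x ∈ Set.Icc 0 (t - 1), R m x) →
        v ∈ (⋃ y ∈ Set.Icc 0 (t - 1), D m' y) → False := by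
      intro m m' hne v hv hv'
      rw [mem_iUnion₂] at hv hv'
      obtain ⟨x, hx, hvx⟩ := hv
      obtain ⟨y, hy, hvy⟩ := hv'
      have hx' : x < t := by have := hx.2; omega
      have hy' : y < t := by have := hy.2; omega
      by_cases hc : x ≠ m' ∨ (m : ℕ) ≠ y
      · exact Set.disjoint_left.1 (hcell x m m' y hx' m.2 m'.2 hy' hc) (hRsub m x m.2 hx' hvx)
          (hDsub m' y m'.2 hy' hvy)
      · push Not at hc
        obtain ⟨h1, h2⟩ := hc
        subst h1
        subst h2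
        simp only [R, D] at hvx hvy
        rw [if_neg (Ne.symm hne)] at hvx
        rw [if_neg hne] at hvy
        exact Set.disjoint_left.1 (hPQ m' m m'.2 m.2).2.2.2.2.1 hvy hvx
    rw [Set.disjoint_left]
    rintro v (hv | hv) (hv' | hv')
    · rw [mem_iUnion₂] at hv hv'
      obtain ⟨x, hx, hvx⟩ := hv
      obtain ⟨y, hy, hvy⟩ := hv'
      have hx' : x < t := by have := hx.2; omega
      have hy' : y < t := by have := hy.2; omega
      exact Set.disjoint_left.1 (hcell x m y m' hx' m.2 hy' m'.2 (Or.inr hne'))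
        (hRsub m x m.2 hx' hvx) (hRsub m' y m'.2 hy' hvy)
    · exact key1 m m' hne' v hv hv'
    · exact key1 m' m hne'.symm v hv' hv
    · rw [mem_iUnion₂] at hv hv'
      obtain ⟨x, hx, hvx⟩ := hv
      obtain ⟨y, hy, hvy⟩ := hv'
      have hx' : x < t := by have := hx.2; omega
      have hy' : y < t := by have := hy.2; omega
      exact Set.disjoint_left.1 (hcell m x m' y m.2 hx' m'.2 hy' (Or.inl hne'))
        (hDsub m x m.2 hx' hvx) (hDsub m' y m'.2 hy' hvy)
  · intro m m' hne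
    have hne' : (m : ℕ) ≠ m' := fun h => hne (Fin.ext h)
    have ht : 0 < t := by have := m.2; omega
    have h1 := (hPQ m' m m'.2 m.2).2.2.2.2.2.2.2.2.2
    refine h1.mono ?_ ?_
    · intro v hv
      left
      refine mem_biUnion (show (m' : ℕ) ∈ Set.Icc 0 (t - 1) from ⟨Nat.zero_le _, by omega⟩) ?_
      simp only [R]
      rw [if_neg (Ne.symm hne')]
      exact hv
    · intro v hv
      right
      refine mem_biUnion (show (m : ℕ) ∈ Set.Icc 0 (t - 1) from ⟨Nat.zero_le _, by omega⟩) ?_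
      simp only [D]
      rw [if_neg hne']
      exact hv

end Pool.Agent.Lib.MP_4d119b_lc
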