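import Pool.Agent.Lib.MP_4d119b_lc.Pattern3

/-! The pattern terms have bounded excess. -/

namespace Pool.Agent.Lib.MP_4d119b_lc

open Set Term

variable {k : ℕ}

theorem InF.minor {V V' : Type} {L : List (ℕ × List (ℕ × ℕ))} {G : SimpleGraph V}
    {G' : SimpleGraph V'} (hF : InF L G) (h : IsMinor G' G) : InF L G' :=
  fun c hc hm => hF c hc (hm.trans h)

theorem inB_mono {q q' h : ℕ} (hq : q ≤ q') : inB q h ≤ inB q' h := by
  unfold inB
  apply Nat.pow_le_pow_right (by norm_num)
  apply Nat.mul_le_mul_left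
  apply Nat.pow_le_pow_right (by norm_num)
  exact Nat.mul_le_mul (by omega) (by omega)

theorem inB_pos (q h : ℕ) : 0 < inB q h := by unfold inB; positivity

theorem patT_used {v : ℕ → Fin k} {S : ℕ → Finset (Fin k)} {τ : ℕ → ℕ → Term k}
    {D : Set (Fin k)} (hS : ∀ i j, j ∈ S i → j ∈ D)
    (hτ : ∀ i cl j, cl < 6 → (τ i cl).Used j → j ∈ D) :
    ∀ n j, (patT v S τ n).Used j → j ∈ D
  | 0, j, h => by obtain ⟨x, _⟩ := h; exact x.elim
  | n + 1, j, h => by
    obtain ⟨_, h1 | h1⟩ := drop_used h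
    · exact hS n j h1
    · rcases joinN_used 6 h1 with h2 | ⟨cl, hcl, h2⟩
      · exact patT_used hS hτ n j h2
      · exact hτ n cl j hcl h2

theorem patT_periodic {h : ℕ} (v : ℕ → Fin k) (S : ℕ → Finset (Fin k)) (τ : ℕ → ℕ → Term k)
    (hv : ∀ i j, i % 2 = j % 2 → v i = v j) (hS : ∀ i j, i % 2 = j % 2 → S i = S j)
    (hτ : ∀ i j, i % 2 = j % 2 → τ i = τ j) {i j : ℕ} (hij : i % 2 = j % 2)
    (heq : (patT v S τ i).tinfo h = (patT v S τ j).tinfo h) (m : ℕ) :
    (patT v S τ (i + m)).tinfo h = (patT v S τ (j + m)).tinfo h := by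
  induction m with
  | zero => exact heq
  | succ m ih =>
    have hij' : (i + m) % 2 = (j + m) % 2 := by omega
    show (Term.drop (v (i + m)) (S (i + m)) (joinN (τ (i + m)) (patT v S τ (i + m)) 6)).tinfo h =
      (Term.drop (v (j + m)) (S (j + m)) (joinN (τ (j + m)) (patT v S τ (j + m)) 6)).tinfo h
    rw [hv _ _ hij', hS _ _ hij', hτ _ _ hij']
    exact patT_step_tinfo _ _ _ ih

/-- all types of the pattern occur early -/
theorem patT_early {h : ℕ} (v : ℕ → Fin k) (S : ℕ → Finset (Fin k)) (τ : ℕ → ℕ → Term k)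
    (hv : ∀ i j, i % 2 = j % 2 → v i = v j) (hS : ∀ i j, i % 2 = j % 2 → S i = S j)
    (hτ : ∀ i j, i % 2 = j % 2 → τ i = τ j) (D : Finset (Fin k))
    (hSD : ∀ i j, j ∈ S i → j ∈ D) (hτD : ∀ i cl j, cl < 6 → (τ i cl).Used j → j ∈ D) (Q : ℕ)
    (hQ : inB D.card h ≤ Q) (n : ℕ) :
    ∃ n', n' ≤ 2 * Q ∧ n' % 2 = n % 2 ∧
      (patT v S τ n').tinfo h = (patT v S τ n).tinfo h := by
  classical
  obtain ⟨i, j, hij, hjQ, heq⟩ : ∃ i j : ℕ, i < j ∧ j ≤ Q ∧
      (patT v S τ (2 * i)).tinfo h = (patT v S τ (2 * j)).tinfo h := by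
    by_contra hcon
    push Not at hcon
    have hinj : Function.Injective (fun i : Fin (Q + 1) => (patT v S τ (2 * (i : ℕ))).tinfo h) := by
      intro i j hij
      by_contra hne
      rcases lt_or_gt_of_ne (fun h => hne (Fin.ext h) : (i : ℕ) ≠ j) with hlt | hlt
      · exact hcon i j hlt (by omega) hij
      · exact hcon j i hlt (by omega) hij.symm
    have h1 : (Set.range (fun i : Fin (Q + 1) => (patT v S τ (2 * (i : ℕ))).tinfo h)).ncard =
        Q + 1 := by
      rw [← Set.image_univ, Set.ncard_image_of_injective _ hinj, Set.ncard_univ, Nat.card_fin]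
    have h2 : (Set.range (fun i : Fin (Q + 1) => (patT v S τ (2 * (i : ℕ))).tinfo h)).ncard ≤
        inB D.card h := by
      refine (Set.ncard_le_ncard ?_ (Set.toFinite _)).trans (card_tinfo (h := h) D)
      rintro _ ⟨i, rfl⟩
      exact ⟨_, fun j hj => patT_used (D := ↑D) (fun i j hj => hSD i j hj)
        (fun i cl j hcl hj => hτD i cl j hcl hj) _ _ hj, rfl⟩
    omega
  induction n using Nat.strong_induction_on with
  | _ n ih =>
  by_cases hn : n ≤ 2 * Q
  · exact ⟨n, hn, rfl, rfl⟩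
  · obtain ⟨n', h1, h2, h3⟩ := ih (n - 2 * (j - i)) (by omega)
    refine ⟨n', h1, by omega, h3.trans ?_⟩
    have := patT_periodic (h := h) v S τ hv hS hτ (by omega : (2 * i) % 2 = (2 * j) % 2) heq
      (n - 2 * j)
    rwa [show 2 * i + (n - 2 * j) = n - 2 * (j - i) by omega,
      show 2 * j + (n - 2 * j) = n by omega] at this

theorem theta_le {h a : ℕ} (L : List (ℕ × List (ℕ × ℕ))) (hL : ∀ c ∈ L, c.1 ≤ h) (r : ℝ)
    (hr : 0 ≤ r)
    (hper : ∀ a b : ℕ, ∀ E : ℕ → ℕ → Prop, a ≤ k → 1 ≤ b → b ≤ bmB k h →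
      (∀ N, InF L (perGraph a b E N)) → 2 * (cnt a b E : ℝ) ≤ r * b)
    (sp : ℕ → Fin k) (hsp : ∀ i j, i < 4 → j < 4 → sp i = sp j → i = j)
    (lA : List (Fin k)) (hlA : lA.length ≤ a)
    (hspA : ∀ j, j < 4 → sp j ∉ lA) (FA : Finset (Fin k)) (hFA : ∀ j ∈ FA, j ∈ lA) (bE : Prop)
    [Decidable bE]
    (tb : ℕ → ℕ → Term k)
    (hused : ∀ par cl j, par < 2 → cl < 6 → (tb par cl).Used j → j ∈ lA ∨ ∃ i, i < 4 ∧ j = sp i)
    (Sf : ℕ → Finset (Fin k))
    (hSf : ∀ par j, j ∈ Sf par ↔ j ∈ FA ∨ (bE ∧ (j = sp 0 ∨ j = sp 1 ∨ j = sp (3 - par))))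
    (hF : ∀ n, n ≤ 2 * inB (a + 4) h →
      InF L (dropL (lA ++ [sp 0, sp 1, sp (2 + n % 2)])
        (patT (fun i => sp (2 + i % 2)) (fun i => Sf (i % 2)) (fun i cl => tb (i % 2) cl)
          n)).intGraph)
    (w : ℕ → ℝ) (hw : ∀ par cl, par < 2 → cl < 6 →
      2 * ((tb par cl).ed : ℝ) - r * (tb par cl).nu = w cl) :
    2 * ((FA.card : ℝ) + 3 * (if bE then 1 else 0)) + ∑ cl ∈ Finset.range 6, w cl ≤ r := by
  classical
  set v : ℕ → Fin k := fun i => sp (2 + i % 2) with hv
  set S : ℕ → Finset (Fin k) := fun i => Sf (i % 2) with hS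
  set τ : ℕ → ℕ → Term k := fun i cl => tb (i % 2) cl with hτ
  have hne : ∀ i j, i < 4 → j < 4 → i ≠ j → sp i ≠ sp j := fun i j hi hj h h' =>
    h (hsp i j hi hj h')
  -- cardinality of the neighbourhoods
  have hcard : ∀ n, ((S n).erase (v n)).card = FA.card + (if bE then 3 else 0) := by
    intro n
    have h1 : v n ∉ S n := by
      simp only [hS, hv]
      rw [hSf]
      rintro (h | ⟨_, h | h | h⟩)
      · exact hspA _ (by omega) (hFA _ h)
      · exact hne _ _ (by omega) (by omega) (by omega) h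
      · exact hne _ _ (by omega) (by omega) (by omega) h
      · exact hne _ _ (by omega) (by omega) (by omega) h
    rw [Finset.erase_eq_of_notMem h1]
    by_cases hb : bE
    · rw [if_pos hb]
      have h2 : S n = FA ∪ {sp 0, sp 1, sp (3 - n % 2)} := by
        ext j
        simp only [hS, Finset.mem_union, Finset.mem_insert, Finset.mem_singleton]
        rw [hSf]
        tauto
      rw [h2, Finset.card_union_of_disjoint]
      · congr 1
        rw [Finset.card_eq_three]
        exact ⟨_, _, _, hne 0 1 (by omega) (by omega) (by omega),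
          hne 0 _ (by omega) (by omega) (by omega), hne 1 _ (by omega) (by omega) (by omega), rfl⟩
      · rw [Finset.disjoint_left]
        intro j hj hj'
        simp only [Finset.mem_insert, Finset.mem_singleton] at hj'
        rcases hj' with rfl | rfl | rfl
        · exact hspA _ (by omega) (hFA _ hj)
        · exact hspA _ (by omega) (hFA _ hj)
        · exact hspA _ (by omega) (hFA _ hj)
    · rw [if_neg hb]
      congr 1
      ext j
      simp only [hS]
      rw [hSf]
      tauto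
  -- the set of used slots
  let D : Finset (Fin k) := lA.toFinset ∪ {sp 0, sp 1, sp 2, sp 3}
  have hD : ∀ j, j ∈ D ↔ j ∈ lA ∨ ∃ i, i < 4 ∧ j = sp i := by
    intro j
    simp only [D, Finset.mem_union, List.mem_toFinset, Finset.mem_insert, Finset.mem_singleton]
    constructor
    · rintro (h | h | h | h | h)
      · exact Or.inl h
      · exact Or.inr ⟨0, by omega, h⟩
      · exact Or.inr ⟨1, by omega, h⟩
      · exact Or.inr ⟨2, by omega, h⟩
      · exact Or.inr ⟨3, by omega, h⟩
    · rintro (h | ⟨i, hi, h⟩)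
      · exact Or.inl h
      · right
        have : i = 0 ∨ i = 1 ∨ i = 2 ∨ i = 3 := by omega
        rcases this with rfl | rfl | rfl | rfl <;> tauto
  have hDc : D.card ≤ a + 4 := by
    calc D.card ≤ lA.toFinset.card + ({sp 0, sp 1, sp 2, sp 3} : Finset (Fin k)).card :=
          Finset.card_union_le _ _
      _ ≤ a + 4 := Nat.add_le_add ((List.toFinset_card_le _).trans hlA) Finset.card_le_four
  have hSD : ∀ i j, j ∈ S i → j ∈ D := by
    intro i j hj
    simp only [hS] at hj
    rw [hSf] at hj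
    rw [hD]
    rcases hj with h | ⟨_, h | h | h⟩
    · exact Or.inl (hFA _ h)
    · exact Or.inr ⟨_, by omega, h⟩
    · exact Or.inr ⟨1, by omega, h⟩
    · exact Or.inr ⟨3 - i % 2, by omega, h⟩
  have hτD : ∀ i cl j, cl < 6 → (τ i cl).Used j → j ∈ D := by
    intro i cl j hcl hj
    rw [hD]
    exact hused _ _ _ (by omega) hcl hj
  -- membership for all n
  have hFall : ∀ n, InF L (dropL (lA ++ [sp 0, sp 1, sp (2 + n % 2)]) (patT v S τ n)).intGraph := by
    intro n
    obtain ⟨n', h1, h2, h3⟩ := patT_early (h := h) v S τ (fun i j hij => by simp only [hv, hij])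
      (fun i j hij => by simp only [hS, hij]) (fun i j hij => by simp only [hτ, hij]) D hSD hτD
      (inB (a + 4) h) (inB_mono hDc) n
    have h4 := hF n' h1
    rw [h2] at h4
    exact inF_of_tinfo L hL _ _ (dropL_tinfo h3 _) h4
  -- closedness
  have hcl : ∀ n i, ¬ (dropL (lA ++ [sp 0, sp 1, sp (2 + n % 2)]) (patT v S τ n)).Used i := by
    intro n i hi
    obtain ⟨h1, h2⟩ := dropL_used _ hi
    have h3 := patT_used (D := ↑D) (fun i j hj => hSD i j hj)
        (fun i cl j hcl hj => hτD i cl j hcl hj) _ _ h2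
    rw [Finset.mem_coe, hD] at h3
    simp only [List.mem_append, List.mem_cons, List.not_mem_nil, or_false, not_or] at h1
    obtain ⟨g1, g2, g3, g4⟩ := h1
    rcases h3 with h3 | ⟨j, hj, rfl⟩
    · exact g1 h3
    · cases n with
      | zero =>
        obtain ⟨x, _⟩ := h2
        exact x.elim
      | succ n =>
        have h5 := (drop_used h2).1
        have hj4 : j = 0 ∨ j = 1 ∨ j = 2 + (n + 1) % 2 ∨ j = 2 + n % 2 := by omega
        rcases hj4 with rfl | rfl | rfl | rfl
        · exact g2 rfl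
        · exact g3 rfl
        · exact g4 rfl
        · exact h5 rfl
  -- numerical data
  have hnum : ∀ n : ℕ, 2 * ((patT v S τ n).ed : ℝ) - r * (patT v S τ n).nu =
      n * (2 * ((FA.card : ℝ) + 3 * (if bE then 1 else 0)) + ∑ cl ∈ Finset.range 6, w cl - r) := by
    intro n
    induction n with
    | zero => simp [patT, Term.ed, Term.nu]
    | succ n ih =>
      have h1 : (patT v S τ (n + 1)).ed = (patT v S τ n).ed +
          ∑ cl ∈ Finset.range 6, (τ n cl).ed + (FA.card + (if bE then 3 else 0)) := by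
        rw [← hcard n, ← joinN_ed]
        rfl
      have h2 : (patT v S τ (n + 1)).nu = (patT v S τ n).nu +
          ∑ cl ∈ Finset.range 6, (τ n cl).nu + 1 := by
        rw [← joinN_nu]
        rfl
      have h3 : ∑ cl ∈ Finset.range 6, w cl = 2 * ∑ cl ∈ Finset.range 6, ((τ n cl).ed : ℝ) -
          r * ∑ cl ∈ Finset.range 6, ((τ n cl).nu : ℝ) := by
        rw [Finset.mul_sum, Finset.mul_sum, ← Finset.sum_sub_distrib]
        apply Finset.sum_congr rfl
        intro cl hcl
        rw [← hw (n % 2) cl (by omega) (Finset.mem_range.1 hcl)]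
      have h4 : (if bE then (3 : ℝ) else 0) = 3 * (if bE then 1 else 0) := by
        split_ifs <;> simp
      rw [h1, h2]
      push_cast
      rw [h4]
      rw [h3] at ih ⊢
      linarith
  -- conclusion
  by_contra hcon
  push Not at hcon
  set δ := 2 * ((FA.card : ℝ) + 3 * (if bE then 1 else 0)) + ∑ cl ∈ Finset.range 6, w cl - r
    with hδ
  have hδ0 : 0 < δ := by linarith
  obtain ⟨n, hn⟩ := exists_nat_gt ((2 * (k : ℝ) * bmB k h + r * (lA.length + 3)) / δ)
  rw [div_lt_iff₀ hδ0] at hn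
  have h1 := pump_bound L hL r hr hper _ (hcl n) (hFall n)
  rw [dropL_ed, dropL_nu] at h1
  have h2 := hnum n
  rw [List.length_append] at h1
  simp only [List.length_cons, List.length_nil] at h1
  push_cast at h1
  linarith

end Pool.Agent.Lib.MP_4d119b_lc
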