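import Pool.Agent.Lib.MP_4d119b_lc.Final1

/-! The contradiction inside a large array of cells. -/

namespace Pool.Agent.Lib.MP_4d119b_lc

open Set Term

variable {V : Type} {G : SimpleGraph V} {A U : Set V} {k : ℕ}

/-- an array without large complete minor has a cell with a contractible deep edge -/
theorem exists_cheap_edge [Finite V] {n t : ℕ} (CA : CellArray G A U n) (htn : t ≤ n)
    (hK : ¬ HasK G t) : ∃ x y, x < t ∧ y < t ∧ ∃ u v, (CA.C x y).Deep 7 u ∧
      (CA.C x y).TG.Adj u v ∧ ((CA.C x y).com u v).ncard ≤ 2 := by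
  classical
  by_contra hcon
  push Not at hcon
  apply hK
  apply K_of_crosses CA htn
  intro i j hi hj
  apply Cell.cross_of_common
  intro u v hu _ huv
  have h3 := hcon i j hi hj u v hu huv
  have : Fintype ((CA.C i j).com u v) := Fintype.ofFinite _
  have h4 : Fintype.card (Fin 3) ≤ Fintype.card ((CA.C i j).com u v) := by
    rw [Fintype.card_fin, ← Nat.card_eq_fintype_card, Nat.card_coe_set_eq]
    omega
  obtain ⟨f⟩ := Function.Embedding.nonempty_of_card_le h4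
  exact ⟨fun i => (f i).1, fun a b hab => f.injective (Subtype.ext hab), fun a => (f a).2⟩

/-- slots for the apex vertices -/
theorem exists_slots [Finite V] {a k : ℕ} (hA : A.ncard ≤ a) (hak : a + 4 ≤ k) :
    ∃ (sA : V → Fin k) (sp : ℕ → Fin k), Set.InjOn sA A ∧
      (∀ i j, i < 4 → j < 4 → sp i = sp j → i = j) ∧ ∀ j, j < 4 → ∀ a ∈ A, sA a ≠ sp j := by
  classical
  let e := Finite.equivFin A
  have hc : Nat.card A = A.ncard := Nat.card_coe_set_eq A
  refine ⟨fun v => if h : v ∈ A then ⟨(e ⟨v, h⟩).val + 4, by have := (e ⟨v, h⟩).2; omega⟩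
    else ⟨0, by omega⟩, fun i => ⟨i % 4, by omega⟩, ?_, ?_, ?_⟩
  · intro x hx y hy hxy
    simp only [dif_pos hx, dif_pos hy, Fin.mk.injEq] at hxy
    have h1 : e ⟨x, hx⟩ = e ⟨y, hy⟩ := Fin.ext (by omega)
    exact congrArg Subtype.val (e.injective h1)
  · intro i j hi hj hij
    simp only [Fin.mk.injEq] at hij
    omega
  · intro j hj a ha hcon
    simp only [dif_pos ha, Fin.mk.injEq] at hcon
    omega

/-- sets of deep torso vertices -/
def DS (c : Cell G A) (j : ℕ) : Set (Set V) := {R | R ⊆ c.S ∧ R.ncard = j ∧ ∀ x ∈ R, c.Deep 10 x}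

theorem DS_nonempty [Finite V] (c : Cell G A) {j : ℕ} (hj : j ≤ 3) : (DS c j).Nonempty := by
  classical
  obtain ⟨r, hr, h⟩ := c.exists_three
  refine ⟨r '' {i | (i : ℕ) < j}, ?_, ?_, ?_⟩
  · rintro _ ⟨i, _, rfl⟩; exact (h i).1
  · rw [Set.ncard_image_of_injective _ hr]
    have : {i : Fin 3 | (i : ℕ) < j} = ((Finset.univ.filter
      (fun i : Fin 3 => (i : ℕ) < j) : Finset (Fin 3)) : Set (Fin 3)) := by ext; simp
    rw [this, Set.ncard_coe_finset]
    have hj4 : j = 0 ∨ j = 1 ∨ j = 2 ∨ j = 3 := by omega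
    rcases hj4 with rfl | rfl | rfl | rfl <;> decide
  · rintro _ ⟨i, _, rfl⟩; exact (h i).2

/-- best root sets -/
theorem exists_best [Finite V] {n : ℕ} (CA : CellArray G A U n) (hn : 0 < n) (r : ℝ) {j : ℕ}
    (hj : j ≤ 3) : ∃ x y R, x < n ∧ y < n ∧ R ∈ DS (CA.C x y) j ∧
      ∀ x' y' R', x' < n → y' < n → R' ∈ DS (CA.C x' y') j →
        (CA.C x' y').val r R' ≤ (CA.C x y).val r R := by
  classical
  obtain ⟨R0, hR0⟩ := DS_nonempty (CA.C 0 0) hj
  obtain ⟨⟨⟨x, y⟩, R⟩, hp, hmax⟩ := Set.exists_max_image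
    {p : (Fin n × Fin n) × Set V | p.2 ∈ DS (CA.C p.1.1 p.1.2) j}
    (fun p => (CA.C p.1.1 p.1.2).val r p.2) (Set.toFinite _) ⟨((⟨0, hn⟩, ⟨0, hn⟩), R0), hR0⟩
  refine ⟨x, y, R, x.2, y.2, hp, ?_⟩
  intro x' y' R' hx' hy' hR'
  exact hmax ((⟨x', hx'⟩, ⟨y', hy'⟩), R') hR'

theorem csz_cases {cl : ℕ} : csz cl = 1 ∨ csz cl = 2 ∨ csz cl = 3 := by
  unfold csz; split_ifs <;> omega

theorem flE_one {R : Set V} (h : R.ncard = 1) : ¬ flE G R := fun h' => by
  have := h'.1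
  omega

theorem flA_ne {R : Set V} (h : R.ncard ≠ 1) : flA G A R = ∅ := by
  ext a
  simp [flA, h]

theorem flE_three {R : Set V} (h : R.ncard = 3) : ¬ flE G R := fun h' => by
  have := h'.1
  omega

/-- number of labels -/
theorem card_labels [Finite V] {k h a : ℕ} (sA : V → Fin k) (hA : A.ncard ≤ a)
    (D : Finset (Fin k)) (hD : D.card ≤ a + 4) :
    ({cl : ℕ | cl < 6} ×ˢ ({par : ℕ | par < 2} ×ˢ (𝒫 (sA '' A) ×ˢ ((Set.univ : Set Prop) ×ˢ
      {I | ∃ t : Term k, (∀ i, t.Used i → i ∈ D) ∧ t.tinfo h = I})))).ncard ≤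
      24 * 2 ^ a * inB (a + 4) h := by
  rw [Set.ncard_prod, Set.ncard_prod, Set.ncard_prod, Set.ncard_prod]
  have h6 : ({cl : ℕ | cl < 6} : Set ℕ).ncard = 6 := by
    have : ({cl : ℕ | cl < 6} : Set ℕ) = ↑(Finset.range 6) := by ext; simp
    rw [this, Set.ncard_coe_finset, Finset.card_range]
  have h2 : ({cl : ℕ | cl < 2} : Set ℕ).ncard = 2 := by
    have : ({cl : ℕ | cl < 2} : Set ℕ) = ↑(Finset.range 2) := by ext; simp
    rw [this, Set.ncard_coe_finset, Finset.card_range]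
  have hP : (Set.univ : Set Prop).ncard = 2 := by
    rw [Set.ncard_univ, Nat.card_eq_fintype_card, Fintype.card_prop]
  have hS : (𝒫 (sA '' A)).ncard ≤ 2 ^ a := by
    rw [Set.ncard_powerset _ (Set.toFinite _)]
    exact Nat.pow_le_pow_right (by norm_num) ((Set.ncard_image_le (Set.toFinite _)).trans hA)
  have hI := (card_tinfo (h := h) D).trans (inB_mono hD)
  rw [h6, h2, hP]
  calc 6 * (2 * ((𝒫 (sA '' A)).ncard * (2 * _))) ≤ 6 * (2 * (2 ^ a * (2 * inB (a + 4) h))) :=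
        Nat.mul_le_mul_left _ (Nat.mul_le_mul_left _ (Nat.mul_le_mul hS
          (Nat.mul_le_mul_left _ hI)))
    _ = 24 * 2 ^ a * inB (a + 4) h := by ring

theorem struct_contra [Finite V] {L : List (ℕ × List (ℕ × ℕ))} {h t κ a : ℕ} {r K : ℝ}
    (hL : ∀ c ∈ L, c.1 ≤ h) (hr : 0 ≤ r)
    (hper : ∀ a b : ℕ, ∀ E : ℕ → ℕ → Prop, a ≤ k → 1 ≤ b → b ≤ bmB k h →
      (∀ N, InF L (perGraph a b E N)) → 2 * (cnt a b E : ℝ) ≤ r * b)
    (hF : InF L G) (hK : ¬ HasK G t) (hcex : Cex r K G) (hκ : 1 ≤ κ) (hk : 4 * κ ≤ k)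
    (hak : a + 4 ≤ k) (hq : a + 3 ≤ 3 * κ) (hA : A.ncard ≤ a) (hU : UMin G U κ (a + 3))
    (s M : ℕ) (hs : 15 * (2 * inB (a + 4) h) + 15 + t ≤ s)
    (hM : 24 * 2 ^ a * inB (a + 4) h ≤ M)
    (CA₀ : CellArray G A U (s ^ (M + 1))) : False := by
  classical
  obtain ⟨sA, sp, hsA, hsp, hspA⟩ := exists_slots (A := A) hA hak
  -- list of apex slots
  let lA : List (Fin k) := ((Set.toFinite A).toFinset.image sA).toList
  have hlA1 : lA.Nodup := Finset.nodup_toList _
  have hlA2 : ∀ j, j ∈ lA ↔ ∃ a ∈ A, sA a = j := by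
    intro j
    simp only [lA, Finset.mem_toList, Finset.mem_image, Set.Finite.mem_toFinset]
  have hlA3 : lA.length ≤ a := by
    simp only [lA, Finset.length_toList]
    refine Finset.card_image_le.trans ?_
    rw [← Set.ncard_eq_toFinset_card A (Set.toFinite A)]
    exact hA
  have hspl : ∀ j, j < 4 → sp j ∉ lA := by
    intro j hj hjl
    obtain ⟨a, ha, h1⟩ := (hlA2 _).1 hjl
    exact hspA j hj a ha h1
  -- the set of slots
  let D : Finset (Fin k) := lA.toFinset ∪ {sp 0, sp 1, sp 2, sp 3}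
  have hDc : D.card ≤ a + 4 := by
    calc D.card ≤ lA.toFinset.card + ({sp 0, sp 1, sp 2, sp 3} : Finset (Fin k)).card :=
          Finset.card_union_le _ _
      _ ≤ a + 4 := Nat.add_le_add ((List.toFinset_card_le _).trans hlA3) Finset.card_le_four
  have hDsp : ∀ i, i < 4 → sp i ∈ D := by
    intro i hi
    simp only [D, Finset.mem_union, Finset.mem_insert, Finset.mem_singleton]
    right
    have : i = 0 ∨ i = 1 ∨ i = 2 ∨ i = 3 := by omega
    rcases this with rfl | rfl | rfl | rfl <;> tauto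
  -- used slots of local terms
  have hlocU : ∀ (c : Cell G A) (cl par : ℕ) (r : ℕ → V) (C : ℕ → Set V) (tt : Term k),
      par < 2 → LocD c (csz cl) (prt cl) (fun q => sp (spc par cl q)) sA tt r C →
      ∀ j, tt.Used j → j ∈ lA ∨ ∃ i, i < 4 ∧ j = sp i := by
    intro c cl par r C tt hpar hloc j hj
    obtain ⟨x, hx, rfl⟩ := hloc.rep.used hj
    rcases hx with ⟨q, hq, rfl⟩ | hx
    · rw [sig_root hloc.inj hq]
      exact Or.inr ⟨_, spc_lt hpar, rfl⟩
    · rw [sig_other]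
      · exact Or.inl ((hlA2 _).2 ⟨x, hx, rfl⟩)
      · rintro ⟨q, hq, rfl⟩
        exact Set.disjoint_left.1 c.disjA (c.S_sub (hloc.inS q hq)) hx
  have hlocD : ∀ (c : Cell G A) (cl par : ℕ) (r : ℕ → V) (C : ℕ → Set V) (tt : Term k),
      par < 2 → LocD c (csz cl) (prt cl) (fun q => sp (spc par cl q)) sA tt r C →
      ∀ j, tt.Used j → j ∈ D := by
    intro c cl par r C tt hpar hloc j hj
    rcases hlocU c cl par r C tt hpar hloc j hj with h1 | ⟨i, hi, rfl⟩
    · exact Finset.mem_union_left _ (List.mem_toFinset.2 h1)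
    · exact hDsp i hi
  -- labels
  let P : ℕ × ℕ × Set (Fin k) × Prop × Set (Set (Fin h) × (Fin k ⊕ Fin h → Fin k ⊕ Fin h → Prop)) →
      ℕ → ℕ → Prop := fun p x y => ∃ r C tt, LocD (CA₀.C x y) (csz p.1) (prt p.1)
        (fun q => sp (spc p.2.1 p.1 q)) sA tt r C ∧
        sA '' flA G A (rset (csz p.1) r) = p.2.2.1 ∧
        (flE G (rset (csz p.1) r) ↔ p.2.2.2.1) ∧ tt.tinfo h = p.2.2.2.2
  have hs1 : 1 ≤ s := by omega
  obtain ⟨x1, y1, m, hm, _, hx1, _, hy1, hall⟩ := refine_types P s hs1 M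
    ({cl : ℕ | cl < 6} ×ˢ ({par : ℕ | par < 2} ×ˢ (𝒫 (sA '' A) ×ˢ ((Set.univ : Set Prop) ×ˢ
      {I | ∃ t : Term k, (∀ i, t.Used i → i ∈ D) ∧ t.tinfo h = I}))))
    ((Set.finite_lt_nat 6).prod ((Set.finite_lt_nat 2).prod (Set.toFinite _)))
    ((card_labels sA hA D hDc).trans hM) 0 0
  simp only [Nat.zero_add] at hx1 hy1
  let CA : CellArray G A U (s * m) := CA₀.shift x1 y1 (s * m) hx1 hy1
  have hsm : s ≤ s * m := Nat.le_mul_of_pos_right s (by omega)
  have hsm0 : 0 < s * m := by omega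
  -- best root sets
  have hbest : ∀ j : ℕ, ∃ x y R, j ≤ 3 → (x < s * m ∧ y < s * m ∧ R ∈ DS (CA.C x y) j ∧
      ∀ x' y' R', x' < s * m → y' < s * m → R' ∈ DS (CA.C x' y') j →
        (CA.C x' y').val r R' ≤ (CA.C x y).val r R) := by
    intro j
    by_cases hj : j ≤ 3
    · obtain ⟨x, y, R, hh⟩ := exists_best CA hsm0 r hj
      exact ⟨x, y, R, fun _ => hh⟩
    · exact ⟨0, 0, ∅, fun h => absurd h hj⟩
  choose bx bY R hR using hbest
  have hcsz3 : ∀ cl, csz cl ≤ 3 := fun cl => by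
    rcases csz_cases (cl := cl) with h | h | h <;> omega
  have hcsz1 : ∀ cl, 1 ≤ csz cl := fun cl => by
    rcases csz_cases (cl := cl) with h | h | h <;> omega
  -- terms at the best cells
  have hterm : ∀ par cl : ℕ, ∃ r C tt, par < 2 → cl < 6 →
      (LocD (CA.C (bx (csz cl)) (bY (csz cl))) (csz cl) (prt cl) (fun q => sp (spc par cl q)) sA
        tt r C ∧ rset (csz cl) r = R (csz cl)) := by
    intro par cl
    by_cases hh : par < 2 ∧ cl < 6
    · obtain ⟨hx, hy, hRD, _⟩ := hR (csz cl) (hcsz3 cl)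
      obtain ⟨r', C, tt, hh1, hh2⟩ := exists_loc (k := k) (CA.C (bx (csz cl)) (bY (csz cl))) hκ hk
        hq hA hU (CA.inU _ _ hx hy) (CA.nbU _ _ hx hy) (hcsz1 cl) (hcsz3 cl) hRD.2.1 hRD.1
        hRD.2.2 (prt cl) (fun m m' hm hm' h => prt_inj hh.2 hm hm' h)
        (fun q => sp (spc par cl q)) (fun m m' hm hm' h => spc_inj hh.1 hh.2 hm hm'
          (hsp _ _ (spc_lt hh.1) (spc_lt hh.1) h)) sA (fun m _ a ha => hspA _ (spc_lt hh.1) a ha)
        hsA
      exact ⟨r', C, tt, fun _ _ => ⟨hh1, hh2⟩⟩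
    · exact ⟨fun _ => (CA.C 0 0).port 0, fun _ => ∅, Term.nil, fun h1 h2 => absurd ⟨h1, h2⟩ hh⟩
  choose rb Cb tb htb using hterm
  -- presence of the labels
  have hpres : ∀ par cl, par < 2 → cl < 6 → ∀ i j, i < s → j < s → ∃ x y, i * m ≤ x ∧
      x < (i + 1) * m ∧ j * m ≤ y ∧ y < (j + 1) * m ∧
      ∃ r C tt, LocD (CA.C x y) (csz cl) (prt cl) (fun q => sp (spc par cl q)) sA tt r C ∧
        sA '' flA G A (rset (csz cl) r) = sA '' flA G A (R (csz cl)) ∧
        (flE G (rset (csz cl) r) ↔ flE G (R (csz cl))) ∧ tt.tinfo h = (tb par cl).tinfo h := by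
    intro par cl hpar hcl i j hi hj
    obtain ⟨hx, hy, hRD, _⟩ := hR (csz cl) (hcsz3 cl)
    obtain ⟨hl1, hl2⟩ := htb par cl hpar hcl
    obtain ⟨x, y, g1, g2, g3, g4, g5⟩ := hall
      (cl, par, sA '' flA G A (R (csz cl)), flE G (R (csz cl)), (tb par cl).tinfo h)
      ⟨hcl, hpar, Set.image_mono (fun a ha => ha.1), Set.mem_univ _,
        ⟨tb par cl, hlocD _ _ _ _ _ _ hpar hl1, rfl⟩⟩
      ⟨x1 + bx (csz cl), y1 + bY (csz cl), by omega, by omega, by omega, by omega,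
        rb par cl, Cb par cl, tb par cl, hl1, by rw [hl2], by rw [hl2], rfl⟩ i j hi hj
    obtain ⟨x', rfl⟩ : ∃ x', x = x1 + x' := ⟨x - x1, by omega⟩
    obtain ⟨y', rfl⟩ : ∃ y', y = y1 + y' := ⟨y - y1, by omega⟩
    exact ⟨x', y', by omega, by omega, by omega, by omega, g5⟩
  -- flags
  set FA : Set (Fin k) := sA '' flA G A (R 1) with hFAdef
  set bE : Prop := flE G (R 2) with hbEdef
  let Sf : ℕ → Finset (Fin k) := fun par =>
    (Set.toFinite {j | j ∈ FA ∨ (bE ∧ (j = sp 0 ∨ j = sp 1 ∨ j = sp (3 - par)))}).toFinset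
  have hSf : ∀ par j, j ∈ Sf par ↔ j ∈ FA ∨ (bE ∧ (j = sp 0 ∨ j = sp 1 ∨ j = sp (3 - par))) := by
    intro par j
    simp only [Sf, Set.Finite.mem_toFinset, mem_ofPred_eq]
  obtain ⟨τ, hτ1, hτ2⟩ := pattern_minor (N := 2 * inB (a + 4) h) CA hm (by omega) sA hsA sp hsp
    hspA FA bE (fun par cl => (tb par cl).tinfo h) (by
      intro X Y hX hY
      obtain ⟨x, y, g1, g2, g3, g4, r', C, tt, g5, g6, g7, g8⟩ := hpres (X / 5 % 2) (clOf X Y)
        (by omega) (clOf_lt X Y) (3 * X + 1) (3 * Y + 1) (by omega) (by omega)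
      refine ⟨x, y, r', C, tt, g1, g2, g3, g4, g5, ?_, ?_, g8⟩
      · intro h0
        rw [g6, h0]
        rfl
      · intro h1 h2
        rw [g7]
        have : csz (clOf X Y) = 2 := by
          unfold csz
          rw [if_neg (by omega), if_pos h2]
        rw [this]) Sf hSf lA hlA1 hlA2
  -- the pattern is in the class
  have hFn : ∀ n, n ≤ 2 * inB (a + 4) h →
      InF L (dropL (lA ++ [sp 0, sp 1, sp (2 + n % 2)])
        (patT (fun i => sp (2 + i % 2)) (fun i => Sf (i % 2)) (fun i cl => tb (i % 2) cl)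
          n)).intGraph := by
    intro n hn
    refine inF_of_tinfo L hL _ _ (dropL_tinfo (patT_tinfo _ _ n ?_) _) (hF.minor (hτ2 n hn))
    intro i cl hi hcl
    exact hτ1 i cl (by omega) hcl
  -- values
  let w : ℕ → ℝ := fun cl => rel r G ((CA.C (bx (csz cl)) (bY (csz cl))).bun (R (csz cl)))
  have hw : ∀ par cl, par < 2 → cl < 6 → 2 * ((tb par cl).ed : ℝ) - r * (tb par cl).nu = w cl := by
    intro par cl hpar hcl
    obtain ⟨hx, hy, hRD, _⟩ := hR (csz cl) (hcsz3 cl)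
    obtain ⟨hl1, hl2⟩ := htb par cl hpar hcl
    have hrep := hl1.rep
    have hinj := sig_injOn hl1.inj (fun m m' hm hm' h => spc_inj hpar hcl hm hm'
          (hsp _ _ (spc_lt hpar) (spc_lt hpar) h)) (fun m _ a ha => hspA _ (spc_lt hpar) a ha)
        hsA (fun a ha har => by
          obtain ⟨q, hq, rfl⟩ := har
          exact Set.disjoint_left.1 (CA.C (bx (csz cl)) (bY (csz cl))).disjA
            ((CA.C (bx (csz cl)) (bY (csz cl))).S_sub (hl1.inS q hq)) ha)
    rw [hl2] at hrep hinj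
    exact (CA.C (bx (csz cl)) (bY (csz cl))).bun_term_num (R (csz cl))
      ((Set.ncard_pos (Set.toFinite _)).1 (by rw [hRD.2.1]; exact hcsz1 cl)) hRD.2.2 hRD.1 hinj
      hrep r
  let FAf : Finset (Fin k) := (Set.toFinite FA).toFinset
  have hθ := theta_le (a := a) L hL r hr hper sp hsp lA hlA3 hspl FAf (by
    intro j hj
    simp only [FAf, Set.Finite.mem_toFinset] at hj
    obtain ⟨b, hb, rfl⟩ := hj
    exact (hlA2 _).2 ⟨b, hb.1, rfl⟩) bE tb (fun par cl j hpar hcl hj =>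
      hlocU _ _ _ _ _ _ hpar (htb par cl hpar hcl).1 j hj) Sf (by
    intro par j
    rw [hSf]
    simp only [FAf, Set.Finite.mem_toFinset]) hFn w hw
  have hFAc : FAf.card = (flA G A (R 1)).ncard := by
    rw [← Set.ncard_eq_toFinset_card FA (Set.toFinite FA), hFAdef]
    exact Set.InjOn.ncard_image (hsA.mono (fun a ha => ha.1))
  obtain ⟨hx1', hy1', hRD1, hmax1⟩ := hR 1 (by omega)
  obtain ⟨hx2', hy2', hRD2, hmax2⟩ := hR 2 (by omega)
  obtain ⟨hx3', hy3', hRD3, hmax3⟩ := hR 3 (by omega)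
  have hsum : ∑ cl ∈ Finset.range 6, w cl = w 0 + 3 * w 1 + 2 * w 4 := by
    simp only [Finset.sum_range_succ, Finset.sum_range_zero]
    have e1 : w 2 = w 1 := rfl
    have e2 : w 3 = w 1 := rfl
    have e3 : w 5 = w 4 := rfl
    rw [e1, e2, e3]
    ring
  have hv1 : (CA.C (bx 1) (bY 1)).val r (R 1) = w 0 + 2 * (FAf.card : ℝ) := by
    have e0 : w 0 = rel r G ((CA.C (bx 1) (bY 1)).bun (R 1)) := rfl
    rw [e0, hFAc]
    unfold Cell.val
    rw [if_neg (flE_one hRD1.2.1)]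
    ring
  have hv2 : (CA.C (bx 2) (bY 2)).val r (R 2) = w 1 + 2 * (if bE then 1 else 0) := by
    have e0 : w 1 = rel r G ((CA.C (bx 2) (bY 2)).bun (R 2)) := rfl
    rw [e0]
    unfold Cell.val
    rw [flA_ne (by rw [hRD2.2.1]; omega), Set.ncard_empty]
    simp [hbEdef]
  have hv3 : (CA.C (bx 3) (bY 3)).val r (R 3) = w 4 := by
    have e0 : w 4 = rel r G ((CA.C (bx 3) (bY 3)).bun (R 3)) := rfl
    rw [e0]
    unfold Cell.val
    rw [flA_ne (by rw [hRD3.2.1]; omega), Set.ncard_empty, if_neg (flE_three hRD3.2.1)]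
    ring
  -- the cheap edge
  obtain ⟨x, y, hx, hy, u, v, hu, huv, hcom⟩ := exists_cheap_edge CA (t := t) (by omega) hK
  have hxn : x < s * m := by omega
  have hyn : y < s * m := by omega
  have huS : u ∈ (CA.C x y).S := huv.2.1
  have hvS : v ∈ (CA.C x y).S := huv.2.2.1
  have hud : (CA.C x y).Deep 10 u := hu.mono (by omega)
  have hvd : (CA.C x y).Deep 10 v := Cell.Deep.TG hu huv
  have hd1 : ∀ z, z ∈ (CA.C x y).S → (CA.C x y).Deep 10 z →
      (CA.C x y).val1 r z ≤ (CA.C (bx 1) (bY 1)).val r (R 1) := by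
    intro z hz hzd
    rw [← Cell.val_one]
    refine hmax1 x y {z} hxn hyn ⟨?_, Set.ncard_singleton z, ?_⟩
    · rintro _ rfl; exact hz
    · rintro _ rfl; exact hzd
  have hd2 : ∀ z z', z ≠ z' → z ∈ (CA.C x y).S → (CA.C x y).Deep 10 z → z' ∈ (CA.C x y).S →
      (CA.C x y).Deep 10 z' → (CA.C x y).val2 r z z' ≤ (CA.C (bx 2) (bY 2)).val r (R 2) := by
    intro z z' hne hz hzd hz' hzd'
    rw [← Cell.val_two _ _ hne]
    refine hmax2 x y {z, z'} hxn hyn ⟨?_, Set.ncard_pair hne, ?_⟩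
    · rintro _ (rfl | rfl)
      · exact hz
      · exact hz'
    · rintro _ (rfl | rfl)
      · exact hzd
      · exact hzd'
  have hcontr := (CA.C x y).contraction hcex hu huv hcom (hd1 u huS hud)
    (hd2 u v huv.1 huS hud hvS hvd)
    (fun z hz => hd2 u z hz.1.1 huS hud hz.1.2.2.1 (Cell.Deep.TG hu hz.1))
    (θ₃ := (CA.C (bx 3) (bY 3)).val r (R 3)) (by
      intro z hz
      have hzd : (CA.C x y).Deep 10 z := Cell.Deep.TG hu hz.1
      have h1 : u ≠ v := huv.1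
      have h2 : u ≠ z := hz.1.1
      have h3 : v ≠ z := hz.2.1
      rw [← Cell.val_three _ _ h1 h2 h3]
      refine hmax3 x y {u, v, z} hxn hyn ⟨?_, ?_, ?_⟩
      · rintro _ (rfl | rfl | rfl)
        · exact huS
        · exact hvS
        · exact hz.1.2.2.1
      · rw [Set.ncard_insert_of_notMem _ (Set.toFinite _), Set.ncard_pair h3]
        rintro (h | h)
        · exact h1 h
        · exact h2 h
      · rintro _ (rfl | rfl | rfl)
        · exact hud
        · exact hvd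
        · exact hzd) (by
      rw [hv2]
      have : 0 ≤ w 1 := hcex.rel_nonneg _
      split_ifs <;> linarith) (by
      rw [hv3]
      exact hcex.rel_nonneg _)
  rw [hv1, hv2, hv3] at hcontr
  rw [hsum] at hθ
  linarith

end Pool.Agent.Lib.MP_4d119b_lc
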