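import Pool.Agent.Lib.MP_4d119b_lc.Grid3

/-! Job Grid, part 4: `grid_or_K`. -/

namespace Pool.Agent.Lib.MP_4d119b_lc

open Set

namespace Grid

variable {V : Type}

/-- `n` disjoint paths from `S` to `T` inside `W` -/
def Link (G : SimpleGraph V) (W S T : Set V) (n : ℕ) : Prop :=
  ∃ Q : Fin n → GP G, (∀ i, (Q i).p 0 ∈ S ∧ (Q i).p (Q i).len ∈ T ∧ (Q i).supp ⊆ W) ∧
    ∀ i j, i ≠ j → Disjoint (Q i).supp (Q j).supp

theorem Link.mono {G : SimpleGraph V} {W S T : Set V} {n n' : ℕ} (hn : n' ≤ n)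
    (h : Link G W S T n) : Link G W S T n' := by
  obtain ⟨Q, h1, h2⟩ := h
  refine ⟨fun i => Q (Fin.castLE hn i), fun i => h1 _, fun i j hij => h2 _ _ ?_⟩
  simpa using hij

/-- rerouting a linkage with as few edges outside the paths `P` as possible -/
theorem reroute [Finite V] {G : SimpleGraph V} {W S T : Set V} {ι : Type*} {n : ℕ}
    (P : ι → GP G) (hPW : ∀ i, (P i).supp ⊆ W) (hQ : Link G W S T n) :
    ∃ D : SimpleGraph V, D ≤ G ∧ PG P ≤ D ∧ (∀ x y, D.Adj x y → x ∈ W ∧ y ∈ W) ∧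
      ∃ Q : Fin n → GP D, (∀ i, (Q i).p 0 ∈ S ∩ W ∧ (Q i).p (Q i).len ∈ T ∩ W) ∧
        (∀ i j, i ≠ j → Disjoint (Q i).supp (Q j).supp) ∧
        ∀ x y, D.Adj x y → ¬ (PG P).Adj x y → ¬ NoSep (delE D x y) (S ∩ W) (T ∩ W) n := by
  classical
  let Good : SimpleGraph V → Prop := fun D => D ≤ G ∧ PG P ≤ D ∧
    (∀ x y, D.Adj x y → x ∈ W ∧ y ∈ W) ∧
      ∃ Q : Fin n → GP D, (∀ i, (Q i).p 0 ∈ S ∩ W ∧ (Q i).p (Q i).len ∈ T ∩ W) ∧
        (∀ i j, i ≠ j → Disjoint (Q i).supp (Q j).supp)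
  have hex : ∃ e, ∃ D, Good D ∧ D.edgeSet.ncard = e := by
    obtain ⟨Q, h1, h2⟩ := hQ
    let GW : SimpleGraph V :=
      { Adj := fun x y => G.Adj x y ∧ x ∈ W ∧ y ∈ W
        symm := ⟨fun x y h => ⟨h.1.symm, h.2.2, h.2.1⟩⟩
        loopless := ⟨fun x h => G.loopless.irrefl x h.1⟩ }
    refine ⟨_, GW, ⟨fun _ _ h => h.1, ?_, fun x y h => h.2, ?_⟩, rfl⟩
    · intro x y h
      obtain ⟨i, hx, hy⟩ := PG_supp P h
      exact ⟨PG_le P h, hPW i hx, hPW i hy⟩
    · refine ⟨fun i => (Q i).mapG (fun k hk => ⟨(Q i).adj k hk, (h1 i).2.2 ((Q i).mem_supp hk.le),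
        (h1 i).2.2 ((Q i).mem_supp hk)⟩), ?_, h2⟩
      intro i
      exact ⟨⟨(h1 i).1, (h1 i).2.2 ((Q i).mem_supp (Nat.zero_le _))⟩,
        (h1 i).2.1, (h1 i).2.2 ((Q i).mem_supp le_rfl)⟩
  obtain ⟨D, ⟨hD1, hD2, hD3, Q, hQ1, hQ2⟩, hDe⟩ := Nat.find_spec hex
  refine ⟨D, hD1, hD2, hD3, Q, hQ1, hQ2, ?_⟩
  intro x y hxy hxyP hno
  obtain ⟨Q', hQ'1, hQ'2⟩ := menger (delE D x y) (S ∩ W) (T ∩ W) n hno
  have hlt : (delE D x y).edgeSet.ncard < D.edgeSet.ncard := by
    apply Set.ncard_lt_ncard _ (Set.toFinite _)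
    refine ⟨SimpleGraph.edgeSet_mono (delE_le D x y), ?_⟩
    intro hcon
    have : s(x, y) ∈ (delE D x y).edgeSet := hcon hxy
    rw [SimpleGraph.mem_edgeSet] at this
    exact this.2.1 ⟨rfl, rfl⟩
  rw [hDe] at hlt
  refine Nat.find_min hex hlt ⟨delE D x y, ⟨(delE_le D x y).trans hD1, ?_, ?_, Q', ?_, hQ'2⟩,
    rfl⟩
  · intro a b hab
    refine ⟨hD2 hab, ?_, ?_⟩
    · rintro ⟨rfl, rfl⟩; exact hxyP hab
    · rintro ⟨rfl, rfl⟩; exact hxyP hab.symm
  · intro a b hab
    exact hD3 a b hab.1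
  · intro i
    exact ⟨(hQ'1 i).1, (hQ'1 i).2.1⟩

/-- a path in a graph all of whose edges are inside `W` stays inside `W` -/
theorem supp_sub {D : SimpleGraph V} {W : Set V} (hD : ∀ x y, D.Adj x y → x ∈ W ∧ y ∈ W)
    (Q : GP D) (h0 : Q.p 0 ∈ W) : Q.supp ⊆ W := by
  rintro v ⟨k, hk, rfl⟩
  rcases Nat.eq_zero_or_pos k with h | h
  · subst h; exact h0
  · have := (hD _ _ (Q.adj (k - 1) (by omega))).2
    rwa [show k - 1 + 1 = k by omega] at this

/-- number of paths needed for `m` demands -/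
def NB (L m : ℕ) : ℕ := L ^ (3 ^ m)

theorem NB_succ (L m : ℕ) : NB L (m + 1) = NB L m ^ 3 := by
  unfold NB
  rw [← pow_mul, pow_succ]

theorem le_NB {L : ℕ} (_ : 1 ≤ L) (m : ℕ) : L ≤ NB L m :=
  Nat.le_self_pow (by positivity) L

theorem NB_mono {L : ℕ} (hL : 1 ≤ L) {m m' : ℕ} (h : m ≤ m') : NB L m ≤ NB L m' :=
  Nat.pow_le_pow_right hL (Nat.pow_le_pow_right (by norm_num) h)

/-- **Selection theorem**: many disjoint paths for each of the demands give a grid or disjoint
connections for all demands -/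
theorem select [Finite V] {G : SimpleGraph V} {g d K L m0 : ℕ} (hd : (g + 2) ^ (g + 1) < d)
    (hK : (2 ^ d) ^ d * (2 * (g * g) + 2) ≤ K)
    (hL : (m0 + 1) * (K + d + 3) ^ 2 * (2 * K + 2) ≤ L) {ι : Type*} (S T : ι → Set V) :
    ∀ (m : ℕ) (I : Finset ι), I.card = m → m ≤ m0 → ∀ W : Set V,
      (∀ q ∈ I, Link G W (S q) (T q) (NB L m)) → Nonempty (GridModel G g) ∨
        ∃ C : ι → Set V, (∀ q ∈ I, Conn G (C q) ∧ C q ⊆ W ∧ (C q ∩ S q).Nonempty ∧
          (C q ∩ T q).Nonempty) ∧ ∀ q ∈ I, ∀ q' ∈ I, q ≠ q' → Disjoint (C q) (C q') := by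
  classical
  have hc1 : 1 ≤ K + d + 3 := by omega
  have hL1 : 1 ≤ L := by
    refine le_trans ?_ hL
    exact Nat.one_le_iff_ne_zero.2 (by positivity)
  intro m
  induction m with
  | zero =>
    intro I hI _ W _
    rw [Finset.card_eq_zero] at hI
    subst hI
    exact Or.inr ⟨fun _ => ∅, by simp, by simp⟩
  | succ m ih =>
    intro I hI hm W hlink
    have hIne : I.Nonempty := by
      rw [← Finset.card_pos]; omega
    obtain ⟨q0, hq0⟩ := hIne
    set I' := I.erase q0 with hI'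
    have hI'c : I'.card = m := by rw [hI', Finset.card_erase_of_mem hq0, hI]; rfl
    have hI'I : ∀ q ∈ I', q ∈ I := fun q hq => Finset.mem_of_mem_erase hq
    set a := NB L m with ha
    have haL : L ≤ a := le_NB hL1 m
    have ha1 : 1 ≤ a := hL1.trans haL
    have hsucc : NB L (m + 1) = a ^ 3 := NB_succ L m
    set cc := K + d + 3 with hcc
    set n := cc * a with hn
    have hca : 1 ≤ n := Nat.one_le_iff_ne_zero.2 (by positivity)
    have hcL : m * (cc ^ 2 * (2 * K + 2)) ≤ L := by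
      refine le_trans ?_ hL
      rw [mul_assoc]
      exact Nat.mul_le_mul_right _ (by omega)
    have hcL' : cc ≤ L := by
      refine le_trans ?_ hL
      have h1 : cc ≤ cc ^ 2 := Nat.le_self_pow (by norm_num) _
      have h2 : cc ^ 2 ≤ (m0 + 1) * cc ^ 2 := Nat.le_mul_of_pos_left _ (by omega)
      have h3 : (m0 + 1) * cc ^ 2 ≤ (m0 + 1) * cc ^ 2 * (2 * K + 2) :=
        Nat.le_mul_of_pos_right _ (by omega)
      exact h1.trans (h2.trans h3)
    have hnN : n ≤ NB L (m + 1) := by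
      rw [hsucc]
      calc n = cc * a := rfl
        _ ≤ a * a := Nat.mul_le_mul_right _ (hcL'.trans haL)
        _ ≤ a * a * a := Nat.le_mul_of_pos_right _ (by omega)
        _ = a ^ 3 := by ring
    have hMN : m * (n * (2 * n * K + 2)) ≤ NB L (m + 1) := by
      rw [hsucc]
      have h1 : 2 * n * K + 2 ≤ n * (2 * K + 2) := by nlinarith
      calc m * (n * (2 * n * K + 2)) ≤ m * (n * (n * (2 * K + 2))) :=
            Nat.mul_le_mul_left _ (Nat.mul_le_mul_left _ h1)
        _ = m * (cc ^ 2 * (2 * K + 2)) * (a * a) := by rw [hn]; ring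
        _ ≤ L * (a * a) := Nat.mul_le_mul_right _ hcL
        _ ≤ a * (a * a) := Nat.mul_le_mul_right _ haL
        _ = a ^ 3 := by ring
    have hnK : K * a + d + 1 ≤ n := by
      rw [hn, hcc]
      nlinarith
    have han : a ≤ n := by
      rw [hn]; exact Nat.le_mul_of_pos_left _ (by omega)
    obtain ⟨P, hP1, hP2⟩ := hlink q0 hq0
    have hre : ∀ q ∈ I', ∃ D : SimpleGraph V, D ≤ G ∧ PG P ≤ D ∧
        (∀ x y, D.Adj x y → x ∈ W ∧ y ∈ W) ∧
        ∃ Q : Fin n → GP D, (∀ i, (Q i).p 0 ∈ S q ∩ W ∧ (Q i).p (Q i).len ∈ T q ∩ W) ∧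
          (∀ i j, i ≠ j → Disjoint (Q i).supp (Q j).supp) ∧
          ∀ x y, D.Adj x y → ¬ (PG P).Adj x y →
            ¬ NoSep (delE D x y) (S q ∩ W) (T q ∩ W) n := fun q hq =>
      reroute P (fun i => (hP1 i).2.2) ((hlink q (hI'I q hq)).mono hnN)
    choose! D hD1 hD2 hD3 hD4 using hre
    by_cases hcase : ∃ i : Fin (NB L (m + 1)), ∀ q (hq : q ∈ I'),
        {j | ¬ Disjoint (P i).supp ((hD4 q hq).choose j).supp}.ncard + a ≤ n
    · obtain ⟨i, hi⟩ := hcase
      have hlink' : ∀ q ∈ I', Link G (W \ (P i).supp) (S q) (T q) a := by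
        intro q hq
        have h1 := (hD4 q hq).choose_spec
        have h0 := hi q hq
        set Q := (hD4 q hq).choose with hQ
        obtain ⟨hQ1, hQ2, _⟩ := h1
        have hcard : a ≤ (Finset.univ.filter
            (fun j => Disjoint (P i).supp (Q j).supp)).card := by
          have h2 : ({j | ¬ Disjoint (P i).supp (Q j).supp} : Set (Fin n)) =
              ↑(Finset.univ.filter (fun j => ¬ Disjoint (P i).supp (Q j).supp)) := by
            ext j; simp
          rw [h2, Set.ncard_coe_finset] at h0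
          have h3 := Finset.card_filter_add_card_filter_not
            (s := (Finset.univ : Finset (Fin n)))
            (fun j => Disjoint (P i).supp (Q j).supp)
          rw [Finset.card_univ, Fintype.card_fin] at h3
          omega
        have : Nonempty (Fin a ↪ {v // v ∈ Finset.univ.filter
            (fun j => Disjoint (P i).supp (Q j).supp)}) := by
          apply Function.Embedding.nonempty_of_card_le
          rw [Fintype.card_fin, Fintype.card_coe]
          exact hcard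
        obtain ⟨u⟩ := this
        refine ⟨fun k => (Q (u k).1).mapG (fun l hl => hD1 q hq ((Q (u k).1).adj l hl)),
          ?_, ?_⟩
        · intro k
          refine ⟨(hQ1 _).1.1, (hQ1 _).2.1, ?_⟩
          intro v hv
          refine ⟨supp_sub (hD3 q hq) (Q (u k).1) (hQ1 _).1.2 hv, ?_⟩
          intro hv'
          exact Set.disjoint_left.1 (Finset.mem_filter.1 (u k).2).2 hv' hv
        · intro k l hkl
          exact hQ2 _ _ (fun h => hkl (u.injective (Subtype.ext h)))
      rcases ih I' hI'c (by omega) _ hlink' with h | ⟨C, hC1, hC2⟩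
      · exact Or.inl h
      · right
        refine ⟨fun q => if q = q0 then (P i).supp else C q, ?_, ?_⟩
        · intro q hq
          by_cases hqq : q = q0
          · subst hqq
            simp only [if_true]
            exact ⟨(P i).supp_conn, (hP1 i).2.2,
              ⟨_, (P i).mem_supp (Nat.zero_le _), (hP1 i).1⟩,
              ⟨_, (P i).mem_supp le_rfl, (hP1 i).2.1⟩⟩
          · simp only [hqq, if_false]
            obtain ⟨h1, h2, h3, h4⟩ := hC1 q (Finset.mem_erase.2 ⟨hqq, hq⟩)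
            exact ⟨h1, h2.trans sdiff_subset, h3, h4⟩
        · intro q hq q' hq' hne
          by_cases hqq : q = q0 <;> by_cases hqq' : q' = q0
          · exact absurd (hqq.trans hqq'.symm) hne
          · subst hqq
            simp only [if_true, hqq', if_false]
            have := (hC1 q' (Finset.mem_erase.2 ⟨hqq', hq'⟩)).2.1
            rw [Set.disjoint_left]
            intro v hv hv'
            exact (this hv').2 hv
          · subst hqq'
            simp only [if_true, hqq, if_false]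
            have := (hC1 q (Finset.mem_erase.2 ⟨hqq, hq⟩)).2.1
            rw [Set.disjoint_left]
            intro v hv hv'
            exact (this hv).2 hv'
          · simp only [hqq, hqq', if_false]
            exact hC2 q (Finset.mem_erase.2 ⟨hqq, hq⟩) q' (Finset.mem_erase.2 ⟨hqq', hq'⟩) hne
    · left
      push Not at hcase
      have hNpos : 0 < NB L (m + 1) := lt_of_lt_of_le (by omega) hnN
      obtain ⟨q1, hq1, _⟩ := hcase ⟨0, hNpos⟩
      choose f hf1 hf2 using hcase
      obtain ⟨q, hq, hqc⟩ := Finset.exists_le_card_fiber_of_mul_le_card_of_maps_to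
        (s := (Finset.univ : Finset (Fin (NB L (m + 1))))) (t := I') (f := f)
        (n := n * (2 * n * K + 2)) (fun i _ => hf1 i) ⟨q1, hq1⟩
        (by rw [hI'c, Finset.card_univ, Fintype.card_fin]; exact hMN)
      have h1 := (hD4 q hq).choose_spec
      have h2 : ∀ i ∈ Finset.univ.filter (fun i => f i = q),
          n < {j | ¬ Disjoint (P i).supp ((hD4 q hq).choose j).supp}.ncard + a := by
        intro i hi
        have h3 := hf2 i
        have h4 := (Finset.mem_filter.1 hi).2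
        subst h4
        exact h3
      set Q := (hD4 q hq).choose with hQ
      obtain ⟨hQ1, hQ2, hQ3⟩ := h1
      refine lemmaG (hD1 q hq) hd hK
        (fun i => (P i).mapG (fun k hk => hD2 q hq (PG_adj P i hk))) hP2 Q
        (fun j => (hQ1 j).1) (fun j => (hQ1 j).2) hQ2 ?_ _ h2 hnK han hqc
      intro x y hxy hxyP
      exact hQ3 x y hxy hxyP

/-- number of verticals -/
def dB (g : ℕ) : ℕ := (g + 2) ^ (g + 1) + 1

/-- number of layers -/
def KB (g : ℕ) : ℕ := (2 ^ dB g) ^ dB g * (2 * (g * g) + 2)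

/-- base of the number of paths -/
def LB (t g : ℕ) : ℕ := (t * t + 1) * (KB g + dB g + 3) ^ 2 * (2 * KB g + 2)

/-- number of paths in the mesh -/
def wB (t g : ℕ) : ℕ := NB (LB t g) (t * t)

theorem primrec_pow : Primrec₂ (fun a b : ℕ => a ^ b) :=
  Primrec₂.unpaired'.1 Nat.Primrec.pow

theorem primrec_dB : Primrec dB := by
  unfold dB
  exact Primrec.succ.comp (primrec_pow.comp
    (Primrec.nat_add.comp Primrec.id (Primrec.const 2)) Primrec.succ)

theorem primrec_KB : Primrec KB := by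
  unfold KB
  refine Primrec.nat_mul.comp (primrec_pow.comp (primrec_pow.comp (Primrec.const 2) primrec_dB)
    primrec_dB) (Primrec.nat_add.comp (Primrec.nat_mul.comp (Primrec.const 2)
      (Primrec.nat_mul.comp Primrec.id Primrec.id)) (Primrec.const 2))

theorem primrec_wB : Primrec₂ wB := by
  unfold wB NB LB
  have h1 : Primrec (fun p : ℕ × ℕ => p.1 * p.1) :=
    Primrec.nat_mul.comp Primrec.fst Primrec.fst
  have h2 : Primrec (fun p : ℕ × ℕ => KB p.2) := primrec_KB.comp Primrec.snd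
  have h3 : Primrec (fun p : ℕ × ℕ => dB p.2) := primrec_dB.comp Primrec.snd
  exact primrec_pow.comp
    (Primrec.nat_mul.comp (Primrec.nat_mul.comp (Primrec.nat_add.comp h1 (Primrec.const 1))
      (primrec_pow.comp (Primrec.nat_add.comp (Primrec.nat_add.comp h2 h3) (Primrec.const 3))
        (Primrec.const 2)))
      (Primrec.nat_add.comp (Primrec.nat_mul.comp (Primrec.const 2) h2) (Primrec.const 2)))
    (primrec_pow.comp (Primrec.const 3) h1)

end Grid

open Grid in
theorem grid_or_K : ∃ wB : ℕ → ℕ → ℕ, Primrec₂ wB ∧ ∀ (t n : ℕ) (V : Type) [Finite V]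
    (G : SimpleGraph V), Nonempty (Mesh G t (wB t n)) → HasK G t ∨ Nonempty (GridModel G n) := by
  classical
  refine ⟨Grid.wB, primrec_wB, ?_⟩
  rintro t g V _ G ⟨M⟩
  have hd : (g + 2) ^ (g + 1) < dB g := Nat.lt_succ_self _
  have hLpos : 1 ≤ LB t g := Nat.one_le_iff_ne_zero.2 (by unfold LB; positivity)
  set I : Finset (Fin t × Fin t) := Finset.univ.filter
    (fun q => q.1 < q.2 ∧ ¬ Touch G (M.A q.1) (M.A q.2)) with hI
  have hIc : I.card ≤ t * t := by
    refine (Finset.card_le_univ _).trans ?_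
    simp
  let S : Fin t × Fin t → Set V := fun q => {v | ∃ a ∈ M.A q.1, G.Adj a v}
  let T : Fin t × Fin t → Set V := fun q => {v | ∃ a ∈ M.A q.2, G.Adj a v}
  have hlink : ∀ q ∈ I, Link G M.B (S q) (T q) (NB (LB t g) I.card) := by
    intro q hq
    rw [hI, Finset.mem_filter] at hq
    obtain ⟨_, hlt, hnt⟩ := hq
    refine Link.mono (NB_mono hLpos hIc) ?_
    obtain ⟨P, hP1, hP2⟩ := M.link q.1 q.2 hlt.ne
    have hlen : ∀ i, 2 ≤ (P i).len := by
      intro i
      have h0 : (P i).p 0 ∈ M.A q.1 := M.Z_sub _ _ hlt.ne (hP1 i).1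
      have h1 : (P i).p (P i).len ∈ M.A q.2 := M.Z_sub _ _ hlt.ne' (hP1 i).2.1
      by_contra hcon
      push Not at hcon
      rcases (show (P i).len = 0 ∨ (P i).len = 1 by omega) with h | h
      · rw [h] at h1
        exact Set.disjoint_left.1 (M.A_disj _ _ hlt.ne) h0 h1
      · apply hnt
        refine ⟨_, h0, _, h1, ?_⟩
        have := (P i).adj 0 (by omega)
        rwa [h]
    refine ⟨fun i => (P i).sub 1 ((P i).len - 1) (by have := hlen i; omega) (by omega), ?_, ?_⟩
    · intro i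
      have hl := hlen i
      refine ⟨?_, ?_, ?_⟩
      · refine ⟨(P i).p 0, M.Z_sub _ _ hlt.ne (hP1 i).1, ?_⟩
        have := (P i).adj 0 (by omega)
        simpa [GP.sub] using this
      · refine ⟨(P i).p (P i).len, M.Z_sub _ _ hlt.ne' (hP1 i).2.1, ?_⟩
        have := (P i).adj ((P i).len - 1) (by omega)
        simp only [GP.sub]
        rw [show 1 + ((P i).len - 1 - 1) = (P i).len - 1 by omega]
        rw [show (P i).len - 1 + 1 = (P i).len by omega] at this
        exact this.symm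
      · rw [GP.sub_supp]
        rintro v ⟨k, hk1, hk2, rfl⟩
        exact (hP1 i).2.2 k (by omega) (by omega)
    · intro i j hij
      exact (hP2 i j hij).mono ((P i).sub_supp_subset _ _ _ _) ((P j).sub_supp_subset _ _ _ _)
  rcases select (G := G) (g := g) (d := dB g) (K := KB g) (L := LB t g) (m0 := t * t) hd le_rfl
    le_rfl S T I.card I rfl hIc M.B hlink with h | ⟨C, hC1, hC2⟩
  · exact Or.inr h
  left
  have hCB : ∀ q ∈ I, C q ⊆ M.B := fun q hq => (hC1 q hq).2.1
  refine ⟨fun c => M.A c ∪ ⋃ q : {q : Fin t × Fin t // q ∈ I ∧ q.1 = c}, C q.1, ?_, ?_, ?_⟩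
  · intro c
    refine (M.A_conn c).union_iUnion (fun q => (hC1 q.1 q.2.1).1) ?_
    rintro ⟨q, hq, rfl⟩
    left
    obtain ⟨_, _, ⟨v, hv, a, ha, hav⟩, _⟩ := hC1 q hq
    exact ⟨a, ha, v, hv, hav⟩
  · intro c c' hne
    have h1 : ∀ c c', Disjoint (M.A c)
        (⋃ q : {q : Fin t × Fin t // q ∈ I ∧ q.1 = c'}, C q.1) := by
      intro c c'
      rw [Set.disjoint_iUnion_right]
      intro q
      exact (M.B_disj c).mono_right (hCB q.1 q.2.1)
    rw [Set.disjoint_union_left, Set.disjoint_union_right, Set.disjoint_union_right]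
    refine ⟨⟨M.A_disj c c' hne, h1 c c'⟩, (h1 c' c).symm, ?_⟩
    rw [Set.disjoint_iUnion_left]
    rintro ⟨q, hq, rfl⟩
    rw [Set.disjoint_iUnion_right]
    rintro ⟨q', hq', rfl⟩
    exact hC2 q hq q' hq' (fun h => hne (by rw [h]))
  · intro c c' hne
    wlog hlt : c < c' generalizing c c'
    · exact (this c' c hne.symm (lt_of_le_of_ne (not_lt.1 hlt) hne.symm)).symm
    by_cases ht : Touch G (M.A c) (M.A c')
    · exact ht.mono subset_union_left subset_union_left
    · have hq : (c, c') ∈ I := Finset.mem_filter.2 ⟨Finset.mem_univ _, hlt, ht⟩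
      obtain ⟨_, _, _, ⟨v, hv, a, ha, hav⟩⟩ := hC1 (c, c') hq
      refine ⟨v, Or.inr (mem_iUnion.2 ⟨⟨(c, c'), hq, rfl⟩, hv⟩), a, Or.inl ha, hav.symm⟩

end Pool.Agent.Lib.MP_4d119b_lc
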