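import Pool.Agent.Lib.MP_4d119b_lc.StepB4

/-! Module StepB: in a graph without `K_t` minor with a large grid model, after deleting few
vertices there is a large local grid. -/

set_option autoImplicit false

namespace Pool.Agent.Lib.MP_4d119b_lc

open Set

namespace StepB

variable {V : Type} {G : SimpleGraph V} {n₀ : ℕ}

/-- transposed grid model -/
def tr (g : GridModel G n₀) : GridModel G n₀ where
  Γ := g.Γ
  le := g.le
  deg := g.deg
  X i j := g.X j i
  conn i j hi hj := g.conn j i hj hi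
  disj i j i' j' hi hj hi' hj' h := g.disj j i j' i' hj hi hj' hi' (Or.symm h)
  right i j hi hj := g.down j i hj hi
  down i j hi hj := g.right j i hj hi

theorem cells_tr (g : GridModel G n₀) : cells (tr g).X (box n₀) = cells g.X (box n₀) := by
  ext v
  rw [mem_cells, mem_cells]
  constructor
  · rintro ⟨x, y, h1, h2⟩; exact ⟨y, x, ⟨h1.2, h1.1⟩, h2⟩
  · rintro ⟨x, y, h1, h2⟩; exact ⟨y, x, ⟨h1.2, h1.1⟩, h2⟩

theorem exists_good (Bad : Finset ℕ) (c L : ℕ) (hc : Bad.card ≤ c) (hL : 0 < L) :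
    ∃ q ≤ c, ∀ r < L, q * L + r ∉ Bad := by
  classical
  have h1 : (Bad.image (· / L)).card < (Finset.range (c + 1)).card := by
    rw [Finset.card_range]
    exact lt_of_le_of_lt (Finset.card_image_le.trans hc) (Nat.lt_succ_self c)
  obtain ⟨q, hq, hq'⟩ := Finset.exists_mem_notMem_of_card_lt_card h1
  refine ⟨q, by rw [Finset.mem_range] at hq; omega, ?_⟩
  intro r hr hmem
  apply hq'
  rw [Finset.mem_image]
  refine ⟨_, hmem, ?_⟩
  rw [Nat.mul_comm, Nat.mul_add_div hL, Nat.div_eq_of_lt hr, Nat.add_zero]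

/-- positions of a coarse cell -/
def Rg (m p₁ p₂ i j : ℕ) : Set (ℕ × ℕ) :=
  {p | (p₁ + 3 * i ≤ p.1 / m ∧ p.1 / m < p₁ + 3 * i + 3) ∧ p₂ + 3 * j ≤ p.2 / m ∧
    p.2 / m < p₂ + 3 * j + 3}

theorem mem_Rg {m p₁ p₂ i j x y : ℕ} (hm : 0 < m) : (x, y) ∈ Rg m p₁ p₂ i j ↔
    ((p₁ + 3 * i) * m ≤ x ∧ x < (p₁ + 3 * i + 3) * m) ∧ (p₂ + 3 * j) * m ≤ y ∧
      y < (p₂ + 3 * j + 3) * m := by
  unfold Rg
  simp only [Set.mem_ofPred_eq]
  rw [Nat.le_div_iff_mul_le hm, Nat.div_lt_iff_lt_mul hm, Nat.le_div_iff_mul_le hm,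
    Nat.div_lt_iff_lt_mul hm]

theorem Rg_conn {m p₁ p₂ i j : ℕ} (hm : 0 < m) : Conn Gr (Rg m p₁ p₂ i j) := by
  have e : Rg m p₁ p₂ i j = rect ((p₁ + 3 * i) * m) ((p₁ + 3 * i + 3) * m - 1)
      ((p₂ + 3 * j) * m) ((p₂ + 3 * j + 3) * m - 1) := by
    ext ⟨x, y⟩
    rw [mem_Rg hm]
    unfold rect
    simp only [Set.mem_ofPred_eq]
    have h1 : 0 < (p₁ + 3 * i + 3) * m := by positivity
    have h2 : 0 < (p₂ + 3 * j + 3) * m := by positivity
    omega
  rw [e]
  have h1 : (p₁ + 3 * i) * m + m ≤ (p₁ + 3 * i + 3) * m := by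
    have : (p₁ + 3 * i) * m + m = (p₁ + 3 * i + 1) * m := by ring
    rw [this]
    exact Nat.mul_le_mul_right m (by omega)
  have h2 : (p₂ + 3 * j) * m + m ≤ (p₂ + 3 * j + 3) * m := by
    have : (p₂ + 3 * j) * m + m = (p₂ + 3 * j + 1) * m := by ring
    rw [this]
    exact Nat.mul_le_mul_right m (by omega)
  exact rect_conn (by omega) (by omega)

/-- the host: assembling the local grid -/
theorem host_final (g : GridModel G n₀) {m n p₁ p₂ : ℕ} {A : Set V} (hm : 0 < m)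
    (hp₁ : (p₁ + 3 * n) * m ≤ n₀) (hp₂ : (p₂ + 3 * n) * m ≤ n₀)
    (hA : ∀ x y, x < n₀ → y < n₀ → p₁ ≤ x / m → x / m < p₁ + 3 * n → Disjoint (g.X x y) A)
    (hloc : ∀ x y x' y', x < n₀ → y < n₀ → x' < n₀ → y' < n₀ → p₁ ≤ x / m →
      x / m < p₁ + 3 * n → p₂ ≤ y / m → y / m < p₂ + 3 * n → ∀ R : GP G,
      Link (cells g.X (box n₀)) (g.X x y) (g.X x' y') R → (∀ v ∈ R.supp, v ∉ A) →
      ¬ far (x / m) (x' / m) ∧ ¬ far (y / m) (y' / m)) :
    IsHost G A n (fun i j => cells g.X (Rg m p₁ p₂ i j)) := by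
  have hbox : ∀ i j, i < n → j < n → Rg m p₁ p₂ i j ⊆ box n₀ := by
    rintro i j hi hj ⟨x, y⟩ hp
    rw [mem_Rg hm] at hp
    have e1 : (p₁ + 3 * i + 3) * m ≤ (p₁ + 3 * n) * m := Nat.mul_le_mul_right m (by omega)
    have e2 : (p₂ + 3 * j + 3) * m ≤ (p₂ + 3 * n) * m := Nat.mul_le_mul_right m (by omega)
    exact ⟨by simp only; omega, by simp only; omega⟩
  have hRgA : ∀ i j, i < n → j < n → Disjoint (cells g.X (Rg m p₁ p₂ i j)) A := by
    intro i j hi hj
    rw [Set.disjoint_left]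
    intro v hv hvA
    obtain ⟨x, y, h1, h2⟩ := mem_cells.1 hv
    have hb := hbox i j hi hj h1
    have h3 := h1.1
    simp only at h3
    exact Set.disjoint_left.1 (hA x y hb.1 hb.2 (by omega) (by omega)) h2 hvA
  -- the link lemma
  have hlink : ∀ K : Set V, Disjoint K A → ∀ i j i' j', i < n → j < n → i' < n → j' < n →
      ∀ u ∈ cells g.X (Rg m p₁ p₂ i j), ∀ v ∈ cells g.X (Rg m p₁ p₂ i' j'), u ≠ v →
      RIn G (insert u (insert v K)) u v → 
      (i ≤ i' + 1 ∧ i' ≤ i + 1 ∧ j ≤ j' + 1 ∧ j' ≤ j + 1) ∨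
      ∃ w ∈ K, ∃ x y, x < n₀ ∧ y < n₀ ∧ w ∈ g.X x y ∧ p₁ + 3 * i ≤ x / m + 2 ∧
        x / m < p₁ + 3 * i + 5 ∧ p₂ + 3 * j ≤ y / m + 2 ∧ y / m < p₂ + 3 * j + 5 := by
    intro K hKA i j i' j' hi hj hi' hj' u hu v hv huv hr
    obtain ⟨x, y, hxy, hux⟩ := mem_cells.1 hu
    obtain ⟨x', y', hxy', hvx⟩ := mem_cells.1 hv
    have hb := hbox i j hi hj hxy
    have hb' := hbox i' j' hi' hj' hxy'
    have hvW : v ∈ cells g.X (box n₀) := cells_mono (hbox i' j' hi' hj') hv
    obtain ⟨R, h0, h1, hS, hRA, hRB⟩ := hr.exists_ABpath (A := {u})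
      (B := (insert v K ∩ cells g.X (box n₀)) \ {u}) (Set.mem_insert _ _) rfl
      ⟨⟨Set.mem_insert _ _, hvW⟩, fun h => huv h.symm⟩
    have h0' : R.p 0 = u := h0
    have hlen : 1 ≤ R.len := by
      by_contra hl
      have : R.len = 0 := by omega
      rw [this, h0'] at h1
      exact h1.2 rfl
    have hint : ∀ k, 0 < k → k < R.len → R.p k ∉ cells g.X (box n₀) := by
      intro k hk hk' hW
      have hne := hRA k hk hk'.le
      rcases hS (GP.mem_supp _ hk'.le) with h | h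
      · exact hne h
      · exact hRB k hk' ⟨⟨h, hW⟩, hne⟩
    have havoid : ∀ z ∈ R.supp, z ∉ A := by
      intro z hz hzA
      rcases hS hz with h | h | h
      · rw [h] at hzA
        exact Set.disjoint_left.1 (hRgA i j hi hj) hu hzA
      · rw [h] at hzA
        exact Set.disjoint_left.1 (hRgA i' j' hi' hj') hv hzA
      · exact Set.disjoint_left.1 hKA h hzA
    obtain ⟨hw1, hw2⟩ := h1.1
    have hR1 := hxy.1
    have hR2 := hxy.2
    simp only at hR1 hR2
    rcases hw1 with hw | hw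
    · -- the link ends at `v`
      left
      have hl := hloc x y x' y' hb.1 hb.2 hb'.1 hb'.2 (by omega) (by omega) (by omega) (by omega)
        R ⟨h0' ▸ hux, hw ▸ hvx, hlen, hint⟩ havoid
      have hR1' := hxy'.1
      have hR2' := hxy'.2
      simp only at hR1' hR2'
      unfold far at hl
      omega
    · right
      obtain ⟨x'', y'', hxy'', hwx⟩ := mem_cells.1 hw2
      have hl := hloc x y x'' y'' hb.1 hb.2 hxy''.1 hxy''.2 (by omega) (by omega) (by omega)
        (by omega) R ⟨h0' ▸ hux, hwx, hlen, hint⟩ havoid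
      unfold far at hl
      exact ⟨_, hw, x'', y'', hxy''.1, hxy''.2, hwx, by omega, by omega, by omega, by omega⟩
  have hdisj : ∀ i j i' j', i < n → j < n → i' < n → j' < n → (i ≠ i' ∨ j ≠ j') →
      Disjoint (cells g.X (Rg m p₁ p₂ i j)) (cells g.X (Rg m p₁ p₂ i' j')) := by
    intro i j i' j' hi hj hi' hj' hne
    apply cells_disj g (hbox i j hi hj) (hbox i' j' hi' hj')
    rw [Set.disjoint_left]
    rintro ⟨x, y⟩ ⟨h1, h2⟩ ⟨h3, h4⟩
    simp only at h1 h2 h3 h4
    omega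
  refine ⟨?_, hRgA, hdisj, ?_, ?_, ?_, ?_⟩
  · intro i j hi hj
    exact (cells_conn g (Rg_conn hm) (hbox i j hi hj)).monoG g.le
  · intro i j hi hj
    have e1 : (p₁ + 3 * i + 3) * m ≤ (p₁ + 3 * n) * m := Nat.mul_le_mul_right m (by omega)
    have e2 : (p₂ + 3 * j + 3) * m ≤ (p₂ + 3 * n) * m := Nat.mul_le_mul_right m (by omega)
    have e3 : (p₁ + 3 * (i + 1) + 3) * m ≤ (p₁ + 3 * n) * m := Nat.mul_le_mul_right m (by omega)
    have e4 : (p₁ + 3 * (i + 1)) * m = (p₁ + 3 * i + 3) * m := by ring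
    have e5 : (p₁ + 3 * i + 3) * m = (p₁ + 3 * i) * m + 3 * m := by ring
    have e6 : (p₂ + 3 * j + 3) * m = (p₂ + 3 * j) * m + 3 * m := by ring
    have e7 : (p₁ + 3 * (i + 1) + 3) * m = (p₁ + 3 * i + 3) * m + 3 * m := by ring
    have ht := g.right ((p₁ + 3 * i + 3) * m - 1) ((p₂ + 3 * j) * m) (by omega) (by omega)
    rw [Nat.sub_add_cancel (by omega)] at ht
    refine (ht.mono ?_ ?_).monoG g.le
    · intro v hv
      exact mem_cells.2 ⟨_, _, (mem_Rg hm).2 ⟨⟨by omega, by omega⟩, by omega, by omega⟩, hv⟩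
    · intro v hv
      exact mem_cells.2 ⟨_, _, (mem_Rg hm).2 ⟨⟨by omega, by omega⟩, by omega, by omega⟩, hv⟩
  · intro i j hi hj
    have e1 : (p₁ + 3 * i + 3) * m ≤ (p₁ + 3 * n) * m := Nat.mul_le_mul_right m (by omega)
    have e2 : (p₂ + 3 * j + 3) * m ≤ (p₂ + 3 * n) * m := Nat.mul_le_mul_right m (by omega)
    have e3 : (p₂ + 3 * (j + 1) + 3) * m ≤ (p₂ + 3 * n) * m := Nat.mul_le_mul_right m (by omega)
    have e4 : (p₂ + 3 * (j + 1)) * m = (p₂ + 3 * j + 3) * m := by ring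
    have e5 : (p₁ + 3 * i + 3) * m = (p₁ + 3 * i) * m + 3 * m := by ring
    have e6 : (p₂ + 3 * j + 3) * m = (p₂ + 3 * j) * m + 3 * m := by ring
    have e7 : (p₂ + 3 * (j + 1) + 3) * m = (p₂ + 3 * j + 3) * m + 3 * m := by ring
    have ht := g.down ((p₁ + 3 * i) * m) ((p₂ + 3 * j + 3) * m - 1) (by omega) (by omega)
    rw [Nat.sub_add_cancel (by omega)] at ht
    refine (ht.mono ?_ ?_).monoG g.le
    · intro v hv
      exact mem_cells.2 ⟨_, _, (mem_Rg hm).2 ⟨⟨by omega, by omega⟩, by omega, by omega⟩, hv⟩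
    · intro v hv
      exact mem_cells.2 ⟨_, _, (mem_Rg hm).2 ⟨⟨by omega, by omega⟩, by omega, by omega⟩, hv⟩
  · -- edges
    rintro i j i' j' hi hj hi' hj' ⟨u, hu, v, hv, huv⟩
    rcases hlink ∅ (by simp) i j i' j' hi hj hi' hj' u hu v hv huv.ne
      (RIn.single huv (by simp) (by simp)) with h | ⟨w, hw, _⟩
    · exact Or.inl h
    · exact absurd hw (by simp)
  · -- jumps
    intro K hK hKA hKX i j i' j' hi hj hi' hj' ht ht'
    have key : ∀ i j i' j', i < n → j < n → i' < n → j' < n →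
        Touch G K (cells g.X (Rg m p₁ p₂ i j)) → Touch G K (cells g.X (Rg m p₁ p₂ i' j')) →
        ¬ Bd n i j → (i ≤ i' + 1 ∧ i' ≤ i + 1 ∧ j ≤ j' + 1 ∧ j' ≤ j + 1) := by
      rintro i j i' j' hi hj hi' hj' ⟨k₁, hk₁, u, hu, hku⟩ ⟨k₂, hk₂, v, hv, hkv⟩ hbd
      by_cases huv : u = v
      · subst huv
        by_cases hne : i ≠ i' ∨ j ≠ j'
        · exact absurd hv (Set.disjoint_left.1 (hdisj i j i' j' hi hj hi' hj' hne) hu)
        · omega
      have hr : RIn G (insert u (insert v K)) u v := by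
        have hsub : K ⊆ insert u (insert v K) := fun z hz => Or.inr (Or.inr hz)
        have r1 : RIn G (insert u (insert v K)) u k₁ :=
          RIn.single hku.symm (Or.inl rfl) (hsub hk₁)
        have r2 := (hK.2 k₁ hk₁ k₂ hk₂).mono hsub
        exact (r1.trans r2).tail hkv (hsub hk₂) (Or.inr (Or.inl rfl))
      rcases hlink K hKA i j i' j' hi hj hi' hj' u hu v hv huv hr with h |
        ⟨w, hw, x, y, hx, hy, hwx, h1, h2, h3, h4⟩
      · exact h
      · exfalso
        unfold Bd at hbd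
        have hi1 : 1 ≤ i ∧ i + 2 ≤ n ∧ 1 ≤ j ∧ j + 2 ≤ n := by omega
        refine Set.disjoint_left.1 (hKX ((x / m - p₁) / 3) ((y / m - p₂) / 3) (by omega)
          (by omega)) hw (mem_cells.2 ⟨x, y, ?_, hwx⟩)
        refine ⟨?_, ?_⟩ <;> simp only <;> omega
    by_cases hbd : Bd n i j
    · by_cases hbd' : Bd n i' j'
      · exact Or.inr ⟨hbd, hbd'⟩
      · have := key i' j' i j hi' hj' hi hj ht' ht hbd'
        exact Or.inl ⟨this.2.1, this.1, this.2.2.2, this.2.2.1⟩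
    · exact Or.inl (key i j i' j' hi hj hi' hj' ht ht' hbd)

def cT (t : ℕ) : ℕ := cV t + 2 + 2 * aV t

theorem primrec_aV : Primrec aV := by
  have m : ∀ {f g : ℕ → ℕ}, Primrec f → Primrec g → Primrec fun x => f x * g x :=
    fun hf hg => Primrec.nat_mul.comp hf hg
  have a : ∀ {f g : ℕ → ℕ}, Primrec f → Primrec g → Primrec fun x => f x + g x :=
    fun hf hg => Primrec.nat_add.comp hf hg
  have i : Primrec fun x : ℕ => x := Primrec.id
  have c : ∀ k : ℕ, Primrec fun _ : ℕ => k := fun k => Primrec.const k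
  exact a (m i i) (m (a (c 2) (m (c 4) (m i i))) (m i (m (c 4) i)))

theorem primrec_cV : Primrec cV := by
  have m : ∀ {f g : ℕ → ℕ}, Primrec f → Primrec g → Primrec fun x => f x * g x :=
    fun hf hg => Primrec.nat_mul.comp hf hg
  have a : ∀ {f g : ℕ → ℕ}, Primrec f → Primrec g → Primrec fun x => f x + g x :=
    fun hf hg => Primrec.nat_add.comp hf hg
  have i : Primrec fun x : ℕ => x := Primrec.id
  have c : ∀ k : ℕ, Primrec fun _ : ℕ => k := fun k => Primrec.const k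
  exact m (a (m (c 3) (m i i)) (m (a (c 2) (m (c 4) (m i i))) (m i (m (c 4) i)))) (c 5)

theorem primrec_cT : Primrec cT :=
  Primrec.nat_add.comp (Primrec.nat_add.comp primrec_cV (Primrec.const 2))
    (Primrec.nat_mul.comp (Primrec.const 2) primrec_aV)

end StepB

open StepB in
theorem host_of_grid : ∃ (gB : ℕ → ℕ → ℕ) (aB : ℕ → ℕ), Primrec₂ gB ∧ Primrec aB ∧
    ∀ (t n : ℕ) (V : Type) [Finite V] (G : SimpleGraph V), Nonempty (GridModel G (gB t n)) →
      ¬ HasK G t → ∃ (A : Finset V) (X : ℕ → ℕ → Set V), A.card ≤ aB t ∧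
        IsHost G (↑A) n X := by
  classical
  refine ⟨fun t n => (cT t + 1) * (3 * n) * (2 * t + 1), fun t => 2 * aV t, ?_, ?_, ?_⟩
  · exact Primrec.nat_mul.comp
      (Primrec.nat_mul.comp (Primrec.nat_add.comp (primrec_cT.comp Primrec.fst)
        (Primrec.const 1)) (Primrec.nat_mul.comp (Primrec.const 3) Primrec.snd))
      (Primrec.nat_add.comp (Primrec.nat_mul.comp (Primrec.const 2) Primrec.fst)
        (Primrec.const 1))
  · exact Primrec.nat_mul.comp (Primrec.const 2) primrec_aV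
  · intro t n V _ G ⟨g⟩ hK
    simp only at g
    rcases Nat.eq_zero_or_pos n with hn0 | hn0
    · subst hn0
      refine ⟨∅, fun _ _ => ∅, by simp, ?_⟩
      refine ⟨?_, ?_, ?_, ?_, ?_, ?_, ?_⟩
      · intro i j hi; omega
      · intro i j hi; omega
      · intro i j i' j' hi; omega
      · intro i j hi; omega
      · intro i j hi; omega
      · intro i j i' j' hi; omega
      · intro K _ _ _ i j i' j' hi; omega
    have ht : 1 ≤ t := by
      by_contra h
      have h0 : t = 0 := by omega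
      subst h0
      exact hK ⟨fun i => i.elim0, fun i => i.elim0, fun i => i.elim0, fun i => i.elim0⟩
    set m := 2 * t + 1 with hm
    set M := (cT t + 1) * (3 * n) with hM
    have hmpos : 0 < m := by omega
    have hM3 : 3 ≤ M := by
      have : 1 * (3 * n) ≤ (cT t + 1) * (3 * n) := Nat.mul_le_mul_right _ (by omega)
      omega
    have hMm : 3 * m ≤ M * m := Nat.mul_le_mul_right m hM3
    obtain ⟨A₁, B₁, hA₁, hB₁, h₁⟩ := vsys g ht (by omega : t ≤ m) (by omega) hK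
    obtain ⟨A₂, B₂, hA₂, hB₂, h₂⟩ := vsys (tr g) ht (by omega : t ≤ m) (by omega) hK
    set A := A₁ ∪ A₂ with hA
    have hAc : A.card ≤ 2 * aV t := by
      have := Finset.card_union_le A₁ A₂
      rw [← hA] at this
      omega
    -- strips of the deleted vertices
    have hstrip : ∃ st : V → ℕ, ∀ v x y, x < M * m → y < M * m → v ∈ g.X x y → st v = x / m := by
      refine ⟨fun v => if h : ∃ x y, x < M * m ∧ y < M * m ∧ v ∈ g.X x y then h.choose / m else 0,
        ?_⟩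
      intro v x y hx hy hv
      have h : ∃ x y, x < M * m ∧ y < M * m ∧ v ∈ g.X x y := ⟨x, y, hx, hy, hv⟩
      simp only
      rw [dif_pos h]
      obtain ⟨y', h1, h2, h3⟩ := h.choose_spec
      by_cases hne : h.choose ≠ x ∨ y' ≠ y
      · exact absurd hv (Set.disjoint_left.1 (g.disj _ _ _ _ h1 h2 hx hy hne) h3)
      · push Not at hne
        rw [hne.1]
    obtain ⟨st, hst⟩ := hstrip
    have hc1 : (B₁ ∪ ({0, M - 1} ∪ A.image st)).card ≤ cT t := by
      have e1 := Finset.card_union_le B₁ ({0, M - 1} ∪ A.image st)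
      have e2 := Finset.card_union_le ({0, M - 1} : Finset ℕ) (A.image st)
      have e3 : ({0, M - 1} : Finset ℕ).card ≤ 2 := Finset.card_le_two
      have e4 : (A.image st).card ≤ A.card := Finset.card_image_le
      unfold cT
      omega
    have hc2 : (B₂ ∪ {0, M - 1}).card ≤ cT t := by
      have e1 := Finset.card_union_le B₂ ({0, M - 1} : Finset ℕ)
      have e3 : ({0, M - 1} : Finset ℕ).card ≤ 2 := Finset.card_le_two
      unfold cT
      omega
    obtain ⟨q₁, hq₁, hg₁⟩ := exists_good _ (cT t) (3 * n) hc1 (by omega)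
    obtain ⟨q₂, hq₂, hg₂⟩ := exists_good _ (cT t) (3 * n) hc2 (by omega)
    have hp : ∀ q, q ≤ cT t → (q * (3 * n) + 3 * n) * m ≤ M * m := by
      intro q hq
      apply Nat.mul_le_mul_right
      have : q * (3 * n) + 3 * n = (q + 1) * (3 * n) := by ring
      rw [this]
      exact Nat.mul_le_mul_right _ (by omega)
    -- deep rows
    have hdeep : ∀ y, y < M * m → y / m ≠ 0 → y / m ≠ M - 1 → 2 * t ≤ y ∧ y + 2 * t < M * m := by
      intro y hy h0 h1
      have e1 : 1 ≤ y / m := Nat.one_le_iff_ne_zero.2 h0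
      have e2 : y / m < M := (Nat.div_lt_iff_lt_mul hmpos).2 hy
      have e3 : y / m < M - 1 := by omega
      have e4 := (Nat.le_div_iff_mul_le hmpos).1 e1
      have e5 := (Nat.div_lt_iff_lt_mul hmpos).1 e3
      have e6 : (M - 1) * m + m = M * m := by
        have : (M - 1) * m + m = (M - 1 + 1) * m := by ring
        rw [this, Nat.sub_add_cancel (by omega)]
      omega
    have hnot1 : ∀ σ, q₁ * (3 * n) ≤ σ → σ < q₁ * (3 * n) + 3 * n →
        σ ∉ (B₁ ∪ ({0, M - 1} ∪ A.image st)) := by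
      intro σ h1 h2
      have := hg₁ (σ - q₁ * (3 * n)) (by omega)
      rwa [Nat.add_sub_cancel' h1] at this
    have hnot2 : ∀ σ, q₂ * (3 * n) ≤ σ → σ < q₂ * (3 * n) + 3 * n →
        σ ∉ (B₂ ∪ ({0, M - 1} : Finset ℕ)) := by
      intro σ h1 h2
      have := hg₂ (σ - q₂ * (3 * n)) (by omega)
      rwa [Nat.add_sub_cancel' h1] at this
    refine ⟨A, fun i j => cells g.X (Rg m (q₁ * (3 * n)) (q₂ * (3 * n)) i j), hAc, ?_⟩
    refine host_final g hmpos (hp q₁ hq₁) (hp q₂ hq₂) ?_ ?_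
    · intro x y hx hy h1 h2
      rw [Set.disjoint_left]
      intro v hv hvA
      have hb := hnot1 (x / m) h1 h2
      apply hb
      rw [Finset.mem_union, Finset.mem_union]
      exact Or.inr (Or.inr (Finset.mem_image.2 ⟨v, Finset.mem_coe.1 hvA, hst v x y hx hy hv⟩))
    · intro x y x' y' hx hy hx' hy' h1 h2 h3 h4 R hR hRA
      have hb1 := hnot1 (x / m) h1 h2
      have hb2 := hnot2 (y / m) h3 h4
      simp only [Finset.mem_union, Finset.mem_insert, Finset.mem_singleton, not_or] at hb1 hb2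
      have hd1 := hdeep x hx hb1.2.1.1 hb1.2.1.2
      have hd2 := hdeep y hy hb2.2.1 hb2.2.2
      have hRA1 : ∀ v ∈ R.supp, v ∉ A₁ := fun v hv h => hRA v hv
        (Finset.mem_coe.2 (Finset.mem_union_left _ h))
      have hRA2 : ∀ v ∈ R.supp, v ∉ A₂ := fun v hv h => hRA v hv
        (Finset.mem_coe.2 (Finset.mem_union_right _ h))
      refine ⟨h₁ x y x' y' hx hy hx' hy' hb1.1 hd2.1 hd2.2 R hR hRA1, ?_⟩
      refine h₂ y x y' x' hy hx hy' hx' hb2.1 hd1.1 hd1.2 R ?_ hRA2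
      rw [cells_tr]
      exact hR

end Pool.Agent.Lib.MP_4d119b_lc
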