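import Pool.Agent.Lib.MP_4d119b_lc.Final2
import Pool.Agent.Lib.MP_4d119b_lc.Haven
import Pool.Agent.Lib.MP_4d119b_lc.Grid
import Pool.Agent.Lib.MP_4d119b_lc.StepB
import Pool.Agent.Lib.MP_4d119b_lc.Comp

/-! All graphs of the class have bounded excess. -/

namespace Pool.Agent.Lib.MP_4d119b_lc

open Set Term

theorem wide_of_not_narrow {V : Type} [Finite V] {G : SimpleGraph V} {U : Set V} {κ : ℕ}
    (h : ¬ Narrow G U κ) : Wide (resG G U) κ := by
  classical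
  unfold Narrow at h
  push Not at h
  obtain ⟨W, hWU, hWc, hW⟩ := h
  refine ⟨(Set.toFinite W).toFinset, ?_, ?_⟩
  · rw [← Set.ncard_eq_toFinset_card W (Set.toFinite W)]; exact hWc
  · intro A B hAB hno hlt
    rw [Set.Finite.coe_toFinset]
    by_contra hcon
    push Not at hcon
    have h1 := hW (A ∩ U) (B ∩ U) (by
      rw [← Set.union_inter_distrib_right, hAB, Set.univ_inter]) (by
      rintro x ⟨⟨hxA, hxU⟩, hxB⟩ y ⟨⟨hyB, hyU⟩, hyA⟩ hxy
      exact hno x ⟨hxA, fun h => hxB ⟨h, hxU⟩⟩ y ⟨hyB, fun h => hyA ⟨h, hyU⟩⟩ ⟨hxy, hxU, hyU⟩) (by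
      refine lt_of_le_of_lt (Set.ncard_le_ncard ?_ (Set.toFinite _)) hlt
      rintro x ⟨⟨h1, _⟩, h2, _⟩
      exact ⟨h1, h2⟩) (by
      refine le_trans (Set.ncard_le_ncard ?_ (Set.toFinite _)) hcon.1
      rintro x ⟨h1, ⟨h2, h3⟩, h4⟩
      exact ⟨h1, h2, fun h => h4 ⟨h, h3⟩⟩)
    have h2 : (W ∩ ((B ∩ U) \ (A ∩ U))).ncard ≤ 2 * κ := by
      refine le_trans (Set.ncard_le_ncard ?_ (Set.toFinite _)) hcon.2
      rintro x ⟨h1, ⟨h2, h3⟩, h4⟩
      exact ⟨h1, h2, fun h => h4 ⟨h, h3⟩⟩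
    omega

/-- narrow graphs of the class have bounded excess -/
theorem narrow_bound {V : Type} [Finite V] {G : SimpleGraph V} {L : List (ℕ × List (ℕ × ℕ))}
    {h κ k : ℕ} {r : ℝ} (hL : ∀ c ∈ L, c.1 ≤ h) (hr : 0 ≤ r)
    (hper : ∀ a b : ℕ, ∀ E : ℕ → ℕ → Prop, a ≤ k → 1 ≤ b → b ≤ bmB k h →
      (∀ N, InF L (perGraph a b E N)) → 2 * (cnt a b E : ℝ) ≤ r * b)
    (hF : InF L G) (hκ : 1 ≤ κ) (hk : 4 * κ ≤ k) (hN : Narrow G Set.univ κ) :
    (ad G : ℝ) ≤ r * Nat.card V + 2 * k * bmB k h := by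
  obtain ⟨t, ht⟩ := rep G κ k hk hκ Set.univ ∅ hN (Set.empty_subset _) (by simp)
    (fun _ _ _ _ => Set.mem_univ _) (fun _ => ⟨0, by omega⟩) (Set.injOn_empty _)
  rw [Set.sdiff_empty] at ht
  have h1 := ht.card (Set.disjoint_empty _) (Set.injOn_empty _)
  have h2 := pump_bound L hL r hr hper t (fun i hi => by
    obtain ⟨x, hx, _⟩ := ht.used hi
    exact hx) (hF.minor (ht.modX (β := fun _ => ∅) (fun x hx => hx.elim)).minor)
  rw [h1.1, h1.2, Set.ncard_univ] at h2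
  have h3 : {e ∈ G.edgeSet | (∃ y ∈ (Set.univ : Set V), y ∈ e) ∧
      ∀ y ∈ e, y ∈ (Set.univ : Set V) ∪ ∅} = G.edgeSet := by
    ext e
    simp only [mem_ofPred_eq]
    constructor
    · exact fun h => h.1
    · intro he
      refine ⟨he, ?_, fun _ _ => Or.inl (Set.mem_univ _)⟩
      induction e with
      | h x y => exact ⟨x, Set.mem_univ _, Sym2.mem_mk_left x y⟩
  rw [h3] at h2
  rw [ad_eq]
  push_cast
  exact h2

/-- bounded excess for all graphs of the class -/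
theorem excess_bound : ∃ kF : ℕ → ℕ → ℕ, Primrec₂ kF ∧ ∀ (t h : ℕ)
    (L : List (ℕ × List (ℕ × ℕ))), (∀ c ∈ L, c.1 ≤ h) → ∀ r : ℝ, 0 ≤ r →
    (∀ a b : ℕ, ∀ E : ℕ → ℕ → Prop, a ≤ kF t h → 1 ≤ b → b ≤ bmB (kF t h) h →
      (∀ N, InF L (perGraph a b E N)) → 2 * (cnt a b E : ℝ) ≤ r * b) →
    ∀ (V : Type) [Finite V] (G : SimpleGraph V), InF L G → ¬ HasK G t →
      (ad G : ℝ) ≤ r * Nat.card V + 2 * kF t h * bmB (kF t h) h := by
  classical
  obtain ⟨kB, hkB, hmesh⟩ := exists_mesh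
  obtain ⟨wB, hwB, hgrid⟩ := grid_or_K
  obtain ⟨gB, aB, hgB, haB, hhost⟩ := host_of_grid
  -- the bounds
  let Q : ℕ → ℕ → ℕ := fun t h => inB (aB t + 4) h
  let s : ℕ → ℕ → ℕ := fun t h => 15 * (2 * Q t h) + 15 + t
  let M : ℕ → ℕ → ℕ := fun t h => 24 * 2 ^ aB t * Q t h
  let n : ℕ → ℕ → ℕ := fun t h => s t h ^ (M t h + 1)
  let N : ℕ → ℕ → ℕ := fun t h => 101 * ((aB t + 3 + 1) * n t h + 2)
  let g : ℕ → ℕ → ℕ := fun t h => gB t (N t h)
  let w : ℕ → ℕ → ℕ := fun t h => wB t (g t h)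
  let κ : ℕ → ℕ → ℕ := fun t h => kB t (w t h) + aB t + 4
  let kF : ℕ → ℕ → ℕ := fun t h => 4 * κ t h
  have hfst : Primrec (fun p : ℕ × ℕ => aB p.1) := haB.comp Primrec.fst
  have hQ : Primrec (fun p : ℕ × ℕ => Q p.1 p.2) :=
    Comp.primrec_inB'.comp (Primrec.nat_add.comp hfst (Primrec.const 4)) Primrec.snd
  have hs : Primrec (fun p : ℕ × ℕ => s p.1 p.2) :=
    Primrec.nat_add.comp (Primrec.nat_add.comp (Primrec.nat_mul.comp (Primrec.const 15)
      (Primrec.nat_mul.comp (Primrec.const 2) hQ)) (Primrec.const 15)) Primrec.fst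
  have hM : Primrec (fun p : ℕ × ℕ => M p.1 p.2) :=
    Primrec.nat_mul.comp (Primrec.nat_mul.comp (Primrec.const 24)
      (Grid.primrec_pow.comp (Primrec.const 2) hfst)) hQ
  have hn : Primrec (fun p : ℕ × ℕ => n p.1 p.2) :=
    Grid.primrec_pow.comp hs (Primrec.nat_add.comp hM (Primrec.const 1))
  have hN : Primrec (fun p : ℕ × ℕ => N p.1 p.2) :=
    Primrec.nat_mul.comp (Primrec.const 101) (Primrec.nat_add.comp (Primrec.nat_mul.comp
      (Primrec.nat_add.comp (Primrec.nat_add.comp hfst (Primrec.const 3)) (Primrec.const 1)) hn)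
      (Primrec.const 2))
  have hg : Primrec (fun p : ℕ × ℕ => g p.1 p.2) := hgB.comp Primrec.fst hN
  have hw : Primrec (fun p : ℕ × ℕ => w p.1 p.2) := hwB.comp Primrec.fst hg
  have hκ : Primrec (fun p : ℕ × ℕ => κ p.1 p.2) :=
    Primrec.nat_add.comp (Primrec.nat_add.comp (hkB.comp Primrec.fst hw) hfst) (Primrec.const 4)
  have hkF : Primrec (fun p : ℕ × ℕ => kF p.1 p.2) :=
    Primrec.nat_mul.comp (Primrec.const 4) hκ
  refine ⟨kF, hkF, ?_⟩
  intro t h L hL r hr hper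
  suffices main : ∀ m : ℕ, ∀ (V : Type) [Finite V] (G : SimpleGraph V), Nat.card V = m →
      InF L G → ¬ HasK G t → (ad G : ℝ) ≤ r * Nat.card V + 2 * kF t h * bmB (kF t h) h from
    fun V _ G hF hK => main _ V G rfl hF hK
  intro m
  induction m using Nat.strong_induction_on with
  | _ m ih =>
  intro V _ G hm hF hK
  by_contra hcon
  push Not at hcon
  have hcex : Cex r (2 * kF t h * bmB (kF t h) h) G := by
    refine ⟨by linarith, ?_⟩
    intro V' _ G' hmin hlt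
    have := ih (Nat.card V') (by omega) V' G' rfl (hF.minor hmin) (fun h => hK (hmin.hasK h))
    linarith
  -- not narrow
  have hnn : ¬ Narrow G Set.univ (κ t h) := by
    intro hnar
    have := narrow_bound hL hr hper hF (by simp only [κ]; omega) le_rfl hnar
    linarith
  -- minimal non-narrow set
  obtain ⟨U, ⟨hU1, hU2⟩, hUmin⟩ := Set.exists_min_image
    {U : Set V | {v ∈ U | ∃ z, z ∉ U ∧ G.Adj v z}.ncard ≤ aB t + 3 ∧ ¬ Narrow G U (κ t h)}
    Set.ncard (Set.toFinite _) ⟨Set.univ, by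
      have : {v ∈ (Set.univ : Set V) | ∃ z, z ∉ (Set.univ : Set V) ∧ G.Adj v z} = ∅ := by
        ext v
        simp
      rw [mem_ofPred_eq, this]
      exact ⟨by simp, hnn⟩⟩
  have hUM : UMin G U (κ t h) (aB t + 3) := by
    intro U' hU' hb
    by_contra hnar
    have h1 := hUmin U' ⟨hb, hnar⟩
    have h2 := Set.ncard_lt_ncard hU' (Set.toFinite _)
    omega
  have hKr : ¬ HasK (resG G U) t := fun h => hK (h.monoG (resG_le G U))
  obtain hmesh' := hmesh t (w t h) (κ t h) (by simp only [κ]; omega) V (resG G U)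
    (wide_of_not_narrow hU2)
  rcases hgrid t (g t h) V (resG G U) hmesh' with h1 | h1
  · exact hKr h1
  · obtain ⟨A, X, hAc, hX⟩ := hhost t (N t h) V (resG G U) h1 hKr
    have hn0 : 0 < n t h := by
      simp only [n, s]
      apply Nat.pow_pos
      omega
    obtain ⟨CA⟩ := cells_of_host G U (↑A) X (n t h) (aB t + 3) hn0 hX hU1
    exact struct_contra (k := kF t h) hL hr hper hF hK hcex (κ := κ t h) (a := aB t)
      (by simp only [κ]; omega) le_rfl (by simp only [kF, κ]; omega) (by simp only [κ]; omega)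
      (by rw [Set.ncard_coe_finset]; exact hAc) hUM (s t h) (M t h) le_rfl le_rfl CA

end Pool.Agent.Lib.MP_4d119b_lc
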