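import Pool.Agent.Lib.MP_4d119b_lc.Cells

/-! Geometry of the double fan pattern in an array of cells. -/

namespace Pool.Agent.Lib.MP_4d119b_lc

open Set CellsAux

/-- ownership of the pieces: owner `0` is the upper pole, `1` the lower pole, `i+2` the path
vertex `i`; piece `4` of a super cell is everything, pieces `0,1,2,3` are the four sides -/
def Own (o X Y d : ℕ) : Prop :=
  (o = 0 ∧ ((Y = 0 ∧ d = 4) ∨ (Y = 1 ∧ d = 0 ∧ (X % 5 = 2 ∨ X % 5 = 4)))) ∨
  (o = 1 ∧ ((Y = 4 ∧ d = 4) ∨ (Y = 3 ∧ d = 2 ∧ (X % 5 = 2 ∨ X % 5 = 4)))) ∨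
  (2 ≤ o ∧
    (((X = 5 * (o - 2) ∨ X = 5 * (o - 2) + 3) ∧ 1 ≤ Y ∧ Y ≤ 3 ∧ d = 4) ∨
     ((X = 5 * (o - 2) + 1 ∨ X = 5 * (o - 2) + 2) ∧ Y = 2 ∧ d = 4) ∨
     ((X = 5 * (o - 2) + 1 ∨ X = 5 * (o - 2) + 2) ∧ Y = 1 ∧ d = 2) ∨
     (X = 5 * (o - 2) + 2 ∧ Y = 3 ∧ d = 0) ∨
     (X = 5 * (o - 2) + 4 ∧ 1 ≤ Y ∧ Y ≤ 3 ∧ d = 3) ∨
     (X + 1 = 5 * (o - 2) ∧ 1 ≤ Y ∧ Y ≤ 3 ∧ d = 1)))

theorem Own.unique {o o' X Y d : ℕ} (h : Own o X Y d) (h' : Own o' X Y d) : o = o' := by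
  unfold Own at h h'
  omega

theorem Own.not_four {o o' X Y d : ℕ} (h : Own o X Y 4) (h' : Own o' X Y d) : d = 4 := by
  unfold Own at h h'
  omega

theorem Own.le_four {o X Y d : ℕ} (h : Own o X Y d) : d ≤ 4 := by
  unfold Own at h
  omega

theorem own_p (X : ℕ) : Own 0 X 0 4 := Or.inl ⟨rfl, Or.inl ⟨rfl, rfl⟩⟩

theorem own_q (X : ℕ) : Own 1 X 4 4 := Or.inr (Or.inl ⟨rfl, Or.inl ⟨rfl, rfl⟩⟩)

theorem own_a {i Y : ℕ} (h1 : 1 ≤ Y) (h2 : Y ≤ 3) : Own (i + 2) (5 * i) Y 4 := by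
  unfold Own; omega

theorem own_b (i : ℕ) : Own (i + 2) (5 * i + 1) 2 4 := by unfold Own; omega

theorem own_c (i : ℕ) : Own (i + 2) (5 * i + 2) 2 4 := by unfold Own; omega

theorem own_d {i Y : ℕ} (h1 : 1 ≤ Y) (h2 : Y ≤ 3) : Own (i + 2) (5 * i + 3) Y 4 := by
  unfold Own; omega

theorem own_cases_p {X Y d : ℕ} (h : Own 0 X Y d) : (Y = 0 ∧ d = 4) ∨ (Y = 1 ∧ d = 0) := by
  unfold Own at h; omega

theorem own_cases_q {X Y d : ℕ} (h : Own 1 X Y d) : (Y = 4 ∧ d = 4) ∨ (Y = 3 ∧ d = 2) := by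
  unfold Own at h; omega

theorem own_cases {i X Y d : ℕ} (h : Own (i + 2) X Y d) :
    (X + 1 = 5 * i ∧ 1 ≤ Y ∧ Y ≤ 3 ∧ d = 1) ∨ (X = 5 * i ∧ 1 ≤ Y ∧ Y ≤ 3 ∧ d = 4) ∨
    (X = 5 * i + 3 ∧ 1 ≤ Y ∧ Y ≤ 3 ∧ d = 4) ∨ (X = 5 * i + 1 ∧ Y = 2 ∧ d = 4) ∨
      (X = 5 * i + 2 ∧ Y = 2 ∧ d = 4) ∨ (X = 5 * i + 1 ∧ Y = 1 ∧ d = 2) ∨
      (X = 5 * i + 2 ∧ Y = 1 ∧ d = 2) ∨ (X = 5 * i + 2 ∧ Y = 3 ∧ d = 0) ∨
      (X = 5 * i + 4 ∧ 1 ≤ Y ∧ Y ≤ 3 ∧ d = 3) := by
  unfold Own at h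
  rw [show i + 2 - 2 = i by omega] at h
  rcases h with ⟨h, _⟩ | ⟨h, _⟩ | ⟨_, ⟨h0 | h0, h1, h2, h3⟩ | ⟨h0 | h0, h1, h2⟩ |
    ⟨h0 | h0, h1, h2⟩ | ⟨h0, h1, h2⟩ | ⟨h0, h1, h2, h3⟩ | ⟨h0, h1, h2, h3⟩⟩
  · omega
  · omega
  · exact Or.inr (Or.inl ⟨h0, h1, h2, h3⟩)
  · exact Or.inr (Or.inr (Or.inl ⟨h0, h1, h2, h3⟩))
  · exact Or.inr (Or.inr (Or.inr (Or.inl ⟨h0, h1, h2⟩)))
  · exact Or.inr (Or.inr (Or.inr (Or.inr (Or.inl ⟨h0, h1, h2⟩))))
  · exact Or.inr (Or.inr (Or.inr (Or.inr (Or.inr (Or.inl ⟨h0, h1, h2⟩)))))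
  · exact Or.inr (Or.inr (Or.inr (Or.inr (Or.inr (Or.inr (Or.inl ⟨h0, h1, h2⟩))))))
  · exact Or.inr (Or.inr (Or.inr (Or.inr (Or.inr (Or.inr (Or.inr (Or.inl ⟨h0, h1, h2⟩)))))))
  · exact Or.inr (Or.inr (Or.inr (Or.inr (Or.inr (Or.inr (Or.inr (Or.inr ⟨h0, h1, h2, h3⟩)))))))
  · exact Or.inl ⟨h0, h1, h2, h3⟩

variable {V : Type} {G : SimpleGraph V} {A U : Set V} {n : ℕ}

theorem CellArray.touch_right (CA : CellArray G A U n) {i j : ℕ} (hi : i + 1 < n) (hj : j < n) :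
    Touch G (CA.C i j).H (CA.C (i + 1) j).H :=
  ⟨_, (CA.C i j).port_mem 1, _, (CA.C (i + 1) j).port_mem 3, CA.right i j hi hj⟩

theorem CellArray.touch_down (CA : CellArray G A U n) {i j : ℕ} (hi : i < n) (hj : j + 1 < n) :
    Touch G (CA.C i j).H (CA.C i (j + 1)).H :=
  ⟨_, (CA.C i j).port_mem 2, _, (CA.C i (j + 1)).port_mem 0, CA.down i j hi hj⟩

/-- cells of a rectangle -/
def CellArray.rc (CA : CellArray G A U n) (a b c d : ℕ) : Set V :=
  rectS (fun i j => (CA.C i j).H) a b c d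

namespace CellArray

variable (CA : CellArray G A U n)

theorem rc_conn {a b c d : ℕ} (hab : a ≤ b) (hcd : c ≤ d) (hb : b < n) (hd : d < n) :
    Conn G (CA.rc a b c d) := by
  unfold rc
  rw [rectS_eq]
  refine conn_rect _ a b c d hab hcd ?_ ?_ ?_
  · intro i j h1 h2 h3 h4
    exact (CA.C i j).conn
  · intro i j h1 h2 h3 h4
    exact CA.touch_right (by omega) (by omega)
  · intro i j h1 h2 h3 h4
    exact CA.touch_down (by omega) (by omega)

theorem rc_disj {a b c d a' b' c' d' : ℕ} (hb : b < n) (hd : d < n) (hb' : b' < n)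
    (hd' : d' < n) (h : b < a' ∨ b' < a ∨ d < c' ∨ d' < c) :
    Disjoint (CA.rc a b c d) (CA.rc a' b' c' d') := by
  rw [Set.disjoint_left]
  rintro v ⟨i, j, h1, h2, h3, h4, h5⟩ ⟨i', j', h1', h2', h3', h4', h5'⟩
  refine Set.disjoint_left.1 (CA.disj i j i' j' (by omega) (by omega) (by omega) (by omega) ?_)
    h5 h5'
  omega

theorem rc_mono {a b c d a' b' c' d' : ℕ} (h1 : a' ≤ a) (h2 : b ≤ b') (h3 : c' ≤ c)
    (h4 : d ≤ d') : CA.rc a b c d ⊆ CA.rc a' b' c' d' := rectS_mono h1 h2 h3 h4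

theorem cell_sub_rc {i j a b c d : ℕ} (h1 : a ≤ i) (h2 : i ≤ b) (h3 : c ≤ j) (h4 : j ≤ d) :
    (CA.C i j).H ⊆ CA.rc a b c d := fun _ hv => ⟨i, j, h1, h2, h3, h4, hv⟩

theorem rc_ne {a b c d : ℕ} (hab : a ≤ b) (hcd : c ≤ d) (hb : b < n) (hd : d < n) :
    (CA.rc a b c d).Nonempty := (CA.rc_conn hab hcd hb hd).1

end CellArray

/-- data for the geometry: `m` block size, chosen cells `(e, f)` of the super cells in their
central blocks, connectors `C` -/
structure GeoData (CA : CellArray G A U n) (N : ℕ) where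
  m : ℕ
  hm : 1 ≤ m
  hx : 3 * m * (5 * N + 1) ≤ n
  hy : 3 * m * 5 ≤ n
  e : ℕ → ℕ → ℕ
  f : ℕ → ℕ → ℕ
  he : ∀ X Y, X < 5 * N + 1 → Y < 5 → 3 * m * X + m ≤ e X Y ∧ e X Y < 3 * m * X + 2 * m
  hf : ∀ X Y, X < 5 * N + 1 → Y < 5 → 3 * m * Y + m ≤ f X Y ∧ f X Y < 3 * m * Y + 2 * m
  C : ℕ → ℕ → ℕ → Set V
  Cconn : ∀ o X Y d, X < 5 * N + 1 → Y < 5 → (hd : d < 4) → Own o X Y d →
    Conn G (C X Y d) ∧ C X Y d ⊆ (CA.C (e X Y) (f X Y)).H ∧
      (CA.C (e X Y) (f X Y)).port ⟨d, hd⟩ ∈ C X Y d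
  Cdisj : ∀ o o' X Y d d', X < 5 * N + 1 → Y < 5 → d < 4 → d' < 4 → Own o X Y d →
    Own o' X Y d' → d ≠ d' → Disjoint (C X Y d) (C X Y d')

namespace GeoData

variable {CA : CellArray G A U n} {N : ℕ} (D : GeoData CA N)

include D in
theorem bnd {X Y : ℕ} (hX : X < 5 * N + 1) (hY : Y < 5) :
    3 * D.m * X + 3 * D.m ≤ n ∧ 3 * D.m * Y + 3 * D.m ≤ n := by
  have h1 : 3 * D.m * X + 3 * D.m ≤ 3 * D.m * (5 * N + 1) := by
    calc 3 * D.m * X + 3 * D.m = 3 * D.m * (X + 1) := by ring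
      _ ≤ 3 * D.m * (5 * N + 1) := Nat.mul_le_mul_left _ hX
  have h2 : 3 * D.m * Y + 3 * D.m ≤ 3 * D.m * 5 := by
    calc 3 * D.m * Y + 3 * D.m = 3 * D.m * (Y + 1) := by ring
      _ ≤ 3 * D.m * 5 := Nat.mul_le_mul_left _ hY
  exact ⟨h1.trans D.hx, h2.trans D.hy⟩

theorem sep {X X' : ℕ} (h : X < X') : 3 * D.m * X + 3 * D.m ≤ 3 * D.m * X' := by
  calc 3 * D.m * X + 3 * D.m = 3 * D.m * (X + 1) := by ring
    _ ≤ 3 * D.m * X' := Nat.mul_le_mul_left _ h

/-- side rectangle -/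
def side (X Y d : ℕ) : Set V :=
  if d = 0 then CA.rc (3 * D.m * X + 1) (3 * D.m * X + 3 * D.m - 2) (3 * D.m * Y) (3 * D.m * Y)
  else if d = 1 then CA.rc (3 * D.m * X + 3 * D.m - 1) (3 * D.m * X + 3 * D.m - 1)
    (3 * D.m * Y + 1) (3 * D.m * Y + 3 * D.m - 2)
  else if d = 2 then CA.rc (3 * D.m * X + 1) (3 * D.m * X + 3 * D.m - 2)
    (3 * D.m * Y + 3 * D.m - 1) (3 * D.m * Y + 3 * D.m - 1)
  else CA.rc (3 * D.m * X) (3 * D.m * X) (3 * D.m * Y + 1) (3 * D.m * Y + 3 * D.m - 2)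

/-- route from the chosen cell to the side -/
def route (X Y d : ℕ) : Set V :=
  if d = 0 then CA.rc (D.e X Y) (D.e X Y) (3 * D.m * Y) (D.f X Y - 1)
  else if d = 1 then CA.rc (D.e X Y + 1) (3 * D.m * X + 3 * D.m - 1) (D.f X Y) (D.f X Y)
  else if d = 2 then CA.rc (D.e X Y) (D.e X Y) (D.f X Y + 1) (3 * D.m * Y + 3 * D.m - 1)
  else CA.rc (3 * D.m * X) (D.e X Y - 1) (D.f X Y) (D.f X Y)

/-- the whole super cell -/
def whole (X Y : ℕ) : Set V :=
  CA.rc (3 * D.m * X) (3 * D.m * X + 3 * D.m - 1) (3 * D.m * Y) (3 * D.m * Y + 3 * D.m - 1)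

/-- pieces -/
def pc (X Y d : ℕ) : Set V :=
  if d = 4 then D.whole X Y else (D.side X Y d ∪ D.route X Y d) ∪ D.C X Y d

theorem side_sub (X Y d : ℕ) : D.side X Y d ⊆ D.whole X Y := by
  have := D.hm
  unfold side whole
  split_ifs <;> exact CA.rc_mono (by omega) (by omega) (by omega) (by omega)

theorem route_sub {X Y : ℕ} (hX : X < 5 * N + 1) (hY : Y < 5) (d : ℕ) :
    D.route X Y d ⊆ D.whole X Y := by
  have := D.hm
  have h1 := D.he X Y hX hY
  have h2 := D.hf X Y hX hY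
  unfold route whole
  split_ifs <;> exact CA.rc_mono (by omega) (by omega) (by omega) (by omega)

theorem cell_sub {X Y : ℕ} (hX : X < 5 * N + 1) (hY : Y < 5) :
    (CA.C (D.e X Y) (D.f X Y)).H ⊆ D.whole X Y := by
  have h1 := D.he X Y hX hY
  have h2 := D.hf X Y hX hY
  exact CA.cell_sub_rc (by omega) (by omega) (by omega) (by omega)

theorem pc_sub {o X Y d : ℕ} (hX : X < 5 * N + 1) (hY : Y < 5) (ho : Own o X Y d) :
    D.pc X Y d ⊆ D.whole X Y := by
  unfold pc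
  split_ifs with h4
  · exact subset_rfl
  · have hd : d < 4 := by have := ho.le_four; omega
    refine union_subset (union_subset (D.side_sub X Y d) (D.route_sub hX hY d)) ?_
    exact (D.Cconn o X Y d hX hY hd ho).2.1.trans (D.cell_sub hX hY)

theorem whole_disj {X Y X' Y' : ℕ} (hX : X < 5 * N + 1) (hY : Y < 5) (hX' : X' < 5 * N + 1)
    (hY' : Y' < 5) (h : X ≠ X' ∨ Y ≠ Y') : Disjoint (D.whole X Y) (D.whole X' Y') := by
  have h1 := D.bnd hX hY
  have h2 := D.bnd hX' hY'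
  have hm := D.hm
  refine CA.rc_disj (by omega) (by omega) (by omega) (by omega) ?_
  rcases h with h | h
  · rcases Nat.lt_or_gt_of_ne h with h | h
    · have := D.sep h; omega
    · have := D.sep h; omega
  · rcases Nat.lt_or_gt_of_ne h with h | h
    · have := D.sep h; omega
    · have := D.sep h; omega

/-- side and route avoid the chosen cell -/
theorem side_route_disj_cell {X Y : ℕ} (hX : X < 5 * N + 1) (hY : Y < 5) (d : ℕ) :
    Disjoint (D.side X Y d ∪ D.route X Y d) (CA.C (D.e X Y) (D.f X Y)).H := by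
  have h1 := D.bnd hX hY
  have hm := D.hm
  have h2 := D.he X Y hX hY
  have h3 := D.hf X Y hX hY
  have hc : (CA.C (D.e X Y) (D.f X Y)).H = CA.rc (D.e X Y) (D.e X Y) (D.f X Y) (D.f X Y) := by
    ext v
    constructor
    · intro hv; exact ⟨_, _, le_rfl, le_rfl, le_rfl, le_rfl, hv⟩
    · rintro ⟨i, j, g1, g2, g3, g4, hv⟩
      have : i = D.e X Y := by omega
      subst this
      have : j = D.f X Y := by omega
      subst this
      exact hv
  rw [hc, Set.disjoint_union_left]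
  unfold side route
  split_ifs <;> exact ⟨CA.rc_disj (by omega) (by omega) (by omega) (by omega) (by omega),
    CA.rc_disj (by omega) (by omega) (by omega) (by omega) (by omega)⟩

theorem side_route_disj {X Y d d' : ℕ} (hX : X < 5 * N + 1) (hY : Y < 5) (hd : d < 4)
    (hd' : d' < 4) (h : d ≠ d') : Disjoint (D.side X Y d ∪ D.route X Y d)
      (D.side X Y d' ∪ D.route X Y d') := by
  have h1 := D.bnd hX hY
  have hm := D.hm
  have h2 := D.he X Y hX hY
  have h3 := D.hf X Y hX hY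
  rw [Set.disjoint_union_left, Set.disjoint_union_right, Set.disjoint_union_right]
  have hd0 : d = 0 ∨ d = 1 ∨ d = 2 ∨ d = 3 := by omega
  have hd0' : d' = 0 ∨ d' = 1 ∨ d' = 2 ∨ d' = 3 := by omega
  rcases hd0 with rfl | rfl | rfl | rfl <;> rcases hd0' with rfl | rfl | rfl | rfl
  all_goals first
    | exact absurd rfl h
    | (simp only [side, route]
       exact ⟨⟨CA.rc_disj (by omega) (by omega) (by omega) (by omega) (by omega),
        CA.rc_disj (by omega) (by omega) (by omega) (by omega) (by omega)⟩,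
        ⟨CA.rc_disj (by omega) (by omega) (by omega) (by omega) (by omega),
        CA.rc_disj (by omega) (by omega) (by omega) (by omega) (by omega)⟩⟩)

theorem pc_disj {o o' X Y d d' : ℕ} (hX : X < 5 * N + 1) (hY : Y < 5)
    (ho : Own o X Y d) (ho' : Own o' X Y d') (h : d ≠ d') :
    Disjoint (D.pc X Y d) (D.pc X Y d') := by
  have hd4 : d ≠ 4 := by
    rintro rfl
    exact h (ho.not_four ho').symm
  have hd4' : d' ≠ 4 := by
    rintro rfl
    exact h (ho'.not_four ho)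
  have hd : d < 4 := by have := ho.le_four; omega
  have hd' : d' < 4 := by have := ho'.le_four; omega
  unfold pc
  rw [if_neg hd4, if_neg hd4']
  refine Set.disjoint_union_left.2 ⟨Set.disjoint_union_right.2
    ⟨D.side_route_disj hX hY hd hd' h, ?_⟩, Set.disjoint_union_right.2
    ⟨?_, D.Cdisj o o' X Y d d' hX hY hd hd' ho ho' h⟩⟩
  · exact (D.side_route_disj_cell hX hY d).mono_right (D.Cconn o' X Y d' hX hY hd' ho').2.1
  · exact ((D.side_route_disj_cell hX hY d').mono_right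
      (D.Cconn o X Y d hX hY hd ho).2.1).symm

theorem pc_conn {o X Y d : ℕ} (hX : X < 5 * N + 1) (hY : Y < 5) (ho : Own o X Y d) :
    Conn G (D.pc X Y d) := by
  have h1 := D.bnd hX hY
  have hm := D.hm
  have h2 := D.he X Y hX hY
  have h3 := D.hf X Y hX hY
  unfold pc
  split_ifs with h4
  · exact CA.rc_conn (by omega) (by omega) (by omega) (by omega)
  · have hd : d < 4 := by have := ho.le_four; omega
    obtain ⟨hC1, hC2, hC3⟩ := D.Cconn o X Y d hX hY hd ho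
    have hd0 : d = 0 ∨ d = 1 ∨ d = 2 ∨ d = 3 := by omega
    rcases hd0 with rfl | rfl | rfl | rfl
    · simp only [side, route, if_true]
      refine Conn.union_touch (Conn.union (CA.rc_conn (by omega) (by omega) (by omega) (by omega))
        (CA.rc_conn (by omega) (by omega) (by omega) (by omega)) ?_) hC1 ?_
      · obtain ⟨v, hv⟩ := (CA.C (D.e X Y) (3 * D.m * Y)).conn.1
        exact ⟨v, CA.cell_sub_rc (by omega) (by omega) (by omega) (by omega) hv,
          CA.cell_sub_rc (by omega) (by omega) (by omega) (by omega) hv⟩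
      · refine ⟨(CA.C (D.e X Y) (D.f X Y - 1)).port 2, Or.inr (CA.cell_sub_rc (by omega)
          (by omega) (by omega) (by omega) ((CA.C _ _).port_mem 2)), _, hC3, ?_⟩
        have := CA.down (D.e X Y) (D.f X Y - 1) (by omega) (by omega)
        rw [show D.f X Y - 1 + 1 = D.f X Y by omega] at this
        exact this
    · simp only [side, route, if_true, if_false, one_ne_zero]
      refine Conn.union_touch (Conn.union (CA.rc_conn (by omega) (by omega) (by omega) (by omega))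
        (CA.rc_conn (by omega) (by omega) (by omega) (by omega)) ?_) hC1 ?_
      · obtain ⟨v, hv⟩ := (CA.C (3 * D.m * X + 3 * D.m - 1) (D.f X Y)).conn.1
        exact ⟨v, CA.cell_sub_rc (by omega) (by omega) (by omega) (by omega) hv,
          CA.cell_sub_rc (by omega) (by omega) (by omega) (by omega) hv⟩
      · refine ⟨(CA.C (D.e X Y + 1) (D.f X Y)).port 3, Or.inr (CA.cell_sub_rc (by omega)
          (by omega) (by omega) (by omega) ((CA.C _ _).port_mem 3)), _, hC3, ?_⟩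
        exact (CA.right (D.e X Y) (D.f X Y) (by omega) (by omega)).symm
    · simp only [side, route, if_true, if_false, OfNat.ofNat_ne_zero, OfNat.ofNat_ne_one]
      refine Conn.union_touch (Conn.union (CA.rc_conn (by omega) (by omega) (by omega) (by omega))
        (CA.rc_conn (by omega) (by omega) (by omega) (by omega)) ?_) hC1 ?_
      · obtain ⟨v, hv⟩ := (CA.C (D.e X Y) (3 * D.m * Y + 3 * D.m - 1)).conn.1
        exact ⟨v, CA.cell_sub_rc (by omega) (by omega) (by omega) (by omega) hv,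
          CA.cell_sub_rc (by omega) (by omega) (by omega) (by omega) hv⟩
      · refine ⟨(CA.C (D.e X Y) (D.f X Y + 1)).port 0, Or.inr (CA.cell_sub_rc (by omega)
          (by omega) (by omega) (by omega) ((CA.C _ _).port_mem 0)), _, hC3, ?_⟩
        exact (CA.down (D.e X Y) (D.f X Y) (by omega) (by omega)).symm
    · simp only [side, route, if_false, OfNat.ofNat_ne_zero, OfNat.ofNat_ne_one,
        show (3 : ℕ) ≠ 2 by omega]
      refine Conn.union_touch (Conn.union (CA.rc_conn (by omega) (by omega) (by omega) (by omega))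
        (CA.rc_conn (by omega) (by omega) (by omega) (by omega)) ?_) hC1 ?_
      · obtain ⟨v, hv⟩ := (CA.C (3 * D.m * X) (D.f X Y)).conn.1
        exact ⟨v, CA.cell_sub_rc (by omega) (by omega) (by omega) (by omega) hv,
          CA.cell_sub_rc (by omega) (by omega) (by omega) (by omega) hv⟩
      · refine ⟨(CA.C (D.e X Y - 1) (D.f X Y)).port 1, Or.inr (CA.cell_sub_rc (by omega)
          (by omega) (by omega) (by omega) ((CA.C _ _).port_mem 1)), _, hC3, ?_⟩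
        have := CA.right (D.e X Y - 1) (D.f X Y) (by omega) (by omega)
        rw [show D.e X Y - 1 + 1 = D.e X Y by omega] at this
        exact this

/-- a piece contains the side `d'` if it is everything or this side -/
theorem side_sub_pc {X Y d d' : ℕ} (h : d = 4 ∨ d = d') (hd' : d' < 4) :
    D.side X Y d' ⊆ D.pc X Y d := by
  unfold pc
  rcases h with rfl | rfl
  · rw [if_pos rfl]; exact D.side_sub X Y d'
  · rw [if_neg (by omega)]
    exact subset_union_left.trans subset_union_left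

theorem touch_v {X Y d d' : ℕ} (hX : X < 5 * N + 1) (hY : Y + 1 < 5) (h : d = 4 ∨ d = 2)
    (h' : d' = 4 ∨ d' = 0) : Touch G (D.pc X Y d) (D.pc X (Y + 1) d') := by
  have h1 := D.bnd hX (show Y < 5 by omega)
  have h1' := D.bnd hX hY
  have hm := D.hm
  have hmul : 3 * D.m * (Y + 1) = 3 * D.m * Y + 3 * D.m := by ring
  rw [hmul] at h1'
  refine Touch.mono (D.side_sub_pc h (by omega)) (D.side_sub_pc h' (by omega)) ?_
  simp only [side, if_true, if_false, OfNat.ofNat_ne_zero, OfNat.ofNat_ne_one]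
  have := CA.touch_down (i := 3 * D.m * X + 1) (j := 3 * D.m * Y + 3 * D.m - 1) (by omega)
    (by omega)
  rw [show 3 * D.m * Y + 3 * D.m - 1 + 1 = 3 * D.m * (Y + 1) by rw [hmul]; omega] at this
  refine this.mono ?_ ?_
  · exact CA.cell_sub_rc (by omega) (by omega) (by omega) (by omega)
  · exact CA.cell_sub_rc (by omega) (by omega) (by omega) (by omega)

theorem touch_h {X Y d d' : ℕ} (hX : X + 1 < 5 * N + 1) (hY : Y < 5) (h : d = 4 ∨ d = 1)
    (h' : d' = 4 ∨ d' = 3) : Touch G (D.pc X Y d) (D.pc (X + 1) Y d') := by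
  have h1 := D.bnd (show X < 5 * N + 1 by omega) hY
  have h1' := D.bnd hX hY
  have hm := D.hm
  have hmul : 3 * D.m * (X + 1) = 3 * D.m * X + 3 * D.m := by ring
  rw [hmul] at h1'
  refine Touch.mono (D.side_sub_pc h (by omega)) (D.side_sub_pc h' (by omega)) ?_
  simp only [side, if_true, if_false, OfNat.ofNat_ne_zero, OfNat.ofNat_ne_one, one_ne_zero,
    show (3 : ℕ) ≠ 2 by omega]
  have := CA.touch_right (i := 3 * D.m * X + 3 * D.m - 1) (j := 3 * D.m * Y + 1) (by omega)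
    (by omega)
  rw [show 3 * D.m * X + 3 * D.m - 1 + 1 = 3 * D.m * (X + 1) by rw [hmul]; omega] at this
  refine this.mono ?_ ?_
  · exact CA.cell_sub_rc (by omega) (by omega) (by omega) (by omega)
  · exact CA.cell_sub_rc (by omega) (by omega) (by omega) (by omega)

/-- branch set of an owner -/
def BS (o : ℕ) : Set V :=
  {v | ∃ X Y d, X < 5 * N + 1 ∧ Y < 5 ∧ Own o X Y d ∧ v ∈ D.pc X Y d}

theorem pc_sub_BS {o X Y d : ℕ} (hX : X < 5 * N + 1) (hY : Y < 5) (ho : Own o X Y d) :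
    D.pc X Y d ⊆ D.BS o := fun _ hv => ⟨X, Y, d, hX, hY, ho, hv⟩

theorem C_sub_BS {o X Y d : ℕ} (hX : X < 5 * N + 1) (hY : Y < 5) (hd : d < 4)
    (ho : Own o X Y d) : D.C X Y d ⊆ D.BS o := by
  refine Subset.trans ?_ (D.pc_sub_BS hX hY ho)
  unfold pc
  rw [if_neg (by omega)]
  exact subset_union_right

theorem BS_disj {o o' : ℕ} (h : o ≠ o') : Disjoint (D.BS o) (D.BS o') := by
  rw [Set.disjoint_left]
  rintro v ⟨X, Y, d, hX, hY, ho, hv⟩ ⟨X', Y', d', hX', hY', ho', hv'⟩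
  by_cases hp : X ≠ X' ∨ Y ≠ Y'
  · exact Set.disjoint_left.1 (D.whole_disj hX hY hX' hY' hp) (D.pc_sub hX hY ho hv)
      (D.pc_sub hX' hY' ho' hv')
  · push Not at hp
    obtain ⟨rfl, rfl⟩ := hp
    have hdd : d ≠ d' := by
      rintro rfl
      exact h (ho.unique ho')
    exact Set.disjoint_left.1 (D.pc_disj hX hY ho ho' hdd) hv hv'

/-- a subset of the chosen cell avoiding the connectors avoids all branch sets -/
theorem BS_disj_sub {o X Y : ℕ} (hX : X < 5 * N + 1) (hY : Y < 5) {Z : Set V}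
    (hZ : Z ⊆ (CA.C (D.e X Y) (D.f X Y)).H)
    (hZC : ∀ o d, d < 4 → Own o X Y d → Disjoint (D.C X Y d) Z)
    (hn4 : ∀ o, ¬ Own o X Y 4) : Disjoint (D.BS o) Z := by
  rw [Set.disjoint_left]
  rintro v ⟨X', Y', d, hX', hY', ho, hv⟩ hvZ
  by_cases hp : X ≠ X' ∨ Y ≠ Y'
  · exact Set.disjoint_left.1 (D.whole_disj hX hY hX' hY' hp) (D.cell_sub hX hY (hZ hvZ))
      (D.pc_sub hX' hY' ho hv)
  · push Not at hp
    obtain ⟨rfl, rfl⟩ := hp
    have hd4 : d ≠ 4 := by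
      rintro rfl
      exact hn4 o ho
    have hd : d < 4 := by have := ho.le_four; omega
    unfold pc at hv
    rw [if_neg hd4] at hv
    rcases hv with hv | hv
    · exact Set.disjoint_left.1 (D.side_route_disj_cell hX hY d) hv (hZ hvZ)
    · exact Set.disjoint_left.1 (hZC o d hd ho) hv hvZ

theorem BS_sub_cells {o : ℕ} {v : V} (hv : v ∈ D.BS o) : ∃ i j, i < n ∧ j < n ∧
    v ∈ (CA.C i j).H := by
  obtain ⟨X, Y, d, hX, hY, ho, hv⟩ := hv
  obtain ⟨i, j, h1, h2, h3, h4, h5⟩ := D.pc_sub hX hY ho hv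
  have := D.bnd hX hY
  have := D.hm
  exact ⟨i, j, by omega, by omega, h5⟩

/-- connectivity: a general step -/
theorem good_step {o : ℕ} {x0 : V} {X Y d X' Y' d' : ℕ}
    (hg : ∀ v ∈ D.pc X Y d, RIn G (D.BS o) x0 v) (hX : X < 5 * N + 1) (hY : Y < 5)
    (ho : Own o X Y d) (hX' : X' < 5 * N + 1) (hY' : Y' < 5) (ho' : Own o X' Y' d')
    (ht : Touch G (D.pc X Y d) (D.pc X' Y' d')) :
    ∀ v ∈ D.pc X' Y' d', RIn G (D.BS o) x0 v := by
  intro v hv
  obtain ⟨a, ha, b, hb, hab⟩ := ht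
  exact ((hg a ha).tail hab (D.pc_sub_BS hX hY ho ha) (D.pc_sub_BS hX' hY' ho' hb)).trans
    (((D.pc_conn hX' hY' ho').2 b hb v hv).mono (D.pc_sub_BS hX' hY' ho'))

/-- connectivity of the upper pole -/
theorem BS_conn_zero : Conn G (D.BS 0) := by
  obtain ⟨x0, hx0⟩ := (D.pc_conn (show 0 < 5 * N + 1 by omega) (by omega) (own_p 0)).1
  have hrow : ∀ X, X < 5 * N + 1 → ∀ v ∈ D.pc X 0 4, RIn G (D.BS 0) x0 v := by
    intro X
    induction X with
    | zero =>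
      intro hX v hv
      exact ((D.pc_conn hX (by omega) (own_p 0)).2 x0 hx0 v hv).mono
        (D.pc_sub_BS hX (by omega) (own_p 0))
    | succ X ih =>
      intro hX
      exact D.good_step (ih (by omega)) (by omega) (by omega) (own_p X) hX (by omega)
        (own_p (X + 1)) (D.touch_h hX (by omega) (Or.inl rfl) (Or.inl rfl))
  refine conn_of_reach (x := x0) (D.pc_sub_BS (by omega) (by omega) (own_p 0) hx0) ?_
  rintro v ⟨X, Y, d, hX, hY, ho, hv⟩
  rcases own_cases_p ho with ⟨rfl, rfl⟩ | ⟨rfl, rfl⟩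
  · exact hrow X hX v hv
  · exact D.good_step (hrow X hX) hX (by omega) (own_p X) hX hY ho
      (D.touch_v hX (by omega) (Or.inl rfl) (Or.inr rfl)) v hv

/-- connectivity of the lower pole -/
theorem BS_conn_one : Conn G (D.BS 1) := by
  obtain ⟨x0, hx0⟩ := (D.pc_conn (show 0 < 5 * N + 1 by omega) (by omega) (own_q 0)).1
  have hrow : ∀ X, X < 5 * N + 1 → ∀ v ∈ D.pc X 4 4, RIn G (D.BS 1) x0 v := by
    intro X
    induction X with
    | zero =>
      intro hX v hv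
      exact ((D.pc_conn hX (by omega) (own_q 0)).2 x0 hx0 v hv).mono
        (D.pc_sub_BS hX (by omega) (own_q 0))
    | succ X ih =>
      intro hX
      exact D.good_step (ih (by omega)) (by omega) (by omega) (own_q X) hX (by omega)
        (own_q (X + 1)) (D.touch_h hX (by omega) (Or.inl rfl) (Or.inl rfl))
  refine conn_of_reach (x := x0) (D.pc_sub_BS (by omega) (by omega) (own_q 0) hx0) ?_
  rintro v ⟨X, Y, d, hX, hY, ho, hv⟩
  rcases own_cases_q ho with ⟨rfl, rfl⟩ | ⟨rfl, rfl⟩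
  · exact hrow X hX v hv
  · exact D.good_step (hrow X hX) hX (by omega) (own_q X) hX hY ho
      (D.touch_v hX (by omega) (Or.inr rfl) (Or.inl rfl)).symm v hv

/-- connectivity of the path vertices -/
theorem BS_conn_path {i : ℕ} (hi : i ≤ N) : Conn G (D.BS (i + 2)) := by
  have h00 : Own (i + 2) (5 * i) 2 4 := own_a (by omega) (by omega)
  have hX0 : 5 * i < 5 * N + 1 := by omega
  obtain ⟨x0, hx0⟩ := (D.pc_conn hX0 (show 2 < 5 by omega) h00).1
  have ha2 : ∀ v ∈ D.pc (5 * i) 2 4, RIn G (D.BS (i + 2)) x0 v := fun v hv =>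
    ((D.pc_conn hX0 (by omega) h00).2 x0 hx0 v hv).mono (D.pc_sub_BS hX0 (by omega) h00)
  have ha1 : ∀ v ∈ D.pc (5 * i) 1 4, RIn G (D.BS (i + 2)) x0 v :=
    D.good_step ha2 hX0 (by omega) h00 hX0 (by omega) (own_a (by omega) (by omega))
      (D.touch_v hX0 (by omega) (Or.inl rfl) (Or.inl rfl)).symm
  have ha3 : ∀ v ∈ D.pc (5 * i) 3 4, RIn G (D.BS (i + 2)) x0 v :=
    D.good_step ha2 hX0 (by omega) h00 hX0 (by omega) (own_a (by omega) (by omega))
      (D.touch_v hX0 (by omega) (Or.inl rfl) (Or.inl rfl))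
  have ha : ∀ Y, 1 ≤ Y → Y ≤ 3 → ∀ v ∈ D.pc (5 * i) Y 4, RIn G (D.BS (i + 2)) x0 v := by
    intro Y h1 h2
    have : Y = 1 ∨ Y = 2 ∨ Y = 3 := by omega
    rcases this with rfl | rfl | rfl
    · exact ha1
    · exact ha2
    · exact ha3
  refine conn_of_reach (x := x0) (D.pc_sub_BS hX0 (by omega) h00 hx0) ?_
  rintro v ⟨X, Y, d, hX, hY, ho, hv⟩
  rcases own_cases ho with ⟨hL, h1, h2, rfl⟩ | ⟨rfl, h1, h2, rfl⟩ | hrest
  · -- left connectors
    have ht := D.touch_h (X := X) (Y := Y) (d := 1) (d' := 4) (by omega) hY (Or.inr rfl)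
      (Or.inl rfl)
    rw [hL] at ht
    exact D.good_step (ha Y h1 h2) hX0 hY (own_a h1 h2) hX hY ho ht.symm v hv
  · exact ha Y h1 h2 v hv
  -- now i < N
  have hiN : i < N := by omega
  have hX1 : 5 * i + 1 < 5 * N + 1 := by omega
  have hX2 : 5 * i + 2 < 5 * N + 1 := by omega
  have hX3 : 5 * i + 3 < 5 * N + 1 := by omega
  have hX4 : 5 * i + 4 < 5 * N + 1 := by omega
  have hb : ∀ v ∈ D.pc (5 * i + 1) 2 4, RIn G (D.BS (i + 2)) x0 v :=
    D.good_step ha2 hX0 (by omega) h00 hX1 (by omega) (own_b i)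
      (D.touch_h hX1 (by omega) (Or.inl rfl) (Or.inl rfl))
  have hc : ∀ v ∈ D.pc (5 * i + 2) 2 4, RIn G (D.BS (i + 2)) x0 v :=
    D.good_step hb hX1 (by omega) (own_b i) hX2 (by omega) (own_c i)
      (D.touch_h hX2 (by omega) (Or.inl rfl) (Or.inl rfl))
  have hd2 : ∀ v ∈ D.pc (5 * i + 3) 2 4, RIn G (D.BS (i + 2)) x0 v :=
    D.good_step hc hX2 (by omega) (own_c i) hX3 (by omega)
      (own_d (by omega) (by omega)) (D.touch_h hX3 (by omega) (Or.inl rfl) (Or.inl rfl))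
  have hd1 : ∀ v ∈ D.pc (5 * i + 3) 1 4, RIn G (D.BS (i + 2)) x0 v :=
    D.good_step hd2 hX3 (by omega) (own_d (by omega) (by omega)) hX3 (by omega)
      (own_d (by omega) (by omega)) (D.touch_v hX3 (by omega) (Or.inl rfl) (Or.inl rfl)).symm
  have hd3 : ∀ v ∈ D.pc (5 * i + 3) 3 4, RIn G (D.BS (i + 2)) x0 v :=
    D.good_step hd2 hX3 (by omega) (own_d (by omega) (by omega)) hX3 (by omega)
      (own_d (by omega) (by omega)) (D.touch_v hX3 (by omega) (Or.inl rfl) (Or.inl rfl))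
  have hdd : ∀ Y, 1 ≤ Y → Y ≤ 3 → ∀ v ∈ D.pc (5 * i + 3) Y 4, RIn G (D.BS (i + 2)) x0 v := by
    intro Y h1 h2
    have : Y = 1 ∨ Y = 2 ∨ Y = 3 := by omega
    rcases this with rfl | rfl | rfl
    · exact hd1
    · exact hd2
    · exact hd3
  rcases hrest with ⟨rfl, h1, h2, rfl⟩ | ⟨rfl, rfl, rfl⟩ | ⟨rfl, rfl, rfl⟩ | ⟨rfl, rfl, rfl⟩ |
    ⟨rfl, rfl, rfl⟩ | ⟨rfl, rfl, rfl⟩ | ⟨rfl, h1, h2, rfl⟩
  · exact hdd Y h1 h2 v hv
  · exact hb v hv
  · exact hc v hv
  · exact D.good_step hb hX1 (by omega) (own_b i) hX hY ho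
      (D.touch_v hX1 (by omega) (Or.inr rfl) (Or.inl rfl)).symm v hv
  · exact D.good_step hc hX2 (by omega) (own_c i) hX hY ho
      (D.touch_v hX2 (by omega) (Or.inr rfl) (Or.inl rfl)).symm v hv
  · exact D.good_step hc hX2 (by omega) (own_c i) hX hY ho
      (D.touch_v hX2 (by omega) (Or.inl rfl) (Or.inr rfl)) v hv
  · exact D.good_step (hdd Y h1 h2) hX3 hY (own_d h1 h2) hX hY ho
      (D.touch_h hX4 hY (Or.inl rfl) (Or.inr rfl)) v hv

theorem BS_conn {o : ℕ} (ho : o < N + 3) : Conn G (D.BS o) := by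
  rcases Nat.lt_or_ge o 2 with h | h
  · have : o = 0 ∨ o = 1 := by omega
    rcases this with rfl | rfl
    · exact D.BS_conn_zero
    · exact D.BS_conn_one
  · obtain ⟨i, rfl⟩ : ∃ i, o = i + 2 := ⟨o - 2, by omega⟩
    exact D.BS_conn_path (by omega)

end GeoData

end Pool.Agent.Lib.MP_4d119b_lc
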