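import Pool.Agent.Lib.MP_4d119b_lc.Iface

/-! Job Grid, part 1: crossing systems of verticals and layers contain grids. -/

namespace Pool.Agent.Lib.MP_4d119b_lc

open Set

namespace Grid

variable {V : Type}

/-- union of the edges of a family of paths -/
def PG {ι : Type*} {G : SimpleGraph V} (F : ι → GP G) : SimpleGraph V where
  Adj x y := ∃ i k, k < (F i).len ∧ (((F i).p k = x ∧ (F i).p (k + 1) = y) ∨
    ((F i).p k = y ∧ (F i).p (k + 1) = x))
  symm := ⟨fun x y ⟨i, k, h, h'⟩ => ⟨i, k, h, h'.symm⟩⟩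
  loopless := ⟨fun x ⟨i, k, h, h'⟩ => by
    have := (F i).inj k h.le (k + 1) h
    rcases h' with ⟨h1, h2⟩ | ⟨h1, h2⟩
    · have := this (h1.trans h2.symm); omega
    · have := this (h1.trans h2.symm); omega⟩

section PG

variable {ι : Type*} {G : SimpleGraph V} (F : ι → GP G)

theorem PG_le : PG F ≤ G := by
  rintro x y ⟨i, k, h, ⟨rfl, rfl⟩ | ⟨rfl, rfl⟩⟩
  · exact (F i).adj k h
  · exact ((F i).adj k h).symm

theorem PG_adj (i : ι) {k : ℕ} (hk : k < (F i).len) :
    (PG F).Adj ((F i).p k) ((F i).p (k + 1)) := ⟨i, k, hk, Or.inl ⟨rfl, rfl⟩⟩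

theorem PG_supp {x y : V} (h : (PG F).Adj x y) : ∃ i, x ∈ (F i).supp ∧ y ∈ (F i).supp := by
  obtain ⟨i, k, h, ⟨rfl, rfl⟩ | ⟨rfl, rfl⟩⟩ := h
  · exact ⟨i, (F i).mem_supp h.le, (F i).mem_supp h⟩
  · exact ⟨i, (F i).mem_supp h, (F i).mem_supp h.le⟩

theorem PG_deg (hF : ∀ i j, i ≠ j → Disjoint (F i).supp (F j).supp) (v : V) :
    ((PG F).neighborSet v).ncard ≤ 2 := by
  by_cases hv : ∃ i k, k ≤ (F i).len ∧ (F i).p k = v
  · obtain ⟨i, k, hk, rfl⟩ := hv
    have hsub : (PG F).neighborSet ((F i).p k) ⊆ {(F i).p (k - 1), (F i).p (k + 1)} := by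
      rintro w ⟨j, l, hl, hw⟩
      have hij : i = j := by
        by_contra hne
        have hd := Set.disjoint_left.1 (hF i j hne) ((F i).mem_supp hk)
        rcases hw with ⟨h1, _⟩ | ⟨_, h1⟩
        · exact hd (h1 ▸ (F j).mem_supp hl.le)
        · exact hd (h1 ▸ (F j).mem_supp hl)
      subst hij
      rcases hw with ⟨h1, h2⟩ | ⟨h1, h2⟩
      · have := (F i).inj l hl.le k hk h1
        subst this
        exact Or.inr h2.symm
      · have := (F i).inj (l + 1) hl k hk h2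
        subst this
        exact Or.inl (by simp [h1])
    refine (Set.ncard_le_ncard hsub (Set.toFinite _)).trans ((Set.ncard_insert_le _ _).trans ?_)
    simp
  · have : (PG F).neighborSet v = ∅ := by
      rw [Set.eq_empty_iff_forall_notMem]
      rintro w ⟨j, l, hl, hw⟩
      apply hv
      rcases hw with ⟨h1, _⟩ | ⟨_, h1⟩
      · exact ⟨j, l, hl.le, h1⟩
      · exact ⟨j, l + 1, hl, h1⟩
    rw [this]
    simp

end PG

/-- `d` vertical paths crossed by `K` layers, in the same order -/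
structure Sys (Γ : SimpleGraph V) (d K : ℕ) where
  U : Fin d → GP Γ
  H : ℕ → GP Γ
  hU : ∀ i j, i ≠ j → Disjoint (U i).supp (U j).supp
  hH : ∀ l l', l < K → l' < K → l ≠ l' → Disjoint (H l).supp (H l').supp
  hUH : ∀ i l, l < K → ∃ k, k ≤ (U i).len ∧ (U i).p k ∈ (H l).supp
  hord : ∀ i l l' k k', l < l' → l' < K → k ≤ (U i).len → k' ≤ (U i).len →
    (U i).p k ∈ (H l).supp → (U i).p k' ∈ (H l').supp → k < k'

namespace Sys

variable {Γ : SimpleGraph V} {d K : ℕ} (Y : Sys Γ d K)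

/-- subsequence of the layers -/
def comap {K' : ℕ} (φ : ℕ → ℕ) (hφ : ∀ l l', l < l' → l' < K' → φ l < φ l')
    (hφK : ∀ l, l < K' → φ l < K) : Sys Γ d K' where
  U := Y.U
  H := fun l => Y.H (φ l)
  hU := Y.hU
  hH := fun l l' hl hl' hne => Y.hH _ _ (hφK l hl) (hφK l' hl') (by
    rcases lt_or_gt_of_ne hne with h | h
    · exact (hφ _ _ h hl').ne
    · exact (hφ _ _ h hl).ne')
  hUH := fun i l hl => Y.hUH i _ (hφK l hl)
  hord := fun i l l' k k' h hl' hk hk' h1 h2 =>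
    Y.hord i _ _ k k' (hφ _ _ h hl') (hφK _ hl') hk hk' h1 h2

open Classical in
/-- first position of the layer `l` on the vertical `i` -/
noncomputable def c (i : Fin d) (l : ℕ) : ℕ :=
  if h : ∃ k, k ≤ (Y.U i).len ∧ (Y.U i).p k ∈ (Y.H l).supp then Nat.find h else 0

theorem c_spec (i : Fin d) {l : ℕ} (hl : l < K) :
    Y.c i l ≤ (Y.U i).len ∧ (Y.U i).p (Y.c i l) ∈ (Y.H l).supp := by
  classical
  unfold c
  rw [dif_pos (Y.hUH i l hl)]
  exact Nat.find_spec (Y.hUH i l hl)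

theorem c_le (i : Fin d) {l k : ℕ} (hk : k ≤ (Y.U i).len) (h : (Y.U i).p k ∈ (Y.H l).supp) :
    Y.c i l ≤ k := by
  classical
  unfold c
  rw [dif_pos ⟨k, hk, h⟩]
  exact Nat.find_min' _ ⟨hk, h⟩

theorem lt_c (i : Fin d) {l l' k : ℕ} (hll : l < l') (hl' : l' < K) (hk : k ≤ (Y.U i).len)
    (h : (Y.U i).p k ∈ (Y.H l).supp) : k < Y.c i l' :=
  Y.hord i l l' k _ hll hl' hk (Y.c_spec i hl').1 h (Y.c_spec i hl').2

theorem c_lt (i : Fin d) {l l' : ℕ} (hll : l < l') (hl' : l' < K) : Y.c i l < Y.c i l' :=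
  Y.lt_c i hll hl' (Y.c_spec i (hll.trans hl')).1 (Y.c_spec i (hll.trans hl')).2

theorem c_mono (i : Fin d) {l l' : ℕ} (hll : l ≤ l') (hl' : l' < K) : Y.c i l ≤ Y.c i l' := by
  rcases hll.eq_or_lt with rfl | h
  · exact le_rfl
  · exact (Y.c_lt i h hl').le

/-- the region of the layers `2j, 2j+1` -/
def Reg (j : ℕ) : Set V :=
  {v | (∃ l, 2 * j ≤ l ∧ l < 2 * j + 2 ∧ v ∈ (Y.H l).supp) ∨
    ∃ i k, Y.c i (2 * j) ≤ k ∧ k < Y.c i (2 * j + 2) ∧ (Y.U i).p k = v}

theorem mem_Reg_U {i : Fin d} {k j : ℕ} (hj : 2 * j + 2 < K) (hk : k ≤ (Y.U i).len)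
    (h : (Y.U i).p k ∈ Y.Reg j) : Y.c i (2 * j) ≤ k ∧ k < Y.c i (2 * j + 2) := by
  rcases h with ⟨l, h1, h2, h3⟩ | ⟨i', k', h1, h2, h3⟩
  · exact ⟨(Y.c_mono i h1 (by omega)).trans (Y.c_le i hk h3), Y.lt_c i h2 hj hk h3⟩
  · have hk' : k' ≤ (Y.U i').len := h2.le.trans (Y.c_spec i' hj).1
    have hii : i = i' := by
      by_contra hne
      exact Set.disjoint_left.1 (Y.hU i i' hne) ((Y.U i).mem_supp hk)
        (h3 ▸ (Y.U i').mem_supp hk')
    subst hii
    have := (Y.U i).inj k' hk' k hk h3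
    subst this
    exact ⟨h1, h2⟩

theorem Reg_disj {j j' : ℕ} (hj : j < j') (hj' : 2 * j' + 2 < K) :
    Disjoint (Y.Reg j) (Y.Reg j') := by
  rw [Set.disjoint_left]
  rintro v h h'
  rcases h with ⟨l, h1, h2, h3⟩ | ⟨i, k, h1, h2, h3⟩
  · rcases h' with ⟨l', h1', h2', h3'⟩ | ⟨i', k', h1', h2', h3'⟩
    · exact Set.disjoint_left.1 (Y.hH l l' (by omega) (by omega) (by omega)) h3 h3'
    · have hk' : k' ≤ (Y.U i').len := h2'.le.trans (Y.c_spec i' hj').1
      subst h3'
      have := Y.lt_c i' (show l < 2 * j' by omega) (by omega) hk' h3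
      omega
  · have hk : k ≤ (Y.U i).len := h2.le.trans (Y.c_spec i (by omega)).1
    subst h3
    have h4 := Y.mem_Reg_U hj' hk h'
    have := Y.c_mono i (show 2 * j + 2 ≤ 2 * j' by omega) (by omega)
    omega

/-- assembling the grid from connectors -/
theorem assemble (g : ℕ) (x : ℕ → Fin d) (hx : ∀ a b, a ≤ g → b ≤ g → x a = x b → a = b)
    (hK : 2 * (g * g) + 2 ≤ K) (C : ℕ → ℕ → Set V)
    (h1 : ∀ a y, a < g → y < g → C a y ⊆ Y.Reg (y * g + a))
    (h2 : ∀ a y, a < g → y < g → Conn Γ (C a y))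
    (h3 : ∀ a y b, a < g → y < g → b ≤ g → b ≠ a → Disjoint (C a y) (Y.U (x b)).supp)
    (h4 : ∀ a y, a < g → y < g → (C a y ∩ (Y.U (x a)).supp).Nonempty)
    (h5 : ∀ a y, a < g → y < g →
      Touch Γ (C a y) ((Y.U (x (a + 1))).supp ∩ Y.Reg (y * g + a))) :
    ∃ X : ℕ → ℕ → Set V, (∀ i j, i < g → j < g → Conn Γ (X i j)) ∧
      (∀ i j i' j', i < g → j < g → i' < g → j' < g → (i ≠ i' ∨ j ≠ j') →
        Disjoint (X i j) (X i' j')) ∧
      (∀ i j, i + 1 < g → j < g → Touch Γ (X i j) (X (i + 1) j)) ∧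
      (∀ i j, i < g → j + 1 < g → Touch Γ (X i j) (X i (j + 1))) := by
  have hj : ∀ a y, a < g → y < g → y * g + a + 1 ≤ (y + 1) * g ∧ (y + 1) * g ≤ g * g := by
    intro a y ha hy
    constructor
    · rw [Nat.add_mul, Nat.one_mul]; omega
    · exact Nat.mul_le_mul_right g hy
  -- the segments
  set seg : ℕ → ℕ → Set V := fun a y =>
    {v | ∃ k, Y.c (x a) (2 * (y * g)) ≤ k ∧ k < Y.c (x a) (2 * ((y + 1) * g)) ∧
      (Y.U (x a)).p k = v} with hseg
  have hyg : ∀ y, y < g → y * g + g ≤ g * g := by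
    intro y hy
    have := Nat.mul_le_mul_right g hy
    rw [Nat.succ_mul] at this; exact this
  have hyg' : ∀ y, (y + 1) * g = y * g + g := by
    intro y; rw [Nat.add_mul, Nat.one_mul]
  have hlen : ∀ a y k, y < g → k < Y.c (x a) (2 * ((y + 1) * g)) → k ≤ (Y.U (x a)).len := by
    intro a y k hy hk
    have := hyg y hy
    have := hyg' y
    exact hk.le.trans (Y.c_spec _ (by omega)).1
  have hsegU : ∀ a y, y < g → seg a y ⊆ (Y.U (x a)).supp := by
    rintro a y hy v ⟨k, hk1, hk2, rfl⟩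
    exact (Y.U (x a)).mem_supp (hlen a y k hy hk2)
  have hseg_mem : ∀ a y j, a < g + 1 → y < g → y * g ≤ j → j + 1 ≤ (y + 1) * g →
      (Y.U (x a)).supp ∩ Y.Reg j ⊆ seg a y := by
    rintro a y j ha hy hj1 hj2 v ⟨⟨k, hk, rfl⟩, hv⟩
    have e1 := hyg y hy
    have e2 := hyg' y
    obtain ⟨h6, h7⟩ := Y.mem_Reg_U (by omega) hk hv
    refine ⟨k, (Y.c_mono _ (by omega) (by omega)).trans h6,
      h7.trans_le (Y.c_mono _ (by omega) (by omega)), rfl⟩
  have hseg_conn : ∀ a y, a < g + 1 → y < g → Conn Γ (seg a y) := by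
    intro a y ha hy
    have e1 := hyg y hy
    have e2 := hyg' y
    have e3 : Y.c (x a) (2 * (y * g)) < Y.c (x a) (2 * ((y + 1) * g)) ∨ g = 0 := by
      rcases Nat.eq_zero_or_pos g with h0 | h0
      · exact Or.inr h0
      · exact Or.inl (Y.c_lt _ (by omega) (by omega))
    rcases e3 with e3 | e3
    swap
    · omega
    have hc := (Y.U (x a)).seg_conn (a := Y.c (x a) (2 * (y * g)))
      (b := Y.c (x a) (2 * ((y + 1) * g)) - 1) (by omega)
      (hlen a y _ hy (by omega))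
    convert hc using 1
    ext v
    constructor
    · rintro ⟨k, hk1, hk2, hk3⟩; exact ⟨k, hk1, by omega, hk3⟩
    · rintro ⟨k, hk1, hk2, hk3⟩; exact ⟨k, hk1, by omega, hk3⟩
  have hseg_disj : ∀ a y a' y', a ≤ g → a' ≤ g → y < g → y' < g → (a ≠ a' ∨ y ≠ y') →
      Disjoint (seg a y) (seg a' y') := by
    intro a y a' y' ha ha' hy hy' hne
    by_cases haa : a = a'
    · subst haa
      have hyy : y ≠ y' := by tauto
      clear hne
      wlog hlt : y < y' generalizing y y'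
      · exact (this y' y hy' hy hyy.symm (by omega)).symm
      rw [Set.disjoint_left]
      rintro v ⟨k, hk1, hk2, hk3⟩ ⟨k', hk1', hk2', hk3'⟩
      have hkk := (Y.U (x a)).inj k (hlen a y k hy hk2) k' (hlen a y' k' hy' hk2')
        (hk3.trans hk3'.symm)
      have e1 := hyg y' hy'
      have e3 : (y + 1) * g ≤ y' * g := Nat.mul_le_mul_right g hlt
      have := Y.c_mono (x a) (show 2 * ((y + 1) * g) ≤ 2 * (y' * g) by omega) (by omega)
      omega
    · exact (Y.hU (x a) (x a') (fun h => haa (hx a a' ha ha' h))).mono (hsegU a y hy)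
        (hsegU a' y' hy')
  have hCseg : ∀ a y a' y', a < g → a' < g → y < g → y' < g → (a ≠ a' ∨ y ≠ y') →
      Disjoint (C a y) (seg a' y') := by
    intro a y a' y' ha ha' hy hy' hne
    by_cases haa : a' = a
    · subst haa
      have hyy : y ≠ y' := by tauto
      have hd := hseg_disj a' y a' y' ha.le ha.le hy hy' (Or.inr hyy)
      rw [Set.disjoint_left] at hd ⊢
      intro v hv hv'
      refine hd (hseg_mem a' y (y * g + a') (by omega) hy (by omega) (hj a' y ha hy).1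
        ⟨hsegU a' y' hy' hv', h1 a' y ha hy hv⟩) hv'
    · exact (h3 a y a' ha hy ha'.le haa).mono_right (hsegU a' y' hy')
  have hCC : ∀ a y a' y', a < g → a' < g → y < g → y' < g → (a ≠ a' ∨ y ≠ y') →
      Disjoint (C a y) (C a' y') := by
    intro a y a' y' ha ha' hy hy' hne
    have e1 := hyg y hy
    have e2 := hyg y' hy'
    have hjj : y * g + a ≠ y' * g + a' := by
      intro heq
      rcases lt_trichotomy y y' with h | h | h
      · have : (y + 1) * g ≤ y' * g := Nat.mul_le_mul_right g h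
        have := hyg' y
        omega
      · subst h; omega
      · have : (y' + 1) * g ≤ y * g := Nat.mul_le_mul_right g h
        have := hyg' y'
        omega
    refine Disjoint.mono (h1 a y ha hy) (h1 a' y' ha' hy') ?_
    rcases lt_or_gt_of_ne hjj with h | h
    · exact Y.Reg_disj h (by omega)
    · exact (Y.Reg_disj h (by omega)).symm
  have hCin : ∀ a y, a < g → y < g → (C a y ∩ seg a y).Nonempty := by
    intro a y ha hy
    obtain ⟨v, hv1, hv2⟩ := h4 a y ha hy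
    exact ⟨v, hv1, hseg_mem a y (y * g + a) (by omega) hy (by omega) (hj a y ha hy).1
      ⟨hv2, h1 a y ha hy hv1⟩⟩
  refine ⟨fun a y => seg a y ∪ C a y, ?_, ?_, ?_, ?_⟩
  · intro a y ha hy
    refine (hseg_conn a y (by omega) hy).union (h2 a y ha hy) ?_
    obtain ⟨v, hv1, hv2⟩ := hCin a y ha hy
    exact ⟨v, hv2, hv1⟩
  · intro a y a' y' ha hy ha' hy' hne
    rw [Set.disjoint_union_left, Set.disjoint_union_right, Set.disjoint_union_right]
    refine ⟨⟨hseg_disj a y a' y' ha.le ha'.le hy hy' hne, ?_⟩, ?_, ?_⟩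
    · refine (hCseg a' y' a y ha' ha hy' hy ?_).symm
      rcases hne with h | h
      · exact Or.inl h.symm
      · exact Or.inr h.symm
    · exact hCseg a y a' y' ha ha' hy hy' hne
    · exact hCC a y a' y' ha ha' hy hy' hne
  · intro a y ha hy
    refine (h5 a y (by omega) hy).mono subset_union_right ?_
    refine Set.Subset.trans ?_ subset_union_left
    exact hseg_mem (a + 1) y (y * g + a) (by omega) hy (by omega) (hj a y (by omega) hy).1
  · intro a y ha hy
    have e1 := hyg (y + 1) hy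
    have e2 := hyg' y
    have e4 := hyg' (y + 1)
    have e3 : Y.c (x a) (2 * (y * g)) < Y.c (x a) (2 * ((y + 1) * g)) :=
      Y.c_lt _ (by omega) (by omega)
    have e5 : Y.c (x a) (2 * ((y + 1) * g)) < Y.c (x a) (2 * ((y + 1 + 1) * g)) :=
      Y.c_lt _ (by omega) (by omega)
    refine ⟨(Y.U (x a)).p (Y.c (x a) (2 * ((y + 1) * g)) - 1), Or.inl ⟨_, by omega, by omega, rfl⟩,
      (Y.U (x a)).p (Y.c (x a) (2 * ((y + 1) * g))), Or.inl ⟨_, le_rfl, e5, rfl⟩, ?_⟩
    have := (Y.U (x a)).adj (Y.c (x a) (2 * ((y + 1) * g)) - 1) (by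
      have := hlen a (y + 1) _ hy e5
      omega)
    rwa [show Y.c (x a) (2 * ((y + 1) * g)) - 1 + 1 = Y.c (x a) (2 * ((y + 1) * g)) by omega]
      at this

end Sys

end Grid

end Pool.Agent.Lib.MP_4d119b_lc
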