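import Pool.Agent.Lib.MP_4d119b_lc.Grid1

/-! Job Grid, part 2: pieces, connectors, grids in crossing systems. -/

namespace Pool.Agent.Lib.MP_4d119b_lc

open Set

namespace Grid

variable {V : Type}

/-- graph on the verticals: joined by a piece inside `S` avoiding the other verticals -/
def EG {Γ : SimpleGraph V} {d : ℕ} (U : Fin d → GP Γ) (S : Set V) : SimpleGraph (Fin d) where
  Adj a b := a ≠ b ∧ ∃ R : GP Γ, R.p 0 ∈ (U a).supp ∧ R.p R.len ∈ (U b).supp ∧
    (∀ k, 0 < k → k < R.len → ∀ i, R.p k ∉ (U i).supp) ∧ R.supp ⊆ S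
  symm := ⟨fun a b ⟨hne, R, h0, h1, h2, h3⟩ => by
    refine ⟨hne.symm, R.rev, ?_, ?_, ?_, ?_⟩
    · rw [GP.rev_p]; simpa using h1
    · rw [GP.rev_p]; simpa using h0
    · intro k hk1 hk2 i
      rw [GP.rev_len] at hk2
      rw [GP.rev_p]
      exact h2 _ (by omega) (by omega) i
    · rw [GP.rev_supp]; exact h3⟩
  loopless := ⟨fun _ h => h.1 rfl⟩

theorem EG_conn {Γ : SimpleGraph V} {d : ℕ} (U : Fin d → GP Γ) (H : GP Γ)
    (hUH : ∀ i, ∃ k, k ≤ (U i).len ∧ (U i).p k ∈ H.supp) (a b : Fin d) :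
    RIn (EG U H.supp) univ a b := by
  have key : ∀ n i j : ℕ, ∀ a b : Fin d, i ≤ j → j - i ≤ n → j ≤ H.len → H.p i ∈ (U a).supp →
      H.p j ∈ (U b).supp → RIn (EG U H.supp) univ a b := by
    intro n
    induction n with
    | zero =>
      intro i j a b hij hn hj ha hb
      have : i = j := by omega
      subst this
      by_cases hab : a = b
      · subst hab; exact RIn.refl _ _ _
      · refine RIn.single ⟨hab, GP.single Γ (H.p i), ha, hb, ?_, ?_⟩ trivial trivial
        · intro k hk hk'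
          simp only [GP.single] at hk'
          omega
        · rintro v ⟨k, _, rfl⟩
          exact H.mem_supp hj
    | succ n ih =>
      intro i j a b hij hn hj ha hb
      by_cases hk : ∃ k, i < k ∧ k < j ∧ ∃ c, H.p k ∈ (U c).supp
      · obtain ⟨k, hk1, hk2, c, hc⟩ := hk
        exact (ih i k a c (by omega) (by omega) (by omega) ha hc).trans
          (ih k j c b (by omega) (by omega) (by omega) hc hb)
      · push Not at hk
        by_cases hab : a = b
        · subst hab; exact RIn.refl _ _ _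
        · refine RIn.single ⟨hab, H.sub i j hij hj, ?_, ?_, ?_, ?_⟩ trivial trivial
          · simpa [GP.sub] using ha
          · simp only [GP.sub]
            rw [show i + (j - i) = j by omega]
            exact hb
          · intro k hk1 hk2 c
            simp only [GP.sub] at hk2 ⊢
            exact hk (i + k) (by omega) (by omega) c
          · exact H.sub_supp_subset _ _ _ _
  obtain ⟨k, hk, i, hi, hik⟩ := hUH a
  obtain ⟨k', hk', j, hj, hjk⟩ := hUH b
  have ha : H.p i ∈ (U a).supp := hik ▸ (U a).mem_supp hk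
  have hb : H.p j ∈ (U b).supp := hjk ▸ (U b).mem_supp hk'
  rcases le_total i j with h | h
  · exact key _ i j a b h le_rfl hj ha hb
  · exact (key _ j i b a h le_rfl hi hb ha).symm

/-- a large connected graph has a long path or a large star -/
theorem path_or_star {d g : ℕ} (E : SimpleGraph (Fin d)) (hE : ∀ a b, RIn E univ a b)
    (hd : (g + 1) ^ g < d) : (∃ R : GP E, g ≤ R.len) ∨
      ∃ (z : Fin d) (x : Fin g → Fin d), Function.Injective x ∧ ∀ i, E.Adj z (x i) := by
  classical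
  by_contra hcon
  push Not at hcon
  obtain ⟨h1, h2⟩ := hcon
  have hd0 : 0 < d := (Nat.zero_le _).trans_lt hd
  set a0 : Fin d := ⟨0, hd0⟩
  -- degrees are less than g
  have hdeg : ∀ z, (Finset.univ.filter (fun x => E.Adj z x)).card ≤ g := by
    intro z
    by_contra hlt
    push Not at hlt
    have : Nonempty (Fin g ↪ {v // v ∈ Finset.univ.filter (fun x => E.Adj z x)}) := by
      apply Function.Embedding.nonempty_of_card_le
      rw [Fintype.card_fin, Fintype.card_coe]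
      exact hlt.le
    obtain ⟨f⟩ := this
    obtain ⟨i, hi⟩ := h2 z (fun i => (f i).1) (fun i j hij => f.injective (Subtype.ext hij))
    exact hi (Finset.mem_filter.1 (f i).2).2
  -- balls
  let B : ℕ → Finset (Fin d) := fun r => Nat.rec {a0}
    (fun _ S => S ∪ S.biUnion (fun z => Finset.univ.filter (fun x => E.Adj z x))) r
  have hB0 : B 0 = {a0} := rfl
  have hBs : ∀ r, B (r + 1) = B r ∪ (B r).biUnion
      (fun z => Finset.univ.filter (fun x => E.Adj z x)) := fun r => rfl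
  have hBcard : ∀ r, (B r).card ≤ (g + 1) ^ r := by
    intro r
    induction r with
    | zero => rw [hB0]; simp
    | succ r ih =>
      rw [hBs]
      refine (Finset.card_union_le _ _).trans ?_
      have := Finset.card_biUnion_le_card_mul (B r)
        (fun z => Finset.univ.filter (fun x => E.Adj z x)) g (fun z _ => hdeg z)
      calc (B r).card + _ ≤ (B r).card + (B r).card * g := by omega
        _ = (B r).card * (g + 1) := by ring
        _ ≤ (g + 1) ^ r * (g + 1) := Nat.mul_le_mul_right _ ih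
        _ = (g + 1) ^ (r + 1) := by ring
  have hBmono : ∀ r s, r ≤ s → B r ⊆ B s := by
    intro r s hrs
    induction s, hrs using Nat.le_induction with
    | base => exact Finset.Subset.refl _
    | succ s _ ih => exact ih.trans (by rw [hBs]; exact Finset.subset_union_left)
  have hreach : ∀ (R : GP E), R.p 0 = a0 → ∀ k, k ≤ R.len → R.p k ∈ B k := by
    intro R hR k
    induction k with
    | zero => intro _; rw [hB0, hR]; simp
    | succ k ih =>
      intro hk
      rw [hBs, Finset.mem_union, Finset.mem_biUnion]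
      right
      refine ⟨R.p k, ih (by omega), ?_⟩
      simpa using R.adj k (by omega)
  have hall : ∀ b, b ∈ B g := by
    intro b
    obtain ⟨R, hR0, hR1, _⟩ := (hE a0 b).exists_path trivial
    have := hreach R hR0 R.len le_rfl
    rw [hR1] at this
    exact hBmono _ _ (h1 R).le this
  have : d ≤ (B g).card := by
    have hu : B g = Finset.univ := Finset.eq_univ_iff_forall.2 hall
    rw [hu]; simp
  have := hBcard g
  omega

namespace Sys

variable {Γ : SimpleGraph V} {d K : ℕ} (Y : Sys Γ d K)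

theorem supp_sub_Reg {j l : ℕ} (h1 : 2 * j ≤ l) (h2 : l < 2 * j + 2) :
    (Y.H l).supp ⊆ Y.Reg j := fun _ hv => Or.inl ⟨l, h1, h2, hv⟩

/-- grids from paths -/
theorem grid_path (g : ℕ) (x : ℕ → Fin d) (hx : ∀ a b, a ≤ g → b ≤ g → x a = x b → a = b)
    (hK : 2 * (g * g) + 2 ≤ K)
    (hE : ∀ a l, a < g → l < K → (EG Y.U (Y.H l).supp).Adj (x a) (x (a + 1))) :
    ∃ X : ℕ → ℕ → Set V, (∀ i j, i < g → j < g → Conn Γ (X i j)) ∧
      (∀ i j i' j', i < g → j < g → i' < g → j' < g → (i ≠ i' ∨ j ≠ j') →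
        Disjoint (X i j) (X i' j')) ∧
      (∀ i j, i + 1 < g → j < g → Touch Γ (X i j) (X (i + 1) j)) ∧
      (∀ i j, i < g → j + 1 < g → Touch Γ (X i j) (X i (j + 1))) := by
  have hidx : ∀ a y, a < g → y < g → y * g + a < g * g := by
    intro a y ha hy
    have := Nat.mul_le_mul_right g hy
    rw [Nat.succ_mul] at this
    omega
  have hex : ∀ a y, ∃ R : GP Γ, (a < g ∧ y < g) → (R.p 0 ∈ (Y.U (x a)).supp ∧
      R.p R.len ∈ (Y.U (x (a + 1))).supp ∧
      (∀ k, 0 < k → k < R.len → ∀ i, R.p k ∉ (Y.U i).supp) ∧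
      R.supp ⊆ (Y.H (2 * (y * g + a))).supp) := by
    intro a y
    by_cases h : a < g ∧ y < g
    · have := hidx a y h.1 h.2
      obtain ⟨_, R, h1, h2, h3, h4⟩ := hE a (2 * (y * g + a)) h.1 (by omega)
      exact ⟨R, fun _ => ⟨h1, h2, h3, h4⟩⟩
    · exact ⟨Y.U (x a), fun h' => absurd h' h⟩
  choose R hR using hex
  have hlen : ∀ a y, a < g → y < g → 0 < (R a y).len := by
    intro a y ha hy
    obtain ⟨h1, h2, h3, h4⟩ := hR a y ⟨ha, hy⟩
    by_contra h0
    have h0' : (R a y).len = 0 := by omega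
    rw [h0'] at h2
    have hne : x a ≠ x (a + 1) := fun h => by
      have := hx a (a + 1) (by omega) (by omega) h
      omega
    exact Set.disjoint_left.1 (Y.hU _ _ hne) h1 h2
  refine Y.assemble g x hx hK (fun a y => {v | ∃ k, 0 ≤ k ∧ k ≤ (R a y).len - 1 ∧
    (R a y).p k = v}) ?_ ?_ ?_ ?_ ?_
  · rintro a y ha hy v ⟨k, _, hk, rfl⟩
    exact Y.supp_sub_Reg le_rfl (by omega) ((hR a y ⟨ha, hy⟩).2.2.2
      ((R a y).mem_supp (by omega)))
  · intro a y ha hy
    exact (R a y).seg_conn (Nat.zero_le _) (by omega)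
  · intro a y b ha hy hb hne
    rw [Set.disjoint_left]
    rintro v ⟨k, _, hk, rfl⟩ hv
    have hl := hlen a y ha hy
    obtain ⟨h1, h2, h3, h4⟩ := hR a y ⟨ha, hy⟩
    rcases Nat.eq_zero_or_pos k with h0 | h0
    · subst h0
      have hne' : x a ≠ x b := fun h => hne (hx a b ha.le hb h).symm
      exact Set.disjoint_left.1 (Y.hU _ _ hne') h1 hv
    · exact h3 k h0 (by omega) _ hv
  · intro a y ha hy
    exact ⟨(R a y).p 0, ⟨0, le_rfl, Nat.zero_le _, rfl⟩, (hR a y ⟨ha, hy⟩).1⟩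
  · intro a y ha hy
    have hl := hlen a y ha hy
    obtain ⟨h1, h2, h3, h4⟩ := hR a y ⟨ha, hy⟩
    refine ⟨(R a y).p ((R a y).len - 1), ⟨_, Nat.zero_le _, le_rfl, rfl⟩,
      (R a y).p (R a y).len, ⟨h2, Y.supp_sub_Reg le_rfl (by omega)
        (h4 ((R a y).mem_supp le_rfl))⟩, ?_⟩
    have := (R a y).adj ((R a y).len - 1) (by omega)
    rwa [show (R a y).len - 1 + 1 = (R a y).len by omega] at this

/-- grids from stars -/
theorem grid_star (g : ℕ) (z : Fin d) (x : ℕ → Fin d)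
    (hx : ∀ a b, a ≤ g → b ≤ g → x a = x b → a = b)
    (hK : 2 * (g * g) + 2 ≤ K)
    (hE : ∀ a l, a ≤ g → l < K → (EG Y.U (Y.H l).supp).Adj z (x a)) :
    ∃ X : ℕ → ℕ → Set V, (∀ i j, i < g → j < g → Conn Γ (X i j)) ∧
      (∀ i j i' j', i < g → j < g → i' < g → j' < g → (i ≠ i' ∨ j ≠ j') →
        Disjoint (X i j) (X i' j')) ∧
      (∀ i j, i + 1 < g → j < g → Touch Γ (X i j) (X (i + 1) j)) ∧
      (∀ i j, i < g → j + 1 < g → Touch Γ (X i j) (X i (j + 1))) := by
  have hidx : ∀ a y, a < g → y < g → y * g + a < g * g := by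
    intro a y ha hy
    have := Nat.mul_le_mul_right g hy
    rw [Nat.succ_mul] at this
    omega
  have hex : ∀ a y, ∃ R R' : GP Γ, (a < g ∧ y < g) → (R.p 0 ∈ (Y.U (x a)).supp ∧
      R.p R.len ∈ (Y.U z).supp ∧
      (∀ k, 0 < k → k < R.len → ∀ i, R.p k ∉ (Y.U i).supp) ∧
      R.supp ⊆ (Y.H (2 * (y * g + a))).supp) ∧ (R'.p 0 ∈ (Y.U z).supp ∧
      R'.p R'.len ∈ (Y.U (x (a + 1))).supp ∧
      (∀ k, 0 < k → k < R'.len → ∀ i, R'.p k ∉ (Y.U i).supp) ∧
      R'.supp ⊆ (Y.H (2 * (y * g + a) + 1)).supp) := by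
    intro a y
    by_cases h : a < g ∧ y < g
    · have := hidx a y h.1 h.2
      obtain ⟨_, R, h1, h2, h3, h4⟩ := (hE a (2 * (y * g + a)) h.1.le (by omega)).symm
      obtain ⟨_, R', h1', h2', h3', h4'⟩ := hE (a + 1) (2 * (y * g + a) + 1) (by omega)
        (by omega)
      exact ⟨R, R', fun _ => ⟨⟨h1, h2, h3, h4⟩, h1', h2', h3', h4'⟩⟩
    · exact ⟨Y.U (x a), Y.U (x a), fun h' => absurd h' h⟩
  choose R R' hR using hex
  have hzx : ∀ a, a ≤ g → z ≠ x a := fun a ha => (hE a 0 ha (by omega)).1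
  have hlen' : ∀ a y, a < g → y < g → 0 < (R' a y).len := by
    intro a y ha hy
    obtain ⟨_, h1, h2, h3, h4⟩ := hR a y ⟨ha, hy⟩
    by_contra h0
    have h0' : (R' a y).len = 0 := by omega
    rw [h0'] at h2
    exact Set.disjoint_left.1 (Y.hU _ _ (hzx (a + 1) (by omega))) h1 h2
  -- the positions on the vertical z
  have hpos : ∀ a y, ∃ p p' : ℕ, (a < g ∧ y < g) → (p ≤ p' ∧ p' ≤ (Y.U z).len ∧
      Y.c z (2 * (y * g + a)) ≤ p ∧ p' < Y.c z (2 * (y * g + a) + 2) ∧
      (Y.U z).p p = (R a y).p (R a y).len ∧ (Y.U z).p p' = (R' a y).p 0) := by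
    intro a y
    by_cases h : a < g ∧ y < g
    · have e1 := hidx a y h.1 h.2
      obtain ⟨⟨h1, ⟨p, hp, hp'⟩, h3, h4⟩, ⟨q, hq, hq'⟩, h2', h3', h4'⟩ := hR a y h
      have m1 : (Y.U z).p p ∈ (Y.H (2 * (y * g + a))).supp := by
        rw [hp']; exact h4 ((R a y).mem_supp le_rfl)
      have m2 : (Y.U z).p q ∈ (Y.H (2 * (y * g + a) + 1)).supp := by
        rw [hq']; exact h4' ((R' a y).mem_supp (Nat.zero_le _))
      refine ⟨p, q, fun _ => ⟨?_, hq, ?_, ?_, hp', hq'⟩⟩
      · exact (Y.hord z _ _ p q (by omega) (by omega) hp hq m1 m2).le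
      · exact Y.c_le z hp m1
      · exact Y.lt_c z (by omega) (by omega) hq m2
    · exact ⟨0, 0, fun h' => absurd h' h⟩
  choose p p' hpp using hpos
  refine Y.assemble g x hx hK (fun a y => ({v | ∃ k, 0 ≤ k ∧ k ≤ (R a y).len ∧
    (R a y).p k = v} ∪ {v | ∃ k, p a y ≤ k ∧ k ≤ p' a y ∧ (Y.U z).p k = v}) ∪
    {v | ∃ k, 0 ≤ k ∧ k ≤ (R' a y).len - 1 ∧ (R' a y).p k = v}) ?_ ?_ ?_ ?_ ?_
  · rintro a y ha hy v ((⟨k, _, hk, rfl⟩ | ⟨k, hk1, hk2, rfl⟩) | ⟨k, _, hk, rfl⟩)
    · exact Y.supp_sub_Reg le_rfl (by omega) ((hR a y ⟨ha, hy⟩).1.2.2.2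
        ((R a y).mem_supp (by omega)))
    · obtain ⟨e1, e2, e3, e4, e5, e6⟩ := hpp a y ⟨ha, hy⟩
      exact Or.inr ⟨z, k, by omega, by omega, rfl⟩
    · exact Y.supp_sub_Reg (l := 2 * (y * g + a) + 1) (by omega) (by omega)
        ((hR a y ⟨ha, hy⟩).2.2.2.2 ((R' a y).mem_supp (by omega)))
  · intro a y ha hy
    obtain ⟨e1, e2, e3, e4, e5, e6⟩ := hpp a y ⟨ha, hy⟩
    refine Conn.union (Conn.union ?_ ?_ ?_) ?_ ?_
    · exact (R a y).seg_conn (Nat.zero_le _) le_rfl
    · exact (Y.U z).seg_conn e1 e2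
    · exact ⟨(Y.U z).p (p a y), ⟨_, Nat.zero_le _, le_rfl, e5.symm⟩, ⟨_, le_rfl, e1, rfl⟩⟩
    · exact (R' a y).seg_conn (Nat.zero_le _) (by omega)
    · exact ⟨(Y.U z).p (p' a y), Or.inr ⟨_, e1, le_rfl, rfl⟩, ⟨_, le_rfl, Nat.zero_le _,
        e6.symm⟩⟩
  · intro a y b ha hy hb hne
    rw [Set.disjoint_left]
    obtain ⟨e1, e2, e3, e4, e5, e6⟩ := hpp a y ⟨ha, hy⟩
    obtain ⟨⟨h1, h2, h3, h4⟩, h1', h2', h3', h4'⟩ := hR a y ⟨ha, hy⟩
    have hl := hlen' a y ha hy
    have hne' : x a ≠ x b := fun h => hne (hx a b ha.le hb h).symm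
    have hzb := Set.disjoint_left.1 (Y.hU _ _ (hzx b hb))
    rintro v ((⟨k, _, hk, rfl⟩ | ⟨k, hk1, hk2, rfl⟩) | ⟨k, _, hk, rfl⟩) hv
    · rcases Nat.eq_zero_or_pos k with h0 | h0
      · subst h0
        exact Set.disjoint_left.1 (Y.hU _ _ hne') h1 hv
      · rcases hk.eq_or_lt with h5 | h5
        · subst h5
          exact hzb h2 hv
        · exact h3 k h0 h5 _ hv
    · exact hzb ((Y.U z).mem_supp (by omega)) hv
    · rcases Nat.eq_zero_or_pos k with h0 | h0
      · subst h0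
        exact hzb h1' hv
      · exact h3' k h0 (by omega) _ hv
  · intro a y ha hy
    exact ⟨(R a y).p 0, Or.inl (Or.inl ⟨0, le_rfl, Nat.zero_le _, rfl⟩),
      (hR a y ⟨ha, hy⟩).1.1⟩
  · intro a y ha hy
    have hl := hlen' a y ha hy
    obtain ⟨_, h1, h2, h3, h4⟩ := hR a y ⟨ha, hy⟩
    refine ⟨(R' a y).p ((R' a y).len - 1), Or.inr ⟨_, Nat.zero_le _, le_rfl, rfl⟩,
      (R' a y).p (R' a y).len, ⟨h2, Y.supp_sub_Reg (l := 2 * (y * g + a) + 1) (by omega)
        (by omega) (h4 ((R' a y).mem_supp le_rfl))⟩, ?_⟩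
    have := (R' a y).adj ((R' a y).len - 1) (by omega)
    rwa [show (R' a y).len - 1 + 1 = (R' a y).len by omega] at this

end Sys

/-- a large crossing system contains a grid -/
theorem grid_of_sys {Γ : SimpleGraph V} {d K : ℕ} (Y : Sys Γ d K) (g : ℕ)
    (hd : (g + 2) ^ (g + 1) < d) (hK : (2 ^ d) ^ d * (2 * (g * g) + 2) ≤ K) :
    ∃ X : ℕ → ℕ → Set V, (∀ i j, i < g → j < g → Conn Γ (X i j)) ∧
      (∀ i j i' j', i < g → j < g → i' < g → j' < g → (i ≠ i' ∨ j ≠ j') →
        Disjoint (X i j) (X i' j')) ∧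
      (∀ i j, i + 1 < g → j < g → Touch Γ (X i j) (X (i + 1) j)) ∧
      (∀ i j, i < g → j + 1 < g → Touch Γ (X i j) (X i (j + 1))) := by
  classical
  -- pigeonhole on the graphs of the layers
  let f : Fin K → (Fin d → Fin d → Bool) := fun l a b =>
    decide ((EG Y.U (Y.H l).supp).Adj a b)
  have hcard : Fintype.card (Fin d → Fin d → Bool) * (2 * (g * g) + 2) ≤
      Fintype.card (Fin K) := by
    simpa using hK
  obtain ⟨F, hF⟩ := Fintype.exists_le_card_fiber_of_mul_le_card f hcard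
  set T := Finset.univ.filter (fun l => f l = F) with hT
  let φ := Finset.orderEmbOfCardLe T hF
  have hφ : ∀ l, f (φ l) = F := by
    intro l
    exact (Finset.mem_filter.1 (Finset.orderEmbOfCardLe_mem T hF l)).2
  have hpos : 0 < 2 * (g * g) + 2 := by omega
  let ψ : ℕ → ℕ := fun l => if h : l < 2 * (g * g) + 2 then (φ ⟨l, h⟩ : ℕ) else 0
  let Y' : Sys Γ d (2 * (g * g) + 2) := Y.comap ψ (by
    intro l l' hll hl'
    have hl : l < 2 * (g * g) + 2 := hll.trans hl'
    simp only [ψ, hl, hl', dif_pos]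
    exact φ.strictMono (by simpa using hll)) (by
    intro l hl
    simp only [ψ, hl, dif_pos]
    exact (φ ⟨l, hl⟩).2)
  have hadj : ∀ l, l < 2 * (g * g) + 2 → ∀ a b,
      (EG Y'.U (Y'.H l).supp).Adj a b ↔ F a b = true := by
    intro l hl a b
    have h1 := congrFun (congrFun (hφ ⟨l, hl⟩) a) b
    have h2 : Y'.H l = Y.H (φ ⟨l, hl⟩ : ℕ) := by
      show Y.H (ψ l) = _
      simp only [ψ, hl, dif_pos]
    rw [h2, ← h1]
    simp [f, Y', Sys.comap]
  have hconn := EG_conn Y'.U (Y'.H 0) (fun i => Y'.hUH i 0 (by omega))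
  rcases path_or_star (g := g + 1) (EG Y'.U (Y'.H 0).supp) hconn
    (by simpa [Nat.add_assoc] using hd) with ⟨R, hR⟩ | ⟨z, x, hx, hzx⟩
  · refine Y'.grid_path g R.p ?_ le_rfl ?_
    · intro a b ha hb hab
      exact R.inj a (by omega) b (by omega) hab
    · intro a l ha hl
      rw [hadj l hl, ← hadj 0 (by omega)]
      exact R.adj a (by omega)
  · refine Y'.grid_star g z (fun a => if h : a < g + 1 then x ⟨a, h⟩ else z) ?_ le_rfl ?_
    · intro a b ha hb hab
      have ha' : a < g + 1 := by omega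
      have hb' : b < g + 1 := by omega
      simp only [ha', hb', dif_pos] at hab
      have := hx hab
      simpa using this
    · intro a l ha hl
      have ha' : a < g + 1 := by omega
      simp only [ha', dif_pos]
      rw [hadj l hl, ← hadj 0 (by omega)]
      exact hzx _

/-- the grid model of a large crossing system -/
theorem model_of_sys {G : SimpleGraph V} {d K : ℕ} (g : ℕ) (hd : (g + 2) ^ (g + 1) < d)
    (hK : (2 ^ d) ^ d * (2 * (g * g) + 2) ≤ K) (U : Fin d → GP G) (H : ℕ → GP G)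
    (hU : ∀ i j, i ≠ j → Disjoint (U i).supp (U j).supp)
    (hH : ∀ l l', l < K → l' < K → l ≠ l' → Disjoint (H l).supp (H l').supp)
    (hUH : ∀ i l, l < K → ∃ k, k ≤ (U i).len ∧ (U i).p k ∈ (H l).supp)
    (hord : ∀ i l l' k k', l < l' → l' < K → k ≤ (U i).len → k' ≤ (U i).len →
      (U i).p k ∈ (H l).supp → (U i).p k' ∈ (H l').supp → k < k') :
    Nonempty (GridModel G g) := by
  -- restrict the layers to l < K
  set H' : Fin K → GP G := fun l => H l with hH'
  have hH'd : ∀ i j, i ≠ j → Disjoint (H' i).supp (H' j).supp := fun i j hij =>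
    hH i j i.2 j.2 (fun h => hij (Fin.ext h))
  set Γ : SimpleGraph V := PG U ⊔ PG H' with hΓ
  have hKpos : 0 < K := lt_of_lt_of_le (by positivity) hK
  have hUadj : ∀ i, ∀ k, k < (U i).len → Γ.Adj ((U i).p k) ((U i).p (k + 1)) :=
    fun i k hk => Or.inl (PG_adj U i hk)
  have hHadj : ∀ i, ∀ k, k < (H' i).len → Γ.Adj ((H' i).p k) ((H' i).p (k + 1)) :=
    fun i k hk => Or.inr (PG_adj H' i hk)
  let Y : Sys Γ d K :=
    { U := fun i => (U i).mapG (hUadj i)
      H := fun l => if h : l < K then (H' ⟨l, h⟩).mapG (hHadj ⟨l, h⟩)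
        else (H' ⟨0, hKpos⟩).mapG (hHadj ⟨0, hKpos⟩)
      hU := hU
      hH := by
        intro l l' hl hl' hne
        simp only [hl, hl', dif_pos]
        exact hH l l' hl hl' hne
      hUH := by
        intro i l hl
        simp only [hl, dif_pos]
        exact hUH i l hl
      hord := by
        intro i l l' k k' hll hl' hk hk' h1 h2
        have hl : l < K := hll.trans hl'
        simp only [hl, hl', dif_pos] at h1 h2
        exact hord i l l' k k' hll hl' hk hk' h1 h2 }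
  obtain ⟨X, h1, h2, h3, h4⟩ := grid_of_sys Y g hd hK
  refine ⟨⟨Γ, sup_le (PG_le U) (PG_le H'), ?_, X, h1, h2, h3, h4⟩⟩
  intro v
  have : Γ.neighborSet v = (PG U).neighborSet v ∪ (PG H').neighborSet v := by
    ext w; simp [hΓ, SimpleGraph.mem_neighborSet]
  rw [this]
  refine (Set.ncard_union_le _ _).trans ?_
  have := PG_deg U hU v
  have := PG_deg H' hH'd v
  omega

end Grid

end Pool.Agent.Lib.MP_4d119b_lc
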