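import Pool.Agent.Lib.MP_4d119b_lc.Grid2

/-! Job Grid, part 3: extraction of a crossing system from a minimal pair of linkages. -/

namespace Pool.Agent.Lib.MP_4d119b_lc

open Set

namespace Grid

variable {V : Type}

/-- enumeration by increasing values -/
theorem exists_enum {ι : Type*} [Nonempty ι] (I : Finset ι) (f : ι → ℕ)
    (hf : Set.InjOn f (I : Set ι)) {k : ℕ} (hk : k ≤ I.card) :
    ∃ σ : ℕ → ι, ∀ m, m < k → σ m ∈ I ∧ ∀ m', m' < k → m < m' → f (σ m) < f (σ m') := by
  classical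
  have hc : k ≤ (I.image f).card := by rw [Finset.card_image_of_injOn hf]; exact hk
  let φ := Finset.orderEmbOfCardLe (I.image f) hc
  have hφ : ∀ m, ∃ i ∈ I, f i = φ m := fun m =>
    Finset.mem_image.1 (Finset.orderEmbOfCardLe_mem (I.image f) hc m)
  choose s hs1 hs2 using hφ
  refine ⟨fun m => if h : m < k then s ⟨m, h⟩ else Classical.arbitrary ι, ?_⟩
  intro m hm
  refine ⟨by simp only [hm, dif_pos]; exact hs1 _, ?_⟩
  intro m' hm' hlt
  simp only [hm, hm', dif_pos, hs2]
  exact φ.strictMono (by simpa using hlt)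

/-- between two vertices of different paths of the family there is an edge outside the family -/
theorem exists_cut {ι : Type*} {D : SimpleGraph V} (P : ι → GP D)
    (hP : ∀ i j, i ≠ j → Disjoint (P i).supp (P j).supp) (Q : GP D) {i j : ι} (hij : i ≠ j)
    {a b : ℕ} (hab : a ≤ b) (ha : Q.p a ∈ (P i).supp)
    (hb' : Q.p b ∈ (P j).supp) :
    ∃ k, a ≤ k ∧ k < b ∧ ¬ (PG P).Adj (Q.p k) (Q.p (k + 1)) := by
  by_contra hcon
  push Not at hcon
  have : ∀ k, a ≤ k → k ≤ b → Q.p k ∈ (P i).supp := by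
    intro k hk
    induction k, hk using Nat.le_induction with
    | base => intro _; exact ha
    | succ k hk ih =>
      intro hk'
      obtain ⟨l, h1, h2⟩ := PG_supp P (hcon k hk (by omega))
      have : i = l := by
        by_contra hne
        exact Set.disjoint_left.1 (hP i l hne) (ih (by omega)) h1
      rw [this]
      exact h2
  exact Set.disjoint_left.1 (hP i j hij) (this b hab le_rfl) hb'

/-- data of one cut: the separator in `D - e` -/
theorem cut_data [Finite V] {D : SimpleGraph V} {A B : Set V} {n : ℕ}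
    (Q : Fin n → GP D) (hQ0 : ∀ j, (Q j).p 0 ∈ A) (hQ1 : ∀ j, (Q j).p (Q j).len ∈ B)
    (hQd : ∀ i j, i ≠ j → Disjoint (Q i).supp (Q j).supp) (j0 : Fin n) {e : ℕ}
    (he : e < (Q j0).len)
    (hsep : ¬ NoSep (delE D ((Q j0).p e) ((Q j0).p (e + 1))) A B n) :
    ∃ (S : Finset V) (R : Set V) (pos : Fin n → ℕ), S.card < n ∧
      (∀ v ∈ R, v ∉ S) ∧
      (∀ v w, v ∈ R → (delE D ((Q j0).p e) ((Q j0).p (e + 1))).Adj v w → w ∉ S → w ∈ R) ∧
      (∀ k, k ≤ e → (Q j0).p k ∈ R) ∧
      (∀ k, e < k → k ≤ (Q j0).len → (Q j0).p k ∉ R) ∧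
      (∀ j, j ≠ j0 → ∀ k, k < pos j → k ≤ (Q j).len → (Q j).p k ∈ R) ∧
      (∀ j, j ≠ j0 → ∀ k, pos j ≤ k → k ≤ (Q j).len → (Q j).p k ∉ R) ∧
      (∀ j, j ≠ j0 → pos j ≤ (Q j).len ∧ (Q j).p (pos j) ∈ S) := by
  classical
  set x := (Q j0).p e with hx
  set y := (Q j0).p (e + 1) with hy
  set D' := delE D x y with hD'
  unfold NoSep at hsep
  push Not at hsep
  obtain ⟨S, hS, hno⟩ := hsep
  -- edges of the paths in D'
  have hedge : ∀ j, j ≠ j0 → ∀ k, k < (Q j).len → D'.Adj ((Q j).p k) ((Q j).p (k + 1)) := by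
    intro j hj k hk
    refine ⟨(Q j).adj k hk, ?_, ?_⟩
    · rintro ⟨h1, _⟩
      exact Set.disjoint_left.1 (hQd j j0 hj) ((Q j).mem_supp hk.le)
        (h1 ▸ (Q j0).mem_supp he.le)
    · rintro ⟨h1, _⟩
      exact Set.disjoint_left.1 (hQd j j0 hj) ((Q j).mem_supp hk.le)
        (h1 ▸ (Q j0).mem_supp he)
  have hedge0 : ∀ k, k < (Q j0).len → k ≠ e → D'.Adj ((Q j0).p k) ((Q j0).p (k + 1)) := by
    intro k hk hke
    refine ⟨(Q j0).adj k hk, ?_, ?_⟩
    · rintro ⟨h1, _⟩
      exact hke ((Q j0).inj k hk.le e he.le h1)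
    · rintro ⟨h1, h2⟩
      have e1 := (Q j0).inj k hk.le (e + 1) he h1
      have e2 := (Q j0).inj (k + 1) hk e he.le h2
      omega
  -- S meets every other path
  have hmeet : ∀ j, j ≠ j0 → ∃ k, k ≤ (Q j).len ∧ (Q j).p k ∈ S := by
    intro j hj
    by_contra hcon
    push Not at hcon
    refine hno _ (hQ0 j) _ (hQ1 j) (hcon 0 (Nat.zero_le _)) (hcon _ le_rfl) ?_
    have h1 := ((Q j).mapG (hedge j hj)).reach (a := 0) (b := (Q j).len) (Nat.zero_le _) le_rfl
    refine h1.mono ?_
    rintro v ⟨k, _, hk, rfl⟩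
    show (Q j).p k ∈ ((S : Set V))ᶜ
    simpa using hcon k hk
  choose! pos hpos1 hpos2 using hmeet
  -- S consists of the vertices at these positions
  have hSimg : S = (Finset.univ.erase j0).image (fun j => (Q j).p (pos j)) := by
    symm
    apply Finset.eq_of_subset_of_card_le
    · intro v hv
      obtain ⟨j, hj, rfl⟩ := Finset.mem_image.1 hv
      exact hpos2 j (Finset.ne_of_mem_erase hj)
    · rw [Finset.card_image_of_injOn, Finset.card_erase_of_mem (Finset.mem_univ _),
        Finset.card_univ, Fintype.card_fin]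
      · omega
      · intro i hi j hj hij
        by_contra hne
        refine Set.disjoint_left.1 (hQd i j hne) ((Q i).mem_supp (hpos1 i ?_)) ?_
        · exact Finset.ne_of_mem_erase hi
        · simp only at hij
          rw [hij]
          exact (Q j).mem_supp (hpos1 j (Finset.ne_of_mem_erase hj))
  have hSQ0 : ∀ k, k ≤ (Q j0).len → (Q j0).p k ∉ S := by
    intro k hk hkS
    rw [hSimg] at hkS
    obtain ⟨j, hj, hjk⟩ := Finset.mem_image.1 hkS
    have hj' := Finset.ne_of_mem_erase hj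
    exact Set.disjoint_left.1 (hQd j j0 hj') ((Q j).mem_supp (hpos1 j hj'))
      (hjk ▸ (Q j0).mem_supp hk)
  have hSQ : ∀ j, j ≠ j0 → ∀ k, k ≤ (Q j).len → (Q j).p k ∈ S → k = pos j := by
    intro j hj k hk hkS
    rw [hSimg] at hkS
    obtain ⟨i, hi, hik⟩ := Finset.mem_image.1 hkS
    have hi' := Finset.ne_of_mem_erase hi
    have hij : i = j := by
      by_contra hne
      exact Set.disjoint_left.1 (hQd i j hne) ((Q i).mem_supp (hpos1 i hi'))
        (hik ▸ (Q j).mem_supp hk)
    subst hij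
    exact (Q i).inj k hk _ (hpos1 i hj) hik.symm
  set R : Set V := {v | ∃ a ∈ A, a ∉ S ∧ RIn D' (↑S)ᶜ a v} with hR
  have hRS : ∀ v ∈ R, v ∉ S := by
    rintro v ⟨a, _, haS, hav⟩
    simpa using hav.mem_right (by simpa using haS)
  have hRstep : ∀ v w, v ∈ R → D'.Adj v w → w ∉ S → w ∈ R := by
    rintro v w ⟨a, ha, haS, hav⟩ hvw hw
    exact ⟨a, ha, haS, hav.tail hvw (by simpa using hRS v ⟨a, ha, haS, hav⟩) (by simpa using hw)⟩
  have hRreach : ∀ v w, v ∈ R → RIn D' (↑S)ᶜ v w → w ∈ R := by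
    rintro v w ⟨a, ha, haS, hav⟩ hvw
    exact ⟨a, ha, haS, hav.trans hvw⟩
  have hRB : ∀ v ∈ R, v ∉ B := by
    rintro v ⟨a, ha, haS, hav⟩ hvB
    exact hno a ha v hvB haS (hRS v ⟨a, ha, haS, hav⟩) hav
  refine ⟨S, R, pos, hS, hRS, hRstep, ?_, ?_, ?_, ?_, fun j hj => ⟨hpos1 j hj, hpos2 j hj⟩⟩
  · intro k
    induction k with
    | zero =>
      intro _
      exact ⟨_, hQ0 j0, hSQ0 0 (Nat.zero_le _), RIn.refl _ _ _⟩
    | succ k ih =>
      intro hk
      exact hRstep _ _ (ih (by omega)) (hedge0 k (by omega) (by omega)) (hSQ0 _ (by omega))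
  · intro k hk hk' hkR
    have : ∀ l, k ≤ l → l ≤ (Q j0).len → (Q j0).p l ∈ R := by
      intro l hl
      induction l, hl using Nat.le_induction with
      | base => intro _; exact hkR
      | succ l hl ih =>
        intro hl'
        exact hRstep _ _ (ih (by omega)) (hedge0 l (by omega) (by omega)) (hSQ0 _ hl')
    exact hRB _ (this _ hk' le_rfl) (hQ1 j0)
  · intro j hj k
    induction k with
    | zero =>
      intro h0 _
      refine ⟨_, hQ0 j, ?_, RIn.refl _ _ _⟩
      intro hS'
      have := hSQ j hj 0 (Nat.zero_le _) hS'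
      omega
    | succ k ih =>
      intro hk hk'
      refine hRstep _ _ (ih (by omega) (by omega)) (hedge j hj k (by omega)) ?_
      intro hS'
      have := hSQ j hj (k + 1) hk' hS'
      omega
  · intro j hj k hk hk' hkR
    have hkne : k ≠ pos j := by
      rintro rfl
      exact hRS _ hkR (hpos2 j hj)
    have : ∀ l, k ≤ l → l ≤ (Q j).len → (Q j).p l ∈ R := by
      intro l hl
      induction l, hl using Nat.le_induction with
      | base => intro _; exact hkR
      | succ l hl ih =>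
        intro hl'
        refine hRstep _ _ (ih (by omega)) (hedge j hj l (by omega)) ?_
        intro hS'
        have := hSQ j hj (l + 1) hl' hS'
        omega
    exact hRB _ (this _ hk' le_rfl) (hQ1 j)

/-- **Key lemma**: if many paths `P i` meet almost all of the paths `Q j` of a linkage which is
essential in `D` outside the edges of `P`, then there is a grid. -/
theorem lemmaG [Finite V] {G D : SimpleGraph V} (hDG : D ≤ G) {A B : Set V} {ι : Type*}
    {n n' d K g : ℕ} (hd : (g + 2) ^ (g + 1) < d) (hK : (2 ^ d) ^ d * (2 * (g * g) + 2) ≤ K)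
    (P : ι → GP D) (hP : ∀ i j, i ≠ j → Disjoint (P i).supp (P j).supp)
    (Q : Fin n → GP D) (hQ0 : ∀ j, (Q j).p 0 ∈ A) (hQ1 : ∀ j, (Q j).p (Q j).len ∈ B)
    (hQd : ∀ i j, i ≠ j → Disjoint (Q i).supp (Q j).supp)
    (hmin : ∀ x y, D.Adj x y → ¬ (PG P).Adj x y → ¬ NoSep (delE D x y) A B n)
    (I : Finset ι) (hI : ∀ i ∈ I, n < {j | ¬ Disjoint (P i).supp (Q j).supp}.ncard + n')
    (hn : K * n' + d + 1 ≤ n) (hn' : n' ≤ n) (hIc : n * (2 * n * K + 2) ≤ I.card) :
    Nonempty (GridModel G g) := by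
  classical
  have hnpos : 0 < n := by omega
  have hKpos : 0 < K := lt_of_lt_of_le (by positivity) hK
  have hne : Nonempty (Fin n) := ⟨⟨0, hnpos⟩⟩
  have hVne : Nonempty V := ⟨(Q ⟨0, hnpos⟩).p 0⟩
  -- every P i meets some Q j
  have hmeet : ∀ i ∈ I, ∃ j, ¬ Disjoint (P i).supp (Q j).supp := by
    intro i hi
    by_contra hcon
    push Not at hcon
    have h1 := hI i hi
    have h2 : {j | ¬ Disjoint (P i).supp (Q j).supp} = ∅ := by
      rw [Set.eq_empty_iff_forall_notMem]
      intro j hj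
      exact hj (hcon j)
    rw [h2, Set.ncard_empty] at h1
    omega
  choose! F hF using hmeet
  obtain ⟨j0, _, hj0⟩ := Finset.exists_le_card_fiber_of_mul_le_card_of_maps_to
    (s := I) (t := Finset.univ) (f := F) (n := 2 * n * K + 2)
    (fun _ _ => Finset.mem_univ _) Finset.univ_nonempty (by simpa using hIc)
  set I0 := I.filter (fun i => F i = j0) with hI0
  have hI0I : ∀ i ∈ I0, i ∈ I := fun i hi => (Finset.mem_filter.1 hi).1
  have hpos : ∀ i ∈ I0, ∃ k, k ≤ (Q j0).len ∧ (Q j0).p k ∈ (P i).supp := by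
    intro i hi
    have h1 := hF i (hI0I i hi)
    rw [(Finset.mem_filter.1 hi).2, Set.not_disjoint_iff] at h1
    obtain ⟨v, hv, k, hk, rfl⟩ := h1
    exact ⟨k, hk, hv⟩
  choose! f hf1 hf2 using hpos
  have hfinj : Set.InjOn f (I0 : Set ι) := by
    intro i hi i' hi' h
    by_contra hne'
    refine Set.disjoint_left.1 (hP i i' hne') (hf2 i hi) ?_
    rw [h]
    exact hf2 i' hi'
  have hIne : Nonempty ι := by
    have : 0 < I0.card := by omega
    obtain ⟨i, _⟩ := Finset.card_pos.1 this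
    exact ⟨i⟩
  obtain ⟨σ, hσ⟩ := exists_enum I0 f hfinj hj0
  set k0 := 2 * n * K + 2 with hk0
  have hmul : ∀ l, l ≤ K → 2 * n * l + 1 < k0 := by
    intro l hl
    have := Nat.mul_le_mul_left (2 * n) hl
    omega
  -- cut edges
  have hcut : ∀ l, ∃ e, l ≤ K → f (σ (2 * n * l)) ≤ e ∧ e < f (σ (2 * n * l + 1)) ∧
      ¬ (PG P).Adj ((Q j0).p e) ((Q j0).p (e + 1)) := by
    intro l
    by_cases hl : l ≤ K
    · have h1 := hmul l hl
      have h2 := hσ (2 * n * l) (by omega)
      have h3 := hσ (2 * n * l + 1) h1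
      have h4 := h2.2 (2 * n * l + 1) h1 (by omega)
      have hne' : σ (2 * n * l) ≠ σ (2 * n * l + 1) := fun h => by
        rw [h] at h4; exact lt_irrefl _ h4
      obtain ⟨e, he1, he2, he3⟩ := exists_cut P hP (Q j0) hne' h4.le
        (hf2 _ h2.1) (hf2 _ h3.1)
      exact ⟨e, fun _ => ⟨he1, he2, he3⟩⟩
    · exact ⟨0, fun h => absurd h hl⟩
  choose e he using hcut
  have helen : ∀ l, l ≤ K → e l < (Q j0).len := fun l hl =>
    (he l hl).2.1.trans_le (hf1 _ (hσ _ (hmul l hl)).1)
  have hdata : ∀ l, ∃ (S : Finset V) (R : Set V) (pos : Fin n → ℕ), l ≤ K → (S.card < n ∧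
      (∀ v ∈ R, v ∉ S) ∧
      (∀ v w, v ∈ R → (delE D ((Q j0).p (e l)) ((Q j0).p (e l + 1))).Adj v w → w ∉ S →
        w ∈ R) ∧
      (∀ k, k ≤ e l → (Q j0).p k ∈ R) ∧
      (∀ k, e l < k → k ≤ (Q j0).len → (Q j0).p k ∉ R) ∧
      (∀ j, j ≠ j0 → ∀ k, k < pos j → k ≤ (Q j).len → (Q j).p k ∈ R) ∧
      (∀ j, j ≠ j0 → ∀ k, pos j ≤ k → k ≤ (Q j).len → (Q j).p k ∉ R) ∧
      (∀ j, j ≠ j0 → pos j ≤ (Q j).len ∧ (Q j).p (pos j) ∈ S)) := by
    intro l
    by_cases hl : l ≤ K
    · obtain ⟨S, R, pos, h⟩ := cut_data Q hQ0 hQ1 hQd j0 (helen l hl)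
        (hmin _ _ ((Q j0).adj _ (helen l hl)) (he l hl).2.2)
      exact ⟨S, R, pos, fun _ => h⟩
    · exact ⟨∅, ∅, fun _ => 0, fun h => absurd h hl⟩
  choose S R pos hdat using hdata
  -- the layers
  have hlayer : ∀ l, ∃ i, l < K → i ∈ I ∧
      (∃ k, e l < k ∧ k ≤ e (l + 1) ∧ (Q j0).p k ∈ (P i).supp) ∧
      (∀ v ∈ (P i).supp, v ∉ S l ∧ v ∉ S (l + 1)) := by
    intro l
    by_cases hl : l < K
    swap
    · exact ⟨Classical.arbitrary ι, fun h => absurd h hl⟩
    by_contra hcon
    push Not at hcon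
    -- all members of the group meet the separators
    have hgrp : ∀ m ∈ Finset.Ioc (2 * n * l) (2 * n * (l + 1)),
        ∃ v, v ∈ (P (σ m)).supp ∧ v ∈ S l ∪ S (l + 1) := by
      intro m hm
      rw [Finset.mem_Ioc] at hm
      have h1 := hmul (l + 1) hl
      have h0 := hmul l hl.le
      have h2 := hσ m (by omega)
      have h3 : e l < f (σ m) := by
        rcases (show 2 * n * l + 1 = m ∨ 2 * n * l + 1 < m by omega) with h | h
        · rw [← h]; exact (he l hl.le).2.1
        · exact (he l hl.le).2.1.trans ((hσ _ h0).2 m (by omega) h)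
      have h4 : f (σ m) ≤ e (l + 1) := by
        rcases (show m = 2 * n * (l + 1) ∨ m < 2 * n * (l + 1) by omega) with h | h
        · rw [h]; exact (he (l + 1) hl).1
        · exact ((h2.2 _ (by omega) h).le).trans (he (l + 1) hl).1
      have h5 := (hcon (σ m)).2 (hI0I _ h2.1) ⟨f (σ m), h3, h4, hf2 _ h2.1⟩
      obtain ⟨v, hv, hv'⟩ := h5
      refine ⟨v, hv, ?_⟩
      rw [Finset.mem_union]
      by_cases h6 : v ∈ S l
      · exact Or.inl h6
      · exact Or.inr (hv' h6)
    choose! w hw1 hw2 using hgrp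
    have hcardlt : (S l ∪ S (l + 1)).card <
        (Finset.Ioc (2 * n * l) (2 * n * (l + 1))).card := by
      have h1 := (hdat l hl.le).1
      have h2 := (hdat (l + 1) hl).1
      have h3 := Finset.card_union_le (S l) (S (l + 1))
      rw [Nat.card_Ioc]
      have : 2 * n * (l + 1) = 2 * n * l + 2 * n := by ring
      omega
    obtain ⟨m, hm, m', hm', hne', hmm⟩ := Finset.exists_ne_map_eq_of_card_lt_of_maps_to
      hcardlt (f := w) (fun m hm => hw2 m hm)
    have h1 := hmul (l + 1) hl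
    have hm1 := Finset.mem_Ioc.1 hm
    have hm1' := Finset.mem_Ioc.1 hm'
    have hσne : σ m ≠ σ m' := by
      intro h
      rcases lt_or_gt_of_ne hne' with h2 | h2
      · have := (hσ m (by omega)).2 m' (by omega) h2
        rw [h] at this; exact lt_irrefl _ this
      · have := (hσ m' (by omega)).2 m (by omega) h2
        rw [h] at this; exact lt_irrefl _ this
    refine Set.disjoint_left.1 (hP _ _ hσne) (hw1 m hm) ?_
    rw [hmm]
    exact hw1 m' hm'
  choose h hh using hlayer
  -- connectivity of the layer with respect to R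
  have hPR : ∀ l i, l ≤ K → (∀ v ∈ (P i).supp, v ∉ S l) → ∀ v ∈ (P i).supp, v ∈ R l →
      ∀ w ∈ (P i).supp, w ∈ R l := by
    intro l i hl hav v hv hvR w hw
    have hedge : ∀ k, k < (P i).len →
        (delE D ((Q j0).p (e l)) ((Q j0).p (e l + 1))).Adj ((P i).p k) ((P i).p (k + 1)) := by
      intro k hk
      refine ⟨(P i).adj k hk, ?_, ?_⟩
      · rintro ⟨h1, h2⟩
        apply (he l hl).2.2
        rw [← h1, ← h2]
        exact PG_adj P i hk
      · rintro ⟨h1, h2⟩
        apply (he l hl).2.2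
        rw [← h1, ← h2]
        exact (PG_adj P i hk).symm
    have hreach := ((P i).mapG hedge).supp_conn.2 v hv w hw
    refine RIn.closed (P := fun z => z ∈ R l) hreach hvR ?_
    intro a b _ hb hab haR
    exact (hdat l hl).2.2.1 a b haR hab (hav b hb)
  have hin : ∀ l, l < K → ∀ v ∈ (P (h l)).supp, v ∈ R (l + 1) := by
    intro l hl v hv
    obtain ⟨_, ⟨k, hk1, hk2, hk3⟩, hav⟩ := hh l hl
    exact hPR (l + 1) (h l) hl (fun v hv => (hav v hv).2) _ hk3
      ((hdat (l + 1) hl).2.2.2.1 k hk2) v hv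
  have hout : ∀ l, l < K → ∀ v ∈ (P (h l)).supp, v ∉ R l := by
    intro l hl v hv hvR
    obtain ⟨_, ⟨k, hk1, hk2, hk3⟩, hav⟩ := hh l hl
    have := hPR l (h l) hl.le (fun v hv => (hav v hv).1) v hv hvR _ hk3
    exact (hdat l hl.le).2.2.2.2.1 k hk1 (hk2.trans (helen (l + 1) hl).le) this
  -- positions
  have hposn : ∀ l, l < K → ∀ j, j ≠ j0 → ∀ k, k ≤ (Q j).len → (Q j).p k ∈ (P (h l)).supp →
      pos l j < k ∧ k < pos (l + 1) j := by
    intro l hl j hj k hk hkP
    constructor
    · by_contra hcon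
      push Not at hcon
      rcases hcon.eq_or_lt with h1 | h1
      · have h2 := ((hdat l hl.le).2.2.2.2.2.2.2 j hj).2
        rw [← h1] at h2
        exact ((hh l hl).2.2 _ hkP).1 h2
      · exact hout l hl _ hkP ((hdat l hl.le).2.2.2.2.2.1 j hj k h1 hk)
    · by_contra hcon
      push Not at hcon
      exact (hdat (l + 1) hl).2.2.2.2.2.2.1 j hj k hcon hk (hin l hl _ hkP)
  -- the verticals
  set J : Finset (Fin n) := Finset.univ.filter (fun j => j ≠ j0 ∧
    ∀ l, l < K → ¬ Disjoint (P (h l)).supp (Q j).supp) with hJ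
  have hJcard : d ≤ J.card := by
    have hcompl : (Finset.univ \ J) ⊆ {j0} ∪ (Finset.range K).biUnion
        (fun l => Finset.univ.filter (fun j => Disjoint (P (h l)).supp (Q j).supp)) := by
      intro j hj
      rw [Finset.mem_sdiff, hJ, Finset.mem_filter] at hj
      by_cases hj0' : j = j0
      · rw [Finset.mem_union, Finset.mem_singleton]; exact Or.inl hj0'
      · have : ∃ l, l < K ∧ Disjoint (P (h l)).supp (Q j).supp := by
          by_contra hcon
          push Not at hcon
          exact hj.2 ⟨Finset.mem_univ _, hj0', hcon⟩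
        obtain ⟨l, hl, hl'⟩ := this
        rw [Finset.mem_union, Finset.mem_biUnion]
        exact Or.inr ⟨l, Finset.mem_range.2 hl, Finset.mem_filter.2 ⟨Finset.mem_univ _, hl'⟩⟩
    have hbi : ((Finset.range K).biUnion
        (fun l => Finset.univ.filter (fun j => Disjoint (P (h l)).supp (Q j).supp))).card ≤
        K * n' := by
      have := Finset.card_biUnion_le_card_mul (Finset.range K)
        (fun l => Finset.univ.filter (fun j => Disjoint (P (h l)).supp (Q j).supp)) n' ?_
      · simpa using this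
      · intro l hl
        have h1 := hI _ (hh l (Finset.mem_range.1 hl)).1
        have h2 : ({j | ¬ Disjoint (P (h l)).supp (Q j).supp} : Set (Fin n)) =
            ↑(Finset.univ.filter (fun j => ¬ Disjoint (P (h l)).supp (Q j).supp)) := by
          ext j; simp
        rw [h2, Set.ncard_coe_finset] at h1
        have h3 := Finset.card_filter_add_card_filter_not
          (s := (Finset.univ : Finset (Fin n)))
          (fun j => Disjoint (P (h l)).supp (Q j).supp)
        rw [Finset.card_univ, Fintype.card_fin] at h3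
        omega
    have h1 := Finset.card_le_card hcompl
    have h2 := Finset.card_union_le {j0} ((Finset.range K).biUnion
        (fun l => Finset.univ.filter (fun j => Disjoint (P (h l)).supp (Q j).supp)))
    rw [Finset.card_sdiff_of_subset (Finset.subset_univ _), Finset.card_univ,
      Fintype.card_fin] at h1
    rw [Finset.card_singleton] at h2
    omega
  have : Nonempty (Fin d ↪ {v // v ∈ J}) := by
    apply Function.Embedding.nonempty_of_card_le
    rw [Fintype.card_fin, Fintype.card_coe]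
    exact hJcard
  obtain ⟨u⟩ := this
  have huJ : ∀ i, (u i).1 ≠ j0 ∧ ∀ l, l < K →
      ¬ Disjoint (P (h l)).supp (Q (u i).1).supp := fun i =>
    (Finset.mem_filter.1 (u i).2).2
  have hmeetpos : ∀ i l, l < K → ∃ k, k ≤ (Q (u i).1).len ∧
      (Q (u i).1).p k ∈ (P (h l)).supp := by
    intro i l hl
    have := (huJ i).2 l hl
    rw [Set.not_disjoint_iff] at this
    obtain ⟨v, hv, k, hk, rfl⟩ := this
    exact ⟨k, hk, hv⟩
  have hposmono : ∀ i l l', l ≤ l' → l' ≤ K → pos l (u i).1 ≤ pos l' (u i).1 := by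
    intro i l l' hll
    induction l', hll using Nat.le_induction with
    | base => intro _; exact le_rfl
    | succ l' hll ih =>
      intro hl'
      obtain ⟨k, hk, hk'⟩ := hmeetpos i l' hl'
      have := hposn l' hl' _ (huJ i).1 k hk hk'
      have := ih (by omega)
      omega
  refine model_of_sys (G := G) g hd hK
    (fun i => (Q (u i).1).mapG (fun k hk => hDG ((Q (u i).1).adj k hk)))
    (fun l => (P (h l)).mapG (fun k hk => hDG ((P (h l)).adj k hk))) ?_ ?_ ?_ ?_
  · intro i j hij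
    exact hQd _ _ (fun h => hij (u.injective (Subtype.ext h)))
  · intro l l' hl hl' hne'
    refine hP _ _ ?_
    intro heq
    -- layers with different index are different paths
    wlog hlt : l < l' generalizing l l'
    · exact this l' l hl' hl hne'.symm heq.symm (by omega)
    obtain ⟨k, hk, hk'⟩ := hmeetpos ⟨0, by omega⟩ l hl
    have h1 := hposn l hl _ (huJ ⟨0, by omega⟩).1 k hk hk'
    rw [heq] at hk'
    have h2 := hposn l' hl' _ (huJ ⟨0, by omega⟩).1 k hk hk'
    have h3 := hposmono ⟨0, by omega⟩ (l + 1) l' hlt hl'.le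
    omega
  · intro i l hl
    exact hmeetpos i l hl
  · intro i l l' k k' hll hl' hk hk' h1 h2
    have h3 := hposn l (hll.trans hl') _ (huJ i).1 k hk h1
    have h4 := hposn l' hl' _ (huJ i).1 k' hk' h2
    have h5 := hposmono i (l + 1) l' hll hl'.le
    omega

end Grid

end Pool.Agent.Lib.MP_4d119b_lc
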