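import Pool.Agent.Lib.MP_4d119b_lc.Menger

/-! Shared definitions for the modules of MP_4d119b_lc. -/

namespace Pool.Agent.Lib.MP_4d119b_lc

open Set

universe u

/-! ### structural part -/

/-- `G` has large width: a set `W` of `3κ` vertices without balanced separation of order `< κ` -/
def Wide {V : Type} (G : SimpleGraph V) (κ : ℕ) : Prop :=
  ∃ W : Finset V, W.card = 3 * κ ∧ ∀ A B : Set V, A ∪ B = univ →
    (∀ x ∈ A \ B, ∀ y ∈ B \ A, ¬ G.Adj x y) → (A ∩ B).ncard < κ →
    2 * κ < (↑W ∩ (A \ B)).ncard ∨ 2 * κ < (↑W ∩ (B \ A)).ncard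

/-- `t` disjoint connected sets `A c` with feet `Z c c'` (for the partner `c'`), any two of which
are joined by `w` disjoint paths through `B` -/
structure Mesh {V : Type} (G : SimpleGraph V) (t w : ℕ) where
  A : Fin t → Set V
  Z : Fin t → Fin t → Set V
  B : Set V
  A_conn : ∀ c, Conn G (A c)
  A_disj : ∀ c c', c ≠ c' → Disjoint (A c) (A c')
  B_disj : ∀ c, Disjoint (A c) B
  Z_sub : ∀ c c', c ≠ c' → Z c c' ⊆ A c
  Z_card : ∀ c c', c ≠ c' → (Z c c').ncard = w
  Z_disj : ∀ c c' c'', c ≠ c' → c ≠ c'' → c' ≠ c'' → Disjoint (Z c c') (Z c c'')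
  link : ∀ c c', c ≠ c' → ∃ P : Fin w → GP G,
    (∀ i, (P i).p 0 ∈ Z c c' ∧ (P i).p (P i).len ∈ Z c' c ∧
      ∀ j, 0 < j → j < (P i).len → (P i).p j ∈ B) ∧
    ∀ i j, i ≠ j → Disjoint (P i).supp (P j).supp

/-- a grid model of bounded degree: `Γ`-connected cells `X i j`, `i, j < n`, neighbouring cells
being joined by an edge of `Γ` -/
structure GridModel {V : Type} (G : SimpleGraph V) (n : ℕ) where
  Γ : SimpleGraph V
  le : Γ ≤ G
  deg : ∀ v, (Γ.neighborSet v).ncard ≤ 4
  X : ℕ → ℕ → Set V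
  conn : ∀ i j, i < n → j < n → Conn Γ (X i j)
  disj : ∀ i j i' j', i < n → j < n → i' < n → j' < n → (i ≠ i' ∨ j ≠ j') →
    Disjoint (X i j) (X i' j')
  right : ∀ i j, i + 1 < n → j < n → Touch Γ (X i j) (X (i + 1) j)
  down : ∀ i j, i < n → j + 1 < n → Touch Γ (X i j) (X i (j + 1))

/-- boundary positions of the `n × n` grid -/
def Bd (n i j : ℕ) : Prop := i = 0 ∨ j = 0 ∨ i + 1 = n ∨ j + 1 = n

/-- positions at distance at most one, or both on the boundary -/
def NearBd (n i j i' j' : ℕ) : Prop :=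
  (i ≤ i' + 1 ∧ i' ≤ i + 1 ∧ j ≤ j' + 1 ∧ j' ≤ j + 1) ∨ (Bd n i j ∧ Bd n i' j')

/-- a local grid in `G - A`: all connections outside the grid are between cells at distance at
most one, or between boundary cells -/
structure IsHost {V : Type} (G : SimpleGraph V) (A : Set V) (n : ℕ) (X : ℕ → ℕ → Set V) :
    Prop where
  conn : ∀ i j, i < n → j < n → Conn G (X i j)
  disjA : ∀ i j, i < n → j < n → Disjoint (X i j) A
  disj : ∀ i j i' j', i < n → j < n → i' < n → j' < n → (i ≠ i' ∨ j ≠ j') →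
    Disjoint (X i j) (X i' j')
  right : ∀ i j, i + 1 < n → j < n → Touch G (X i j) (X (i + 1) j)
  down : ∀ i j, i < n → j + 1 < n → Touch G (X i j) (X i (j + 1))
  edge : ∀ i j i' j', i < n → j < n → i' < n → j' < n → Touch G (X i j) (X i' j') →
    NearBd n i j i' j'
  jump : ∀ K : Set V, Conn G K → Disjoint K A → (∀ i j, i < n → j < n → Disjoint K (X i j)) →
    ∀ i j i' j', i < n → j < n → i' < n → j' < n → Touch G K (X i j) → Touch G K (X i' j') →
    NearBd n i j i' j'

/-! ### minor types -/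

/-- the rooted pattern `(J, R)` is realised in the rooted graph `(G, ρ)`: disjoint connected
branch sets for all roots (containing them) and for the indices in `J`, with edges between the
branch sets of `R`-related indices -/
def Real {V : Type} {k h : ℕ} (G : SimpleGraph V) (ρ : Fin k → V) (J : Set (Fin h))
    (R : Fin k ⊕ Fin h → Fin k ⊕ Fin h → Prop) : Prop :=
  ∃ B : Fin k ⊕ Fin h → Set V,
    (∀ i, Conn G (B (Sum.inl i)) ∧ ρ i ∈ B (Sum.inl i)) ∧
    (∀ j ∈ J, Conn G (B (Sum.inr j))) ∧ (∀ j, j ∉ J → B (Sum.inr j) = ∅) ∧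
    (∀ x y, x ≠ y → Disjoint (B x) (B y)) ∧
    (∀ x y, x ≠ y → R x y → Touch G (B x) (B y))

/-- the set of all realised rooted patterns -/
def info {V : Type} {k : ℕ} (h : ℕ) (G : SimpleGraph V) (ρ : Fin k → V) :
    Set (Set (Fin h) × (Fin k ⊕ Fin h → Fin k ⊕ Fin h → Prop)) :=
  {P | Real G ρ P.1 P.2}

/-- `G` is obtained by gluing the rooted graph `(G₁, ρ₁)` and the graph `C` along `α` -/
structure IsGlue {V₁ W V : Type} {k : ℕ} (G₁ : SimpleGraph V₁) (ρ₁ : Fin k → V₁)
    (C : SimpleGraph W) (α : Fin k → W) (G : SimpleGraph V) (f₁ : V₁ → V) (f₂ : W → V) :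
    Prop where
  inj₁ : Function.Injective f₁
  inj₂ : Function.Injective f₂
  root : ∀ i, f₁ (ρ₁ i) = f₂ (α i)
  inter : ∀ x y, f₁ x = f₂ y → ∃ i, x = ρ₁ i ∧ y = α i
  cover : ∀ v, (∃ x, f₁ x = v) ∨ (∃ y, f₂ y = v)
  adj₁ : ∀ a b, G₁.Adj a b → G.Adj (f₁ a) (f₁ b)
  adj₂ : ∀ a b, C.Adj a b → G.Adj (f₂ a) (f₂ b)
  adj : ∀ x y, G.Adj x y → (∃ a b, G₁.Adj a b ∧ f₁ a = x ∧ f₁ b = y) ∨
    (∃ a b, C.Adj a b ∧ f₂ a = x ∧ f₂ b = y)

/-! ### terms: graphs of bounded width

A term has `k` slots, each holding a (virtual) vertex.  `nil`: no edges, no interior vertices.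
`drop i S t`: join the vertex in slot `i` to the vertices in the slots `S \ {i}`, make it an
interior vertex and put a fresh isolated vertex in slot `i`.  `join`: glue along the slots. -/

inductive Term (k : ℕ) : Type
  | nil : Term k
  | drop (i : Fin k) (S : Finset (Fin k)) (t : Term k) : Term k
  | join (t₁ t₂ : Term k) : Term k

namespace Term

variable {k : ℕ}

/-- interior vertices -/
def Int : Term k → Type
  | nil => Empty
  | drop _ _ t => Option t.Int
  | join t₁ t₂ => t₁.Int ⊕ t₂.Int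

/-- adjacency between interior vertices and slots -/
def is : (t : Term k) → t.Int → Fin k → Prop
  | nil => fun x _ => x.elim
  | drop i S t => fun x j => match x with
    | none => j ∈ S ∧ j ≠ i
    | some y => t.is y j ∧ j ≠ i
  | join t₁ t₂ => fun x j => match x with
    | Sum.inl y => t₁.is y j
    | Sum.inr y => t₂.is y j

/-- adjacency between interior vertices -/
def ii : (t : Term k) → t.Int → t.Int → Prop
  | nil => fun x _ => x.elim
  | drop i _ t => fun x y => match x, y with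
    | none, none => False
    | none, some b => t.is b i
    | some a, none => t.is a i
    | some a, some b => t.ii a b
  | join t₁ t₂ => fun x y => match x, y with
    | Sum.inl a, Sum.inl b => t₁.ii a b
    | Sum.inr a, Sum.inr b => t₂.ii a b
    | Sum.inl _, Sum.inr _ => False
    | Sum.inr _, Sum.inl _ => False

/-- number of interior vertices -/
def nu : Term k → ℕ
  | nil => 0
  | drop _ _ t => t.nu + 1
  | join t₁ t₂ => t₁.nu + t₂.nu

/-- number of edges -/
def ed : Term k → ℕ
  | nil => 0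
  | drop i S t => t.ed + (S.erase i).card
  | join t₁ t₂ => t₁.ed + t₂.ed

theorem ii_symm : (t : Term k) → ∀ x y, t.ii x y → t.ii y x
  | nil => fun x _ => x.elim
  | drop i S t => fun x y h => by
    match x, y with
    | none, none => exact h
    | none, some b => exact h
    | some a, none => exact h
    | some a, some b => exact t.ii_symm a b h
  | join t₁ t₂ => fun x y h => by
    match x, y with
    | Sum.inl a, Sum.inl b => exact t₁.ii_symm a b h
    | Sum.inr a, Sum.inr b => exact t₂.ii_symm a b h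
    | Sum.inl _, Sum.inr _ => exact h
    | Sum.inr _, Sum.inl _ => exact h

theorem ii_irrefl : (t : Term k) → ∀ x, ¬ t.ii x x
  | nil => fun x => x.elim
  | drop i S t => fun x h => by
    match x with
    | none => exact h
    | some a => exact t.ii_irrefl a h
  | join t₁ t₂ => fun x h => by
    match x with
    | Sum.inl a => exact t₁.ii_irrefl a h
    | Sum.inr a => exact t₂.ii_irrefl a h

/-- the graph on slots and interior vertices (slots are pairwise nonadjacent) -/
def graph (t : Term k) : SimpleGraph (Fin k ⊕ t.Int) where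
  Adj x y := match x, y with
    | Sum.inl _, Sum.inl _ => False
    | Sum.inl i, Sum.inr b => t.is b i
    | Sum.inr a, Sum.inl i => t.is a i
    | Sum.inr a, Sum.inr b => t.ii a b
  symm := ⟨fun x y h => by
    match x, y with
    | Sum.inl _, Sum.inl _ => exact h
    | Sum.inl i, Sum.inr b => exact h
    | Sum.inr a, Sum.inl i => exact h
    | Sum.inr a, Sum.inr b => exact t.ii_symm a b h⟩
  loopless := ⟨fun x h => by
    match x with
    | Sum.inl _ => exact h
    | Sum.inr a => exact t.ii_irrefl a h⟩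

/-- the graph on the interior vertices -/
def intGraph (t : Term k) : SimpleGraph t.Int where
  Adj := t.ii
  symm := ⟨fun x y h => t.ii_symm x y h⟩
  loopless := ⟨fun x h => t.ii_irrefl x h⟩

/-- used slots -/
def Used (t : Term k) (i : Fin k) : Prop := ∃ x, t.is x i

/-- minor type of a term -/
def tinfo (h : ℕ) (t : Term k) : Set (Set (Fin h) × (Fin k ⊕ Fin h → Fin k ⊕ Fin h → Prop)) :=
  info h t.graph (Sum.inl : Fin k → Fin k ⊕ t.Int)

/-- `t` represents the part of `G` with interior `Y`, attached at `X`, the vertex `x ∈ X` being in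
the slot `σ x` -/
def RepBy {V : Type} (t : Term k) (G : SimpleGraph V) (Y X : Set V) (σ : V → Fin k) : Prop :=
  ∃ φ : t.Int → V, Function.Injective φ ∧ Set.range φ = Y ∧
    (∀ a b, t.ii a b ↔ G.Adj (φ a) (φ b)) ∧
    (∀ a i, t.is a i ↔ ∃ x ∈ X, σ x = i ∧ G.Adj (φ a) x)

end Term

/-- every `3κ`-subset of `U` has a balanced separation of order `< κ` in `G[U]` -/
def Narrow {V : Type} (G : SimpleGraph V) (U : Set V) (κ : ℕ) : Prop :=
  ∀ W : Set V, W ⊆ U → W.ncard = 3 * κ → ∃ A B : Set V, A ∪ B = U ∧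
    (∀ x ∈ A \ B, ∀ y ∈ B \ A, ¬ G.Adj x y) ∧ (A ∩ B).ncard < κ ∧
    (W ∩ (A \ B)).ncard ≤ 2 * κ ∧ (W ∩ (B \ A)).ncard ≤ 2 * κ

/-! ### coded graphs, excluded minors, periodic graphs -/

/-- the graph coded by `(n, edge list)` -/
def gOf (c : ℕ × List (ℕ × ℕ)) : SimpleGraph (Fin c.1) where
  Adj i j := i ≠ j ∧ (((i : ℕ), (j : ℕ)) ∈ c.2 ∨ ((j : ℕ), (i : ℕ)) ∈ c.2)
  symm := ⟨fun _ _ h => ⟨h.1.symm, h.2.symm⟩⟩
  loopless := ⟨fun _ h => h.1 rfl⟩

/-- none of the graphs coded in `L` is a minor of `G` -/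
def InF {V : Type} (L : List (ℕ × List (ℕ × ℕ))) (G : SimpleGraph V) : Prop :=
  ∀ c ∈ L, ¬ IsMinor (gOf c) G

/-- shift the vertex `u` of the basic pattern (`a` persistent vertices, then blocks of size `b`)
by `i` blocks -/
def sh (a b i u : ℕ) : ℕ := if u < a then u else u + i * b

/-- periodic graph: the union of `N` shifted copies of the graph `E` on `a + 2b` vertices -/
def perGraph (a b : ℕ) (E : ℕ → ℕ → Prop) (N : ℕ) : SimpleGraph (Fin (a + (N + 1) * b)) where
  Adj x y := x ≠ y ∧ ∃ i u v, i < N ∧ u < a + 2 * b ∧ v < a + 2 * b ∧ (E u v ∨ E v u) ∧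
    sh a b i u = x ∧ sh a b i v = y
  symm := ⟨fun _ _ ⟨h, i, u, v, h1, h2, h3, h4, h5, h6⟩ =>
    ⟨h.symm, i, v, u, h1, h3, h2, h4.symm, h6, h5⟩⟩
  loopless := ⟨fun _ h => h.1 rfl⟩

open Classical in
/-- number of edges of the pattern with an end in the last block -/
noncomputable def cnt (a b : ℕ) (E : ℕ → ℕ → Prop) : ℕ :=
  (((Finset.range (a + 2 * b)) ×ˢ (Finset.range (a + 2 * b))).filter
    (fun p => p.1 < p.2 ∧ a + b ≤ p.2 ∧ (E p.1 p.2 ∨ E p.2 p.1))).card

end Pool.Agent.Lib.MP_4d119b_lc
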