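import Pool.Agent.Lib.MP_4d119b_lc.Iface

/-! Minor types of rooted graphs: replacement lemma and consequences. -/

namespace Pool.Agent.Lib.MP_4d119b_lc

open Set

namespace Info

/-- image of a reachable pair under an adjacency preserving map -/
theorem rin_map {V V' : Type*} {G : SimpleGraph V} {G' : SimpleGraph V'} (f : V → V')
    (hf : ∀ a b, G.Adj a b → G'.Adj (f a) (f b)) {S : Set V} {x y : V} (h : RIn G S x y) :
    RIn G' (f '' S) (f x) (f y) := by
  induction h with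
  | refl => exact RIn.refl _ _ _
  | tail _ hbc ih => exact ih.tail (hf _ _ hbc.1) ⟨_, hbc.2.1, rfl⟩ ⟨_, hbc.2.2, rfl⟩

theorem conn_map {V V' : Type*} {G : SimpleGraph V} {G' : SimpleGraph V'} (f : V → V')
    (hf : ∀ a b, G.Adj a b → G'.Adj (f a) (f b)) {S : Set V} (h : Conn G S) :
    Conn G' (f '' S) := by
  refine ⟨h.1.image f, ?_⟩
  rintro _ ⟨a, ha, rfl⟩ _ ⟨b, hb, rfl⟩
  exact rin_map f hf (h.2 a ha b hb)

theorem touch_map {V V' : Type*} {G : SimpleGraph V} {G' : SimpleGraph V'} (f : V → V')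
    (hf : ∀ a b, G.Adj a b → G'.Adj (f a) (f b)) {S T : Set V} (h : Touch G S T) :
    Touch G' (f '' S) (f '' T) := by
  obtain ⟨x, hx, y, hy, hxy⟩ := h
  exact ⟨f x, ⟨x, hx, rfl⟩, f y, ⟨y, hy, rfl⟩, hf _ _ hxy⟩

section Glue

variable {k : ℕ} {V₁ W V : Type} {G₁ : SimpleGraph V₁} {ρ₁ : Fin k → V₁} {C : SimpleGraph W}
  {α : Fin k → W} {G : SimpleGraph V} {f₁ : V₁ → V} {f₂ : W → V}

/-- adjacency inside the first part -/
theorem adj_of_nonroot (hg : IsGlue G₁ ρ₁ C α G f₁ f₂) {a : V₁} {y : V}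
    (ha : ∀ i, a ≠ ρ₁ i) (h : G.Adj (f₁ a) y) : ∃ b, G₁.Adj a b ∧ f₁ b = y := by
  rcases hg.adj _ _ h with ⟨a', b, hab, h1, h2⟩ | ⟨a', b, _, h1, _⟩
  · rw [← hg.inj₁ h1]
    exact ⟨b, hab, h2⟩
  · obtain ⟨i, hi, _⟩ := hg.inter a a' h1.symm
    exact absurd hi (ha i)

/-- a vertex of the first part of a connected set is joined inside the first part to a root, or
the set lies in the first part and has no roots -/
theorem reach_root (hg : IsGlue G₁ ρ₁ C α G f₁ f₂) {B : Set V} {a : V₁} {y : V}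
    (h : RIn G B (f₁ a) y) :
    (∃ i, f₁ (ρ₁ i) ∈ B ∧ RIn G₁ (f₁ ⁻¹' B) a (ρ₁ i)) ∨
      ∃ b, f₁ b = y ∧ RIn G₁ (f₁ ⁻¹' B) a b := by
  induction h with
  | refl => exact Or.inr ⟨a, rfl, RIn.refl _ _ _⟩
  | @tail y z _ hbc ih =>
    rcases ih with ih | ⟨b, hb, hab⟩
    · exact Or.inl ih
    · by_cases hr : ∃ i, b = ρ₁ i
      · obtain ⟨i, rfl⟩ := hr
        exact Or.inl ⟨i, by rw [hb]; exact hbc.2.1, hab⟩
      · have hr' : ∀ i, b ≠ ρ₁ i := fun i hi => hr ⟨i, hi⟩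
        have h1 := hbc.1
        rw [← hb] at h1
        obtain ⟨c, hbc', hc⟩ := adj_of_nonroot hg hr' h1
        refine Or.inr ⟨c, hc, hab.tail hbc' ?_ ?_⟩
        · show f₁ b ∈ B
          rw [hb]; exact hbc.2.1
        · show f₁ c ∈ B
          rw [hc]; exact hbc.2.2

end Glue

end Info

open Info

/-! #### Replacement -/

theorem replacement {k k' h : ℕ} {V₁ V₁' W V V' : Type} [Finite V₁] {G₁ : SimpleGraph V₁}
    {ρ₁ : Fin k → V₁} {G₁' : SimpleGraph V₁'} {ρ₁' : Fin k → V₁'} {C : SimpleGraph W}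
    {α : Fin k → W} {G : SimpleGraph V} {f₁ : V₁ → V} {f₂ : W → V} {G' : SimpleGraph V'}
    {f₁' : V₁' → V'} {f₂' : W → V'} (hα : Function.Injective α)
    (hg : IsGlue G₁ ρ₁ C α G f₁ f₂)
    (hg' : IsGlue G₁' ρ₁' C α G' f₁' f₂') (β : Fin k' → W)
    (hinfo : info h G₁ ρ₁ ⊆ info h G₁' ρ₁') :
    info h G (f₂ ∘ β) ⊆ info h G' (f₂' ∘ β) := by
  classical
  rintro ⟨J, R⟩ ⟨B, hBr, hBj, hBe, hBd, hBt⟩
  have hρ : Function.Injective ρ₁ := by
    intro i j hij
    apply hα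
    apply hg.inj₂
    rw [← hg.root, ← hg.root, hij]
  -- every index with nonempty branch set is connected
  have hBc : ∀ x, (B x).Nonempty → Conn G (B x) := by
    rintro (i | j) hx
    · exact (hBr i).1
    · by_cases hj : j ∈ J
      · exact hBj j hj
      · rw [hBe j hj] at hx
        exact absurd hx (by simp)
  -- uniqueness
  have huniq : ∀ x y v, v ∈ B x → v ∈ B y → x = y := by
    intro x y v hx hy
    by_contra hne
    exact Set.disjoint_left.1 (hBd x y hne) hx hy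
  -- the Voronoi partitions
  have hvor : ∀ x, (∃ i, f₁ (ρ₁ i) ∈ B x) → ∃ Wx : V₁ → Set V₁,
      (∀ i, f₁ (ρ₁ i) ∈ B x → Conn G₁ (Wx (ρ₁ i)) ∧ ρ₁ i ∈ Wx (ρ₁ i) ∧
        Wx (ρ₁ i) ⊆ f₁ ⁻¹' (B x)) ∧
      (∀ i i', f₁ (ρ₁ i) ∈ B x → f₁ (ρ₁ i') ∈ B x → i ≠ i' →
        Disjoint (Wx (ρ₁ i)) (Wx (ρ₁ i'))) ∧
      ∀ a, f₁ a ∈ B x → ∃ i, f₁ (ρ₁ i) ∈ B x ∧ a ∈ Wx (ρ₁ i) := by
    rintro x ⟨i0, hi0⟩
    obtain ⟨Wx, h1, h2, h3⟩ := exists_voronoi (G := G₁) (K := f₁ ⁻¹' (B x))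
      (D := {d | ∃ i, f₁ (ρ₁ i) ∈ B x ∧ ρ₁ i = d}) (Set.toFinite _)
      (by rintro _ ⟨i, hi, rfl⟩; exact hi)
      (by
        intro a ha
        have hr := (hBc x ⟨_, ha⟩).2 _ ha _ hi0
        rcases reach_root hg hr with ⟨i, hi, hai⟩ | ⟨b, hb, hab⟩
        · exact ⟨ρ₁ i, ⟨i, hi, rfl⟩, hai.symm⟩
        · rw [hg.inj₁ hb] at hab
          exact ⟨ρ₁ i0, ⟨i0, hi0, rfl⟩, hab.symm⟩)
    refine ⟨Wx, fun i hi => h1 _ ⟨i, hi, rfl⟩, fun i i' hi hi' hne =>
      h2 _ ⟨i, hi, rfl⟩ _ ⟨i', hi', rfl⟩ (fun h => hne (hρ h)), fun a ha => ?_⟩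
    obtain ⟨d, ⟨i, hi, rfl⟩, had⟩ := h3 a ha
    exact ⟨i, hi, had⟩
  choose! Wx hW1 hW2 hW3 using hvor
  -- indices of sets inside the first part
  let J1 : Set (Fin h) := {j | (B (Sum.inr j)).Nonempty ∧
    ∀ v ∈ B (Sum.inr j), ∃ a, f₁ a = v ∧ ∀ i, a ≠ ρ₁ i}
  -- model in the first graph
  let B1 : Fin k ⊕ Fin h → Set V₁ := fun X => match X with
    | Sum.inl i => if hx : ∃ x, f₁ (ρ₁ i) ∈ B x then Wx hx.choose (ρ₁ i) else {ρ₁ i}
    | Sum.inr j => if j ∈ J1 then f₁ ⁻¹' (B (Sum.inr j)) else ∅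
  have hB1l : ∀ i x, f₁ (ρ₁ i) ∈ B x → B1 (Sum.inl i) = Wx x (ρ₁ i) := by
    intro i x hx
    have hx' : ∃ x, f₁ (ρ₁ i) ∈ B x := ⟨x, hx⟩
    simp only [B1, hx', dif_pos]
    rw [huniq _ _ _ hx'.choose_spec hx]
  have hB1l' : ∀ i, (¬ ∃ x, f₁ (ρ₁ i) ∈ B x) → B1 (Sum.inl i) = {ρ₁ i} := by
    intro i hx
    simp only [B1, hx, dif_neg, not_false_iff]
  have hB1r : ∀ j, j ∈ J1 → B1 (Sum.inr j) = f₁ ⁻¹' (B (Sum.inr j)) := by
    intro j hj
    simp only [B1, hj, if_true]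
  have hB1r' : ∀ j, j ∉ J1 → B1 (Sum.inr j) = ∅ := by
    intro j hj
    simp only [B1, hj, if_false]
  -- pieces of an index
  let Pc : Fin k' ⊕ Fin h → Fin k ⊕ Fin h → Prop := fun x X => match X with
    | Sum.inl i => f₁ (ρ₁ i) ∈ B x
    | Sum.inr j => x = Sum.inr j ∧ j ∈ J1
  have hP_sub : ∀ x X, Pc x X → ∀ a ∈ B1 X, f₁ a ∈ B x := by
    rintro x (i | j) hP a ha
    · rw [hB1l i x hP] at ha
      exact (hW1 x ⟨i, hP⟩ i hP).2.2 ha
    · obtain ⟨rfl, hj⟩ := hP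
      rw [hB1r j hj] at ha
      exact ha
  have hP_ex : ∀ x a, f₁ a ∈ B x → ∃ X, Pc x X ∧ a ∈ B1 X := by
    intro x a ha
    by_cases hr : ∃ i, f₁ (ρ₁ i) ∈ B x
    · obtain ⟨i, hi, hai⟩ := hW3 x hr a ha
      exact ⟨Sum.inl i, hi, by rw [hB1l i x hi]; exact hai⟩
    · have hall : ∀ v ∈ B x, ∃ b, f₁ b = v ∧ ∀ i, b ≠ ρ₁ i := by
        intro v hv
        have hrv := (hBc x ⟨_, ha⟩).2 _ ha _ hv
        rcases reach_root hg hrv with ⟨i, hi, _⟩ | ⟨b, hb, _⟩
        · exact absurd ⟨i, hi⟩ hr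
        · exact ⟨b, hb, fun i hi => hr ⟨i, by rw [← hi, hb]; exact hv⟩⟩
      rcases x with i | j
      · obtain ⟨b, hb, hb'⟩ := hall _ (hBr i).2
        obtain ⟨i', hi', _⟩ := hg.inter b (β i) hb
        exact absurd hi' (hb' i')
      · have hj : j ∈ J1 := ⟨⟨_, ha⟩, hall⟩
        exact ⟨Sum.inr j, ⟨rfl, hj⟩, by rw [hB1r j hj]; exact ha⟩
  have hP_uniq : ∀ x y X, Pc x X → Pc y X → x = y := by
    rintro x y (i | j) hx hy
    · exact huniq _ _ _ hx hy
    · exact hx.1.trans hy.1.symm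
  -- properties of the model B1
  have hB1conn : ∀ i, Conn G₁ (B1 (Sum.inl i)) ∧ ρ₁ i ∈ B1 (Sum.inl i) := by
    intro i
    by_cases hx : ∃ x, f₁ (ρ₁ i) ∈ B x
    · obtain ⟨x, hx⟩ := hx
      rw [hB1l i x hx]
      exact ⟨(hW1 x ⟨i, hx⟩ i hx).1, (hW1 x ⟨i, hx⟩ i hx).2.1⟩
    · rw [hB1l' i hx]
      exact ⟨conn_singleton _ _, rfl⟩
  have hB1connr : ∀ j ∈ J1, Conn G₁ (B1 (Sum.inr j)) := by
    intro j hj
    rw [hB1r j hj]
    obtain ⟨v, hv⟩ := hj.1
    obtain ⟨a, ha, _⟩ := hj.2 v hv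
    refine conn_of_reach (x := a) (show f₁ a ∈ B (Sum.inr j) by rw [ha]; exact hv) ?_
    intro b hb
    have hr := (hBc (Sum.inr j) hj.1).2 v hv _ hb
    rw [← ha] at hr
    rcases reach_root hg hr with ⟨i, hi, _⟩ | ⟨c, hc, hac⟩
    · obtain ⟨c, hc, hc'⟩ := hj.2 _ hi
      exact absurd (hg.inj₁ hc) (hc' i)
    · rw [← hg.inj₁ hc]
      exact hac
  have hB1own : ∀ X a, a ∈ B1 X → (∃ x, Pc x X) ∨ ∃ i, X = Sum.inl i ∧ a = ρ₁ i := by
    rintro (i | j) a ha
    · by_cases hx : ∃ x, f₁ (ρ₁ i) ∈ B x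
      · obtain ⟨x, hx⟩ := hx
        exact Or.inl ⟨x, hx⟩
      · rw [hB1l' i hx] at ha
        exact Or.inr ⟨i, rfl, ha⟩
    · by_cases hj : j ∈ J1
      · exact Or.inl ⟨Sum.inr j, rfl, hj⟩
      · rw [hB1r' j hj] at ha
        exact absurd ha (by simp)
  have hB1disj : ∀ X Y, X ≠ Y → Disjoint (B1 X) (B1 Y) := by
    have key : ∀ X Y a x, X ≠ Y → Pc x X → a ∈ B1 X → a ∈ B1 Y → False := by
      intro X Y a x hne hX haX haY
      have hax := hP_sub x X hX a haX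
      rcases hB1own Y a haY with ⟨y, hY⟩ | ⟨i, rfl, rfl⟩
      · have hay := hP_sub y Y hY a haY
        have hxy := huniq x y _ hax hay
        subst hxy
        rcases X with i | j <;> rcases Y with i' | j'
        · have hii : i ≠ i' := fun h => hne (by rw [h])
          rw [hB1l i x hX] at haX
          rw [hB1l i' x hY] at haY
          exact Set.disjoint_left.1 (hW2 x ⟨i, hX⟩ i i' hX hY hii) haX haY
        · obtain ⟨rfl, hj'⟩ := hY
          obtain ⟨b, hb, hb'⟩ := hj'.2 _ hX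
          exact hb' i (hg.inj₁ hb)
        · obtain ⟨rfl, hj⟩ := hX
          obtain ⟨b, hb, hb'⟩ := hj.2 _ hY
          exact hb' i' (hg.inj₁ hb)
        · have h1 := hX.1.symm.trans hY.1
          exact hne (by rw [Sum.inr.inj h1])
      · -- a is a root
        have hY : Pc x (Sum.inl i) := hax
        rcases X with i' | j
        · have hii : i' ≠ i := fun h => hne (by rw [h])
          rw [hB1l i' x hX] at haX
          rw [hB1l i x hY] at haY
          exact Set.disjoint_left.1 (hW2 x ⟨i', hX⟩ i' i hX hY hii) haX haY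
        · obtain ⟨rfl, hj⟩ := hX
          obtain ⟨b, hb, hb'⟩ := hj.2 _ hax
          exact hb' i (hg.inj₁ hb)
    intro X Y hne
    rw [Set.disjoint_left]
    intro a haX haY
    rcases hB1own X a haX with ⟨x, hX⟩ | ⟨i, rfl, rfl⟩
    · exact key X Y a x hne hX haX haY
    · rcases hB1own Y _ haY with ⟨y, hY⟩ | ⟨i', rfl, hi'⟩
      · exact key Y _ _ y hne.symm hY haY haX
      · exact hne (by rw [hρ hi'])
  -- transfer
  have hreal : ((J1, fun X Y => Touch G₁ (B1 X) (B1 Y)) :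
      Set (Fin h) × (Fin k ⊕ Fin h → Fin k ⊕ Fin h → Prop)) ∈ info h G₁ ρ₁ :=
    ⟨B1, hB1conn, hB1connr, hB1r', hB1disj, fun X Y _ h => h⟩
  obtain ⟨B1', hr', hj', he', hd', ht'⟩ := hinfo hreal
  dsimp only at hj' he' ht'
  -- connectivity and nonemptiness of used pieces
  have hB1'conn : ∀ x X, Pc x X → Conn G₁' (B1' X) := by
    rintro x (i | j) hP
    · exact (hr' i).1
    · exact hj' j hP.2
  have hB1ne : ∀ x X, Pc x X → (B1 X).Nonempty := by
    rintro x (i | j) hP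
    · exact ⟨_, (hB1conn i).2⟩
    · exact (hB1connr j hP.2).1
  -- new model
  let B' : Fin k' ⊕ Fin h → Set V' := fun x =>
    {v | (∃ w, f₂ w ∈ B x ∧ f₂' w = v) ∨ ∃ X, Pc x X ∧ ∃ b ∈ B1' X, f₁' b = v}
  have hB'2 : ∀ x w, f₂ w ∈ B x → f₂' w ∈ B' x := fun x w hw => Or.inl ⟨w, hw, rfl⟩
  have hB'1 : ∀ x X b, Pc x X → b ∈ B1' X → f₁' b ∈ B' x :=
    fun x X b hX hb => Or.inr ⟨X, hX, b, hb, rfl⟩
  -- connectivity
  have hconn : ∀ x, (B x).Nonempty → Conn G' (B' x) := by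
    intro x hx
    have hBx := hBc x hx
    -- sets attached to the vertices
    let Xs : V → Set V' := fun v =>
      {v' | (∃ w, f₂ w = v ∧ f₂' w = v') ∨ ∃ X, Pc x X ∧ (∃ a ∈ B1 X, f₁ a = v) ∧
        ∃ b ∈ B1' X, f₁' b = v'}
    have hXs : B' x = ⋃ v ∈ B x, Xs v := by
      ext v'
      rw [mem_iUnion₂]
      constructor
      · rintro (⟨w, hw, hw'⟩ | ⟨X, hX, b, hb, hb'⟩)
        · exact ⟨f₂ w, hw, Or.inl ⟨w, rfl, hw'⟩⟩
        · obtain ⟨a, ha⟩ := hB1ne x X hX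
          exact ⟨f₁ a, hP_sub x X hX a ha, Or.inr ⟨X, hX, ⟨a, ha, rfl⟩, b, hb, hb'⟩⟩
      · rintro ⟨v, hv, (⟨w, hw, hw'⟩ | ⟨X, hX, _, b, hb, hb'⟩)⟩
        · exact Or.inl ⟨w, by rw [hw]; exact hv, hw'⟩
        · exact Or.inr ⟨X, hX, b, hb, hb'⟩
    rw [hXs]
    have hX1 : ∀ v ∈ B x, ∀ X a, Pc x X → a ∈ B1 X → f₁ a = v → Xs v = f₁' '' (B1' X) := by
      intro v hv X a hX ha hav
      ext v'
      constructor
      · rintro (⟨w, hw, hw'⟩ | ⟨Y, hY, ⟨b, hb, hbv⟩, c, hc, hc'⟩)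
        · obtain ⟨i, hi, hi'⟩ := hg.inter a w (by rw [hav, hw])
          subst hi hi'
          have hPi : Pc x (Sum.inl i) := by
            show f₁ (ρ₁ i) ∈ B x
            rw [hav]; exact hv
          have hXi : X = Sum.inl i := by
            by_contra hne
            exact Set.disjoint_left.1 (hB1disj _ _ hne) ha (hB1conn i).2
          subst hXi
          exact ⟨ρ₁' i, (hr' i).2, by rw [hg'.root, hw']⟩
        · have hba : b = a := hg.inj₁ (by rw [hbv, hav])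
          subst hba
          have hXY : X = Y := by
            by_contra hne
            exact Set.disjoint_left.1 (hB1disj _ _ hne) ha hb
          subst hXY
          exact ⟨c, hc, hc'⟩
      · rintro ⟨b, hb, hb'⟩
        exact Or.inr ⟨X, hX, ⟨a, ha, hav⟩, b, hb, hb'⟩
    have hX2 : ∀ v ∈ B x, ∀ w, f₂ w = v → (¬ ∃ a, f₁ a = v) → Xs v = {f₂' w} := by
      intro v hv w hw hno
      ext v'
      constructor
      · rintro (⟨w', hw', hw''⟩ | ⟨Y, hY, ⟨b, hb, hbv⟩, _⟩)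
        · rw [hg.inj₂ (hw'.trans hw.symm)] at hw''
          exact hw''.symm
        · exact absurd ⟨b, hbv⟩ hno
      · intro hv'
        rw [mem_singleton_iff] at hv'
        exact Or.inl ⟨w, hw, hv'.symm⟩
    have hXc : ∀ v ∈ B x, Conn G' (Xs v) := by
      intro v hv
      by_cases ha : ∃ a, f₁ a = v
      · obtain ⟨a, hav⟩ := ha
        obtain ⟨X, hX, haX⟩ := hP_ex x a (by rw [hav]; exact hv)
        rw [hX1 v hv X a hX haX hav]
        exact conn_map f₁' hg'.adj₁ (hB1'conn x X hX)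
      · rcases hg.cover v with ⟨a, hav⟩ | ⟨w, hw⟩
        · exact absurd ⟨a, hav⟩ ha
        · rw [hX2 v hv w hw ha]
          exact conn_singleton _ _
    refine Conn.lift hBx hXc ?_
    intro v hv v' hv' hadj
    rcases hg.adj v v' hadj with ⟨a, b, hab, ha, hb⟩ | ⟨a, b, hab, ha, hb⟩
    · obtain ⟨X, hX, haX⟩ := hP_ex x a (by rw [ha]; exact hv)
      obtain ⟨Y, hY, hbY⟩ := hP_ex x b (by rw [hb]; exact hv')
      rw [hX1 v hv X a hX haX ha, hX1 v' hv' Y b hY hbY hb]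
      by_cases hXY : X = Y
      · subst hXY
        right
        rw [inter_self]
        exact (hB1'conn x X hX).1.image _
      · left
        exact touch_map f₁' hg'.adj₁ (ht' X Y hXY ⟨a, haX, b, hbY, hab⟩)
    · left
      exact ⟨f₂' a, Or.inl ⟨a, ha, rfl⟩, f₂' b, Or.inl ⟨b, hb, rfl⟩, hg'.adj₂ _ _ hab⟩
  -- disjointness
  have hdisj : ∀ x y, x ≠ y → Disjoint (B' x) (B' y) := by
    have mixed : ∀ x y w X b, x ≠ y → f₂ w ∈ B x → Pc y X → b ∈ B1' X → f₂' w = f₁' b →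
        False := by
      intro x y w X b hne hw hX hb hwb
      obtain ⟨i, hi, hi'⟩ := hg'.inter b w hwb.symm
      subst hi hi'
      have hXi : X = Sum.inl i := by
        by_contra hne
        exact Set.disjoint_left.1 (hd' _ _ hne) hb (hr' i).2
      subst hXi
      have h1 : f₁ (ρ₁ i) ∈ B y := hX
      rw [hg.root] at h1
      exact hne (huniq _ _ _ hw h1)
    intro x y hne
    rw [Set.disjoint_left]
    rintro v (⟨w, hw, hwv⟩ | ⟨X, hX, b, hb, hbv⟩) (⟨w', hw', hwv'⟩ | ⟨Y, hY, c, hc, hcv⟩)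
    · have h1 : w = w' := hg'.inj₂ (hwv.trans hwv'.symm)
      subst h1
      exact hne (huniq _ _ _ hw hw')
    · exact mixed x y w Y c hne hw hY hc (hwv.trans hcv.symm)
    · exact mixed y x w' X b hne.symm hw' hX hb (hwv'.trans hbv.symm)
    · have h1 : b = c := hg'.inj₁ (hbv.trans hcv.symm)
      subst h1
      by_cases hXY : X = Y
      · subst hXY
        exact hne (hP_uniq x y X hX hY)
      · exact Set.disjoint_left.1 (hd' X Y hXY) hb hc
  refine ⟨B', fun i => ⟨hconn _ (hBr i).1.1, hB'2 _ _ (hBr i).2⟩,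
    fun j hj => hconn _ (hBj j hj).1, fun j hj => ?_, hdisj, fun x y hne hxy => ?_⟩
  · -- empty sets
    have hBj0 : B (Sum.inr j) = ∅ := hBe j hj
    ext v
    constructor
    · rintro (⟨w, hw, _⟩ | ⟨X, hX, b, hb, _⟩)
      · rw [hBj0] at hw; exact hw
      · obtain ⟨a, ha⟩ := hB1ne _ X hX
        have := hP_sub _ X hX a ha
        rw [hBj0] at this
        exact absurd this (by simp)
    · intro hv; exact absurd hv (by simp)
  · -- touching
    obtain ⟨v, hv, v', hv', hadj⟩ := hBt x y hne hxy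
    rcases hg.adj v v' hadj with ⟨a, b, hab, ha, hb⟩ | ⟨a, b, hab, ha, hb⟩
    · obtain ⟨X, hX, haX⟩ := hP_ex x a (by rw [ha]; exact hv)
      obtain ⟨Y, hY, hbY⟩ := hP_ex y b (by rw [hb]; exact hv')
      have hXY : X ≠ Y := fun h => hne (hP_uniq x y X hX (h ▸ hY))
      obtain ⟨c, hc, d, hd, hcd⟩ := ht' X Y hXY ⟨a, haX, b, hbY, hab⟩
      exact ⟨f₁' c, hB'1 x X c hX hc, f₁' d, hB'1 y Y d hY hd, hg'.adj₁ _ _ hcd⟩
    · exact ⟨f₂' a, hB'2 x a (by rw [ha]; exact hv), f₂' b, hB'2 y b (by rw [hb]; exact hv'),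
        hg'.adj₂ _ _ hab⟩

/-- number of minor types of rooted graphs with `q` roots -/
def inB (q h : ℕ) : ℕ := 2 ^ (2 ^ h * 2 ^ ((q + h) * (q + h)))

namespace Info

instance finite_int {k : ℕ} : (t : Term k) → Finite t.Int
  | .nil => (inferInstance : Finite Empty)
  | .drop _ _ t => by
    have := finite_int t
    exact (inferInstance : Finite (Option t.Int))
  | .join t₁ t₂ => by
    have := finite_int t₁
    have := finite_int t₂
    exact (inferInstance : Finite (t₁.Int ⊕ t₂.Int))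

/-- the graph on the slots and one new vertex -/
def dropC {k : ℕ} (i : Fin k) (S : Finset (Fin k)) : SimpleGraph (Option (Fin k)) where
  Adj x y := match x, y with
    | none, none => False
    | none, some j => j ∈ S ∧ j ≠ i
    | some j, none => j ∈ S ∧ j ≠ i
    | some _, some _ => False
  symm := ⟨fun x y h => by
    match x, y with
    | none, none => exact h
    | none, some j => exact h
    | some j, none => exact h
    | some _, some _ => exact h⟩
  loopless := ⟨fun x h => by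
    match x with
    | none => exact h
    | some _ => exact h⟩

/-- embedding of the graph of a term into the graph after dropping slot `i` -/
def dropF {k : ℕ} (i : Fin k) (S : Finset (Fin k)) (t : Term k) :
    Fin k ⊕ t.Int → Fin k ⊕ (Term.drop i S t).Int
  | Sum.inl j => if j = i then Sum.inr none else Sum.inl j
  | Sum.inr y => Sum.inr (some y)

/-- embedding of the slots and the new vertex -/
def dropF2 {k : ℕ} (i : Fin k) (S : Finset (Fin k)) (t : Term k) :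
    Option (Fin k) → Fin k ⊕ (Term.drop i S t).Int
  | none => Sum.inr none
  | some j => Sum.inl j

theorem glue_drop {k : ℕ} (i : Fin k) (S : Finset (Fin k)) (t : Term k) :
    IsGlue t.graph (Sum.inl : Fin k → Fin k ⊕ t.Int) (dropC i S)
      (fun j => if j = i then none else some j) (Term.drop i S t).graph (dropF i S t)
      (dropF2 i S t) where
  inj₁ := by
    rintro (a | a) (b | b) h
    · simp only [dropF] at h
      split_ifs at h with h1 h2
      · rw [h1, h2]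
      · simpa using h
    · simp only [dropF] at h
      split_ifs at h
      exact absurd (Sum.inr.inj h) (by simp)
    · simp only [dropF] at h
      split_ifs at h
      exact absurd (Sum.inr.inj h) (by simp)
    · simp only [dropF] at h
      have := Option.some.inj (Sum.inr.inj h)
      rw [this]
  inj₂ := by
    rintro (_ | a) (_ | b) h
    · rfl
    · exact absurd h (by simp [dropF2])
    · exact absurd h (by simp [dropF2])
    · have := Sum.inl.inj h
      rw [this]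
  root := by
    intro j
    by_cases h : j = i <;> simp [dropF, dropF2, h]
  inter := by
    rintro (a | a) (_ | b) h
    · simp only [dropF, dropF2] at h
      split_ifs at h with h1
      exact ⟨i, by rw [h1], by simp⟩
    · simp only [dropF, dropF2] at h
      split_ifs at h with h1
      have := Sum.inl.inj h
      exact ⟨a, rfl, by simp [h1, ← this]⟩
    · exact absurd (Sum.inr.inj h) (by simp)
    · exact absurd h (by simp [dropF, dropF2])
  cover := by
    rintro (j | (_ | y))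
    · exact Or.inr ⟨some j, rfl⟩
    · exact Or.inr ⟨none, rfl⟩
    · exact Or.inl ⟨Sum.inr y, rfl⟩
  adj₁ := by
    rintro (a | a) (b | b) h
    · exact h.elim
    · simp only [dropF]
      split_ifs with h1
      · subst h1; exact h
      · exact ⟨h, h1⟩
    · simp only [dropF]
      split_ifs with h1
      · subst h1; exact h
      · exact ⟨h, h1⟩
    · exact h
  adj₂ := by
    rintro (_ | a) (_ | b) h
    · exact h.elim
    · exact h
    · exact h
    · exact h.elim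
  adj := by
    rintro (a | (_ | a)) (b | (_ | b)) h
    · exact h.elim
    · exact Or.inr ⟨some a, none, h, rfl, rfl⟩
    · refine Or.inl ⟨Sum.inl a, Sum.inr b, h.1, ?_, rfl⟩
      simp [dropF, h.2]
    · exact Or.inr ⟨none, some b, h, rfl, rfl⟩
    · exact h.elim
    · refine Or.inl ⟨Sum.inl i, Sum.inr b, h, ?_, rfl⟩
      simp [dropF]
    · refine Or.inl ⟨Sum.inr a, Sum.inl b, h.1, rfl, ?_⟩
      simp [dropF, h.2]
    · refine Or.inl ⟨Sum.inr a, Sum.inl i, h, rfl, ?_⟩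
      simp [dropF]
    · exact Or.inl ⟨Sum.inr a, Sum.inr b, h, rfl, rfl⟩

/-- embedding of the first term of a join -/
def joinF1 {k : ℕ} (t₁ t₂ : Term k) : Fin k ⊕ t₁.Int → Fin k ⊕ (Term.join t₁ t₂).Int
  | Sum.inl j => Sum.inl j
  | Sum.inr y => Sum.inr (Sum.inl y)

/-- embedding of the second term of a join -/
def joinF2 {k : ℕ} (t₁ t₂ : Term k) : Fin k ⊕ t₂.Int → Fin k ⊕ (Term.join t₁ t₂).Int
  | Sum.inl j => Sum.inl j
  | Sum.inr y => Sum.inr (Sum.inr y)

theorem joinF1_inj {k : ℕ} (t₁ t₂ : Term k) : Function.Injective (joinF1 t₁ t₂) := by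
  rintro (a | a) (b | b) h
  · exact congrArg Sum.inl (Sum.inl.inj h)
  · exact absurd h (by simp [joinF1])
  · exact absurd h (by simp [joinF1])
  · exact congrArg Sum.inr (Sum.inl.inj (Sum.inr.inj h))

theorem joinF2_inj {k : ℕ} (t₁ t₂ : Term k) : Function.Injective (joinF2 t₁ t₂) := by
  rintro (a | a) (b | b) h
  · exact congrArg Sum.inl (Sum.inl.inj h)
  · exact absurd h (by simp [joinF2])
  · exact absurd h (by simp [joinF2])
  · exact congrArg Sum.inr (Sum.inr.inj (Sum.inr.inj h))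

theorem join_inter {k : ℕ} (t₁ t₂ : Term k) (x : Fin k ⊕ t₁.Int) (y : Fin k ⊕ t₂.Int)
    (h : joinF1 t₁ t₂ x = joinF2 t₁ t₂ y) : ∃ i, x = Sum.inl i ∧ y = Sum.inl i := by
  rcases x with a | a <;> rcases y with b | b
  · have := Sum.inl.inj h
    exact ⟨a, rfl, by rw [this]⟩
  · exact absurd h (by simp [joinF1, joinF2])
  · exact absurd h (by simp [joinF1, joinF2])
  · exact absurd (Sum.inr.inj h) (by simp)

theorem join_adj {k : ℕ} (t₁ t₂ : Term k) (x y) (h : (Term.join t₁ t₂).graph.Adj x y) :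
    (∃ a b, t₁.graph.Adj a b ∧ joinF1 t₁ t₂ a = x ∧ joinF1 t₁ t₂ b = y) ∨
    (∃ a b, t₂.graph.Adj a b ∧ joinF2 t₁ t₂ a = x ∧ joinF2 t₁ t₂ b = y) := by
  rcases x with a | (a | a) <;> rcases y with b | (b | b)
  · exact h.elim
  · exact Or.inl ⟨Sum.inl a, Sum.inr b, h, rfl, rfl⟩
  · exact Or.inr ⟨Sum.inl a, Sum.inr b, h, rfl, rfl⟩
  · exact Or.inl ⟨Sum.inr a, Sum.inl b, h, rfl, rfl⟩
  · exact Or.inl ⟨Sum.inr a, Sum.inr b, h, rfl, rfl⟩
  · exact h.elim
  · exact Or.inr ⟨Sum.inr a, Sum.inl b, h, rfl, rfl⟩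
  · exact h.elim
  · exact Or.inr ⟨Sum.inr a, Sum.inr b, h, rfl, rfl⟩

theorem join_adj1 {k : ℕ} (t₁ t₂ : Term k) (a b) (h : t₁.graph.Adj a b) :
    (Term.join t₁ t₂).graph.Adj (joinF1 t₁ t₂ a) (joinF1 t₁ t₂ b) := by
  rcases a with a | a <;> rcases b with b | b <;> exact h

theorem join_adj2 {k : ℕ} (t₁ t₂ : Term k) (a b) (h : t₂.graph.Adj a b) :
    (Term.join t₁ t₂).graph.Adj (joinF2 t₁ t₂ a) (joinF2 t₁ t₂ b) := by
  rcases a with a | a <;> rcases b with b | b <;> exact h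

theorem join_cover {k : ℕ} (t₁ t₂ : Term k) (v) :
    (∃ x, joinF1 t₁ t₂ x = v) ∨ ∃ y, joinF2 t₁ t₂ y = v := by
  rcases v with a | (a | a)
  · exact Or.inl ⟨Sum.inl a, rfl⟩
  · exact Or.inl ⟨Sum.inr a, rfl⟩
  · exact Or.inr ⟨Sum.inr a, rfl⟩

theorem glue_join1 {k : ℕ} (t₁ t₂ : Term k) :
    IsGlue t₁.graph (Sum.inl : Fin k → Fin k ⊕ t₁.Int) t₂.graph
      (Sum.inl : Fin k → Fin k ⊕ t₂.Int) (Term.join t₁ t₂).graph (joinF1 t₁ t₂)
      (joinF2 t₁ t₂) where
  inj₁ := joinF1_inj t₁ t₂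
  inj₂ := joinF2_inj t₁ t₂
  root := fun _ => rfl
  inter := join_inter t₁ t₂
  cover := join_cover t₁ t₂
  adj₁ := join_adj1 t₁ t₂
  adj₂ := join_adj2 t₁ t₂
  adj := join_adj t₁ t₂

theorem glue_join2 {k : ℕ} (t₁ t₂ : Term k) :
    IsGlue t₂.graph (Sum.inl : Fin k → Fin k ⊕ t₂.Int) t₁.graph
      (Sum.inl : Fin k → Fin k ⊕ t₁.Int) (Term.join t₁ t₂).graph (joinF2 t₁ t₂)
      (joinF1 t₁ t₂) where
  inj₁ := joinF2_inj t₁ t₂
  inj₂ := joinF1_inj t₁ t₂
  root := fun _ => rfl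
  inter := fun x y h => by
    obtain ⟨i, h1, h2⟩ := join_inter t₁ t₂ y x h.symm
    exact ⟨i, h2, h1⟩
  cover := fun v => (join_cover t₁ t₂ v).symm
  adj₁ := join_adj2 t₁ t₂
  adj₂ := join_adj1 t₁ t₂
  adj := fun x y h => (join_adj t₁ t₂ x y h).symm

theorem drop_le {k h : ℕ} (i : Fin k) (S : Finset (Fin k)) (t t' : Term k)
    (h1 : t.tinfo h ⊆ t'.tinfo h) :
    (Term.drop i S t).tinfo h ⊆ (Term.drop i S t').tinfo h := by
  have hα : Function.Injective (fun j : Fin k => if j = i then none else some j) := by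
    intro a b hab
    by_cases ha : a = i <;> by_cases hb : b = i
    · rw [ha, hb]
    · simp [ha, hb] at hab
    · simp [ha, hb] at hab
    · simpa [ha, hb] using hab
  exact replacement hα (glue_drop i S t) (glue_drop i S t') (fun j : Fin k => some j) h1

theorem join_le1 {k h : ℕ} (t₁ t₂ t₁' : Term k) (h1 : t₁.tinfo h ⊆ t₁'.tinfo h) :
    (Term.join t₁ t₂).tinfo h ⊆ (Term.join t₁' t₂).tinfo h :=
  replacement Sum.inl_injective (glue_join1 t₁ t₂) (glue_join1 t₁' t₂)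
    (Sum.inl : Fin k → Fin k ⊕ t₂.Int) h1

theorem join_le2 {k h : ℕ} (t₁ t₂ t₂' : Term k) (h1 : t₂.tinfo h ⊆ t₂'.tinfo h) :
    (Term.join t₁ t₂).tinfo h ⊆ (Term.join t₁ t₂').tinfo h :=
  replacement Sum.inl_injective (glue_join2 t₁ t₂) (glue_join2 t₁ t₂')
    (Sum.inl : Fin k → Fin k ⊕ t₁.Int) h1

end Info

theorem tinfo_drop {k h : ℕ} (i : Fin k) (S : Finset (Fin k)) (t t' : Term k)
    (h1 : t.tinfo h = t'.tinfo h) :
    (Term.drop i S t).tinfo h = (Term.drop i S t').tinfo h :=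
  Subset.antisymm (drop_le i S t t' h1.le) (drop_le i S t' t h1.ge)

theorem tinfo_join {k h : ℕ} (t₁ t₂ t₁' t₂' : Term k)
    (h1 : t₁.tinfo h = t₁'.tinfo h) (h2 : t₂.tinfo h = t₂'.tinfo h) :
    (Term.join t₁ t₂).tinfo h = (Term.join t₁' t₂').tinfo h :=
  Subset.antisymm ((join_le1 t₁ t₂ t₁' h1.le).trans (join_le2 t₁' t₂ t₂' h2.le))
    ((join_le1 t₁' t₂' t₁ h1.ge).trans (join_le2 t₁ t₂' t₂ h2.ge))

/-- the minor type decides membership of the graph on the interior vertices -/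
theorem inF_of_tinfo {k h : ℕ} (L : List (ℕ × List (ℕ × ℕ))) (hL : ∀ c ∈ L, c.1 ≤ h)
    (t t' : Term k) (h1 : t.tinfo h = t'.tinfo h) (h2 : InF L t.intGraph) :
    InF L t'.intGraph := by
  classical
  intro c hc ⟨B, hB, hBd, hBt⟩
  apply h2 c hc
  have hch := hL c hc
  let emb : Fin c.1 → Fin h := fun a => ⟨a, a.2.trans_le hch⟩
  have hemb : Function.Injective emb := fun a b hab => Fin.ext (by simpa [emb] using hab)
  let J : Set (Fin h) := Set.range emb
  let R : Fin k ⊕ Fin h → Fin k ⊕ Fin h → Prop := fun x y =>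
    ∃ a b, x = Sum.inr (emb a) ∧ y = Sum.inr (emb b) ∧ (gOf c).Adj a b
  let B0 : Fin k ⊕ Fin h → Set (Fin k ⊕ t'.Int) := fun x => match x with
    | Sum.inl i => {Sum.inl i}
    | Sum.inr j => if hj : ∃ a, emb a = j then Sum.inr '' (B hj.choose) else ∅
  have hB0 : ∀ a, B0 (Sum.inr (emb a)) = Sum.inr '' (B a) := by
    intro a
    have hj : ∃ b, emb b = emb a := ⟨a, rfl⟩
    simp only [B0, hj, dif_pos]
    rw [hemb hj.choose_spec]
  have hreal : ((J, R) : Set (Fin h) × (Fin k ⊕ Fin h → Fin k ⊕ Fin h → Prop)) ∈ t'.tinfo h := by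
    refine ⟨B0, fun i => ⟨conn_singleton _ _, rfl⟩, ?_, ?_, ?_, ?_⟩
    · rintro _ ⟨a, rfl⟩
      rw [hB0]
      exact conn_map Sum.inr (fun a b h => h) (hB a)
    · intro j hj
      simp only [B0]
      rw [dif_neg]
      rintro ⟨a, rfl⟩
      exact hj ⟨a, rfl⟩
    · rintro (i | j) (i' | j') hne
      · simp only [B0]
        rw [Set.disjoint_singleton]
        exact fun h => hne (by rw [Sum.inl_injective h])
      · rw [Set.disjoint_left]
        rintro x hx hx'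
        simp only [B0] at hx hx'
        split_ifs at hx' with hj
        · obtain ⟨y, _, rfl⟩ := hx'
          simp at hx
        · exact hx'
      · rw [Set.disjoint_left]
        rintro x hx hx'
        simp only [B0] at hx hx'
        split_ifs at hx with hj
        · obtain ⟨y, _, rfl⟩ := hx
          simp at hx'
        · exact hx
      · by_cases hj : ∃ a, emb a = j
        · by_cases hj' : ∃ a, emb a = j'
          · obtain ⟨a, rfl⟩ := hj
            obtain ⟨b, rfl⟩ := hj'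
            rw [hB0, hB0, Set.disjoint_image_iff Sum.inr_injective]
            exact hBd a b (fun h => hne (by rw [h]))
          · simp only [B0, hj', dif_neg, not_false_iff]
            exact Set.disjoint_empty _
        · simp only [B0, hj, dif_neg, not_false_iff]
          exact Set.empty_disjoint _
    · rintro x y _ ⟨a, b, rfl, rfl, hab⟩
      rw [hB0, hB0]
      exact touch_map Sum.inr (fun a b h => h) (hBt a b hab)
  rw [← h1] at hreal
  obtain ⟨B1, hr, hj, he, hd, ht⟩ := hreal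
  have hsub : ∀ a x, x ∈ B1 (Sum.inr (emb a)) → ∃ y, x = Sum.inr y := by
    rintro a (i | y) hx
    · exact absurd (hr i).2 (Set.disjoint_left.1 (hd _ _ (by simp)) hx)
    · exact ⟨y, rfl⟩
  refine ⟨fun a => Sum.inr ⁻¹' (B1 (Sum.inr (emb a))), fun a => ?_, fun a b hab => ?_,
    fun a b hab => ?_⟩
  · have hc := hj (emb a) ⟨a, rfl⟩
    obtain ⟨x0, hx0⟩ := hc.1
    obtain ⟨y0, rfl⟩ := hsub a x0 hx0
    refine conn_of_reach (x := y0) hx0 ?_
    intro y hy
    have hreach := hc.2 _ hx0 _ hy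
    have key : ∃ z, (Sum.inr y : Fin k ⊕ t.Int) = Sum.inr z ∧
        RIn t.intGraph (Sum.inr ⁻¹' (B1 (Sum.inr (emb a)))) y0 z := by
      refine RIn.closed (P := fun x => ∃ z, x = Sum.inr z ∧
        RIn t.intGraph (Sum.inr ⁻¹' (B1 (Sum.inr (emb a)))) y0 z) hreach
        ⟨y0, rfl, RIn.refl _ _ _⟩ ?_
      rintro p q hp hq hpq ⟨z, rfl, hz⟩
      obtain ⟨w, rfl⟩ := hsub a q hq
      exact ⟨w, rfl, hz.tail hpq hp hq⟩
    obtain ⟨z, hz, hz'⟩ := key
    rw [Sum.inr_injective hz]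
    exact hz'
  · have := hd (Sum.inr (emb a)) (Sum.inr (emb b)) (fun h => hab (hemb (Sum.inr_injective h)))
    exact this.preimage _
  · have hne : (Sum.inr (emb a) : Fin k ⊕ Fin h) ≠ Sum.inr (emb b) := by
      intro h
      have := hemb (Sum.inr_injective h)
      exact (gOf c).ne_of_adj hab this
    obtain ⟨x, hx, y, hy, hxy⟩ := ht _ _ hne ⟨a, b, rfl, rfl, hab⟩
    obtain ⟨x', rfl⟩ := hsub a x hx
    obtain ⟨y', rfl⟩ := hsub b y hy
    exact ⟨x', hx, y', hy, hxy⟩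

namespace Info

/-- inclusion of the used indices -/
def inc {k h : ℕ} (D : Finset (Fin k)) : D ⊕ Fin h → Fin k ⊕ Fin h := Sum.map Subtype.val id

theorem inc_inj {k h : ℕ} (D : Finset (Fin k)) : Function.Injective (inc (h := h) D) := by
  rintro (a | a) (b | b) hab
  · exact congrArg Sum.inl (Subtype.ext (Sum.inl.inj hab))
  · exact absurd hab (by simp [inc])
  · exact absurd hab (by simp [inc])
  · exact congrArg Sum.inr (Sum.inr.inj hab)

/-- extension of a pattern by nothing -/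
def extR {k h : ℕ} (D : Finset (Fin k)) (R : D ⊕ Fin h → D ⊕ Fin h → Prop) :
    Fin k ⊕ Fin h → Fin k ⊕ Fin h → Prop :=
  fun x y => ∃ x' y', inc D x' = x ∧ inc D y' = y ∧ R x' y'

theorem extR_inc {k h : ℕ} (D : Finset (Fin k)) (R : Fin k ⊕ Fin h → Fin k ⊕ Fin h → Prop)
    (x y : Fin k ⊕ Fin h) :
    extR D (fun x' y' => R (inc D x') (inc D y')) x y ↔
      x ∈ Set.range (inc (h := h) D) ∧ y ∈ Set.range (inc (h := h) D) ∧ R x y := by
  constructor
  · rintro ⟨x', y', rfl, rfl, hR⟩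
    exact ⟨⟨x', rfl⟩, ⟨y', rfl⟩, hR⟩
  · rintro ⟨⟨x', rfl⟩, ⟨y', rfl⟩, hR⟩
    exact ⟨x', y', rfl, rfl, hR⟩

theorem isolated {k h : ℕ} {D : Finset (Fin k)} {t : Term k} (ht : ∀ i, t.Used i → i ∈ D)
    {B : Fin k ⊕ Fin h → Set (Fin k ⊕ t.Int)}
    (hB : ∀ i, Conn t.graph (B (Sum.inl i)) ∧ Sum.inl i ∈ B (Sum.inl i))
    {x : Fin k ⊕ Fin h} (hx : x ∉ Set.range (inc (h := h) D)) {S : Set (Fin k ⊕ t.Int)} :
    ¬ Touch t.graph (B x) S := by
  rcases x with i | j
  · have hi : i ∉ D := fun hi => hx ⟨Sum.inl ⟨i, hi⟩, rfl⟩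
    have hiso : ∀ z, ¬ t.graph.Adj (Sum.inl i) z := by
      rintro (z | z) hz
      · exact hz
      · exact hi (ht i ⟨z, hz⟩)
    rintro ⟨a, ha, b, _, hab⟩
    have hr := (hB i).1.2 _ (hB i).2 _ ha
    have : a = Sum.inl i := by
      refine RIn.closed (P := fun a => a = Sum.inl i) hr rfl ?_
      rintro p q _ _ hpq rfl
      exact absurd hpq (hiso q)
    subst this
    exact hiso b hab
  · exact absurd ⟨Sum.inr j, rfl⟩ hx

theorem mem_tinfo_iff {k h : ℕ} {D : Finset (Fin k)} {t : Term k} (ht : ∀ i, t.Used i → i ∈ D)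
    (J : Set (Fin h)) (R : Fin k ⊕ Fin h → Fin k ⊕ Fin h → Prop) :
    (J, R) ∈ t.tinfo h ↔
      (∀ x y, x ≠ y → R x y → x ∈ Set.range (inc (h := h) D) ∧ y ∈ Set.range (inc (h := h) D)) ∧
      (J, extR D (fun x' y' => R (inc D x') (inc D y'))) ∈ t.tinfo h := by
  constructor
  · rintro ⟨B, h1, h2, h3, h4, h5⟩
    refine ⟨fun x y hne hxy => ⟨?_, ?_⟩, B, h1, h2, h3, h4, fun x y hne hxy => ?_⟩
    · by_contra hx
      exact isolated ht h1 hx (h5 x y hne hxy)
    · by_contra hy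
      exact isolated ht h1 hy (h5 x y hne hxy).symm
    · exact h5 x y hne ((extR_inc D R x y).1 hxy).2.2
  · rintro ⟨h0, B, h1, h2, h3, h4, h5⟩
    refine ⟨B, h1, h2, h3, h4, fun x y hne hxy => h5 x y hne ?_⟩
    exact (extR_inc D R x y).2 ⟨(h0 x y hne hxy).1, (h0 x y hne hxy).2, hxy⟩

end Info

/-- terms using only slots in `D` have few minor types -/
theorem card_tinfo {k h : ℕ} (D : Finset (Fin k)) :
    {I | ∃ t : Term k, (∀ i, t.Used i → i ∈ D) ∧ t.tinfo h = I}.ncard ≤ inB D.card h := by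
  classical
  let Φ : Set (Set (Fin h) × (Fin k ⊕ Fin h → Fin k ⊕ Fin h → Prop)) →
      Set (Set (Fin h) × (D ⊕ Fin h → D ⊕ Fin h → Prop)) :=
    fun I => {P | (P.1, extR D P.2) ∈ I}
  have hinj : Set.InjOn Φ
      {I | ∃ t : Term k, (∀ i, t.Used i → i ∈ D) ∧ t.tinfo h = I} := by
    rintro _ ⟨t, ht, rfl⟩ _ ⟨t', ht', rfl⟩ hΦ
    have key : ∀ (J : Set (Fin h)) (R : D ⊕ Fin h → D ⊕ Fin h → Prop),
        (J, extR D R) ∈ t.tinfo h ↔ (J, extR D R) ∈ t'.tinfo h := by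
      intro J R
      have := Set.ext_iff.1 hΦ (J, R)
      exact this
    ext ⟨J, R⟩
    rw [mem_tinfo_iff ht, mem_tinfo_iff ht', key]
  have h1 := Set.ncard_le_ncard_of_injOn Φ (t := Set.univ) (fun _ _ => Set.mem_univ _) hinj
    Set.finite_univ
  refine h1.trans (le_of_eq ?_)
  rw [Set.ncard_univ, Nat.card_eq_fintype_card]
  simp only [Fintype.card_set, Fintype.card_prod, Fintype.card_fin, Fintype.card_fun,
    Fintype.card_sum, Fintype.card_prop, Fintype.card_coe]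
  unfold inB
  rw [← pow_mul]

end Pool.Agent.Lib.MP_4d119b_lc
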