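import Pool.Agent.Lib.MP_4d119b_lc.Final3

/-! The extremal function of a minor-closed class, up to an additive constant. -/

namespace Pool.Agent.Lib.MP_4d119b_lc

open Set

/-- largest number of vertices of a graph in the list -/
def hOf (L : List (ℕ × List (ℕ × ℕ))) : ℕ := L.foldr (fun c n => max c.1 n) 0

/-- number of vertices of the first graph in the list -/
def tOf (L : List (ℕ × List (ℕ × ℕ))) : ℕ := (L.head?.getD (0, [])).1

theorem le_hOf {L : List (ℕ × List (ℕ × ℕ))} : ∀ c ∈ L, c.1 ≤ hOf L := by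
  induction L with
  | nil => intro c hc; simp at hc
  | cons d L ih =>
    intro c hc
    rcases List.mem_cons.1 hc with rfl | hc
    · exact le_max_left _ _
    · exact (ih c hc).trans (le_max_right _ _)

theorem primrec_hOf : Primrec hOf := by
  unfold hOf
  exact Primrec.list_foldr Primrec.id (Primrec.const 0)
    (Primrec.nat_max.comp (Primrec.fst.comp (Primrec.fst.comp Primrec.snd))
      (Primrec.snd.comp Primrec.snd)).to₂

theorem primrec_tOf : Primrec tOf := by
  unfold tOf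
  exact Primrec.fst.comp (Primrec.option_getD.comp Primrec.list_head? (Primrec.const (0, [])))

theorem not_hasK {L : List (ℕ × List (ℕ × ℕ))} (hL : L ≠ []) {V : Type} {G : SimpleGraph V}
    (hF : InF L G) : ¬ HasK G (tOf L) := by
  intro hK
  cases L with
  | nil => exact hL rfl
  | cons c L =>
    exact hF c List.mem_cons_self (HasK.isMinor (gOf c) G le_rfl hK)

theorem main_bounds : ∃ f : List (ℕ × List (ℕ × ℕ)) → ℕ × ℕ, Primrec f ∧
    ∀ L, L ≠ [] → 0 < (f L).2 ∧ (∃ C : ℝ, 0 ≤ C ∧ ∀ (n : ℕ) (G : SimpleGraph (Fin n)), InF L G →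
      2 * (G.edgeSet.ncard : ℝ) ≤ (((f L).1 : ℝ) / (f L).2) * n + C) ∧
    ((f L).1 = 0 ∨ ∃ a b : ℕ, 1 ≤ b ∧ ∀ N : ℕ, ∃ G : SimpleGraph (Fin (a + (N + 1) * b)), InF L G ∧
      (((f L).1 : ℝ) / (f L).2) * (N * b) ≤ 2 * (G.edgeSet.ncard : ℝ)) := by
  obtain ⟨kF, hkF, hex⟩ := excess_bound
  have hk : Primrec (fun L => kF (tOf L) (hOf L)) := hkF.comp primrec_tOf primrec_hOf
  have hb : Primrec (fun L => bmB (kF (tOf L) (hOf L)) (hOf L)) :=
    Comp.primrec_bmB'.comp hk primrec_hOf
  have hn : Primrec (fun L => inB (kF (tOf L) (hOf L) + bmB (kF (tOf L) (hOf L)) (hOf L))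
      (hOf L)) :=
    Comp.primrec_inB'.comp (Primrec.nat_add.comp hk hb) primrec_hOf
  obtain ⟨f, hf, hfL⟩ := comp_main _ _ _ hk hb hn
  refine ⟨f, hf, ?_⟩
  intro L hL
  obtain ⟨h1, h2, h3⟩ := hfL L
  have h1' : (0 : ℝ) < (f L).2 := by exact_mod_cast h1
  refine ⟨h1, ⟨2 * kF (tOf L) (hOf L) * bmB (kF (tOf L) (hOf L)) (hOf L), by positivity, ?_⟩, ?_⟩
  · intro n G hG
    have := hex (tOf L) (hOf L) L le_hOf (((f L).1 : ℝ) / (f L).2) (by positivity) (by
      intro a b E ha hb1 hb2 hN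
      have h4 := h3 a b E ha hb1 hb2 (hN _)
      have h5 : (2 * (cnt a b E : ℝ)) * (f L).2 ≤ (f L).1 * b := by exact_mod_cast h4
      rw [div_mul_eq_mul_div, le_div_iff₀ h1']
      exact h5) (Fin n) G hG (not_hasK hL hG)
    rw [ad_eq, Nat.card_fin] at this
    push_cast at this
    exact this
  · rcases h2 with h2 | ⟨a, b, E, ha, hb1, hb2, hF, h2⟩
    · left; rw [h2]
    · right
      refine ⟨a, b, hb1, ?_⟩
      intro N
      have hle : inB (a + b) (hOf L) ≤
          inB (kF (tOf L) (hOf L) + bmB (kF (tOf L) (hOf L)) (hOf L)) (hOf L) :=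
        inB_mono (by omega)
      have hall := per_all L le_hOf a b hb1 E (hF.minor (Pump.per_mono a b E hle))
      refine ⟨perGraph a b E N, hall N, ?_⟩
      have h4 := card_edge_per a b E N hb1
      have h5 : (N : ℝ) * cnt a b E ≤ (perGraph a b E N).edgeSet.ncard := by exact_mod_cast h4
      have hb0 : (0 : ℝ) < b := by exact_mod_cast hb1
      rw [h2]
      have h6 : (((2 * cnt a b E, b) : ℕ × ℕ).1 : ℝ) / (((2 * cnt a b E, b) : ℕ × ℕ).2 : ℝ) * (N * b) =
          2 * (N * cnt a b E) := by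
        push_cast
        field_simp
      rw [h6]
      linarith

/-- connected sets -/
theorem conn_iff_connected {V : Type} {G : SimpleGraph V} {S : Set V} :
    Conn G S ↔ (G.induce S).Connected := by
  constructor
  · rintro ⟨⟨x, hx⟩, h⟩
    have hr : ∀ x (hx : x ∈ S) y, RIn G S x y → ∀ hy : y ∈ S,
        (G.induce S).Reachable ⟨x, hx⟩ ⟨y, hy⟩ := by
      intro x hx y hxy
      induction hxy with
      | refl => intro hy; exact SimpleGraph.Reachable.refl _
      | tail _ hab ih =>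
        intro hy
        exact (ih hab.2.1).trans (SimpleGraph.Adj.reachable (by exact hab.1))
    have : Nonempty S := ⟨⟨x, hx⟩⟩
    exact SimpleGraph.Connected.mk fun a b => hr a.1 a.2 b.1 (h a.1 a.2 b.1 b.2) b.2
  · intro h
    obtain ⟨x⟩ := h.nonempty
    refine ⟨⟨x.1, x.2⟩, ?_⟩
    intro a ha b hb
    obtain ⟨p⟩ := h.preconnected ⟨a, ha⟩ ⟨b, hb⟩
    have hr : ∀ a b : S, (G.induce S).Walk a b → RIn G S a.1 b.1 := by
      intro a b p
      induction p with
      | nil => exact RIn.refl _ _ _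
      | @cons u v w hab _ ih =>
        exact (RIn.single (G := G) (S := S) (x := u.1) (y := v.1) hab u.2 v.2).trans ih
    exact hr _ _ p

end Pool.Agent.Lib.MP_4d119b_lc
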