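import Pool.Agent.Lib.MP_4d119b_lc.Info

/-! Module Pump. -/

namespace Pool.Agent.Lib.MP_4d119b_lc

open Set

def tyB (k h : ℕ) : ℕ := inB k h * 2 ^ k

def bmB (k h : ℕ) : ℕ := 2 ^ tyB k h

namespace Pump

/-! ### finiteness, counting of vertices and edges -/

noncomputable instance fintypeInt {k : ℕ} : (t : Term k) → Fintype t.Int
  | Term.nil => (inferInstance : Fintype Empty)
  | Term.drop _ _ t => @instFintypeOption _ (fintypeInt t)
  | Term.join t₁ t₂ => @instFintypeSum _ _ (fintypeInt t₁) (fintypeInt t₂)

theorem card_int {k : ℕ} : (t : Term k) → Fintype.card t.Int = t.nu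
  | Term.nil => rfl
  | Term.drop i S t => by
    have h := card_int t
    have h2 : Fintype.card (Term.drop i S t).Int = Fintype.card (Option t.Int) := rfl
    rw [h2, Fintype.card_option, h]; rfl
  | Term.join t₁ t₂ => by
    have h := card_int t₁
    have h' := card_int t₂
    have h2 : Fintype.card (Term.join t₁ t₂).Int = Fintype.card (t₁.Int ⊕ t₂.Int) := rfl
    rw [h2, Fintype.card_sum, h, h']; rfl

open Classical in
noncomputable def iiN {k : ℕ} (t : Term k) : ℕ :=
  ∑ x : t.Int, ∑ y : t.Int, if t.ii x y then 1 else 0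

open Classical in
noncomputable def isN {k : ℕ} (t : Term k) : ℕ :=
  ∑ x : t.Int, ∑ i : Fin k, if t.is x i then 1 else 0

open Classical in
theorem edge_count {k : ℕ} : (t : Term k) → iiN t + 2 * isN t = 2 * t.ed
  | Term.nil => rfl
  | Term.drop i S t => by
    have h := edge_count t
    have h1 : iiN (Term.drop i S t) = iiN t + 2 * ∑ y : t.Int, if t.is y i then 1 else 0 := by
      have : iiN (Term.drop i S t) = ∑ x : Option t.Int, ∑ y : Option t.Int,
        if (Term.drop i S t).ii x y then 1 else 0 := rfl
      rw [this, Fintype.sum_option, Fintype.sum_option]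
      have e0 : (if (Term.drop i S t).ii (none : Option t.Int) (none : Option t.Int) then 1 else 0)
        = 0 := by
        rw [if_neg]; exact fun h => h
      rw [e0]
      have e1 : ∀ x : t.Int, (∑ y : Option t.Int,
          if (Term.drop i S t).ii (some x : Option t.Int) y then 1 else 0)
          = (if t.is x i then 1 else 0) + ∑ y : t.Int, if t.ii x y then 1 else 0 := by
        intro x
        rw [Fintype.sum_option]
        rfl
      simp only [e1, Finset.sum_add_distrib]
      have e2 : (∑ y : t.Int, if (Term.drop i S t).ii (none : Option t.Int) (some y) then 1 else 0)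
        = ∑ y : t.Int, if t.is y i then 1 else 0 := rfl
      rw [e2]
      unfold iiN
      ring
    have h2 : isN (Term.drop i S t) + (∑ y : t.Int, if t.is y i then 1 else 0)
        = (S.erase i).card + isN t := by
      have : isN (Term.drop i S t) = ∑ x : Option t.Int, ∑ j : Fin k,
        if (Term.drop i S t).is x j then 1 else 0 := rfl
      rw [this, Fintype.sum_option]
      have e0 : (∑ j : Fin k, if (Term.drop i S t).is (none : Option t.Int) j then 1 else 0)
        = (S.erase i).card := by
        have : ∀ j : Fin k, (if (Term.drop i S t).is (none : Option t.Int) j then 1 else 0)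
          = if j ∈ S.erase i then 1 else 0 := by
          intro j
          congr 1
          rw [Finset.mem_erase, and_comm]; rfl
        simp only [this]
        rw [Finset.sum_ite_mem, Finset.univ_inter, Finset.sum_const, smul_eq_mul, mul_one]
      rw [e0]
      have e1 : ∀ x : t.Int, (∑ j : Fin k, if (Term.drop i S t).is (some x : Option t.Int) j
          then 1 else 0) + (if t.is x i then 1 else 0) = ∑ j : Fin k, if t.is x j then 1 else 0 := by
        intro x
        have : ∀ j : Fin k, (if (Term.drop i S t).is (some x : Option t.Int) j then 1 else 0)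
          = if (t.is x j ∧ j ≠ i) then 1 else 0 := fun j => if_congr Iff.rfl rfl rfl
        simp only [this]
        rw [← Finset.sum_erase_add _ _ (Finset.mem_univ i)]
        rw [← Finset.sum_erase_add Finset.univ (fun j => if t.is x j then 1 else 0)
          (Finset.mem_univ i)]
        simp only [ne_eq, not_true_eq_false, and_false, if_false, add_zero]
        congr 1
        refine Finset.sum_congr rfl ?_
        intro j hj
        have := (Finset.mem_erase.1 hj).1
        simp [this]
      have e2 : (∑ x : t.Int, ∑ j : Fin k, if (Term.drop i S t).is (some x : Option t.Int) j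
          then 1 else 0) + (∑ x : t.Int, if t.is x i then 1 else 0) = isN t := by
        rw [← Finset.sum_add_distrib]
        exact Finset.sum_congr rfl fun x _ => e1 x
      rw [add_assoc, e2]
    have h3 : (Term.drop i S t).ed = t.ed + (S.erase i).card := rfl
    rw [h1, h3]
    omega
  | Term.join t₁ t₂ => by
    have h := edge_count t₁
    have h' := edge_count t₂
    have h1 : iiN (Term.join t₁ t₂) = iiN t₁ + iiN t₂ := by
      have : iiN (Term.join t₁ t₂) = ∑ x : t₁.Int ⊕ t₂.Int, ∑ y : t₁.Int ⊕ t₂.Int,
        if (Term.join t₁ t₂).ii x y then 1 else 0 := rfl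
      rw [this, Fintype.sum_sum_type]
      congr 1
      · refine Finset.sum_congr rfl fun x _ => ?_
        rw [Fintype.sum_sum_type]
        have : (∑ y : t₂.Int, if (Term.join t₁ t₂).ii (Sum.inl x : t₁.Int ⊕ t₂.Int) (Sum.inr y)
          then 1 else 0) = 0 := by
          refine Finset.sum_eq_zero fun y _ => ?_
          rw [if_neg]; exact fun h => h
        rw [this, add_zero]; rfl
      · refine Finset.sum_congr rfl fun x _ => ?_
        rw [Fintype.sum_sum_type]
        have : (∑ y : t₁.Int, if (Term.join t₁ t₂).ii (Sum.inr x : t₁.Int ⊕ t₂.Int) (Sum.inl y)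
          then 1 else 0) = 0 := by
          refine Finset.sum_eq_zero fun y _ => ?_
          rw [if_neg]; exact fun h => h
        rw [this, zero_add]; rfl
    have h2 : isN (Term.join t₁ t₂) = isN t₁ + isN t₂ := by
      have : isN (Term.join t₁ t₂) = ∑ x : t₁.Int ⊕ t₂.Int, ∑ j : Fin k,
        if (Term.join t₁ t₂).is x j then 1 else 0 := rfl
      rw [this, Fintype.sum_sum_type]; rfl
    have h3 : (Term.join t₁ t₂).ed = t₁.ed + t₂.ed := rfl
    rw [h1, h2, h3]
    omega

/-! ### contexts -/

/-- one construction step -/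
inductive Step (k : ℕ) : Type
  | drop (i : Fin k) (S : Finset (Fin k)) : Step k
  | joinL (s : Term k) : Step k
  | joinR (s : Term k) : Step k

variable {k : ℕ}

def Step.app : Step k → Term k → Term k
  | Step.drop i S, t => Term.drop i S t
  | Step.joinL s, t => Term.join t s
  | Step.joinR s, t => Term.join s t

/-- apply a list of steps, the last one being applied first -/
def app : List (Step k) → Term k → Term k
  | [], t => t
  | s :: c, t => s.app (app c t)

theorem app_append (c d : List (Step k)) (t : Term k) : app (c ++ d) t = app c (app d t) := by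
  induction c with
  | nil => rfl
  | cons s c ih => simp only [List.cons_append, app, ih]

/-- size -/
def sz : Term k → ℕ
  | Term.nil => 1
  | Term.drop _ _ t => sz t + 1
  | Term.join t₁ t₂ => sz t₁ + sz t₂ + 1

/-- height -/
def ht : Term k → ℕ
  | Term.nil => 0
  | Term.drop _ _ t => ht t + 1
  | Term.join t₁ t₂ => max (ht t₁) (ht t₂) + 1

theorem nu_le (t : Term k) : t.nu ≤ 2 ^ ht t := by
  induction t with
  | nil => simp [Term.nu]
  | drop i S t ih =>
    simp only [Term.nu, ht, pow_succ]
    have : 1 ≤ 2 ^ ht t := Nat.one_le_two_pow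
    omega
  | join t₁ t₂ ih₁ ih₂ =>
    simp only [Term.nu, ht, pow_succ]
    have h1 : 2 ^ ht t₁ ≤ 2 ^ max (ht t₁) (ht t₂) := Nat.pow_le_pow_right (by norm_num) (le_max_left _ _)
    have h2 : 2 ^ ht t₂ ≤ 2 ^ max (ht t₁) (ht t₂) := Nat.pow_le_pow_right (by norm_num) (le_max_right _ _)
    omega

theorem ed_le (t : Term k) : t.ed ≤ k * t.nu := by
  induction t with
  | nil => simp [Term.ed]
  | drop i S t ih =>
    simp only [Term.ed, Term.nu, Nat.mul_add, mul_one]
    have : (S.erase i).card ≤ k := (Finset.card_le_univ _).trans (by simp)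
    omega
  | join t₁ t₂ ih₁ ih₂ =>
    simp only [Term.ed, Term.nu, Nat.mul_add]
    omega

theorem step_nu (s : Step k) (t : Term k) : (s.app t).nu = t.nu + (s.app Term.nil).nu := by
  cases s <;> simp [Step.app, Term.nu, add_comm]

theorem step_ed (s : Step k) (t : Term k) : (s.app t).ed = t.ed + (s.app Term.nil).ed := by
  cases s <;> simp [Step.app, Term.ed, add_comm]

theorem nu_app (c : List (Step k)) (t : Term k) : (app c t).nu = t.nu + (app c Term.nil).nu := by
  induction c with
  | nil => simp [app, Term.nu]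
  | cons s c ih =>
    simp only [app]
    rw [step_nu s (app c t), step_nu s (app c Term.nil), ih]
    ring

theorem ed_app (c : List (Step k)) (t : Term k) : (app c t).ed = t.ed + (app c Term.nil).ed := by
  induction c with
  | nil => simp [app, Term.ed]
  | cons s c ih =>
    simp only [app]
    rw [step_ed s (app c t), step_ed s (app c Term.nil), ih]
    ring

theorem sz_app (c : List (Step k)) (t : Term k) : sz t + c.length ≤ sz (app c t) := by
  induction c with
  | nil => simp [app]
  | cons s c ih =>
    have : sz (app c t) + 1 ≤ sz (app (s :: c) t) := by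
      cases s <;> simp only [app, Step.app, sz] <;> omega
    simp only [List.length_cons]
    omega

theorem sz_app_lt (c : List (Step k)) (s t : Term k) (h : sz s < sz t) :
    sz (app c s) < sz (app c t) := by
  induction c with
  | nil => simpa [app] using h
  | cons st c ih =>
    cases st <;> simp only [app, Step.app, sz] <;> omega

theorem tinfo_step {h : ℕ} (s : Step k) (t t' : Term k) (h1 : t.tinfo h = t'.tinfo h) :
    (s.app t).tinfo h = (s.app t').tinfo h := by
  cases s with
  | drop i S => exact tinfo_drop i S t t' h1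
  | joinL s => exact tinfo_join t s t' s h1 rfl
  | joinR s => exact tinfo_join s t s t' rfl h1

theorem tinfo_app {h : ℕ} (c : List (Step k)) (t t' : Term k) (h1 : t.tinfo h = t'.tinfo h) :
    (app c t).tinfo h = (app c t').tinfo h := by
  induction c with
  | nil => exact h1
  | cons s c ih => exact tinfo_step s _ _ ih

theorem used_drop (i : Fin k) (S : Finset (Fin k)) (t : Term k) (j : Fin k) :
    (Term.drop i S t).Used j ↔ (j ∈ S ∧ j ≠ i) ∨ (t.Used j ∧ j ≠ i) := by
  constructor
  · rintro ⟨x, hx⟩
    match x, hx with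
    | none, hx => exact Or.inl hx
    | some y, hx => exact Or.inr ⟨⟨y, hx.1⟩, hx.2⟩
  · rintro (h | ⟨⟨y, hy⟩, h⟩)
    · exact ⟨(none : Option t.Int), h⟩
    · exact ⟨(some y : Option t.Int), hy, h⟩

theorem used_join (t₁ t₂ : Term k) (j : Fin k) :
    (Term.join t₁ t₂).Used j ↔ t₁.Used j ∨ t₂.Used j := by
  constructor
  · rintro ⟨x, hx⟩
    match x, hx with
    | Sum.inl y, hx => exact Or.inl ⟨y, hx⟩
    | Sum.inr y, hx => exact Or.inr ⟨y, hx⟩
  · rintro (⟨y, hy⟩ | ⟨y, hy⟩)
    · exact ⟨(Sum.inl y : t₁.Int ⊕ t₂.Int), hy⟩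
    · exact ⟨(Sum.inr y : t₁.Int ⊕ t₂.Int), hy⟩

theorem used_step (s : Step k) (t t' : Term k) (h : ∀ j, t.Used j ↔ t'.Used j) (j : Fin k) :
    (s.app t).Used j ↔ (s.app t').Used j := by
  cases s with
  | drop i S => simp only [Step.app, used_drop, h]
  | joinL s => simp only [Step.app, used_join, h]
  | joinR s => simp only [Step.app, used_join, h]

theorem used_app (c : List (Step k)) (t t' : Term k) (h : ∀ j, t.Used j ↔ t'.Used j) :
    ∀ j, (app c t).Used j ↔ (app c t').Used j := by
  induction c with
  | nil => exact h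
  | cons s c ih => exact used_step s _ _ ih

/-! ### the graph of a context applied to a term -/

/-- decomposition of the graph of `app c t` -/
structure CD (c : List (Step k)) where
  loc : Fin k → Option (app c Term.nil).Int
  loc_inj : ∀ i j m, loc i = some m → loc j = some m → i = j
  e1 : (t : Term k) → t.Int → (app c t).Int
  e2 : (t : Term k) → (app c Term.nil).Int → (app c t).Int
  inj1 : ∀ t x y, e1 t x = e1 t y → x = y
  inj2 : ∀ t x y, e2 t x = e2 t y → x = y
  ne12 : ∀ t x y, e1 t x ≠ e2 t y
  ii1 : ∀ t x y, t.ii x y → (app c t).ii (e1 t x) (e1 t y)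
  ii2 : ∀ t x y, (app c Term.nil).ii x y → (app c t).ii (e2 t x) (e2 t y)
  ii12 : ∀ t x m i, loc i = some m → t.is x i → (app c t).ii (e1 t x) (e2 t m)
  is1 : ∀ t x i, loc i = none → t.is x i → (app c t).is (e1 t x) i
  is2 : ∀ t m i, (app c Term.nil).is m i → (app c t).is (e2 t m) i

theorem exists_cd : (c : List (Step k)) → Nonempty (CD c)
  | [] => ⟨{
      loc := fun _ => none
      loc_inj := fun i j m h => by simp at h
      e1 := fun t x => x
      e2 := fun t x => Empty.elim x
      inj1 := fun t x y h => h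
      inj2 := fun t x => Empty.elim x
      ne12 := fun t x y => Empty.elim y
      ii1 := fun t x y h => h
      ii2 := fun t x => Empty.elim x
      ii12 := fun t x m => Empty.elim m
      is1 := fun t x i _ h => h
      is2 := fun t m => Empty.elim m }⟩
  | Step.drop i S :: c => by
    obtain ⟨D⟩ := exists_cd c
    refine ⟨{
      loc := fun j => (match D.loc j with
        | some m => some (some m)
        | none => if j = i then some none else none : Option (Option (app c Term.nil).Int))
      loc_inj := ?_
      e1 := fun t x => (some (D.e1 t x) : Option (app c t).Int)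
      e2 := fun t x => (match x with
        | none => none
        | some y => some (D.e2 t y) : Option (app c t).Int)
      inj1 := ?_
      inj2 := ?_
      ne12 := ?_
      ii1 := ?_
      ii2 := ?_
      ii12 := ?_
      is1 := ?_
      is2 := ?_ }⟩
    · intro a b m ha hb
      match m with
      | none =>
        have key : ∀ j, (match D.loc j with
          | some m => some (some m)
          | none => if j = i then some none else none : Option (Option (app c Term.nil).Int))
            = some none → j = i := by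
          intro j hj
          cases hl : D.loc j with
          | some m => rw [hl] at hj; simp at hj
          | none =>
            rw [hl] at hj
            by_contra hne
            simp [hne] at hj
        rw [key a ha, key b hb]
      | some m =>
        have key : ∀ j, (match D.loc j with
          | some m => some (some m)
          | none => if j = i then some none else none : Option (Option (app c Term.nil).Int))
            = some (some m) → D.loc j = some m := by
          intro j hj
          cases hl : D.loc j with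
          | some m' => rw [hl] at hj; simpa using hj
          | none =>
            rw [hl] at hj
            split_ifs at hj
            simp at hj
        exact D.loc_inj a b m (key a ha) (key b hb)
    · intro t x y h
      exact D.inj1 t x y (Option.some_injective _ h)
    · intro t x y h
      match x, y, h with
      | none, none, _ => rfl
      | none, some b, h => exact absurd h (by simp)
      | some a, none, h => exact absurd h (by simp)
      | some a, some b, h =>
        have := D.inj2 t a b (Option.some_injective _ h)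
        rw [this]
    · intro t x y h
      match y, h with
      | none, h => exact absurd h (by simp)
      | some b, h => exact D.ne12 t x b (Option.some_injective _ h)
    · intro t x y h
      exact D.ii1 t x y h
    · intro t x y h
      match x, y, h with
      | none, none, h => exact h
      | none, some b, h => exact D.is2 t b i h
      | some a, none, h => exact D.is2 t a i h
      | some a, some b, h => exact D.ii2 t a b h
    · intro t x m j hl h
      cases hj : D.loc j with
      | some m' =>
        simp only [hj] at hl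
        have hm : m = some m' := (Option.some_injective _ hl).symm
        subst hm
        exact D.ii12 t x m' j hj h
      | none =>
        simp only [hj] at hl
        split_ifs at hl with hji
        have hm : m = none := (Option.some_injective _ hl).symm
        subst hm
        subst hji
        exact D.is1 t x j hj h
    · intro t x j hl h
      cases hj : D.loc j with
      | some m' => simp [hj] at hl
      | none =>
        simp only [hj] at hl
        split_ifs at hl with hji
        exact ⟨D.is1 t x j hj h, hji⟩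
    · intro t m j h
      match m, h with
      | none, h => exact h
      | some b, h => exact ⟨D.is2 t b j h.1, h.2⟩
  | Step.joinL s :: c => by
    obtain ⟨D⟩ := exists_cd c
    refine ⟨{
      loc := fun j => ((D.loc j).map Sum.inl : Option ((app c Term.nil).Int ⊕ s.Int))
      loc_inj := ?_
      e1 := fun t x => (Sum.inl (D.e1 t x) : (app c t).Int ⊕ s.Int)
      e2 := fun t x => (match x with
        | Sum.inl y => Sum.inl (D.e2 t y)
        | Sum.inr y => Sum.inr y : (app c t).Int ⊕ s.Int)
      inj1 := ?_
      inj2 := ?_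
      ne12 := ?_
      ii1 := ?_
      ii2 := ?_
      ii12 := ?_
      is1 := ?_
      is2 := ?_ }⟩
    · intro a b m ha hb
      obtain ⟨m1, h1, h2⟩ := Option.map_eq_some_iff.1 ha
      obtain ⟨m2, h3, h4⟩ := Option.map_eq_some_iff.1 hb
      have : m1 = m2 := Sum.inl_injective (h2.trans h4.symm)
      subst this
      exact D.loc_inj a b m1 h1 h3
    · intro t x y h
      exact D.inj1 t x y (Sum.inl_injective h)
    · intro t x y h
      match x, y, h with
      | Sum.inl a, Sum.inl b, h =>
        have := D.inj2 t a b (Sum.inl_injective h)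
        rw [this]
      | Sum.inl a, Sum.inr b, h => exact absurd h (by simp)
      | Sum.inr a, Sum.inl b, h => exact absurd h (by simp)
      | Sum.inr a, Sum.inr b, h =>
        have : a = b := Sum.inr_injective h
        rw [this]
    · intro t x y h
      match y, h with
      | Sum.inl b, h => exact D.ne12 t x b (Sum.inl_injective h)
      | Sum.inr b, h => exact absurd h (by simp)
    · intro t x y h
      exact D.ii1 t x y h
    · intro t x y h
      match x, y, h with
      | Sum.inl a, Sum.inl b, h => exact D.ii2 t a b h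
      | Sum.inl a, Sum.inr b, h => exact h
      | Sum.inr a, Sum.inl b, h => exact h
      | Sum.inr a, Sum.inr b, h => exact h
    · intro t x m j hl h
      obtain ⟨m1, h1, h2⟩ := Option.map_eq_some_iff.1 hl
      subst h2
      exact D.ii12 t x m1 j h1 h
    · intro t x j hl h
      exact D.is1 t x j (Option.map_eq_none_iff.1 hl) h
    · intro t m j h
      match m, h with
      | Sum.inl b, h => exact D.is2 t b j h
      | Sum.inr b, h => exact h
  | Step.joinR s :: c => by
    obtain ⟨D⟩ := exists_cd c
    refine ⟨{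
      loc := fun j => ((D.loc j).map Sum.inr : Option (s.Int ⊕ (app c Term.nil).Int))
      loc_inj := ?_
      e1 := fun t x => (Sum.inr (D.e1 t x) : s.Int ⊕ (app c t).Int)
      e2 := fun t x => (match x with
        | Sum.inl y => Sum.inl y
        | Sum.inr y => Sum.inr (D.e2 t y) : s.Int ⊕ (app c t).Int)
      inj1 := ?_
      inj2 := ?_
      ne12 := ?_
      ii1 := ?_
      ii2 := ?_
      ii12 := ?_
      is1 := ?_
      is2 := ?_ }⟩
    · intro a b m ha hb
      obtain ⟨m1, h1, h2⟩ := Option.map_eq_some_iff.1 ha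
      obtain ⟨m2, h3, h4⟩ := Option.map_eq_some_iff.1 hb
      have : m1 = m2 := Sum.inr_injective (h2.trans h4.symm)
      subst this
      exact D.loc_inj a b m1 h1 h3
    · intro t x y h
      exact D.inj1 t x y (Sum.inr_injective h)
    · intro t x y h
      match x, y, h with
      | Sum.inl a, Sum.inl b, h =>
        have : a = b := Sum.inl_injective h
        rw [this]
      | Sum.inl a, Sum.inr b, h => exact absurd h (by simp)
      | Sum.inr a, Sum.inl b, h => exact absurd h (by simp)
      | Sum.inr a, Sum.inr b, h =>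
        have := D.inj2 t a b (Sum.inr_injective h)
        rw [this]
    · intro t x y h
      match y, h with
      | Sum.inl b, h => exact absurd h (by simp)
      | Sum.inr b, h => exact D.ne12 t x b (Sum.inr_injective h)
    · intro t x y h
      exact D.ii1 t x y h
    · intro t x y h
      match x, y, h with
      | Sum.inl a, Sum.inl b, h => exact h
      | Sum.inl a, Sum.inr b, h => exact h
      | Sum.inr a, Sum.inl b, h => exact h
      | Sum.inr a, Sum.inr b, h => exact D.ii2 t a b h
    · intro t x m j hl h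
      obtain ⟨m1, h1, h2⟩ := Option.map_eq_some_iff.1 hl
      subst h2
      exact D.ii12 t x m1 j h1 h
    · intro t x j hl h
      exact D.is1 t x j (Option.map_eq_none_iff.1 hl) h
    · intro t m j h
      match m, h with
      | Sum.inl b, h => exact h
      | Sum.inr b, h => exact D.is2 t b j h

/-- iterate a context -/
def it (c : List (Step k)) (t : Term k) : ℕ → Term k
  | 0 => t
  | n + 1 => app c (it c t n)

theorem it_tinfo {h : ℕ} (c : List (Step k)) (t : Term k) (h1 : (app c t).tinfo h = t.tinfo h)
    (n : ℕ) : (it c t n).tinfo h = t.tinfo h := by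
  induction n with
  | zero => rfl
  | succ n ih => exact (tinfo_app c _ _ ih).trans h1

theorem blocks {c : List (Step k)} (D : CD c) (t : Term k) (n : ℕ) :
    ∃ g : ℕ → (app c Term.nil).Int → (it c t (n + 1)).Int,
      (∀ l, l ≤ n → ∀ l', l' ≤ n → ∀ m m', g l m = g l' m' → l = l' ∧ m = m') ∧
      (∀ l, l ≤ n → ∀ m m', (app c Term.nil).ii m m' → (it c t (n + 1)).ii (g l m) (g l m')) ∧
      (∀ l, l + 1 ≤ n → ∀ m i m', (app c Term.nil).is m i → D.loc i = some m' →
        (it c t (n + 1)).ii (g l m) (g (l + 1) m')) ∧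
      (∀ l, l ≤ n → ∀ m i, (app c Term.nil).is m i → D.loc i = none →
        (it c t (n + 1)).is (g l m) i) ∧
      (∀ m i, (app c Term.nil).is m i → (it c t (n + 1)).is (g n m) i) := by
  induction n with
  | zero =>
    refine ⟨fun _ m => D.e2 t m, ?_, ?_, ?_, ?_, ?_⟩
    · intro l hl l' hl' m m' h
      exact ⟨by omega, D.inj2 t m m' h⟩
    · intro l _ m m' h
      exact D.ii2 t m m' h
    · intro l hl
      omega
    · intro l _ m i h _
      exact D.is2 t m i h
    · intro m i h
      exact D.is2 t m i h
  | succ n ih =>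
    obtain ⟨g, g1, g2, g3, g4, g5⟩ := ih
    refine ⟨fun l m => if l = n + 1 then D.e2 (it c t (n + 1)) m
      else D.e1 (it c t (n + 1)) (g l m), ?_, ?_, ?_, ?_, ?_⟩
    · intro l hl l' hl' m m' h
      by_cases h1 : l = n + 1 <;> by_cases h2 : l' = n + 1
      · simp only [h1, h2, if_true] at h
        exact ⟨by omega, D.inj2 _ m m' h⟩
      · simp only [h1, h2, if_true, if_false] at h
        exact absurd h.symm (D.ne12 _ _ _)
      · simp only [h1, h2, if_true, if_false] at h
        exact absurd h (D.ne12 _ _ _)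
      · simp only [h1, h2, if_false] at h
        exact g1 l (by omega) l' (by omega) m m' (D.inj1 _ _ _ h)
    · intro l hl m m' h
      by_cases h1 : l = n + 1
      · simp only [h1, if_true]
        exact D.ii2 _ m m' h
      · simp only [h1, if_false]
        exact D.ii1 _ _ _ (g2 l (by omega) m m' h)
    · intro l hl m i m' h hloc
      have h1 : l ≠ n + 1 := by omega
      by_cases h2 : l = n
      · subst h2
        simp only [h1, if_true, if_false]
        exact D.ii12 _ _ _ i hloc (g5 m i h)
      · have h3 : l + 1 ≠ n + 1 := by omega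
        simp only [h1, h3, if_false]
        exact D.ii1 _ _ _ (g3 l (by omega) m i m' h hloc)
    · intro l hl m i h hloc
      by_cases h1 : l = n + 1
      · simp only [h1, if_true]
        exact D.is2 _ m i h
      · simp only [h1, if_false]
        exact D.is1 _ _ i hloc (g4 l (by omega) m i h hloc)
    · intro m i h
      simp only [if_true]
      exact D.is2 _ m i h

/-- persistent slots used by the context -/
abbrev Pers {c : List (Step k)} (D : CD c) : Type :=
  {i : Fin k // D.loc i = none ∧ ∃ m, (app c Term.nil).is m i}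

noncomputable def pa {c : List (Step k)} (D : CD c) : ℕ := Nat.card (Pers D)

noncomputable def pb (c : List (Step k)) : ℕ := Nat.card (app c Term.nil).Int

noncomputable def pidx {c : List (Step k)} (D : CD c) : Pers D ≃ Fin (pa D) :=
  Finite.equivFin _

noncomputable def idx (c : List (Step k)) : (app c Term.nil).Int ≃ Fin (pb c) :=
  Finite.equivFin _

theorem pa_le {c : List (Step k)} (D : CD c) : pa D ≤ k := by
  unfold pa
  have h := Nat.card_le_card_of_injective (fun p : Pers D => p.1) Subtype.val_injective
  simpa using h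

theorem pb_eq (c : List (Step k)) : pb c = (app c Term.nil).nu := by
  unfold pb
  rw [Nat.card_eq_fintype_card, card_int]

/-- the pattern of the context -/
def pE {c : List (Step k)} (D : CD c) (u v : ℕ) : Prop :=
  (∃ β i γ, (app c Term.nil).is β i ∧ D.loc i = some γ ∧ u = pa D + (idx c β : ℕ) ∧
    v = pa D + pb c + (idx c γ : ℕ)) ∨
  (∃ β γ, (app c Term.nil).ii β γ ∧ u = pa D + pb c + (idx c β : ℕ) ∧
    v = pa D + pb c + (idx c γ : ℕ)) ∨
  (∃ (p : Pers D) (β : _), (app c Term.nil).is β p.1 ∧ u = (pidx D p : ℕ) ∧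
    v = pa D + pb c + (idx c β : ℕ))

theorem embed {c C : List (Step k)} (D : CD c) (s : Term k)
    (hcl : ∀ i, ¬ (app C (app c s)).Used i) (N : ℕ) (hb : 1 ≤ pb c) :
    IsMinor (perGraph (pa D) (pb c) (pE D) N) (app C (it c s (N + 1))).intGraph := by
  classical
  obtain ⟨F⟩ := exists_cd C
  obtain ⟨g, g1, g2, g3, g4, -⟩ := blocks D s N
  have hq : ∀ p : Pers D, ∃ m, F.loc p.1 = some m := by
    rintro ⟨i, hi, m, hm⟩
    by_contra hcon
    have hnone : F.loc i = none := by
      cases hl : F.loc i with
      | none => rfl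
      | some m' => exact absurd ⟨m', hl⟩ hcon
    exact hcl i ⟨_, F.is1 (app c s) _ i hnone (D.is2 s m i hm)⟩
  choose q hq using hq
  have hqinj : ∀ p p', q p = q p' → p = p' := by
    intro p p' h
    apply Subtype.ext
    exact F.loc_inj _ _ (q p) (hq p) (by rw [h]; exact hq p')
  have hmod : ∀ x : ℕ, (x - pa D) % pb c < pb c := fun x => Nat.mod_lt _ hb
  let φ : Fin (pa D + (N + 1) * pb c) → (app C (it c s (N + 1))).Int := fun x =>
    if h : (x : ℕ) < pa D then F.e2 _ (q ((pidx D).symm ⟨x, h⟩))
    else F.e1 _ (g (((x : ℕ) - pa D) / pb c) ((idx c).symm ⟨((x : ℕ) - pa D) % pb c, hmod x⟩))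
  have hφ1 : ∀ (x : Fin (pa D + (N + 1) * pb c)) (p : Pers D), (x : ℕ) = (pidx D p : ℕ) →
      φ x = F.e2 _ (q p) := by
    intro x p hx
    have h : (x : ℕ) < pa D := hx ▸ (pidx D p).2
    have h2 : (pidx D).symm ⟨x, h⟩ = p := by
      rw [Equiv.symm_apply_eq]
      exact Fin.ext hx
    simp only [φ, h, dif_pos, h2]
  have hφ2 : ∀ (x : Fin (pa D + (N + 1) * pb c)) (l : ℕ) (β : (app c Term.nil).Int),
      (x : ℕ) = pa D + l * pb c + (idx c β : ℕ) → φ x = F.e1 _ (g l β) := by
    intro x l β hx
    have h : ¬ (x : ℕ) < pa D := by omega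
    have h0 := (idx c β).2
    have h1 : (x : ℕ) - pa D = (idx c β : ℕ) + pb c * l := by
      rw [hx, Nat.mul_comm (pb c)]; omega
    have h2 : ((x : ℕ) - pa D) / pb c = l := by
      rw [h1, Nat.add_mul_div_left _ _ (by omega), Nat.div_eq_of_lt h0, zero_add]
    have h3 : (idx c).symm ⟨((x : ℕ) - pa D) % pb c, hmod x⟩ = β := by
      rw [Equiv.symm_apply_eq]
      apply Fin.ext
      show ((x : ℕ) - pa D) % pb c = _
      rw [h1, Nat.add_mul_mod_self_left, Nat.mod_eq_of_lt h0]
    simp only [φ, h, dif_neg, not_false_eq_true, h3, h2]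
  have hdiv : ∀ x : Fin (pa D + (N + 1) * pb c), ((x : ℕ) - pa D) / pb c ≤ N := by
    intro x
    have := x.2
    rw [← Nat.lt_succ_iff, Nat.div_lt_iff_lt_mul (by omega)]
    have h2 : (x : ℕ) < pa D + (N.succ) * pb c := this
    by_cases h : (x : ℕ) < pa D
    · have : (x : ℕ) - pa D = 0 := by omega
      rw [this]
      exact Nat.mul_pos (Nat.succ_pos _) (by omega)
    · omega
  refine isMinor_of_hom φ ?_ ?_
  · intro x y hxy
    by_cases hx : (x : ℕ) < pa D <;> by_cases hy : (y : ℕ) < pa D
    · simp only [φ, hx, hy, dif_pos] at hxy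
      have := hqinj _ _ (F.inj2 _ _ _ hxy)
      have := (pidx D).symm.injective this
      exact Fin.ext (by simpa using this)
    · simp only [φ, hx, hy, dif_pos, dif_neg, not_false_eq_true] at hxy
      exact absurd hxy.symm (F.ne12 _ _ _)
    · simp only [φ, hx, hy, dif_pos, dif_neg, not_false_eq_true] at hxy
      exact absurd hxy (F.ne12 _ _ _)
    · simp only [φ, hx, hy, dif_neg, not_false_eq_true] at hxy
      obtain ⟨h1, h2⟩ := g1 _ (hdiv x) _ (hdiv y) _ _ (F.inj1 _ _ _ hxy)
      have h3 : ((x : ℕ) - pa D) % pb c = ((y : ℕ) - pa D) % pb c := by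
        have := (idx c).symm.injective h2
        simpa using this
      have h4 : (x : ℕ) - pa D = (y : ℕ) - pa D := by
        rw [← Nat.div_add_mod ((x : ℕ) - pa D) (pb c), h1, h3, Nat.div_add_mod]
      exact Fin.ext (by omega)
  · have key : ∀ (x y : Fin (pa D + (N + 1) * pb c)) (i u v : ℕ), i < N → pE D u v →
        sh (pa D) (pb c) i u = x → sh (pa D) (pb c) i v = y →
        (app C (it c s (N + 1))).ii (φ x) (φ y) := by
      rintro x y i u v hi (⟨β, j, γ, h1, h2, h3, h4⟩ | ⟨β, γ, h1, h3, h4⟩ | ⟨p, β, h1, h3, h4⟩) hx hy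
      · have hx' : (x : ℕ) = pa D + i * pb c + (idx c β : ℕ) := by
          rw [← hx, sh, if_neg (by omega)]; omega
        have hy' : (y : ℕ) = pa D + (i + 1) * pb c + (idx c γ : ℕ) := by
          rw [← hy, sh, if_neg (by omega), h4]; ring
        rw [hφ2 x i β hx', hφ2 y (i + 1) γ hy']
        exact F.ii1 _ _ _ (g3 i (by omega) β j γ h1 h2)
      · have hx' : (x : ℕ) = pa D + (i + 1) * pb c + (idx c β : ℕ) := by
          rw [← hx, sh, if_neg (by omega), h3]; ring
        have hy' : (y : ℕ) = pa D + (i + 1) * pb c + (idx c γ : ℕ) := by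
          rw [← hy, sh, if_neg (by omega), h4]; ring
        rw [hφ2 x (i + 1) β hx', hφ2 y (i + 1) γ hy']
        exact F.ii1 _ _ _ (g2 (i + 1) (by omega) β γ h1)
      · have hx' : (x : ℕ) = (pidx D p : ℕ) := by
          have := (pidx D p).2
          rw [← hx, sh, if_pos (by omega)]; omega
        have hy' : (y : ℕ) = pa D + (i + 1) * pb c + (idx c β : ℕ) := by
          rw [← hy, sh, if_neg (by omega), h4]; ring
        rw [hφ1 x p hx', hφ2 y (i + 1) β hy']
        apply Term.ii_symm
        exact F.ii12 _ _ _ p.1 (hq p) (g4 (i + 1) (by omega) β p.1 h1 p.2.1)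
    rintro x y ⟨_, i, u, v, hi, _, _, hE | hE, hx, hy⟩
    · exact key x y i u v hi hE hx hy
    · exact Term.ii_symm _ _ _ (key y x i v u hi hE hy hx)

open Classical in
/-- ordered internal pairs -/
theorem iiN_eq (t : Term k) (f : t.Int → ℕ) (hf : Function.Injective f) :
    iiN t = 2 * ((Finset.univ : Finset (t.Int × t.Int)).filter
      (fun p => f p.1 < f p.2 ∧ t.ii p.1 p.2)).card := by
  have h1 : iiN t = ((Finset.univ : Finset (t.Int × t.Int)).filter
      (fun p => t.ii p.1 p.2)).card := by
    rw [Finset.card_filter, ← Finset.univ_product_univ, Finset.sum_product]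
    rfl
  have h2 : (Finset.univ : Finset (t.Int × t.Int)).filter (fun p => t.ii p.1 p.2)
      = (Finset.univ : Finset (t.Int × t.Int)).filter (fun p => f p.1 < f p.2 ∧ t.ii p.1 p.2) ∪
        (Finset.univ : Finset (t.Int × t.Int)).filter
          (fun p => f p.2 < f p.1 ∧ t.ii p.1 p.2) := by
    ext ⟨x, y⟩
    simp only [Finset.mem_filter, Finset.mem_univ, true_and, Finset.mem_union]
    constructor
    · intro h
      rcases lt_trichotomy (f x) (f y) with h3 | h3 | h3
      · exact Or.inl ⟨h3, h⟩
      · exact absurd (hf h3 ▸ h) (t.ii_irrefl x)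
      · exact Or.inr ⟨h3, h⟩
    · rintro (h | h)
      · exact h.2
      · exact h.2
  have h3 : ((Finset.univ : Finset (t.Int × t.Int)).filter
      (fun p => f p.2 < f p.1 ∧ t.ii p.1 p.2)).card =
      ((Finset.univ : Finset (t.Int × t.Int)).filter
      (fun p => f p.1 < f p.2 ∧ t.ii p.1 p.2)).card := by
    refine Finset.card_bij (fun p _ => (p.2, p.1)) ?_ ?_ ?_
    · rintro ⟨x, y⟩ h
      simp only [Finset.mem_filter, Finset.mem_univ, true_and] at h ⊢
      exact ⟨h.1, t.ii_symm _ _ h.2⟩
    · rintro ⟨x, y⟩ _ ⟨x', y'⟩ _ h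
      simp only [Prod.mk.injEq] at h
      simp [h.1, h.2]
    · rintro ⟨x, y⟩ h
      simp only [Finset.mem_filter, Finset.mem_univ, true_and] at h
      refine ⟨(y, x), ?_, rfl⟩
      simp only [Finset.mem_filter, Finset.mem_univ, true_and]
      exact ⟨h.1, t.ii_symm _ _ h.2⟩
  have h4 : Disjoint ((Finset.univ : Finset (t.Int × t.Int)).filter
      (fun p => f p.1 < f p.2 ∧ t.ii p.1 p.2)) ((Finset.univ : Finset (t.Int × t.Int)).filter
      (fun p => f p.2 < f p.1 ∧ t.ii p.1 p.2)) := by
    rw [Finset.disjoint_left]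
    rintro ⟨x, y⟩ h h'
    simp only [Finset.mem_filter, Finset.mem_univ, true_and] at h h'
    omega
  rw [h1, h2, Finset.card_union_of_disjoint h4, h3]
  ring

open Classical in
theorem ed_eq (t : Term k) (f : t.Int → ℕ) (hf : Function.Injective f) :
    t.ed = ((Finset.univ : Finset (t.Int × t.Int)).filter
      (fun p => f p.1 < f p.2 ∧ t.ii p.1 p.2)).card +
      ((Finset.univ : Finset (t.Int × Fin k)).filter (fun p => t.is p.1 p.2)).card := by
  have h1 := edge_count t
  rw [iiN_eq t f hf] at h1
  have h2 : isN t = ((Finset.univ : Finset (t.Int × Fin k)).filter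
      (fun p => t.is p.1 p.2)).card := by
    rw [Finset.card_filter, ← Finset.univ_product_univ, Finset.sum_product]
    rfl
  omega

theorem ed_le_cnt {c : List (Step k)} (D : CD c) :
    (app c Term.nil).ed ≤ cnt (pa D) (pb c) (pE D) := by
  classical
  set t := app c Term.nil with ht
  let f : t.Int → ℕ := fun x => (idx c x : ℕ)
  have hf : Function.Injective f := fun x y h => (idx c).injective (Fin.ext h)
  rw [ed_eq t f hf]
  let A : Finset (t.Int × t.Int) := Finset.univ.filter (fun p => f p.1 < f p.2 ∧ t.ii p.1 p.2)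
  let B : Finset (t.Int × Fin k) := Finset.univ.filter (fun p => t.is p.1 p.2)
  let T : Finset (ℕ × ℕ) := ((Finset.range (pa D + 2 * pb c)) ×ˢ
    (Finset.range (pa D + 2 * pb c))).filter
    (fun p => p.1 < p.2 ∧ pa D + pb c ≤ p.2 ∧ (pE D p.1 p.2 ∨ pE D p.2 p.1))
  have hT : cnt (pa D) (pb c) (pE D) = T.card := by
    unfold cnt
    congr
  -- the low end of an `is` pair
  let lo : t.Int × Fin k → ℕ := fun p =>
    match D.loc p.2 with
    | some _ => pa D + f p.1
    | none => if h : D.loc p.2 = none ∧ ∃ m, (app c Term.nil).is m p.2 then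
        (pidx D ⟨p.2, h⟩ : ℕ) else 0
  let hi : t.Int × Fin k → ℕ := fun p =>
    match D.loc p.2 with
    | some m => pa D + pb c + f m
    | none => pa D + pb c + f p.1
  have hlt : ∀ x : t.Int, f x < pb c := fun x => (idx c x).2
  have lo_none : ∀ (x : t.Int) (i : Fin k) (h : D.loc i = none) (h2 : t.is x i),
      lo (x, i) = (pidx D ⟨i, h, x, h2⟩ : ℕ) ∧ hi (x, i) = pa D + pb c + f x := by
    intro x i h h2
    constructor
    · simp only [lo, h]
      have h3 : D.loc i = none ∧ ∃ m, (app c Term.nil).is m i := ⟨h, x, h2⟩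
      rw [dif_pos ⟨trivial, x, h2⟩]
    · simp only [hi, h]
  have lo_some : ∀ (x : t.Int) (i : Fin k) (m) (h : D.loc i = some m),
      lo (x, i) = pa D + f x ∧ hi (x, i) = pa D + pb c + f m := by
    intro x i m h
    constructor
    · simp only [lo, h]
    · simp only [hi, h]
  let ψ : (t.Int × t.Int) ⊕ (t.Int × Fin k) → ℕ × ℕ := fun z =>
    match z with
    | Sum.inl p => (pa D + pb c + f p.1, pa D + pb c + f p.2)
    | Sum.inr p => (lo p, hi p)
  have hcard : (A.disjSum B).card = A.card + B.card := Finset.card_disjSum A B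
  show A.card + B.card ≤ _
  rw [hT, ← hcard]
  refine Finset.card_le_card_of_injOn ψ ?_ ?_
  · intro z hz
    rw [Finset.mem_coe] at hz ⊢
    rw [Finset.mem_disjSum] at hz
    rcases hz with ⟨⟨x, y⟩, hz, rfl⟩ | ⟨⟨x, i⟩, hz, rfl⟩
    · simp only [A, Finset.mem_filter, Finset.mem_univ, true_and] at hz
      have h1 := hlt x
      have h2 := hlt y
      simp only [ψ, T, Finset.mem_filter, Finset.mem_product, Finset.mem_range]
      refine ⟨⟨by omega, by omega⟩, by omega, by omega, Or.inl ?_⟩
      exact Or.inr (Or.inl ⟨x, y, hz.2, rfl, rfl⟩)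
    · simp only [B, Finset.mem_filter, Finset.mem_univ, true_and] at hz
      have h1 := hlt x
      cases hl : D.loc i with
      | none =>
        obtain ⟨h3, h4⟩ := lo_none x i hl hz
        have h5 := (pidx D ⟨i, hl, x, hz⟩).2
        simp only [ψ, T, Finset.mem_filter, Finset.mem_product, Finset.mem_range, h3, h4]
        refine ⟨⟨by omega, by omega⟩, by omega, by omega, Or.inl ?_⟩
        exact Or.inr (Or.inr ⟨⟨i, hl, x, hz⟩, x, hz, rfl, rfl⟩)
      | some m =>
        obtain ⟨h3, h4⟩ := lo_some x i m hl
        have h5 := hlt m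
        simp only [ψ, T, Finset.mem_filter, Finset.mem_product, Finset.mem_range, h3, h4]
        refine ⟨⟨by omega, by omega⟩, by omega, by omega, Or.inl ?_⟩
        exact Or.inl ⟨x, i, m, hz, hl, rfl, rfl⟩
  · intro z hz z' hz' h
    rw [Finset.mem_coe, Finset.mem_disjSum] at hz hz'
    rcases hz with ⟨⟨x, y⟩, hz, rfl⟩ | ⟨⟨x, i⟩, hz, rfl⟩ <;>
      rcases hz' with ⟨⟨x', y'⟩, hz', rfl⟩ | ⟨⟨x', i'⟩, hz', rfl⟩
    · simp only [ψ, Prod.mk.injEq] at h
      have h1 : x = x' := hf (by omega)
      have h2 : y = y' := hf (by omega)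
      rw [h1, h2]
    · exfalso
      simp only [B, Finset.mem_filter, Finset.mem_univ, true_and] at hz'
      simp only [ψ, Prod.mk.injEq] at h
      have h1 := hlt x'
      cases hl : D.loc i' with
      | none =>
        obtain ⟨h3, h4⟩ := lo_none x' i' hl hz'
        have h5 := (pidx D ⟨i', hl, x', hz'⟩).2
        omega
      | some m =>
        obtain ⟨h3, h4⟩ := lo_some x' i' m hl
        omega
    · exfalso
      simp only [B, Finset.mem_filter, Finset.mem_univ, true_and] at hz
      simp only [ψ, Prod.mk.injEq] at h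
      have h1 := hlt x
      cases hl : D.loc i with
      | none =>
        obtain ⟨h3, h4⟩ := lo_none x i hl hz
        have h5 := (pidx D ⟨i, hl, x, hz⟩).2
        omega
      | some m =>
        obtain ⟨h3, h4⟩ := lo_some x i m hl
        omega
    · simp only [B, Finset.mem_filter, Finset.mem_univ, true_and] at hz hz'
      simp only [ψ, Prod.mk.injEq] at h
      cases hl : D.loc i with
      | none =>
        obtain ⟨h3, h4⟩ := lo_none x i hl hz
        have h5 := (pidx D ⟨i, hl, x, hz⟩).2
        cases hl' : D.loc i' with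
        | none =>
          obtain ⟨h3', h4'⟩ := lo_none x' i' hl' hz'
          have h1 : x = x' := hf (by omega)
          have h2 : (⟨i, hl, x, hz⟩ : Pers D) = ⟨i', hl', x', hz'⟩ :=
            (pidx D).injective (Fin.ext (by omega))
          have h6 : i = i' := congrArg Subtype.val h2
          rw [h1, h6]
        | some m' =>
          obtain ⟨h3', h4'⟩ := lo_some x' i' m' hl'
          omega
      | some m =>
        obtain ⟨h3, h4⟩ := lo_some x i m hl
        cases hl' : D.loc i' with
        | none =>
          obtain ⟨h3', h4'⟩ := lo_none x' i' hl' hz'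
          have h5 := (pidx D ⟨i', hl', x', hz'⟩).2
          omega
        | some m' =>
          obtain ⟨h3', h4'⟩ := lo_some x' i' m' hl'
          have h1 : x = x' := hf (by omega)
          have h2 : m = m' := hf (by omega)
          have h6 : i = i' := D.loc_inj i i' m hl (by rw [h2]; exact hl')
          rw [h1, h6]

/-! ### the main argument -/

/-- terms of all heights along a longest branch -/
theorem exists_branch (t : Term k) : ∃ (s : ℕ → Term k) (st : ℕ → Step k), s (ht t) = t ∧
    (∀ j, j < ht t → s (j + 1) = (st j).app (s j)) ∧ ∀ j, j ≤ ht t → ht (s j) = j := by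
  have ext : ∀ (t t' : Term k) (x : Step k), t' = x.app t → ht t' = ht t + 1 →
      (∃ (s : ℕ → Term k) (st : ℕ → Step k), s (ht t) = t ∧
        (∀ j, j < ht t → s (j + 1) = (st j).app (s j)) ∧ ∀ j, j ≤ ht t → ht (s j) = j) →
      ∃ (s : ℕ → Term k) (st : ℕ → Step k), s (ht t') = t' ∧
        (∀ j, j < ht t' → s (j + 1) = (st j).app (s j)) ∧ ∀ j, j ≤ ht t' → ht (s j) = j := by
    rintro t t' x hx hh ⟨s, st, h1, h2, h3⟩
    refine ⟨fun j => if j ≤ ht t then s j else t', fun j => if j < ht t then st j else x,
      ?_, ?_, ?_⟩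
    · simp [hh]
    · intro j hj
      by_cases h : j < ht t
      · have h4 : j + 1 ≤ ht t := h
        have h5 : j ≤ ht t := h.le
        simp only [h, h4, h5, if_true]
        exact h2 j h
      · have h4 : j = ht t := by omega
        subst h4
        simp only [le_refl, if_true, lt_irrefl, if_false, h1]
        rw [if_neg (by omega)]
        exact hx
    · intro j hj
      by_cases h : j ≤ ht t
      · simp only [h, if_true]; exact h3 j h
      · simp only [h, if_false]; omega
  induction t with
  | nil => exact ⟨fun _ => Term.nil, fun _ => Step.joinL Term.nil, rfl,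
      fun j hj => by simp [ht] at hj, fun j hj => by simp [ht] at hj ⊢; omega⟩
  | drop i S t ih => exact ext t _ (Step.drop i S) rfl rfl ih
  | join t₁ t₂ ih₁ ih₂ =>
    rcases le_total (ht t₁) (ht t₂) with h | h
    · exact ext t₂ _ (Step.joinR t₁) rfl (by simp only [ht]; omega) ih₂
    · exact ext t₁ _ (Step.joinL t₂) rfl (by simp only [ht]; omega) ih₁

theorem branch_app (s : ℕ → Term k) (st : ℕ → Step k) (n : ℕ)
    (h : ∀ j, j < n → s (j + 1) = (st j).app (s j)) (i j : ℕ) (hij : i ≤ j) (hj : j ≤ n) :
    ∃ c : List (Step k), c.length = j - i ∧ s j = app c (s i) := by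
  induction j, hij using Nat.le_induction with
  | base => exact ⟨[], by simp, rfl⟩
  | succ j hij ih =>
    obtain ⟨c, h1, h2⟩ := ih (by omega)
    refine ⟨st j :: c, by simp only [List.length_cons]; omega, ?_⟩
    rw [h j (by omega), h2]; rfl

theorem nu_zero_ed (t : Term k) (h : t.nu = 0) : t.ed = 0 := by
  have := ed_le t
  rw [h] at this
  omega

end Pump

open Pump in
theorem pump_bound {k h : ℕ} (L : List (ℕ × List (ℕ × ℕ))) (hL : ∀ c ∈ L, c.1 ≤ h) (r : ℝ)
    (hr : 0 ≤ r)
    (hper : ∀ a b : ℕ, ∀ E : ℕ → ℕ → Prop, a ≤ k → 1 ≤ b → b ≤ bmB k h →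
      (∀ N, InF L (perGraph a b E N)) → 2 * (cnt a b E : ℝ) ≤ r * b)
    (t : Term k) (ht : ∀ i, ¬ t.Used i) (hF : InF L t.intGraph) :
    2 * (t.ed : ℝ) ≤ r * t.nu + 2 * k * bmB k h := by
  classical
  -- strong induction on the size
  suffices main : ∀ n : ℕ, ∀ t : Term k, sz t ≤ n → (∀ i, ¬ t.Used i) → InF L t.intGraph →
      2 * (t.ed : ℝ) ≤ r * t.nu + 2 * k * bmB k h from main _ t le_rfl ht hF
  intro n
  induction n with
  | zero =>
    intro t ht
    exfalso
    cases t <;> simp [sz] at ht
  | succ n ih =>
    intro t hsz ht hF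
    by_cases hh : Pump.ht t ≤ tyB k h
    · -- small terms
      have h1 : t.nu ≤ bmB k h := (nu_le t).trans (Nat.pow_le_pow_right (by norm_num) hh)
      have h2 : t.ed ≤ k * bmB k h := (ed_le t).trans (Nat.mul_le_mul_left k h1)
      have h3 : (t.ed : ℝ) ≤ k * bmB k h := by exact_mod_cast h2
      have h4 : 0 ≤ r * (t.nu : ℝ) := mul_nonneg hr (Nat.cast_nonneg _)
      linarith
    · push Not at hh
      obtain ⟨s, st, hs1, hs2, hs3⟩ := exists_branch t
      -- pigeonhole
      let T : Set (Set (Set (Fin h) × (Fin k ⊕ Fin h → Fin k ⊕ Fin h → Prop))) :=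
        {I | ∃ t : Term k, (∀ i, t.Used i → i ∈ (Finset.univ : Finset (Fin k))) ∧ t.tinfo h = I}
      have hTfin : T.Finite := Set.toFinite T
      have hTc : T.ncard ≤ inB k h := by
        have := card_tinfo (k := k) (h := h) Finset.univ
        rwa [Finset.card_univ, Fintype.card_fin] at this
      let U : Set (Fin k) → Prop := fun _ => True
      let f : ℕ → (Set (Set (Fin h) × (Fin k ⊕ Fin h → Fin k ⊕ Fin h → Prop))) × Finset (Fin k) :=
        fun j => ((s j).tinfo h, Finset.univ.filter (fun i => (s j).Used i))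
      have hmaps : ∀ j ∈ Finset.range (tyB k h + 1), f j ∈ hTfin.toFinset ×ˢ
          (Finset.univ : Finset (Finset (Fin k))) := by
        intro j _
        rw [Finset.mem_product]
        refine ⟨?_, Finset.mem_univ _⟩
        rw [Set.Finite.mem_toFinset]
        exact ⟨s j, fun i _ => Finset.mem_univ i, rfl⟩
      have hcard : (hTfin.toFinset ×ˢ (Finset.univ : Finset (Finset (Fin k)))).card
          < (Finset.range (tyB k h + 1)).card := by
        rw [Finset.card_product, Finset.card_range, Finset.card_univ, Fintype.card_finset,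
          Fintype.card_fin, ← Set.ncard_eq_toFinset_card T hTfin]
        exact Nat.lt_succ_of_le (Nat.mul_le_mul_right _ hTc)
      obtain ⟨i0, hi0, j0, hj0, hne, hfe⟩ :=
        Finset.exists_ne_map_eq_of_card_lt_of_maps_to hcard hmaps
      rw [Finset.mem_range] at hi0 hj0
      obtain ⟨i, j, hij, hjm, hfe⟩ : ∃ i j, i < j ∧ j ≤ tyB k h ∧ f i = f j := by
        rcases lt_or_gt_of_ne hne with h | h
        · exact ⟨i0, j0, h, by omega, hfe⟩
        · exact ⟨j0, i0, h, by omega, hfe.symm⟩
      have htin : (s i).tinfo h = (s j).tinfo h := congrArg Prod.fst hfe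
      have hused : ∀ x, (s i).Used x ↔ (s j).Used x := by
        intro x
        have := congrArg (fun A : Finset (Fin k) => x ∈ A) (congrArg Prod.snd hfe)
        simpa [f] using this
      obtain ⟨c, hc1, hc2⟩ := branch_app s st _ hs2 i j hij.le (by omega)
      obtain ⟨C, hC1, hC2⟩ := branch_app s st _ hs2 j (Pump.ht t) (by omega) le_rfl
      rw [hs1] at hC2
      obtain ⟨D⟩ := exists_cd c
      -- the smaller term
      have hsmall_sz : sz (app C (s i)) < sz t := by
        rw [hC2]
        apply sz_app_lt
        have := sz_app c (s i)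
        rw [← hc2] at this
        omega
      have hsmall_used : ∀ x, ¬ (app C (s i)).Used x := by
        intro x hx
        rw [used_app C (s i) (s j) hused x] at hx
        rw [← hC2] at hx
        exact ht x hx
      have hsmall_F : InF L (app C (s i)).intGraph := by
        refine inF_of_tinfo L hL t _ ?_ hF
        rw [hC2]
        exact (tinfo_app C _ _ htin).symm
      have hsmall := ih (app C (s i)) (by omega) hsmall_used hsmall_F
      -- counting
      have e1 : t.ed = (app C (s i)).ed + (app c Term.nil).ed := by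
        rw [hC2, ed_app C (s j), ed_app C (s i), hc2, ed_app c (s i)]; ring
      have e2 : t.nu = (app C (s i)).nu + (app c Term.nil).nu := by
        rw [hC2, nu_app C (s j), nu_app C (s i), hc2, nu_app c (s i)]; ring
      have hb : pb c = (app c Term.nil).nu := pb_eq c
      have key : 2 * ((app c Term.nil).ed : ℝ) ≤ r * ((app c Term.nil).nu : ℝ) := by
        rcases Nat.eq_zero_or_pos (app c Term.nil).nu with h0 | h0
        · rw [h0, nu_zero_ed _ h0]; simp
        · have hble : pb c ≤ bmB k h := by
            rw [hb]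
            have h1 : (s j).nu = (s i).nu + (app c Term.nil).nu := by
              rw [hc2]; exact nu_app c (s i)
            have h2 := nu_le (s j)
            rw [hs3 j (by omega)] at h2
            have h3 : 2 ^ j ≤ bmB k h := Nat.pow_le_pow_right (by norm_num) hjm
            omega
          have hall : ∀ N, InF L (perGraph (pa D) (pb c) (pE D) N) := by
            intro N g hg hmin
            have hcl : ∀ x, ¬ (app C (app c (s i))).Used x := by
              rw [← hc2, ← hC2]; exact ht
            have hemb := embed D (s i) hcl N (by omega)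
            have hFN : InF L (app C (it c (s i) (N + 1))).intGraph := by
              refine inF_of_tinfo L hL t _ ?_ hF
              rw [hC2]
              apply tinfo_app
              rw [it_tinfo c (s i) (by rw [← hc2]; exact htin.symm)]
              exact htin.symm
            exact hFN g hg (hmin.trans hemb)
          have h1 := hper (pa D) (pb c) (pE D) (pa_le D) (by omega) hble hall
          have h2 : ((app c Term.nil).ed : ℝ) ≤ (cnt (pa D) (pb c) (pE D) : ℝ) := by
            exact_mod_cast ed_le_cnt D
          rw [hb] at h1 h2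
          linarith
      rw [e1, e2]
      push_cast
      nlinarith [hsmall, key]

namespace Pump

/-! ### periodic graphs -/

/-- the pattern with indices `< n` for the graph `gOf c` -/
def patR (h : ℕ) (c : ℕ × List (ℕ × ℕ)) : Fin 0 ⊕ Fin h → Fin 0 ⊕ Fin h → Prop
  | Sum.inr i, Sum.inr j => ∃ (hi : (i : ℕ) < c.1) (hj : (j : ℕ) < c.1),
      (gOf c).Adj ⟨i, hi⟩ ⟨j, hj⟩
  | _, _ => False

def patJ (h : ℕ) (c : ℕ × List (ℕ × ℕ)) : Set (Fin h) := {j | (j : ℕ) < c.1}

theorem isMinor_iff_info {V : Type} {h : ℕ} (c : ℕ × List (ℕ × ℕ)) (hc : c.1 ≤ h)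
    (G : SimpleGraph V) (ρ : Fin 0 → V) :
    IsMinor (gOf c) G ↔ (patJ h c, patR h c) ∈ info h G ρ := by
  classical
  constructor
  · rintro ⟨B, h1, h2, h3⟩
    refine ⟨fun x => match x with
      | Sum.inl _ => ∅
      | Sum.inr j => if hj : (j : ℕ) < c.1 then B ⟨j, hj⟩ else ∅, ?_, ?_, ?_, ?_, ?_⟩
    · intro i; exact i.elim0
    · intro j hj
      have hj' : (j : ℕ) < c.1 := hj
      simp only [hj', dif_pos]
      exact h1 _
    · intro j hj
      have hj' : ¬ (j : ℕ) < c.1 := hj
      simp only [hj', dif_neg, not_false_eq_true]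
    · intro x y hxy
      match x, y, hxy with
      | Sum.inl i, _, _ => exact i.elim0
      | _, Sum.inl i, _ => exact i.elim0
      | Sum.inr i, Sum.inr j, hxy =>
        by_cases hi : (i : ℕ) < c.1 <;> by_cases hj : (j : ℕ) < c.1
        · simp only [hi, hj, dif_pos]
          apply h2
          intro h
          apply hxy
          rw [Fin.mk.injEq] at h
          rw [Fin.ext h]
        · simp [hj]
        · simp [hi]
        · simp [hi]
    · intro x y hxy hR
      match x, y, hxy, hR with
      | Sum.inl i, _, _, _ => exact i.elim0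
      | _, Sum.inl i, _, _ => exact i.elim0
      | Sum.inr i, Sum.inr j, hxy, ⟨hi, hj, hadj⟩ =>
        simp only [hi, hj, dif_pos]
        exact h3 _ _ hadj
  · rintro ⟨B, _, h2, _, h4, h5⟩
    refine ⟨fun w => B (Sum.inr (Fin.castLE hc w)), ?_, ?_, ?_⟩
    · intro w
      exact h2 _ w.2
    · intro w w' hne
      apply h4
      intro h
      apply hne
      have := Sum.inr_injective h
      exact Fin.castLE_injective hc this
    · intro w w' hadj
      apply h5
      · intro h
        have := Fin.castLE_injective hc (Sum.inr_injective h)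
        exact hadj.ne this
      · exact ⟨w.2, w'.2, hadj⟩

theorem glue_bot {V : Type} {k : ℕ} (G : SimpleGraph V) (ρ : Fin k → V)
    (hρ : Function.Injective ρ) :
    IsGlue G ρ (⊥ : SimpleGraph (Fin k)) id G id ρ where
  inj₁ := Function.injective_id
  inj₂ := hρ
  root := fun i => rfl
  inter := fun x y h => ⟨y, h, rfl⟩
  cover := fun v => Or.inl ⟨v, rfl⟩
  adj₁ := fun a b h => h
  adj₂ := fun a b h => h.elim
  adj := fun x y h => Or.inl ⟨x, y, h, rfl, rfl⟩

theorem inF_of_info {V V' : Type} [Finite V'] {k h : ℕ} (L : List (ℕ × List (ℕ × ℕ)))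
    (hL : ∀ c ∈ L, c.1 ≤ h) (G : SimpleGraph V) (ρ : Fin k → V) (hρ : Function.Injective ρ)
    (G' : SimpleGraph V') (ρ' : Fin k → V') (hρ' : Function.Injective ρ')
    (hinfo : info h G' ρ' ⊆ info h G ρ) (hF : InF L G) : InF L G' := by
  intro c hc hmin
  have h1 := replacement Function.injective_id (glue_bot G' ρ' hρ') (glue_bot G ρ hρ)
    (Fin.elim0 : Fin 0 → Fin k) hinfo
  have h2 := (isMinor_iff_info (h := h) c (hL c hc) G' (ρ' ∘ Fin.elim0)).1 hmin
  exact hF c hc ((isMinor_iff_info (h := h) c (hL c hc) G (ρ ∘ Fin.elim0)).2 (h1 h2))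

theorem sh_lt {a b N n j : ℕ} (hj : j < a + n * b) : sh a b N j < a + (N + n) * b := by
  unfold sh
  rw [Nat.add_mul]
  split_ifs <;> omega

theorem sh_inj {a b N x y : ℕ} (h : sh a b N x = sh a b N y) : x = y := by
  unfold sh at h
  split_ifs at h <;> omega

/-- the roots: persistent vertices and last block -/
def rt (a b N : ℕ) (j : Fin (a + b)) : Fin (a + (N + 1) * b) :=
  ⟨sh a b N j, sh_lt (by have := j.2; omega)⟩

theorem rt_inj (a b N : ℕ) : Function.Injective (rt a b N) := by
  intro x y h
  exact Fin.ext (sh_inj (Fin.mk.inj_iff.1 h))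

/-- the pattern as a graph -/
def patG (a b : ℕ) (E : ℕ → ℕ → Prop) : SimpleGraph (Fin (a + 2 * b)) where
  Adj x y := x ≠ y ∧ (E x y ∨ E y x)
  symm := ⟨fun _ _ h => ⟨h.1.symm, h.2.symm⟩⟩
  loopless := ⟨fun _ h => h.1 rfl⟩

theorem glue_per (a b : ℕ) (E : ℕ → ℕ → Prop) (N : ℕ) :
    IsGlue (perGraph a b E N) (rt a b N) (patG a b E)
      (fun j : Fin (a + b) => (⟨j, by have := j.2; omega⟩ : Fin (a + 2 * b)))
      (perGraph a b E (N + 1))
      (fun x => ⟨x, by have := x.2; rw [Nat.add_mul (N + 1)]; omega⟩)
      (fun x => ⟨sh a b N x, sh_lt x.2⟩) where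
  inj₁ := fun x y h => Fin.ext (Fin.mk.inj_iff.1 h)
  inj₂ := fun x y h => Fin.ext (sh_inj (Fin.mk.inj_iff.1 h))
  root := fun i => rfl
  inter := fun x y h => by
    have h1 : (x : ℕ) = sh a b N y := Fin.mk.inj_iff.1 h
    have h2 : (y : ℕ) < a + b := by
      have h3 := x.2
      rw [h1] at h3
      unfold sh at h3
      rw [Nat.add_mul, one_mul] at h3
      split_ifs at h3 <;> omega
    exact ⟨⟨y, h2⟩, Fin.ext h1, Fin.ext rfl⟩
  cover := fun v => by
    by_cases h : (v : ℕ) < a + (N + 1) * b
    · exact Or.inl ⟨⟨v, h⟩, rfl⟩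
    · right
      have h2 : (v : ℕ) < a + (N + 1 + 1) * b := v.2
      have e1 : (N + 1) * b = N * b + b := by ring
      have e2 : (N + 1 + 1) * b = N * b + 2 * b := by ring
      rw [e1] at h
      refine ⟨⟨v - N * b, by omega⟩, Fin.ext ?_⟩
      show sh a b N (v - N * b) = v
      rw [sh, if_neg (by omega)]
      omega
  adj₁ := fun x y h => by
    obtain ⟨hne, i, u, v, hi, hu, hv, hE, hx, hy⟩ := h
    refine ⟨fun h => hne (Fin.ext (Fin.mk.inj_iff.1 h)), i, u, v, by omega, hu, hv, hE, hx, hy⟩
  adj₂ := fun x y h => by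
    refine ⟨fun h' => h.1 (Fin.ext (sh_inj (Fin.mk.inj_iff.1 h'))), N, x, y, by omega, x.2, y.2,
      h.2, rfl, rfl⟩
  adj := fun x y h => by
    obtain ⟨hne, i, u, v, hi, hu, hv, hE, hx, hy⟩ := h
    by_cases h1 : i = N
    · right
      subst h1
      refine ⟨⟨u, hu⟩, ⟨v, hv⟩, ⟨?_, hE⟩, Fin.ext hx, Fin.ext hy⟩
      intro h
      have h2 : u = v := Fin.mk.inj_iff.1 h
      apply hne
      apply Fin.ext
      rw [← hx, ← hy, h2]
    · left
      have h2 : ∀ w, w < a + 2 * b → sh a b i w < a + (N + 1) * b := by
        intro w hw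
        have h3 : sh a b i w < a + (i + 2) * b := sh_lt hw
        have h4 : (i + 2) * b ≤ (N + 1) * b := Nat.mul_le_mul_right _ (by omega)
        omega
      refine ⟨⟨sh a b i u, h2 u hu⟩, ⟨sh a b i v, h2 v hv⟩, ⟨?_, i, u, v, by omega, hu, hv, hE,
        rfl, rfl⟩, Fin.ext hx, Fin.ext hy⟩
      intro h
      apply hne
      apply Fin.ext
      rw [← hx, ← hy]
      exact Fin.mk.inj_iff.1 h

theorem rt_succ (a b N : ℕ) :
    (fun x : Fin (a + 2 * b) => (⟨sh a b N x, sh_lt x.2⟩ : Fin (a + (N + 1 + 1) * b))) ∘
      (fun j : Fin (a + b) => (⟨sh a b 1 j, by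
        have := sh_lt (N := 1) (n := 1) (a := a) (b := b) (j := j) (by have := j.2; omega)
        omega⟩ : Fin (a + 2 * b))) = rt a b (N + 1) := by
  funext j
  apply Fin.ext
  show sh a b N (sh a b 1 j) = sh a b (N + 1) j
  unfold sh
  split_ifs
  · rfl
  · omega
  · ring

theorem info_per_succ (a b : ℕ) (E : ℕ → ℕ → Prop) (h N N' : ℕ)
    (hi : info h (perGraph a b E N) (rt a b N) = info h (perGraph a b E N') (rt a b N')) :
    info h (perGraph a b E (N + 1)) (rt a b (N + 1)) =
      info h (perGraph a b E (N' + 1)) (rt a b (N' + 1)) := by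
  have hα : Function.Injective
      (fun j : Fin (a + b) => (⟨j, by have := j.2; omega⟩ : Fin (a + 2 * b))) :=
    fun x y h => Fin.ext (Fin.mk.inj_iff.1 h)
  rw [← rt_succ a b N, ← rt_succ a b N']
  exact Set.Subset.antisymm
    (replacement hα (glue_per a b E N) (glue_per a b E N') _ hi.subset)
    (replacement hα (glue_per a b E N') (glue_per a b E N) _ hi.symm.subset)

theorem card_info_type (q h : ℕ) :
    Nat.card (Set (Set (Fin h) × (Fin q ⊕ Fin h → Fin q ⊕ Fin h → Prop))) = inB q h := by
  classical
  have h1 : Nat.card (Set (Fin h) × (Fin q ⊕ Fin h → Fin q ⊕ Fin h → Prop))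
      = 2 ^ h * 2 ^ ((q + h) * (q + h)) := by
    rw [Nat.card_prod]
    congr 1
    · rw [show Set (Fin h) = (Fin h → Prop) from rfl, Nat.card_eq_fintype_card]
      simp
    · rw [Nat.card_eq_fintype_card]
      simp [← pow_mul]
  have h2 : ∀ X : Type, [Finite X] → Nat.card (Set X) = 2 ^ Nat.card X := by
    intro X _
    haveI := Fintype.ofFinite X
    rw [show Set X = (X → Prop) from rfl, Nat.card_eq_fintype_card, Nat.card_eq_fintype_card]
    simp
  rw [h2, h1]
  rfl

theorem per_mono (a b : ℕ) (E : ℕ → ℕ → Prop) {N N' : ℕ} (h : N ≤ N') :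
    IsMinor (perGraph a b E N) (perGraph a b E N') := by
  have hle : a + (N + 1) * b ≤ a + (N' + 1) * b :=
    Nat.add_le_add_left (Nat.mul_le_mul_right _ (by omega)) _
  refine isMinor_of_hom (Fin.castLE hle) (Fin.castLE_injective hle) ?_
  rintro x y ⟨hne, i, u, v, hi, hu, hv, hE, hx, hy⟩
  exact ⟨fun h => hne (Fin.castLE_injective hle h), i, u, v, by omega, hu, hv, hE, hx, hy⟩

end Pump

open Pump in
theorem per_all {h : ℕ} (L : List (ℕ × List (ℕ × ℕ))) (hL : ∀ c ∈ L, c.1 ≤ h) (a b : ℕ)
    (hb : 1 ≤ b) (E : ℕ → ℕ → Prop) (hF : InF L (perGraph a b E (inB (a + b) h))) :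
    ∀ N, InF L (perGraph a b E N) := by
  classical
  have hbase : ∀ N, N ≤ inB (a + b) h → InF L (perGraph a b E N) := by
    intro N hN g hg hmin
    exact hF g hg (hmin.trans (per_mono a b E hN))
  obtain ⟨i, j, hij, hj, hfe⟩ : ∃ i j, i < j ∧ j ≤ inB (a + b) h ∧
      info h (perGraph a b E i) (rt a b i) = info h (perGraph a b E j) (rt a b j) := by
    let f : Fin (inB (a + b) h + 1) →
        Set (Set (Fin h) × (Fin (a + b) ⊕ Fin h → Fin (a + b) ⊕ Fin h → Prop)) :=
      fun i => info h (perGraph a b E i) (rt a b i)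
    haveI : Fintype (Set (Set (Fin h) × (Fin (a + b) ⊕ Fin h → Fin (a + b) ⊕ Fin h → Prop))) :=
      Fintype.ofFinite _
    obtain ⟨x, y, hne, hxy⟩ := Fintype.exists_ne_map_eq_of_card_lt f (by
      rw [← Nat.card_eq_fintype_card, card_info_type, Fintype.card_fin]
      omega)
    rcases lt_or_gt_of_ne hne with h' | h'
    · exact ⟨x, y, h', by have := y.2; omega, hxy⟩
    · exact ⟨y, x, h', by have := x.2; omega, hxy.symm⟩
  have hper : ∀ s, info h (perGraph a b E (i + s)) (rt a b (i + s)) =
      info h (perGraph a b E (j + s)) (rt a b (j + s)) := by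
    intro s
    induction s with
    | zero => exact hfe
    | succ s ih => exact info_per_succ a b E h _ _ ih
  intro N
  induction N using Nat.strong_induction_on with
  | _ N ih =>
    by_cases hN : N ≤ inB (a + b) h
    · exact hbase N hN
    · have h1 := ih (i + (N - j)) (by omega)
      have h2 := hper (N - j)
      rw [show j + (N - j) = N by omega] at h2
      exact inF_of_info L hL _ _ (rt_inj a b _) _ _ (rt_inj a b _) h2.symm.subset h1

open Classical in
/-- number of edges of periodic graphs -/
theorem card_edge_per (a b : ℕ) (E : ℕ → ℕ → Prop) (N : ℕ) (hb : 1 ≤ b) :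
    N * cnt a b E ≤ (perGraph a b E N).edgeSet.ncard := by
  classical
  let T : Finset (ℕ × ℕ) := ((Finset.range (a + 2 * b)) ×ˢ (Finset.range (a + 2 * b))).filter
    (fun p => p.1 < p.2 ∧ a + b ≤ p.2 ∧ (E p.1 p.2 ∨ E p.2 p.1))
  have hT : cnt a b E = T.card := rfl
  have hTm : ∀ p ∈ T, p.1 < a + 2 * b ∧ p.2 < a + 2 * b ∧ p.1 < p.2 ∧ a + b ≤ p.2 ∧
      (E p.1 p.2 ∨ E p.2 p.1) := by
    intro p hp
    simp only [T, Finset.mem_filter, Finset.mem_product, Finset.mem_range] at hp
    exact ⟨hp.1.1, hp.1.2, hp.2⟩
  have hlt : ∀ i, i < N → ∀ w, w < a + 2 * b → sh a b i w < a + (N + 1) * b := by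
    intro i hi w hw
    have h3 : sh a b i w < a + (i + 2) * b := Pump.sh_lt hw
    have h4 : (i + 2) * b ≤ (N + 1) * b := Nat.mul_le_mul_right _ (by omega)
    omega
  let ψ : ℕ × (ℕ × ℕ) → Sym2 (Fin (a + (N + 1) * b)) := fun z =>
    if h : z.1 < N ∧ z.2.1 < a + 2 * b ∧ z.2.2 < a + 2 * b then
      s(⟨sh a b z.1 z.2.1, hlt _ h.1 _ h.2.1⟩, ⟨sh a b z.1 z.2.2, hlt _ h.1 _ h.2.2⟩)
    else s(⟨0, by
      have : 1 ≤ (N + 1) * b := Nat.mul_pos (Nat.succ_pos _) hb
      omega⟩, ⟨0, by
      have : 1 ≤ (N + 1) * b := Nat.mul_pos (Nat.succ_pos _) hb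
      omega⟩)
  have hcard : N * cnt a b E = ((Finset.range N) ×ˢ T).card := by
    rw [Finset.card_product, Finset.card_range, hT]
  rw [hcard, Set.ncard_eq_toFinset_card' (perGraph a b E N).edgeSet]
  refine Finset.card_le_card_of_injOn ψ ?_ ?_
  · rintro ⟨i, u, v⟩ hz
    rw [Finset.mem_coe, Finset.mem_product, Finset.mem_range] at hz
    obtain ⟨hi, hz⟩ := hz
    obtain ⟨hu, hv, huv, hvb, hE⟩ := hTm _ hz
    simp only at hi hu hv huv hvb hE
    rw [Finset.mem_coe, Set.mem_toFinset]
    have hc : i < N ∧ u < a + 2 * b ∧ v < a + 2 * b := ⟨hi, hu, hv⟩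
    simp only [ψ, hc, and_self, dif_pos, SimpleGraph.mem_edgeSet]
    refine ⟨?_, i, u, v, hi, hu, hv, hE, rfl, rfl⟩
    intro h
    have := Pump.sh_inj (Fin.mk.inj_iff.1 h)
    omega
  · rintro ⟨i, u, v⟩ hz ⟨i', u', v'⟩ hz' h
    rw [Finset.mem_coe, Finset.mem_product, Finset.mem_range] at hz hz'
    obtain ⟨hi, hz⟩ := hz
    obtain ⟨hi', hz'⟩ := hz'
    obtain ⟨hu, hv, huv, hvb, hE⟩ := hTm _ hz
    obtain ⟨hu', hv', huv', hvb', hE'⟩ := hTm _ hz'
    simp only at hi hu hv huv hvb hE hi' hu' hv' huv' hvb' hE'
    have hc : i < N ∧ u < a + 2 * b ∧ v < a + 2 * b := ⟨hi, hu, hv⟩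
    have hc' : i' < N ∧ u' < a + 2 * b ∧ v' < a + 2 * b := ⟨hi', hu', hv'⟩
    simp only [ψ, hc, hc', and_self, dif_pos, Sym2.eq_iff, Fin.mk.injEq] at h
    have hlt1 : sh a b i u < sh a b i v := by unfold sh; split_ifs <;> omega
    have hlt2 : sh a b i' u' < sh a b i' v' := by unfold sh; split_ifs <;> omega
    obtain ⟨h1, h2⟩ : sh a b i u = sh a b i' u' ∧ sh a b i v = sh a b i' v' := by
      rcases h with h | h
      · exact h
      · omega
    have hii : i = i' := by
      unfold sh at h2
      rw [if_neg (by omega), if_neg (by omega)] at h2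
      rcases lt_trichotomy i i' with h3 | h3 | h3
      · have : (i + 1) * b ≤ i' * b := Nat.mul_le_mul_right _ h3
        rw [Nat.add_mul] at this
        omega
      · exact h3
      · have : (i' + 1) * b ≤ i * b := Nat.mul_le_mul_right _ h3
        rw [Nat.add_mul] at this
        omega
    subst hii
    rw [Pump.sh_inj h1, Pump.sh_inj h2]

end Pool.Agent.Lib.MP_4d119b_lc
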