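import Pool.Agent.Lib.MP_4d119b_lc.Iface

/-! Narrow graphs are represented by terms of bounded width (job Rep). -/

set_option linter.unusedVariables false

namespace Pool.Agent.Lib.MP_4d119b_lc

open Set

namespace RepAux

variable {V : Type} {k : ℕ}

theorem narrow_mono [Finite V] {G : SimpleGraph V} {U A : Set V} {κ : ℕ} (h : Narrow G U κ)
    (hA : A ⊆ U) : Narrow G A κ := by
  intro W hW hWc
  obtain ⟨A1, B1, h1, h2, h3, h4, h5⟩ := h W (hW.trans hA) hWc
  refine ⟨A1 ∩ A, B1 ∩ A, ?_, ?_, ?_, ?_, ?_⟩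
  · rw [← union_inter_distrib_right, h1, inter_eq_right.2 hA]
  · rintro x ⟨⟨hx1, hx2⟩, hx3⟩ y ⟨⟨hy1, hy2⟩, hy3⟩
    exact h2 x ⟨hx1, fun h => hx3 ⟨h, hx2⟩⟩ y ⟨hy1, fun h => hy3 ⟨h, hy2⟩⟩
  · refine lt_of_le_of_lt (ncard_le_ncard ?_ (toFinite _)) h3
    exact inter_subset_inter inter_subset_left inter_subset_left
  · refine le_trans (ncard_le_ncard ?_ (toFinite _)) h4
    rintro x ⟨hx, ⟨hx1, hx2⟩, hx3⟩
    exact ⟨hx, hx1, fun h => hx3 ⟨h, hx2⟩⟩
  · refine le_trans (ncard_le_ncard ?_ (toFinite _)) h5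
    rintro x ⟨hx, ⟨hx1, hx2⟩, hx3⟩
    exact ⟨hx, hx1, fun h => hx3 ⟨h, hx2⟩⟩

theorem repBy_congr {G : SimpleGraph V} {t : Term k} {Y X : Set V} {σ σ' : V → Fin k}
    (h : t.RepBy G Y X σ) (hσ : ∀ x ∈ X, σ' x = σ x) : t.RepBy G Y X σ' := by
  obtain ⟨φ, h1, h2, h3, h4⟩ := h
  refine ⟨φ, h1, h2, h3, fun a i => ?_⟩
  rw [h4]
  constructor
  · rintro ⟨x, hx, h5, h6⟩
    exact ⟨x, hx, (hσ x hx).trans h5, h6⟩
  · rintro ⟨x, hx, h5, h6⟩
    exact ⟨x, hx, (hσ x hx).symm.trans h5, h6⟩

open Classical in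
theorem repBy_drop {G : SimpleGraph V} {t : Term k} {Y X : Set V} {σ : V → Fin k} {v : V}
    (h : t.RepBy G Y (insert v X) σ) (hv : v ∉ X) (hσ : InjOn σ (insert v X)) (hvY : v ∉ Y) :
    (Term.drop (σ v) (Finset.univ.filter fun j => ∃ x ∈ X, σ x = j ∧ G.Adj v x) t).RepBy G
      (insert v Y) X σ := by
  obtain ⟨φ, h1, h2, h3, h4⟩ := h
  have hne : ∀ x ∈ X, σ x ≠ σ v := by
    intro x hx he
    exact hv (hσ (mem_insert_of_mem v hx) (mem_insert v X) he ▸ hx)
  have hmem : ∀ a, φ a ∈ Y := fun a => h2 ▸ mem_range_self a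
  let ψ : Option t.Int → V := fun o => o.elim v φ
  refine ⟨ψ, ?_, ?_, ?_, ?_⟩
  · intro x y hxy
    match x, y with
    | none, none => rfl
    | none, some b => exact absurd (show v = φ b from hxy) (fun h => hvY (h ▸ hmem b))
    | some a, none => exact absurd (show φ a = v from hxy) (fun h => hvY (h ▸ hmem a))
    | some a, some b => exact congrArg some (h1 hxy)
  · ext y
    constructor
    · rintro ⟨x, hx⟩
      match x with
      | none => exact Or.inl hx.symm
      | some a => exact Or.inr (hx ▸ hmem a)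
    · rintro (hy | hy)
      · exact ⟨none, hy.symm⟩
      · rw [← h2] at hy
        obtain ⟨a, ha⟩ := hy
        exact ⟨some a, ha⟩
  · intro x y
    have key : ∀ b, t.is b (σ v) ↔ G.Adj v (φ b) := by
      intro b
      rw [h4]
      constructor
      · rintro ⟨x, hx, h5, h6⟩
        rcases hx with rfl | hx
        · exact h6.symm
        · exact absurd h5 (hne x hx)
      · intro h
        exact ⟨v, mem_insert _ _, rfl, h.symm⟩
    match x, y with
    | none, none => exact ⟨fun h => h.elim, fun h => G.loopless.irrefl v h⟩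
    | none, some b => exact key b
    | some a, none => exact (key a).trans ⟨fun h => h.symm, fun h => h.symm⟩
    | some a, some b => exact h3 a b
  · intro x j
    match x with
    | none =>
      show (j ∈ Finset.univ.filter (fun j => ∃ x ∈ X, σ x = j ∧ G.Adj v x) ∧ j ≠ σ v) ↔
        ∃ x ∈ X, σ x = j ∧ G.Adj v x
      rw [Finset.mem_filter]
      constructor
      · rintro ⟨⟨_, h⟩, _⟩
        exact h
      · rintro ⟨x, hx, h5, h6⟩
        exact ⟨⟨Finset.mem_univ _, x, hx, h5, h6⟩, h5 ▸ hne x hx⟩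
    | some a =>
      show (t.is a j ∧ j ≠ σ v) ↔ ∃ x ∈ X, σ x = j ∧ G.Adj (φ a) x
      rw [h4]
      constructor
      · rintro ⟨⟨x, hx, h5, h6⟩, h7⟩
        rcases hx with rfl | hx
        · exact absurd h5.symm h7
        · exact ⟨x, hx, h5, h6⟩
      · rintro ⟨x, hx, h5, h6⟩
        exact ⟨⟨x, mem_insert_of_mem _ hx, h5, h6⟩, h5 ▸ hne x hx⟩

theorem repBy_drops {G : SimpleGraph V} {X : Set V} {σ : V → Fin k} {D : Set V} (hD : D.Finite) :
    ∀ (t : Term k) (Y : Set V), Disjoint D X → Disjoint D Y → InjOn σ (D ∪ X) →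
      t.RepBy G Y (D ∪ X) σ → ∃ t' : Term k, t'.RepBy G (D ∪ Y) X σ := by
  induction D, hD using Set.Finite.induction_on with
  | empty =>
    intro t Y _ _ _ h
    rw [empty_union] at h
    exact ⟨t, by rw [empty_union]; exact h⟩
  | @insert v D hv hD ih =>
    intro t Y h1 h2 h3 h4
    rw [insert_union] at h3 h4
    have hvX : v ∉ X := fun h => Set.disjoint_left.1 h1 (mem_insert _ _) h
    have hvY : v ∉ Y := fun h => Set.disjoint_left.1 h2 (mem_insert _ _) h
    have hvDX : v ∉ D ∪ X := fun h => h.elim hv hvX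
    have h5 := repBy_drop h4 hvDX h3 hvY
    have h6 := ih _ (insert v Y) (h1.mono_left (subset_insert _ _))
      (by
        rw [Set.disjoint_left]
        rintro x hx (rfl | hxY)
        · exact hv hx
        · exact Set.disjoint_left.1 h2 (mem_insert_of_mem _ hx) hxY)
      (h3.mono (subset_insert _ _)) h5
    rwa [union_insert, ← insert_union] at h6

theorem repBy_join {G : SimpleGraph V} {t₁ t₂ : Term k} {Y₁ X₁ Y₂ X₂ : Set V} {σ : V → Fin k}
    (h₁ : t₁.RepBy G Y₁ X₁ σ) (h₂ : t₂.RepBy G Y₂ X₂ σ) (hY : Disjoint Y₁ Y₂)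
    (hno : ∀ x ∈ Y₁, ∀ y ∈ Y₂, ¬ G.Adj x y)
    (hno₁ : ∀ x ∈ Y₁, ∀ y ∈ X₂, G.Adj x y → y ∈ X₁)
    (hno₂ : ∀ x ∈ Y₂, ∀ y ∈ X₁, G.Adj x y → y ∈ X₂) :
    (Term.join t₁ t₂).RepBy G (Y₁ ∪ Y₂) (X₁ ∪ X₂) σ := by
  obtain ⟨φ₁, a1, a2, a3, a4⟩ := h₁
  obtain ⟨φ₂, b1, b2, b3, b4⟩ := h₂
  have hm₁ : ∀ a, φ₁ a ∈ Y₁ := fun a => a2 ▸ mem_range_self a
  have hm₂ : ∀ a, φ₂ a ∈ Y₂ := fun a => b2 ▸ mem_range_self a
  let ψ : t₁.Int ⊕ t₂.Int → V := Sum.elim φ₁ φ₂
  refine ⟨ψ, ?_, ?_, ?_, ?_⟩
  · intro x y hxy
    match x, y with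
    | Sum.inl a, Sum.inl b => exact congrArg Sum.inl (a1 hxy)
    | Sum.inr a, Sum.inr b => exact congrArg Sum.inr (b1 hxy)
    | Sum.inl a, Sum.inr b =>
      exact absurd (show φ₁ a = φ₂ b from hxy)
        (fun h => Set.disjoint_left.1 hY (hm₁ a) (h ▸ hm₂ b))
    | Sum.inr a, Sum.inl b =>
      exact absurd (show φ₂ a = φ₁ b from hxy)
        (fun h => Set.disjoint_left.1 hY (hm₁ b) (h ▸ hm₂ a))
  · ext y
    constructor
    · rintro ⟨x, hx⟩
      match x with
      | Sum.inl a => exact Or.inl (hx ▸ hm₁ a)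
      | Sum.inr a => exact Or.inr (hx ▸ hm₂ a)
    · rintro (hy | hy)
      · rw [← a2] at hy
        obtain ⟨a, ha⟩ := hy
        exact ⟨Sum.inl a, ha⟩
      · rw [← b2] at hy
        obtain ⟨a, ha⟩ := hy
        exact ⟨Sum.inr a, ha⟩
  · intro x y
    match x, y with
    | Sum.inl a, Sum.inl b => exact a3 a b
    | Sum.inr a, Sum.inr b => exact b3 a b
    | Sum.inl a, Sum.inr b =>
      exact ⟨fun h => h.elim, fun h => hno _ (hm₁ a) _ (hm₂ b) h⟩
    | Sum.inr a, Sum.inl b =>
      exact ⟨fun h => h.elim, fun h => hno _ (hm₁ b) _ (hm₂ a) h.symm⟩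
  · intro x j
    match x with
    | Sum.inl a =>
      show t₁.is a j ↔ ∃ x ∈ X₁ ∪ X₂, σ x = j ∧ G.Adj (φ₁ a) x
      rw [a4]
      constructor
      · rintro ⟨x, hx, h5, h6⟩
        exact ⟨x, Or.inl hx, h5, h6⟩
      · rintro ⟨x, hx | hx, h5, h6⟩
        · exact ⟨x, hx, h5, h6⟩
        · exact ⟨x, hno₁ _ (hm₁ a) x hx h6, h5, h6⟩
    | Sum.inr a =>
      show t₂.is a j ↔ ∃ x ∈ X₁ ∪ X₂, σ x = j ∧ G.Adj (φ₂ a) x
      rw [b4]
      constructor
      · rintro ⟨x, hx, h5, h6⟩
        exact ⟨x, Or.inr hx, h5, h6⟩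
      · rintro ⟨x, hx | hx, h5, h6⟩
        · exact ⟨x, hno₂ _ (hm₂ a) x hx h6, h5, h6⟩
        · exact ⟨x, hx, h5, h6⟩

/-- extending an injection -/
theorem exists_extend {X : Set V} {σ : V → Fin k} (hσ : InjOn σ X) {D : Set V} (hD : D.Finite)
    (hX : X.Finite) (hc : (D ∪ X).ncard ≤ k) :
    ∃ σ' : V → Fin k, InjOn σ' (D ∪ X) ∧ ∀ x ∈ X, σ' x = σ x := by
  classical
  induction D, hD using Set.Finite.induction_on with
  | empty => exact ⟨σ, by rwa [empty_union], fun _ _ => rfl⟩
  | @insert v D hv hD ih =>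
    have hfin : (D ∪ X).Finite := hD.union hX
    obtain ⟨σ', h1, h2⟩ := ih ((ncard_le_ncard (by
      rw [insert_union]; exact subset_insert _ _) ((hD.insert v).union hX)).trans hc)
    by_cases hvX : v ∈ D ∪ X
    · refine ⟨σ', ?_, h2⟩
      rwa [insert_union, insert_eq_of_mem hvX]
    · rw [insert_union, ncard_insert_of_notMem hvX hfin] at hc
      have h3 : (σ' '' (D ∪ X)).ncard < k := by
        rw [h1.ncard_image]; omega
      obtain ⟨j, hj⟩ : ∃ j : Fin k, j ∉ σ' '' (D ∪ X) := by
        by_contra hcon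
        push Not at hcon
        have : σ' '' (D ∪ X) = univ := eq_univ_of_forall hcon
        rw [this, ncard_univ, Nat.card_eq_fintype_card, Fintype.card_fin] at h3
        exact lt_irrefl _ h3
      have hne : ∀ x ∈ D ∪ X, x ≠ v := fun x hx h => hvX (h ▸ hx)
      refine ⟨Function.update σ' v j, ?_, ?_⟩
      · rw [insert_union]
        intro x hx y hy hxy
        rcases hx with rfl | hx <;> rcases hy with rfl | hy
        · rfl
        · rw [Function.update_self, Function.update_of_ne (hne y hy)] at hxy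
          exact absurd ⟨y, hy, hxy.symm⟩ hj
        · rw [Function.update_self, Function.update_of_ne (hne x hx)] at hxy
          exact absurd ⟨x, hx, hxy⟩ hj
        · rw [Function.update_of_ne (hne x hx), Function.update_of_ne (hne y hy)] at hxy
          exact h1 hx hy hxy
      · intro x hx
        rw [Function.update_of_ne (hne x (Or.inr hx))]
        exact h2 x hx

theorem rep_aux [Finite V] (G : SimpleGraph V) (κ k : ℕ) (hk : 4 * κ ≤ k) (hκ : 1 ≤ κ) (n : ℕ) :
    ∀ (U X : Set V), U.ncard + (U \ X).ncard = n → Narrow G U κ → X ⊆ U → X.ncard ≤ 3 * κ →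
    ∀ (σ : V → Fin k), Set.InjOn σ X → ∃ t : Term k, t.RepBy G (U \ X) X σ := by
  induction n using Nat.strong_induction_on with
  | _ n ih =>
    intro U X hn hU hX hXc σ hσ
    by_cases hUX : U \ X = ∅
    · refine ⟨Term.nil, fun x => x.elim, fun x => x.elim, ?_, fun x => x.elim, fun x => x.elim⟩
      rw [hUX]
      have : IsEmpty (Term.nil : Term k).Int := inferInstanceAs (IsEmpty Empty)
      exact range_eq_empty _
    · obtain ⟨v, hv⟩ := nonempty_iff_ne_empty.2 hUX
      rcases Nat.lt_or_ge X.ncard (3 * κ) with hlt | hge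
      · -- add a vertex
        have hvX : v ∉ X := hv.2
        obtain ⟨σ', h1, h2⟩ := exists_extend hσ (finite_singleton v) (toFinite X) (by
          rw [singleton_union, ncard_insert_of_notMem hvX (toFinite _)]; omega)
        rw [singleton_union] at h1
        have h3 : (U \ insert v X).ncard < (U \ X).ncard := by
          refine ncard_lt_ncard ?_ (toFinite _)
          refine ⟨fun x hx => ⟨hx.1, fun h => hx.2 (mem_insert_of_mem _ h)⟩, fun h => ?_⟩
          exact (h hv).2 (mem_insert _ _)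
        obtain ⟨t, ht⟩ := ih _ (by omega) U (insert v X) rfl hU
          (insert_subset hv.1 hX) (by
            rw [ncard_insert_of_notMem hvX (toFinite _)]; omega) σ' h1
        have h4 := repBy_drop ht hvX h1 (fun h => h.2 (mem_insert _ _))
        have h5 : insert v (U \ insert v X) = U \ X := by
          ext x
          constructor
          · rintro (rfl | hx)
            · exact hv
            · exact ⟨hx.1, fun h => hx.2 (mem_insert_of_mem _ h)⟩
          · intro hx
            by_cases hxv : x = v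
            · exact Or.inl hxv
            · exact Or.inr ⟨hx.1, fun h => h.elim hxv hx.2⟩
        rw [h5] at h4
        exact ⟨_, repBy_congr h4 (fun x hx => (h2 x hx).symm)⟩
      · -- split
        obtain ⟨A, B, h1, h2, h3, h4, h5⟩ := hU X hX (le_antisymm hXc hge)
        have hA : A ⊆ U := h1 ▸ subset_union_left
        have hB : B ⊆ U := h1 ▸ subset_union_right
        -- sizes
        have hXU : X ⊆ (X ∩ (A \ B)) ∪ ((X ∩ (B \ A)) ∪ (A ∩ B)) := by
          intro x hx
          have hxU := hX hx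
          rw [← h1] at hxU
          by_cases ha : x ∈ A <;> by_cases hb : x ∈ B
          · exact Or.inr (Or.inr ⟨ha, hb⟩)
          · exact Or.inl ⟨hx, ha, hb⟩
          · exact Or.inr (Or.inl ⟨hx, hb, ha⟩)
          · exact absurd hxU (fun h => h.elim ha hb)
        have hXU' := ncard_le_ncard hXU (toFinite _)
        have hu1 := ncard_union_le (X ∩ (A \ B)) ((X ∩ (B \ A)) ∪ (A ∩ B))
        have hu2 := ncard_union_le (X ∩ (B \ A)) (A ∩ B)
        have hAne : A ≠ U := by
          intro h
          have h0 : B \ A = ∅ := by rw [h]; exact sdiff_eq_empty.2 hB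
          have h0' : (X ∩ (B \ A)).ncard = 0 := by rw [h0, inter_empty, ncard_empty]
          omega
        have hBne : B ≠ U := by
          intro h
          have h0 : A \ B = ∅ := by rw [h]; exact sdiff_eq_empty.2 hA
          have h0' : (X ∩ (A \ B)).ncard = 0 := by rw [h0, inter_empty, ncard_empty]
          omega
        have hAlt : A.ncard < U.ncard := ncard_lt_ncard (hA.ssubset_of_ne hAne) (toFinite _)
        have hBlt : B.ncard < U.ncard := ncard_lt_ncard (hB.ssubset_of_ne hBne) (toFinite _)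
        -- the extended slot assignment
        have hDX : ((A ∩ B) ∪ X).ncard ≤ k := by
          have := ncard_union_le (A ∩ B) X
          omega
        obtain ⟨σ', s1, s2⟩ := exists_extend hσ (toFinite (A ∩ B)) (toFinite X) hDX
        have hXA : ((X ∩ A) ∪ (A ∩ B)).ncard ≤ 3 * κ := by
          have e1 : (X ∩ A) ∪ (A ∩ B) ⊆ (X ∩ (A \ B)) ∪ (A ∩ B) := by
            rintro x (hx | hx)
            · by_cases hb : x ∈ B
              · exact Or.inr ⟨hx.2, hb⟩
              · exact Or.inl ⟨hx.1, hx.2, hb⟩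
            · exact Or.inr hx
          have e2 := ncard_le_ncard e1 (toFinite _)
          have e3 := ncard_union_le (X ∩ (A \ B)) (A ∩ B)
          omega
        have hXB : ((X ∩ B) ∪ (A ∩ B)).ncard ≤ 3 * κ := by
          have e1 : (X ∩ B) ∪ (A ∩ B) ⊆ (X ∩ (B \ A)) ∪ (A ∩ B) := by
            rintro x (hx | hx)
            · by_cases ha : x ∈ A
              · exact Or.inr ⟨ha, hx.2⟩
              · exact Or.inl ⟨hx.1, hx.2, ha⟩
            · exact Or.inr hx
          have e2 := ncard_le_ncard e1 (toFinite _)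
          have e3 := ncard_union_le (X ∩ (B \ A)) (A ∩ B)
          omega
        have hUA : (A \ ((X ∩ A) ∪ (A ∩ B))).ncard ≤ (U \ X).ncard := by
          refine ncard_le_ncard ?_ (toFinite _)
          intro x hx
          exact ⟨hA hx.1, fun h => hx.2 (Or.inl ⟨h, hx.1⟩)⟩
        have hUB : (B \ ((X ∩ B) ∪ (A ∩ B))).ncard ≤ (U \ X).ncard := by
          refine ncard_le_ncard ?_ (toFinite _)
          intro x hx
          exact ⟨hB hx.1, fun h => hx.2 (Or.inl ⟨h, hx.1⟩)⟩
        obtain ⟨tA, htA⟩ := ih _ (by omega) A ((X ∩ A) ∪ (A ∩ B)) rfl (narrow_mono hU hA)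
          (union_subset inter_subset_right inter_subset_left) hXA σ'
          (s1.mono (by rintro x (hx | hx); exacts [Or.inr hx.1, Or.inl hx]))
        obtain ⟨tB, htB⟩ := ih _ (by omega) B ((X ∩ B) ∪ (A ∩ B)) rfl (narrow_mono hU hB)
          (union_subset inter_subset_right inter_subset_right) hXB σ'
          (s1.mono (by rintro x (hx | hx); exacts [Or.inr hx.1, Or.inl hx]))
        have hYA : ∀ x ∈ A \ ((X ∩ A) ∪ (A ∩ B)), x ∈ A \ B := fun x hx =>
          ⟨hx.1, fun h => hx.2 (Or.inr ⟨hx.1, h⟩)⟩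
        have hYB : ∀ x ∈ B \ ((X ∩ B) ∪ (A ∩ B)), x ∈ B \ A := fun x hx =>
          ⟨hx.1, fun h => hx.2 (Or.inr ⟨h, hx.1⟩)⟩
        have hj := repBy_join htA htB (by
            rw [Set.disjoint_left]
            intro x hx hy
            exact (hYA x hx).2 hy.1)
          (fun x hx y hy => h2 x (hYA x hx) y (hYB y hy))
          (by
            rintro x hx y (hy | hy) hadj
            · by_cases hyA : y ∈ A
              · exact Or.inl ⟨hy.1, hyA⟩
              · exact absurd hadj (h2 x (hYA x hx) y ⟨hy.2, hyA⟩)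
            · exact Or.inr hy)
          (by
            rintro x hx y (hy | hy) hadj
            · by_cases hyB : y ∈ B
              · exact Or.inl ⟨hy.1, hyB⟩
              · exact absurd hadj.symm (h2 y ⟨hy.2, hyB⟩ x (hYB x hx))
            · exact Or.inr hy)
        have e1 : (X ∩ A ∪ A ∩ B) ∪ (X ∩ B ∪ A ∩ B) = ((A ∩ B) \ X) ∪ X := by
          ext x
          constructor
          · rintro ((hx | hx) | (hx | hx))
            · exact Or.inr hx.1
            · by_cases h : x ∈ X
              · exact Or.inr h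
              · exact Or.inl ⟨hx, h⟩
            · exact Or.inr hx.1
            · by_cases h : x ∈ X
              · exact Or.inr h
              · exact Or.inl ⟨hx, h⟩
          · rintro (hx | hx)
            · exact Or.inl (Or.inr hx.1)
            · have hxU := hX hx
              rw [← h1] at hxU
              rcases hxU with hxA | hxB
              · exact Or.inl (Or.inl ⟨hx, hxA⟩)
              · exact Or.inr (Or.inl ⟨hx, hxB⟩)
        have e2 : ((A ∩ B) \ X) ∪ ((A \ (X ∩ A ∪ A ∩ B)) ∪ (B \ (X ∩ B ∪ A ∩ B))) = U \ X := by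
          ext x
          constructor
          · rintro (hx | hx | hx)
            · exact ⟨hA hx.1.1, hx.2⟩
            · exact ⟨hA hx.1, fun h => hx.2 (Or.inl ⟨h, hx.1⟩)⟩
            · exact ⟨hB hx.1, fun h => hx.2 (Or.inl ⟨h, hx.1⟩)⟩
          · rintro ⟨hxU, hxX⟩
            rw [← h1] at hxU
            by_cases ha : x ∈ A <;> by_cases hb : x ∈ B
            · exact Or.inl ⟨⟨ha, hb⟩, hxX⟩
            · exact Or.inr (Or.inl ⟨ha, fun h => h.elim (fun h => hxX h.1) (fun h => hb h.2)⟩)
            · exact Or.inr (Or.inr ⟨hb, fun h => h.elim (fun h => hxX h.1) (fun h => ha h.1)⟩)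
            · exact absurd hxU (fun h => h.elim ha hb)
        rw [e1] at hj
        obtain ⟨t', ht'⟩ := repBy_drops (toFinite ((A ∩ B) \ X)) _ _ disjoint_sdiff_left
          (by
            rw [Set.disjoint_left]
            rintro x ⟨⟨hxA, hxB⟩, _⟩ (hx | hx)
            · exact hx.2 (Or.inr ⟨hxA, hxB⟩)
            · exact hx.2 (Or.inr ⟨hxA, hxB⟩))
          (s1.mono (union_subset_union_left _ sdiff_subset)) hj
        rw [e2] at ht'
        exact ⟨t', repBy_congr ht' (fun x hx => (s2 x hx).symm)⟩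

/-! ### counting -/

/-- the interior vertices of a term form a finite type -/
@[instance_reducible] noncomputable def intFintype : (t : Term k) → Fintype t.Int
  | Term.nil => inferInstanceAs (Fintype Empty)
  | Term.drop _ _ t => letI := intFintype t; inferInstanceAs (Fintype (Option t.Int))
  | Term.join t₁ t₂ =>
    letI := intFintype t₁
    letI := intFintype t₂
    inferInstanceAs (Fintype (t₁.Int ⊕ t₂.Int))

attribute [local instance] intFintype

theorem card_int : (t : Term k) → Fintype.card t.Int = t.nu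
  | Term.nil => rfl
  | Term.drop _ _ t => by
    have := card_int t
    exact (Fintype.card_option (α := t.Int)).trans (by rw [this]; rfl)
  | Term.join t₁ t₂ => by
    have h1 := card_int t₁
    have h2 := card_int t₂
    exact (Fintype.card_sum (α := t₁.Int) (β := t₂.Int)).trans (by rw [h1, h2]; rfl)

open Classical in
noncomputable def cI (t : Term k) : ℕ := ∑ a : t.Int, ∑ b : t.Int, if t.ii a b then 1 else 0

open Classical in
noncomputable def cS (t : Term k) : ℕ := ∑ a : t.Int, ∑ i : Fin k, if t.is a i then 1 else 0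

open Classical in
theorem cI_cS : (t : Term k) → cI t + 2 * cS t = 2 * t.ed
  | Term.nil => rfl
  | Term.drop i S t => by
    have ih := cI_cS t
    have h1 : cI (Term.drop i S t) = cI t + 2 * ∑ a : t.Int, if t.is a i then 1 else 0 := by
      unfold cI
      have e : (∑ a : Option t.Int, ∑ b : Option t.Int,
          if (Term.drop i S t).ii a b then 1 else 0) =
          (∑ a : t.Int, ∑ b : t.Int, if t.ii a b then 1 else 0) +
            2 * ∑ a : t.Int, if t.is a i then 1 else 0 := by
        rw [Fintype.sum_option]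
        rw [Fintype.sum_option]
        have e1 : ∀ a : t.Int, (∑ b : Option t.Int,
            if (Term.drop i S t).ii (some a) b then 1 else 0) =
            (if t.is a i then 1 else 0) + ∑ b : t.Int, if t.ii a b then 1 else 0 := by
          intro a
          rw [Fintype.sum_option]
          rfl
        rw [Finset.sum_congr rfl (fun a _ => e1 a), Finset.sum_add_distrib]
        have e2 : (if (Term.drop i S t).ii none none then 1 else 0) = 0 := if_neg (fun h => h)
        rw [e2]
        have e3 : (∑ b : t.Int, if (Term.drop i S t).ii none (some b) then 1 else 0) =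
            ∑ a : t.Int, if t.is a i then 1 else 0 := rfl
        rw [e3]
        ring
      exact e
    have h2 : cS (Term.drop i S t) + ∑ a : t.Int, (if t.is a i then 1 else 0) =
        cS t + (S.erase i).card := by
      unfold cS
      have e : (∑ a : Option t.Int, ∑ j : Fin k, if (Term.drop i S t).is a j then 1 else 0) +
          ∑ a : t.Int, (if t.is a i then 1 else 0) =
          (∑ a : t.Int, ∑ j : Fin k, if t.is a j then 1 else 0) + (S.erase i).card := by
        rw [Fintype.sum_option]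
        have e1 : (∑ j : Fin k, if (Term.drop i S t).is none j then 1 else 0) =
            (S.erase i).card := by
          rw [← Finset.card_filter]
          congr 1
          ext j
          rw [Finset.mem_filter, Finset.mem_erase]
          exact ⟨fun h => ⟨h.2.2, h.2.1⟩, fun h => ⟨Finset.mem_univ _, h.2, h.1⟩⟩
        rw [e1]
        have e2 : ∀ a : t.Int, (∑ j : Fin k, if (Term.drop i S t).is (some a) j then 1 else 0) +
            (if t.is a i then 1 else 0) = ∑ j : Fin k, if t.is a j then 1 else 0 := by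
          intro a
          rw [← Finset.add_sum_erase Finset.univ _ (Finset.mem_univ i),
            ← Finset.add_sum_erase Finset.univ (fun j => if t.is a j then 1 else 0)
              (Finset.mem_univ i)]
          have e3 : (if (Term.drop i S t).is (some a) i then 1 else 0) = 0 :=
            if_neg (fun h => h.2 rfl)
          rw [e3, zero_add, add_comm]
          congr 1
          refine Finset.sum_congr rfl fun j hj => ?_
          have hj' := Finset.ne_of_mem_erase hj
          by_cases h : t.is a j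
          · rw [if_pos h, if_pos (show (Term.drop i S t).is (some a) j from ⟨h, hj'⟩)]
          · rw [if_neg h, if_neg (fun h' => h h'.1)]
        rw [← Finset.sum_congr rfl (fun a _ => e2 a), Finset.sum_add_distrib]
        ring
      exact e
    have h3 : (Term.drop i S t).ed = t.ed + (S.erase i).card := rfl
    omega
  | Term.join t₁ t₂ => by
    have ih1 := cI_cS t₁
    have ih2 := cI_cS t₂
    have h1 : cI (Term.join t₁ t₂) = cI t₁ + cI t₂ := by
      unfold cI
      have e : (∑ a : t₁.Int ⊕ t₂.Int, ∑ b : t₁.Int ⊕ t₂.Int,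
          if (Term.join t₁ t₂).ii a b then 1 else 0) =
          (∑ a : t₁.Int, ∑ b : t₁.Int, if t₁.ii a b then 1 else 0) +
            ∑ a : t₂.Int, ∑ b : t₂.Int, if t₂.ii a b then 1 else 0 := by
        rw [Fintype.sum_sum_type]
        congr 1
        · refine Finset.sum_congr rfl fun a _ => ?_
          rw [Fintype.sum_sum_type]
          have e1 : (∑ b : t₂.Int, if (Term.join t₁ t₂).ii (Sum.inl a) (Sum.inr b) then 1 else 0)
              = 0 := Finset.sum_eq_zero fun b _ => if_neg (fun h => h)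
          rw [e1, add_zero]
          rfl
        · refine Finset.sum_congr rfl fun a _ => ?_
          rw [Fintype.sum_sum_type]
          have e1 : (∑ b : t₁.Int, if (Term.join t₁ t₂).ii (Sum.inr a) (Sum.inl b) then 1 else 0)
              = 0 := Finset.sum_eq_zero fun b _ => if_neg (fun h => h)
          rw [e1, zero_add]
          rfl
      exact e
    have h2 : cS (Term.join t₁ t₂) = cS t₁ + cS t₂ := by
      unfold cS
      have e : (∑ a : t₁.Int ⊕ t₂.Int, ∑ j : Fin k, if (Term.join t₁ t₂).is a j then 1 else 0) =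
          (∑ a : t₁.Int, ∑ j : Fin k, if t₁.is a j then 1 else 0) +
            ∑ a : t₂.Int, ∑ j : Fin k, if t₂.is a j then 1 else 0 := by
        rw [Fintype.sum_sum_type]
        rfl
      exact e
    have h3 : (Term.join t₁ t₂).ed = t₁.ed + t₂.ed := rfl
    omega

open Classical in
theorem card_aux [Fintype V] {G : SimpleGraph V} {Y X : Set V} {σ : V → Fin k} {t : Term k}
    (ht : t.RepBy G Y X σ) (hYX : Disjoint Y X) (hσ : Set.InjOn σ X) :
    t.nu = Y.ncard ∧
      t.ed = {e ∈ G.edgeSet | (∃ y ∈ Y, y ∈ e) ∧ ∀ y ∈ e, y ∈ Y ∪ X}.ncard := by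
  obtain ⟨φ, h1, h2, h3, h4⟩ := ht
  have hmem : ∀ a, φ a ∈ Y := fun a => h2 ▸ mem_range_self a
  constructor
  · rw [← h2, ← image_univ, ncard_image_of_injective _ h1, ncard_univ,
      Nat.card_eq_fintype_card, card_int]
  · let H : SimpleGraph V :=
      { Adj := fun x y => G.Adj x y ∧ (x ∈ Y ∨ y ∈ Y) ∧ x ∈ Y ∪ X ∧ y ∈ Y ∪ X
        symm := ⟨fun x y h => ⟨h.1.symm, h.2.1.symm, h.2.2.2, h.2.2.1⟩⟩
        loopless := ⟨fun x h => G.loopless.irrefl x h.1⟩ }
    have hE : {e ∈ G.edgeSet | (∃ y ∈ Y, y ∈ e) ∧ ∀ y ∈ e, y ∈ Y ∪ X} = H.edgeSet := by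
      ext e
      induction e using Sym2.ind with
      | _ x y =>
        rw [SimpleGraph.mem_edgeSet]
        constructor
        · rintro ⟨a1, ⟨z, hz, hze⟩, a3⟩
          refine ⟨a1, ?_, a3 x (Sym2.mem_mk_left x y), a3 y (Sym2.mem_mk_right x y)⟩
          rcases Sym2.mem_iff.1 hze with rfl | rfl
          · exact Or.inl hz
          · exact Or.inr hz
        · rintro ⟨a1, a2, a3, a4⟩
          refine ⟨a1, ?_, ?_⟩
          · rcases a2 with a2 | a2
            · exact ⟨x, a2, Sym2.mem_mk_left x y⟩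
            · exact ⟨y, a2, Sym2.mem_mk_right x y⟩
          · intro z hz
            rcases Sym2.mem_iff.1 hz with rfl | rfl
            · exact a3
            · exact a4
    rw [hE, ← SimpleGraph.coe_edgeFinset, ncard_coe_finset]
    have hdeg := H.sum_degrees_eq_twice_card_edges
    have hdeg' : ∀ v, H.degree v = ∑ w, if H.Adj v w then 1 else 0 := by
      intro v
      rw [← Finset.card_filter, ← SimpleGraph.card_neighborFinset_eq_degree]
      congr 1
      ext w
      simp
    have hsplit : ∀ v w, (if H.Adj v w then 1 else 0) =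
        (if v ∈ Y ∧ w ∈ Y ∧ G.Adj v w then 1 else 0) +
          ((if v ∈ Y ∧ w ∈ X ∧ G.Adj v w then 1 else 0) +
            (if w ∈ Y ∧ v ∈ X ∧ G.Adj w v then 1 else 0)) := by
      intro v w
      have hH : H.Adj v w ↔ G.Adj v w ∧ (v ∈ Y ∨ w ∈ Y) ∧ v ∈ Y ∪ X ∧ w ∈ Y ∪ X := Iff.rfl
      have d1 : v ∈ Y → v ∉ X := fun h h' => Set.disjoint_left.1 hYX h h'
      have d2 : w ∈ Y → w ∉ X := fun h h' => Set.disjoint_left.1 hYX h h'
      have hs : G.Adj w v ↔ G.Adj v w := G.adj_comm w v
      rw [mem_union, mem_union] at hH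
      by_cases e1 : v ∈ Y <;> by_cases e2 : w ∈ Y <;> by_cases e3 : v ∈ X <;>
        by_cases e4 : w ∈ X <;> by_cases e5 : G.Adj v w <;> simp_all
    have hA : (∑ v, ∑ w, if v ∈ Y ∧ w ∈ Y ∧ G.Adj v w then 1 else 0) = cI t := by
      unfold cI
      refine (Fintype.sum_of_injective φ h1 _ _ ?_ ?_).symm
      · intro v hv
        rw [h2] at hv
        exact Finset.sum_eq_zero fun w _ => if_neg (fun h => hv h.1)
      · intro a
        refine Fintype.sum_of_injective φ h1 _ _ ?_ ?_
        · intro v hv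
          rw [h2] at hv
          exact if_neg (fun h => hv h.2.1)
        · intro b
          have : (φ a ∈ Y ∧ φ b ∈ Y ∧ G.Adj (φ a) (φ b)) ↔ t.ii a b :=
            ⟨fun h => (h3 a b).2 h.2.2, fun h => ⟨hmem a, hmem b, (h3 a b).1 h⟩⟩
          exact (if_congr this rfl rfl).symm
    have hB : (∑ v, ∑ w, if v ∈ Y ∧ w ∈ X ∧ G.Adj v w then 1 else 0) = cS t := by
      unfold cS
      refine (Fintype.sum_of_injective φ h1 _ _ ?_ ?_).symm
      · intro v hv
        rw [h2] at hv
        exact Finset.sum_eq_zero fun w _ => if_neg (fun h => hv h.1)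
      · intro a
        rw [← Finset.card_filter, ← Finset.card_filter]
        have himg : (Finset.univ.filter fun i => t.is a i) =
            (Finset.univ.filter fun w => φ a ∈ Y ∧ w ∈ X ∧ G.Adj (φ a) w).image σ := by
          ext i
          rw [Finset.mem_filter, Finset.mem_image]
          constructor
          · rintro ⟨_, hi⟩
            obtain ⟨x, hx, hxi, hadj⟩ := (h4 a i).1 hi
            exact ⟨x, Finset.mem_filter.2 ⟨Finset.mem_univ _, hmem a, hx, hadj⟩, hxi⟩
          · rintro ⟨x, hx, hxi⟩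
            have hx' := (Finset.mem_filter.1 hx).2
            exact ⟨Finset.mem_univ _, (h4 a i).2 ⟨x, hx'.2.1, hxi, hx'.2.2⟩⟩
        rw [himg, Finset.card_image_of_injOn]
        intro x hx y hy hxy
        have hx' := (Finset.mem_filter.1 (Finset.mem_coe.1 hx)).2
        have hy' := (Finset.mem_filter.1 (Finset.mem_coe.1 hy)).2
        exact hσ hx'.2.1 hy'.2.1 hxy
    have hC : (∑ v, ∑ w, if w ∈ Y ∧ v ∈ X ∧ G.Adj w v then 1 else 0) = cS t := by
      rw [Finset.sum_comm]
      exact hB
    have hfin : (∑ v, H.degree v) = cI t + (cS t + cS t) := by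
      have e1 : ∀ v, H.degree v = (∑ w, if v ∈ Y ∧ w ∈ Y ∧ G.Adj v w then 1 else 0) +
          ((∑ w, if v ∈ Y ∧ w ∈ X ∧ G.Adj v w then 1 else 0) +
            ∑ w, if w ∈ Y ∧ v ∈ X ∧ G.Adj w v then 1 else 0) := by
        intro v
        rw [hdeg' v, Finset.sum_congr rfl (fun w _ => hsplit v w), Finset.sum_add_distrib,
          Finset.sum_add_distrib]
      rw [Finset.sum_congr rfl (fun v _ => e1 v), Finset.sum_add_distrib,
        Finset.sum_add_distrib, hA, hB, hC]
    have := cI_cS t
    omega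

end RepAux

theorem rep {V : Type} [Finite V] (G : SimpleGraph V) (κ k : ℕ) (hk : 4 * κ ≤ k) (hκ : 1 ≤ κ)
    (U X : Set V) (hU : Narrow G U κ) (hX : X ⊆ U) (hXc : X.ncard ≤ 3 * κ)
    (hnb : ∀ y ∈ U \ X, ∀ z, G.Adj y z → z ∈ U) (σ : V → Fin k) (hσ : Set.InjOn σ X) :
    ∃ t : Term k, t.RepBy G (U \ X) X σ :=
  RepAux.rep_aux G κ k hk hκ _ U X rfl hU hX hXc σ hσ

/-- size of a represented part -/
theorem Term.RepBy.card {k : ℕ} {V : Type} [Finite V] {G : SimpleGraph V} {Y X : Set V}
    {σ : V → Fin k} {t : Term k} (ht : t.RepBy G Y X σ) (hYX : Disjoint Y X)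
    (hσ : Set.InjOn σ X) :
    t.nu = Y.ncard ∧
      t.ed = {e ∈ G.edgeSet | (∃ y ∈ Y, y ∈ e) ∧ ∀ y ∈ e, y ∈ Y ∪ X}.ncard := by
  have := Fintype.ofFinite V
  exact RepAux.card_aux ht hYX hσ

end Pool.Agent.Lib.MP_4d119b_lc
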