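import Pool.Agent.Lib.MP_4d119b_lc.Contract
import Pool.Agent.Lib.MP_4d119b_lc.Rep

/-! Realisation of terms in graphs, terms for bundles. -/

namespace Pool.Agent.Lib.MP_4d119b_lc

open Set

variable {V : Type} {k : ℕ}

namespace Term

/-- `t` is realised in `G`, with branch sets inside `X` and slots realised by `β` -/
def ModX (G : SimpleGraph V) (t : Term k) (β : Fin k → Set V) (X : Set V) : Prop :=
  ∃ g : t.Int → Set V, (∀ a, Conn G (g a) ∧ g a ⊆ X) ∧
    (∀ a b, a ≠ b → Disjoint (g a) (g b)) ∧ (∀ a b, t.ii a b → Touch G (g a) (g b)) ∧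
    (∀ a i, t.is a i → Touch G (g a) (β i))

variable {G : SimpleGraph V} {t t₁ t₂ : Term k} {β β' : Fin k → Set V} {X X₁ X₂ : Set V}

theorem modX_nil (G : SimpleGraph V) (β : Fin k → Set V) (X : Set V) :
    ModX G Term.nil β X :=
  ⟨fun a => a.elim, fun a => a.elim, fun a => a.elim, fun a => a.elim, fun a => a.elim⟩

theorem ModX.mono (h : ModX G t β X) (hβ : ∀ i, β i ⊆ β' i) (hX : X ⊆ X₁) :
    ModX G t β' X₁ := by
  obtain ⟨g, h1, h2, h3, h4⟩ := h
  exact ⟨g, fun a => ⟨(h1 a).1, (h1 a).2.trans hX⟩, h2, h3,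
    fun a i hai => (h4 a i hai).mono subset_rfl (hβ i)⟩

theorem ModX.join (h₁ : ModX G t₁ β X₁) (h₂ : ModX G t₂ β X₂) (hd : Disjoint X₁ X₂) :
    ModX G (Term.join t₁ t₂) β (X₁ ∪ X₂) := by
  obtain ⟨g, h1, h2, h3, h4⟩ := h₁
  obtain ⟨g', h1', h2', h3', h4'⟩ := h₂
  refine ⟨fun a => match a with
    | Sum.inl a => g a
    | Sum.inr a => g' a, ?_, ?_, ?_, ?_⟩
  · rintro (a | a)
    · exact ⟨(h1 a).1, (h1 a).2.trans subset_union_left⟩
    · exact ⟨(h1' a).1, (h1' a).2.trans subset_union_right⟩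
  · rintro (a | a) (b | b) hab
    · exact h2 a b (fun h => hab (congrArg _ h))
    · exact hd.mono (h1 a).2 (h1' b).2
    · exact (hd.mono (h1 b).2 (h1' a).2).symm
    · exact h2' a b (fun h => hab (congrArg _ h))
  · rintro (a | a) (b | b) hab
    · exact h3 a b hab
    · exact hab.elim
    · exact hab.elim
    · exact h3' a b hab
  · rintro (a | a) i hai
    · exact h4 a i hai
    · exact h4' a i hai

theorem ModX.drop {i : Fin k} {S : Finset (Fin k)} (h : ModX G t β X) (hc : Conn G (β i))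
    (hd : Disjoint (β i) X) (hβ : ∀ j, j ≠ i → β j ⊆ β' j)
    (hS : ∀ j ∈ S, j ≠ i → Touch G (β i) (β' j)) :
    ModX G (Term.drop i S t) β' (X ∪ β i) := by
  obtain ⟨g, h1, h2, h3, h4⟩ := h
  refine ⟨fun a => match a with
    | none => β i
    | some a => g a, ?_, ?_, ?_, ?_⟩
  · rintro (_ | a)
    · exact ⟨hc, subset_union_right⟩
    · exact ⟨(h1 a).1, (h1 a).2.trans subset_union_left⟩
  · rintro (_ | a) (_ | b) hab
    · exact absurd rfl hab
    · exact hd.mono subset_rfl (h1 b).2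
    · exact (hd.mono subset_rfl (h1 a).2).symm
    · exact h2 a b (fun h => hab (congrArg _ h))
  · rintro (_ | a) (_ | b) hab
    · exact hab.elim
    · exact (h4 b i hab).symm
    · exact h4 a i hab
    · exact h3 a b hab
  · rintro (_ | a) j hj
    · exact hS j hj.1 hj.2
    · exact (h4 a j hj.1).mono subset_rfl (hβ j hj.2)

theorem ModX.minor (h : ModX G t β X) : IsMinor t.intGraph G := by
  obtain ⟨g, h1, h2, h3, h4⟩ := h
  exact ⟨g, fun a => (h1 a).1, h2, h3⟩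

/-! ### RepBy -/

variable {Y Y₁ Y₂ X' : Set V} {σ : V → Fin k}

theorem RepBy.modX (h : t.RepBy G Y X σ) (hβ : ∀ x ∈ X, x ∈ β (σ x)) : ModX G t β Y := by
  obtain ⟨φ, h1, h2, h3, h4⟩ := h
  refine ⟨fun a => {φ a}, ?_, ?_, ?_, ?_⟩
  · intro a
    refine ⟨conn_singleton G _, ?_⟩
    rw [Set.singleton_subset_iff, ← h2]
    exact ⟨a, rfl⟩
  · intro a b hab
    rw [Set.disjoint_singleton]
    exact fun h => hab (h1 h)
  · intro a b hab
    exact ⟨_, rfl, _, rfl, (h3 a b).1 hab⟩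
  · intro a i hai
    obtain ⟨x, hx, hxi, hadj⟩ := (h4 a i).1 hai
    exact ⟨_, rfl, x, hxi ▸ hβ x hx, hadj⟩

theorem RepBy.nil (G : SimpleGraph V) (X : Set V) (σ : V → Fin k) :
    (Term.nil : Term k).RepBy G ∅ X σ :=
  ⟨fun a => a.elim, fun a => a.elim, by
    ext v
    constructor
    · rintro ⟨a, _⟩; exact a.elim
    · intro h; exact h.elim, fun a => a.elim, fun a => a.elim⟩

theorem RepBy.join (h₁ : t₁.RepBy G Y₁ X σ) (h₂ : t₂.RepBy G Y₂ X σ) (hd : Disjoint Y₁ Y₂)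
    (hn : ∀ y ∈ Y₁, ∀ z ∈ Y₂, ¬ G.Adj y z) : (Term.join t₁ t₂).RepBy G (Y₁ ∪ Y₂) X σ := by
  obtain ⟨φ, h1, h2, h3, h4⟩ := h₁
  obtain ⟨φ', h1', h2', h3', h4'⟩ := h₂
  have hm : ∀ a, φ a ∈ Y₁ := fun a => h2 ▸ ⟨a, rfl⟩
  have hm' : ∀ a, φ' a ∈ Y₂ := fun a => h2' ▸ ⟨a, rfl⟩
  refine ⟨fun a => match a with
    | Sum.inl a => φ a
    | Sum.inr a => φ' a, ?_, ?_, ?_, ?_⟩
  · rintro (a | a) (b | b) hab
    · exact congrArg _ (h1 hab)
    · exact (Set.disjoint_left.1 hd (hm a) (by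
        have : φ a = φ' b := hab
        rw [this]; exact hm' b)).elim
    · exact (Set.disjoint_left.1 hd (hm b) (by
        have : φ' a = φ b := hab
        rw [← this]; exact hm' a)).elim
    · exact congrArg _ (h1' hab)
  · ext v
    constructor
    · rintro ⟨(a | a), rfl⟩
      · exact Or.inl (hm a)
      · exact Or.inr (hm' a)
    · rintro (hv | hv)
      · rw [← h2] at hv
        obtain ⟨a, ha⟩ := hv
        exact ⟨Sum.inl a, ha⟩
      · rw [← h2'] at hv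
        obtain ⟨a, ha⟩ := hv
        exact ⟨Sum.inr a, ha⟩
  · rintro (a | a) (b | b)
    · exact h3 a b
    · exact ⟨fun h => h.elim, fun h => hn _ (hm a) _ (hm' b) h⟩
    · exact ⟨fun h => h.elim, fun h => hn _ (hm b) _ (hm' a) h.symm⟩
    · exact h3' a b
  · rintro (a | a) i
    · exact h4 a i
    · exact h4' a i

theorem RepBy.superset (h : t.RepBy G Y X σ) (hX : X ⊆ X')
    (hn : ∀ y ∈ Y, ∀ x ∈ X', G.Adj y x → x ∈ X) : t.RepBy G Y X' σ := by
  obtain ⟨φ, h1, h2, h3, h4⟩ := h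
  refine ⟨φ, h1, h2, h3, ?_⟩
  intro a i
  rw [h4 a i]
  constructor
  · rintro ⟨x, hx, hxi, hadj⟩
    exact ⟨x, hX hx, hxi, hadj⟩
  · rintro ⟨x, hx, hxi, hadj⟩
    exact ⟨x, hn (φ a) (h2 ▸ ⟨a, rfl⟩) x hx hadj, hxi, hadj⟩

/-- used slots of a representing term -/
theorem RepBy.used (h : t.RepBy G Y X σ) {i : Fin k} (hi : t.Used i) : ∃ x ∈ X, σ x = i := by
  obtain ⟨φ, h1, h2, h3, h4⟩ := h
  obtain ⟨a, ha⟩ := hi
  obtain ⟨x, hx, hxi, _⟩ := (h4 a i).1 ha
  exact ⟨x, hx, hxi⟩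

end Term

/-! ### terms for bundles -/

section bundles

variable {G : SimpleGraph V} {A U : Set V}

/-- neighbours of a set outside it -/
def nbh (G : SimpleGraph V) (Y : Set V) : Set V := {z | z ∉ Y ∧ ∃ y ∈ Y, G.Adj y z}

/-- minimality of `U` -/
def UMin (G : SimpleGraph V) (U : Set V) (κ q : ℕ) : Prop :=
  ∀ U' : Set V, U' ⊂ U → {v ∈ U' | ∃ z, z ∉ U' ∧ G.Adj v z}.ncard ≤ q → Narrow G U' κ

namespace Cell

variable (c : Cell G A)

/-- deep flaps: neighbourhood -/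
theorem flap_nbh [Finite V] {y : V} (hy : y ∈ c.H \ c.S) {x : V} (hx : x ∈ c.fat y)
    (hd : c.Deep 10 x) : nbh G (c.flap y) ⊆ c.fat y ∪ A := by
  rintro z ⟨hz, a, ha, haz⟩
  by_cases hzA : z ∈ A
  · exact Or.inr hzA
  · rcases hd.true_flap (by omega) hy (Or.inr hx) ha haz hzA with h | h
    · exact absurd h hz
    · exact Or.inl h

/-- a term for one deep flap -/
theorem exists_flap_term [Finite V] {κ k a : ℕ} (hκ : 1 ≤ κ) (hk : 4 * κ ≤ k)
    (hq : a + 3 ≤ 3 * κ) (hA : A.ncard ≤ a) (hU : UMin G U κ (a + 3))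
    (hHU : c.H ⊆ U) (hnbU : ∀ v ∈ c.H, ∀ z, G.Adj v z → z ∈ U)
    {y : V} (hy : y ∈ c.H \ c.S) {x : V} (hx : x ∈ c.fat y) (hd : c.Deep 10 x)
    (σ : V → Fin k) (hσ : Set.InjOn σ (c.fat y ∪ A)) :
    ∃ t : Term k, t.RepBy G (c.flap y) (c.fat y ∪ A) σ := by
  set Y := c.flap y with hYdef
  set N := nbh G Y with hNdef
  have hN := c.flap_nbh hy hx hd
  have hYH : Y ⊆ c.H := (c.flap_sub hy).trans sdiff_subset
  have hNcard : N.ncard ≤ a + 3 := by
    calc N.ncard ≤ (c.fat y ∪ A).ncard := Set.ncard_le_ncard hN (Set.toFinite _)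
      _ ≤ (c.fat y).ncard + A.ncard := Set.ncard_union_le _ _
      _ ≤ a + 3 := by have := c.fat_card hy; omega
  have hYN : ∀ v ∈ Y, ∀ z, G.Adj v z → z ∈ Y ∪ N := by
    intro v hv z hvz
    by_cases hz : z ∈ Y
    · exact Or.inl hz
    · exact Or.inr ⟨hz, v, hv, hvz⟩
  have hsub : Y ∪ N ⊆ U := by
    rintro v (hv | ⟨_, w, hw, hwv⟩)
    · exact hHU (hYH hv)
    · exact hnbU w (hYH hw) v hwv
  have hport : c.port 0 ∉ Y ∪ N := by
    rintro (h | h)
    · exact (c.flap_sub hy h).2 (c.port_S 0)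
    · rcases hN h with h | h
      · exact (Cell.Deep.flap_mem hy (Or.inr hx) hd (Or.inr h)).ne_port (by omega) 0 rfl
      · exact Set.disjoint_left.1 c.disjA (c.port_mem 0) h
  have hss : Y ∪ N ⊂ U := by
    refine ⟨hsub, fun h => hport (h (hHU (c.port_mem 0)))⟩
  have hnar : Narrow G (Y ∪ N) κ := by
    apply hU _ hss
    refine (Set.ncard_le_ncard ?_ (Set.toFinite _)).trans hNcard
    rintro v ⟨hv | hv, z, hz, hvz⟩
    · exact absurd (hYN v hv z hvz) hz
    · exact hv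
  have hdiff : (Y ∪ N) \ N = Y := by
    ext v
    constructor
    · rintro ⟨hv | hv, hn⟩
      · exact hv
      · exact absurd hv hn
    · intro hv
      exact ⟨Or.inl hv, fun h => h.1 hv⟩
  obtain ⟨t, ht⟩ := rep G κ k hk hκ (Y ∪ N) N hnar subset_union_right (by omega)
    (by rw [hdiff]; exact hYN) σ (hσ.mono hN)
  rw [hdiff] at ht
  refine ⟨t, ht.superset hN ?_⟩
  intro v hv x' hx' hadj
  refine ⟨fun h => ?_, v, hv, hadj⟩
  rcases hx' with hx' | hx'
  · exact (c.flap_sub hy h).2 hx'.1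
  · exact Set.disjoint_left.1 c.disjA (hYH h) hx'

/-- a term for a deep bundle -/
theorem exists_bun_term [Finite V] {κ k a : ℕ} (hκ : 1 ≤ κ) (hk : 4 * κ ≤ k)
    (hq : a + 3 ≤ 3 * κ) (hA : A.ncard ≤ a) (hU : UMin G U κ (a + 3))
    (hHU : c.H ⊆ U) (hnbU : ∀ v ∈ c.H, ∀ z, G.Adj v z → z ∈ U)
    (R : Set V) (hR : R.Nonempty) (hd : ∀ x ∈ R, c.Deep 10 x)
    (σ : V → Fin k) (hσ : Set.InjOn σ (R ∪ A)) :
    ∃ t : Term k, t.RepBy G (c.bun R) (R ∪ A) σ := by
  have main : ∀ n : ℕ, ∀ Z : Set V, Z ⊆ c.bun R → (∀ z ∈ Z, c.flap z ⊆ Z) → Z.ncard = n →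
      ∃ t : Term k, t.RepBy G Z (R ∪ A) σ := by
    intro n
    induction n using Nat.strong_induction_on with
    | _ n ih =>
    intro Z hZ hcl hn
    rcases Z.eq_empty_or_nonempty with rfl | ⟨z, hz⟩
    · exact ⟨Term.nil, Term.RepBy.nil G _ σ⟩
    · have hzb := hZ hz
      obtain ⟨x, hx⟩ := hR
      have hxz : x ∈ c.fat z := by rw [hzb.2]; exact hx
      obtain ⟨t₁, ht₁⟩ := c.exists_flap_term hκ hk hq hA hU hHU hnbU hzb.1 hxz (hd x hx) σ
        (by rw [hzb.2]; exact hσ)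
      rw [hzb.2] at ht₁
      have hlt : (Z \ c.flap z).ncard < n := by
        rw [← hn]
        apply Set.ncard_lt_ncard _ (Set.toFinite _)
        exact ⟨sdiff_subset, fun h => (h hz).2 (c.mem_flap_self z)⟩
      obtain ⟨t₂, ht₂⟩ := ih _ hlt (Z \ c.flap z) (sdiff_subset.trans hZ) (by
        intro w hw w' hw'
        refine ⟨hcl w hw.1 hw', fun h => hw.2 ?_⟩
        rw [← c.flap_eq h, c.flap_eq hw']
        exact c.mem_flap_self w) rfl
      refine ⟨Term.join t₁ t₂, ?_⟩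
      have hU' : Z = c.flap z ∪ (Z \ c.flap z) := by
        rw [Set.union_sdiff_self, Set.union_eq_self_of_subset_left (hcl z hz)]
      rw [hU']
      refine ht₁.join ht₂ Set.disjoint_sdiff_right ?_
      intro y hy w hw hyw
      exact hw.2 (c.flap_closed hzb.1 hy (hZ hw.1).1 hyw)
  refine main _ (c.bun R) subset_rfl ?_ rfl
  intro z hz w hw
  exact ⟨c.flap_sub hz.1 hw, by rw [c.fat_eq hw]; exact hz.2⟩

/-- neighbours of a deep bundle -/
theorem bun_nb [Finite V] (R : Set V) (hR : R.Nonempty) (hd : ∀ x ∈ R, c.Deep 10 x)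
    {y z : V} (hy : y ∈ c.bun R) (hyz : G.Adj y z) : z ∈ c.bun R ∪ (R ∪ A) := by
  obtain ⟨x, hx⟩ := hR
  have hxy : x ∈ c.fat y := by rw [hy.2]; exact hx
  by_cases hzf : z ∈ c.flap y
  · left
    exact ⟨c.flap_sub hy.1 hzf, by rw [c.fat_eq hzf]; exact hy.2⟩
  · have := c.flap_nbh hy.1 hxy (hd x hx) ⟨hzf, y, c.mem_flap_self y, hyz⟩
    rw [hy.2] at this
    exact Or.inr this

/-- numerical data of the term of a bundle -/
theorem bun_term_num [Finite V] {k : ℕ} (R : Set V) (hR : R.Nonempty)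
    (hd : ∀ x ∈ R, c.Deep 10 x) (hRS : R ⊆ c.S) {σ : V → Fin k}
    (hσ : Set.InjOn σ (R ∪ A)) {t : Term k} (ht : t.RepBy G (c.bun R) (R ∪ A) σ) (r : ℝ) :
    2 * (t.ed : ℝ) - r * t.nu = rel r G (c.bun R) := by
  have hdisj : Disjoint (c.bun R) (R ∪ A) := by
    rw [Set.disjoint_left]
    rintro y hy (h | h)
    · exact hy.1.2 (hRS h)
    · exact Set.disjoint_left.1 c.disjA hy.1.1 h
  obtain ⟨h1, h2⟩ := ht.card hdisj hσ
  have h3 : wt G (c.bun R) = 2 * t.ed := by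
    rw [h2, ← ncard_pairs G _ (fun e he => he.1)]
    unfold wt
    congr 1
    ext ⟨a, b⟩
    simp only [mem_ofPred_eq, SimpleGraph.mem_edgeSet, Sym2.mem_iff]
    constructor
    · rintro ⟨hab, h⟩
      refine ⟨hab, ?_, ?_⟩
      · rcases h with h | h
        · exact ⟨a, h, Or.inl rfl⟩
        · exact ⟨b, h, Or.inr rfl⟩
      · rcases h with h | h
        · rintro y (rfl | rfl)
          · exact Or.inl h
          · exact c.bun_nb R hR hd h hab
        · rintro y (rfl | rfl)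
          · exact c.bun_nb R hR hd h hab.symm
          · exact Or.inl h
    · rintro ⟨hab, ⟨y, hy, rfl | rfl⟩, _⟩
      · exact ⟨hab, Or.inl hy⟩
      · exact ⟨hab, Or.inr hy⟩
  unfold rel
  rw [h3, h1]
  push_cast
  ring

/-- at least four torso neighbours of a deep vertex -/
theorem four_nb [Finite V] {u : V} (hu : u ∈ c.S) {j : ℕ} (hj : j + 1 < 40)
    (hd : c.Deep j u) : 4 ≤ {v | c.TG.Adj u v}.ncard := by
  by_contra hlt
  push Not at hlt
  have hfin : {v | c.TG.Adj u v}.Finite := Set.toFinite _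
  obtain ⟨i, hi, hr⟩ := c.star hfin.toFinset (by
    rw [← Set.ncard_eq_toFinset_card _ hfin]; omega) u hu (by
    simp)
  rcases Relation.ReflTransGen.cases_head hr with h | ⟨v, hv, _⟩
  · exact hd.ne_port hj i h
  · exact hv.2.2.2 (by simpa using hv.1)

/-- three distinct deep vertices -/
theorem exists_three [Finite V] : ∃ r : Fin 3 → V, Function.Injective r ∧
    ∀ i, r i ∈ c.S ∧ c.Deep 10 (r i) := by
  obtain ⟨u, huS, hu⟩ := c.exists_deep
  have h4 := c.four_nb huS (by omega) hu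
  obtain ⟨v, hv, w, hw, hvw⟩ := (Set.one_lt_ncard (Set.toFinite {v | c.TG.Adj u v})).1 (by omega)
  refine ⟨![u, v, w], ?_, ?_⟩
  · intro i j hij
    have h1 : u ≠ v := hv.1
    have h2 : u ≠ w := hw.1
    fin_cases i <;> fin_cases j <;> simp_all
  · intro i
    have hdv : c.Deep 10 v := (Cell.Deep.TG hu hv).mono (by omega)
    have hdw : c.Deep 10 w := (Cell.Deep.TG hu hw).mono (by omega)
    have hvS : v ∈ c.S := hv.2.2.1
    have hwS : w ∈ c.S := hw.2.2.1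
    fin_cases i
    · exact ⟨huS, hu.mono (by omega)⟩
    · exact ⟨hvS, hdv⟩
    · exact ⟨hwS, hdw⟩

end Cell

end bundles

end Pool.Agent.Lib.MP_4d119b_lc
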