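import Pool.Agent.Lib.MP_4d119b_lc.Geom
import Pool.Agent.Lib.MP_4d119b_lc.Realize
import Pool.Agent.Lib.MP_4d119b_lc.Cross
import Pool.Agent.Lib.MP_4d119b_lc.Pump

/-! The double fan pattern built from local bundles. -/

namespace Pool.Agent.Lib.MP_4d119b_lc

open Set

/-! ### refinement of arrays -/

theorem refine_types {τ : Type*} (P : τ → ℕ → ℕ → Prop) (s : ℕ) (hs : 1 ≤ s) :
    ∀ (M : ℕ) (T : Set τ), T.Finite → T.ncard ≤ M → ∀ x0 y0 : ℕ, ∃ x1 y1 m, 1 ≤ m ∧
      x0 ≤ x1 ∧ x1 + s * m ≤ x0 + s ^ (M + 1) ∧ y0 ≤ y1 ∧ y1 + s * m ≤ y0 + s ^ (M + 1) ∧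
      ∀ p ∈ T, (∃ x y, x1 ≤ x ∧ x < x1 + s * m ∧ y1 ≤ y ∧ y < y1 + s * m ∧ P p x y) →
        ∀ i j, i < s → j < s → ∃ x y, x1 + i * m ≤ x ∧ x < x1 + (i + 1) * m ∧
          y1 + j * m ≤ y ∧ y < y1 + (j + 1) * m ∧ P p x y := by
  intro M
  induction M with
  | zero =>
    intro T hT hc x0 y0
    have hT0 : T = ∅ := by
      rw [← Set.ncard_eq_zero hT]; omega
    refine ⟨x0, y0, 1, le_rfl, le_rfl, by simp, le_rfl, by simp, ?_⟩
    intro p hp
    rw [hT0] at hp
    exact hp.elim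
  | succ M ih =>
    intro T hT hc x0 y0
    by_cases hall : ∀ p ∈ T, (∃ x y, x0 ≤ x ∧ x < x0 + s * s ^ (M + 1) ∧ y0 ≤ y ∧
        y < y0 + s * s ^ (M + 1) ∧ P p x y) →
        ∀ i j, i < s → j < s → ∃ x y, x0 + i * s ^ (M + 1) ≤ x ∧
          x < x0 + (i + 1) * s ^ (M + 1) ∧
          y0 + j * s ^ (M + 1) ≤ y ∧ y < y0 + (j + 1) * s ^ (M + 1) ∧ P p x y
    · refine ⟨x0, y0, s ^ (M + 1), Nat.one_le_pow _ _ hs, le_rfl, ?_, le_rfl, ?_, hall⟩
      · rw [pow_succ s (M + 1)]; nlinarith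
      · rw [pow_succ s (M + 1)]; nlinarith
    · push Not at hall
      obtain ⟨p0, hp0, _, i, j, hi, hj, hno⟩ := hall
      have hc' : (T \ {p0}).ncard ≤ M := by
        rw [Set.ncard_sdiff_singleton_of_mem hp0]; omega
      obtain ⟨x1, y1, m, hm, h1, h2, h3, h4, h5⟩ := ih (T \ {p0}) (hT.subset sdiff_subset) hc'
        (x0 + i * s ^ (M + 1)) (y0 + j * s ^ (M + 1))
      have hi' : (i + 1) * s ^ (M + 1) ≤ s * s ^ (M + 1) := Nat.mul_le_mul_right _ hi
      have hj' : (j + 1) * s ^ (M + 1) ≤ s * s ^ (M + 1) := Nat.mul_le_mul_right _ hj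
      have hpw : s ^ (M + 1 + 1) = s * s ^ (M + 1) := by rw [pow_succ s (M + 1)]; ring
      have hie : (i + 1) * s ^ (M + 1) = i * s ^ (M + 1) + s ^ (M + 1) := by ring
      have hje : (j + 1) * s ^ (M + 1) = j * s ^ (M + 1) + s ^ (M + 1) := by ring
      refine ⟨x1, y1, m, hm, by omega, by omega, by omega, by omega, ?_⟩
      intro p hp hex
      by_cases hpp : p = p0
      · subst hpp
        obtain ⟨x, y, g1, g2, g3, g4, g5⟩ := hex
        exact absurd g5 (hno x y (by omega) (by omega) (by omega) (by omega))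
      · exact h5 p ⟨hp, hpp⟩ hex

variable {V : Type} {G : SimpleGraph V} {A U : Set V}

/-- shifted sub-array -/
def CellArray.shift {n : ℕ} (CA : CellArray G A U n) (x0 y0 M : ℕ) (hx : x0 + M ≤ n)
    (hy : y0 + M ≤ n) : CellArray G A U M where
  C i j := CA.C (x0 + i) (y0 + j)
  disj i j i' j' hi hj hi' hj' h := CA.disj _ _ _ _ (by omega) (by omega) (by omega) (by omega)
    (by omega)
  right i j hi hj := CA.right (x0 + i) (y0 + j) (by omega) (by omega)
  down i j hi hj := CA.down (x0 + i) (y0 + j) (by omega) (by omega)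
  inU i j hi hj := CA.inU _ _ (by omega) (by omega)
  nbU i j hi hj := CA.nbU _ _ (by omega) (by omega)

/-! ### classes of locations -/

/-- number of roots of a class -/
def csz (cl : ℕ) : ℕ := if cl = 0 then 1 else if cl ≤ 3 then 2 else 3

/-- port of the `m`-th root -/
def prt (cl m : ℕ) : Fin 4 :=
  if cl = 0 then 2
  else if cl = 1 then (if m = 0 then 2 else 0)
  else if cl = 2 then (if m = 0 then 0 else 2)
  else if cl = 3 then (if m = 0 then 3 else 1)
  else if cl = 4 then (if m = 0 then 3 else if m = 1 then 1 else 0)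
  else (if m = 0 then 3 else if m = 1 then 1 else 2)

/-- special slot of the `m`-th root (parity `par` of the path vertex) -/
def spc (par cl m : ℕ) : ℕ :=
  if m = 0 then 2 + par
  else if m = 1 then (if cl = 1 then 0 else if cl = 2 then 1 else 3 - par)
  else (if cl = 4 then 0 else 1)

/-- owner of the `m`-th root at step `i` -/
def ownr (cl m i : ℕ) : ℕ :=
  if m = 0 then i + 2
  else if m = 1 then (if cl = 1 then 0 else if cl = 2 then 1 else i + 3)
  else (if cl = 4 then 0 else 1)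

def posX (cl i : ℕ) : ℕ := if cl = 0 then 5 * i + 1 else if cl ≤ 2 then 5 * i + 2 else 5 * i + 4

def posY (cl : ℕ) : ℕ :=
  if cl = 0 then 1 else if cl = 1 then 1 else if cl = 2 then 3 else if cl = 3 then 2
  else if cl = 4 then 1 else 3

/-- class located at a super cell -/
def clOf (X Y : ℕ) : ℕ :=
  if X % 5 = 1 then 0 else if X % 5 = 2 then (if Y = 1 then 1 else 2)
  else (if Y = 2 then 3 else if Y = 1 then 4 else 5)

theorem clOf_pos {cl i : ℕ} (h : cl < 6) : clOf (posX cl i) (posY cl) = cl := by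
  have : cl = 0 ∨ cl = 1 ∨ cl = 2 ∨ cl = 3 ∨ cl = 4 ∨ cl = 5 := by omega
  rcases this with rfl | rfl | rfl | rfl | rfl | rfl <;>
    simp [clOf, posX, posY, Nat.add_mod]

theorem posX_div {cl i : ℕ} : posX cl i / 5 = i := by
  unfold posX; split_ifs <;> omega

theorem clOf_lt (X Y : ℕ) : clOf X Y < 6 := by
  unfold clOf; split_ifs <;> omega

theorem posX_lt {cl i N : ℕ} (hi : i < N) : posX cl i < 5 * N + 1 := by
  unfold posX; split_ifs <;> omega

theorem posY_lt {cl : ℕ} : posY cl < 5 := by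
  unfold posY; split_ifs <;> omega

theorem prt_inj {cl m m' : ℕ} (hcl : cl < 6) (hm : m < csz cl) (hm' : m' < csz cl)
    (h : prt cl m = prt cl m') : m = m' := by
  have h3 : csz cl ≤ 3 := by unfold csz; split_ifs <;> omega
  have : cl = 0 ∨ cl = 1 ∨ cl = 2 ∨ cl = 3 ∨ cl = 4 ∨ cl = 5 := by omega
  have hm3 : m = 0 ∨ m = 1 ∨ m = 2 := by omega
  have hm3' : m' = 0 ∨ m' = 1 ∨ m' = 2 := by omega
  rcases this with rfl | rfl | rfl | rfl | rfl | rfl <;> rcases hm3 with rfl | rfl | rfl <;>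
    rcases hm3' with rfl | rfl | rfl <;> simp_all [prt, csz]

theorem spc_lt {par cl m : ℕ} (hp : par < 2) : spc par cl m < 4 := by
  unfold spc; split_ifs <;> omega

theorem spc_inj {par cl m m' : ℕ} (hp : par < 2) (hcl : cl < 6) (hm : m < csz cl)
    (hm' : m' < csz cl) (h : spc par cl m = spc par cl m') : m = m' := by
  have h3 : csz cl ≤ 3 := by unfold csz; split_ifs <;> omega
  have : cl = 0 ∨ cl = 1 ∨ cl = 2 ∨ cl = 3 ∨ cl = 4 ∨ cl = 5 := by omega
  have hm3 : m = 0 ∨ m = 1 ∨ m = 2 := by omega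
  have hm3' : m' = 0 ∨ m' = 1 ∨ m' = 2 := by omega
  have hp2 : par = 0 ∨ par = 1 := by omega
  rcases hp2 with rfl | rfl <;>
  rcases this with rfl | rfl | rfl | rfl | rfl | rfl <;> rcases hm3 with rfl | rfl | rfl <;>
    rcases hm3' with rfl | rfl | rfl <;> simp_all [spc, csz]

theorem own_ownr {cl m i : ℕ} (hcl : cl < 6) (hm : m < csz cl) :
    Own (ownr cl m i) (posX cl i) (posY cl) (prt cl m : Fin 4) := by
  have h3 : csz cl ≤ 3 := by unfold csz; split_ifs <;> omega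
  have : cl = 0 ∨ cl = 1 ∨ cl = 2 ∨ cl = 3 ∨ cl = 4 ∨ cl = 5 := by omega
  have hm3 : m = 0 ∨ m = 1 ∨ m = 2 := by omega
  rcases this with rfl | rfl | rfl | rfl | rfl | rfl <;> rcases hm3 with rfl | rfl | rfl <;>
    simp [csz] at hm <;> simp [Own, ownr, posX, posY, prt] <;> omega

theorem own_prt {o X Y d : ℕ} (h : Own o X Y d) (hd : d < 4) :
    ∃ m, m < csz (clOf X Y) ∧ ((prt (clOf X Y) m : Fin 4) : ℕ) = d := by
  rcases h with ⟨_, ⟨_, h4⟩ | ⟨hY, rfl, hX⟩⟩ | ⟨_, ⟨_, h4⟩ | ⟨hY, rfl, hX⟩⟩ | ⟨_, h⟩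
  · omega
  · subst hY
    rcases hX with hX | hX
    · exact ⟨1, by simp [clOf, hX, csz], by simp [clOf, hX, prt]⟩
    · exact ⟨2, by simp [clOf, hX, csz], by simp [clOf, hX, prt]⟩
  · omega
  · subst hY
    rcases hX with hX | hX
    · exact ⟨1, by simp [clOf, hX, csz], by simp [clOf, hX, prt]⟩
    · exact ⟨2, by simp [clOf, hX, csz], by simp [clOf, hX, prt]⟩
  · rcases h with ⟨_, _, _, h4⟩ | ⟨_, _, h4⟩ | ⟨hX, rfl, rfl⟩ | ⟨hX, rfl, rfl⟩ |
      ⟨hX, h1, h2, rfl⟩ | ⟨hX, h1, h2, rfl⟩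
    · omega
    · omega
    · rcases hX with hX | hX
      · have : X % 5 = 1 := by omega
        exact ⟨0, by simp [clOf, this, csz], by simp [clOf, this, prt]⟩
      · have : X % 5 = 2 := by omega
        exact ⟨0, by simp [clOf, this, csz], by simp [clOf, this, prt]⟩
    · have : X % 5 = 2 := by omega
      exact ⟨0, by simp [clOf, this, csz], by simp [clOf, this, prt]⟩
    · have hX' : X % 5 = 4 := by omega
      have hY : Y = 1 ∨ Y = 2 ∨ Y = 3 := by omega
      rcases hY with rfl | rfl | rfl <;>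
        exact ⟨0, by simp [clOf, hX', csz], by simp [clOf, hX', prt]⟩
    · have hX' : X % 5 = 4 := by omega
      have hY : Y = 1 ∨ Y = 2 ∨ Y = 3 := by omega
      rcases hY with rfl | rfl | rfl <;>
        exact ⟨1, by simp [clOf, hX', csz], by simp [clOf, hX', prt]⟩

theorem not_own_four {o cl i : ℕ} (hcl : cl < 6) : ¬ Own o (posX cl i) (posY cl) 4 := by
  have : cl = 0 ∨ cl = 1 ∨ cl = 2 ∨ cl = 3 ∨ cl = 4 ∨ cl = 5 := by omega
  rcases this with rfl | rfl | rfl | rfl | rfl | rfl <;>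
    simp [Own, posX, posY] <;> omega

end Pool.Agent.Lib.MP_4d119b_lc
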