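import Pool.Agent.Lib.MP_4d119b_lc.Pattern

/-! Location data, pattern terms. -/

namespace Pool.Agent.Lib.MP_4d119b_lc

open Set

variable {V : Type} {G : SimpleGraph V} {A U : Set V} {k : ℕ}

/-- set of the first `s` roots -/
def rset (s : ℕ) (r : ℕ → V) : Set V := {v | ∃ m, m < s ∧ r m = v}

open Classical in
/-- slot assignment: roots get the slots `ς`, apex vertices the slots `sA` -/
noncomputable def sig (s : ℕ) (r : ℕ → V) (ς : ℕ → Fin k) (sA : V → Fin k) (v : V) : Fin k :=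
  if h : ∃ m, m < s ∧ r m = v then ς (Classical.choose h) else sA v

theorem sig_root {s : ℕ} {r : ℕ → V} {ς : ℕ → Fin k} {sA : V → Fin k}
    (hinj : ∀ m m', m < s → m' < s → r m = r m' → m = m') {m : ℕ} (hm : m < s) :
    sig s r ς sA (r m) = ς m := by
  have h : ∃ m', m' < s ∧ r m' = r m := ⟨m, hm, rfl⟩
  unfold sig
  rw [dif_pos h]
  have := Classical.choose_spec h
  rw [hinj _ _ this.1 hm this.2]

theorem sig_other {s : ℕ} {r : ℕ → V} {ς : ℕ → Fin k} {sA : V → Fin k} {v : V}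
    (hv : v ∉ rset s r) : sig s r ς sA v = sA v := by
  unfold sig
  exact dif_neg hv

/-- a bundle in a cell with its roots linked to ports, represented by a term -/
structure LocD (c : Cell G A) (s : ℕ) (π : ℕ → Fin 4) (ς : ℕ → Fin k) (sA : V → Fin k)
    (t : Term k) (r : ℕ → V) (C : ℕ → Set V) : Prop where
  inj : ∀ m m', m < s → m' < s → r m = r m' → m = m'
  inS : ∀ m, m < s → r m ∈ c.S
  conn : ∀ m, m < s → Conn G (C m)
  sub : ∀ m, m < s → C m ⊆ c.H
  mem : ∀ m, m < s → r m ∈ C m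
  port : ∀ m, m < s → c.port (π m) ∈ C m
  disj : ∀ m m', m < s → m' < s → m ≠ m' → Disjoint (C m) (C m')
  bun : ∀ m, m < s → Disjoint (C m) (c.bun (rset s r))
  rep : t.RepBy G (c.bun (rset s r)) (rset s r ∪ A) (sig s r ς sA)

/-- injectivity of the slot assignment -/
theorem sig_injOn {s : ℕ} {r : ℕ → V} {ς : ℕ → Fin k} {sA : V → Fin k}
    (hinj : ∀ m m', m < s → m' < s → r m = r m' → m = m')
    (hς : ∀ m m', m < s → m' < s → ς m = ς m' → m = m')
    (hςA : ∀ m, m < s → ∀ a ∈ A, sA a ≠ ς m) (hsA : Set.InjOn sA A)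
    (hrA : ∀ a ∈ A, a ∉ rset s r) : Set.InjOn (sig s r ς sA) (rset s r ∪ A) := by
  rintro x (⟨m, hm, rfl⟩ | hx) y (⟨m', hm', rfl⟩ | hy) hxy
  · rw [sig_root hinj hm, sig_root hinj hm'] at hxy
    rw [hς m m' hm hm' hxy]
  · rw [sig_root hinj hm, sig_other (hrA y hy)] at hxy
    exact absurd hxy.symm (hςA m hm y hy)
  · rw [sig_root hinj hm', sig_other (hrA x hx)] at hxy
    exact absurd hxy (hςA m' hm' x hx)
  · rw [sig_other (hrA x hx), sig_other (hrA y hy)] at hxy
    exact hsA hx hy hxy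

/-- existence of location data -/
theorem exists_loc [Finite V] {κ a : ℕ} (c : Cell G A) (hκ : 1 ≤ κ) (hk : 4 * κ ≤ k)
    (hq : a + 3 ≤ 3 * κ) (hA : A.ncard ≤ a) (hU : UMin G U κ (a + 3))
    (hHU : c.H ⊆ U) (hnbU : ∀ v ∈ c.H, ∀ z, G.Adj v z → z ∈ U)
    {s : ℕ} (hs1 : 1 ≤ s) (hs3 : s ≤ 3) {R : Set V} (hRc : R.ncard = s) (hRS : R ⊆ c.S)
    (hRd : ∀ x ∈ R, c.Deep 10 x) (π : ℕ → Fin 4)
    (hπ : ∀ m m', m < s → m' < s → π m = π m' → m = m') (ς : ℕ → Fin k)
    (hς : ∀ m m', m < s → m' < s → ς m = ς m' → m = m') (sA : V → Fin k)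
    (hςA : ∀ m, m < s → ∀ a ∈ A, sA a ≠ ς m) (hsA : Set.InjOn sA A) :
    ∃ r C t, LocD c s π ς sA t r C ∧ rset s r = R := by
  classical
  have hRf : R.Finite := Set.toFinite R
  have hcard : hRf.toFinset.card = s := by rw [← Set.ncard_eq_toFinset_card R hRf, hRc]
  let e := hRf.toFinset.equivFinOfCardEq hcard
  let r0 : Fin s → V := fun i => (e.symm i).1
  have hr0 : Function.Injective r0 := fun i j h => e.symm.injective (Subtype.ext h)
  have hr0R : ∀ i, r0 i ∈ R := fun i => by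
    have := (e.symm i).2
    rwa [Set.Finite.mem_toFinset] at this
  have hr0s : ∀ x ∈ R, ∃ i, r0 i = x := by
    intro x hx
    refine ⟨e ⟨x, by rwa [Set.Finite.mem_toFinset]⟩, ?_⟩
    simp [r0]
  obtain ⟨τ, C0, hC0, hC0d⟩ := link_ports c.TG c.S c.port c.port_inj c.port_S
    (fun C hC x hx hxC => c.star C hC x hx hxC) s hs3 r0 hr0 (fun i => hRS (hr0R i))
    (fun i j => (hRd _ (hr0R i)).ne_port (by omega) j) (fun m => π m)
    (fun m m' h => Fin.ext (hπ m m' m.2 m'.2 h))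
  -- reindexing
  let ix : ℕ → Fin s := fun m => if h : m < s then τ.symm ⟨m, h⟩ else ⟨0, hs1⟩
  have hix : ∀ m (hm : m < s), ix m = τ.symm ⟨m, hm⟩ := fun m hm => by simp [ix, hm]
  have hixinj : ∀ m m', m < s → m' < s → ix m = ix m' → m = m' := by
    intro m m' hm hm' h
    rw [hix m hm, hix m' hm'] at h
    exact congrArg Fin.val (τ.symm.injective h)
  let r : ℕ → V := fun m => r0 (ix m)
  let C : ℕ → Set V := fun m => c.lift (C0 (ix m))
  have hrinj : ∀ m m', m < s → m' < s → r m = r m' → m = m' := fun m m' hm hm' h =>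
    hixinj m m' hm hm' (hr0 h)
  have hrset : rset s r = R := by
    ext x
    constructor
    · rintro ⟨m, hm, rfl⟩; exact hr0R _
    · intro hx
      obtain ⟨i, hi⟩ := hr0s x hx
      refine ⟨(τ i : Fin s), (τ i).2, ?_⟩
      simp only [r]
      rw [hix _ (τ i).2]
      simpa using hi
  have hRA : ∀ a ∈ A, a ∉ rset s r := by
    intro a ha har
    rw [hrset] at har
    exact Set.disjoint_left.1 c.disjA (c.S_sub (hRS har)) ha
  obtain ⟨t, ht⟩ := c.exists_bun_term hκ hk hq hA hU hHU hnbU R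
    ((Set.ncard_pos hRf).1 (by omega)) hRd (sig s r ς sA)
    (by rw [← hrset]; exact sig_injOn hrinj hς hςA hsA hRA)
  refine ⟨r, C, t, ⟨hrinj, ?_, ?_, ?_, ?_, ?_, ?_, ?_, ?_⟩, hrset⟩
  · intro m _; exact hRS (hr0R _)
  · intro m _; exact c.lift_conn (hC0 _).2.1 (hC0 _).1
  · intro m _; exact c.lift_sub (hC0 _).2.1
  · intro m _; exact Or.inl (hC0 _).2.2.1
  · intro m hm
    have h1 := (hC0 (ix m)).2.2.2
    rw [hix m hm] at h1
    simp only [Equiv.apply_symm_apply] at h1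
    left
    rw [hix m hm]
    exact h1
  · intro m m' hm hm' hne
    refine c.lift_disj (hC0 _).2.1 (hC0 _).2.1 (hC0d _ _ ?_)
    intro h
    exact hne (hixinj m m' hm hm' h)
  · intro m hm
    rw [hrset, Set.disjoint_right]
    intro y hy hyC
    have h1 : (c.fat y ∩ C0 (ix m)).ncard ≤ 1 := by
      rw [Set.ncard_le_one (Set.toFinite _)]
      rintro x ⟨hx, hxC⟩ x' ⟨hx', hxC'⟩
      rw [hy.2] at hx hx'
      obtain ⟨i, rfl⟩ := hr0s x hx
      obtain ⟨j, rfl⟩ := hr0s x' hx'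
      have hi : i = ix m := by
        by_contra hne
        exact Set.disjoint_left.1 (hC0d _ _ hne) (hC0 i).2.2.1 hxC
      have hj : j = ix m := by
        by_contra hne
        exact Set.disjoint_left.1 (hC0d _ _ hne) (hC0 j).2.2.1 hxC'
      rw [hi, hj]
    exact Set.disjoint_left.1 (c.lift_disj_flap (hC0 (ix m)).2.1 hy.1 h1) hyC
      (c.mem_flap_self y)
  · rw [hrset]
    exact ht

/-! ### flags and values -/

/-- apex vertices adjacent to a single root -/
def flA (G : SimpleGraph V) (A R : Set V) : Set V :=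
  {a | a ∈ A ∧ R.ncard = 1 ∧ ∃ x ∈ R, G.Adj x a}

/-- the two roots are adjacent -/
def flE (G : SimpleGraph V) (R : Set V) : Prop := R.ncard = 2 ∧ ∃ x ∈ R, ∃ y ∈ R, G.Adj x y

open Classical in
/-- value of the bundle with root set `R` -/
noncomputable def Cell.val (c : Cell G A) (r : ℝ) (R : Set V) : ℝ :=
  rel r G (c.bun R) + 2 * ((flA G A R).ncard : ℝ) + 2 * (if flE G R then 1 else 0)

theorem Cell.val_one (c : Cell G A) (r : ℝ) (u : V) : c.val r {u} = c.val1 r u := by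
  unfold Cell.val Cell.val1 flA flE
  rw [Set.ncard_singleton]
  simp

open Classical in
theorem Cell.val_two (c : Cell G A) (r : ℝ) {u v : V} (h : u ≠ v) :
    c.val r {u, v} = c.val2 r u v := by
  unfold Cell.val Cell.val2 flA flE
  rw [Set.ncard_pair h]
  have h1 : {a | a ∈ A ∧ (2 : ℕ) = 1 ∧ ∃ x ∈ ({u, v} : Set V), G.Adj x a} = ∅ := by
    ext a; simp
  have h2 : ((2 : ℕ) = 2 ∧ ∃ x ∈ ({u, v} : Set V), ∃ y ∈ ({u, v} : Set V), G.Adj x y) ↔
      G.Adj u v := by
    constructor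
    · rintro ⟨_, x, hx, y, hy, hxy⟩
      rcases hx with rfl | hx <;> rcases hy with rfl | hy
      · exact absurd rfl hxy.ne
      · rw [Set.mem_singleton_iff] at hy; subst hy; exact hxy
      · rw [Set.mem_singleton_iff] at hx; subst hx; exact hxy.symm
      · rw [Set.mem_singleton_iff] at hx hy; subst hx; subst hy; exact absurd rfl hxy.ne
    · intro h
      exact ⟨rfl, u, Or.inl rfl, v, Or.inr rfl, h⟩
  rw [h1, Set.ncard_empty]
  by_cases hadj : G.Adj u v
  · rw [if_pos hadj, if_pos (h2.2 hadj)]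
    simp
  · rw [if_neg hadj, if_neg (fun h => hadj (h2.1 h))]
    simp

theorem Cell.val_three (c : Cell G A) (r : ℝ) {u v x : V} (h : u ≠ v) (h' : u ≠ x)
    (h'' : v ≠ x) : c.val r {u, v, x} = c.val3 r u v x := by
  have hc : ({u, v, x} : Set V).ncard = 3 := by
    rw [Set.ncard_insert_of_notMem _ (Set.toFinite _), Set.ncard_pair h'']
    rintro (h1 | h1)
    · exact h h1
    · exact h' h1
  unfold Cell.val Cell.val3 flA flE
  rw [hc]
  have h1 : {a | a ∈ A ∧ (3 : ℕ) = 1 ∧ ∃ x_1 ∈ ({u, v, x} : Set V), G.Adj x_1 a} = ∅ := by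
    ext a; simp
  rw [h1, Set.ncard_empty]
  simp

/-! ### pattern terms -/

open Term

/-- iterated joins -/
def joinN (τ : ℕ → Term k) (t : Term k) : ℕ → Term k
  | 0 => t
  | n + 1 => Term.join (τ n) (joinN τ t n)

/-- the pattern term -/
def patT (v : ℕ → Fin k) (S : ℕ → Finset (Fin k)) (τ : ℕ → ℕ → Term k) : ℕ → Term k
  | 0 => Term.nil
  | i + 1 => Term.drop (v i) (S i) (joinN (τ i) (patT v S τ i) 6)

/-- drop the slots of a list -/
def dropL (l : List (Fin k)) (t : Term k) : Term k := l.foldr (fun i t => Term.drop i ∅ t) t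

theorem joinN_tinfo {h : ℕ} {τ τ' : ℕ → Term k} {t t' : Term k} (ht : t.tinfo h = t'.tinfo h) :
    ∀ n, (∀ j, j < n → (τ j).tinfo h = (τ' j).tinfo h) →
      (joinN τ t n).tinfo h = (joinN τ' t' n).tinfo h
  | 0, _ => ht
  | n + 1, hτ => tinfo_join _ _ _ _ (hτ n (by omega)) (joinN_tinfo ht n (fun j hj =>
      hτ j (by omega)))

theorem patT_tinfo {h : ℕ} (v : ℕ → Fin k) (S : ℕ → Finset (Fin k)) {τ τ' : ℕ → ℕ → Term k} :
    ∀ n, (∀ i j, i < n → j < 6 → (τ i j).tinfo h = (τ' i j).tinfo h) →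
      (patT v S τ n).tinfo h = (patT v S τ' n).tinfo h
  | 0, _ => rfl
  | n + 1, hτ => tinfo_drop _ _ _ _ (joinN_tinfo (patT_tinfo v S n (fun i j hi hj =>
      hτ i j (by omega) hj)) 6 (fun j hj => hτ n j (by omega) hj))

theorem dropL_tinfo {h : ℕ} {t t' : Term k} (ht : t.tinfo h = t'.tinfo h) :
    ∀ l : List (Fin k), (dropL l t).tinfo h = (dropL l t').tinfo h
  | [] => ht
  | i :: l => tinfo_drop i ∅ _ _ (dropL_tinfo ht l)

/-- one step of the pattern preserves equality of types -/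
theorem patT_step_tinfo {h : ℕ} (v : Fin k) (S : Finset (Fin k)) (τ : ℕ → Term k) {t t' : Term k}
    (ht : t.tinfo h = t'.tinfo h) :
    (Term.drop v S (joinN τ t 6)).tinfo h = (Term.drop v S (joinN τ t' 6)).tinfo h :=
  tinfo_drop _ _ _ _ (joinN_tinfo ht 6 (fun _ _ => rfl))

theorem joinN_used {τ : ℕ → Term k} {t : Term k} {i : Fin k} :
    ∀ n, (joinN τ t n).Used i → t.Used i ∨ ∃ j, j < n ∧ (τ j).Used i
  | 0, h => Or.inl h
  | n + 1, h => by
    obtain ⟨x, hx⟩ := h
    rcases x with x | x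
    · exact Or.inr ⟨n, by omega, x, hx⟩
    · rcases joinN_used n ⟨x, hx⟩ with h | ⟨j, hj, h⟩
      · exact Or.inl h
      · exact Or.inr ⟨j, by omega, h⟩

theorem drop_used {v i : Fin k} {S : Finset (Fin k)} {t : Term k}
    (h : (Term.drop v S t).Used i) : i ≠ v ∧ (i ∈ S ∨ t.Used i) := by
  obtain ⟨x, hx⟩ := h
  rcases x with _ | x
  · exact ⟨hx.2, Or.inl hx.1⟩
  · exact ⟨hx.2, Or.inr ⟨x, hx.1⟩⟩

theorem dropL_used {t : Term k} {i : Fin k} :
    ∀ l : List (Fin k), (dropL l t).Used i → i ∉ l ∧ t.Used i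
  | [], h => ⟨by simp, h⟩
  | j :: l, h => by
    obtain ⟨h1, h2⟩ := drop_used h
    rcases h2 with h2 | h2
    · simp at h2
    · obtain ⟨h3, h4⟩ := dropL_used l h2
      exact ⟨by simp [h1, h3], h4⟩

theorem joinN_nu (τ : ℕ → Term k) (t : Term k) : ∀ n,
    (joinN τ t n).nu = t.nu + ∑ j ∈ Finset.range n, (τ j).nu
  | 0 => by simp [joinN]
  | n + 1 => by
    rw [Finset.sum_range_succ, joinN, Term.nu, joinN_nu τ t n]; ring

theorem joinN_ed (τ : ℕ → Term k) (t : Term k) : ∀ n,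
    (joinN τ t n).ed = t.ed + ∑ j ∈ Finset.range n, (τ j).ed
  | 0 => by simp [joinN]
  | n + 1 => by
    rw [Finset.sum_range_succ, joinN, Term.ed, joinN_ed τ t n]; ring

theorem dropL_nu (t : Term k) : ∀ l : List (Fin k), (dropL l t).nu = t.nu + l.length
  | [] => rfl
  | i :: l => by
    show (dropL l t).nu + 1 = _
    rw [dropL_nu t l]; simp; ring

theorem dropL_ed (t : Term k) : ∀ l : List (Fin k), (dropL l t).ed = t.ed
  | [] => rfl
  | i :: l => by
    show (dropL l t).ed + (Finset.erase ∅ i).card = _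
    rw [dropL_ed t l]; simp

/-- realisation of iterated joins -/
theorem ModX.joinN {τ : ℕ → Term k} {t : Term k} {β : Fin k → Set V} {X : Set V}
    {Y : ℕ → Set V} (ht : ModX G t β X) : ∀ n, (∀ j, j < n → ModX G (τ j) β (Y j)) →
      (∀ j, j < n → Disjoint (Y j) X) →
      (∀ j j', j < n → j' < n → j ≠ j' → Disjoint (Y j) (Y j')) →
      ModX G (joinN τ t n) β (X ∪ {v | ∃ j, j < n ∧ v ∈ Y j})
  | 0, _, _, _ => ht.mono (fun _ => subset_rfl) subset_union_left
  | n + 1, h1, h2, h3 => by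
    have ih := ModX.joinN ht n (fun j hj => h1 j (by omega)) (fun j hj => h2 j (by omega))
      (fun j j' hj hj' => h3 j j' (by omega) (by omega))
    have h4 := (h1 n (by omega)).join ih (by
      rw [Set.disjoint_union_right]
      refine ⟨h2 n (by omega), ?_⟩
      rw [Set.disjoint_left]
      rintro v hv ⟨j, hj, hvj⟩
      exact Set.disjoint_left.1 (h3 n j (by omega) (by omega) (by omega)) hv hvj)
    refine h4.mono (fun _ => subset_rfl) ?_
    rintro v (hv | hv | ⟨j, hj, hv⟩)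
    · exact Or.inr ⟨n, by omega, hv⟩
    · exact Or.inl hv
    · exact Or.inr ⟨j, by omega, hv⟩

/-- realisation of a list of drops -/
theorem ModX.dropL {t : Term k} {β : Fin k → Set V} {X : Set V} (ht : ModX G t β X) :
    ∀ l : List (Fin k), l.Nodup → (∀ i ∈ l, Conn G (β i) ∧ Disjoint (β i) X) →
      (∀ i ∈ l, ∀ j ∈ l, i ≠ j → Disjoint (β i) (β j)) →
      ModX G (dropL l t) β (X ∪ {v | ∃ i ∈ l, v ∈ β i})
  | [], _, _, _ => ht.mono (fun _ => subset_rfl) subset_union_left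
  | i :: l, hn, h1, h2 => by
    have ih := ModX.dropL ht l (List.nodup_cons.1 hn).2
      (fun j hj => h1 j (List.mem_cons_of_mem _ hj))
      (fun j hj j' hj' => h2 j (List.mem_cons_of_mem _ hj) j' (List.mem_cons_of_mem _ hj'))
    have h3 := ih.drop (i := i) (S := ∅) (β' := β) (h1 i List.mem_cons_self).1 (by
      rw [Set.disjoint_union_right]
      refine ⟨(h1 i List.mem_cons_self).2, ?_⟩
      rw [Set.disjoint_left]
      rintro v hv ⟨j, hj, hvj⟩
      refine Set.disjoint_left.1 (h2 i List.mem_cons_self j (List.mem_cons_of_mem _ hj) ?_) hv hvj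
      rintro rfl
      exact (List.nodup_cons.1 hn).1 hj) (fun _ _ => subset_rfl) (fun j hj => by simp at hj)
    refine h3.mono (fun _ => subset_rfl) ?_
    rintro v ((hv | ⟨j, hj, hv⟩) | hv)
    · exact Or.inl hv
    · exact Or.inr ⟨j, List.mem_cons_of_mem _ hj, hv⟩
    · exact Or.inr ⟨i, List.mem_cons_self, hv⟩

end Pool.Agent.Lib.MP_4d119b_lc
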