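import Pool.Agent.Lib.MP_4d119b_lc.Pattern2

/-! The pattern assembled from local bundles is a minor. -/

namespace Pool.Agent.Lib.MP_4d119b_lc

open Set Term

variable {V : Type} {G : SimpleGraph V} {A U : Set V} {k : ℕ}

theorem Cell.bun_sub_H (c : Cell G A) (R : Set V) : c.bun R ⊆ c.H :=
  (c.bun_sub R).trans sdiff_subset

theorem pos_inj {cl cl' i i' : ℕ} (h : cl < 6) (h' : cl' < 6) (hX : posX cl i = posX cl' i')
    (hY : posY cl = posY cl') : cl = cl' ∧ i = i' := by
  constructor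
  · rw [← clOf_pos (i := i) h, ← clOf_pos (i := i') h', hX, hY]
  · rw [← posX_div (cl := cl) (i := i), ← posX_div (cl := cl') (i := i'), hX]

theorem pattern_minor {N m s h : ℕ} (CA : CellArray G A U (s * m)) (hm : 1 ≤ m)
    (hs : 15 * N + 15 ≤ s) (sA : V → Fin k) (hsA : Set.InjOn sA A) (sp : ℕ → Fin k)
    (hsp : ∀ i j, i < 4 → j < 4 → sp i = sp j → i = j)
    (hspA : ∀ j, j < 4 → ∀ a ∈ A, sA a ≠ sp j) (FA : Set (Fin k)) (bE : Prop)
    (I : ℕ → ℕ → Set (Set (Fin h) × (Fin k ⊕ Fin h → Fin k ⊕ Fin h → Prop)))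
    (hloc : ∀ X Y, X < 5 * N + 1 → Y < 5 → ∃ x y r C t, (3 * X + 1) * m ≤ x ∧
      x < (3 * X + 1 + 1) * m ∧ (3 * Y + 1) * m ≤ y ∧ y < (3 * Y + 1 + 1) * m ∧
      LocD (CA.C x y) (csz (clOf X Y)) (prt (clOf X Y))
        (fun q => sp (spc (X / 5 % 2) (clOf X Y) q)) sA t r C ∧
      (clOf X Y = 0 → sA '' flA G A (rset (csz (clOf X Y)) r) = FA) ∧
      (1 ≤ clOf X Y → clOf X Y ≤ 3 → (flE G (rset (csz (clOf X Y)) r) ↔ bE)) ∧
      t.tinfo h = I (X / 5 % 2) (clOf X Y))
    (Sf : ℕ → Finset (Fin k))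
    (hSf : ∀ par j, j ∈ Sf par ↔ j ∈ FA ∨ (bE ∧ (j = sp 0 ∨ j = sp 1 ∨ j = sp (3 - par))))
    (lA : List (Fin k)) (hlA : lA.Nodup) (hlA' : ∀ j, j ∈ lA ↔ ∃ a ∈ A, sA a = j) :
    ∃ τ : ℕ → ℕ → Term k, (∀ i cl, i < N → cl < 6 → (τ i cl).tinfo h = I (i % 2) cl) ∧
      ∀ n, n ≤ N → IsMinor (dropL (lA ++ [sp 0, sp 1, sp (2 + n % 2)])
        (patT (fun i => sp (2 + i % 2)) (fun i => Sf (i % 2)) τ n)).intGraph G := by
  classical
  have hloc' : ∀ X Y, ∃ x y r C t, (X < 5 * N + 1 → Y < 5 → (3 * X + 1) * m ≤ x ∧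
      x < (3 * X + 1 + 1) * m ∧ (3 * Y + 1) * m ≤ y ∧ y < (3 * Y + 1 + 1) * m ∧
      LocD (CA.C x y) (csz (clOf X Y)) (prt (clOf X Y))
        (fun q => sp (spc (X / 5 % 2) (clOf X Y) q)) sA t r C ∧
      (clOf X Y = 0 → sA '' flA G A (rset (csz (clOf X Y)) r) = FA) ∧
      (1 ≤ clOf X Y → clOf X Y ≤ 3 → (flE G (rset (csz (clOf X Y)) r) ↔ bE)) ∧
      t.tinfo h = I (X / 5 % 2) (clOf X Y)) := by
    intro X Y
    by_cases hXY : X < 5 * N + 1 ∧ Y < 5
    · obtain ⟨x, y, r, C, t, hh⟩ := hloc X Y hXY.1 hXY.2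
      exact ⟨x, y, r, C, t, fun _ _ => hh⟩
    · obtain ⟨x, y, r, C, t, hh⟩ := hloc 0 0 (by omega) (by omega)
      exact ⟨x, y, r, C, t, fun h1 h2 => absurd ⟨h1, h2⟩ hXY⟩
  choose e f r C t hd using hloc'
  have he1 : ∀ X, (3 * X + 1) * m = 3 * m * X + m := fun X => by ring
  have he2 : ∀ X, (3 * X + 1 + 1) * m = 3 * m * X + 2 * m := fun X => by ring
  have hLoc : ∀ X Y, X < 5 * N + 1 → Y < 5 → LocD (CA.C (e X Y) (f X Y)) (csz (clOf X Y))
      (prt (clOf X Y)) (fun q => sp (spc (X / 5 % 2) (clOf X Y) q)) sA (t X Y) (r X Y) (C X Y) :=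
    fun X Y hX hY => (hd X Y hX hY).2.2.2.2.1
  have hCeq : ∀ X Y q, q < csz (clOf X Y) →
      {v | ∃ q', q' < csz (clOf X Y) ∧ ((prt (clOf X Y) q' : Fin 4) : ℕ) =
        ((prt (clOf X Y) q : Fin 4) : ℕ) ∧ v ∈ C X Y q'} = C X Y q := by
    intro X Y q hq
    ext v
    constructor
    · rintro ⟨q', hq', he, hv⟩
      rw [← prt_inj (clOf_lt X Y) hq' hq (Fin.ext he)]
      exact hv
    · intro hv
      exact ⟨q, hq, rfl, hv⟩
  let D : GeoData CA N :=
    { m := m
      hm := hm
      hx := by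
        calc 3 * m * (5 * N + 1) = (15 * N + 3) * m := by ring
          _ ≤ s * m := Nat.mul_le_mul_right _ (by omega)
      hy := by
        calc 3 * m * 5 = 15 * m := by ring
          _ ≤ s * m := Nat.mul_le_mul_right _ (by omega)
      e := e
      f := f
      he := fun X Y hX hY => by
        have := hd X Y hX hY
        have h1 := he1 X
        have h2 := he2 X
        omega
      hf := fun X Y hX hY => by
        have := hd X Y hX hY
        have h1 := he1 Y
        have h2 := he2 Y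
        omega
      C := fun X Y d => {v | ∃ q, q < csz (clOf X Y) ∧
        ((prt (clOf X Y) q : Fin 4) : ℕ) = d ∧ v ∈ C X Y q}
      Cconn := by
        intro o X Y d hX hY hd4 ho
        obtain ⟨q, hq, rfl⟩ := own_prt ho hd4
        rw [hCeq X Y q hq]
        have hL := hLoc X Y hX hY
        exact ⟨hL.conn q hq, hL.sub q hq, hL.port q hq⟩
      Cdisj := by
        intro o o' X Y d d' hX hY hd4 hd4' ho ho' hne
        obtain ⟨q, hq, rfl⟩ := own_prt ho hd4
        obtain ⟨q', hq', rfl⟩ := own_prt ho' hd4'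
        rw [hCeq X Y q hq, hCeq X Y q' hq']
        exact (hLoc X Y hX hY).disj q q' hq hq' (fun h => hne (by rw [h])) }
  have hDC : ∀ X Y q, q < csz (clOf X Y) → D.C X Y (prt (clOf X Y) q : Fin 4) = C X Y q :=
    fun X Y q hq => hCeq X Y q hq
  -- bundle sets
  let Bn : ℕ → ℕ → Set V := fun i cl =>
    (CA.C (e (posX cl i) (posY cl)) (f (posX cl i) (posY cl))).bun
      (rset (csz cl) (r (posX cl i) (posY cl)))
  have hLocD : ∀ i cl, i < N → cl < 6 → LocD (CA.C (e (posX cl i) (posY cl))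
      (f (posX cl i) (posY cl))) (csz cl) (prt cl) (fun q => sp (spc (i % 2) cl q)) sA
      (t (posX cl i) (posY cl)) (r (posX cl i) (posY cl)) (C (posX cl i) (posY cl)) := by
    intro i cl hi hcl
    have := hLoc _ _ (posX_lt (cl := cl) hi) (posY_lt (cl := cl))
    rw [clOf_pos hcl, posX_div] at this
    exact this
  have hBnH : ∀ i cl, Bn i cl ⊆ (CA.C (e (posX cl i) (posY cl)) (f (posX cl i) (posY cl))).H :=
    fun i cl => Cell.bun_sub_H _ _
  have hBnW : ∀ i cl, i < N → Bn i cl ⊆ D.whole (posX cl i) (posY cl) := by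
    intro i cl hi
    exact (hBnH i cl).trans (D.cell_sub (posX_lt hi) posY_lt)
  have hBnBS : ∀ o i cl, i < N → cl < 6 → Disjoint (D.BS o) (Bn i cl) := by
    intro o i cl hi hcl
    refine D.BS_disj_sub (posX_lt hi) posY_lt (hBnH i cl) ?_ (fun o => not_own_four hcl)
    intro o' d hd4 ho
    obtain ⟨q, hq, rfl⟩ := own_prt ho hd4
    rw [hDC _ _ q hq]
    rw [clOf_pos hcl] at hq
    exact (hLocD i cl hi hcl).bun q hq
  have hBnBn : ∀ i cl i' cl', i < N → cl < 6 → i' < N → cl' < 6 → (i ≠ i' ∨ cl ≠ cl') →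
      Disjoint (Bn i cl) (Bn i' cl') := by
    intro i cl i' cl' hi hcl hi' hcl' hne
    refine (D.whole_disj (posX_lt hi) posY_lt (posX_lt hi') posY_lt ?_).mono (hBnW i cl hi)
      (hBnW i' cl' hi')
    by_contra hcon
    push Not at hcon
    have := pos_inj hcl hcl' hcon.1 hcon.2
    omega
  have hcellA : ∀ i j a, a ∈ A → a ∉ (CA.C i j).H := fun i j a ha haH =>
    Set.disjoint_left.1 (CA.C i j).disjA haH ha
  have hBSA : ∀ o a, a ∈ A → a ∉ D.BS o := by
    intro o a ha haB
    obtain ⟨i, j, _, _, hij⟩ := D.BS_sub_cells haB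
    exact hcellA i j a ha hij
  have hBnA : ∀ i cl a, a ∈ A → a ∉ Bn i cl := fun i cl a ha haB =>
    hcellA _ _ a ha (hBnH i cl haB)
  -- roots belong to the branch sets of their owners
  have hroot : ∀ i cl q, i < N → cl < 6 → q < csz cl →
      r (posX cl i) (posY cl) q ∈ D.BS (ownr cl q i) := by
    intro i cl q hi hcl hq
    have h1 := (hLocD i cl hi hcl).mem q hq
    have h2 := D.C_sub_BS (posX_lt hi) posY_lt (prt cl q).2 (own_ownr (i := i) hcl hq)
    apply h2
    have h3 := hDC (posX cl i) (posY cl) q (by rw [clOf_pos hcl]; exact hq)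
    rw [clOf_pos hcl] at h3
    rw [h3]
    exact h1
  let τ : ℕ → ℕ → Term k := fun i cl => t (posX cl i) (posY cl)
  let β : ℕ → Fin k → Set V := fun i j => {v | (v ∈ A ∧ sA v = j) ∨ (j = sp 0 ∧ v ∈ D.BS 0) ∨
    (j = sp 1 ∧ v ∈ D.BS 1) ∨ (j = sp (2 + i % 2) ∧ v ∈ D.BS (i + 2)) ∨
    (j = sp (3 - i % 2) ∧ v ∈ D.BS (i + 3))}
  have hne : ∀ i j, i < 4 → j < 4 → i ≠ j → sp i ≠ sp j := fun i j hi hj h h' =>
    h (hsp i j hi hj h')
  have hβA : ∀ i a, a ∈ A → β i (sA a) = {a} := by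
    intro i a ha
    ext v
    simp only [β, mem_ofPred_eq, mem_singleton_iff]
    constructor
    · rintro (⟨hv, h1⟩ | ⟨h1, _⟩ | ⟨h1, _⟩ | ⟨h1, _⟩ | ⟨h1, _⟩)
      · exact hsA hv ha h1
      · exact absurd h1 (hspA 0 (by omega) a ha)
      · exact absurd h1 (hspA 1 (by omega) a ha)
      · exact absurd h1 (hspA _ (by omega) a ha)
      · exact absurd h1 (hspA _ (by omega) a ha)
    · rintro rfl
      exact Or.inl ⟨ha, rfl⟩
  have hβ0 : ∀ i, β i (sp 0) = D.BS 0 := by
    intro i
    ext v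
    simp only [β, mem_ofPred_eq]
    constructor
    · rintro (⟨hv, h1⟩ | ⟨_, h1⟩ | ⟨h1, _⟩ | ⟨h1, _⟩ | ⟨h1, _⟩)
      · exact absurd h1 (hspA 0 (by omega) v hv)
      · exact h1
      · exact absurd h1 (hne 0 1 (by omega) (by omega) (by omega))
      · exact absurd h1 (hne 0 _ (by omega) (by omega) (by omega))
      · exact absurd h1 (hne 0 _ (by omega) (by omega) (by omega))
    · intro h1
      exact Or.inr (Or.inl ⟨trivial, h1⟩)
  have hβ1 : ∀ i, β i (sp 1) = D.BS 1 := by
    intro i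
    ext v
    simp only [β, mem_ofPred_eq]
    constructor
    · rintro (⟨hv, h1⟩ | ⟨h1, _⟩ | ⟨_, h1⟩ | ⟨h1, _⟩ | ⟨h1, _⟩)
      · exact absurd h1 (hspA 1 (by omega) v hv)
      · exact absurd h1 (hne 1 0 (by omega) (by omega) (by omega))
      · exact h1
      · exact absurd h1 (hne 1 _ (by omega) (by omega) (by omega))
      · exact absurd h1 (hne 1 _ (by omega) (by omega) (by omega))
    · intro h1
      exact Or.inr (Or.inr (Or.inl ⟨trivial, h1⟩))
  have hβv : ∀ i, β i (sp (2 + i % 2)) = D.BS (i + 2) := by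
    intro i
    ext v
    simp only [β, mem_ofPred_eq]
    constructor
    · rintro (⟨hv, h1⟩ | ⟨h1, _⟩ | ⟨h1, _⟩ | ⟨_, h1⟩ | ⟨h1, _⟩)
      · exact absurd h1 (hspA _ (by omega) v hv)
      · exact absurd h1 (hne _ 0 (by omega) (by omega) (by omega))
      · exact absurd h1 (hne _ 1 (by omega) (by omega) (by omega))
      · exact h1
      · exact absurd h1 (hne _ _ (by omega) (by omega) (by omega))
    · intro h1
      exact Or.inr (Or.inr (Or.inr (Or.inl ⟨trivial, h1⟩)))
  have hβown : ∀ i cl q, cl < 6 → q < csz cl → D.BS (ownr cl q i) ⊆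
      β i (sp (spc (i % 2) cl q)) := by
    intro i cl q hcl hq v hv
    simp only [β, mem_ofPred_eq]
    unfold ownr at hv
    unfold spc
    by_cases h0 : q = 0
    · simp only [h0, if_true] at hv ⊢
      exact Or.inr (Or.inr (Or.inr (Or.inl ⟨trivial, hv⟩)))
    · by_cases h1 : q = 1
      · by_cases hc1 : cl = 1
        · simp only [h1, hc1, if_true, one_ne_zero, if_false] at hv ⊢
          exact Or.inr (Or.inl ⟨trivial, hv⟩)
        · by_cases hc2 : cl = 2
          · simp only [h1, hc2, if_true, one_ne_zero, if_false, OfNat.ofNat_ne_one] at hv ⊢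
            exact Or.inr (Or.inr (Or.inl ⟨trivial, hv⟩))
          · simp only [h1, hc1, hc2, if_true, one_ne_zero, if_false] at hv ⊢
            exact Or.inr (Or.inr (Or.inr (Or.inr ⟨trivial, hv⟩)))
      · by_cases hc4 : cl = 4
        · simp only [h0, h1, hc4, if_true, if_false] at hv ⊢
          exact Or.inr (Or.inl ⟨trivial, hv⟩)
        · simp only [h0, h1, hc4, if_false] at hv ⊢
          exact Or.inr (Or.inr (Or.inl ⟨trivial, hv⟩))
  let Xs : ℕ → Set V := fun n => {v | (∃ i, i < n ∧ v ∈ D.BS (i + 2)) ∨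
    (∃ i cl, i < n ∧ cl < 6 ∧ v ∈ Bn i cl)}
  have hτM : ∀ n cl, n < N → cl < 6 → ModX G (τ n cl) (β n) (Bn n cl) := by
    intro n cl hn hcl
    have hL := hLocD n cl hn hcl
    refine hL.rep.modX ?_
    rintro x (⟨q, hq, rfl⟩ | hx)
    · rw [sig_root hL.inj hq]
      exact hβown n cl q hcl hq (hroot n cl q hn hcl hq)
    · rw [sig_other]
      · exact Or.inl ⟨hx, rfl⟩
      · rintro ⟨q, hq, rfl⟩
        exact hBSA _ _ hx (hroot n cl q hn hcl hq)
  -- flags
  have hflE : ∀ n cl, n < N → 1 ≤ cl → cl ≤ 3 → bE →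
      Touch G (D.BS (ownr cl 0 n)) (D.BS (ownr cl 1 n)) := by
    intro n cl hn hcl1 hcl3 hb
    have hcl : cl < 6 := by omega
    have h1 := (hd (posX cl n) (posY cl) (posX_lt hn) posY_lt).2.2.2.2.2.2.1
    rw [clOf_pos hcl] at h1
    have hsz : csz cl = 2 := by
      unfold csz
      rw [if_neg (by omega), if_pos hcl3]
    obtain ⟨_, x, ⟨q, hq, rfl⟩, y, ⟨q', hq', rfl⟩, hxy⟩ := (h1 hcl1 hcl3).2 hb
    rw [hsz] at hq hq'
    have hr0 := hroot n cl 0 hn hcl (by rw [hsz]; omega)
    have hr1 := hroot n cl 1 hn hcl (by rw [hsz]; omega)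
    have hq2 : q = 0 ∨ q = 1 := by omega
    have hq2' : q' = 0 ∨ q' = 1 := by omega
    rcases hq2 with rfl | rfl <;> rcases hq2' with rfl | rfl
    · exact absurd rfl hxy.ne
    · exact ⟨_, hr0, _, hr1, hxy⟩
    · exact ⟨_, hr0, _, hr1, hxy.symm⟩
    · exact absurd rfl hxy.ne
  have hmain : ∀ n, n ≤ N → ModX G (patT (fun i => sp (2 + i % 2)) (fun i => Sf (i % 2)) τ n)
      (β n) (Xs n) := by
    intro n
    induction n with
    | zero => intro _; exact modX_nil G _ _
    | succ n ih =>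
      intro hn
      have ih' := ih (by omega)
      have hj := ModX.joinN (Y := fun cl => Bn n cl) ih' 6
        (fun cl hcl => hτM n cl (by omega) hcl) (by
          intro cl hcl
          rw [Set.disjoint_right]
          rintro v (⟨i, hi, hv⟩ | ⟨i, cl', hi, hcl', hv⟩) hv'
          · exact Set.disjoint_left.1 (hBnBS (i + 2) n cl (by omega) hcl) hv hv'
          · exact Set.disjoint_left.1 (hBnBn i cl' n cl (by omega) hcl' (by omega) hcl
              (Or.inl (by omega))) hv hv') (by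
          intro cl cl' hcl hcl' hne'
          exact hBnBn n cl n cl' (by omega) hcl (by omega) hcl' (Or.inr hne'))
      have hconn : Conn G (β n (sp (2 + n % 2))) := by
        rw [hβv]; exact D.BS_conn (by omega)
      have hdis : Disjoint (β n (sp (2 + n % 2))) (Xs n ∪ {v | ∃ j, j < 6 ∧ v ∈ Bn n j}) := by
        rw [hβv, Set.disjoint_right]
        rintro v ((⟨i, hi, hv⟩ | ⟨i, cl', hi, hcl', hv⟩) | ⟨cl', hcl', hv⟩) hv'
        · exact Set.disjoint_left.1 (D.BS_disj (show i + 2 ≠ n + 2 by omega)) hv hv'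
        · exact Set.disjoint_left.1 (hBnBS (n + 2) i cl' (by omega) hcl') hv' hv
        · exact Set.disjoint_left.1 (hBnBS (n + 2) n cl' (by omega) hcl') hv' hv
      have hdrop := hj.drop (i := sp (2 + n % 2)) (S := Sf (n % 2)) (β' := β (n + 1)) hconn hdis
        (by
          intro j hj v hv
          simp only [β, mem_ofPred_eq] at hv ⊢
          rcases hv with hv | hv | hv | ⟨h1, _⟩ | ⟨h1, h2⟩
          · exact Or.inl hv
          · exact Or.inr (Or.inl hv)
          · exact Or.inr (Or.inr (Or.inl hv))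
          · exact absurd h1 hj
          · refine Or.inr (Or.inr (Or.inr (Or.inl ⟨?_, h2⟩)))
            rw [h1]
            congr 1
            omega) (by
          intro j hjS hjne
          rw [hSf] at hjS
          rw [hβv]
          rcases hjS with hjF | ⟨hb, hj0 | hj1 | hj3⟩
          · have hcl0 : (0 : ℕ) < 6 := by omega
            have h1 := (hd (posX 0 n) (posY 0) (posX_lt (by omega)) posY_lt).2.2.2.2.2.1
            rw [clOf_pos hcl0] at h1
            rw [← h1 rfl] at hjF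
            obtain ⟨a, ⟨haA, _, x, ⟨q, hq, rfl⟩, hxa⟩, rfl⟩ := hjF
            have hq0 : q = 0 := by
              unfold csz at hq; simp at hq; exact hq
            subst hq0
            refine ⟨_, hroot n 0 0 (by omega) hcl0 (by unfold csz; simp), a, ?_, hxa⟩
            exact Or.inl ⟨haA, rfl⟩
          · rw [hj0, hβ0]
            exact hflE n 1 (by omega) le_rfl (by omega) hb
          · rw [hj1, hβ1]
            exact hflE n 2 (by omega) (by omega) (by omega) hb
          · have h3 := hflE n 3 (by omega) (by omega) (by omega) hb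
            refine h3.mono subset_rfl ?_
            intro v hv
            refine Or.inr (Or.inr (Or.inr (Or.inl ⟨?_, hv⟩)))
            rw [hj3]
            congr 1
            omega)
      refine hdrop.mono (fun _ => subset_rfl) ?_
      rw [hβv]
      rintro v (((⟨i, hi, hv⟩ | ⟨i, cl', hi, hcl', hv⟩) | ⟨cl', hcl', hv⟩) | hv)
      · exact Or.inl ⟨i, by omega, hv⟩
      · exact Or.inr ⟨i, cl', by omega, hcl', hv⟩
      · exact Or.inr ⟨n, cl', by omega, hcl', hv⟩
      · exact Or.inl ⟨n, by omega, hv⟩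
  refine ⟨τ, ?_, ?_⟩
  · intro i cl hi hcl
    have := (hd (posX cl i) (posY cl) (posX_lt hi) posY_lt).2.2.2.2.2.2.2
    rw [clOf_pos hcl, posX_div] at this
    exact this
  · intro n hn
    have hrep : ∀ i ∈ lA ++ [sp 0, sp 1, sp (2 + n % 2)],
        (∃ a ∈ A, sA a = i ∧ β n i = {a}) ∨ (∃ o, (o = 0 ∨ o = 1 ∨ o = n + 2) ∧
          β n i = D.BS o ∧ i = (if o = 0 then sp 0 else if o = 1 then sp 1 else
            sp (2 + n % 2))) := by
      intro i hi
      rw [List.mem_append] at hi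
      rcases hi with hi | hi
      · obtain ⟨a, ha, rfl⟩ := (hlA' i).1 hi
        exact Or.inl ⟨a, ha, rfl, hβA n a ha⟩
      · simp only [List.mem_cons, List.not_mem_nil, or_false] at hi
        rcases hi with rfl | rfl | rfl
        · exact Or.inr ⟨0, Or.inl rfl, hβ0 n, by simp⟩
        · exact Or.inr ⟨1, Or.inr (Or.inl rfl), hβ1 n, by simp⟩
        · exact Or.inr ⟨n + 2, Or.inr (Or.inr rfl), hβv n, by simp⟩
    have hnod : (lA ++ [sp 0, sp 1, sp (2 + n % 2)]).Nodup := by
      rw [List.nodup_append]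
      refine ⟨hlA, ?_, ?_⟩
      · simp only [List.nodup_cons, List.mem_cons, List.not_mem_nil, or_false, not_or,
          List.nodup_nil, and_true, not_false_eq_true]
        exact ⟨⟨hne 0 1 (by omega) (by omega) (by omega),
          hne 0 _ (by omega) (by omega) (by omega)⟩, hne 1 _ (by omega) (by omega) (by omega)⟩
      · intro i hi j hj
        obtain ⟨a, ha, rfl⟩ := (hlA' i).1 hi
        simp only [List.mem_cons, List.not_mem_nil, or_false] at hj
        rcases hj with rfl | rfl | rfl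
        · exact hspA 0 (by omega) a ha
        · exact hspA 1 (by omega) a ha
        · exact hspA _ (by omega) a ha
    have hfin := ModX.dropL (hmain n hn) _ hnod (by
      intro i hi
      rcases hrep i hi with ⟨a, ha, _, h1⟩ | ⟨o, ho, h1, _⟩
      · rw [h1]
        refine ⟨conn_singleton G a, ?_⟩
        rw [Set.disjoint_singleton_left]
        rintro (⟨i, hi, hv⟩ | ⟨i, cl', hi, hcl', hv⟩)
        · exact hBSA _ a ha hv
        · exact hBnA _ _ a ha hv
      · rw [h1]
        refine ⟨D.BS_conn (by omega), ?_⟩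
        rw [Set.disjoint_right]
        rintro v (⟨i, hi, hv⟩ | ⟨i, cl', hi, hcl', hv⟩) hv'
        · exact Set.disjoint_left.1 (D.BS_disj (show i + 2 ≠ o by omega)) hv hv'
        · exact Set.disjoint_left.1 (hBnBS o i cl' (by omega) hcl') hv' hv) (by
      intro i hi j hj hij
      rcases hrep i hi with ⟨a, ha, h2, h1⟩ | ⟨o, ho, h1, h2⟩ <;>
        rcases hrep j hj with ⟨a', ha', h2', h1'⟩ | ⟨o', ho', h1', h2'⟩
      · rw [h1, h1', Set.disjoint_singleton]
        rintro rfl
        exact hij (h2.symm.trans h2')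
      · rw [h1, h1', Set.disjoint_singleton_left]
        exact hBSA _ a ha
      · rw [h1, h1', Set.disjoint_singleton_right]
        exact hBSA _ a' ha'
      · rw [h1, h1']
        apply D.BS_disj
        rintro rfl
        exact hij (h2.trans h2'.symm))
    exact hfin.minor

end Pool.Agent.Lib.MP_4d119b_lc
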