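import Pool.Agent.Lib.MP_4d119b_lc.Iface

/-! Module StepB, part 1: positions, strands, chunks. -/

set_option autoImplicit false

namespace Pool.Agent.Lib.MP_4d119b_lc

open Set

namespace StepB

/-- grid graph on positions -/
def Gr : SimpleGraph (ℕ × ℕ) where
  Adj p q := (p.1 = q.1 ∧ (p.2 + 1 = q.2 ∨ q.2 + 1 = p.2)) ∨
    (p.2 = q.2 ∧ (p.1 + 1 = q.1 ∨ q.1 + 1 = p.1))
  symm := ⟨fun p q h => by
    rcases h with ⟨h1, h2⟩ | ⟨h1, h2⟩
    · exact Or.inl ⟨h1.symm, h2.symm⟩
    · exact Or.inr ⟨h1.symm, h2.symm⟩⟩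
  loopless := ⟨fun p h => by
    rcases h with ⟨_, h2⟩ | ⟨_, h2⟩ <;> omega⟩

/-- sets with interval fibres -/
def Fib (lo hi : ℕ) (f g : ℕ → ℕ) : Set (ℕ × ℕ) :=
  {p | lo ≤ p.1 ∧ p.1 ≤ hi ∧ f p.1 ≤ p.2 ∧ p.2 ≤ g p.1}

theorem fib_up {lo hi : ℕ} {f g : ℕ → ℕ} {x y : ℕ} (hx : lo ≤ x) (hx' : x ≤ hi)
    (hy : f x ≤ y) (d : ℕ) (hy' : y + d ≤ g x) :
    RIn Gr (Fib lo hi f g) (x, y) (x, y + d) := by
  induction d with
  | zero => exact RIn.refl _ _ _
  | succ d ih =>
    refine (ih (by omega)).tail (Or.inl ⟨rfl, Or.inl rfl⟩) ?_ ?_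
    · exact ⟨hx, hx', by simp only; omega, by simp only; omega⟩
    · exact ⟨hx, hx', by simp only; omega, by simp only; omega⟩

theorem fib_ver {lo hi : ℕ} {f g : ℕ → ℕ} {x y y' : ℕ} (hx : lo ≤ x) (hx' : x ≤ hi)
    (hy : f x ≤ y) (hy' : f x ≤ y') (hyg : y ≤ g x) (hyg' : y' ≤ g x) :
    RIn Gr (Fib lo hi f g) (x, y) (x, y') := by
  rcases le_total y y' with h | h
  · obtain ⟨d, rfl⟩ := Nat.exists_eq_add_of_le h
    exact fib_up hx hx' hy d hyg'
  · obtain ⟨d, rfl⟩ := Nat.exists_eq_add_of_le h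
    exact (fib_up hx hx' hy' d hyg).symm

theorem conn_fib {lo hi : ℕ} (hlh : lo ≤ hi) {f g : ℕ → ℕ} (hfg : ∀ x, f x ≤ g x)
    (h1 : ∀ x, f x ≤ g (x + 1)) (h2 : ∀ x, f (x + 1) ≤ g x) :
    Conn Gr (Fib lo hi f g) := by
  have key : ∀ d, lo + d ≤ hi → RIn Gr (Fib lo hi f g) (lo, f lo) (lo + d, f (lo + d)) := by
    intro d
    induction d with
    | zero => intro _; exact RIn.refl _ _ _
    | succ d ih =>
      intro hd
      have ih := ih (by omega)
      have ha := hfg (lo + d)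
      have hb := hfg (lo + (d + 1))
      have hc := h1 (lo + d)
      have hd' := h2 (lo + d)
      rw [add_assoc] at hc hd'
      have e1 : RIn Gr (Fib lo hi f g) (lo + d, f (lo + d))
          (lo + d, max (f (lo + d)) (f (lo + (d + 1)))) :=
        fib_ver (by omega) (by omega) le_rfl (by omega) (by omega) (by omega)
      have e2 : RIn Gr (Fib lo hi f g) (lo + (d + 1), max (f (lo + d)) (f (lo + (d + 1))))
          (lo + (d + 1), f (lo + (d + 1))) :=
        fib_ver (by omega) (by omega) (by omega) (by omega) (by omega) (by omega)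
      refine (ih.trans e1).trans (RIn.trans (RIn.single ?_ ?_ ?_) e2)
      · exact Or.inr ⟨rfl, Or.inl (by simp only; omega)⟩
      · exact ⟨by simp only; omega, by simp only; omega, by simp only; omega, by simp only; omega⟩
      · exact ⟨by simp only; omega, by simp only; omega, by simp only; omega, by simp only; omega⟩
  refine conn_of_reach (x := (lo, f lo)) ⟨le_rfl, hlh, le_rfl, hfg lo⟩ ?_
  rintro ⟨x, y⟩ ⟨ha, hb, hc, hd⟩
  simp only at ha hb hc hd
  obtain ⟨d, rfl⟩ := Nat.exists_eq_add_of_le ha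
  exact (key d hb).trans (fib_ver ha hb le_rfl hc (hfg _) hd)

/-! ### strands -/

section strands
variable {ι : Type} [Fintype ι]

def dm (t m : ℕ) (s δ : ι → ℕ) (j x : ℕ) : ℕ :=
  Finset.univ.sup fun i => if s i * m + t < x + m + j + 1 ∧ x + t < (s i + 2) * m + j then δ i
    else 0

def dp (t m : ℕ) (s δ : ι → ℕ) (j x : ℕ) : ℕ :=
  Finset.univ.sup fun i => if s i * m + t ≤ x + m + j + 1 ∧ x + t ≤ (s i + 2) * m + j then δ i
    else 0

theorem dm_le_dp (t m : ℕ) (s δ : ι → ℕ) (j x j' x' : ℕ)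
    (h : x + j ≤ x' + j' + 1) (h' : x' + j ≤ x + j' + 1) :
    dm t m s δ j x ≤ dp t m s δ j' x' := by
  apply Finset.sup_mono_fun
  intro i _
  split_ifs with h1 h2
  · exact le_rfl
  · exact absurd (by omega) h2
  · exact Nat.zero_le _
  · exact Nat.zero_le _

theorem dp_le_dm (t m : ℕ) (s δ : ι → ℕ) (j x : ℕ) :
    dp t m s δ j x ≤ dm t m s δ (j + 1) x := by
  apply Finset.sup_mono_fun
  intro i _
  split_ifs with h1 h2
  · exact le_rfl
  · exact absurd (by omega) h2
  · exact Nat.zero_le _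
  · exact Nat.zero_le _

theorem dm_mono (t m : ℕ) (s δ : ι → ℕ) (x : ℕ) : Monotone fun j => dm t m s δ j x := by
  apply monotone_nat_of_le_succ
  intro j
  exact (dm_le_dp t m s δ j x j x (by omega) (by omega)).trans (dp_le_dm t m s δ j x)

theorem dp_le_bound (t m : ℕ) (s δ : ι → ℕ) (j x B : ℕ) (h : ∀ i, δ i ≤ B) :
    dp t m s δ j x ≤ B := by
  apply Finset.sup_le
  intro i _
  split_ifs
  · exact h i
  · exact Nat.zero_le _

/-- strands through given marks -/
theorem exists_strands (t m lo hi w₀ top : ℕ) (s x y J : ι → ℕ) (hlh : lo ≤ hi)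
    (htop : w₀ + t ≤ top)
    (hm : t ≤ m) (hx : ∀ i, s i * m ≤ x i ∧ x i < (s i + 1) * m)
    (hlo : ∀ i, lo ≤ x i ∧ x i ≤ hi) (hy : ∀ i, w₀ + t ≤ y i ∧ y i + t ≤ top)
    (hJ : ∀ i, J i < t) (hfar : ∀ i i', i ≠ i' → s i + 2 ≤ s i' ∨ s i' + 2 ≤ s i) :
    ∃ S : Fin t → Set (ℕ × ℕ), (∀ j, Conn Gr (S j)) ∧ (∀ j j', j ≠ j' → Disjoint (S j) (S j')) ∧
      (∀ j, ∀ p ∈ S j, lo ≤ p.1 ∧ p.1 ≤ hi ∧ w₀ ≤ p.2 ∧ p.2 < top) ∧
      ∀ i, (x i, y i) ∈ S ⟨J i, hJ i⟩ := by
  set δ : ι → ℕ := fun i => y i - w₀ - J i with hδ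
  refine ⟨fun j => Fib lo hi (fun x => w₀ + j + dm t m s δ j x) (fun x => w₀ + j + dp t m s δ j x),
    ?_, ?_, ?_, ?_⟩
  · intro j
    apply conn_fib hlh
    · intro x
      have := dm_le_dp t m s δ j x j x (by omega) (by omega)
      omega
    · intro x
      have := dm_le_dp t m s δ j x j (x + 1) (by omega) (by omega)
      omega
    · intro x
      have := dm_le_dp t m s δ j (x + 1) j x (by omega) (by omega)
      omega
  · have key : ∀ j j' : Fin t, j < j' → Disjoint
        (Fib lo hi (fun x => w₀ + j + dm t m s δ j x) (fun x => w₀ + j + dp t m s δ j x))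
        (Fib lo hi (fun x => w₀ + j' + dm t m s δ j' x) (fun x => w₀ + j' + dp t m s δ j' x)) := by
      intro j j' hjj
      rw [Set.disjoint_left]
      rintro ⟨x, y⟩ ⟨_, _, _, h1⟩ ⟨_, _, h2, _⟩
      simp only at h1 h2
      have h3 := dp_le_dm t m s δ j x
      have h4 := dm_mono t m s δ x (show (j : ℕ) + 1 ≤ (j' : ℕ) from hjj)
      simp only at h4
      have : (j : ℕ) < (j' : ℕ) := hjj
      omega
    intro j j' hjj
    rcases lt_or_gt_of_ne hjj with h | h
    · exact key j j' h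
    · exact (key j' j h).symm
  · rintro j ⟨x, y⟩ ⟨h1, h2, h3, h4⟩
    simp only at h1 h2 h3 h4 ⊢
    have h5 := dp_le_bound t m s δ j x (top - w₀ - t) (fun i => by
      have := hy i
      simp only [hδ]; omega)
    have := j.2
    exact ⟨h1, h2, by omega, by omega⟩
  · intro i
    have hxi := hx i
    have hmul : (s i + 1) * m = s i * m + m := by ring
    have hmul2 : (s i + 2) * m = s i * m + m + m := by ring
    have hJi := hJ i
    -- the displacement at the mark
    have hval : dm t m s δ (J i) (x i) = δ i ∧ dp t m s δ (J i) (x i) = δ i := by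
      have h1 : δ i ≤ dm t m s δ (J i) (x i) := by
        have := Finset.le_sup (f := fun i' => if s i' * m + t < x i + m + J i + 1 ∧
          x i + t < (s i' + 2) * m + J i then δ i' else 0) (Finset.mem_univ i)
        rw [if_pos (by rw [hmul2]; omega)] at this
        exact this
      have h2 := dm_le_dp t m s δ (J i) (x i) (J i) (x i) (by omega) (by omega)
      have h3 : dp t m s δ (J i) (x i) ≤ δ i := by
        apply Finset.sup_le
        intro i' _
        by_cases hii : i' = i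
        · subst hii
          split_ifs
          · exact le_rfl
          · exact Nat.zero_le _
        · rw [if_neg]
          · exact Nat.zero_le _
          · rintro ⟨ha, hb⟩
            rcases hfar i' i hii with h | h
            · -- s i' + 2 ≤ s i
              have : (s i' + 2) * m ≤ s i * m := Nat.mul_le_mul_right m h
              omega
            · have : (s i + 2) * m ≤ s i' * m := Nat.mul_le_mul_right m h
              omega
      omega
    have hyi := hy i
    refine ⟨(hlo i).1, (hlo i).2, ?_, ?_⟩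
    · simp only
      rw [hval.1]
      simp only [hδ]; omega
    · simp only
      rw [hval.2]
      simp only [hδ]; omega

end strands

/-! ### chunks -/

theorem chunk_step {V : Type} [Finite V] {Γ : SimpleGraph V}
    (hdeg : ∀ v, (Γ.neighborSet v).ncard ≤ 4) {S Mk : Set V} {t : ℕ} (ht : 1 ≤ t)
    (hS : Conn Γ S) (hM : t ≤ (Mk ∩ S).ncard) :
    ∃ C ⊆ S, Conn Γ C ∧ t ≤ (Mk ∩ C).ncard ∧ (Mk ∩ C).ncard ≤ 4 * t ∧
      (S \ C = ∅ ∨ Conn Γ (S \ C)) := by
  classical
  suffices hmain : ∀ n : ℕ, ∀ C : Set V, C.ncard = n → C ⊆ S → Conn Γ C → t ≤ (Mk ∩ C).ncard →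
      (S \ C = ∅ ∨ Conn Γ (S \ C)) → ∃ C ⊆ S, Conn Γ C ∧ t ≤ (Mk ∩ C).ncard ∧
      (Mk ∩ C).ncard ≤ 4 * t ∧ (S \ C = ∅ ∨ Conn Γ (S \ C)) by
    exact hmain _ S rfl le_rfl hS hM (Or.inl (by simp))
  intro n
  induction n using Nat.strong_induction_on with
  | _ n ih =>
    intro C hn hCS hC htC hrest
    by_cases hle : (Mk ∩ C).ncard ≤ 4 * t
    · exact ⟨C, hCS, hC, htC, hle, hrest⟩
    push Not at hle
    -- the attachment vertex
    obtain ⟨c, hcC, hcb⟩ : ∃ c ∈ C, S \ C = ∅ ∨ ∃ b ∈ S \ C, Γ.Adj c b := by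
      rcases hrest with h | h
      · obtain ⟨c, hc⟩ := hC.1
        exact ⟨c, hc, Or.inl h⟩
      · obtain ⟨c₀, hc₀⟩ := hC.1
        obtain ⟨y, hy⟩ := h.1
        obtain ⟨a, b, _, ha, hb, hab, haS, hbS⟩ := hS.exit (hCS hc₀) hc₀ hy.1 hy.2
        exact ⟨a, ha, Or.inr ⟨b, ⟨hbS, hb⟩, hab⟩⟩
    -- every other vertex of `C` reaches a neighbour of `c`
    have hreach : ∀ y ∈ C, y ≠ c → ∃ z ∈ C \ {c}, Γ.Adj z c ∧ RIn Γ (C \ {c}) y z := by
      intro y hy hyc
      obtain ⟨a, b, h1, h2, h3, h4, h5, h6⟩ := hC.exit (T := {c}ᶜ) hy hyc hcC (by simp)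
      have hb : b = c := by simpa using h3
      subst hb
      exact ⟨a, ⟨h5, h2⟩, h4, h1⟩
    -- a component with many marks
    obtain ⟨z, hzC, hzc, hz⟩ : ∃ z ∈ C \ {c}, Γ.Adj z c ∧
        t ≤ (Mk ∩ comp Γ (C \ {c}) z).ncard := by
      by_contra hcon
      push Not at hcon
      have hsub : (Mk ∩ C).toFinite.toFinset ⊆ insert c
          ((Γ.neighborSet c).toFinite.toFinset.biUnion fun z =>
            if z ∈ C \ {c} then (Mk ∩ comp Γ (C \ {c}) z).toFinite.toFinset else ∅) := by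
        intro y hy
        rw [Set.Finite.mem_toFinset] at hy
        by_cases hyc : y = c
        · subst hyc; exact Finset.mem_insert_self _ _
        · obtain ⟨z, hz1, hz2, hz3⟩ := hreach y hy.2 hyc
          apply Finset.mem_insert_of_mem
          rw [Finset.mem_biUnion]
          refine ⟨z, ?_, ?_⟩
          · rw [Set.Finite.mem_toFinset]; exact hz2.symm
          · rw [if_pos hz1, Set.Finite.mem_toFinset]
            exact ⟨hy.1, hz3.symm⟩
      have h1 := Finset.card_le_card hsub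
      have h2 := Finset.card_insert_le c
          ((Γ.neighborSet c).toFinite.toFinset.biUnion fun z =>
            if z ∈ C \ {c} then (Mk ∩ comp Γ (C \ {c}) z).toFinite.toFinset else ∅)
      have h3 := Finset.card_biUnion_le_card_mul (Γ.neighborSet c).toFinite.toFinset (fun z =>
            if z ∈ C \ {c} then (Mk ∩ comp Γ (C \ {c}) z).toFinite.toFinset else ∅) (t - 1) (by
          intro z hz
          rw [Set.Finite.mem_toFinset] at hz
          split_ifs with hzC
          · have := hcon z hzC (show Γ.Adj c z from hz).symm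
            rw [← Set.ncard_eq_toFinset_card]
            omega
          · simp)
      rw [← Set.ncard_eq_toFinset_card] at h1 h3
      have h4 := hdeg c
      have h5 : (Γ.neighborSet c).ncard * (t - 1) ≤ 4 * (t - 1) := Nat.mul_le_mul_right _ h4
      omega
    set K := comp Γ (C \ {c}) z with hK
    have hKC : K ⊆ C \ {c} := comp_subset hzC
    have hrestC : Conn Γ (C \ K) := by
      refine conn_of_reach (x := c) ⟨hcC, fun h => (hKC h).2 rfl⟩ ?_
      intro y hy
      by_cases hyc : y = c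
      · subst hyc; exact RIn.refl _ _ _
      obtain ⟨z', hz1, hz2, hz3⟩ := hreach y hy.1 hyc
      have hd : Disjoint (comp Γ (C \ {c}) y) K := by
        rcases comp_eq_or_disjoint Γ (C \ {c}) y z with h | h
        · exact absurd (show y ∈ K by rw [hK, ← h]; exact mem_comp_self) hy.2
        · exact h
      have h1 : RIn Γ (comp Γ (C \ {c}) y) y z' :=
        (comp_conn (show y ∈ C \ {c} from ⟨hy.1, hyc⟩)).2 y mem_comp_self z' hz3
      have hsub : comp Γ (C \ {c}) y ⊆ C \ K := fun v hv =>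
        ⟨(comp_subset (show y ∈ C \ {c} from ⟨hy.1, hyc⟩) hv).1, Set.disjoint_left.1 hd hv⟩
      exact ((h1.mono hsub).tail hz2 (hsub hz3) ⟨hcC, fun h => (hKC h).2 rfl⟩).symm
    refine ih K.ncard ?_ K rfl (fun v hv => hCS (hKC hv).1) (comp_conn hzC) hz ?_
    · rw [← hn]
      apply Set.ncard_lt_ncard _ (Set.toFinite _)
      exact ⟨fun v hv => (hKC hv).1, fun h => (hKC (h hcC)).2 rfl⟩
    · right
      rcases hcb with h | ⟨b, hb, hcb⟩
      · have : S \ K = C \ K := by
          rw [Set.sdiff_eq_empty] at h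
          rw [subset_antisymm h hCS]
        rw [this]; exact hrestC
      · have hu : S \ K = (C \ K) ∪ (S \ C) := by
          ext v
          constructor
          · rintro ⟨h1, h2⟩
            by_cases h3 : v ∈ C
            · exact Or.inl ⟨h3, h2⟩
            · exact Or.inr ⟨h1, h3⟩
          · rintro (⟨h1, h2⟩ | ⟨h1, h2⟩)
            · exact ⟨hCS h1, h2⟩
            · exact ⟨h1, fun h => h2 (hKC h).1⟩
        rw [hu]
        rcases hrest with h | h
        · rw [h] at hb; exact absurd hb (by simp)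
        · exact hrestC.union_touch h ⟨c, ⟨hcC, fun h => (hKC h).2 rfl⟩, b, hb, hcb⟩

theorem chunks {V : Type} [Finite V] {Γ : SimpleGraph V}
    (hdeg : ∀ v, (Γ.neighborSet v).ncard ≤ 4) {Mk : Set V} {t : ℕ} (ht : 1 ≤ t) (r : ℕ) :
    ∀ S : Set V, Conn Γ S → r * (4 * t) ≤ (Mk ∩ S).ncard →
    ∃ C : Fin r → Set V, (∀ i, Conn Γ (C i) ∧ C i ⊆ S ∧ t ≤ (Mk ∩ C i).ncard) ∧
      ∀ i j, i ≠ j → Disjoint (C i) (C j) := by
  induction r with
  | zero => exact fun S _ _ => ⟨fun i => i.elim0, fun i => i.elim0, fun i => i.elim0⟩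
  | succ r ih =>
    intro S hS hM
    have h4 : (r + 1) * (4 * t) = r * (4 * t) + 4 * t := by ring
    obtain ⟨C₀, hC₀S, hC₀, h1, h2, h3⟩ := chunk_step (Mk := Mk) hdeg ht hS (by omega)
    have hsplit : (Mk ∩ S).ncard ≤ (Mk ∩ C₀).ncard + (Mk ∩ (S \ C₀)).ncard := by
      have : Mk ∩ S ⊆ (Mk ∩ C₀) ∪ (Mk ∩ (S \ C₀)) := by
        rintro v ⟨hv1, hv2⟩
        by_cases h : v ∈ C₀
        · exact Or.inl ⟨hv1, h⟩
        · exact Or.inr ⟨hv1, hv2, h⟩
      exact (Set.ncard_le_ncard this (Set.toFinite _)).trans (Set.ncard_union_le _ _)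
    obtain ⟨C', hC', hd'⟩ : ∃ C : Fin r → Set V, (∀ i, Conn Γ (C i) ∧ C i ⊆ S \ C₀ ∧
        t ≤ (Mk ∩ C i).ncard) ∧ ∀ i j, i ≠ j → Disjoint (C i) (C j) := by
      rcases Nat.eq_zero_or_pos r with hr | hr
      · subst hr
        exact ⟨fun i => i.elim0, fun i => i.elim0, fun i => i.elim0⟩
      · have hpos : 0 < r * (4 * t) := by positivity
        rcases h3 with h3 | h3
        · rw [h3] at hsplit
          simp only [Set.inter_empty, Set.ncard_empty] at hsplit
          omega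
        · exact ih _ h3 (by omega)
    refine ⟨Fin.cons C₀ C', ?_, ?_⟩
    · intro i
      refine Fin.cases ?_ (fun i => ?_) i
      · exact ⟨hC₀, hC₀S, h1⟩
      · exact ⟨(hC' i).1, fun v hv => ((hC' i).2.1 hv).1, (hC' i).2.2⟩
    · have key : ∀ j : Fin r, Disjoint C₀ (C' j) := fun j =>
        Set.disjoint_left.2 fun v hv hv' => ((hC' j).2.1 hv').2 hv
      intro i j hij
      induction i using Fin.cases with
      | zero =>
        induction j using Fin.cases with
        | zero => exact absurd rfl hij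
        | succ j => simpa using key j
      | succ i =>
        induction j using Fin.cases with
        | zero => simpa using (key i).symm
        | succ j => simpa using hd' i j (fun h => hij (by rw [h]))

/-! ### complete minors from links -/

theorem hasK_of_links {V : Type} {G : SimpleGraph V} {t : ℕ} (B : Fin t → Set V)
    (hB : ∀ i, Conn G (B i)) (hd : ∀ i j, i ≠ j → Disjoint (B i) (B j))
    (P : Fin t → Fin t → GP G)
    (hP : ∀ i j, i < j → (P i j).p 0 ∈ B i ∧ (P i j).p (P i j).len ∈ B j ∧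
      ∀ k, 0 < k → k < (P i j).len → ∀ l, (P i j).p k ∉ B l)
    (hPd : ∀ i j i' j', i < j → i' < j' → (i ≠ i' ∨ j ≠ j') → ∀ k, 0 < k → k < (P i j).len →
      ∀ l, 0 < l → l < (P i' j').len → (P i j).p k ≠ (P i' j').p l) : HasK G t := by
  have hlen : ∀ i j, i < j → 1 ≤ (P i j).len := by
    intro i j hij
    by_contra h
    have h0 : (P i j).len = 0 := by omega
    obtain ⟨h1, h2, _⟩ := hP i j hij
    rw [h0] at h2
    exact Set.disjoint_left.1 (hd i j hij.ne) h1 h2
  set Y : (i : Fin t) → {j : Fin t // i < j} → Set V := fun i j =>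
    {v | ∃ k, 0 ≤ k ∧ k ≤ (P i j).len - 1 ∧ (P i j).p k = v} with hY
  have hYmem : ∀ i j v, v ∈ Y i j → v ∈ B i ∨ ∃ k, 0 < k ∧ k < (P i j).len ∧ (P i j).p k = v := by
    rintro i j v ⟨k, _, hk, rfl⟩
    have := hlen i j j.2
    rcases Nat.eq_zero_or_pos k with h | h
    · subst h; exact Or.inl (hP i j j.2).1
    · exact Or.inr ⟨k, h, by omega, rfl⟩
  refine ⟨fun i => B i ∪ ⋃ j, Y i j, ?_, ?_, ?_⟩
  · intro i
    apply (hB i).union_iUnion
    · intro j
      exact (P i j).seg_conn (Nat.zero_le _) (by omega)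
    · intro j
      exact Or.inr ⟨(P i j).p 0, (hP i j j.2).1, 0, le_rfl, Nat.zero_le _, rfl⟩
  · intro i i' hii
    rw [Set.disjoint_left]
    have hcase : ∀ i, ∀ v ∈ B i ∪ ⋃ j, Y i j, v ∈ B i ∨ ∃ j, i < j ∧
        ∃ k, 0 < k ∧ k < (P i j).len ∧ (P i j).p k = v := by
      rintro i v (hv | hv)
      · exact Or.inl hv
      · obtain ⟨j, hj⟩ := Set.mem_iUnion.1 hv
        rcases hYmem i j v hj with h | h
        · exact Or.inl h
        · exact Or.inr ⟨j, j.2, h⟩
    intro v hv hv'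
    rcases hcase i v hv with h1 | ⟨j, hj, k, hk0, hk, rfl⟩
    · rcases hcase i' v hv' with h2 | ⟨j, hj, k, hk0, hk, rfl⟩
      · exact Set.disjoint_left.1 (hd i i' hii) h1 h2
      · exact (hP i' j hj).2.2 k hk0 hk i h1
    · rcases hcase i' _ hv' with h2 | ⟨j', hj', l, hl0, hl, hkl⟩
      · exact (hP i j hj).2.2 k hk0 hk i' h2
      · exact hPd i j i' j' hj hj' (Or.inl hii) k hk0 hk l hl0 hl hkl.symm
  · have key : ∀ i j, i < j → Touch G (B i ∪ ⋃ j, Y i j) (B j ∪ ⋃ l, Y j l) := by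
      intro i j hij
      have hl := hlen i j hij
      refine ⟨(P i j).p ((P i j).len - 1), Or.inr (Set.mem_iUnion.2 ⟨⟨j, hij⟩, _, Nat.zero_le _,
        le_rfl, rfl⟩), (P i j).p (P i j).len, Or.inl (hP i j hij).2.1, ?_⟩
      have := (P i j).adj ((P i j).len - 1) (by omega)
      rwa [show (P i j).len - 1 + 1 = (P i j).len by omega] at this
    intro i j hij
    rcases lt_or_gt_of_ne hij with h | h
    · exact key i j h
    · exact (key j i h).symm

end StepB

end Pool.Agent.Lib.MP_4d119b_lc
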