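import Pool.Agent.Lib.MP_4d119b_lc.StepB1

/-! Module StepB, part 2: the exchange argument. -/

set_option autoImplicit false

namespace Pool.Agent.Lib.MP_4d119b_lc

open Set

namespace StepB

/-- strips at distance at least three -/
def far (s s' : ℕ) : Prop := s + 3 ≤ s' ∨ s' + 3 ≤ s

theorem far_symm {s s' : ℕ} (h : far s s') : far s' s := Or.symm h

theorem far_ne {s s' : ℕ} (h : far s s') : s ≠ s' := by unfold far at h; omega

variable {V : Type} {G : SimpleGraph V}

/-- path from `A` to `B` with interior outside `W` -/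
def Link (W A B : Set V) (P : GP G) : Prop :=
  P.p 0 ∈ A ∧ P.p P.len ∈ B ∧ 1 ≤ P.len ∧ ∀ i, 0 < i → i < P.len → P.p i ∉ W

theorem link_of_RIn {W A B S : Set V} (hAB : Disjoint A B) (hSW : S ∩ W ⊆ A ∪ B) {x y : V}
    (h : RIn G S x y) (hxS : x ∈ S) (hx : x ∈ A) (hy : y ∈ B) :
    ∃ P : GP G, Link W A B P ∧ P.supp ⊆ S := by
  obtain ⟨P, h0, h1, hS, hA, hB⟩ := h.exists_ABpath hxS hx hy
  refine ⟨P, ⟨h0, h1, ?_, ?_⟩, hS⟩
  · by_contra hlen
    have : P.len = 0 := by omega
    rw [this] at h1
    exact Set.disjoint_left.1 hAB h0 h1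
  · intro i hi hi' hW
    rcases hSW ⟨hS (GP.mem_supp _ hi'.le), hW⟩ with h | h
    · exact hA i hi hi'.le h
    · exact hB i hi' h

/-- a family of disjoint links between classes that are pairwise far -/
structure Fam (G : SimpleGraph V) (W : Set V) (C : ℕ → Set V) (ι : Type) where
  P : ι → GP G
  a : ι → ℕ
  b : ι → ℕ
  link : ∀ i, Link W (C (a i)) (C (b i)) (P i)
  disj : ∀ i j, i ≠ j → Disjoint (P i).supp (P j).supp
  far_ab : ∀ i j, far (a i) (b j)
  far_aa : ∀ i j, i ≠ j → far (a i) (a j)
  far_bb : ∀ i j, i ≠ j → far (b i) (b j)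

def Fam.map {W : Set V} {C : ℕ → Set V} {ι ι' : Type} (F : Fam G W C ι) (f : ι' → ι)
    (hf : Function.Injective f) : Fam G W C ι' where
  P i := F.P (f i)
  a i := F.a (f i)
  b i := F.b (f i)
  link i := F.link (f i)
  disj _ _ h := F.disj _ _ (fun h' => h (hf h'))
  far_ab _ _ := F.far_ab _ _
  far_aa _ _ h := F.far_aa _ _ (fun h' => h (hf h'))
  far_bb _ _ h := F.far_bb _ _ (fun h' => h (hf h'))

/-- strips far from all strips used by the family -/
def Free {W : Set V} {C : ℕ → Set V} {ι : Type} (F : Fam G W C ι) (s : ℕ) : Prop :=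
  ∀ i, far s (F.a i) ∧ far s (F.b i)

theorem extend {W : Set V} {C : ℕ → Set V} {k : ℕ} (F : Fam G W C (Fin k)) {z z' : ℕ}
    (hzz : far z z') (hz : Free F z) (hz' : Free F z') {Q : GP G} (hQ : Link W (C z) (C z') Q)
    (hd : ∀ i, Disjoint Q.supp (F.P i).supp) : Nonempty (Fam G W C (Fin (k + 1))) := by
  have F' : Fam G W C (Option (Fin k)) :=
    { P := fun o => o.elim Q F.P
      a := fun o => o.elim z F.a
      b := fun o => o.elim z' F.b
      link := by
        rintro (_ | i)
        · exact hQ
        · exact F.link i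
      disj := by
        rintro (_ | i) (_ | j) h
        · exact absurd rfl h
        · exact hd j
        · exact (hd i).symm
        · exact F.disj i j (fun h' => h (by rw [h']))
      far_ab := by
        rintro (_ | i) (_ | j)
        · exact hzz
        · exact (hz j).2
        · exact far_symm (hz' i).1
        · exact F.far_ab i j
      far_aa := by
        rintro (_ | i) (_ | j) h
        · exact absurd rfl h
        · exact (hz j).1
        · exact far_symm (hz i).1
        · exact F.far_aa i j (fun h' => h (by rw [h']))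
      far_bb := by
        rintro (_ | i) (_ | j) h
        · exact absurd rfl h
        · exact (hz' j).2
        · exact far_symm (hz' i).2
        · exact F.far_bb i j (fun h' => h (by rw [h'])) }
  exact ⟨F'.map (finSuccEquiv k) (finSuccEquiv k).injective⟩

/-- replace the member `i` by two links -/
theorem replace {W : Set V} {C : ℕ → Set V} {k : ℕ} (F : Fam G W C (Fin k)) (i : Fin k)
    {z z' : ℕ} (hzz : far z z') (hz : Free F z) (hz' : Free F z') {Q Q' : GP G}
    (hQ : Link W (C (F.a i)) (C z) Q) (hQ' : Link W (C z') (C (F.b i)) Q')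
    (hQQ : Disjoint Q.supp Q'.supp)
    (hd : ∀ j, j ≠ i → Disjoint Q.supp (F.P j).supp)
    (hd' : ∀ j, j ≠ i → Disjoint Q'.supp (F.P j).supp) :
    Nonempty (Fam G W C (Fin (k + 1))) := by
  classical
  have F' : Fam G W C (Option (Fin k)) :=
    { P := fun o => o.elim Q' (fun j => if j = i then Q else F.P j)
      a := fun o => o.elim z' F.a
      b := fun o => o.elim (F.b i) (fun j => if j = i then z else F.b j)
      link := by
        rintro (_ | j)
        · exact hQ'
        · by_cases h : j = i
          · subst h; simpa using hQ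
          · simpa [h] using F.link j
      disj := by
        rintro (_ | j) (_ | j') h
        · exact absurd rfl h
        · by_cases h1 : j' = i
          · subst h1; simpa using hQQ.symm
          · simpa [h1] using hd' j' h1
        · by_cases h1 : j = i
          · subst h1; simpa using hQQ
          · simpa [h1] using (hd' j h1).symm
        · have hne : j ≠ j' := fun h' => h (by rw [h'])
          by_cases h1 : j = i
          · subst h1
            have h2 : j' ≠ j := hne.symm
            simpa [h2] using hd j' h2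
          · by_cases h2 : j' = i
            · subst h2
              simpa [h1] using (hd j h1).symm
            · simpa [h1, h2] using F.disj j j' hne
      far_ab := by
        rintro (_ | j) (_ | j')
        · exact (hz' i).2
        · by_cases h1 : j' = i
          · subst h1; simpa using far_symm hzz
          · simpa [h1] using (hz' j').2
        · exact F.far_ab j i
        · by_cases h1 : j' = i
          · subst h1; simpa using far_symm (hz j).1
          · simpa [h1] using F.far_ab j j'
      far_aa := by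
        rintro (_ | j) (_ | j') h
        · exact absurd rfl h
        · exact (hz' j').1
        · exact far_symm (hz' j).1
        · exact F.far_aa j j' (fun h' => h (by rw [h']))
      far_bb := by
        rintro (_ | j) (_ | j') h
        · exact absurd rfl h
        · by_cases h1 : j' = i
          · subst h1; simpa using far_symm (hz j').2
          · simpa [h1] using F.far_bb i j' (Ne.symm h1)
        · by_cases h1 : j = i
          · subst h1; simpa using (hz j).2
          · simpa [h1] using F.far_bb j i h1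
        · have hne : j ≠ j' := fun h' => h (by rw [h'])
          by_cases h1 : j = i
          · subst h1
            have h2 : j' ≠ j := hne.symm
            simpa [h2] using (hz j').2
          · by_cases h2 : j' = i
            · subst h2
              simpa [h1] using far_symm (hz j).2
            · simpa [h1, h2] using F.far_bb j j' hne }
  exact ⟨F'.map (finSuccEquiv k) (finSuccEquiv k).injective⟩

/-- a path from the class `z` to the vertex number `e` of `P i`, otherwise avoiding `W` and the
family -/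
def Half {W : Set V} {C : ℕ → Set V} {k : ℕ} (F : Fam G W C (Fin k)) (z : ℕ) (i : Fin k) (e : ℕ)
    (R : GP G) : Prop :=
  R.p 0 ∈ C z ∧ e ≤ (F.P i).len ∧ R.p R.len = (F.P i).p e ∧
    (∀ j, 0 < j → j < R.len → R.p j ∉ W) ∧ ∀ j, j < R.len → ∀ i', R.p j ∉ (F.P i').supp

theorem swap {W : Set V} {C : ℕ → Set V}
    (hCd : ∀ s s', s ≠ s' → Disjoint (C s) (C s')) {k : ℕ} (F : Fam G W C (Fin k)) (i : Fin k)
    {z z' e e' : ℕ} (hzz : far z z') (hz : Free F z) (hz' : Free F z') {R R' : GP G}
    (hR : Half F z i e R) (hR' : Half F z' i e' R') (hee : e < e') :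
    Nonempty (Fam G W C (Fin (k + 1))) := by
  obtain ⟨h0, he, hend, hint, havoid⟩ := hR
  obtain ⟨h0', he', hend', hint', havoid'⟩ := hR'
  obtain ⟨hP0, hP1, hPlen, hPint⟩ := F.link i
  by_cases hRR : Disjoint R.supp R'.supp
  · -- replace `P i`
    set S1 : Set V := R.supp ∪ {v | ∃ l, 0 ≤ l ∧ l ≤ e ∧ (F.P i).p l = v} with hS1
    set S2 : Set V := R'.supp ∪ {v | ∃ l, e' ≤ l ∧ l ≤ (F.P i).len ∧ (F.P i).p l = v} with hS2
    have hr1 : RIn G S1 ((F.P i).p 0) (R.p 0) := by
      have e1 := ((F.P i).reach (Nat.zero_le e) he).mono (T := S1) subset_union_right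
      rw [← hend] at e1
      have e2 := (R.supp_conn.2 _ (GP.mem_supp _ le_rfl) _ (GP.mem_supp _ (Nat.zero_le _))).mono
        (T := S1) subset_union_left
      exact e1.trans e2
    have hr2 : RIn G S2 (R'.p 0) ((F.P i).p (F.P i).len) := by
      have e1 := ((F.P i).reach he' le_rfl).mono (T := S2) subset_union_right
      rw [← hend'] at e1
      have e2 := (R'.supp_conn.2 _ (GP.mem_supp _ (Nat.zero_le _)) _ (GP.mem_supp _ le_rfl)).mono
        (T := S2) subset_union_left
      exact e2.trans e1
    have hS1W : S1 ∩ W ⊆ C (F.a i) ∪ C z := by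
      rintro v ⟨⟨j, hj, rfl⟩ | ⟨l, _, hl, rfl⟩, hvW⟩
      · rcases Nat.eq_zero_or_pos j with h | h
        · subst h; exact Or.inr h0
        · rcases lt_or_eq_of_le hj with h' | h'
          · exact absurd hvW (hint j h h')
          · subst h'
            rw [hend] at hvW ⊢
            rcases Nat.eq_zero_or_pos e with h2 | h2
            · subst h2; exact Or.inl hP0
            · exact absurd hvW (hPint e h2 (by omega))
      · rcases Nat.eq_zero_or_pos l with h | h
        · subst h; exact Or.inl hP0
        · exact absurd hvW (hPint l h (by omega))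
    have hS2W : S2 ∩ W ⊆ C z' ∪ C (F.b i) := by
      rintro v ⟨⟨j, hj, rfl⟩ | ⟨l, hl, hl', rfl⟩, hvW⟩
      · rcases Nat.eq_zero_or_pos j with h | h
        · subst h; exact Or.inl h0'
        · rcases lt_or_eq_of_le hj with h' | h'
          · exact absurd hvW (hint' j h h')
          · subst h'
            rw [hend'] at hvW ⊢
            rcases lt_or_eq_of_le he' with h2 | h2
            · exact absurd hvW (hPint e' (by omega) h2)
            · subst h2; exact Or.inr hP1
      · rcases lt_or_eq_of_le hl' with h2 | h2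
        · exact absurd hvW (hPint l (by omega) h2)
        · subst h2; exact Or.inr hP1
    obtain ⟨Q, hQ, hQS⟩ := link_of_RIn (hCd _ _ (far_ne (far_symm (hz i).1))) hS1W hr1
      (Or.inr ⟨0, le_rfl, Nat.zero_le _, rfl⟩) hP0 h0
    obtain ⟨Q', hQ', hQS'⟩ := link_of_RIn (hCd _ _ (far_ne (hz' i).2)) hS2W hr2
      (Or.inl (GP.mem_supp _ (Nat.zero_le _))) h0' hP1
    have hpre : {v | ∃ l, 0 ≤ l ∧ l ≤ e ∧ (F.P i).p l = v} ⊆ (F.P i).supp := by
      rintro v ⟨l, _, hl, rfl⟩; exact GP.mem_supp _ (by omega)
    have hsuf : {v | ∃ l, e' ≤ l ∧ l ≤ (F.P i).len ∧ (F.P i).p l = v} ⊆ (F.P i).supp := by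
      rintro v ⟨l, _, hl, rfl⟩; exact GP.mem_supp _ (by omega)
    have hRsub : ∀ i', i' ≠ i → Disjoint R.supp (F.P i').supp := by
      intro i' hi'
      rw [Set.disjoint_left]
      rintro v ⟨j, hj, rfl⟩ hv
      rcases lt_or_eq_of_le hj with h | h
      · exact havoid j h i' hv
      · subst h
        rw [hend] at hv
        exact Set.disjoint_left.1 (F.disj i' i hi') hv (GP.mem_supp _ he)
    have hRsub' : ∀ i', i' ≠ i → Disjoint R'.supp (F.P i').supp := by
      intro i' hi'
      rw [Set.disjoint_left]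
      rintro v ⟨j, hj, rfl⟩ hv
      rcases lt_or_eq_of_le hj with h | h
      · exact havoid' j h i' hv
      · subst h
        rw [hend'] at hv
        exact Set.disjoint_left.1 (F.disj i' i hi') hv (GP.mem_supp _ he')
    have hS12 : Disjoint S1 S2 := by
      rw [Set.disjoint_left]
      rintro v (hv | ⟨l, _, hl, rfl⟩) (hv' | ⟨l', hl', hl'', hll⟩)
      · exact Set.disjoint_left.1 hRR hv hv'
      · obtain ⟨j, hj, rfl⟩ := hv
        rcases lt_or_eq_of_le hj with h | h
        · exact havoid j h i ⟨l', hl'', hll⟩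
        · subst h
          rw [hend] at hll
          have := (F.P i).inj l' hl'' e he hll
          omega
      · obtain ⟨j, hj, hjv⟩ := hv'
        rcases lt_or_eq_of_le hj with h | h
        · exact havoid' j h i ⟨l, by omega, hjv.symm⟩
        · subst h
          rw [hend'] at hjv
          have := (F.P i).inj e' he' l (by omega) hjv
          omega
      · have := (F.P i).inj l' hl'' l (by omega) hll
        omega
    refine replace F i hzz hz hz' hQ hQ' (hS12.mono hQS hQS') ?_ ?_
    · intro j hj
      exact (Disjoint.union_left (hRsub j hj)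
        ((F.disj i j hj.symm).mono_left hpre)).mono_left hQS
    · intro j hj
      exact (Disjoint.union_left (hRsub' j hj)
        ((F.disj i j hj.symm).mono_left hsuf)).mono_left hQS'
  · -- the half links meet
    rw [Set.not_disjoint_iff] at hRR
    obtain ⟨v, ⟨j, hj, rfl⟩, ⟨j', hj', hjj⟩⟩ := hRR
    have hjlt : j < R.len := by
      rcases lt_or_eq_of_le hj with h | h
      · exact h
      · exfalso
        subst h
        rw [hend] at hjj
        rcases lt_or_eq_of_le hj' with h' | h'
        · exact havoid' j' h' i ⟨e, he, hjj.symm⟩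
        · subst h'
          rw [hend'] at hjj
          have := (F.P i).inj e' he' e he hjj
          omega
    have hjlt' : j' < R'.len := by
      rcases lt_or_eq_of_le hj' with h | h
      · exact h
      · exfalso
        subst h
        rw [hend'] at hjj
        exact havoid j hjlt i ⟨e', he', hjj⟩
    set S : Set V := {v | ∃ l, 0 ≤ l ∧ l ≤ j ∧ R.p l = v} ∪
      {v | ∃ l, 0 ≤ l ∧ l ≤ j' ∧ R'.p l = v} with hS
    have hr : RIn G S (R.p 0) (R'.p 0) := by
      have e1 := (R.reach (Nat.zero_le j) hj).mono (T := S) subset_union_left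
      have e2 := (R'.reach (Nat.zero_le j') hj').mono (T := S) subset_union_right
      rw [hjj] at e2
      exact e1.trans e2.symm
    have hSW : S ∩ W ⊆ C z ∪ C z' := by
      rintro v ⟨⟨l, _, hl, rfl⟩ | ⟨l, _, hl, rfl⟩, hvW⟩
      · rcases Nat.eq_zero_or_pos l with h | h
        · subst h; exact Or.inl h0
        · exact absurd hvW (hint l h (by omega))
      · rcases Nat.eq_zero_or_pos l with h | h
        · subst h; exact Or.inr h0'
        · exact absurd hvW (hint' l h (by omega))
    obtain ⟨Q, hQ, hQS⟩ := link_of_RIn (hCd _ _ (far_ne hzz)) hSW hr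
      (Or.inl ⟨0, le_rfl, Nat.zero_le _, rfl⟩) h0 h0'
    refine extend F hzz hz hz' hQ ?_
    intro i'
    refine Disjoint.mono_left hQS ?_
    rw [Set.disjoint_left]
    rintro v (⟨l, _, hl, rfl⟩ | ⟨l, _, hl, rfl⟩) hv
    · exact havoid l (by omega) i' hv
    · exact havoid' l (by omega) i' hv

/-- after deleting few vertices and strips, the members of a maximum family are not reached -/
theorem exch {W : Set V} {C : ℕ → Set V}
    (hCd : ∀ s s', s ≠ s' → Disjoint (C s) (C s')) {k : ℕ} (F : Fam G W C (Fin k))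
    (hmax : ¬ Nonempty (Fam G W C (Fin (k + 1)))) :
    ∃ (A₁ : Finset V) (Z : Finset ℕ), A₁.card ≤ k ∧ Z.card ≤ k ∧
      ∀ s, Free F s → (∀ z ∈ Z, far s z) → ∀ R : GP G, R.p 0 ∈ C s →
        (∀ j, 0 < j → j < R.len → R.p j ∉ W) → (∀ v ∈ R.supp, v ∉ A₁) →
        ∀ i, Disjoint R.supp (F.P i).supp := by
  classical
  have hone : ∀ i, ∃ (Ai : Finset V) (Zi : Finset ℕ), Ai.card ≤ 1 ∧ Zi.card ≤ 1 ∧
      ∀ s R e, Free F s → (∀ z ∈ Zi, far s z) → Half F s i e R → R.p R.len ∈ Ai := by
    intro i
    by_cases h : ∃ z R e, Free F z ∧ Half F z i e R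
    · obtain ⟨z, R, e, hz, hR⟩ := h
      refine ⟨{R.p R.len}, {z}, by simp, by simp, ?_⟩
      intro s R' e' hs hsz hR'
      rw [Finset.mem_singleton]
      have hsz := hsz z (Finset.mem_singleton_self z)
      rcases lt_trichotomy e e' with h | h | h
      · exact absurd (swap hCd F i (far_symm hsz) hz hs hR hR' h) hmax
      · rw [hR.2.2.1, hR'.2.2.1, h]
      · exact absurd (swap hCd F i hsz hs hz hR' hR h) hmax
    · exact ⟨∅, ∅, by simp, by simp, fun s R e hs _ hR => absurd ⟨s, R, e, hs, hR⟩ h⟩
  choose A Z hA hZ hAZ using hone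
  refine ⟨Finset.univ.biUnion A, Finset.univ.biUnion Z, ?_, ?_, ?_⟩
  · have := Finset.card_biUnion_le_card_mul Finset.univ A 1 (fun i _ => hA i)
    simpa using this
  · have := Finset.card_biUnion_le_card_mul Finset.univ Z 1 (fun i _ => hZ i)
    simpa using this
  · intro s hs hsZ R hR0 hRint hRA i
    by_contra hcon
    rw [Set.not_disjoint_iff] at hcon
    obtain ⟨v, ⟨j, hj, rfl⟩, hv⟩ := hcon
    have hex : ∃ j, j ≤ R.len ∧ ∃ i, R.p j ∈ (F.P i).supp := ⟨j, hj, i, hv⟩
    set j₀ := Nat.find hex with hj₀
    obtain ⟨hj₀len, i₀, e, he, hej⟩ := Nat.find_spec hex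
    rw [← hj₀] at hj₀len hej
    have hmin : ∀ l, l < j₀ → ∀ i', R.p l ∉ (F.P i').supp := fun l hl i' h =>
      Nat.find_min hex hl ⟨by omega, i', h⟩
    have hhalf : Half F s i₀ e (R.sub 0 j₀ (Nat.zero_le _) hj₀len) := by
      refine ⟨?_, he, ?_, ?_, ?_⟩
      · simpa [GP.sub] using hR0
      · simp only [GP.sub, Nat.sub_zero, Nat.zero_add]
        exact hej.symm
      · intro l hl hl'
        simp only [GP.sub, Nat.sub_zero, Nat.zero_add] at hl' ⊢
        exact hRint l hl (by omega)
      · intro l hl i'
        simp only [GP.sub, Nat.sub_zero, Nat.zero_add] at hl ⊢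
        exact hmin l hl i'
    have := hAZ i₀ s _ e hs (fun z hz => hsZ z (Finset.mem_biUnion.2 ⟨i₀, Finset.mem_univ _, hz⟩))
      hhalf
    simp only [GP.sub, Nat.sub_zero, Nat.zero_add] at this
    exact hRA (R.p j₀) (GP.mem_supp _ hj₀len) (Finset.mem_biUnion.2 ⟨i₀, Finset.mem_univ _, this⟩)

/-- a family of disjoint links from far classes to a hub -/
structure HFam (G : SimpleGraph V) (W : Set V) (D : ℕ → Set V) (H : Set V) (A₁ : Set V)
    (Sg : Set ℕ) (ι : Type) where
  R : ι → GP G
  s : ι → ℕ
  mem : ∀ i, s i ∈ Sg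
  link : ∀ i, Link W (D (s i)) H (R i)
  avoid : ∀ i, ∀ v ∈ (R i).supp, v ∉ A₁
  far : ∀ i j, i ≠ j → far (s i) (s j)
  disj : ∀ i j, i ≠ j → Disjoint (R i).supp (R j).supp

def HFam.map {W : Set V} {D : ℕ → Set V} {H A₁ : Set V} {Sg : Set ℕ} {ι ι' : Type}
    (F : HFam G W D H A₁ Sg ι) (f : ι' → ι)
    (hf : Function.Injective f) : HFam G W D H A₁ Sg ι' where
  R i := F.R (f i)
  s i := F.s (f i)
  mem i := F.mem (f i)
  link i := F.link (f i)
  avoid i := F.avoid (f i)
  far _ _ h := F.far _ _ (fun h' => h (hf h'))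
  disj _ _ h := F.disj _ _ (fun h' => h (hf h'))

theorem hextend {W : Set V} {D : ℕ → Set V} {H A₁ : Set V} {Sg : Set ℕ} {k : ℕ}
    (F : HFam G W D H A₁ Sg (Fin k)) {z : ℕ} (hz : z ∈ Sg) (hzf : ∀ i, StepB.far z (F.s i))
    {Q : GP G} (hQ : Link W (D z) H Q) (hQA : ∀ v ∈ Q.supp, v ∉ A₁)
    (hd : ∀ i, Disjoint Q.supp (F.R i).supp) : Nonempty (HFam G W D H A₁ Sg (Fin (k + 1))) := by
  have F' : HFam G W D H A₁ Sg (Option (Fin k)) :=
    { R := fun o => o.elim Q F.R
      s := fun o => o.elim z F.s
      mem := by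
        rintro (_ | i)
        · exact hz
        · exact F.mem i
      link := by
        rintro (_ | i)
        · exact hQ
        · exact F.link i
      avoid := by
        rintro (_ | i)
        · exact hQA
        · exact F.avoid i
      far := by
        rintro (_ | i) (_ | j) h
        · exact absurd rfl h
        · exact hzf j
        · exact far_symm (hzf i)
        · exact F.far i j (fun h' => h (by rw [h']))
      disj := by
        rintro (_ | i) (_ | j) h
        · exact absurd rfl h
        · exact hd j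
        · exact (hd i).symm
        · exact F.disj i j (fun h' => h (by rw [h'])) }
  exact ⟨F'.map (finSuccEquiv k) (finSuccEquiv k).injective⟩

/-- hub step: delete few vertices and strips to separate the strips from the hub -/
theorem hub {W : Set V} {C D : ℕ → Set V} {H A₁ : Set V} {Sg : Set ℕ}
    (hHW : H ⊆ W)
    (hCd : ∀ s s', s ≠ s' → Disjoint (C s) (C s')) (hDC : ∀ s, D s ⊆ C s)
    (hHC : ∀ s ∈ Sg, Disjoint H (C s))
    (hgood : ∀ s ∈ Sg, ∀ s' ∈ Sg, far s s' → ∀ R : GP G, Link W (C s) (C s') R →
      (∀ v ∈ R.supp, v ∉ A₁) → False)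
    {k : ℕ} (F : HFam G W D H A₁ Sg (Fin k))
    (hmax : ¬ Nonempty (HFam G W D H A₁ Sg (Fin (k + 1)))) :
    ∃ (A₂ : Finset V) (Z : Finset ℕ), A₂.card ≤ k ∧ Z.card ≤ k ∧
      ∀ s ∈ Sg, (∀ z ∈ Z, far s z) → ∀ R : GP G, Link W (D s) H R →
        (∀ v ∈ R.supp, v ∉ A₁ ∧ v ∉ A₂) → False := by
  classical
  refine ⟨Finset.univ.image fun i => (F.R i).p (F.R i).len, Finset.univ.image F.s, ?_, ?_, ?_⟩
  · exact Finset.card_image_le.trans (by simp)
  · exact Finset.card_image_le.trans (by simp)
  · intro s hs hsZ R hR hRA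
    refine hmax (hextend F hs (fun i => hsZ _ (Finset.mem_image_of_mem _ (Finset.mem_univ i))) hR
      (fun v hv => (hRA v hv).1) ?_)
    intro i
    have hsi : far s (F.s i) := hsZ _ (Finset.mem_image_of_mem _ (Finset.mem_univ i))
    obtain ⟨h0, h1, hlen, hint⟩ := hR
    obtain ⟨h0', h1', hlen', hint'⟩ := F.link i
    have hne : R.p R.len ≠ (F.R i).p (F.R i).len := by
      intro h
      apply (hRA _ (GP.mem_supp _ le_rfl)).2
      rw [h]
      exact Finset.mem_image_of_mem (fun i => (F.R i).p (F.R i).len) (Finset.mem_univ i)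
    have hHs := hHC s hs
    have hHs' := hHC _ (F.mem i)
    rw [Set.disjoint_left]
    rintro v ⟨j, hj, rfl⟩ ⟨j', hj', hjj⟩
    have hjlt : j < R.len := by
      rcases lt_or_eq_of_le hj with h | h
      · exact h
      · exfalso
        subst h
        rcases Nat.eq_zero_or_pos j' with h2 | h2
        · subst h2
          rw [hjj] at h0'
          exact Set.disjoint_left.1 hHs' h1 (hDC _ h0')
        · rcases lt_or_eq_of_le hj' with h' | h'
          · exact hint' j' h2 h' (hjj ▸ hHW h1)
          · subst h'; exact hne hjj.symm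
    have hjlt' : j' < (F.R i).len := by
      rcases lt_or_eq_of_le hj' with h | h
      · exact h
      · exfalso
        subst h
        rcases Nat.eq_zero_or_pos j with h2 | h2
        · subst h2
          rw [← hjj] at h0
          exact Set.disjoint_left.1 hHs h1' (hDC _ h0)
        · exact hint j h2 hjlt (hjj ▸ hHW h1')
    set S : Set V := {v | ∃ l, 0 ≤ l ∧ l ≤ j ∧ R.p l = v} ∪
      {v | ∃ l, 0 ≤ l ∧ l ≤ j' ∧ (F.R i).p l = v} with hS
    have hr : RIn G S (R.p 0) ((F.R i).p 0) := by
      have e1 := (R.reach (Nat.zero_le j) hj).mono (T := S) subset_union_left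
      have e2 := ((F.R i).reach (Nat.zero_le j') hj').mono (T := S) subset_union_right
      rw [hjj] at e2
      exact e1.trans e2.symm
    have hSW : S ∩ W ⊆ C s ∪ C (F.s i) := by
      rintro v ⟨⟨l, _, hl, rfl⟩ | ⟨l, _, hl, rfl⟩, hvW⟩
      · rcases Nat.eq_zero_or_pos l with h | h
        · subst h; exact Or.inl (hDC _ h0)
        · exact absurd hvW (hint l h (by omega))
      · rcases Nat.eq_zero_or_pos l with h | h
        · subst h; exact Or.inr (hDC _ h0')
        · exact absurd hvW (hint' l h (by omega))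
    obtain ⟨Q, hQ, hQS⟩ := link_of_RIn (hCd _ _ (far_ne hsi)) hSW hr
      (Or.inl ⟨0, le_rfl, Nat.zero_le _, rfl⟩) (hDC _ h0) (hDC _ h0')
    refine hgood s hs _ (F.mem i) hsi Q hQ ?_
    intro v hv
    rcases hQS hv with ⟨l, _, hl, rfl⟩ | ⟨l, _, hl, rfl⟩
    · exact (hRA _ (GP.mem_supp _ (by omega))).1
    · exact F.avoid i _ (GP.mem_supp _ (by omega))

end StepB

end Pool.Agent.Lib.MP_4d119b_lc
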