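import Pool.Agent.Lib.MP_4d119b_lc.StepB2

/-! Module StepB, part 3: complete minors from links over the grid. -/

set_option autoImplicit false

namespace Pool.Agent.Lib.MP_4d119b_lc

open Set

namespace StepB

variable {V : Type} {G : SimpleGraph V} {n₀ : ℕ}

/-- union of the cells at the positions in `S` -/
def cells (X : ℕ → ℕ → Set V) (S : Set (ℕ × ℕ)) : Set V := ⋃ p ∈ S, X p.1 p.2

theorem mem_cells {X : ℕ → ℕ → Set V} {S : Set (ℕ × ℕ)} {v : V} :
    v ∈ cells X S ↔ ∃ x y, (x, y) ∈ S ∧ v ∈ X x y := by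
  unfold cells
  rw [Set.mem_iUnion₂]
  constructor
  · rintro ⟨⟨x, y⟩, h1, h2⟩; exact ⟨x, y, h1, h2⟩
  · rintro ⟨x, y, h1, h2⟩; exact ⟨(x, y), h1, h2⟩

theorem cells_mono {X : ℕ → ℕ → Set V} {S T : Set (ℕ × ℕ)} (h : S ⊆ T) :
    cells X S ⊆ cells X T := by
  intro v hv
  obtain ⟨x, y, h1, h2⟩ := mem_cells.1 hv
  exact mem_cells.2 ⟨x, y, h h1, h2⟩

/-- all positions -/
def box (n₀ : ℕ) : Set (ℕ × ℕ) := {p | p.1 < n₀ ∧ p.2 < n₀}

theorem cells_conn (g : GridModel G n₀) {S : Set (ℕ × ℕ)} (hS : Conn Gr S) (hb : S ⊆ box n₀) :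
    Conn g.Γ (cells g.X S) := by
  refine hS.lift (fun p hp => g.conn p.1 p.2 (hb hp).1 (hb hp).2) ?_
  rintro ⟨x, y⟩ hp ⟨x', y'⟩ hq h
  left
  have hp' := hb hp
  have hq' := hb hq
  simp only [box, Set.mem_ofPred_eq] at hp' hq'
  rcases h with ⟨h1, h2 | h2⟩ | ⟨h1, h2 | h2⟩
  · simp only at h1 h2 ⊢
    subst h1; subst h2
    exact g.down x y hp'.1 hq'.2
  · simp only at h1 h2 ⊢
    subst h1; subst h2
    exact (g.down x y' hp'.1 hp'.2).symm
  · simp only at h1 h2 ⊢
    subst h1; subst h2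
    exact g.right x y hq'.1 hp'.2
  · simp only at h1 h2 ⊢
    subst h1; subst h2
    exact (g.right x' y hp'.1 hp'.2).symm

theorem cells_disj (g : GridModel G n₀) {S T : Set (ℕ × ℕ)} (hS : S ⊆ box n₀) (hT : T ⊆ box n₀)
    (h : Disjoint S T) : Disjoint (cells g.X S) (cells g.X T) := by
  rw [Set.disjoint_left]
  intro v hv hv'
  obtain ⟨x, y, h1, h2⟩ := mem_cells.1 hv
  obtain ⟨x', y', h1', h2'⟩ := mem_cells.1 hv'
  by_cases hxy : x ≠ x' ∨ y ≠ y'
  · exact Set.disjoint_left.1 (g.disj x y x' y' (hS h1).1 (hS h1).2 (hT h1').1 (hT h1').2 hxy)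
      h2 h2'
  · push Not at hxy
    obtain ⟨rfl, rfl⟩ := hxy
    exact Set.disjoint_left.1 h h1 h1'

/-- core positions of a strip -/
def Cp (t m n₀ s : ℕ) : Set (ℕ × ℕ) :=
  {p | (s * m ≤ p.1 ∧ p.1 < (s + 1) * m) ∧ p.1 < n₀ ∧ p.2 < n₀ ∧ t ≤ p.2 ∧ p.2 + t < n₀}

/-- deep positions of a strip -/
def Dp (t m n₀ s : ℕ) : Set (ℕ × ℕ) :=
  {p | (s * m ≤ p.1 ∧ p.1 < (s + 1) * m) ∧ p.1 < n₀ ∧ p.2 < n₀ ∧ 2 * t ≤ p.2 ∧
    p.2 + 2 * t < n₀}

theorem Cp_box (t m n₀ s : ℕ) : Cp t m n₀ s ⊆ box n₀ := fun _ hp => ⟨hp.2.1, hp.2.2.1⟩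

theorem Dp_Cp (t m n₀ s : ℕ) : Dp t m n₀ s ⊆ Cp t m n₀ s := by
  rintro p ⟨h1, h2, h3, h4, h5⟩
  exact ⟨h1, h2, h3, by omega, by omega⟩

theorem Cp_disj (t m n₀ : ℕ) {s s' : ℕ} (h : s ≠ s') : Disjoint (Cp t m n₀ s) (Cp t m n₀ s') := by
  rw [Set.disjoint_left]
  rintro p ⟨⟨h1, h2⟩, _⟩ ⟨⟨h3, h4⟩, _⟩
  rcases lt_or_gt_of_ne h with h | h
  · have : (s + 1) * m ≤ s' * m := Nat.mul_le_mul_right m h
    omega
  · have : (s' + 1) * m ≤ s * m := Nat.mul_le_mul_right m h
    omega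

/-- many disjoint links between far strips give a complete minor -/
theorem K1 [Finite V] (g : GridModel G n₀) {t m : ℕ} (ht : 1 ≤ t) (hm : t ≤ m)
    (F : Fam G (cells g.X (box n₀)) (fun s => cells g.X (Cp t m n₀ s)) (Fin t × Fin t)) :
    HasK G t := by
  have hstart : ∀ π, ∃ x y, (x, y) ∈ Cp t m n₀ (F.a π) ∧ (F.P π).p 0 ∈ g.X x y :=
    fun π => mem_cells.1 (F.link π).1
  have hend : ∀ π, ∃ x y, (x, y) ∈ Cp t m n₀ (F.b π) ∧ (F.P π).p (F.P π).len ∈ g.X x y :=
    fun π => mem_cells.1 (F.link π).2.1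
  choose xa ya hpa hva using hstart
  choose xb yb hpb hvb using hend
  have hn : t ≤ n₀ := by
    have := (hpa (⟨0, ht⟩, ⟨0, ht⟩)).2.2.2
    simp only at this
    omega
  obtain ⟨S, hS1, hS2, hS3, hS4⟩ := exists_strands (ι := (Fin t × Fin t) ⊕ (Fin t × Fin t))
    t m 0 (n₀ - 1) 0 n₀ (Sum.elim F.a F.b) (Sum.elim xa xb) (Sum.elim ya yb)
    (Sum.elim (fun π => (π.1 : ℕ)) (fun π => (π.2 : ℕ))) (by omega) (by omega) hm
    (by rintro (π | π)
        · exact (hpa π).1
        · exact (hpb π).1)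
    (by rintro (π | π)
        · have := (hpa π).2.1
          simp only [Sum.elim_inl] at this ⊢
          omega
        · have := (hpb π).2.1
          simp only [Sum.elim_inr] at this ⊢
          omega)
    (by rintro (π | π)
        · have := (hpa π).2.2.2
          simp only [Sum.elim_inl] at this ⊢
          omega
        · have := (hpb π).2.2.2
          simp only [Sum.elim_inr] at this ⊢
          omega)
    (by rintro (π | π)
        · exact π.1.2
        · exact π.2.2)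
    (by
      have e : ∀ {s s' : ℕ}, far s s' → s + 2 ≤ s' ∨ s' + 2 ≤ s := by
        intro s s' h; unfold far at h; omega
      rintro (π | π) (π' | π') h
      · exact e (F.far_aa π π' (fun h' => h (by rw [h'])))
      · exact e (F.far_ab π π')
      · exact e (far_symm (F.far_ab π' π))
      · exact e (F.far_bb π π' (fun h' => h (by rw [h']))))
  have hSb : ∀ j, S j ⊆ box n₀ := by
    intro j p hp
    have := hS3 j p hp
    exact ⟨by omega, by omega⟩
  refine hasK_of_links (fun j => cells g.X (S j)) (fun j => (cells_conn g (hS1 j) (hSb j)).monoG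
    g.le) (fun i j hij => cells_disj g (hSb i) (hSb j) (hS2 i j hij)) (fun i j => F.P (i, j)) ?_ ?_
  · intro i j _
    refine ⟨?_, ?_, ?_⟩
    · exact mem_cells.2 ⟨xa (i, j), ya (i, j), hS4 (Sum.inl (i, j)), hva (i, j)⟩
    · exact mem_cells.2 ⟨xb (i, j), yb (i, j), hS4 (Sum.inr (i, j)), hvb (i, j)⟩
    · intro k hk hk' l hl
      exact (F.link (i, j)).2.2.2 k hk hk' (cells_mono (hSb l) hl)
  · intro i j i' j' _ _ hne k _ hk l _ hl h
    have hne' : (i, j) ≠ (i', j') := by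
      intro h'
      rw [Prod.mk.injEq] at h'
      rcases hne with h1 | h1
      · exact h1 h'.1
      · exact h1 h'.2
    exact Set.disjoint_left.1 (F.disj _ _ hne') (GP.mem_supp _ hk.le) (h ▸ GP.mem_supp _ hl.le)

/-- many disjoint links between a hub and far strips give a complete minor -/
theorem K2 [Finite V] (g : GridModel G n₀) {t m : ℕ} (ht : 1 ≤ t) (hm : t ≤ m)
    {Hp : Set (ℕ × ℕ)} (hH : Conn Gr Hp) (hHb : Hp ⊆ box n₀) {Sg : Set ℕ} {A₁ : Set V}
    (lo hi w₀ top : ℕ)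
    (hSg : ∀ s ∈ Sg, ∀ x, s * m ≤ x → x < (s + 1) * m → x < n₀ → lo ≤ x ∧ x ≤ hi)
    (hrow : ∀ y, 2 * t ≤ y → y + 2 * t < n₀ → w₀ + t ≤ y ∧ y + t ≤ top)
    (hhi : hi < n₀) (htop : top ≤ n₀)
    (hdis : ∀ p ∈ Hp, ¬ (lo ≤ p.1 ∧ p.1 ≤ hi ∧ w₀ ≤ p.2 ∧ p.2 < top))
    (F : HFam G (cells g.X (box n₀)) (fun s => cells g.X (Dp t m n₀ s)) (cells g.X Hp) A₁ Sg
      (Fin (t * (4 * t)))) :
    HasK G t := by
  classical
  set w : Fin (t * (4 * t)) → V := fun i => (F.R i).p (F.R i).len with hw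
  have hwinj : Function.Injective w := by
    intro i j hij
    by_contra hne
    exact Set.disjoint_left.1 (F.disj i j hne) (GP.mem_supp _ le_rfl)
      (show w i ∈ (F.R j).supp from hij ▸ GP.mem_supp _ le_rfl)
  have hcard : t * (4 * t) ≤ (Set.range w ∩ cells g.X Hp).ncard := by
    have : Set.range w ∩ cells g.X Hp = Set.range w := by
      apply Set.inter_eq_left.2
      rintro v ⟨i, rfl⟩
      exact (F.link i).2.1
    rw [this, Set.ncard_range_of_injective hwinj]
    simp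
  obtain ⟨Ch, hCh, hChd⟩ := chunks (Mk := Set.range w) g.deg ht t _ (cells_conn g hH hHb) hcard
  have hidx : ∀ c : Fin t, ∃ e : Fin t → Fin (t * (4 * t)), Function.Injective e ∧
      ∀ j, w (e j) ∈ Ch c := by
    intro c
    have h1 : t ≤ (Finset.univ.filter fun i => w i ∈ Ch c).card := by
      have h2 := (hCh c).2.2
      have h3 : Set.range w ∩ Ch c ⊆ ↑((Finset.univ.filter fun i => w i ∈ Ch c).image w) := by
        rintro v ⟨⟨i, rfl⟩, hi⟩
        simp only [Finset.coe_image, Finset.coe_filter, Finset.mem_univ, true_and]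
        exact ⟨i, hi, rfl⟩
      have h4 := Set.ncard_le_ncard h3 (Set.toFinite _)
      rw [Set.ncard_coe_finset] at h4
      exact h2.trans (h4.trans Finset.card_image_le)
    refine ⟨Finset.orderEmbOfCardLe _ h1, (Finset.orderEmbOfCardLe _ h1).injective, ?_⟩
    intro j
    have := Finset.orderEmbOfCardLe_mem _ h1 j
    simpa using this
  choose idx hidxi hidxm using hidx
  set π : Fin t × Fin t → Fin (t * (4 * t)) := fun q => idx q.1 q.2 with hπ
  have hπi : Function.Injective π := by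
    rintro ⟨c, j⟩ ⟨c', j'⟩ h
    simp only [hπ] at h
    have hc : c = c' := by
      by_contra hne
      exact Set.disjoint_left.1 (hChd c c' hne) (hidxm c j) (h ▸ hidxm c' j')
    subst hc
    rw [hidxi c h]
  set F' := F.map π hπi with hF'
  have hend : ∀ q : Fin t × Fin t, (F'.R q).p (F'.R q).len ∈ Ch q.1 := fun q => hidxm q.1 q.2
  have hstart : ∀ q, ∃ x y, (x, y) ∈ Dp t m n₀ (F'.s q) ∧ (F'.R q).p 0 ∈ g.X x y :=
    fun q => mem_cells.1 (F'.link q).1
  choose x y hp hv using hstart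
  have hq0 : Fin t × Fin t := (⟨0, ht⟩, ⟨0, ht⟩)
  have hlo : ∀ q, lo ≤ x q ∧ x q ≤ hi := fun q =>
    hSg _ (F'.mem q) (x q) (hp q).1.1 (hp q).1.2 (hp q).2.1
  have hrw : ∀ q, w₀ + t ≤ y q ∧ y q + t ≤ top := fun q =>
    hrow (y q) (hp q).2.2.2.1 (hp q).2.2.2.2
  obtain ⟨S, hS1, hS2, hS3, hS4⟩ := exists_strands (ι := Fin t × Fin t)
    t m lo hi w₀ top F'.s x y (fun q => (q.2 : ℕ)) (by have := hlo hq0; omega)
    (by have := hrw hq0; omega) hm (fun q => (hp q).1) hlo hrw (fun q => q.2.2)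
    (by
      intro q q' h
      have := F'.far q q' h
      unfold far at this; omega)
  have hSb : ∀ j, S j ⊆ box n₀ := by
    intro j p hp
    have := hS3 j p hp
    exact ⟨by omega, by omega⟩
  have hSH : ∀ j, Disjoint (cells g.X Hp) (cells g.X (S j)) := by
    intro j
    apply cells_disj g hHb (hSb j)
    rw [Set.disjoint_left]
    intro p hp hp'
    exact hdis p hp (hS3 j p hp')
  have hHW : cells g.X Hp ⊆ cells g.X (box n₀) := cells_mono hHb
  have hSW : ∀ j, cells g.X (S j) ⊆ cells g.X (box n₀) := fun j => cells_mono (hSb j)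
  have h0 : ∀ q : Fin t × Fin t, (F'.R q).p 0 ∈ cells g.X (S q.2) := fun q =>
    mem_cells.2 ⟨x q, y q, hS4 q, hv q⟩
  have hSS : ∀ i j, i ≠ j → Disjoint (cells g.X (S i)) (cells g.X (S j)) := fun i j hij =>
    cells_disj g (hSb i) (hSb j) (hS2 i j hij)
  -- position of the vertices of the links
  have hpos : ∀ q : Fin t × Fin t, ∀ v ∈ (F'.R q).supp, v ∈ cells g.X (S q.2) ∨ v ∈ Ch q.1 ∨
      v ∉ cells g.X (box n₀) := by
    rintro q v ⟨k, hk, rfl⟩
    rcases Nat.eq_zero_or_pos k with h | h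
    · subst h; exact Or.inl (h0 q)
    · rcases lt_or_eq_of_le hk with h' | h'
      · exact Or.inr (Or.inr ((F'.link q).2.2.2 k h h'))
      · subst h'; exact Or.inr (Or.inl (hend q))
  refine hasK_of_links (fun c => (Ch c ∪ (F'.R (c, c)).supp) ∪ cells g.X (S c)) ?_ ?_
    (fun c j => (F'.R (c, j)).rev) ?_ ?_
  · intro c
    refine (((hCh c).1.monoG g.le).union (F'.R (c, c)).supp_conn ⟨_, hend (c, c),
      GP.mem_supp _ le_rfl⟩).union ((cells_conn g (hS1 c) (hSb c)).monoG g.le) ?_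
    exact ⟨_, Or.inr (GP.mem_supp _ (Nat.zero_le _)), h0 (c, c)⟩
  · have key : ∀ c c' : Fin t, c ≠ c' → ∀ v, v ∈ (Ch c ∪ (F'.R (c, c)).supp) ∪ cells g.X (S c) →
        v ∈ Ch c' ∪ cells g.X (S c') → False := by
      intro c c' hcc v hv hv'
      have hW : v ∈ cells g.X (box n₀) := by
        rcases hv' with h | h
        · exact hHW ((hCh c').2.1 h)
        · exact hSW c' h
      have hv2 : v ∈ Ch c ∪ cells g.X (S c) := by
        rcases hv with (h | h) | h
        · exact Or.inl h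
        · rcases hpos (c, c) v h with h | h | h
          · exact Or.inr h
          · exact Or.inl h
          · exact absurd hW h
        · exact Or.inr h
      rcases hv2 with h | h <;> rcases hv' with h' | h'
      · exact Set.disjoint_left.1 (hChd c c' hcc) h h'
      · exact Set.disjoint_left.1 (hSH c') ((hCh c).2.1 h) h'
      · exact Set.disjoint_left.1 (hSH c) ((hCh c').2.1 h') h
      · exact Set.disjoint_left.1 (hSS c c' hcc) h h'
    intro c c' hcc
    rw [Set.disjoint_left]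
    intro v hv hv'
    rcases hv' with (h | h) | h
    · exact key c c' hcc v hv (Or.inl h)
    · rcases hv with (h2 | h2) | h2
      · exact key c' c hcc.symm v (Or.inl (Or.inr h)) (Or.inl h2)
      · exact Set.disjoint_left.1 (F'.disj (c, c) (c', c') (by simpa using hcc)) h2 h
      · exact key c' c hcc.symm v (Or.inl (Or.inr h)) (Or.inr h2)
    · exact key c c' hcc v hv (Or.inr h)
  · intro c j hcj
    refine ⟨?_, ?_, ?_⟩
    · rw [GP.rev_p, Nat.sub_zero]
      exact Or.inl (Or.inl (hend (c, j)))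
    · rw [GP.rev_p]
      have : (F'.R (c, j)).rev.len = (F'.R (c, j)).len := rfl
      rw [this, Nat.sub_self]
      exact Or.inr (h0 (c, j))
    · intro k hk hk' l
      have hk'' : k < (F'.R (c, j)).len := hk'
      rw [GP.rev_p]
      have hnW := (F'.link (c, j)).2.2.2 ((F'.R (c, j)).len - k) (by omega) (by omega)
      rintro ((h | h) | h)
      · exact hnW (hHW ((hCh l).2.1 h))
      · refine Set.disjoint_left.1 (F'.disj (c, j) (l, l) ?_) (GP.mem_supp _ (Nat.sub_le _ _)) h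
        intro h'
        rw [Prod.mk.injEq] at h'
        exact hcj.ne (h'.1.trans h'.2.symm)
      · exact hnW (hSW l h)
  · intro i j i' j' _ _ hne k _ hk l _ hl h
    have hne' : (i, j) ≠ (i', j') := by
      intro h'
      rw [Prod.mk.injEq] at h'
      rcases hne with h1 | h1
      · exact h1 h'.1
      · exact h1 h'.2
    rw [GP.rev_p, GP.rev_p] at h
    have h1 : (F'.R (i, j)).p ((F'.R (i, j)).len - k) ∈ (F'.R (i', j')).supp := by
      rw [h]; exact GP.mem_supp _ (Nat.sub_le _ _)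
    exact Set.disjoint_left.1 (F'.disj _ _ hne') (GP.mem_supp _ (Nat.sub_le _ _)) h1

end StepB

end Pool.Agent.Lib.MP_4d119b_lc
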