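import Pool.Agent.Lib.MP_4d119b_lc.StepB3

/-! Module StepB, part 4: the system of vertical strips. -/

set_option autoImplicit false

namespace Pool.Agent.Lib.MP_4d119b_lc

open Set

namespace StepB

variable {V : Type} {G : SimpleGraph V} {n₀ : ℕ}

/-- rectangle of positions -/
def rect (lo hi a b : ℕ) : Set (ℕ × ℕ) := {p | lo ≤ p.1 ∧ p.1 ≤ hi ∧ a ≤ p.2 ∧ p.2 ≤ b}

theorem rect_conn {lo hi a b : ℕ} (h : lo ≤ hi) (h' : a ≤ b) : Conn Gr (rect lo hi a b) :=
  conn_fib (f := fun _ => a) (g := fun _ => b) h (fun _ => h') (fun _ => h') (fun _ => h')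

/-- separate the strips in `Sg` from a hub -/
theorem hubstep [Finite V] (g : GridModel G n₀) {t m : ℕ} (ht : 1 ≤ t) (hm : t ≤ m)
    (hK : ¬ HasK G t)
    {Hp : Set (ℕ × ℕ)} (hH : Conn Gr Hp) (hHb : Hp ⊆ box n₀) {Sg : Set ℕ} {A₁ : Set V}
    (lo hi w₀ top : ℕ)
    (hSg : ∀ s ∈ Sg, ∀ x, s * m ≤ x → x < (s + 1) * m → x < n₀ → lo ≤ x ∧ x ≤ hi)
    (hrow : ∀ y, 2 * t ≤ y → y + 2 * t < n₀ → w₀ + t ≤ y ∧ y + t ≤ top)
    (hhi : hi < n₀) (htop : top ≤ n₀)
    (hdis : ∀ p ∈ Hp, ¬ (lo ≤ p.1 ∧ p.1 ≤ hi ∧ w₀ ≤ p.2 ∧ p.2 < top))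
    (hHC : ∀ s ∈ Sg, Disjoint Hp (Cp t m n₀ s))
    (hgood : ∀ s ∈ Sg, ∀ s' ∈ Sg, far s s' → ∀ R : GP G,
      Link (cells g.X (box n₀)) (cells g.X (Cp t m n₀ s)) (cells g.X (Cp t m n₀ s')) R →
      (∀ v ∈ R.supp, v ∉ A₁) → False) :
    ∃ (A₂ : Finset V) (Z : Finset ℕ), A₂.card ≤ t * (4 * t) ∧ Z.card ≤ t * (4 * t) ∧
      ∀ s ∈ Sg, (∀ z ∈ Z, far s z) → ∀ R : GP G,
        Link (cells g.X (box n₀)) (cells g.X (Dp t m n₀ s)) (cells g.X Hp) R →
        (∀ v ∈ R.supp, v ∉ A₁ ∧ v ∉ A₂) → False := by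
  classical
  have hex : ∃ k, ¬ Nonempty (HFam G (cells g.X (box n₀)) (fun s => cells g.X (Dp t m n₀ s))
      (cells g.X Hp) A₁ Sg (Fin k)) := ⟨t * (4 * t), fun ⟨F⟩ =>
    hK (K2 g ht hm hH hHb lo hi w₀ top hSg hrow hhi htop hdis F)⟩
  set k := Nat.find hex with hk
  have hk1 := Nat.find_spec hex
  have hkle : k ≤ t * (4 * t) := Nat.find_min' hex fun ⟨F⟩ =>
    hK (K2 g ht hm hH hHb lo hi w₀ top hSg hrow hhi htop hdis F)
  have hkpos : k ≠ 0 := by
    intro h0
    rw [← hk, h0] at hk1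
    exact hk1 ⟨{
      R := fun i => i.elim0
      s := fun i => i.elim0
      mem := fun i => i.elim0
      link := fun i => i.elim0
      avoid := fun i => i.elim0
      far := fun i => i.elim0
      disj := fun i => i.elim0 }⟩
  obtain ⟨k', hk'⟩ : ∃ k', k = k' + 1 := ⟨k - 1, by omega⟩
  have hF : Nonempty (HFam G (cells g.X (box n₀)) (fun s => cells g.X (Dp t m n₀ s))
      (cells g.X Hp) A₁ Sg (Fin k')) := by
    by_contra h
    exact Nat.find_min hex (show k' < Nat.find hex by omega) h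
  obtain ⟨F⟩ := hF
  rw [← hk, hk'] at hk1
  obtain ⟨A₂, Z, h1, h2, h3⟩ := hub (C := fun s => cells g.X (Cp t m n₀ s)) (cells_mono hHb)
    (fun s s' hs => cells_disj g (Cp_box _ _ _ _) (Cp_box _ _ _ _) (Cp_disj t m n₀ hs))
    (fun s => cells_mono (Dp_Cp t m n₀ s))
    (fun s hs => cells_disj g hHb (Cp_box _ _ _ _) (hHC s hs)) hgood F hk1
  exact ⟨A₂, Z, by omega, by omega, h3⟩

/-- strips close to a member of `S` -/
def nb (S : Finset ℕ) : Finset ℕ := S.biUnion fun z => Finset.Icc (z - 2) (z + 2)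

theorem nb_card (S : Finset ℕ) : (nb S).card ≤ S.card * 5 := by
  apply Finset.card_biUnion_le_card_mul
  intro z _
  rw [Nat.card_Icc]
  omega

theorem far_of_not_nb {S : Finset ℕ} {s : ℕ} (h : s ∉ nb S) {z : ℕ} (hz : z ∈ S) : far s z := by
  unfold nb at h
  rw [Finset.mem_biUnion] at h
  push Not at h
  have := h z hz
  rw [Finset.mem_Icc] at this
  unfold far
  omega

/-- number of deleted vertices for one system -/
def aV (t : ℕ) : ℕ := t * t + (2 + 4 * (t * t)) * (t * (4 * t))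

/-- number of bad strips for one system -/
def cV (t : ℕ) : ℕ := (3 * (t * t) + (2 + 4 * (t * t)) * (t * (4 * t))) * 5

theorem vsys [Finite V] (g : GridModel G n₀) {t m : ℕ} (ht : 1 ≤ t) (hm : t ≤ m)
    (hn : t < n₀) (hK : ¬ HasK G t) :
    ∃ (A : Finset V) (Bad : Finset ℕ), A.card ≤ aV t ∧ Bad.card ≤ cV t ∧
      ∀ x y x' y', x < n₀ → y < n₀ → x' < n₀ → y' < n₀ → x / m ∉ Bad → 2 * t ≤ y →
        y + 2 * t < n₀ → ∀ R : GP G, Link (cells g.X (box n₀)) (g.X x y) (g.X x' y') R →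
        (∀ v ∈ R.supp, v ∉ A) → ¬ far (x / m) (x' / m) := by
  classical
  have hmpos : 0 < m := by omega
  set W := cells g.X (box n₀) with hW
  set C : ℕ → Set V := fun s => cells g.X (Cp t m n₀ s) with hC
  have hCd : ∀ s s', s ≠ s' → Disjoint (C s) (C s') := fun s s' hs =>
    cells_disj g (Cp_box _ _ _ _) (Cp_box _ _ _ _) (Cp_disj t m n₀ hs)
  -- the maximum family
  have hno : ¬ Nonempty (Fam G W C (Fin (t * t))) := fun ⟨F⟩ =>
    hK (K1 g ht hm (F.map finProdFinEquiv finProdFinEquiv.injective))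
  have hex : ∃ k, ¬ Nonempty (Fam G W C (Fin k)) := ⟨t * t, hno⟩
  have hk1 := Nat.find_spec hex
  have hkle : Nat.find hex ≤ t * t := Nat.find_min' hex hno
  have hkpos : Nat.find hex ≠ 0 := by
    intro h0
    rw [h0] at hk1
    exact hk1 ⟨{
      P := fun i => i.elim0
      a := fun i => i.elim0
      b := fun i => i.elim0
      link := fun i => i.elim0
      disj := fun i => i.elim0
      far_ab := fun i => i.elim0
      far_aa := fun i => i.elim0
      far_bb := fun i => i.elim0 }⟩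
  obtain ⟨k, hk⟩ : ∃ k, Nat.find hex = k + 1 := ⟨Nat.find hex - 1, by omega⟩
  have hF : Nonempty (Fam G W C (Fin k)) := by
    by_contra h
    exact Nat.find_min hex (show k < Nat.find hex by omega) h
  obtain ⟨F⟩ := hF
  rw [hk] at hk1 hkle
  obtain ⟨A₁, Z₁, hA₁, hZ₁, hex₁⟩ := exch hCd F hk1
  -- no links between good strips and free strips
  have hnolink : ∀ s s', Free F s → (∀ z ∈ Z₁, far s z) → Free F s' → far s s' → ∀ R : GP G,
      Link W (C s) (C s') R → (∀ v ∈ R.supp, v ∉ (↑A₁ : Set V)) → False := by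
    intro s s' hs hsZ hs' hss R hR hRA
    exact hk1 (extend F hss hs hs' hR (hex₁ s hs hsZ R hR.1 hR.2.2.2
      (fun v hv h => hRA v hv (Finset.mem_coe.2 h))))
  set good : Set ℕ := {s | Free F s ∧ ∀ z ∈ Z₁, far s z} with hgood
  have hgl : ∀ Sg : Set ℕ, Sg ⊆ good → ∀ s ∈ Sg, ∀ s' ∈ Sg, far s s' → ∀ R : GP G,
      Link W (C s) (C s') R → (∀ v ∈ R.supp, v ∉ (↑A₁ : Set V)) → False :=
    fun Sg hSg s hs s' hs' => hnolink s s' (hSg hs).1 (hSg hs).2 (hSg hs').1
  -- top and bottom hubs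
  obtain ⟨At, Zt, hAt, hZt, ht3⟩ := hubstep g ht hm hK (Hp := rect 0 (n₀ - 1) 0 (t - 1))
    (Sg := good) (A₁ := ↑A₁) (rect_conn (Nat.zero_le _) (Nat.zero_le _))
    (by rintro ⟨x, y⟩ ⟨h1, h2, h3, h4⟩
        simp only at h1 h2 h3 h4
        exact ⟨by simp only; omega, by simp only; omega⟩)
    0 (n₀ - 1) t n₀ (fun s _ x _ _ hx => ⟨by omega, by omega⟩) (fun y h1 h2 => ⟨by omega, by omega⟩)
    (by omega) le_rfl
    (by rintro ⟨x, y⟩ ⟨h1, h2, h3, h4⟩ ⟨h5, h6, h7, h8⟩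
        simp only at h1 h2 h3 h4 h5 h6 h7 h8
        omega)
    (by intro s _
        rw [Set.disjoint_left]
        rintro ⟨x, y⟩ ⟨_, _, _, h4⟩ ⟨_, _, _, h5, _⟩
        simp only at h4 h5
        omega)
    (hgl good le_rfl)
  obtain ⟨Ab, Zb, hAb, hZb, hb3⟩ := hubstep g ht hm hK (Hp := rect 0 (n₀ - 1) (n₀ - t) (n₀ - 1))
    (Sg := good) (A₁ := ↑A₁) (rect_conn (Nat.zero_le _) (by omega))
    (by rintro ⟨x, y⟩ ⟨h1, h2, h3, h4⟩
        simp only at h1 h2 h3 h4
        exact ⟨by simp only; omega, by simp only; omega⟩)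
    0 (n₀ - 1) 0 (n₀ - t) (fun s _ x _ _ hx => ⟨by omega, by omega⟩)
    (fun y h1 h2 => ⟨by omega, by omega⟩)
    (by omega) (Nat.sub_le _ _)
    (by rintro ⟨x, y⟩ ⟨h1, h2, h3, h4⟩ ⟨h5, h6, h7, h8⟩
        simp only at h1 h2 h3 h4 h5 h6 h7 h8
        omega)
    (by intro s _
        rw [Set.disjoint_left]
        rintro ⟨x, y⟩ ⟨_, _, h3, h4⟩ ⟨_, _, _, _, h5⟩
        simp only at h3 h4 h5
        omega)
    (hgl good le_rfl)
  -- zones of used strips
  set u : Fin k ⊕ Fin k → ℕ := Sum.elim F.a F.b with hu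
  have hun : ∀ i, u i * m < n₀ := by
    rintro (i | i)
    · obtain ⟨x, y, h1, _⟩ := mem_cells.1 (F.link i).1
      have h2 := h1.1
      have h3 := h1.2.1
      simp only [hu, Sum.elim_inl] at h2 h3 ⊢
      omega
    · obtain ⟨x, y, h1, _⟩ := mem_cells.1 (F.link i).2.1
      have h2 := h1.1
      have h3 := h1.2.1
      simp only [hu, Sum.elim_inr] at h2 h3 ⊢
      omega
  set Hz : Fin k ⊕ Fin k → Set (ℕ × ℕ) := fun i =>
    rect ((u i - 2) * m) (min ((u i + 3) * m - 1) (n₀ - 1)) 0 (n₀ - 1) with hHz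
  have hHzc : ∀ i, Conn Gr (Hz i) := by
    intro i
    refine rect_conn ?_ (Nat.zero_le _)
    have h1 := hun i
    have h2 : (u i - 2) * m ≤ u i * m := Nat.mul_le_mul_right m (Nat.sub_le _ _)
    have h3 : u i * m + m ≤ (u i + 3) * m := by
      calc u i * m + m = (u i + 1) * m := by ring
        _ ≤ (u i + 3) * m := Nat.mul_le_mul_right m (by omega)
    omega
  have hHzb : ∀ i, Hz i ⊆ box n₀ := by
    rintro i ⟨x, y⟩ ⟨h1, h2, h3, h4⟩
    simp only at h1 h2 h3 h4
    exact ⟨by simp only; omega, by simp only; omega⟩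
  have hHzC : ∀ i s, far s (u i) → Disjoint (Hz i) (Cp t m n₀ s) := by
    intro i s hs
    rw [Set.disjoint_left]
    rintro ⟨x, y⟩ ⟨h1, h2, _, _⟩ ⟨⟨h3, h4⟩, _⟩
    simp only at h1 h2 h3 h4
    rcases hs with hs | hs
    · have : (s + 1) * m ≤ (u i - 2) * m := Nat.mul_le_mul_right m (by omega)
      omega
    · have : (u i + 3) * m ≤ s * m := Nat.mul_le_mul_right m (by omega)
      have : 0 < (u i + 3) * m := by positivity
      omega
  have hright : ∀ i, ∃ (A₂ : Finset V) (Z : Finset ℕ), A₂.card ≤ t * (4 * t) ∧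
      Z.card ≤ t * (4 * t) ∧ ∀ s ∈ good ∩ {s | u i + 3 ≤ s}, (∀ z ∈ Z, far s z) → ∀ R : GP G,
        Link W (cells g.X (Dp t m n₀ s)) (cells g.X (Hz i)) R →
        (∀ v ∈ R.supp, v ∉ (↑A₁ : Set V) ∧ v ∉ A₂) → False := by
    intro i
    refine hubstep g ht hm hK (hHzc i) (hHzb i) ((u i + 3) * m) (n₀ - 1) 0 n₀ ?_
      (fun y h1 h2 => ⟨by omega, by omega⟩) (by omega) le_rfl ?_ ?_ (hgl _ inter_subset_left)
    · rintro s ⟨_, hs⟩ x hx1 hx2 hx3
      have : (u i + 3) * m ≤ s * m := Nat.mul_le_mul_right m hs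
      exact ⟨by omega, by omega⟩
    · rintro ⟨x, y⟩ ⟨h1, h2, _, _⟩ ⟨h5, h6, _, _⟩
      simp only at h1 h2 h5 h6
      have : 0 < (u i + 3) * m := by positivity
      omega
    · rintro s ⟨_, hs⟩
      exact hHzC i s (Or.inr hs)
  have hleft : ∀ i, ∃ (A₂ : Finset V) (Z : Finset ℕ), A₂.card ≤ t * (4 * t) ∧
      Z.card ≤ t * (4 * t) ∧ ∀ s ∈ good ∩ {s | s + 3 ≤ u i}, (∀ z ∈ Z, far s z) → ∀ R : GP G,
        Link W (cells g.X (Dp t m n₀ s)) (cells g.X (Hz i)) R →
        (∀ v ∈ R.supp, v ∉ (↑A₁ : Set V) ∧ v ∉ A₂) → False := by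
    intro i
    by_cases hi3 : 3 ≤ u i
    · have hpos : 0 < (u i - 2) * m := by
        have : 0 < u i - 2 := by omega
        positivity
      have hle : (u i - 2) * m ≤ u i * m := Nat.mul_le_mul_right m (Nat.sub_le _ _)
      have hui := hun i
      refine hubstep g ht hm hK (hHzc i) (hHzb i) 0 ((u i - 2) * m - 1) 0 n₀ ?_
        (fun y h1 h2 => ⟨by omega, by omega⟩) (by omega) le_rfl ?_ ?_ (hgl _ inter_subset_left)
      · rintro s ⟨_, hs⟩ x hx1 hx2 hx3
        have hs' : s + 3 ≤ u i := hs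
        have : (s + 1) * m ≤ (u i - 2) * m := Nat.mul_le_mul_right m (by omega)
        exact ⟨by omega, by omega⟩
      · rintro ⟨x, y⟩ ⟨h1, h2, _, _⟩ ⟨h5, h6, _, _⟩
        simp only at h1 h2 h5 h6
        omega
      · rintro s ⟨_, hs⟩
        exact hHzC i s (Or.inl hs)
    · refine ⟨∅, ∅, by simp, by simp, ?_⟩
      rintro s ⟨_, hs⟩
      have hs' : s + 3 ≤ u i := hs
      omega
  choose AR ZR hAR hZR hR3 using hright
  choose AL ZL hAL hZL hL3 using hleft
  -- all deleted vertices and bad strips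
  refine ⟨A₁ ∪ (At ∪ (Ab ∪ (Finset.univ.biUnion AR ∪ Finset.univ.biUnion AL))),
    nb (Z₁ ∪ (Zt ∪ (Zb ∪ ((Finset.univ.biUnion ZR ∪ Finset.univ.biUnion ZL) ∪
      Finset.univ.image u)))), ?_, ?_, ?_⟩
  · have e1 := Finset.card_biUnion_le_card_mul Finset.univ AR _ (fun i _ => hAR i)
    have e2 := Finset.card_biUnion_le_card_mul Finset.univ AL _ (fun i _ => hAL i)
    have e3 : (Finset.univ : Finset (Fin k ⊕ Fin k)).card = 2 * k := by
      simp [two_mul]
    rw [e3] at e1 e2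
    have c1 := Finset.card_union_le (Finset.univ.biUnion AR) (Finset.univ.biUnion AL)
    have c2 := Finset.card_union_le Ab (Finset.univ.biUnion AR ∪ Finset.univ.biUnion AL)
    have c3 := Finset.card_union_le At (Ab ∪ (Finset.univ.biUnion AR ∪ Finset.univ.biUnion AL))
    have c4 := Finset.card_union_le A₁
      (At ∪ (Ab ∪ (Finset.univ.biUnion AR ∪ Finset.univ.biUnion AL)))
    have e4 : 2 * k * (t * (4 * t)) ≤ 2 * (t * t) * (t * (4 * t)) :=
      Nat.mul_le_mul_right _ (by omega)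
    have e5 : (2 + 4 * (t * t)) * (t * (4 * t)) = 2 * (t * (4 * t)) +
      2 * (2 * (t * t) * (t * (4 * t))) := by ring
    unfold aV
    rw [e5]
    omega
  · refine (nb_card _).trans ?_
    unfold cV
    apply Nat.mul_le_mul_right
    have e1 := Finset.card_biUnion_le_card_mul Finset.univ ZR _ (fun i _ => hZR i)
    have e2 := Finset.card_biUnion_le_card_mul Finset.univ ZL _ (fun i _ => hZL i)
    have e3 : (Finset.univ : Finset (Fin k ⊕ Fin k)).card = 2 * k := by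
      simp [two_mul]
    have e6 : (Finset.univ.image u).card ≤ 2 * k := Finset.card_image_le.trans e3.le
    rw [e3] at e1 e2
    have c0 := Finset.card_union_le (Finset.univ.biUnion ZR) (Finset.univ.biUnion ZL)
    have c1 := Finset.card_union_le (Finset.univ.biUnion ZR ∪ Finset.univ.biUnion ZL)
      (Finset.univ.image u)
    have c2 := Finset.card_union_le Zb ((Finset.univ.biUnion ZR ∪ Finset.univ.biUnion ZL) ∪
      Finset.univ.image u)
    have c3 := Finset.card_union_le Zt (Zb ∪ ((Finset.univ.biUnion ZR ∪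
      Finset.univ.biUnion ZL) ∪ Finset.univ.image u))
    have c4 := Finset.card_union_le Z₁ (Zt ∪ (Zb ∪ ((Finset.univ.biUnion ZR ∪
      Finset.univ.biUnion ZL) ∪ Finset.univ.image u)))
    have e4 : 2 * k * (t * (4 * t)) ≤ 2 * (t * t) * (t * (4 * t)) :=
      Nat.mul_le_mul_right _ (by omega)
    have e5 : (2 + 4 * (t * t)) * (t * (4 * t)) = 2 * (t * (4 * t)) +
      2 * (2 * (t * t) * (t * (4 * t))) := by ring
    rw [e5]
    omega
  · intro x y x' y' hx hy hx' hy' hbad hy1 hy2 R hR hRA hfar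
    set s := x / m with hs
    set s' := x' / m with hs'
    have hfz : ∀ z, z ∈ (Z₁ ∪ (Zt ∪ (Zb ∪ ((Finset.univ.biUnion ZR ∪ Finset.univ.biUnion ZL) ∪
      Finset.univ.image u)))) → far s z := fun z hz => far_of_not_nb hbad hz
    simp only [Finset.mem_union, Finset.mem_biUnion, Finset.mem_univ, true_and,
      Finset.mem_image] at hfz
    have hfree : Free F s := fun i =>
      ⟨hfz _ (Or.inr (Or.inr (Or.inr (Or.inr ⟨Sum.inl i, rfl⟩)))),
        hfz _ (Or.inr (Or.inr (Or.inr (Or.inr ⟨Sum.inr i, rfl⟩))))⟩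
    have hgs : s ∈ good := ⟨hfree, fun z hz => hfz z (Or.inl hz)⟩
    simp only [Finset.mem_union, Finset.mem_biUnion, Finset.mem_univ, true_and] at hRA
    obtain ⟨h0, h1, hlen, hint⟩ := hR
    have hxs : s * m ≤ x ∧ x < (s + 1) * m := by
      have e1 := Nat.div_mul_le_self x m
      have e2 := Nat.lt_div_mul_add (a := x) hmpos
      rw [← hs] at e1 e2
      have : (s + 1) * m = s * m + m := by ring
      omega
    have hxs' : s' * m ≤ x' ∧ x' < (s' + 1) * m := by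
      have e1 := Nat.div_mul_le_self x' m
      have e2 := Nat.lt_div_mul_add (a := x') hmpos
      rw [← hs'] at e1 e2
      have : (s' + 1) * m = s' * m + m := by ring
      omega
    clear_value s s'
    have hD : R.p 0 ∈ cells g.X (Dp t m n₀ s) := mem_cells.2 ⟨x, y, ⟨hxs, hx, hy, hy1, hy2⟩, h0⟩
    have hCs : R.p 0 ∈ C s := cells_mono (Dp_Cp t m n₀ s) hD
    by_cases htopc : y' < t
    · refine ht3 s hgs (fun z hz => hfz z (Or.inr (Or.inl hz))) R ⟨hD, mem_cells.2 ⟨x', y', ?_, h1⟩,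
        hlen, hint⟩ ?_
      · exact ⟨by simp only; omega, by simp only; omega, by simp only; omega,
          by simp only; omega⟩
      · intro v hv
        exact ⟨fun h => hRA v hv (Or.inl (Finset.mem_coe.1 h)),
          fun h => hRA v hv (Or.inr (Or.inl h))⟩
    by_cases hbotc : n₀ ≤ y' + t
    · refine hb3 s hgs (fun z hz => hfz z (Or.inr (Or.inr (Or.inl hz)))) R
        ⟨hD, mem_cells.2 ⟨x', y', ?_, h1⟩, hlen, hint⟩ ?_
      · exact ⟨by simp only; omega, by simp only; omega, by simp only; omega,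
          by simp only; omega⟩
      · intro v hv
        exact ⟨fun h => hRA v hv (Or.inl (Finset.mem_coe.1 h)),
          fun h => hRA v hv (Or.inr (Or.inr (Or.inl h)))⟩
    have hCs' : R.p R.len ∈ C s' := mem_cells.2 ⟨x', y', ⟨hxs', hx', hy', by simp only; omega,
      by simp only; omega⟩, h1⟩
    by_cases hfree' : Free F s'
    · exact hnolink s s' hgs.1 hgs.2 hfree' hfar R ⟨hCs, hCs', hlen, hint⟩
        (fun v hv h => hRA v hv (Or.inl (Finset.mem_coe.1 h)))
    · -- the link ends in the zone of a used strip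
      obtain ⟨i, hi⟩ : ∃ i, ¬ far s' (u i) := by
        by_contra hcon
        push Not at hcon
        exact hfree' fun i => ⟨hcon (Sum.inl i), hcon (Sum.inr i)⟩
      have hfu : far s (u i) := hfz _ (Or.inr (Or.inr (Or.inr (Or.inr ⟨i, rfl⟩))))
      have hzone : R.p R.len ∈ cells g.X (Hz i) := by
        refine mem_cells.2 ⟨x', y', ?_, h1⟩
        unfold far at hi
        have e1 : (u i - 2) * m ≤ s' * m := Nat.mul_le_mul_right m (by omega)
        have e2 : (s' + 1) * m ≤ (u i + 3) * m := Nat.mul_le_mul_right m (by omega)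
        exact ⟨by simp only; omega, by simp only; omega, by simp only; omega,
          by simp only; omega⟩
      rcases hfu with h | h
      · refine hL3 i s ⟨hgs, h⟩ (fun z hz => hfz z (Or.inr (Or.inr (Or.inr (Or.inl
          (Or.inr ⟨i, hz⟩)))))) R ⟨hD, hzone, hlen, hint⟩ ?_
        intro v hv
        exact ⟨fun h => hRA v hv (Or.inl (Finset.mem_coe.1 h)),
          fun h => hRA v hv (Or.inr (Or.inr (Or.inr (Or.inr ⟨i, h⟩))))⟩
      · refine hR3 i s ⟨hgs, h⟩ (fun z hz => hfz z (Or.inr (Or.inr (Or.inr (Or.inl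
          (Or.inl ⟨i, hz⟩)))))) R ⟨hD, hzone, hlen, hint⟩ ?_
        intro v hv
        exact ⟨fun h => hRA v hv (Or.inl (Finset.mem_coe.1 h)),
          fun h => hRA v hv (Or.inr (Or.inr (Or.inr (Or.inl ⟨i, h⟩))))⟩

end StepB

end Pool.Agent.Lib.MP_4d119b_lc
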