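import Pool.Agent.Lib.MP_4d119b_lc.Cells

/-! The torso of a cell. -/

namespace Pool.Agent.Lib.MP_4d119b_lc

open Set

variable {V : Type}

/-- attachments of `Y` in `S` -/
def att (G : SimpleGraph V) (S Y : Set V) : Set V := {v | v ∈ S ∧ ∃ y ∈ Y, G.Adj y v}

theorem att_mono_left {G : SimpleGraph V} {S S' Y : Set V} (h : S ⊆ S') :
    att G S Y ⊆ att G S' Y := fun _ hv => ⟨h hv.1, hv.2⟩

namespace Cell

variable {G : SimpleGraph V} {A : Set V} (c : Cell G A)

/-- flap of `y` with respect to `S` -/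
def flapS (S : Set V) (y : V) : Set V := comp G (c.H \ S) y

/-- `S` contains the ports and all flaps have at most three attachments -/
def GoodS (S : Set V) : Prop := (∀ i, c.port i ∈ S) ∧ S ⊆ c.H ∧
  ∀ y ∈ c.H \ S, (att G S (c.flapS S y)).ncard ≤ 3

theorem goodS_H : c.GoodS c.H := ⟨c.port_mem, subset_rfl, fun y hy => absurd hy.1 hy.2⟩

theorem exists_minS : ∃ S, c.GoodS S ∧ ∀ S', c.GoodS S' → S.ncard ≤ S'.ncard := by
  classical
  have hex : ∃ n, ∃ S, c.GoodS S ∧ S.ncard = n := ⟨_, c.H, c.goodS_H, rfl⟩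
  obtain ⟨S, h1, h2⟩ := Nat.find_spec hex
  refine ⟨S, h1, ?_⟩
  intro S' hS'
  rw [h2]
  exact Nat.find_min' hex ⟨S', hS', rfl⟩

/-- minimal good set -/
noncomputable def S : Set V := Classical.choose c.exists_minS

theorem S_good : c.GoodS c.S := (Classical.choose_spec c.exists_minS).1

theorem S_min {S' : Set V} (h : c.GoodS S') : c.S.ncard ≤ S'.ncard :=
  (Classical.choose_spec c.exists_minS).2 S' h

theorem port_S (i : Fin 4) : c.port i ∈ c.S := c.S_good.1 i

theorem S_sub : c.S ⊆ c.H := c.S_good.2.1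

/-- flap of `y` -/
noncomputable def flap (y : V) : Set V := comp G (c.H \ c.S) y

/-- attachments of the flap of `y` -/
noncomputable def fat (y : V) : Set V := att G c.S (c.flap y)

theorem fat_card {y : V} (hy : y ∈ c.H \ c.S) : (c.fat y).ncard ≤ 3 := c.S_good.2.2 y hy

theorem fat_sub (y : V) : c.fat y ⊆ c.S := fun _ h => h.1

/-- the torso graph -/
noncomputable def TG : SimpleGraph V where
  Adj u v := u ≠ v ∧ u ∈ c.S ∧ v ∈ c.S ∧
    (G.Adj u v ∨ ∃ y ∈ c.H \ c.S, u ∈ c.fat y ∧ v ∈ c.fat y)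
  symm := ⟨fun _ _ h => ⟨h.1.symm, h.2.2.1, h.2.1, h.2.2.2.imp (fun h => h.symm)
    (fun ⟨y, h1, h2, h3⟩ => ⟨y, h1, h3, h2⟩)⟩⟩
  loopless := ⟨fun _ h => h.1 rfl⟩

theorem flap_conn {y : V} (hy : y ∈ c.H \ c.S) : Conn G (c.flap y) := comp_conn hy

theorem flap_sub {y : V} (hy : y ∈ c.H \ c.S) : c.flap y ⊆ c.H \ c.S := comp_subset hy

theorem mem_flap_self (y : V) : y ∈ c.flap y := mem_comp_self

theorem flap_eq {y z : V} (h : z ∈ c.flap y) : c.flap z = c.flap y := comp_eq_of_mem h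

theorem fat_eq {y z : V} (h : z ∈ c.flap y) : c.fat z = c.fat y := by
  unfold fat; rw [c.flap_eq h]

theorem flap_closed {y a b : V} (hy : y ∈ c.H \ c.S) (ha : a ∈ c.flap y) (hb : b ∈ c.H \ c.S)
    (hab : G.Adj a b) : b ∈ c.flap y := comp_closed hy ha hb hab

theorem flap_eq_or_disjoint (y z : V) : c.flap y = c.flap z ∨ Disjoint (c.flap y) (c.flap z) :=
  comp_eq_or_disjoint G _ y z

/-- a neighbour in `H` of a flap vertex is in the flap or an attachment -/
theorem flap_nb {y a b : V} (hy : y ∈ c.H \ c.S) (ha : a ∈ c.flap y) (hb : b ∈ c.H)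
    (hab : G.Adj a b) : b ∈ c.flap y ∨ b ∈ c.fat y := by
  by_cases hbS : b ∈ c.S
  · exact Or.inr ⟨hbS, a, ha, hab⟩
  · exact Or.inl (c.flap_closed hy ha ⟨hb, hbS⟩ hab)

/-- **(star)**: no set of at most three vertices separates a torso vertex from the ports -/
theorem star [Finite V] (C : Finset V) (hC : C.card ≤ 3) (x : V) (hx : x ∈ c.S) (hxC : x ∉ C) :
    ∃ i, c.port i ∉ C ∧ RIn c.TG (c.S \ ↑C) x (c.port i) := by
  by_contra hcon
  push Not at hcon
  set D := comp c.TG (c.S \ ↑C) x with hD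
  have hxSC : x ∈ c.S \ (↑C : Set V) := ⟨hx, hxC⟩
  have hDsub : D ⊆ c.S \ ↑C := comp_subset hxSC
  have hDport : ∀ i, c.port i ∉ D := by
    intro i hi
    exact hcon i (hDsub hi).2 hi
  set S' := c.S \ D with hS'
  have hS'good : c.GoodS S' := by
    refine ⟨fun i => ⟨c.port_S i, hDport i⟩, sdiff_subset.trans c.S_sub, ?_⟩
    intro y hy
    -- the closed set of D and the flaps touching it
    set E : Set V := D ∪ {v | v ∈ c.H \ c.S ∧ (c.fat v ∩ D).Nonempty} with hE
    have hEclosed : ∀ a b, a ∈ c.H \ S' → b ∈ c.H \ S' → G.Adj a b → a ∈ E → b ∈ E := by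
      intro a b _ hb hab haE
      by_cases hbD : b ∈ D
      · exact Or.inl hbD
      · have hbS : b ∉ c.S := fun h => hb.2 ⟨h, hbD⟩
        right
        refine ⟨⟨hb.1, hbS⟩, ?_⟩
        rcases haE with haD | ⟨haS, haf⟩
        · exact ⟨a, ⟨(hDsub haD).1, b, c.mem_flap_self b, hab.symm⟩, haD⟩
        · rw [c.fat_eq (z := b) (y := a) (c.flap_closed haS (c.mem_flap_self a)
            ⟨hb.1, hbS⟩ hab)]
          exact haf
    have hatt : ∀ v, v ∈ S' → (∃ e ∈ E, G.Adj e v) → v ∈ C := by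
      rintro v hv ⟨e, heE, hev⟩
      by_contra hvC
      apply hv.2
      rcases heE with heD | ⟨heS, d, hd1, hd2⟩
      · exact comp_closed hxSC heD ⟨hv.1, hvC⟩ ⟨hev.ne, (hDsub heD).1, hv.1, Or.inl hev⟩
      · refine comp_closed hxSC hd2 ⟨hv.1, hvC⟩ ⟨?_, (hDsub hd2).1, hv.1, Or.inr ⟨e, heS, hd1,
          hv.1, e, c.mem_flap_self e, hev⟩⟩
        rintro rfl
        exact hv.2 hd2
    by_cases hmeet : (c.flapS S' y ∩ E).Nonempty
    · -- contained in E
      obtain ⟨e, he1, he2⟩ := hmeet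
      have hsub : c.flapS S' y ⊆ E := by
        intro z hz
        have hze : RIn G (c.H \ S') e z := RIn.trans (RIn.symm he1) hz
        exact hze.closed (P := fun z => z ∈ E) he2
          (fun a b ha hb hab haE => hEclosed a b ha hb hab haE)
      have h1 : att G S' (c.flapS S' y) ⊆ ↑C := by
        rintro v ⟨hv, w, hw, hwv⟩
        exact hatt v hv ⟨w, hsub hw, hwv⟩
      calc (att G S' (c.flapS S' y)).ncard ≤ (↑C : Set V).ncard :=
            Set.ncard_le_ncard h1 (Set.toFinite _)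
        _ = C.card := Set.ncard_coe_finset C
        _ ≤ 3 := hC
    · -- equal to an old flap
      have hyE : y ∉ E := fun h => hmeet ⟨y, mem_comp_self, h⟩
      have hyS : y ∈ c.H \ c.S := by
        refine ⟨hy.1, fun h => ?_⟩
        by_cases hyD : y ∈ D
        · exact hyE (Or.inl hyD)
        · exact hy.2 ⟨h, hyD⟩
      have hsub : c.flapS S' y ⊆ c.flap y := by
        intro z hz
        refine RIn.closed (P := fun z => z ∈ c.flap y) hz (c.mem_flap_self y) ?_
        intro a b ha hb hab haf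
        refine c.flap_closed hyS haf ⟨hb.1, fun hbS => ?_⟩ hab
        have hbD : b ∈ D := by
          by_contra hbD
          exact hb.2 ⟨hbS, hbD⟩
        apply hyE
        right
        refine ⟨hyS, b, ⟨hbS, a, haf, hab⟩, hbD⟩
      have h1 : att G S' (c.flapS S' y) ⊆ c.fat y := by
        rintro v ⟨hv, w, hw, hwv⟩
        exact ⟨hv.1, w, hsub hw, hwv⟩
      exact (Set.ncard_le_ncard h1 (Set.toFinite _)).trans (c.fat_card hyS)
  have hlt : S'.ncard < c.S.ncard := by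
    apply Set.ncard_lt_ncard _ (Set.toFinite _)
    refine ⟨sdiff_subset, fun h => ?_⟩
    exact (h hx).2 mem_comp_self
  exact absurd (c.S_min hS'good) (by omega)

/-! ### belts and flaps -/

/-- a flap contains no belt -/
theorem belt_not_sub_flap [Finite V] {y : V} (hy : y ∈ c.H \ c.S) {k : ℕ} (hk : k < 40) :
    ¬ c.belt k ⊆ c.flap y := by
  intro hsub
  obtain ⟨L, hL1, hL2⟩ := c.belt_link k hk
  have h1 : ∀ i, ∃ v, v ∈ L i ∧ v ∈ c.fat y := by
    intro i
    obtain ⟨hLc, hLH, hLp, z, hzL, hzb⟩ := hL1 i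
    have hpf : c.port i ∉ c.flap y := fun h => (c.flap_sub hy h).2 (c.port_S i)
    obtain ⟨a, b, _, haf, hbf, hab, haL, hbL⟩ := hLc.exit (T := c.flap y) hzL (hsub hzb) hLp hpf
    rcases c.flap_nb hy haf (hLH hbL) hab with h | h
    · exact absurd h hbf
    · exact ⟨b, hbL, h⟩
  choose f hf1 hf2 using h1
  have hinj : Function.Injective f := by
    intro i j hij
    by_contra hne
    exact Set.disjoint_left.1 (hL2 i j hne) (hf1 i) (hij ▸ hf1 j)
  have hcard : (Set.range f).ncard ≤ (c.fat y).ncard :=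
    Set.ncard_le_ncard (by rintro _ ⟨i, rfl⟩; exact hf2 i) (Set.toFinite _)
  rw [← Set.image_univ, Set.ncard_image_of_injective _ hinj, Set.ncard_univ,
    Nat.card_eq_fintype_card, Fintype.card_fin] at hcard
  have := c.fat_card hy
  omega

/-- a belt meeting a flap or its attachments contains an attachment -/
theorem belt_meets_fat [Finite V] {y : V} (hy : y ∈ c.H \ c.S) {k : ℕ} (hk : k < 40)
    (h : (c.belt k ∩ (c.flap y ∪ c.fat y)).Nonempty) : (c.belt k ∩ c.fat y).Nonempty := by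
  obtain ⟨z, hzb, hz⟩ := h
  rcases hz with hz | hz
  · have hns := c.belt_not_sub_flap hy hk
    rw [Set.not_subset] at hns
    obtain ⟨w, hwb, hwf⟩ := hns
    obtain ⟨a, b, _, haf, hbf, hab, _, hbb⟩ :=
      (c.belt_conn k hk).exit (T := c.flap y) hzb hz hwb hwf
    rcases c.flap_nb hy haf (c.belt_sub k hk hbb) hab with h | h
    · exact absurd h hbf
    · exact ⟨b, hbb, h⟩
  · exact ⟨z, hzb, hz⟩

/-- the set of belts met by `K` -/
def met (K : Set V) : Set ℕ := {k | k < 40 ∧ (K ∩ c.belt k).Nonempty}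

theorem met_finite (K : Set V) : (c.met K).Finite :=
  (Set.finite_lt_nat 40).subset (fun _ h => h.1)

theorem met_union (K L : Set V) : c.met (K ∪ L) ⊆ c.met K ∪ c.met L := by
  rintro k ⟨hk, z, hz | hz, hzb⟩
  · exact Or.inl ⟨hk, z, hz, hzb⟩
  · exact Or.inr ⟨hk, z, hz, hzb⟩

theorem met_singleton (x : V) : (c.met {x}).ncard ≤ 1 := by
  rw [Set.ncard_le_one (c.met_finite _)]
  rintro k ⟨hk, z, hz, hzb⟩ l ⟨hl, w, hw, hwb⟩
  rw [mem_singleton_iff] at hz hw
  subst hz; subst hw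
  by_contra hne
  exact Set.disjoint_left.1 (c.belt_disj k l hk hl hne) hzb hwb

theorem met_flap [Finite V] {y : V} (hy : y ∈ c.H \ c.S) :
    (c.met (c.flap y ∪ c.fat y)).ncard ≤ 3 := by
  classical
  have h1 : ∀ k ∈ c.met (c.flap y ∪ c.fat y), ∃ v, v ∈ c.belt k ∧ v ∈ c.fat y := by
    rintro k ⟨hk, z, hz, hzb⟩
    obtain ⟨v, hv⟩ := c.belt_meets_fat hy hk ⟨z, hzb, hz⟩
    exact ⟨v, hv.1, hv.2⟩
  have hne : Nonempty V := ⟨y⟩
  choose! f hf1 hf2 using h1
  have := Set.ncard_le_ncard_of_injOn f (s := c.met (c.flap y ∪ c.fat y)) (t := c.fat y)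
    (fun k hk => hf2 k hk) (by
      intro k hk l hl hkl
      by_contra hne
      exact Set.disjoint_left.1 (c.belt_disj k l hk.1 hl.1 hne) (hf1 k hk) (hkl ▸ hf1 l hl))
    (Set.toFinite _)
  exact this.trans (c.fat_card hy)

/-- `x` is deep of level `j` -/
def Deep (j : ℕ) (x : V) : Prop :=
  ∃ K, Conn G K ∧ Disjoint K A ∧ x ∈ K ∧ (K ∩ c.I).Nonempty ∧ (c.met K).ncard ≤ j

variable {c}

theorem Deep.mono {j j' : ℕ} {x : V} (h : c.Deep j x) (hjj : j ≤ j') : c.Deep j' x := by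
  obtain ⟨K, h1, h2, h3, h4, h5⟩ := h
  exact ⟨K, h1, h2, h3, h4, h5.trans hjj⟩

theorem Deep.of_I {x : V} (hx : x ∈ c.I) : c.Deep 1 x := by
  refine ⟨{x}, conn_singleton G x, ?_, rfl, ⟨x, rfl, hx⟩, c.met_singleton x⟩
  rw [Set.disjoint_singleton_left]
  exact Set.disjoint_left.1 c.disjA (c.I_sub hx)

/-- a connected set in `G - A` meeting `I` and few belts is inside `H` -/
theorem sub_of_met {K : Set V} (hK : Conn G K) (hKA : Disjoint K A) (hI : (K ∩ c.I).Nonempty)
    (hm : (c.met K).ncard < 40) : K ⊆ c.H := by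
  by_contra hns
  have h1 := c.cross K hK hKA hI hns
  have h2 : c.met K = {k | k < 40} := by
    ext k
    exact ⟨fun h => h.1, fun h => ⟨h, h1 k h⟩⟩
  rw [h2] at hm
  have : ({k : ℕ | k < 40} : Set ℕ).ncard = 40 := by
    have : ({k : ℕ | k < 40} : Set ℕ) = ↑(Finset.range 40) := by ext; simp
    rw [this, Set.ncard_coe_finset, Finset.card_range]
  omega

theorem Deep.mem_H {j : ℕ} {x : V} (h : c.Deep j x) (hj : j < 40) : x ∈ c.H := by
  obtain ⟨K, h1, h2, h3, h4, h5⟩ := h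
  exact sub_of_met h1 h2 h4 (by omega) h3

theorem Deep.notA {j : ℕ} {x : V} (h : c.Deep j x) : x ∉ A := by
  obtain ⟨K, h1, h2, h3, h4, h5⟩ := h
  exact Set.disjoint_left.1 h2 h3

/-- neighbours of deep vertices -/
theorem Deep.nb {j : ℕ} {x z : V} (h : c.Deep j x) (hxz : G.Adj x z) (hz : z ∉ A) :
    c.Deep (j + 1) z := by
  obtain ⟨K, h1, h2, h3, h4, h5⟩ := h
  refine ⟨K ∪ {z}, h1.union_touch (conn_singleton G z) ⟨x, h3, z, rfl, hxz⟩, ?_, Or.inr rfl,
    ?_, ?_⟩
  · rw [Set.disjoint_union_left]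
    exact ⟨h2, by simpa using hz⟩
  · obtain ⟨w, hw1, hw2⟩ := h4
    exact ⟨w, Or.inl hw1, hw2⟩
  · calc (c.met (K ∪ {z})).ncard ≤ (c.met K ∪ c.met {z}).ncard :=
          Set.ncard_le_ncard (c.met_union _ _) ((c.met_finite _).union (c.met_finite _))
      _ ≤ (c.met K).ncard + (c.met {z}).ncard := Set.ncard_union_le _ _
      _ ≤ j + 1 := Nat.add_le_add h5 (c.met_singleton z)

/-- a deep vertex is no port -/
theorem Deep.ne_port {j : ℕ} {x : V} (h : c.Deep j x) (hj : j + 1 < 40) (i : Fin 4) :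
    x ≠ c.port i := by
  rintro rfl
  obtain ⟨z, hz1, hz2, hz3⟩ := c.port_out i
  exact hz1 ((h.nb hz3 hz2).mem_H hj)

/-- if some vertex of a flap or an attachment is deep then the union of everything is deep -/
theorem Deep.flap [Finite V] {j : ℕ} {y x : V} (hy : y ∈ c.H \ c.S)
    (hx : x ∈ c.flap y ∪ c.fat y) (h : c.Deep j x) :
    ∃ K, Conn G K ∧ Disjoint K A ∧ c.flap y ∪ c.fat y ⊆ K ∧ (K ∩ c.I).Nonempty ∧
      (c.met K).ncard ≤ j + 3 := by
  obtain ⟨K, h1, h2, h3, h4, h5⟩ := h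
  have hfc : Conn G (c.flap y ∪ c.fat y) := by
    have : c.flap y ∪ c.fat y = c.flap y ∪ ⋃ v : {v // v ∈ c.fat y}, {v.1} := by
      congr 1
      ext v
      simp
    rw [this]
    refine (c.flap_conn hy).union_iUnion (fun v => conn_singleton G _) ?_
    rintro ⟨v, hv⟩
    obtain ⟨w, hw, hwv⟩ := hv.2
    exact Or.inl ⟨w, hw, v, rfl, hwv⟩
  refine ⟨K ∪ (c.flap y ∪ c.fat y), h1.union hfc ⟨x, h3, hx⟩, ?_, subset_union_right, ?_, ?_⟩
  · rw [Set.disjoint_union_left]
    refine ⟨h2, ?_⟩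
    rw [Set.disjoint_union_left]
    exact ⟨c.disjA.mono_left ((c.flap_sub hy).trans sdiff_subset),
      c.disjA.mono_left ((c.fat_sub y).trans c.S_sub)⟩
  · obtain ⟨w, hw1, hw2⟩ := h4
    exact ⟨w, Or.inl hw1, hw2⟩
  · calc (c.met (K ∪ (c.flap y ∪ c.fat y))).ncard
        ≤ (c.met K ∪ c.met (c.flap y ∪ c.fat y)).ncard :=
          Set.ncard_le_ncard (c.met_union _ _) ((c.met_finite _).union (c.met_finite _))
      _ ≤ (c.met K).ncard + (c.met (c.flap y ∪ c.fat y)).ncard := Set.ncard_union_le _ _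
      _ ≤ j + 3 := Nat.add_le_add h5 (c.met_flap hy)

theorem Deep.flap_mem [Finite V] {j : ℕ} {y x z : V} (hy : y ∈ c.H \ c.S)
    (hx : x ∈ c.flap y ∪ c.fat y) (h : c.Deep j x) (hz : z ∈ c.flap y ∪ c.fat y) :
    c.Deep (j + 3) z := by
  obtain ⟨K, h1, h2, h3, h4, h5⟩ := Deep.flap hy hx h
  exact ⟨K, h1, h2, h3 hz, h4, h5⟩

/-- a deep flap has all its neighbours outside `A` among its attachments -/
theorem Deep.true_flap [Finite V] {j : ℕ} {y x a z : V} (hj : j + 3 < 40) (hy : y ∈ c.H \ c.S)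
    (hx : x ∈ c.flap y ∪ c.fat y) (h : c.Deep j x) (ha : a ∈ c.flap y) (haz : G.Adj a z)
    (hzA : z ∉ A) : z ∈ c.flap y ∨ z ∈ c.fat y := by
  obtain ⟨K, h1, h2, h3, h4, h5⟩ := Deep.flap hy hx h
  by_cases hzH : z ∈ c.H
  · exact c.flap_nb hy ha hzH haz
  · exfalso
    apply hzH
    have hc : Conn G (K ∪ {z}) :=
      h1.union_touch (conn_singleton G z) ⟨a, h3 (Or.inl ha), z, rfl, haz⟩
    have hd : Disjoint (K ∪ {z}) A := by
      rw [Set.disjoint_union_left]
      exact ⟨h2, by simpa using hzA⟩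
    have hm : (c.met (K ∪ {z})).ncard < 40 := by
      have hm1 : c.met (K ∪ {z}) ⊆ c.met K := by
        rintro k ⟨hk, w, hw | hw, hwb⟩
        · exact ⟨hk, w, hw, hwb⟩
        · rw [mem_singleton_iff] at hw
          subst hw
          exact absurd (c.belt_sub k hk hwb) hzH
      have := Set.ncard_le_ncard hm1 (c.met_finite _)
      omega
    obtain ⟨w, hw1, hw2⟩ := h4
    exact sub_of_met hc hd ⟨w, Or.inl hw1, hw2⟩ hm (Or.inr rfl)

theorem Deep.TG [Finite V] {j : ℕ} {u v : V} (h : c.Deep j u) (huv : c.TG.Adj u v) :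
    c.Deep (j + 3) v := by
  obtain ⟨_, huS, hvS, h1 | ⟨y, hy, h1, h2⟩⟩ := huv
  · exact (h.nb h1 (Set.disjoint_left.1 c.disjA (c.S_sub hvS))).mono (by omega)
  · exact Deep.flap_mem hy (Or.inr h1) h (Or.inr h2)

variable (c)

/-- there is a deep torso vertex -/
theorem exists_deep [Finite V] : ∃ u ∈ c.S, c.Deep 4 u := by
  obtain ⟨x, hx⟩ := c.I_ne
  have hd := Deep.of_I (c := c) hx
  by_cases hxS : x ∈ c.S
  · exact ⟨x, hxS, hd.mono (by omega)⟩
  · have hxH := c.I_sub hx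
    have hpf : c.port 0 ∉ c.flap x := fun h => (c.flap_sub ⟨hxH, hxS⟩ h).2 (c.port_S 0)
    obtain ⟨a, b, _, haf, hbf, hab, _, hbH⟩ := c.conn.exit (T := c.flap x) hxH
      (c.mem_flap_self x) (c.port_mem 0) hpf
    rcases c.flap_nb ⟨hxH, hxS⟩ haf hbH hab with h | h
    · exact absurd h hbf
    · exact ⟨b, h.1, Deep.flap_mem ⟨hxH, hxS⟩ (Or.inl (c.mem_flap_self x)) hd (Or.inr h)⟩

/-- a deep torso vertex has a torso neighbour -/
theorem exists_TG_nb [Finite V] {u : V} (hu : u ∈ c.S) {j : ℕ} (hj : j + 1 < 40)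
    (hd : c.Deep j u) : ∃ v, c.TG.Adj u v := by
  obtain ⟨i, _, hr⟩ := c.star ∅ (by simp) u hu (by simp)
  by_contra hcon
  push Not at hcon
  have : u = c.port i := by
    rcases Relation.ReflTransGen.cases_head hr with h | ⟨v, hv, _⟩
    · exact h
    · exact absurd hv.1 (hcon v)
  exact hd.ne_port hj i this

/-! ### lifting torso sets -/

/-- add to `C` the flaps with at least two attachments in `C` -/
noncomputable def lift (C : Set V) : Set V :=
  C ∪ {v | v ∈ c.H \ c.S ∧ 2 ≤ (c.fat v ∩ C).ncard}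

theorem lift_sub {C : Set V} (hC : C ⊆ c.S) : c.lift C ⊆ c.H := by
  rintro v (hv | hv)
  · exact c.S_sub (hC hv)
  · exact hv.1.1

theorem lift_conn [Finite V] {C : Set V} (hC : C ⊆ c.S) (h : Conn c.TG C) :
    Conn G (c.lift C) := by
  obtain ⟨x0, hx0⟩ := h.1
  have hflap : ∀ y ∈ c.H \ c.S, 2 ≤ (c.fat y ∩ C).ncard → c.flap y ⊆ c.lift C := by
    intro y hy h2 z hz
    right
    exact ⟨c.flap_sub hy hz, by rw [c.fat_eq hz]; exact h2⟩
  have hreach : ∀ a ∈ C, ∀ b ∈ C, c.TG.Adj a b → RIn G (c.lift C) a b := by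
    intro a ha b hb hab
    obtain ⟨hne, _, _, h1 | ⟨y, hy, h1, h2⟩⟩ := hab
    · exact RIn.single h1 (Or.inl ha) (Or.inl hb)
    · have hcard : 2 ≤ (c.fat y ∩ C).ncard := by
        have hsub : ({a, b} : Set V) ⊆ c.fat y ∩ C := by
          rintro v (rfl | rfl)
          · exact ⟨h1, ha⟩
          · exact ⟨h2, hb⟩
        have := Set.ncard_le_ncard hsub (Set.toFinite _)
        rwa [Set.ncard_pair hne] at this
      have hfl := hflap y hy hcard
      obtain ⟨p, hp, hpa⟩ := h1.2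
      obtain ⟨q, hq, hqb⟩ := h2.2
      exact ((RIn.single hpa.symm (Or.inl ha) (hfl hp)).trans
        (((c.flap_conn hy).2 p hp q hq).mono hfl)).tail hqb (hfl hq) (Or.inl hb)
  have hCreach : ∀ y ∈ C, RIn G (c.lift C) x0 y := by
    intro y hy
    have := (RIn.closed (P := fun z => z ∈ C ∧ RIn G (c.lift C) x0 z) (h.2 x0 hx0 y hy)
      ⟨hx0, RIn.refl _ _ _⟩ (fun a b ha hb hab hP => ⟨hb, hP.2.trans (hreach a ha b hb hab)⟩))
    exact this.2
  refine conn_of_reach (x := x0) (Or.inl hx0) ?_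
  rintro y (hy | ⟨hy, h2⟩)
  · exact hCreach y hy
  · have hne : (c.fat y ∩ C).Nonempty := by
      rw [← Set.ncard_pos (Set.toFinite _)]; omega
    obtain ⟨a, ha1, ha2⟩ := hne
    obtain ⟨p, hp, hpa⟩ := ha1.2
    have hfl := hflap y hy h2
    exact ((hCreach a ha2).tail hpa.symm (Or.inl ha2) (hfl hp)).trans
      (((c.flap_conn hy).2 p hp y (c.mem_flap_self y)).mono hfl)

theorem lift_disj [Finite V] {C D : Set V} (hC : C ⊆ c.S) (hD : D ⊆ c.S)
    (h : Disjoint C D) : Disjoint (c.lift C) (c.lift D) := by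
  rw [Set.disjoint_left]
  rintro v (hv | hv) (hv' | hv')
  · exact Set.disjoint_left.1 h hv hv'
  · exact hv'.1.2 (hC hv)
  · exact hv.1.2 (hD hv')
  · have h1 := c.fat_card hv.1
    have h2 : ((c.fat v ∩ C) ∪ (c.fat v ∩ D)).ncard ≤ 3 :=
      (Set.ncard_le_ncard (union_subset inter_subset_left inter_subset_left)
        (Set.toFinite _)).trans h1
    rw [Set.ncard_union_eq (h.mono inter_subset_right inter_subset_right) (Set.toFinite _)
      (Set.toFinite _)] at h2
    have := hv.2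
    have := hv'.2
    omega

/-- the lift avoids flaps with at most one attachment in `C` -/
theorem lift_disj_flap {C : Set V} (hC : C ⊆ c.S) {y : V} (hy : y ∈ c.H \ c.S)
    (h : (c.fat y ∩ C).ncard ≤ 1) : Disjoint (c.lift C) (c.flap y) := by
  rw [Set.disjoint_left]
  rintro v (hv | hv) hv'
  · exact (c.flap_sub hy hv').2 (hC hv)
  · have := hv.2
    rw [c.fat_eq hv'] at this
    omega

end Cell

end Pool.Agent.Lib.MP_4d119b_lc
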